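import Mathlib

set_option autoImplicit false

namespace Pool.Agent.Helper647.SG.JFD

open Complex Filter Topology MeasureTheory Set

noncomputable def Pz (N : ℕ) (t : ℝ) : ℂ := ∑ n ∈ Finset.Icc 1 N, (n : ℂ) ^ (-(1 / 2 + I * t))

noncomputable def Bz (Y : ℕ) (β : ℕ → ℝ) (t : ℝ) : ℂ :=
  ∑ h ∈ Finset.Icc 1 Y, ((β h : ℝ) : ℂ) * (h : ℂ) ^ (-(1 / 2 + I * t))

theorem fd_tel (z : ℂ) (hz : z ≠ 0) (m1 m2 : ℤ) (h : m1 ≤ m2) :
    (z - 1) * ∑ k ∈ Finset.Ico m1 m2, z ^ k = z ^ m2 - z ^ m1 := by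
  induction m2, h using Int.leInduction with
  | base => simp
  | succ n hn ih =>
    have h1 : Finset.Ico m1 (n + 1) = insert n (Finset.Ico m1 n) := by
      ext x
      simp only [Finset.mem_Ico, Finset.mem_insert]
      omega
    rw [h1, Finset.sum_insert (by simp), mul_add, ih, zpow_add₀ hz, zpow_one]
    ring

/-- the geometric sum -/
noncomputable def Gs (m1 m2 : ℤ) (θ : ℝ) : ℝ :=
  ‖∑ k ∈ Finset.Ico m1 m2, (Complex.exp (-(I * (θ : ℂ)))) ^ k‖

theorem Gs_nonneg (m1 m2 : ℤ) (θ : ℝ) : 0 ≤ Gs m1 m2 θ := norm_nonneg _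

theorem norm_eθ (θ : ℝ) : ‖Complex.exp (-(I * (θ : ℂ)))‖ = 1 := by
  rw [Complex.norm_exp]
  simp

theorem Gs_le (m1 m2 : ℤ) (h : m1 ≤ m2) (θ : ℝ) : Gs m1 m2 θ ≤ (m2 : ℝ) - m1 := by
  unfold Gs
  refine (norm_sum_le _ _).trans ?_
  have h1 : ∀ k ∈ Finset.Ico m1 m2, ‖(Complex.exp (-(I * (θ : ℂ)))) ^ k‖ = 1 := by
    intro k _
    rw [norm_zpow, norm_eθ, one_zpow]
  rw [Finset.sum_congr rfl h1, Finset.sum_const, Int.card_Ico, nsmul_eq_mul, mul_one]
  have h2 : ((m2 - m1).toNat : ℤ) = m2 - m1 := Int.toNat_of_nonneg (by omega)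
  have h3 : (((m2 - m1).toNat : ℕ) : ℝ) = (((m2 - m1 : ℤ)) : ℝ) := by
    rw [← Int.cast_natCast, h2]
  rw [h3]
  push_cast
  exact le_refl _

theorem Gs_le_div (m1 m2 : ℤ) (h : m1 ≤ m2) (θ : ℝ) (l : ℤ) (d : ℝ) (hd : 0 < d)
    (h1 : |θ - 2 * Real.pi * l| ≤ Real.pi) (h2 : d ≤ |θ - 2 * Real.pi * l|) :
    Gs m1 m2 θ ≤ Real.pi / d := by
  have hπ := Real.pi_pos
  set z := Complex.exp (-(I * (θ : ℂ))) with hz
  have hzn : ‖z‖ = 1 := norm_eθ θ
  have hz0 : z ≠ 0 := Complex.exp_ne_zero _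
  have hz2 : z = Complex.exp (I * ((-(θ - 2 * Real.pi * l) : ℝ) : ℂ)) := by
    rw [hz]
    have h3 : I * ((-(θ - 2 * Real.pi * l) : ℝ) : ℂ) = -(I * (θ : ℂ)) + (l : ℂ) * (2 * Real.pi * I) := by
      push_cast
      ring
    rw [h3, Complex.exp_add, Complex.exp_int_mul_two_pi_mul_I, mul_one]
  have h4 : 2 / Real.pi * d ≤ ‖z - 1‖ := by
    rw [hz2, Complex.norm_exp_I_mul_ofReal_sub_one]
    have h5 : |(-(θ - 2 * Real.pi * l)) / 2| ≤ Real.pi / 2 := by
      rw [abs_div, abs_neg, abs_two]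
      linarith
    have h6 := Real.mul_abs_le_abs_sin h5
    rw [norm_mul, Real.norm_eq_abs, Real.norm_eq_abs, abs_two]
    rw [abs_div, abs_neg, abs_two] at h6
    have h7 : 2 / Real.pi * d ≤ 2 / Real.pi * |θ - 2 * Real.pi * l| := by
      gcongr
    have h8 : 2 / Real.pi * |θ - 2 * Real.pi * l| = 2 * (2 / Real.pi * (|θ - 2 * Real.pi * l| / 2)) := by
      ring
    linarith
  have h9 : 0 < ‖z - 1‖ := lt_of_lt_of_le (by positivity) h4
  have h10 : ‖z - 1‖ * Gs m1 m2 θ ≤ 2 := by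
    have h11 : ‖z - 1‖ * Gs m1 m2 θ = ‖z ^ m2 - z ^ m1‖ := by
      rw [← fd_tel z hz0 m1 m2 h, norm_mul]
      rfl
    rw [h11]
    refine (norm_sub_le _ _).trans ?_
    rw [norm_zpow, norm_zpow, hzn, one_zpow, one_zpow]
    norm_num
  have h12 : Gs m1 m2 θ ≤ 2 / ‖z - 1‖ := by
    rw [le_div_iff₀ h9, mul_comm]
    exact h10
  refine h12.trans ?_
  rw [div_le_div_iff₀ h9 hd]
  have h13 : 2 * d = Real.pi * (2 / Real.pi * d) := by
    field_simp
  rw [h13]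
  gcongr

theorem fd_term (m : ℕ) (hm : 1 ≤ m) (u0 δ : ℝ) (m1 m2 : ℤ) :
    ‖∑ k ∈ Finset.Ico m1 m2, (m : ℂ) ^ (-(1 / 2 + I * ((u0 + δ * k : ℝ) : ℂ)))‖ =
      Real.exp (-(Real.log m) / 2) * Gs m1 m2 (δ * Real.log m) := by
  have hm0 : (m : ℂ) ≠ 0 := by
    exact_mod_cast (by omega : m ≠ 0)
  have h1 : ∀ k : ℤ, (m : ℂ) ^ (-(1 / 2 + I * ((u0 + δ * k : ℝ) : ℂ))) =
      (((Real.exp (-(Real.log m) / 2) : ℝ) : ℂ) * Complex.exp (-(I * ((u0 * Real.log m : ℝ) : ℂ)))) *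
        (Complex.exp (-(I * ((δ * Real.log m : ℝ) : ℂ)))) ^ k := by
    intro k
    rw [Complex.cpow_def_of_ne_zero hm0, ← Complex.natCast_log, Complex.ofReal_exp,
      ← Complex.exp_int_mul, ← Complex.exp_add, ← Complex.exp_add]
    congr 1
    push_cast
    ring
  rw [Finset.sum_congr rfl fun k _ => h1 k, ← Finset.mul_sum, norm_mul, norm_mul, norm_eθ, mul_one]
  congr 1
  rw [Complex.norm_real, Real.norm_eq_abs, abs_of_pos (Real.exp_pos _)]

theorem fd_nonres (m1 m2 : ℤ) (h : m1 ≤ m2) (L δ : ℝ) (hL : 0 < L) (hδ : 0 < δ)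
    (hδL : 1 / L ≤ δ) (m : ℕ) (l : ℤ)
    (h1 : |δ * Real.log m - 2 * Real.pi * l| ≤ Real.pi)
    (h2 : Real.log 2 ≤ |Real.log m - 2 * Real.pi * l / δ|) :
    Gs m1 m2 (δ * Real.log m) ≤ 5 * L := by
  have hlog2 : 0 < Real.log 2 := Real.log_pos (by norm_num)
  have h3 : δ * Real.log 2 ≤ |δ * Real.log m - 2 * Real.pi * l| := by
    have e : δ * Real.log m - 2 * Real.pi * l = δ * (Real.log m - 2 * Real.pi * l / δ) := by
      field_simp
    rw [e, abs_mul, abs_of_pos hδ]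
    gcongr
  have h4 := Gs_le_div m1 m2 h _ l (δ * Real.log 2) (by positivity) h1 h3
  refine h4.trans ?_
  rw [div_le_iff₀ (by positivity)]
  have h5 : 1 ≤ L * δ := by rwa [div_le_iff₀' hL] at hδL
  have h6 : Real.pi ≤ 5 * Real.log 2 := by
    nlinarith [Real.pi_lt_d4, Real.log_two_gt_d9]
  calc Real.pi ≤ 5 * Real.log 2 := h6
    _ ≤ (L * δ) * (5 * Real.log 2) := le_mul_of_one_le_left (by positivity) h5
    _ = 5 * L * (δ * Real.log 2) := by ring

theorem fd_dist (E : ℝ) (hE : 0 < E) (m : ℝ) (hm : 0 < m)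
    (h : |Real.log m - Real.log E| < Real.log 2) :
    E / 2 < m ∧ m < 2 * E ∧ |m - E| / (2 * E) ≤ |Real.log m - Real.log E| := by
  rw [abs_lt] at h
  have h1 : E / 2 < m := by
    have h3 : Real.log (E / 2) < Real.log m := by
      rw [Real.log_div hE.ne' (by norm_num)]
      linarith [h.1]
    exact (Real.log_lt_log_iff (by positivity) hm).1 h3
  have h2 : m < 2 * E := by
    have h3 : Real.log m < Real.log (2 * E) := by
      rw [Real.log_mul (by norm_num) hE.ne']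
      linarith [h.2]
    exact (Real.log_lt_log_iff hm (by positivity)).1 h3
  refine ⟨h1, h2, ?_⟩
  rcases le_or_gt E m with h4 | h4
  · have h5 : 0 ≤ Real.log m - Real.log E := by
      have := Real.log_le_log hE h4
      linarith
    rw [abs_of_nonneg h5, abs_of_nonneg (by linarith), ← Real.log_div hm.ne' hE.ne']
    refine le_trans ?_ (Real.one_sub_inv_le_log_of_pos (by positivity))
    rw [inv_div, div_le_iff₀ (by positivity)]
    have h6 : (1 - E / m) * (2 * E) = (m - E) * (2 * E / m) := by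
      field_simp
    rw [h6]
    have h7 : 1 ≤ 2 * E / m := by
      rw [le_div_iff₀ hm]
      linarith
    nlinarith
  · have h5 : Real.log m - Real.log E < 0 := by
      have := Real.log_lt_log hm h4
      linarith
    have h6 : -(Real.log m - Real.log E) = Real.log (E / m) := by
      rw [Real.log_div hE.ne' hm.ne']
      ring
    rw [abs_of_neg h5, abs_of_neg (by linarith), h6]
    refine le_trans ?_ (Real.one_sub_inv_le_log_of_pos (by positivity))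
    rw [inv_div, div_le_iff₀ (by positivity)]
    have h8 : (1 - m / E) * (2 * E) = 2 * (E - m) := by
      field_simp
    rw [h8]
    linarith

/-- the weight of the distance -/
noncomputable def tw (f m : ℕ) : ℝ :=
  if m < f then 1 / ((f - m : ℕ) : ℝ) else if f + 2 ≤ m then 1 / ((m - f - 1 : ℕ) : ℝ) else 0

theorem tw_nonneg (f m : ℕ) : 0 ≤ tw f m := by
  unfold tw
  split_ifs <;> positivity

theorem sum_tw (f M M2 : ℕ) (hM : M ≤ M2) (hf : f ≤ M2) (S : Finset ℕ) (hS : ∀ m ∈ S, m ≤ M) :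
    ∑ m ∈ S, tw f m ≤ 2 * ∑ j ∈ Finset.Icc 1 M2, 1 / (j : ℝ) := by
  classical
  have h1 : ∑ m ∈ S, tw f m = ∑ m ∈ S.filter (fun m => m < f), 1 / ((f - m : ℕ) : ℝ) +
      ∑ m ∈ S.filter (fun m => f + 2 ≤ m), 1 / ((m - f - 1 : ℕ) : ℝ) := by
    rw [Finset.sum_filter, Finset.sum_filter, ← Finset.sum_add_distrib]
    refine Finset.sum_congr rfl fun m _ => ?_
    unfold tw
    by_cases a : m < f
    · rw [if_pos a, if_pos a, if_neg (by omega), add_zero]
    · rw [if_neg a, if_neg a, zero_add]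
  rw [h1, two_mul]
  refine add_le_add ?_ ?_
  · have h2 : ∑ m ∈ S.filter (fun m => m < f), 1 / ((f - m : ℕ) : ℝ) =
        ∑ j ∈ (S.filter (fun m => m < f)).image (fun m => f - m), 1 / (j : ℝ) := by
      rw [Finset.sum_image]
      intro a ha b hb hab
      have ha' := (Finset.mem_filter.1 (Finset.mem_coe.1 ha)).2
      have hb' := (Finset.mem_filter.1 (Finset.mem_coe.1 hb)).2
      simp only at hab
      omega
    rw [h2]
    refine Finset.sum_le_sum_of_subset_of_nonneg ?_ fun _ _ _ => by positivity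
    intro j hj
    rw [Finset.mem_image] at hj
    obtain ⟨m, hm, rfl⟩ := hj
    have := (Finset.mem_filter.1 hm).2
    rw [Finset.mem_Icc]
    omega
  · have h2 : ∑ m ∈ S.filter (fun m => f + 2 ≤ m), 1 / ((m - f - 1 : ℕ) : ℝ) =
        ∑ j ∈ (S.filter (fun m => f + 2 ≤ m)).image (fun m => m - f - 1), 1 / (j : ℝ) := by
      rw [Finset.sum_image]
      intro a ha b hb hab
      have ha' := (Finset.mem_filter.1 (Finset.mem_coe.1 ha)).2
      have hb' := (Finset.mem_filter.1 (Finset.mem_coe.1 hb)).2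
      simp only at hab
      omega
    rw [h2]
    refine Finset.sum_le_sum_of_subset_of_nonneg ?_ fun _ _ _ => by positivity
    intro j hj
    rw [Finset.mem_image] at hj
    obtain ⟨m, hm, rfl⟩ := hj
    have h3 := (Finset.mem_filter.1 hm)
    have h4 := hS m h3.1
    rw [Finset.mem_Icc]
    omega

theorem fd_point (m1 m2 : ℤ) (h : m1 ≤ m2) (L δ : ℝ) (hL : 0 < L) (hδ : 0 < δ) (hδ1 : δ ≤ 1)
    (hδL : 1 / L ≤ δ) (l : ℤ) (m : ℕ) (hm : 2 ≤ m)
    (hlog : |Real.log m - 2 * Real.pi * l / δ| < Real.log 2) :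
    Gs m1 m2 (δ * Real.log m) ≤
      ((m2 : ℝ) - m1) * (if m = ⌊Real.exp (2 * Real.pi * l / δ)⌋₊ ∨
        m = ⌊Real.exp (2 * Real.pi * l / δ)⌋₊ + 1 then 1 else 0) +
      2 * Real.pi * L * Real.exp (2 * Real.pi * l / δ) *
        tw ⌊Real.exp (2 * Real.pi * l / δ)⌋₊ m := by
  set E := Real.exp (2 * Real.pi * l / δ) with hEdef
  have hE : 0 < E := Real.exp_pos _
  have hlogE : Real.log E = 2 * Real.pi * l / δ := Real.log_exp _
  set f := ⌊E⌋₊ with hf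
  have hf1 : (f : ℝ) ≤ E := Nat.floor_le hE.le
  have hf2 : E < f + 1 := Nat.lt_floor_add_one E
  have hm0 : (0 : ℝ) < m := by
    have : (2 : ℝ) ≤ m := by exact_mod_cast hm
    linarith
  have hπ := Real.pi_pos
  have hP : (0 : ℝ) ≤ (m2 : ℝ) - m1 := by
    have : (m1 : ℝ) ≤ m2 := by exact_mod_cast h
    linarith
  by_cases hc : m = f ∨ m = f + 1
  · rw [if_pos hc, mul_one]
    have h1 := Gs_le m1 m2 h (δ * Real.log m)
    have h2 : 0 ≤ 2 * Real.pi * L * E * tw f m := by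
      have := tw_nonneg f m
      positivity
    linarith
  · rw [if_neg hc, mul_zero, zero_add]
    push Not at hc
    have hd := fd_dist E hE m hm0 (by rw [hlogE]; exact hlog)
    -- the distance
    obtain ⟨j, hj, hjt, hjd⟩ : ∃ j : ℕ, 1 ≤ j ∧ tw f m = 1 / (j : ℝ) ∧ (j : ℝ) ≤ |(m : ℝ) - E| := by
      rcases lt_or_gt_of_ne hc.1 with h3 | h3
      · refine ⟨f - m, by omega, by rw [tw, if_pos h3], ?_⟩
        rw [Nat.cast_sub h3.le]
        have : (m : ℝ) - E ≤ 0 := by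
          have : (m : ℝ) ≤ f := by exact_mod_cast h3.le
          linarith
        rw [abs_of_nonpos this]
        linarith
      · refine ⟨m - f - 1, by omega, by rw [tw, if_neg (by omega), if_pos (by omega)], ?_⟩
        rw [Nat.sub_sub, Nat.cast_sub (by omega)]
        push_cast
        have h4 : (f : ℝ) + 1 + 1 ≤ m := by
          have : f + 1 + 1 ≤ m := by omega
          exact_mod_cast this
        rw [abs_of_nonneg (by linarith)]
        linarith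
    have hj0 : (0 : ℝ) < j := by
      have : (1 : ℝ) ≤ j := by exact_mod_cast hj
      linarith
    have h5 : δ * ((j : ℝ) / (2 * E)) ≤ |δ * Real.log m - 2 * Real.pi * l| := by
      have e : δ * Real.log m - 2 * Real.pi * l = δ * (Real.log m - Real.log E) := by
        rw [hlogE]
        field_simp
      rw [e, abs_mul, abs_of_pos hδ]
      refine mul_le_mul_of_nonneg_left (le_trans ?_ hd.2.2) hδ.le
      gcongr
    have h6 : |δ * Real.log m - 2 * Real.pi * l| ≤ Real.pi := by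
      have e : δ * Real.log m - 2 * Real.pi * l = δ * (Real.log m - 2 * Real.pi * l / δ) := by
        field_simp
      rw [e, abs_mul, abs_of_pos hδ]
      have hl2 : Real.log 2 < 1 := by
        have := Real.log_two_lt_d9
        linarith
      have h7 : δ * |Real.log m - 2 * Real.pi * l / δ| ≤ 1 * 1 :=
        mul_le_mul hδ1 (by linarith) (abs_nonneg _) zero_le_one
      have := Real.pi_gt_three
      linarith
    have h8 := Gs_le_div m1 m2 h _ l (δ * ((j : ℝ) / (2 * E))) (by positivity) h6 h5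
    refine h8.trans ?_
    rw [hjt, div_le_iff₀ (by positivity)]
    have h9 : 1 ≤ L * δ := by rwa [div_le_iff₀' hL] at hδL
    have h10 : 2 * Real.pi * L * E * (1 / (j : ℝ)) * (δ * ((j : ℝ) / (2 * E))) =
        Real.pi * (L * δ) := by
      field_simp
    rw [h10]
    nlinarith

theorem fd_res (m1 m2 : ℤ) (h : m1 ≤ m2) (L δ : ℝ) (hL : 0 < L) (hδ : 0 < δ) (hδ1 : δ ≤ 1)
    (hδL : 1 / L ≤ δ) (l : ℤ) (M M2 : ℕ) (hM2 : 2 * M ≤ M2) :
    ∑ m ∈ (Finset.Icc 2 M).filter (fun m : ℕ =>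
        |Real.log m - 2 * Real.pi * l / δ| < Real.log 2),
      (m : ℝ) ^ (-(1 / 4) : ℝ) * Gs m1 m2 (δ * Real.log m) ≤
      (Real.exp (2 * Real.pi * l / δ) / 2) ^ (-(1 / 4) : ℝ) * (2 * ((m2 : ℝ) - m1) +
        4 * Real.pi * L * Real.exp (2 * Real.pi * l / δ) * ∑ j ∈ Finset.Icc 1 M2, 1 / (j : ℝ)) := by
  classical
  set E := Real.exp (2 * Real.pi * l / δ) with hEdef
  have hE : 0 < E := Real.exp_pos _
  have hlogE : Real.log E = 2 * Real.pi * l / δ := Real.log_exp _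
  set f := ⌊E⌋₊ with hf
  set S := (Finset.Icc 2 M).filter (fun m : ℕ =>
        |Real.log m - 2 * Real.pi * l / δ| < Real.log 2) with hS
  have hP : (0 : ℝ) ≤ (m2 : ℝ) - m1 := by
    have : (m1 : ℝ) ≤ m2 := by exact_mod_cast h
    linarith
  have hπ := Real.pi_pos
  have hH : 0 ≤ ∑ j ∈ Finset.Icc 1 M2, 1 / (j : ℝ) := Finset.sum_nonneg fun _ _ => by positivity
  rcases Finset.eq_empty_or_nonempty S with hem | ⟨m0, hm0⟩
  · rw [hem, Finset.sum_empty]
    positivity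
  have hmem : ∀ m ∈ S, 2 ≤ m ∧ m ≤ M ∧ |Real.log m - 2 * Real.pi * l / δ| < Real.log 2 := by
    intro m hm
    have := Finset.mem_filter.1 hm
    exact ⟨(Finset.mem_Icc.1 this.1).1, (Finset.mem_Icc.1 this.1).2, this.2⟩
  have hpos : ∀ m ∈ S, (0 : ℝ) < m := by
    intro m hm
    have : (2 : ℝ) ≤ m := by exact_mod_cast (hmem m hm).1
    linarith
  have hfM : f ≤ M2 := by
    have hd := fd_dist E hE m0 (hpos m0 hm0) (by rw [hlogE]; exact (hmem m0 hm0).2.2)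
    have h1 : (f : ℝ) ≤ E := Nat.floor_le hE.le
    have h2 : (m0 : ℝ) ≤ M := by exact_mod_cast (hmem m0 hm0).2.1
    have h3 : (f : ℝ) < 2 * M := by linarith [hd.1]
    have h4 : f < 2 * M := by exact_mod_cast h3
    omega
  calc ∑ m ∈ S, (m : ℝ) ^ (-(1 / 4) : ℝ) * Gs m1 m2 (δ * Real.log m)
      ≤ ∑ m ∈ S, (E / 2) ^ (-(1 / 4) : ℝ) * (((m2 : ℝ) - m1) * (if m = f ∨ m = f + 1 then 1 else 0) +
          2 * Real.pi * L * E * tw f m) := by
        refine Finset.sum_le_sum fun m hm => ?_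
        have hd := fd_dist E hE m (hpos m hm) (by rw [hlogE]; exact (hmem m hm).2.2)
        refine mul_le_mul ?_ (fd_point m1 m2 h L δ hL hδ hδ1 hδL l m (hmem m hm).1
          (hmem m hm).2.2) (Gs_nonneg _ _ _) (by positivity)
        exact Real.rpow_le_rpow_of_nonpos (by positivity) hd.1.le (by norm_num)
    _ = (E / 2) ^ (-(1 / 4) : ℝ) * (((m2 : ℝ) - m1) * (∑ m ∈ S, if m = f ∨ m = f + 1 then 1 else 0) +
          2 * Real.pi * L * E * ∑ m ∈ S, tw f m) := by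
        rw [← Finset.mul_sum, Finset.sum_add_distrib, ← Finset.mul_sum, ← Finset.mul_sum]
    _ ≤ (E / 2) ^ (-(1 / 4) : ℝ) * (((m2 : ℝ) - m1) * 2 +
          2 * Real.pi * L * E * (2 * ∑ j ∈ Finset.Icc 1 M2, 1 / (j : ℝ))) := by
        have h5 : (∑ m ∈ S, if m = f ∨ m = f + 1 then (1 : ℝ) else 0) ≤ 2 := by
          rw [Finset.sum_boole]
          have h6 : S.filter (fun m => m = f ∨ m = f + 1) ⊆ {f, f + 1} := by
            intro m hm
            have := (Finset.mem_filter.1 hm).2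
            simpa using this
          have h7 := (Finset.card_le_card h6).trans Finset.card_le_two
          exact_mod_cast h7
        have h8 := sum_tw f M M2 (by omega) hfM S (fun m hm => (hmem m hm).2.1)
        refine mul_le_mul_of_nonneg_left ?_ (by positivity)
        refine add_le_add (mul_le_mul_of_nonneg_left h5 hP) ?_
        exact mul_le_mul_of_nonneg_left h8 (by positivity)
    _ = _ := by ring

theorem sum_quarter (M : ℕ) :
    ∑ m ∈ Finset.Icc 1 M, (m : ℝ) ^ (-(1 / 4) : ℝ) ≤ 2 * (M : ℝ) ^ (3 / 4 : ℝ) := by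
  induction M with
  | zero => simp
  | succ M ih =>
    rw [Finset.sum_Icc_succ_top (by omega)]
    have hM : (0 : ℝ) < ((M + 1 : ℕ) : ℝ) := by positivity
    have h1 : (M : ℝ) ^ (3 / 4 : ℝ) * ((M + 1 : ℕ) : ℝ) ^ (1 / 4 : ℝ) ≤
        3 / 4 * (M : ℝ) + 1 / 4 * ((M + 1 : ℕ) : ℝ) :=
      Real.geom_mean_le_arith_mean2_weighted (by norm_num) (by norm_num) (by positivity)
        hM.le (by norm_num)
    have h2 : ((M + 1 : ℕ) : ℝ) ^ (3 / 4 : ℝ) * ((M + 1 : ℕ) : ℝ) ^ (1 / 4 : ℝ) =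
        ((M + 1 : ℕ) : ℝ) := by
      rw [← Real.rpow_add hM]
      norm_num
    have h3 : ((M + 1 : ℕ) : ℝ) ^ (-(1 / 4) : ℝ) * ((M + 1 : ℕ) : ℝ) ^ (1 / 4 : ℝ) = 1 := by
      rw [← Real.rpow_add hM]
      norm_num
    have h4 : (0 : ℝ) < ((M + 1 : ℕ) : ℝ) ^ (1 / 4 : ℝ) := by positivity
    have h5 : (2 * (M : ℝ) ^ (3 / 4 : ℝ) + ((M + 1 : ℕ) : ℝ) ^ (-(1 / 4) : ℝ)) *
        ((M + 1 : ℕ) : ℝ) ^ (1 / 4 : ℝ) ≤
        (2 * ((M + 1 : ℕ) : ℝ) ^ (3 / 4 : ℝ)) * ((M + 1 : ℕ) : ℝ) ^ (1 / 4 : ℝ) := by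
      rw [add_mul, h3, mul_assoc, mul_assoc, h2]
      push_cast at h1 ⊢
      linarith
    have h6 := le_of_mul_le_mul_right h5 h4
    linarith

theorem fd_total (m1 m2 : ℤ) (h : m1 ≤ m2) (A L δ : ℝ) (hA : 1 ≤ A) (hL : 1 ≤ L)
    (hδL : 1 / L ≤ δ) (hδA : δ ≤ A / L) (hδ1 : δ ≤ 1) (M M2 : ℕ) (hM1 : 1 ≤ M)
    (hM2 : 2 * M ≤ M2) (X : ℝ) (hX : (2 * M : ℝ) ≤ X) (hlogX : Real.log X ≤ 2 * L)
    (hH : ∑ j ∈ Finset.Icc 1 M2, 1 / (j : ℝ) ≤ 3 * L) :
    ∑ m ∈ Finset.Icc 2 M, (m : ℝ) ^ (-(1 / 4) : ℝ) * Gs m1 m2 (δ * Real.log m) ≤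
      A * (86 * L ^ 2 * X ^ (3 / 4 : ℝ) +
        4 * ((m2 : ℝ) - m1) * Real.exp (-(Real.pi * L / (2 * A)))) := by
  classical
  have hL0 : 0 < L := by linarith
  have hδ : 0 < δ := lt_of_lt_of_le (by positivity) hδL
  have hπ := Real.pi_pos
  have hP : (0 : ℝ) ≤ (m2 : ℝ) - m1 := by
    have : (m1 : ℝ) ≤ m2 := by exact_mod_cast h
    linarith
  have hM0 : (1 : ℝ) ≤ M := by exact_mod_cast hM1
  have hX0 : 0 < X := by linarith
  -- resonances
  have hres : ∀ l ∈ Finset.Icc (1 : ℤ) ⌊A⌋,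
      ∑ m ∈ (Finset.Icc 2 M).filter (fun m : ℕ =>
        |Real.log m - 2 * Real.pi * l / δ| < Real.log 2),
      (m : ℝ) ^ (-(1 / 4) : ℝ) * Gs m1 m2 (δ * Real.log m) ≤
      76 * L ^ 2 * X ^ (3 / 4 : ℝ) +
        4 * ((m2 : ℝ) - m1) * Real.exp (-(Real.pi * L / (2 * A))) := by
    intro l hl
    have hl1 : (1 : ℝ) ≤ l := by exact_mod_cast (Finset.mem_Icc.1 hl).1
    rcases Finset.eq_empty_or_nonempty ((Finset.Icc 2 M).filter (fun m : ℕ =>
        |Real.log m - 2 * Real.pi * l / δ| < Real.log 2)) with hem | ⟨m0, hm0⟩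
    · rw [hem, Finset.sum_empty]
      positivity
    · refine (fd_res m1 m2 h L δ hL0 hδ hδ1 hδL l M M2 hM2).trans ?_
      have hm0' := Finset.mem_filter.1 hm0
      have hm1' := Finset.mem_Icc.1 hm0'.1
      set E := Real.exp (2 * Real.pi * l / δ) with hEdef
      have hE : 0 < E := Real.exp_pos _
      have hlogE : Real.log E = 2 * Real.pi * l / δ := Real.log_exp _
      have hm0r : (0 : ℝ) < m0 := by
        have : (2 : ℝ) ≤ m0 := by exact_mod_cast hm1'.1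
        linarith
      have hd := fd_dist E hE m0 hm0r (by rw [hlogE]; exact hm0'.2)
      have hEX : E ≤ X := by
        have : (m0 : ℝ) ≤ M := by exact_mod_cast hm1'.2
        linarith [hd.1]
      have h1 : (E / 2) ^ (-(1 / 4) : ℝ) ≤ 2 * E ^ (-(1 / 4) : ℝ) := by
        rw [Real.div_rpow hE.le (by norm_num), div_le_iff₀ (by positivity)]
        have h2 : (1 : ℝ) / 2 ≤ (2 : ℝ) ^ (-(1 / 4) : ℝ) := by
          have h3 : (2 : ℝ) ^ (-1 : ℝ) ≤ (2 : ℝ) ^ (-(1 / 4) : ℝ) :=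
            Real.rpow_le_rpow_of_exponent_le (by norm_num) (by norm_num)
          rw [Real.rpow_neg_one] at h3
          linarith
        have h4 : 0 < E ^ (-(1 / 4) : ℝ) := by positivity
        nlinarith
      have h5 : E ^ (-(1 / 4) : ℝ) ≤ Real.exp (-(Real.pi * L / (2 * A))) := by
        rw [Real.rpow_def_of_pos hE, hlogE]
        refine Real.exp_le_exp.2 ?_
        have h6 : Real.pi * L / (2 * A) ≤ 2 * Real.pi * l / δ * (1 / 4) := by
          have h7 : L / A ≤ 1 / δ := by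
            rw [div_le_div_iff₀ (by positivity) hδ]
            have := (le_div_iff₀ hL0).1 hδA
            linarith
          have h8 : L / A ≤ l / δ := by
            refine h7.trans ?_
            gcongr
          calc Real.pi * L / (2 * A) = Real.pi / 2 * (L / A) := by
                field_simp
            _ ≤ Real.pi / 2 * (l / δ) := by gcongr
            _ = 2 * Real.pi * l / δ * (1 / 4) := by ring
        linarith
      have h9 : E ^ (-(1 / 4) : ℝ) * E ≤ X ^ (3 / 4 : ℝ) := by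
        have h10 : E ^ (-(1 / 4) : ℝ) * E = E ^ (3 / 4 : ℝ) := by
          nth_rewrite 2 [← Real.rpow_one E]
          rw [← Real.rpow_add hE]
          norm_num
        rw [h10]
        exact Real.rpow_le_rpow hE.le hEX (by norm_num)
      have hEn : 0 < E ^ (-(1 / 4) : ℝ) := by positivity
      have hH0 : 0 ≤ ∑ j ∈ Finset.Icc 1 M2, 1 / (j : ℝ) :=
        Finset.sum_nonneg fun _ _ => by positivity
      calc (E / 2) ^ (-(1 / 4) : ℝ) * (2 * ((m2 : ℝ) - m1) +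
            4 * Real.pi * L * E * ∑ j ∈ Finset.Icc 1 M2, 1 / (j : ℝ))
          ≤ (2 * E ^ (-(1 / 4) : ℝ)) * (2 * ((m2 : ℝ) - m1) +
            4 * Real.pi * L * E * (3 * L)) := by
            refine mul_le_mul h1 ?_ (by positivity) (by positivity)
            gcongr
        _ = 4 * ((m2 : ℝ) - m1) * E ^ (-(1 / 4) : ℝ) +
            24 * Real.pi * L ^ 2 * (E ^ (-(1 / 4) : ℝ) * E) := by ring
        _ ≤ 4 * ((m2 : ℝ) - m1) * Real.exp (-(Real.pi * L / (2 * A))) +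
            76 * L ^ 2 * X ^ (3 / 4 : ℝ) := by
            refine add_le_add (mul_le_mul_of_nonneg_left h5 (by positivity)) ?_
            have h11 : 24 * Real.pi ≤ 76 := by
              have := Real.pi_lt_d4
              linarith
            have h12 : 0 ≤ E ^ (-(1 / 4) : ℝ) * E := by positivity
            calc 24 * Real.pi * L ^ 2 * (E ^ (-(1 / 4) : ℝ) * E)
                ≤ 76 * L ^ 2 * (E ^ (-(1 / 4) : ℝ) * E) := by gcongr
              _ ≤ 76 * L ^ 2 * X ^ (3 / 4 : ℝ) := by gcongr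
        _ = _ := by ring
  -- pointwise
  have hpt : ∀ m ∈ Finset.Icc 2 M, (m : ℝ) ^ (-(1 / 4) : ℝ) * Gs m1 m2 (δ * Real.log m) ≤
      (m : ℝ) ^ (-(1 / 4) : ℝ) * (5 * L) + ∑ l ∈ Finset.Icc (1 : ℤ) ⌊A⌋,
        if |Real.log m - 2 * Real.pi * l / δ| < Real.log 2 then
          (m : ℝ) ^ (-(1 / 4) : ℝ) * Gs m1 m2 (δ * Real.log m) else 0 := by
    intro m hm
    have hm' := Finset.mem_Icc.1 hm
    have hm2 : (2 : ℝ) ≤ m := by exact_mod_cast hm'.1
    have hmM : (m : ℝ) ≤ M := by exact_mod_cast hm'.2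
    have hG := Gs_nonneg m1 m2 (δ * Real.log m)
    have hw : 0 ≤ (m : ℝ) ^ (-(1 / 4) : ℝ) := by positivity
    have hlogm : Real.log 2 ≤ Real.log m := Real.log_le_log (by norm_num) hm2
    have hlog2 : 0 < Real.log 2 := Real.log_pos (by norm_num)
    set l := round (δ * Real.log m / (2 * Real.pi)) with hl
    have h1 : |δ * Real.log m - 2 * Real.pi * l| ≤ Real.pi := by
      have h2 := abs_sub_round (δ * Real.log m / (2 * Real.pi))
      have h3 : δ * Real.log m - 2 * Real.pi * l =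
          (2 * Real.pi) * (δ * Real.log m / (2 * Real.pi) - l) := by
        field_simp
      rw [h3, abs_mul, abs_of_pos (by positivity)]
      calc 2 * Real.pi * |δ * Real.log m / (2 * Real.pi) - l| ≤ 2 * Real.pi * (1 / 2) := by
            gcongr
        _ = Real.pi := by ring
    have hnn : ∀ l' ∈ Finset.Icc (1 : ℤ) ⌊A⌋, 0 ≤ (if |Real.log m - 2 * Real.pi * l' / δ| <
        Real.log 2 then (m : ℝ) ^ (-(1 / 4) : ℝ) * Gs m1 m2 (δ * Real.log m) else 0) := by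
      intro l' _
      split_ifs
      · positivity
      · exact le_refl _
    rcases le_or_gt (Real.log 2) |Real.log m - 2 * Real.pi * l / δ| with h2 | h2
    · have h3 := fd_nonres m1 m2 h L δ hL0 hδ hδL m l h1 h2
      have h4 := Finset.sum_nonneg hnn
      have h5 := mul_le_mul_of_nonneg_left h3 hw
      linarith
    · have hl1 : 1 ≤ l := by
        by_contra hcon
        push Not at hcon
        have h3 : (l : ℝ) ≤ 0 := by
          have : l ≤ 0 := by omega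
          exact_mod_cast this
        have h4 : 2 * Real.pi * l / δ ≤ 0 := by
          apply div_nonpos_of_nonpos_of_nonneg _ hδ.le
          nlinarith
        rw [abs_lt] at h2
        linarith [h2.2]
      have hl2 : l ≤ ⌊A⌋ := by
        rw [Int.le_floor]
        rw [abs_lt] at h2
        have h3 : 2 * Real.pi * l / δ < Real.log m + Real.log 2 := by linarith [h2.1]
        have h4 : Real.log m + Real.log 2 ≤ 2 * L := by
          rw [← Real.log_mul (by positivity) (by norm_num)]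
          refine le_trans (Real.log_le_log (by positivity) ?_) hlogX
          linarith
        have h5 : 2 * Real.pi * l < 2 * L * δ := by
          rw [div_lt_iff₀ hδ] at h3
          nlinarith
        have h6 : L * δ ≤ A := by
          have := (le_div_iff₀ hL0).1 hδA
          linarith
        have h7 : (0 : ℝ) < l := by exact_mod_cast (by omega : 0 < l)
        have h8 := Real.pi_gt_three
        nlinarith
      have h3 := Finset.single_le_sum hnn (Finset.mem_Icc.2 ⟨hl1, hl2⟩)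
      rw [if_pos h2] at h3
      have h4 : 0 ≤ (m : ℝ) ^ (-(1 / 4) : ℝ) * (5 * L) := by positivity
      linarith
  have hfl : (⌊A⌋ : ℝ) ≤ A := Int.floor_le A
  have hfl0 : 0 ≤ ⌊A⌋ := Int.floor_nonneg.2 (by linarith)
  calc ∑ m ∈ Finset.Icc 2 M, (m : ℝ) ^ (-(1 / 4) : ℝ) * Gs m1 m2 (δ * Real.log m)
      ≤ ∑ m ∈ Finset.Icc 2 M, ((m : ℝ) ^ (-(1 / 4) : ℝ) * (5 * L) +
        ∑ l ∈ Finset.Icc (1 : ℤ) ⌊A⌋,
        if |Real.log m - 2 * Real.pi * l / δ| < Real.log 2 then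
          (m : ℝ) ^ (-(1 / 4) : ℝ) * Gs m1 m2 (δ * Real.log m) else 0) :=
        Finset.sum_le_sum hpt
    _ = (∑ m ∈ Finset.Icc 2 M, (m : ℝ) ^ (-(1 / 4) : ℝ)) * (5 * L) +
        ∑ l ∈ Finset.Icc (1 : ℤ) ⌊A⌋, ∑ m ∈ (Finset.Icc 2 M).filter (fun m : ℕ =>
          |Real.log m - 2 * Real.pi * l / δ| < Real.log 2),
          (m : ℝ) ^ (-(1 / 4) : ℝ) * Gs m1 m2 (δ * Real.log m) := by
        rw [Finset.sum_add_distrib, Finset.sum_mul, Finset.sum_comm]
        simp only [Finset.sum_filter]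
    _ ≤ (2 * X ^ (3 / 4 : ℝ)) * (5 * L) + ∑ _l ∈ Finset.Icc (1 : ℤ) ⌊A⌋,
        (76 * L ^ 2 * X ^ (3 / 4 : ℝ) +
        4 * ((m2 : ℝ) - m1) * Real.exp (-(Real.pi * L / (2 * A)))) := by
        refine add_le_add ?_ (Finset.sum_le_sum hres)
        refine mul_le_mul_of_nonneg_right ?_ (by positivity)
        have h1 : ∑ m ∈ Finset.Icc 2 M, (m : ℝ) ^ (-(1 / 4) : ℝ) ≤
            ∑ m ∈ Finset.Icc 1 M, (m : ℝ) ^ (-(1 / 4) : ℝ) := by
          refine Finset.sum_le_sum_of_subset_of_nonneg ?_ fun _ _ _ => by positivity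
          exact Finset.Icc_subset_Icc (by norm_num) le_rfl
        refine h1.trans ((sum_quarter M).trans ?_)
        have h2 : (M : ℝ) ^ (3 / 4 : ℝ) ≤ X ^ (3 / 4 : ℝ) :=
          Real.rpow_le_rpow (by positivity) (by linarith) (by norm_num)
        linarith
    _ ≤ A * (86 * L ^ 2 * X ^ (3 / 4 : ℝ) +
        4 * ((m2 : ℝ) - m1) * Real.exp (-(Real.pi * L / (2 * A)))) := by
        rw [Finset.sum_const, Int.card_Icc, nsmul_eq_mul]
        have h1 : (((⌊A⌋ + 1 - 1).toNat : ℕ) : ℝ) ≤ A := by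
          have h2 : ((⌊A⌋ + 1 - 1).toNat : ℤ) = ⌊A⌋ := by
            rw [add_sub_cancel_right]
            exact Int.toNat_of_nonneg hfl0
          have h3 : (((⌊A⌋ + 1 - 1).toNat : ℕ) : ℝ) = ((((⌊A⌋ + 1 - 1).toNat : ℕ) : ℤ) : ℝ) := by
            rw [Int.cast_natCast]
          rw [h3, h2]
          exact hfl
        set W := 76 * L ^ 2 * X ^ (3 / 4 : ℝ) +
          4 * ((m2 : ℝ) - m1) * Real.exp (-(Real.pi * L / (2 * A))) with hW
        have hW0 : 0 ≤ W := by positivity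
        have h4 := mul_le_mul_of_nonneg_right h1 hW0
        have h5 : (2 * X ^ (3 / 4 : ℝ)) * (5 * L) ≤ A * (10 * L ^ 2 * X ^ (3 / 4 : ℝ)) := by
          have hXp : 0 ≤ X ^ (3 / 4 : ℝ) := by positivity
          have h6 : L ≤ A * L ^ 2 := by nlinarith
          calc (2 * X ^ (3 / 4 : ℝ)) * (5 * L) = 10 * X ^ (3 / 4 : ℝ) * L := by ring
            _ ≤ 10 * X ^ (3 / 4 : ℝ) * (A * L ^ 2) := by gcongr
            _ = _ := by ring
        calc _ ≤ A * (10 * L ^ 2 * X ^ (3 / 4 : ℝ)) + A * W := add_le_add h5 h4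
          _ = _ := by
              rw [hW]
              ring

theorem fd_expand (N Y : ℕ) (β : ℕ → ℝ) (t : ℝ) :
    Pz N t * Bz Y β t ^ 2 =
      ∑ q ∈ Finset.Icc 1 N ×ˢ (Finset.Icc 1 Y ×ˢ Finset.Icc 1 Y),
        ((β q.2.1 * β q.2.2 : ℝ) : ℂ) *
          ((q.1 * (q.2.1 * q.2.2) : ℕ) : ℂ) ^ (-(1 / 2 + I * (t : ℂ))) := by
  unfold Pz Bz
  rw [sq, Finset.sum_mul_sum, ← Finset.sum_product', Finset.sum_mul_sum, ← Finset.sum_product']
  refine Finset.sum_congr rfl fun q _ => ?_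
  rw [Nat.cast_mul, Complex.natCast_mul_natCast_cpow, Nat.cast_mul,
    Complex.natCast_mul_natCast_cpow]
  push_cast
  ring

theorem fd_weight (C : ℝ)
    (hC : ∀ n : ℕ, n ≠ 0 → (n.divisors.card : ℝ) ≤ C * (n : ℝ) ^ (1 / 8 : ℝ)) (m : ℕ)
    (hm : 1 ≤ m) :
    (m.divisors.card : ℝ) ^ 2 * Real.exp (-(Real.log m) / 2) ≤
      C ^ 2 * (m : ℝ) ^ (-(1 / 4) : ℝ) := by
  have hm0 : (0 : ℝ) < m := by
    have : (1 : ℝ) ≤ m := by exact_mod_cast hm
    linarith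
  have h1 := hC m (by omega)
  have h2 : Real.exp (-(Real.log m) / 2) = (m : ℝ) ^ (-(1 / 2) : ℝ) := by
    rw [Real.rpow_def_of_pos hm0]
    congr 1
    ring
  have h3 : (m.divisors.card : ℝ) ^ 2 ≤ (C * (m : ℝ) ^ (1 / 8 : ℝ)) ^ 2 := by
    gcongr
  have h4 : (C * (m : ℝ) ^ (1 / 8 : ℝ)) ^ 2 * (m : ℝ) ^ (-(1 / 2) : ℝ) =
      C ^ 2 * (m : ℝ) ^ (-(1 / 4) : ℝ) := by
    rw [mul_pow, mul_assoc, ← Real.rpow_natCast ((m : ℝ) ^ (1 / 8 : ℝ)) 2, ← Real.rpow_mul hm0.le,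
      ← Real.rpow_add hm0]
    norm_num
  rw [h2, ← h4]
  gcongr

theorem fd_lower (C : ℝ)
    (hC : ∀ n : ℕ, n ≠ 0 → (n.divisors.card : ℝ) ≤ C * (n : ℝ) ^ (1 / 8 : ℝ))
    (N Y : ℕ) (hN : 1 ≤ N) (hY : 1 ≤ Y) (β : ℕ → ℝ) (hβ : ∀ n, |β n| ≤ 1) (hβ1 : β 1 = 1)
    (u0 δ : ℝ) (m1 m2 : ℤ) (h : m1 ≤ m2) :
    ((m2 : ℝ) - m1) - C ^ 2 * ∑ m ∈ Finset.Icc 2 (N * (Y * Y)),
        (m : ℝ) ^ (-(1 / 4) : ℝ) * Gs m1 m2 (δ * Real.log m) ≤
      ‖∑ k ∈ Finset.Ico m1 m2, Pz N (u0 + δ * k) * Bz Y β (u0 + δ * k) ^ 2‖ := by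
  classical
  set Q := Finset.Icc 1 N ×ˢ (Finset.Icc 1 Y ×ˢ Finset.Icc 1 Y) with hQ
  set q0 : ℕ × (ℕ × ℕ) := (1, (1, 1)) with hq0
  have hq0Q : q0 ∈ Q := by
    exact Finset.mem_product.2 ⟨Finset.mem_Icc.2 ⟨le_rfl, hN⟩, Finset.mem_product.2
      ⟨Finset.mem_Icc.2 ⟨le_rfl, hY⟩, Finset.mem_Icc.2 ⟨le_rfl, hY⟩⟩⟩
  have hQm : ∀ q ∈ Q, (1 ≤ q.1 ∧ q.1 ≤ N) ∧ (1 ≤ q.2.1 ∧ q.2.1 ≤ Y) ∧ (1 ≤ q.2.2 ∧ q.2.2 ≤ Y) := by
    intro q hq
    rw [hQ, Finset.mem_product, Finset.mem_product, Finset.mem_Icc, Finset.mem_Icc,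
      Finset.mem_Icc] at hq
    exact hq
  set F : ℕ × (ℕ × ℕ) → ℂ := fun q => ((β q.2.1 * β q.2.2 : ℝ) : ℂ) *
      ∑ k ∈ Finset.Ico m1 m2,
        ((q.1 * (q.2.1 * q.2.2) : ℕ) : ℂ) ^ (-(1 / 2 + I * ((u0 + δ * k : ℝ) : ℂ))) with hF
  have hsum : ∑ k ∈ Finset.Ico m1 m2, Pz N (u0 + δ * k) * Bz Y β (u0 + δ * k) ^ 2 =
      F q0 + ∑ q ∈ Q.erase q0, F q := by
    rw [Finset.add_sum_erase _ _ hq0Q]
    rw [Finset.sum_congr rfl fun (k : ℤ) _ => fd_expand N Y β (u0 + δ * (k : ℝ)), Finset.sum_comm]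
    refine Finset.sum_congr rfl fun q _ => ?_
    rw [hF]
    simp only
    rw [Finset.mul_sum]
  have hF0 : ‖F q0‖ = (m2 : ℝ) - m1 := by
    have h1 : F q0 = ((((m2 : ℝ) - m1 : ℝ)) : ℂ) := by
      rw [hF]
      simp only [hq0, hβ1, mul_one, Nat.cast_one, Complex.one_cpow, Complex.ofReal_one, one_mul,
        Finset.sum_const, Int.card_Ico, nsmul_eq_mul]
      have h2 : ((m2 - m1).toNat : ℤ) = m2 - m1 := Int.toNat_of_nonneg (by omega)
      have h3 : (((m2 - m1).toNat : ℕ) : ℂ) = (((m2 - m1 : ℤ)) : ℂ) := by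
        rw [← Int.cast_natCast, h2]
      rw [h3]
      push_cast
      rfl
    rw [h1, Complex.norm_real, Real.norm_eq_abs, abs_of_nonneg]
    have : (m1 : ℝ) ≤ m2 := by exact_mod_cast h
    linarith
  have hFq : ∀ q ∈ Q.erase q0, ‖F q‖ ≤
      Real.exp (-(Real.log ((q.1 * (q.2.1 * q.2.2) : ℕ) : ℝ)) / 2) *
        Gs m1 m2 (δ * Real.log ((q.1 * (q.2.1 * q.2.2) : ℕ) : ℝ)) := by
    intro q hq
    have hq' := hQm q (Finset.mem_of_mem_erase hq)
    have h1 : 1 ≤ q.1 * (q.2.1 * q.2.2) :=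
      Nat.mul_pos hq'.1.1 (Nat.mul_pos hq'.2.1.1 hq'.2.2.1)
    rw [hF]
    simp only
    rw [norm_mul, fd_term _ h1 u0 δ m1 m2, Complex.norm_real, Real.norm_eq_abs, abs_mul]
    have h2 : |β q.2.1| * |β q.2.2| ≤ 1 := by
      have := mul_le_mul (hβ q.2.1) (hβ q.2.2) (abs_nonneg _) zero_le_one
      linarith
    have h3 : 0 ≤ Real.exp (-(Real.log ((q.1 * (q.2.1 * q.2.2) : ℕ) : ℝ)) / 2) *
        Gs m1 m2 (δ * Real.log ((q.1 * (q.2.1 * q.2.2) : ℕ) : ℝ)) :=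
      mul_nonneg (Real.exp_pos _).le (Gs_nonneg _ _ _)
    exact mul_le_of_le_one_left h3 h2
  have hmaps : ∀ q ∈ Q.erase q0, q.1 * (q.2.1 * q.2.2) ∈ Finset.Icc 2 (N * (Y * Y)) := by
    intro q hq
    have hq' := hQm q (Finset.mem_of_mem_erase hq)
    have hne := Finset.ne_of_mem_erase hq
    rw [Finset.mem_Icc]
    constructor
    · have h1 : 1 ≤ q.1 * (q.2.1 * q.2.2) :=
        Nat.mul_pos hq'.1.1 (Nat.mul_pos hq'.2.1.1 hq'.2.2.1)
      by_contra hcon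
      have h2 : q.1 * (q.2.1 * q.2.2) = 1 := by omega
      have h3 := mul_eq_one.1 h2
      have h4 := mul_eq_one.1 h3.2
      apply hne
      rw [hq0]
      exact Prod.ext h3.1 (Prod.ext h4.1 h4.2)
    · exact Nat.mul_le_mul hq'.1.2 (Nat.mul_le_mul hq'.2.1.2 hq'.2.2.2)
  have hcard : ∀ m ∈ Finset.Icc 2 (N * (Y * Y)),
      (((Q.erase q0).filter fun q => q.1 * (q.2.1 * q.2.2) = m).card : ℝ) ≤
        (m.divisors.card : ℝ) ^ 2 := by
    intro m hm
    have hm0 : m ≠ 0 := by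
      have := (Finset.mem_Icc.1 hm).1
      omega
    have h1 : ((Q.erase q0).filter fun q => q.1 * (q.2.1 * q.2.2) = m).card ≤
        (m.divisors ×ˢ m.divisors).card := by
      refine Finset.card_le_card_of_injOn (fun q => q.2) ?_ ?_
      · intro q hq
        have hq2 := (Finset.mem_filter.1 (Finset.mem_coe.1 hq)).2
        simp only [Finset.coe_product, Set.mem_prod, Finset.mem_coe, Nat.mem_divisors]
        refine ⟨⟨⟨q.1 * q.2.2, ?_⟩, hm0⟩, ⟨⟨q.1 * q.2.1, ?_⟩, hm0⟩⟩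
        · rw [← hq2]
          ring
        · rw [← hq2]
          ring
      · intro q hq q' hq' hqq
        have hq2 := Finset.mem_filter.1 (Finset.mem_coe.1 hq)
        have hq2' := Finset.mem_filter.1 (Finset.mem_coe.1 hq')
        simp only at hqq
        have h3 := hQm q (Finset.mem_of_mem_erase hq2.1)
        have h4 : 0 < q.2.1 * q.2.2 := Nat.mul_pos h3.2.1.1 h3.2.2.1
        have h5 : q.1 * (q.2.1 * q.2.2) = q'.1 * (q.2.1 * q.2.2) := by
          rw [hq2.2]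
          conv_rhs => rw [hqq]
          exact hq2'.2.symm
        have h6 := Nat.eq_of_mul_eq_mul_right h4 h5
        exact Prod.ext h6 hqq
    rw [Finset.card_product] at h1
    calc (((Q.erase q0).filter fun q => q.1 * (q.2.1 * q.2.2) = m).card : ℝ)
        ≤ ((m.divisors.card * m.divisors.card : ℕ) : ℝ) := by exact_mod_cast h1
      _ = (m.divisors.card : ℝ) ^ 2 := by
          push_cast
          ring
  have hrest : ‖∑ q ∈ Q.erase q0, F q‖ ≤ C ^ 2 * ∑ m ∈ Finset.Icc 2 (N * (Y * Y)),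
        (m : ℝ) ^ (-(1 / 4) : ℝ) * Gs m1 m2 (δ * Real.log m) := by
    refine (norm_sum_le _ _).trans ((Finset.sum_le_sum hFq).trans ?_)
    rw [← Finset.sum_fiberwise_of_maps_to hmaps, Finset.mul_sum]
    refine Finset.sum_le_sum fun m hm => ?_
    have h1 : ∀ q ∈ (Q.erase q0).filter fun q => q.1 * (q.2.1 * q.2.2) = m,
        Real.exp (-(Real.log ((q.1 * (q.2.1 * q.2.2) : ℕ) : ℝ)) / 2) *
        Gs m1 m2 (δ * Real.log ((q.1 * (q.2.1 * q.2.2) : ℕ) : ℝ)) =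
        Real.exp (-(Real.log (m : ℝ)) / 2) * Gs m1 m2 (δ * Real.log (m : ℝ)) := by
      intro q hq
      rw [(Finset.mem_filter.1 hq).2]
    rw [Finset.sum_congr rfl h1, Finset.sum_const, nsmul_eq_mul]
    have hG := Gs_nonneg m1 m2 (δ * Real.log m)
    have hw := fd_weight C hC m (by have := (Finset.mem_Icc.1 hm).1; omega)
    calc (((Q.erase q0).filter fun q => q.1 * (q.2.1 * q.2.2) = m).card : ℝ) *
          (Real.exp (-(Real.log (m : ℝ)) / 2) * Gs m1 m2 (δ * Real.log (m : ℝ)))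
        ≤ (m.divisors.card : ℝ) ^ 2 *
          (Real.exp (-(Real.log (m : ℝ)) / 2) * Gs m1 m2 (δ * Real.log (m : ℝ))) :=
          mul_le_mul_of_nonneg_right (hcard m hm) (mul_nonneg (Real.exp_pos _).le hG)
      _ = ((m.divisors.card : ℝ) ^ 2 * Real.exp (-(Real.log (m : ℝ)) / 2)) *
          Gs m1 m2 (δ * Real.log (m : ℝ)) := by ring
      _ ≤ (C ^ 2 * (m : ℝ) ^ (-(1 / 4) : ℝ)) * Gs m1 m2 (δ * Real.log (m : ℝ)) :=
          mul_le_mul_of_nonneg_right hw hG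
      _ = _ := by ring
  rw [hsum]
  have h1 := norm_sub_le (F q0 + ∑ q ∈ Q.erase q0, F q) (∑ q ∈ Q.erase q0, F q)
  rw [add_sub_cancel_right, hF0] at h1
  linarith

theorem fd_events (A C : ℝ) (hA : 1 ≤ A) (hC1 : 1 ≤ C) :
    ∃ T0 : ℝ, 8 ≤ T0 ∧ ∀ T : ℝ, T0 ≤ T → 1 ≤ Real.log T ∧ A ≤ Real.log T ∧
      32 ≤ T ^ (0.006 : ℝ) ∧
      C ^ 2 * A * 86 * Real.log T ^ 2 * T ^ (0.7575 : ℝ) ≤ T / 32 ∧
      C ^ 2 * A * 4 * Real.exp (-(Real.pi * Real.log T / (2 * A))) ≤ 1 / 8 := by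
  have hA0 : 0 < A := by linarith
  have hC0 : 0 < C := by linarith
  have e1 : ∀ᶠ T : ℝ in atTop, 1 ≤ Real.log T := Real.tendsto_log_atTop.eventually_ge_atTop 1
  have e2 : ∀ᶠ T : ℝ in atTop, A ≤ Real.log T := Real.tendsto_log_atTop.eventually_ge_atTop A
  have e3 : ∀ᶠ T : ℝ in atTop, 32 ≤ T ^ (0.006 : ℝ) :=
    (tendsto_rpow_atTop (by norm_num)).eventually_ge_atTop 32
  have e4 : ∀ᶠ T : ℝ in atTop,
      C ^ 2 * A * 86 * Real.log T ^ 2 * T ^ (0.7575 : ℝ) ≤ T / 32 := by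
    have h1 := isLittleO_log_rpow_rpow_atTop (2 : ℝ) (show (0 : ℝ) < 0.2425 by norm_num)
    have h2 := h1.def (show (0 : ℝ) < 1 / (32 * (C ^ 2 * A * 86)) by positivity)
    filter_upwards [h2, eventually_ge_atTop (1 : ℝ)] with T hT hT1
    have hT0 : 0 < T := by linarith
    have hl : 0 ≤ Real.log T := Real.log_nonneg hT1
    rw [Real.norm_eq_abs, Real.norm_eq_abs, abs_of_nonneg (by positivity),
      abs_of_nonneg (by positivity), Real.rpow_two] at hT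
    have h3 : T ^ (0.2425 : ℝ) * T ^ (0.7575 : ℝ) = T := by
      rw [← Real.rpow_add hT0]
      norm_num
    calc C ^ 2 * A * 86 * Real.log T ^ 2 * T ^ (0.7575 : ℝ)
        ≤ C ^ 2 * A * 86 * (1 / (32 * (C ^ 2 * A * 86)) * T ^ (0.2425 : ℝ)) *
          T ^ (0.7575 : ℝ) := by gcongr
      _ = (T ^ (0.2425 : ℝ) * T ^ (0.7575 : ℝ)) / 32 := by
          field_simp
      _ = T / 32 := by rw [h3]
  have e5 : ∀ᶠ T : ℝ in atTop,
      C ^ 2 * A * 4 * Real.exp (-(Real.pi * Real.log T / (2 * A))) ≤ 1 / 8 := by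
    have h1 : Tendsto (fun T : ℝ => Real.pi / (2 * A) * Real.log T) atTop atTop :=
      Real.tendsto_log_atTop.const_mul_atTop (by have := Real.pi_pos; positivity)
    have h2 : Tendsto (fun T : ℝ => Real.exp (-(Real.pi / (2 * A) * Real.log T))) atTop (𝓝 0) :=
      Real.tendsto_exp_neg_atTop_nhds_zero.comp h1
    have h3 : Tendsto (fun T : ℝ => C ^ 2 * A * 4 *
        Real.exp (-(Real.pi / (2 * A) * Real.log T))) atTop (𝓝 (C ^ 2 * A * 4 * 0)) :=
      h2.const_mul _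
    rw [mul_zero] at h3
    filter_upwards [h3.eventually_lt_const (show (0 : ℝ) < 1 / 8 by norm_num)] with T hT
    have h4 : Real.pi * Real.log T / (2 * A) = Real.pi / (2 * A) * Real.log T := by ring
    rw [h4]
    exact hT.le
  obtain ⟨T0, hT0⟩ := eventually_atTop.1 (e1.and (e2.and (e3.and (e4.and e5))))
  exact ⟨max T0 8, le_max_right _ _, fun T hT => hT0 T ((le_max_left _ _).trans hT)⟩

theorem sum_inv_le (M2 : ℕ) :
    ∑ j ∈ Finset.Icc 1 M2, 1 / (j : ℝ) ≤ 1 + Real.log M2 := by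
  have h1 := harmonic_le_one_add_log M2
  rw [harmonic_eq_sum_Icc] at h1
  push_cast at h1
  simpa [one_div] using h1

/- TASK (helper647, project SG3): prove this theorem (axioms propext, Classical.choice, Quot.sound only; helper lemmas welcome;
keep the statement, the definitions and the namespace). Discrete first moment along a lattice with at least one point per 1/log T.
PROOF. Let P = m2 - m1 ≥ T/(4δ) ≥ T log T/(4A), u_k = u0 + δ k. The sum is ∑_{n,a,b} β_a β_b (nab)^{-1/2} ∑_k (nab)^{-i u_k}; the terms with nab = 1 give P. For m = nab ≥ 2 put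
x_m = δ log m/(2π); the geometric sum is ‖∑_k m^{-i u_k}‖ ≤ min (P, 1/(2 ‖x_m‖)), ‖x‖ = distance to the nearest integer (|sin πx| ≥ 2‖x‖). The number of (n,a,b) with nab = m is
≤ d(m)² ≤ C² m^{1/4}, so the remaining terms are ≤ C² ∑_{2 ≤ m ≤ 16 T Y²} m^{-1/4} min (P, 1/(2‖x_m‖)), 16 T Y² ≤ T^{1.01}. Let l = nearest integer to x_m, 0 ≤ l ≤ A + 1, E_l = exp (2πl/δ), |x_m - l| = δ |log (m/E_l)|/(2π),
δ ≥ 1/log T. (i) All m with |log (m/E_l)| ≥ log 2 (all m ≥ 2 with l = 0 are such): 1/(2‖x_m‖) ≤ 5 log T, total ≤ C' T^{0.77} log T. (ii) l ≥ 1, E_l/2 ≤ m ≤ 2E_l, |m - E_l| ≥ 1: |log (m/E_l)| ≥ |m - E_l|/(2E_l), so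
1/(2‖x_m‖) ≤ 7 E_l log T/|m - E_l| ; sum over m ≤ C' E_l^{3/4} log² T ≤ C' T^{0.77} log² T. (iii) the ≤ 2 numbers m with |m - E_l| < 1: ≤ P m^{-1/4} ≤ 2 P E_l^{-1/4} ≤ 2 P T^{-π/(2A)} (E_l ≥ exp (2π log T/A)).
The total over l ≤ A + 1 is ≤ P/4 for T ≥ T0(A). -/
theorem fd (hdiv : ∃ C : ℝ, 1 ≤ C ∧ ∀ n : ℕ, n ≠ 0 → (n.divisors.card : ℝ) ≤ C * (n : ℝ) ^ (1 / 8 : ℝ)) (A : ℝ) (hA : 1 ≤ A) :
    ∃ T0 : ℝ, 8 ≤ T0 ∧ ∀ (T δ u0 : ℝ) (Y N : ℕ) (β : ℕ → ℝ) (m1 m2 : ℤ), T0 ≤ T → 1 / Real.log T ≤ δ → δ ≤ A / Real.log T →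
      1 ≤ Y → (Y : ℝ) ≤ T ^ (1 / 500 : ℝ) → 1 ≤ N → (N : ℝ) ≤ 16 * T → (∀ n, |β n| ≤ 1) → β 1 = 1 → m1 ≤ m2 →
      T / (4 * δ) ≤ (m2 : ℝ) - m1 → T / 2 ≤ u0 + δ * m1 → u0 + δ * m2 ≤ 4 * T →
        3 / 4 * ((m2 : ℝ) - m1) ≤ ‖∑ k ∈ Finset.Ico m1 m2, Pz N (u0 + δ * k) * Bz Y β (u0 + δ * k) ^ 2‖ := by
  obtain ⟨C, hC1, hC⟩ := hdiv
  obtain ⟨T0, hT08, hT0⟩ := fd_events A C hA hC1
  refine ⟨T0, hT08, ?_⟩
  intro T δ u0 Y N β m1 m2 hT hδL hδA hY hYT hN hNT hβ hβ1 hm hP _ _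
  obtain ⟨hL1, hLA, h32, hev4, hev5⟩ := hT0 T hT
  have hT8 : 8 ≤ T := hT08.trans hT
  have hTpos : 0 < T := by linarith
  set L := Real.log T with hL
  have hL0 : 0 < L := by linarith
  have hA0 : 0 < A := by linarith
  have hδ0 : 0 < δ := lt_of_lt_of_le (by positivity) hδL
  have hδ1 : δ ≤ 1 := by
    refine hδA.trans ?_
    rw [div_le_one hL0]
    exact hLA
  set M := N * (Y * Y) with hM
  have hM1 : 1 ≤ M := Nat.mul_pos hN (Nat.mul_pos hY hY)
  set X := T ^ (1.01 : ℝ) with hX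
  have h2MX : (2 * M : ℝ) ≤ X := by
    have h1 : (M : ℝ) ≤ 16 * T * (T ^ (1 / 500 : ℝ) * T ^ (1 / 500 : ℝ)) := by
      rw [hM]
      push_cast
      gcongr
    have h2 : 32 * (T * (T ^ (1 / 500 : ℝ) * T ^ (1 / 500 : ℝ))) ≤ X := by
      have h3 : X = T ^ (0.006 : ℝ) * (T * (T ^ (1 / 500 : ℝ) * T ^ (1 / 500 : ℝ))) := by
        rw [hX]
        nth_rewrite 3 [← Real.rpow_one T]
        rw [← Real.rpow_add hTpos, ← Real.rpow_add hTpos, ← Real.rpow_add hTpos]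
        norm_num
      rw [h3]
      gcongr
    linarith
  have hlogX : Real.log X = 1.01 * L := by
    rw [hX, Real.log_rpow hTpos]
  have hX0 : 0 < X := by positivity
  have hH : ∑ j ∈ Finset.Icc 1 (2 * M), 1 / (j : ℝ) ≤ 3 * L := by
    refine (sum_inv_le (2 * M)).trans ?_
    have h1 : Real.log ((2 * M : ℕ) : ℝ) ≤ Real.log X := by
      refine Real.log_le_log ?_ ?_
      · exact_mod_cast (by omega : 0 < 2 * M)
      · push_cast
        exact h2MX
    rw [hlogX] at h1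
    linarith
  have htot := fd_total m1 m2 hm A L δ hA hL1 hδL hδA hδ1 M (2 * M) hM1 le_rfl X h2MX
    (by rw [hlogX]; linarith) hH
  have hlow := fd_lower C hC N Y hN hY β hβ hβ1 u0 δ m1 m2 hm
  have hX34 : X ^ (3 / 4 : ℝ) = T ^ (0.7575 : ℝ) := by
    rw [hX, ← Real.rpow_mul hTpos.le]
    norm_num
  have hPT : T / 4 ≤ (m2 : ℝ) - m1 := by
    refine le_trans ?_ hP
    rw [div_le_div_iff₀ (by norm_num) (by positivity)]
    nlinarith
  have hP0 : 0 ≤ (m2 : ℝ) - m1 := by linarith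
  set P := (m2 : ℝ) - m1 with hPdef
  have hfin : C ^ 2 * (A * (86 * L ^ 2 * X ^ (3 / 4 : ℝ) +
        4 * P * Real.exp (-(Real.pi * L / (2 * A))))) ≤ P / 4 := by
    rw [hX34]
    have h1 : C ^ 2 * (A * (86 * L ^ 2 * T ^ (0.7575 : ℝ) +
        4 * P * Real.exp (-(Real.pi * L / (2 * A))))) =
        C ^ 2 * A * 86 * L ^ 2 * T ^ (0.7575 : ℝ) +
        (C ^ 2 * A * 4 * Real.exp (-(Real.pi * L / (2 * A)))) * P := by ring
    rw [h1]
    have h2 := mul_le_mul_of_nonneg_right hev5 hP0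
    linarith
  have hC2 : 0 ≤ C ^ 2 := by positivity
  have h5 := mul_le_mul_of_nonneg_left htot hC2
  linarith

end Pool.Agent.Helper647.SG.JFD
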