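import Mathlib
import Pool.Agent.Helper647_SG.JFD

set_option autoImplicit false

namespace Pool.Agent.Helper647.SG.AFD

open Complex Filter Topology MeasureTheory Set
open Pool.Agent.Helper647.SG.JFD

theorem geo (c : ℝ) (hc : Real.exp (-c) ≤ 1 / 2) (n : ℤ) (hn : 0 ≤ n) :
    ∑ l ∈ Finset.Icc (1 : ℤ) n, Real.exp (-(c * l)) ≤
      2 * Real.exp (-c) - 2 * Real.exp (-c) * Real.exp (-(c * n)) := by
  induction n, hn using Int.leInduction with
  | base => simp
  | succ n hn ih =>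
    have h1 : Finset.Icc (1 : ℤ) (n + 1) = insert (n + 1) (Finset.Icc 1 n) := by
      ext x
      simp only [Finset.mem_Icc, Finset.mem_insert]
      omega
    rw [h1, Finset.sum_insert (by simp)]
    have h2 : Real.exp (-(c * ((n + 1 : ℤ) : ℝ))) = Real.exp (-(c * n)) * Real.exp (-c) := by
      rw [← Real.exp_add]
      congr 1
      push_cast
      ring
    rw [h2]
    have h3 : 0 < Real.exp (-(c * n)) := Real.exp_pos _
    have h4 : 0 < Real.exp (-c) := Real.exp_pos _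
    have h5 : 0 < Real.exp (-(c * n)) * Real.exp (-c) := mul_pos h3 h4
    nlinarith [mul_le_mul_of_nonneg_left hc h5.le]

theorem fd_total2 (m1 m2 : ℤ) (h : m1 ≤ m2) (L δ : ℝ) (hL : 1 ≤ L)
    (hδL : 1 / L ≤ δ) (hδ1 : δ ≤ 1) (M M2 : ℕ) (hM1 : 1 ≤ M)
    (hM2 : 2 * M ≤ M2) (X : ℝ) (hX : (2 * M : ℝ) ≤ X) (hlogX : Real.log X ≤ 2 * L)
    (hH : ∑ j ∈ Finset.Icc 1 M2, 1 / (j : ℝ) ≤ 3 * L) :
    ∑ m ∈ Finset.Icc 2 M, (m : ℝ) ^ (-(1 / 4) : ℝ) * Gs m1 m2 (δ * Real.log m) ≤
      86 * L ^ 3 * X ^ (3 / 4 : ℝ) + 8 * ((m2 : ℝ) - m1) * Real.exp (-(Real.pi / (2 * δ))) := by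
  classical
  have hL0 : 0 < L := by linarith
  have hδ : 0 < δ := lt_of_lt_of_le (by positivity) hδL
  have hπ := Real.pi_pos
  have hP : (0 : ℝ) ≤ (m2 : ℝ) - m1 := by
    have : (m1 : ℝ) ≤ m2 := by exact_mod_cast h
    linarith
  have hM0 : (1 : ℝ) ≤ M := by exact_mod_cast hM1
  have hX0 : 0 < X := by linarith
  -- resonances
  have hres : ∀ l ∈ Finset.Icc (1 : ℤ) ⌊L⌋,
      ∑ m ∈ (Finset.Icc 2 M).filter (fun m : ℕ =>
        |Real.log m - 2 * Real.pi * l / δ| < Real.log 2),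
      (m : ℝ) ^ (-(1 / 4) : ℝ) * Gs m1 m2 (δ * Real.log m) ≤
      76 * L ^ 2 * X ^ (3 / 4 : ℝ) +
        4 * ((m2 : ℝ) - m1) * Real.exp (-(Real.pi / (2 * δ) * l)) := by
    intro l hl
    have hl1 : (1 : ℝ) ≤ l := by exact_mod_cast (Finset.mem_Icc.1 hl).1
    rcases Finset.eq_empty_or_nonempty ((Finset.Icc 2 M).filter (fun m : ℕ =>
        |Real.log m - 2 * Real.pi * l / δ| < Real.log 2)) with hem | ⟨m0, hm0⟩
    · rw [hem, Finset.sum_empty]
      positivity
    · refine (fd_res m1 m2 h L δ hL0 hδ hδ1 hδL l M M2 hM2).trans ?_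
      have hm0' := Finset.mem_filter.1 hm0
      have hm1' := Finset.mem_Icc.1 hm0'.1
      set E := Real.exp (2 * Real.pi * l / δ) with hEdef
      have hE : 0 < E := Real.exp_pos _
      have hlogE : Real.log E = 2 * Real.pi * l / δ := Real.log_exp _
      have hm0r : (0 : ℝ) < m0 := by
        have : (2 : ℝ) ≤ m0 := by exact_mod_cast hm1'.1
        linarith
      have hd := fd_dist E hE m0 hm0r (by rw [hlogE]; exact hm0'.2)
      have hEX : E ≤ X := by
        have : (m0 : ℝ) ≤ M := by exact_mod_cast hm1'.2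
        linarith [hd.1]
      have h1 : (E / 2) ^ (-(1 / 4) : ℝ) ≤ 2 * E ^ (-(1 / 4) : ℝ) := by
        rw [Real.div_rpow hE.le (by norm_num), div_le_iff₀ (by positivity)]
        have h2 : (1 : ℝ) / 2 ≤ (2 : ℝ) ^ (-(1 / 4) : ℝ) := by
          have h3 : (2 : ℝ) ^ (-1 : ℝ) ≤ (2 : ℝ) ^ (-(1 / 4) : ℝ) :=
            Real.rpow_le_rpow_of_exponent_le (by norm_num) (by norm_num)
          rw [Real.rpow_neg_one] at h3
          linarith
        have h4 : 0 < E ^ (-(1 / 4) : ℝ) := by positivity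
        nlinarith
      have h5 : E ^ (-(1 / 4) : ℝ) ≤ Real.exp (-(Real.pi / (2 * δ) * l)) := by
        rw [Real.rpow_def_of_pos hE, hlogE]
        refine Real.exp_le_exp.2 (le_of_eq ?_)
        field_simp
        ring
      have h9 : E ^ (-(1 / 4) : ℝ) * E ≤ X ^ (3 / 4 : ℝ) := by
        have h10 : E ^ (-(1 / 4) : ℝ) * E = E ^ (3 / 4 : ℝ) := by
          nth_rewrite 2 [← Real.rpow_one E]
          rw [← Real.rpow_add hE]
          norm_num
        rw [h10]
        exact Real.rpow_le_rpow hE.le hEX (by norm_num)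
      have hEn : 0 < E ^ (-(1 / 4) : ℝ) := by positivity
      have hH0 : 0 ≤ ∑ j ∈ Finset.Icc 1 M2, 1 / (j : ℝ) :=
        Finset.sum_nonneg fun _ _ => by positivity
      calc (E / 2) ^ (-(1 / 4) : ℝ) * (2 * ((m2 : ℝ) - m1) +
            4 * Real.pi * L * E * ∑ j ∈ Finset.Icc 1 M2, 1 / (j : ℝ))
          ≤ (2 * E ^ (-(1 / 4) : ℝ)) * (2 * ((m2 : ℝ) - m1) +
            4 * Real.pi * L * E * (3 * L)) := by
            refine mul_le_mul h1 ?_ (by positivity) (by positivity)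
            gcongr
        _ = 4 * ((m2 : ℝ) - m1) * E ^ (-(1 / 4) : ℝ) +
            24 * Real.pi * L ^ 2 * (E ^ (-(1 / 4) : ℝ) * E) := by ring
        _ ≤ 4 * ((m2 : ℝ) - m1) * Real.exp (-(Real.pi / (2 * δ) * l)) +
            76 * L ^ 2 * X ^ (3 / 4 : ℝ) := by
            refine add_le_add (mul_le_mul_of_nonneg_left h5 (by positivity)) ?_
            have h11 : 24 * Real.pi ≤ 76 := by
              have := Real.pi_lt_d4
              linarith
            have h12 : 0 ≤ E ^ (-(1 / 4) : ℝ) * E := by positivity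
            calc 24 * Real.pi * L ^ 2 * (E ^ (-(1 / 4) : ℝ) * E)
                ≤ 76 * L ^ 2 * (E ^ (-(1 / 4) : ℝ) * E) := by gcongr
              _ ≤ 76 * L ^ 2 * X ^ (3 / 4 : ℝ) := by gcongr
        _ = _ := by ring
  -- pointwise
  have hpt : ∀ m ∈ Finset.Icc 2 M, (m : ℝ) ^ (-(1 / 4) : ℝ) * Gs m1 m2 (δ * Real.log m) ≤
      (m : ℝ) ^ (-(1 / 4) : ℝ) * (5 * L) + ∑ l ∈ Finset.Icc (1 : ℤ) ⌊L⌋,
        if |Real.log m - 2 * Real.pi * l / δ| < Real.log 2 then
          (m : ℝ) ^ (-(1 / 4) : ℝ) * Gs m1 m2 (δ * Real.log m) else 0 := by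
    intro m hm
    have hm' := Finset.mem_Icc.1 hm
    have hm2 : (2 : ℝ) ≤ m := by exact_mod_cast hm'.1
    have hmM : (m : ℝ) ≤ M := by exact_mod_cast hm'.2
    have hG := Gs_nonneg m1 m2 (δ * Real.log m)
    have hw : 0 ≤ (m : ℝ) ^ (-(1 / 4) : ℝ) := by positivity
    have hlogm : Real.log 2 ≤ Real.log m := Real.log_le_log (by norm_num) hm2
    have hlog2 : 0 < Real.log 2 := Real.log_pos (by norm_num)
    set l := round (δ * Real.log m / (2 * Real.pi)) with hl
    have h1 : |δ * Real.log m - 2 * Real.pi * l| ≤ Real.pi := by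
      have h2 := abs_sub_round (δ * Real.log m / (2 * Real.pi))
      have h3 : δ * Real.log m - 2 * Real.pi * l =
          (2 * Real.pi) * (δ * Real.log m / (2 * Real.pi) - l) := by
        field_simp
      rw [h3, abs_mul, abs_of_pos (by positivity)]
      calc 2 * Real.pi * |δ * Real.log m / (2 * Real.pi) - l| ≤ 2 * Real.pi * (1 / 2) := by
            gcongr
        _ = Real.pi := by ring
    have hnn : ∀ l' ∈ Finset.Icc (1 : ℤ) ⌊L⌋, 0 ≤ (if |Real.log m - 2 * Real.pi * l' / δ| <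
        Real.log 2 then (m : ℝ) ^ (-(1 / 4) : ℝ) * Gs m1 m2 (δ * Real.log m) else 0) := by
      intro l' _
      split_ifs
      · positivity
      · exact le_refl _
    rcases le_or_gt (Real.log 2) |Real.log m - 2 * Real.pi * l / δ| with h2 | h2
    · have h3 := fd_nonres m1 m2 h L δ hL0 hδ hδL m l h1 h2
      have h4 := Finset.sum_nonneg hnn
      have h5 := mul_le_mul_of_nonneg_left h3 hw
      linarith
    · have hl1 : 1 ≤ l := by
        by_contra hcon
        push Not at hcon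
        have h3 : (l : ℝ) ≤ 0 := by
          have : l ≤ 0 := by omega
          exact_mod_cast this
        have h4 : 2 * Real.pi * l / δ ≤ 0 := by
          apply div_nonpos_of_nonpos_of_nonneg _ hδ.le
          nlinarith
        rw [abs_lt] at h2
        linarith [h2.2]
      have hl2 : l ≤ ⌊L⌋ := by
        rw [Int.le_floor]
        rw [abs_lt] at h2
        have h3 : 2 * Real.pi * l / δ < Real.log m + Real.log 2 := by linarith [h2.1]
        have h4 : Real.log m + Real.log 2 ≤ 2 * L := by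
          rw [← Real.log_mul (by positivity) (by norm_num)]
          refine le_trans (Real.log_le_log (by positivity) ?_) hlogX
          linarith
        have h5 : 2 * Real.pi * l < 2 * L * δ := by
          rw [div_lt_iff₀ hδ] at h3
          nlinarith
        have h6 : L * δ ≤ L := by nlinarith
        have h7 : (0 : ℝ) < l := by exact_mod_cast (by omega : 0 < l)
        have h8 := Real.pi_gt_three
        nlinarith
      have h3 := Finset.single_le_sum hnn (Finset.mem_Icc.2 ⟨hl1, hl2⟩)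
      rw [if_pos h2] at h3
      have h4 : 0 ≤ (m : ℝ) ^ (-(1 / 4) : ℝ) * (5 * L) := by positivity
      linarith
  have hfl : (⌊L⌋ : ℝ) ≤ L := Int.floor_le L
  have hfl0 : 0 ≤ ⌊L⌋ := Int.floor_nonneg.2 (by linarith)
  calc ∑ m ∈ Finset.Icc 2 M, (m : ℝ) ^ (-(1 / 4) : ℝ) * Gs m1 m2 (δ * Real.log m)
      ≤ ∑ m ∈ Finset.Icc 2 M, ((m : ℝ) ^ (-(1 / 4) : ℝ) * (5 * L) +
        ∑ l ∈ Finset.Icc (1 : ℤ) ⌊L⌋,
        if |Real.log m - 2 * Real.pi * l / δ| < Real.log 2 then
          (m : ℝ) ^ (-(1 / 4) : ℝ) * Gs m1 m2 (δ * Real.log m) else 0) :=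
        Finset.sum_le_sum hpt
    _ = (∑ m ∈ Finset.Icc 2 M, (m : ℝ) ^ (-(1 / 4) : ℝ)) * (5 * L) +
        ∑ l ∈ Finset.Icc (1 : ℤ) ⌊L⌋, ∑ m ∈ (Finset.Icc 2 M).filter (fun m : ℕ =>
          |Real.log m - 2 * Real.pi * l / δ| < Real.log 2),
          (m : ℝ) ^ (-(1 / 4) : ℝ) * Gs m1 m2 (δ * Real.log m) := by
        rw [Finset.sum_add_distrib, Finset.sum_mul, Finset.sum_comm]
        simp only [Finset.sum_filter]
    _ ≤ (2 * X ^ (3 / 4 : ℝ)) * (5 * L) + ∑ l ∈ Finset.Icc (1 : ℤ) ⌊L⌋,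
        (76 * L ^ 2 * X ^ (3 / 4 : ℝ) +
        4 * ((m2 : ℝ) - m1) * Real.exp (-(Real.pi / (2 * δ) * l))) := by
        refine add_le_add ?_ (Finset.sum_le_sum hres)
        refine mul_le_mul_of_nonneg_right ?_ (by positivity)
        have h1 : ∑ m ∈ Finset.Icc 2 M, (m : ℝ) ^ (-(1 / 4) : ℝ) ≤
            ∑ m ∈ Finset.Icc 1 M, (m : ℝ) ^ (-(1 / 4) : ℝ) := by
          refine Finset.sum_le_sum_of_subset_of_nonneg ?_ fun _ _ _ => by positivity
          exact Finset.Icc_subset_Icc (by norm_num) le_rfl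
        refine h1.trans ((sum_quarter M).trans ?_)
        have h2 : (M : ℝ) ^ (3 / 4 : ℝ) ≤ X ^ (3 / 4 : ℝ) :=
          Real.rpow_le_rpow (by positivity) (by linarith) (by norm_num)
        linarith
    _ ≤ 86 * L ^ 3 * X ^ (3 / 4 : ℝ) +
        8 * ((m2 : ℝ) - m1) * Real.exp (-(Real.pi / (2 * δ))) := by
        rw [Finset.sum_add_distrib, Finset.sum_const, Int.card_Icc, nsmul_eq_mul,
          ← Finset.mul_sum]
        have h1 : (((⌊L⌋ + 1 - 1).toNat : ℕ) : ℝ) ≤ L := by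
          have h2 : ((⌊L⌋ + 1 - 1).toNat : ℤ) = ⌊L⌋ := by
            rw [add_sub_cancel_right]
            exact Int.toNat_of_nonneg hfl0
          have h3 : (((⌊L⌋ + 1 - 1).toNat : ℕ) : ℝ) = ((((⌊L⌋ + 1 - 1).toNat : ℕ) : ℤ) : ℝ) := by
            rw [Int.cast_natCast]
          rw [h3, h2]
          exact hfl
        have hXp : 0 ≤ X ^ (3 / 4 : ℝ) := by positivity
        have h4 : (((⌊L⌋ + 1 - 1).toNat : ℕ) : ℝ) * (76 * L ^ 2 * X ^ (3 / 4 : ℝ)) ≤
            L * (76 * L ^ 2 * X ^ (3 / 4 : ℝ)) :=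
          mul_le_mul_of_nonneg_right h1 (by positivity)
        have h5 : (2 * X ^ (3 / 4 : ℝ)) * (5 * L) ≤ 10 * L ^ 3 * X ^ (3 / 4 : ℝ) := by
          have h6 : L ≤ L ^ 3 := by
            calc L = L ^ 1 := (pow_one L).symm
              _ ≤ L ^ 3 := pow_le_pow_right₀ hL (by norm_num)
          calc (2 * X ^ (3 / 4 : ℝ)) * (5 * L) = 10 * X ^ (3 / 4 : ℝ) * L := by ring
            _ ≤ 10 * X ^ (3 / 4 : ℝ) * L ^ 3 := by gcongr
            _ = _ := by ring
        have hc1 : 1 ≤ Real.pi / (2 * δ) := by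
          rw [le_div_iff₀ (by positivity)]
          have := Real.pi_gt_three
          linarith
        have hc : Real.exp (-(Real.pi / (2 * δ))) ≤ 1 / 2 := by
          have h7 : Real.exp (-(Real.pi / (2 * δ))) ≤ Real.exp (-1) :=
            Real.exp_le_exp.2 (by linarith)
          have h8 := Real.exp_neg_one_lt_d9
          linarith
        have h9 := geo (Real.pi / (2 * δ)) hc ⌊L⌋ hfl0
        have h10 : ∑ l ∈ Finset.Icc (1 : ℤ) ⌊L⌋, Real.exp (-(Real.pi / (2 * δ) * l)) ≤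
            2 * Real.exp (-(Real.pi / (2 * δ))) := by
          have h11 : 0 ≤ 2 * Real.exp (-(Real.pi / (2 * δ))) *
              Real.exp (-(Real.pi / (2 * δ) * (⌊L⌋ : ℝ))) := by positivity
          linarith
        have h12 := mul_le_mul_of_nonneg_left h10
          (by positivity : (0 : ℝ) ≤ 4 * ((m2 : ℝ) - m1))
        calc _ ≤ 10 * L ^ 3 * X ^ (3 / 4 : ℝ) + (L * (76 * L ^ 2 * X ^ (3 / 4 : ℝ)) +
              4 * ((m2 : ℝ) - m1) * (2 * Real.exp (-(Real.pi / (2 * δ))))) :=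
              add_le_add h5 (add_le_add h4 h12)
          _ = _ := by ring

end Pool.Agent.Helper647.SG.AFD
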