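import Mathlib
import Pool.Agent.Helper647_SG.JFD

set_option autoImplicit false

namespace Pool.Agent.Helper647.SG.AFE

open Complex Filter Topology MeasureTheory Set
open Pool.Agent.Helper647.SG.JFD

theorem fd2_events (C : ℝ) (hC1 : 1 ≤ C) :
    ∃ T0 : ℝ, 8 ≤ T0 ∧ ∀ T : ℝ, T0 ≤ T → 1 ≤ Real.log T ∧
      32 ≤ T ^ (0.006 : ℝ) ∧
      C ^ 2 * 86 * Real.log T ^ 3 * T ^ (0.7575 : ℝ) ≤ T ^ (4 / 5 : ℝ) / 8 := by
  have hC0 : 0 < C := by linarith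
  have e1 : ∀ᶠ T : ℝ in atTop, 1 ≤ Real.log T := Real.tendsto_log_atTop.eventually_ge_atTop 1
  have e3 : ∀ᶠ T : ℝ in atTop, 32 ≤ T ^ (0.006 : ℝ) :=
    (tendsto_rpow_atTop (by norm_num)).eventually_ge_atTop 32
  have e4 : ∀ᶠ T : ℝ in atTop,
      C ^ 2 * 86 * Real.log T ^ 3 * T ^ (0.7575 : ℝ) ≤ T ^ (4 / 5 : ℝ) / 8 := by
    have h1 := isLittleO_log_rpow_rpow_atTop (3 : ℝ) (show (0 : ℝ) < 0.0425 by norm_num)
    have h2 := h1.def (show (0 : ℝ) < 1 / (8 * (C ^ 2 * 86)) by positivity)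
    filter_upwards [h2, eventually_ge_atTop (1 : ℝ)] with T hT hT1
    have hT0 : 0 < T := by linarith
    have hl : 0 ≤ Real.log T := Real.log_nonneg hT1
    have hr3 : Real.log T ^ (3 : ℝ) = Real.log T ^ 3 := by
      rw [← Real.rpow_natCast]
      norm_num
    rw [Real.norm_eq_abs, Real.norm_eq_abs, abs_of_nonneg (by positivity),
      abs_of_nonneg (by positivity), hr3] at hT
    have h3 : T ^ (0.0425 : ℝ) * T ^ (0.7575 : ℝ) = T ^ (4 / 5 : ℝ) := by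
      rw [← Real.rpow_add hT0]
      norm_num
    calc C ^ 2 * 86 * Real.log T ^ 3 * T ^ (0.7575 : ℝ)
        ≤ C ^ 2 * 86 * (1 / (8 * (C ^ 2 * 86)) * T ^ (0.0425 : ℝ)) *
          T ^ (0.7575 : ℝ) := by gcongr
      _ = (T ^ (0.0425 : ℝ) * T ^ (0.7575 : ℝ)) / 8 := by
          field_simp
      _ = T ^ (4 / 5 : ℝ) / 8 := by rw [h3]
  obtain ⟨T0, hT0⟩ := eventually_atTop.1 (e1.and (e3.and e4))
  exact ⟨max T0 8, le_max_right _ _, fun T hT => hT0 T ((le_max_left _ _).trans hT)⟩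

theorem fd2 (hdiv : ∃ C : ℝ, 1 ≤ C ∧ ∀ n : ℕ, n ≠ 0 → (n.divisors.card : ℝ) ≤ C * (n : ℝ) ^ (1 / 8 : ℝ))
    (htot : ∀ (m1 m2 : ℤ), m1 ≤ m2 → ∀ (L δ : ℝ), 1 ≤ L → 1 / L ≤ δ → δ ≤ 1 → ∀ (M M2 : ℕ), 1 ≤ M → 2 * M ≤ M2 →
      ∀ (X : ℝ), (2 * M : ℝ) ≤ X → Real.log X ≤ 2 * L → ∑ j ∈ Finset.Icc 1 M2, 1 / (j : ℝ) ≤ 3 * L →
      ∑ m ∈ Finset.Icc 2 M, (m : ℝ) ^ (-(1 / 4) : ℝ) * Gs m1 m2 (δ * Real.log m) ≤
        86 * L ^ 3 * X ^ (3 / 4 : ℝ) + 8 * ((m2 : ℝ) - m1) * Real.exp (-(Real.pi / (2 * δ)))) :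
    ∃ δ0 T0 : ℝ, 0 < δ0 ∧ δ0 ≤ 1 ∧ 8 ≤ T0 ∧ ∀ (T δ u0 : ℝ) (Y N : ℕ) (β : ℕ → ℝ) (m1 m2 : ℤ), T0 ≤ T → 1 / Real.log T ≤ δ → δ ≤ δ0 →
      1 ≤ Y → (Y : ℝ) ≤ T ^ (1 / 500 : ℝ) → 1 ≤ N → (N : ℝ) ≤ 16 * T → (∀ n, |β n| ≤ 1) → β 1 = 1 → m1 ≤ m2 →
      T ^ (4 / 5 : ℝ) ≤ (m2 : ℝ) - m1 →
        3 / 4 * ((m2 : ℝ) - m1) ≤ ‖∑ k ∈ Finset.Ico m1 m2, Pz N (u0 + δ * k) * Bz Y β (u0 + δ * k) ^ 2‖ := by
  obtain ⟨C, hC1, hC⟩ := hdiv
  obtain ⟨T0, hT08, hT0⟩ := fd2_events C hC1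
  have hC0 : 0 < C := by linarith
  have hpi := Real.pi_pos
  have h64 : (1 : ℝ) < 64 * C ^ 2 := by nlinarith
  have hlog64 : 0 < Real.log (64 * C ^ 2) := Real.log_pos h64
  refine ⟨min 1 (Real.pi / (2 * Real.log (64 * C ^ 2))), T0, lt_min one_pos (by positivity),
    min_le_left _ _, hT08, ?_⟩
  intro T δ u0 Y N β m1 m2 hT hδL hδ0' hY hYT hN hNT hβ hβ1 hm hP
  obtain ⟨hL1, h32, hev4⟩ := hT0 T hT
  have hT8 : 8 ≤ T := hT08.trans hT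
  have hTpos : 0 < T := by linarith
  set L := Real.log T with hL
  have hL0 : 0 < L := by linarith
  have hδ0 : 0 < δ := lt_of_lt_of_le (by positivity) hδL
  have hδ1 : δ ≤ 1 := hδ0'.trans (min_le_left _ _)
  have hδ2 : δ ≤ Real.pi / (2 * Real.log (64 * C ^ 2)) := hδ0'.trans (min_le_right _ _)
  have hev5 : C ^ 2 * 8 * Real.exp (-(Real.pi / (2 * δ))) ≤ 1 / 8 := by
    have h1 : Real.log (64 * C ^ 2) ≤ Real.pi / (2 * δ) := by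
      rw [le_div_iff₀ (by positivity)] at hδ2 ⊢
      linarith
    have h2 : Real.exp (-(Real.pi / (2 * δ))) ≤ (64 * C ^ 2)⁻¹ := by
      have h3 : (64 * C ^ 2)⁻¹ = Real.exp (-(Real.log (64 * C ^ 2))) := by
        rw [Real.exp_neg, Real.exp_log (by positivity)]
      rw [h3]
      exact Real.exp_le_exp.2 (by linarith)
    calc C ^ 2 * 8 * Real.exp (-(Real.pi / (2 * δ))) ≤ C ^ 2 * 8 * (64 * C ^ 2)⁻¹ := by gcongr
      _ = 1 / 8 := by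
          field_simp
          norm_num
  set M := N * (Y * Y) with hM
  have hM1 : 1 ≤ M := Nat.mul_pos hN (Nat.mul_pos hY hY)
  set X := T ^ (1.01 : ℝ) with hX
  have h2MX : (2 * M : ℝ) ≤ X := by
    have h1 : (M : ℝ) ≤ 16 * T * (T ^ (1 / 500 : ℝ) * T ^ (1 / 500 : ℝ)) := by
      rw [hM]
      push_cast
      gcongr
    have h2 : 32 * (T * (T ^ (1 / 500 : ℝ) * T ^ (1 / 500 : ℝ))) ≤ X := by
      have h3 : X = T ^ (0.006 : ℝ) * (T * (T ^ (1 / 500 : ℝ) * T ^ (1 / 500 : ℝ))) := by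
        rw [hX]
        nth_rewrite 3 [← Real.rpow_one T]
        rw [← Real.rpow_add hTpos, ← Real.rpow_add hTpos, ← Real.rpow_add hTpos]
        norm_num
      rw [h3]
      gcongr
    linarith
  have hlogX : Real.log X = 1.01 * L := by
    rw [hX, Real.log_rpow hTpos]
  have hX0 : 0 < X := by positivity
  have hH : ∑ j ∈ Finset.Icc 1 (2 * M), 1 / (j : ℝ) ≤ 3 * L := by
    refine (sum_inv_le (2 * M)).trans ?_
    have h1 : Real.log ((2 * M : ℕ) : ℝ) ≤ Real.log X := by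
      refine Real.log_le_log ?_ ?_
      · exact_mod_cast (by omega : 0 < 2 * M)
      · push_cast
        exact h2MX
    rw [hlogX] at h1
    linarith
  have htot' := htot m1 m2 hm L δ hL1 hδL hδ1 M (2 * M) hM1 le_rfl X h2MX
    (by rw [hlogX]; linarith) hH
  have hlow := fd_lower C hC N Y hN hY β hβ hβ1 u0 δ m1 m2 hm
  have hX34 : X ^ (3 / 4 : ℝ) = T ^ (0.7575 : ℝ) := by
    rw [hX, ← Real.rpow_mul hTpos.le]
    norm_num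
  have hP0 : 0 ≤ (m2 : ℝ) - m1 := (by positivity : (0 : ℝ) ≤ T ^ (4 / 5 : ℝ)).trans hP
  set P := (m2 : ℝ) - m1 with hPdef
  have hfin : C ^ 2 * (86 * L ^ 3 * X ^ (3 / 4 : ℝ) +
        8 * P * Real.exp (-(Real.pi / (2 * δ)))) ≤ P / 4 := by
    rw [hX34]
    have h1 : C ^ 2 * (86 * L ^ 3 * T ^ (0.7575 : ℝ) +
        8 * P * Real.exp (-(Real.pi / (2 * δ)))) =
        C ^ 2 * 86 * L ^ 3 * T ^ (0.7575 : ℝ) +
        (C ^ 2 * 8 * Real.exp (-(Real.pi / (2 * δ)))) * P := by ring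
    rw [h1]
    have h2 := mul_le_mul_of_nonneg_right hev5 hP0
    linarith
  have hC2 : 0 ≤ C ^ 2 := by positivity
  have h5 := mul_le_mul_of_nonneg_left htot' hC2
  linarith

end Pool.Agent.Helper647.SG.AFE
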