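import Mathlib

set_option autoImplicit false

namespace Pool.Agent.Helper647.SG.JKR

open Complex Filter Topology MeasureTheory Set

/-- the bump function -/
noncomputable def kr_b : ContDiffBump (0 : ℝ) := ⟨1, 2, one_pos, one_lt_two⟩

/-- the bump function as a Schwartz function -/
noncomputable def kr_g : SchwartzMap ℝ ℂ :=
  HasCompactSupport.toSchwartzMap (f := fun x : ℝ => ((kr_b x : ℝ) : ℂ))
    (kr_b.hasCompactSupport.comp_left (g := fun y : ℝ => (y : ℂ)) (by simp))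
    (Complex.ofRealCLM.contDiff.comp kr_b.contDiff)

theorem kr_g_apply (x : ℝ) : kr_g x = ((kr_b x : ℝ) : ℂ) := rfl

open FourierTransform in
theorem kr_decay (K : SchwartzMap ℝ ℂ) : ∃ C : ℝ, 0 < C ∧ ∀ x : ℝ, ‖K x‖ ≤ C / (1 + x ^ 2) ^ 40 := by
  obtain ⟨C1, h1, hC1⟩ := K.decay 0 0
  obtain ⟨C2, h2, hC2⟩ := K.decay 80 0
  refine ⟨2 ^ 40 * (C1 + C2), by positivity, fun x => ?_⟩
  have g1 := hC1 x
  have g2 := hC2 x
  rw [norm_iteratedFDeriv_zero] at g1 g2
  rw [pow_zero, one_mul] at g1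
  rw [le_div_iff₀ (by positivity)]
  have e1 : ‖x‖ ^ 80 = x ^ 80 := by
    rw [Real.norm_eq_abs, ← abs_pow, abs_of_nonneg]
    exact Even.pow_nonneg (by decide) x
  rw [e1] at g2
  have e2 : (1 + x ^ 2) ^ 40 ≤ 2 ^ 40 * (1 + x ^ 80) := by
    have hx : 0 ≤ x ^ 2 := sq_nonneg x
    have e3 : x ^ 80 = (x ^ 2) ^ 40 := by ring
    have h80 : 0 ≤ x ^ 80 := by rw [e3]; positivity
    rcases le_total (x ^ 2) 1 with h | h
    · calc (1 + x ^ 2) ^ 40 ≤ 2 ^ 40 := pow_le_pow_left₀ (by linarith) (by linarith) 40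
        _ ≤ 2 ^ 40 * (1 + x ^ 80) := by nlinarith
    · calc (1 + x ^ 2) ^ 40 ≤ (2 * x ^ 2) ^ 40 := pow_le_pow_left₀ (by linarith) (by linarith) 40
        _ = 2 ^ 40 * x ^ 80 := by rw [mul_pow, ← e3]
        _ ≤ 2 ^ 40 * (1 + x ^ 80) := by nlinarith
  have hK : 0 ≤ ‖K x‖ := norm_nonneg _
  calc ‖K x‖ * (1 + x ^ 2) ^ 40 ≤ ‖K x‖ * (2 ^ 40 * (1 + x ^ 80)) := mul_le_mul_of_nonneg_left e2 hK
    _ = 2 ^ 40 * (‖K x‖ + x ^ 80 * ‖K x‖) := by ring
    _ ≤ 2 ^ 40 * (C1 + C2) := by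
        apply mul_le_mul_of_nonneg_left _ (by positivity)
        linarith

open FourierTransform in
theorem kr_inv (w : ℝ) (hw : |w| ≤ 1) :
    ∫ x : ℝ, (𝓕 kr_g : SchwartzMap ℝ ℂ) x * cexp (I * w * x) = 1 := by
  have h1 : (𝓕⁻ (𝓕 kr_g : SchwartzMap ℝ ℂ) : SchwartzMap ℝ ℂ) (w / (2 * Real.pi)) = 1 := by
    rw [FourierTransform.fourierInv_fourier_eq, kr_g_apply]
    have : kr_b (w / (2 * Real.pi)) = 1 := by
      apply kr_b.one_of_mem_closedBall
      rw [mem_closedBall_zero_iff, Real.norm_eq_abs, abs_div, abs_of_pos (by positivity : 0 < 2 * Real.pi)]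
      show |w| / (2 * Real.pi) ≤ 1
      rw [div_le_one (by positivity)]
      have := Real.pi_gt_three
      linarith
    rw [this, Complex.ofReal_one]
  rw [SchwartzMap.fourierInv_coe, Real.fourierInv_eq'] at h1
  rw [← h1]
  apply integral_congr_ae
  filter_upwards with x
  rw [smul_eq_mul, mul_comm]
  congr 2
  have hpi : (Real.pi : ℂ) ≠ 0 := by exact_mod_cast Real.pi_ne_zero
  simp only [RCLike.inner_apply, conj_trivial]
  push_cast
  field_simp

/- TASK (helper647, project SG3): prove this theorem (axioms propext, Classical.choice, Quot.sound only; helper lemmas welcome;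
keep the statement and the namespace).
PROOF. Take a smooth compactly supported bump k : ℝ → ℝ with k = 1 on [-1, 1] (ContDiffBump), as a Schwartz function (HasCompactSupport.toSchwartzMap or
similar), and K(x) = (1/2π) ∫ k(ξ) exp (-i ξ x) dξ, i.e. a rescaled Fourier transform of k, again a Schwartz function; the decay is
SchwartzMap.decay (‖x‖^k ‖K x‖ ≤ C_k for k = 0 and k = 80, (1+x²)^40 ≤ 2^40 (1 + |x|^80)), and ∫ K(x) exp (i w x) dx = k(w) = 1 for |w| ≤ 1 by Fourier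
inversion (SchwartzMap.fourier_inversion / FourierTransform inversion, Continuous.fourier_inversion; mind the 2π in Mathlib's normalisation). -/
theorem kr : ∃ (K : ℝ → ℂ) (C : ℝ), 0 < C ∧ Continuous K ∧ (∀ x : ℝ, ‖K x‖ ≤ C / (1 + x ^ 2) ^ 40) ∧
    ∀ w : ℝ, |w| ≤ 1 → ∫ x : ℝ, K x * cexp (I * w * x) = 1 := by
  obtain ⟨C, hC, hd⟩ := kr_decay (FourierTransform.fourier kr_g : SchwartzMap ℝ ℂ)
  exact ⟨(FourierTransform.fourier kr_g : SchwartzMap ℝ ℂ), C, hC,
    (FourierTransform.fourier kr_g : SchwartzMap ℝ ℂ).continuous, hd, kr_inv⟩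

end Pool.Agent.Helper647.SG.JKR
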