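import Mathlib
import Pool.Agent.Helper647_SG.JKR

set_option autoImplicit false

namespace Pool.Agent.Helper647.SG.AKR

open Complex Filter Topology MeasureTheory Set

theorem kr_lip (K : SchwartzMap ℝ ℂ) : ∃ C : ℝ, 0 < C ∧ ∀ x y : ℝ, |y| ≤ 1 →
    ‖K (x + y) - K x‖ ≤ C * |y| / (1 + x ^ 2) ^ 40 := by
  obtain ⟨C', hC', hd⟩ := JKR.kr_decay (SchwartzMap.derivCLM ℝ ℂ K)
  refine ⟨3 ^ 40 * C', by positivity, fun x y hy => ?_⟩
  have hy' := abs_le.1 hy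
  have hbound : ∀ ξ ∈ Icc (x - 1) (x + 1), ‖deriv K ξ‖ ≤ 3 ^ 40 * C' / (1 + x ^ 2) ^ 40 := by
    intro ξ hξ
    have h1 := hd ξ
    rw [SchwartzMap.derivCLM_apply] at h1
    refine h1.trans ?_
    have hx : 1 + x ^ 2 ≤ 3 * (1 + ξ ^ 2) := by
      nlinarith [hξ.1, hξ.2, sq_nonneg (x + ξ), sq_nonneg ξ, sq_nonneg (x - 2 * ξ)]
    have hx40 : (1 + x ^ 2) ^ 40 ≤ 3 ^ 40 * (1 + ξ ^ 2) ^ 40 := by
      rw [← mul_pow]
      exact pow_le_pow_left₀ (by positivity) hx 40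
    rw [div_le_div_iff₀ (by positivity) (by positivity)]
    calc C' * (1 + x ^ 2) ^ 40 ≤ C' * (3 ^ 40 * (1 + ξ ^ 2) ^ 40) :=
          mul_le_mul_of_nonneg_left hx40 hC'.le
      _ = 3 ^ 40 * C' * (1 + ξ ^ 2) ^ 40 := by ring
  have h := Convex.norm_image_sub_le_of_norm_deriv_le (f := K) (s := Icc (x - 1) (x + 1))
    (x := x) (y := x + y) (fun ξ _ => K.differentiable.differentiableAt) hbound
    (convex_Icc _ _) ⟨by linarith, by linarith⟩ ⟨by linarith, by linarith⟩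
  refine h.trans (le_of_eq ?_)
  rw [add_sub_cancel_left, Real.norm_eq_abs]
  ring

theorem kr2 : ∃ (K : ℝ → ℂ) (C : ℝ), 0 < C ∧ Continuous K ∧ (∀ x : ℝ, ‖K x‖ ≤ C / (1 + x ^ 2) ^ 40) ∧
    (∀ x y : ℝ, |y| ≤ 1 → ‖K (x + y) - K x‖ ≤ C * |y| / (1 + x ^ 2) ^ 40) ∧
    ∀ w : ℝ, |w| ≤ 1 → ∫ x : ℝ, K x * cexp (I * w * x) = 1 := by
  obtain ⟨C0, hC0, hd⟩ := JKR.kr_decay (FourierTransform.fourier JKR.kr_g : SchwartzMap ℝ ℂ)
  obtain ⟨C1, hC1, hl⟩ := kr_lip (FourierTransform.fourier JKR.kr_g : SchwartzMap ℝ ℂ)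
  refine ⟨(FourierTransform.fourier JKR.kr_g : SchwartzMap ℝ ℂ), C0 + C1, by positivity,
    (FourierTransform.fourier JKR.kr_g : SchwartzMap ℝ ℂ).continuous, fun x => ?_, fun x y hy => ?_,
    JKR.kr_inv⟩
  · refine (hd x).trans ?_
    apply div_le_div_of_nonneg_right _ (by positivity)
    linarith
  · refine (hl x y hy).trans ?_
    apply div_le_div_of_nonneg_right _ (by positivity)
    apply mul_le_mul_of_nonneg_right _ (abs_nonneg y)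
    linarith

end Pool.Agent.Helper647.SG.AKR
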