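import Mathlib

set_option autoImplicit false

namespace Pool.Agent.Helper647.SG.JSP

open Complex Filter Topology MeasureTheory Set

lemma sp_intsum : Summable (fun m : ℤ => 1 / (1 + (m:ℝ) ^ 2)) := by
  have h1 : Summable (fun m : ℤ => 1 / (m:ℝ) ^ 2) := Real.summable_one_div_int_pow.2 (by norm_num)
  have h2 : Summable (fun m : ℤ => if m = 0 then (1:ℝ) else 0) := (hasSum_ite_eq 0 1).summable
  refine Summable.of_nonneg_of_le (fun m => by positivity) (fun m => ?_) (h1.add h2)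
  by_cases hm : m = 0
  · subst hm
    simp
  · rw [if_neg hm, add_zero]
    have : (0:ℝ) < (m:ℝ) ^ 2 := by
      have : (m:ℝ) ≠ 0 := by exact_mod_cast hm
      positivity
    gcongr
    linarith

lemma sp_shift (k : ℤ) (s : Finset ℤ) :
    ∑ m ∈ s, 1 / (1 + ((k:ℝ) - m) ^ 2) ≤ ∑' m : ℤ, 1 / (1 + (m:ℝ) ^ 2) := by
  have h1 : Summable (fun m : ℤ => 1 / (1 + ((k:ℝ) - m) ^ 2)) := by
    have := (Equiv.subLeft k).summable_iff.2 sp_intsum
    refine this.congr fun m => ?_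
    simp [Equiv.subLeft]
  have h2 : ∑' m : ℤ, 1 / (1 + ((k:ℝ) - m) ^ 2) = ∑' m : ℤ, 1 / (1 + (m:ℝ) ^ 2) := by
    have := (Equiv.subLeft k).tsum_eq (fun m : ℤ => 1 / (1 + (m:ℝ) ^ 2))
    rw [← this]
    refine tsum_congr fun m => ?_
    simp [Equiv.subLeft]
  rw [← h2]
  exact h1.sum_le_tsum s (fun m _ => by positivity)

/-- the weight -/
noncomputable def spW (R x : ℝ) : ℝ := R / (1 + (R * x) ^ 2) ^ 40

lemma spW_nonneg {R : ℝ} (hR : 1 ≤ R) (x : ℝ) : 0 ≤ spW R x := by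
  unfold spW
  have : 0 ≤ R := by linarith
  positivity

lemma spW_cont (R : ℝ) : Continuous (spW R) := by
  unfold spW
  refine Continuous.div continuous_const (by fun_prop) fun x => ?_
  positivity

lemma spW_le {R : ℝ} (hR : 1 ≤ R) (x : ℝ) : spW R x ≤ R / (1 + (R * x) ^ 2) := by
  unfold spW
  have h0 : 0 ≤ R := by linarith
  have h1 : (1:ℝ) ≤ 1 + (R * x) ^ 2 := by nlinarith [sq_nonneg (R * x)]
  have h2 : 1 + (R * x) ^ 2 ≤ (1 + (R * x) ^ 2) ^ 40 := le_self_pow₀ h1 (by norm_num)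
  gcongr

lemma sp_int {R : ℝ} (hR : 1 ≤ R) : Integrable (fun x : ℝ => R / (1 + (R * x) ^ 2)) := by
  have h0 : R ≠ 0 := by linarith
  have h1 := (integrable_inv_one_add_sq.comp_mul_left' h0).const_mul R
  refine h1.congr (Eventually.of_forall fun x => ?_)
  simp only [div_eq_mul_inv]

lemma sp_int_eq {R : ℝ} (hR : 1 ≤ R) : ∫ x : ℝ, R / (1 + (R * x) ^ 2) = Real.pi := by
  have h0 : 0 < R := by linarith
  have h1 : ∀ x : ℝ, R / (1 + (R * x) ^ 2) = R * (fun y : ℝ => (1 + y ^ 2)⁻¹) (R * x) := fun x => by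
    simp only [div_eq_mul_inv]
  simp_rw [h1]
  rw [integral_const_mul, Measure.integral_comp_mul_left (fun y : ℝ => (1 + y ^ 2)⁻¹) R,
    integral_univ_inv_one_add_sq, abs_of_pos (inv_pos.2 h0), smul_eq_mul]
  field_simp

lemma spW_int {R : ℝ} (hR : 1 ≤ R) : Integrable (spW R) := by
  refine (sp_int hR).mono' (spW_cont R).aestronglyMeasurable (Eventually.of_forall fun x => ?_)
  rw [Real.norm_of_nonneg (spW_nonneg hR x)]
  exact spW_le hR x

lemma spW_far {R ρ x : ℝ} (hR : 1 ≤ R) (hρ : 1 ≤ ρ) (hx : ρ ≤ |x|) :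
    spW R x ≤ 1 / ρ ^ 70 * (R / (1 + (R * x) ^ 2)) := by
  unfold spW
  have h0 : 0 < R := by linarith
  have hρ0 : 0 < ρ := by linarith
  have h1 : (0:ℝ) < 1 + (R * x) ^ 2 := by positivity
  have h2 : ρ ^ 2 ≤ 1 + (R * x) ^ 2 := by
    have h3 : ρ ^ 2 ≤ x ^ 2 := by rw [← sq_abs x]; gcongr
    have h4 : x ^ 2 ≤ (R * x) ^ 2 := by
      rw [mul_pow]
      have : 1 ≤ R ^ 2 := one_le_pow₀ hR
      nlinarith [sq_nonneg x]
    linarith
  have h5 : ρ ^ 70 ≤ (1 + (R * x) ^ 2) ^ 39 := by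
    calc ρ ^ 70 ≤ ρ ^ 78 := pow_le_pow_right₀ hρ (by norm_num)
      _ = (ρ ^ 2) ^ 39 := by rw [← pow_mul]
      _ ≤ _ := by gcongr
  have h6 : (1 + (R * x) ^ 2) ^ 40 = (1 + (R * x) ^ 2) ^ 39 * (1 + (R * x) ^ 2) := pow_succ _ _
  rw [h6, div_mul_div_comm, one_mul]
  gcongr

lemma sp_single {K : ℝ → ℂ} {C : ℝ} (hC : 0 < C) (hKc : Continuous K)
    (hK : ∀ x : ℝ, ‖K x‖ ≤ C / (1 + x ^ 2) ^ 40)
    (hKi : ∀ w : ℝ, |w| ≤ 1 → ∫ x : ℝ, K x * cexp (I * w * x) = 1)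
    {R ρ ε M v : ℝ} {g : ℝ → ℝ} (hg : Continuous g) (hR : 1 ≤ R) (hρ : 1 ≤ ρ) (hε : 0 ≤ ε)
    (hM : 0 ≤ M) {ι : Type} (s : Finset ι) (c : ι → ℂ) (w : ι → ℝ) (hw : ∀ i ∈ s, |w i| ≤ R)
    (hc : ∑ i ∈ s, ‖c i‖ ≤ M)
    (happ : ∀ x : ℝ, |x| ≤ ρ → ‖((g (v + x) : ℝ) : ℂ) - ∑ i ∈ s, c i * cexp (I * w i * x)‖ ≤ ε) :
    g v ^ 2 ≤ 2 * C ^ 2 * Real.pi * (∫ x in (-ρ)..ρ, spW R x * g (v + x) ^ 2) +
      2 * (C * Real.pi + 1) ^ 2 * (ε + M / ρ ^ 70) ^ 2 := by
  have hR0 : 0 < R := by linarith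
  have hρ0 : 0 < ρ := by linarith
  have hpi := Real.pi_pos
  set G : ℝ → ℂ := fun x => ∑ i ∈ s, c i * cexp (I * w i * x) with hG
  set h : ℝ → ℂ := fun x => (R : ℂ) * K (R * x) with hh
  have hhc : Continuous h := by
    rw [hh]; fun_prop
  have hhn : ∀ x, ‖h x‖ ≤ C * spW R x := by
    intro x
    rw [hh]
    simp only
    rw [norm_mul, Complex.norm_real, Real.norm_of_nonneg hR0.le]
    unfold spW
    calc R * ‖K (R * x)‖ ≤ R * (C / (1 + (R * x) ^ 2) ^ 40) := by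
          gcongr; exact hK _
      _ = _ := by ring
  have hen : ∀ (a x : ℝ), ‖cexp (I * a * x)‖ = 1 := by
    intro a x
    have : I * a * x = ((a * x : ℝ) : ℂ) * I := by push_cast; ring
    rw [this, Complex.norm_exp_ofReal_mul_I]
  have hint : ∀ a : ℝ, Integrable (fun x : ℝ => h x * cexp (I * a * x)) := by
    intro a
    refine ((spW_int hR).const_mul C).mono' ?_ (Eventually.of_forall fun x => ?_)
    · refine Continuous.aestronglyMeasurable ?_
      fun_prop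
    · rw [norm_mul, hen, mul_one]
      exact hhn x
  have hone : ∀ i ∈ s, ∫ x : ℝ, h x * cexp (I * w i * x) = 1 := by
    intro i hi
    have h1 := hKi (w i / R) (by
      rw [abs_div, abs_of_pos hR0, div_le_one hR0]
      exact hw i hi)
    have h2 := Measure.integral_comp_mul_left
      (fun y : ℝ => K y * cexp (I * ((w i / R : ℝ) : ℂ) * y)) R
    rw [h1, abs_of_pos (inv_pos.2 hR0)] at h2
    have h3 : ∀ x : ℝ, h x * cexp (I * w i * x) =
        (R : ℂ) * (K (R * x) * cexp (I * ((w i / R : ℝ) : ℂ) * ((R * x : ℝ) : ℂ))) := by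
      intro x
      rw [hh]
      simp only
      have e : I * ((w i / R : ℝ) : ℂ) * ((R * x : ℝ) : ℂ) = I * w i * x := by
        have : (R : ℂ) ≠ 0 := by exact_mod_cast hR0.ne'
        push_cast
        field_simp
      rw [e]
      ring
    simp_rw [h3]
    rw [integral_const_mul, h2, Complex.real_smul, mul_one]
    have : (R : ℂ) ≠ 0 := by exact_mod_cast hR0.ne'
    push_cast
    field_simp
  have hG0 : G 0 = ∫ x : ℝ, h x * G x := by
    have h1 : ∀ x : ℝ, h x * G x = ∑ i ∈ s, c i * (h x * cexp (I * w i * x)) := by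
      intro x
      rw [hG]
      simp only
      rw [Finset.mul_sum]
      refine Finset.sum_congr rfl fun i _ => ?_
      ring
    simp_rw [h1]
    rw [integral_finsetSum _ fun i _ => (hint (w i)).const_mul (c i)]
    rw [hG]
    simp only
    refine Finset.sum_congr rfl fun i hi => ?_
    rw [integral_const_mul, hone i hi]
    simp
  have hGM : ∀ x, ‖G x‖ ≤ M := by
    intro x
    rw [hG]
    refine (norm_sum_le _ _).trans (le_trans (Finset.sum_le_sum fun i _ => ?_) hc)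
    rw [norm_mul, hen, mul_one]
  have hGg : ∀ x, |x| ≤ ρ → ‖G x‖ ≤ |g (v + x)| + ε := by
    intro x hx
    have h1 := happ x hx
    have h2 := norm_sub_norm_le (G x) ((g (v + x) : ℝ) : ℂ)
    rw [norm_sub_rev, Complex.norm_real, Real.norm_eq_abs] at h2
    have h3 : ‖((g (v + x) : ℝ) : ℂ) - G x‖ ≤ ε := h1
    linarith
  set φ : ℝ → ℝ := fun x => C * (spW R x * (|g (v + x)| + ε)) with hφ
  have hφc : Continuous φ := by
    rw [hφ]
    have := spW_cont R
    fun_prop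
  have hφi : IntegrableOn φ (Ioc (-ρ) ρ) := (hφc.integrableOn_Icc).mono_set Ioc_subset_Icc_self
  have hbd : ∀ x, ‖h x * G x‖ ≤ (Ioc (-ρ) ρ).indicator φ x +
      C * M / ρ ^ 70 * (R / (1 + (R * x) ^ 2)) := by
    intro x
    have hW := spW_nonneg hR x
    have hx2 : 0 ≤ R / (1 + (R * x) ^ 2) := by positivity
    have hp : 0 ≤ C * M / ρ ^ 70 * (R / (1 + (R * x) ^ 2)) := by positivity
    rw [norm_mul]
    by_cases hx : x ∈ Ioc (-ρ) ρ
    · rw [indicator_of_mem hx]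
      have h1 : |x| ≤ ρ := abs_le.2 ⟨hx.1.le, hx.2⟩
      have h2 : ‖h x‖ * ‖G x‖ ≤ (C * spW R x) * (|g (v + x)| + ε) :=
        mul_le_mul (hhn x) (hGg x h1) (norm_nonneg _) (by positivity)
      have h3 : (C * spW R x) * (|g (v + x)| + ε) = φ x := by rw [hφ]; ring
      linarith
    · rw [indicator_of_notMem hx, zero_add]
      have h1 : ρ ≤ |x| := by
        by_contra hcon
        push Not at hcon
        have := abs_lt.1 hcon
        exact hx ⟨this.1, this.2.le⟩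
      have h2 := spW_far hR hρ h1
      calc ‖h x‖ * ‖G x‖ ≤ (C * spW R x) * M :=
            mul_le_mul (hhn x) (hGM x) (norm_nonneg _) (by positivity)
        _ ≤ (C * (1 / ρ ^ 70 * (R / (1 + (R * x) ^ 2)))) * M := by gcongr
        _ = _ := by ring
  have hG0n : ‖G 0‖ ≤ (∫ x in (-ρ)..ρ, φ x) + C * M / ρ ^ 70 * Real.pi := by
    rw [hG0]
    have h1 : Integrable (fun x => (Ioc (-ρ) ρ).indicator φ x +
        C * M / ρ ^ 70 * (R / (1 + (R * x) ^ 2))) :=
      (hφi.integrable_indicator measurableSet_Ioc).add ((sp_int hR).const_mul _)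
    have e1 : ∫ x : ℝ, C * M / ρ ^ 70 * (R / (1 + (R * x) ^ 2)) = C * M / ρ ^ 70 * Real.pi := by
      rw [integral_const_mul, sp_int_eq hR]
    refine (norm_integral_le_of_norm_le h1 (Eventually.of_forall hbd)).trans (le_of_eq ?_)
    rw [integral_add (hφi.integrable_indicator measurableSet_Ioc) ((sp_int hR).const_mul _), e1,
      integral_indicator measurableSet_Ioc, intervalIntegral.integral_of_le (by linarith)]
  -- the three integrals
  have hWi : IntervalIntegrable (spW R) volume (-ρ) ρ := (spW_cont R).intervalIntegrable _ _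
  have hgc : Continuous fun x => g (v + x) := hg.comp (by fun_prop)
  have hc1 : Continuous fun x => spW R x * |g (v + x)| := (spW_cont R).mul hgc.abs
  have hc2 : Continuous fun x => spW R x * g (v + x) ^ 2 := (spW_cont R).mul (hgc.pow 2)
  set J : ℝ := ∫ x in (-ρ)..ρ, spW R x * |g (v + x)| with hJ
  set Q : ℝ := ∫ x in (-ρ)..ρ, spW R x * g (v + x) ^ 2 with hQ
  set w0 : ℝ := ∫ x in (-ρ)..ρ, spW R x with hw0
  have hw0π : w0 ≤ Real.pi := by
    rw [hw0, intervalIntegral.integral_of_le (by linarith), ← sp_int_eq hR]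
    refine (setIntegral_le_integral (spW_int hR) (Eventually.of_forall fun x => spW_nonneg hR x)).trans ?_
    exact integral_mono (spW_int hR) (sp_int hR) (fun x => spW_le hR x)
  have hw00 : 0 ≤ w0 := intervalIntegral.integral_nonneg (by linarith) fun x _ => spW_nonneg hR x
  have hJ0 : 0 ≤ J := intervalIntegral.integral_nonneg (by linarith) fun x _ =>
    mul_nonneg (spW_nonneg hR x) (abs_nonneg _)
  have hφJ : ∫ x in (-ρ)..ρ, φ x = C * J + C * ε * w0 := by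
    have h1 : ∀ x, φ x = C * (spW R x * |g (v + x)|) + C * ε * spW R x := by
      intro x; rw [hφ]; ring
    simp_rw [h1]
    rw [intervalIntegral.integral_add ((hc1.intervalIntegrable _ _).const_mul _)
      (hWi.const_mul _), intervalIntegral.integral_const_mul, intervalIntegral.integral_const_mul]
  have hCS : J ^ 2 ≤ Real.pi * Q := by
    have h1 : 0 ≤ ∫ x in (-ρ)..ρ, spW R x * (|g (v + x)| - J / Real.pi) ^ 2 :=
      intervalIntegral.integral_nonneg (by linarith) fun x _ =>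
        mul_nonneg (spW_nonneg hR x) (sq_nonneg _)
    have h2 : ∀ x, spW R x * (|g (v + x)| - J / Real.pi) ^ 2 =
        (spW R x * g (v + x) ^ 2 - 2 * (J / Real.pi) * (spW R x * |g (v + x)|)) +
          (J / Real.pi) ^ 2 * spW R x := by
      intro x
      have := sq_abs (g (v + x))
      rw [← this]
      ring
    simp_rw [h2] at h1
    rw [intervalIntegral.integral_add ((hc2.intervalIntegrable _ _).sub
      ((hc1.intervalIntegrable _ _).const_mul _)) (hWi.const_mul _),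
      intervalIntegral.integral_sub (hc2.intervalIntegrable _ _)
      ((hc1.intervalIntegrable _ _).const_mul _), intervalIntegral.integral_const_mul,
      intervalIntegral.integral_const_mul] at h1
    rw [← hJ, ← hQ, ← hw0] at h1
    have h3 : (J / Real.pi) ^ 2 * w0 ≤ (J / Real.pi) ^ 2 * Real.pi := by gcongr
    have h4 : (J / Real.pi) ^ 2 * Real.pi = J ^ 2 / Real.pi := by field_simp
    have h5 : 2 * (J / Real.pi) * J = 2 * (J ^ 2 / Real.pi) := by ring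
    rw [h5] at h1
    rw [h4] at h3
    have h6 : J ^ 2 / Real.pi ≤ Q := by linarith
    rw [div_le_iff₀ hpi] at h6
    linarith
  have hgv : |g v| ≤ C * J + (C * Real.pi + 1) * (ε + M / ρ ^ 70) := by
    have h1 : ‖((g (v + 0) : ℝ) : ℂ) - G 0‖ ≤ ε := happ 0 (by rw [abs_zero]; exact hρ0.le)
    rw [add_zero] at h1
    have h2 := norm_sub_norm_le ((g v : ℝ) : ℂ) (G 0)
    rw [Complex.norm_real, Real.norm_eq_abs] at h2
    rw [hφJ] at hG0n
    have h3 : C * ε * w0 ≤ C * ε * Real.pi := by gcongr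
    have h4 : C * M / ρ ^ 70 * Real.pi = C * Real.pi * (M / ρ ^ 70) := by ring
    have h5 : 0 ≤ M / ρ ^ 70 := by positivity
    rw [h4] at hG0n
    nlinarith
  have hD : 0 ≤ (C * Real.pi + 1) * (ε + M / ρ ^ 70) := by positivity
  have h1 : g v ^ 2 ≤ (C * J + (C * Real.pi + 1) * (ε + M / ρ ^ 70)) ^ 2 := by
    rw [← sq_abs (g v)]
    gcongr
  have h2 : (C * J + (C * Real.pi + 1) * (ε + M / ρ ^ 70)) ^ 2 ≤
      2 * (C * J) ^ 2 + 2 * ((C * Real.pi + 1) * (ε + M / ρ ^ 70)) ^ 2 := by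
    nlinarith [sq_nonneg (C * J - (C * Real.pi + 1) * (ε + M / ρ ^ 70))]
  have h3 : (C * J) ^ 2 ≤ C ^ 2 * (Real.pi * Q) := by
    rw [mul_pow]; gcongr
  calc g v ^ 2 ≤ 2 * (C * J) ^ 2 + 2 * ((C * Real.pi + 1) * (ε + M / ρ ^ 70)) ^ 2 := h1.trans h2
    _ ≤ 2 * (C ^ 2 * (Real.pi * Q)) + 2 * ((C * Real.pi + 1) * (ε + M / ρ ^ 70)) ^ 2 := by gcongr
    _ = _ := by ring

/-- sum of the translated weights -/
lemma spW_sum {R δ u0 t : ℝ} (hR : 1 ≤ R) (hδ : 0 < δ) (hRδ : 1 ≤ R * δ) (s : Finset ℤ) :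
    ∑ k ∈ s, spW R (t - (u0 + δ * k)) ≤ R * (3 * ∑' m : ℤ, 1 / (1 + (m:ℝ) ^ 2)) := by
  have hR0 : 0 < R := by linarith
  set z : ℝ := (t - u0) / δ with hz
  set k0 : ℤ := ⌊z⌋ with hk0
  have hf0 : 0 ≤ z - k0 := by
    have := Int.floor_le z
    linarith
  have hf1 : z - k0 < 1 := by
    have := Int.lt_floor_add_one z
    linarith
  have key : ∀ k ∈ s, spW R (t - (u0 + δ * k)) ≤ R * (3 * (1 / (1 + ((k0:ℝ) - k) ^ 2))) := by
    intro k _
    refine (spW_le hR _).trans ?_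
    rw [div_eq_mul_one_div]
    refine mul_le_mul_of_nonneg_left ?_ hR0.le
    have e : R * (t - (u0 + δ * k)) = (R * δ) * (z - k) := by
      rw [hz]; field_simp; ring
    rw [e]
    have h1 : (z - k) ^ 2 ≤ ((R * δ) * (z - k)) ^ 2 := by
      rw [mul_pow]
      have : 1 ≤ (R * δ) ^ 2 := one_le_pow₀ hRδ
      nlinarith [sq_nonneg (z - k)]
    have h2 : 1 + ((k0:ℝ) - k) ^ 2 ≤ 3 * (1 + (z - k) ^ 2) := by
      have e2 : z - k = ((k0:ℝ) - k) + (z - k0) := by ring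
      rw [e2]
      set n : ℝ := (k0:ℝ) - k
      set f : ℝ := z - k0
      nlinarith [sq_nonneg (n + 2 * f), sq_nonneg (n + f), sq_nonneg f]
    have h3 : 0 < 1 + ((k0:ℝ) - k) ^ 2 := by positivity
    have h4 : 0 < 1 + ((R * δ) * (z - k)) ^ 2 := by positivity
    rw [mul_one_div, div_le_div_iff₀ h4 h3]
    linarith
  refine (Finset.sum_le_sum key).trans ?_
  rw [← Finset.mul_sum, ← Finset.mul_sum]
  have := sp_shift k0 s
  gcongr

theorem sp
    (hkr : ∃ (K : ℝ → ℂ) (C : ℝ), 0 < C ∧ Continuous K ∧ (∀ x : ℝ, ‖K x‖ ≤ C / (1 + x ^ 2) ^ 40) ∧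
      ∀ w : ℝ, |w| ≤ 1 → ∫ x : ℝ, K x * cexp (I * w * x) = 1) :
    ∃ C1 : ℝ, 0 < C1 ∧ ∀ (u0 δ R ρ ε M a b : ℝ) (m1 m2 : ℤ) (g : ℝ → ℝ), Continuous g → 1 ≤ R → 0 < δ → 1 ≤ R * δ → 1 ≤ ρ → 0 ≤ ε →
      0 ≤ M → a ≤ b → (∀ k ∈ Finset.Ico m1 m2, a + ρ ≤ u0 + δ * k ∧ u0 + δ * k ≤ b - ρ) →
      (∀ k ∈ Finset.Ico m1 m2, ∃ (ι : Type) (s : Finset ι) (c : ι → ℂ) (w : ι → ℝ), (∀ i ∈ s, |w i| ≤ R) ∧ ∑ i ∈ s, ‖c i‖ ≤ M ∧
        ∀ x : ℝ, |x| ≤ ρ → ‖((g (u0 + δ * k + x) : ℝ) : ℂ) - ∑ i ∈ s, c i * cexp (I * w i * x)‖ ≤ ε) →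
      ∑ k ∈ Finset.Ico m1 m2, g (u0 + δ * k) ^ 2 ≤
        C1 * R * (∫ t in a..b, g t ^ 2) + C1 * ((Finset.Ico m1 m2).card : ℝ) * (ε + M / ρ ^ 70) ^ 2 := by
  obtain ⟨K, C, hC, hKc, hK, hKi⟩ := hkr
  set S0 : ℝ := ∑' m : ℤ, 1 / (1 + (m:ℝ) ^ 2) with hS0
  have hS0n : 0 ≤ S0 := tsum_nonneg fun m => by positivity
  have hpi := Real.pi_pos
  refine ⟨2 * C ^ 2 * Real.pi * (3 * S0) + 2 * (C * Real.pi + 1) ^ 2, by positivity, ?_⟩
  intro u0 δ R ρ ε M a b m1 m2 g hg hR hδ hRδ hρ hε hM hab hin happ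
  have hR0 : 0 < R := by linarith
  have hρ0 : 0 < ρ := by linarith
  set s := Finset.Ico m1 m2 with hs
  have h1 : ∀ k ∈ s, g (u0 + δ * k) ^ 2 ≤
      2 * C ^ 2 * Real.pi * (∫ t in a..b, spW R (t - (u0 + δ * k)) * g t ^ 2) +
      2 * (C * Real.pi + 1) ^ 2 * (ε + M / ρ ^ 70) ^ 2 := by
    intro k hk
    obtain ⟨ι, s', c, w, hw, hc, hap⟩ := happ k hk
    have h2 := sp_single hC hKc hK hKi hg hR hρ hε hM s' c w hw hc hap
    refine h2.trans ?_
    have h3 : ∫ x in (-ρ)..ρ, spW R x * g (u0 + δ * k + x) ^ 2 ≤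
        ∫ t in a..b, spW R (t - (u0 + δ * k)) * g t ^ 2 := by
      have h4 : ∫ x in (-ρ)..ρ, spW R x * g (u0 + δ * k + x) ^ 2 =
          ∫ t in (u0 + δ * k - ρ)..(u0 + δ * k + ρ), spW R (t - (u0 + δ * k)) * g t ^ 2 := by
        have h5 := intervalIntegral.integral_comp_add_left
          (fun t => spW R (t - (u0 + δ * k)) * g t ^ 2) (u0 + δ * k) (a := -ρ) (b := ρ)
        simp only [add_sub_cancel_left] at h5
        rw [h5]
        rfl
      rw [h4]
      obtain ⟨ha, hb⟩ := hin k hk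
      have hcont : Continuous fun t => spW R (t - (u0 + δ * k)) * g t ^ 2 :=
        ((spW_cont R).comp (by fun_prop)).mul (hg.pow 2)
      refine intervalIntegral.integral_mono_interval (by linarith) (by linarith) (by linarith)
        (Eventually.of_forall fun t => mul_nonneg (spW_nonneg hR _) (sq_nonneg _))
        (hcont.intervalIntegrable _ _)
    gcongr
  refine (Finset.sum_le_sum h1).trans ?_
  rw [Finset.sum_add_distrib, ← Finset.mul_sum, Finset.sum_const, nsmul_eq_mul]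
  have h6 : ∑ k ∈ s, ∫ t in a..b, spW R (t - (u0 + δ * k)) * g t ^ 2 ≤
      R * (3 * S0) * ∫ t in a..b, g t ^ 2 := by
    have hcont : ∀ k : ℤ, Continuous fun t => spW R (t - (u0 + δ * k)) * g t ^ 2 := fun k =>
      ((spW_cont R).comp (by fun_prop)).mul (hg.pow 2)
    rw [← intervalIntegral.integral_finsetSum fun k _ => (hcont k).intervalIntegrable _ _,
      ← intervalIntegral.integral_const_mul]
    refine intervalIntegral.integral_mono_on hab ?_ ?_ fun t _ => ?_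
    · exact (continuous_finsetSum _ fun k _ => hcont k).intervalIntegrable _ _
    · exact ((hg.pow 2).const_smul (R * (3 * S0))).intervalIntegrable _ _
    · rw [← Finset.sum_mul]
      exact mul_le_mul_of_nonneg_right (spW_sum hR hδ hRδ s) (sq_nonneg _)
  have hI0 : 0 ≤ ∫ t in a..b, g t ^ 2 := intervalIntegral.integral_nonneg hab fun t _ => sq_nonneg _
  have h7 : 0 ≤ (ε + M / ρ ^ 70) ^ 2 := sq_nonneg _
  have h8 : 0 ≤ (s.card : ℝ) := Nat.cast_nonneg _
  have h9 : 2 * C ^ 2 * Real.pi * ∑ k ∈ s, ∫ t in a..b, spW R (t - (u0 + δ * k)) * g t ^ 2 ≤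
      2 * C ^ 2 * Real.pi * (R * (3 * S0) * ∫ t in a..b, g t ^ 2) := by gcongr
  have h10 : 0 ≤ 2 * (C * Real.pi + 1) ^ 2 * R * ∫ t in a..b, g t ^ 2 := by positivity
  have h11 : 0 ≤ 2 * C ^ 2 * Real.pi * (3 * S0) * (s.card : ℝ) * (ε + M / ρ ^ 70) ^ 2 := by
    positivity
  nlinarith

end Pool.Agent.Helper647.SG.JSP
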