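import Mathlib
import Pool.Agent.Helper647_SG.JSP

set_option autoImplicit false

namespace Pool.Agent.Helper647.SG.ASP

open Complex Filter Topology MeasureTheory Set

open Pool.Agent.Helper647.SG.JSP

lemma sp2_single {K : ℝ → ℂ} {C : ℝ} (hC : 0 < C) (hKc : Continuous K)
    (hK : ∀ x : ℝ, ‖K x‖ ≤ C / (1 + x ^ 2) ^ 40)
    (hL : ∀ x y : ℝ, |y| ≤ 1 → ‖K (x + y) - K x‖ ≤ C * |y| / (1 + x ^ 2) ^ 40)
    (hKi : ∀ w : ℝ, |w| ≤ 1 → ∫ x : ℝ, K x * cexp (I * w * x) = 1)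
    {R ρ ε M v η y : ℝ} {g : ℝ → ℝ} (hg : Continuous g) (hR : 1 ≤ R) (hρ : 1 ≤ ρ) (hε : 0 ≤ ε)
    (hM : 0 ≤ M) (hη : 0 ≤ η) (hRη : R * η ≤ 1) (hy : |y| ≤ η)
    {ι : Type} (s : Finset ι) (c : ι → ℂ) (w : ι → ℝ) (hw : ∀ i ∈ s, |w i| ≤ R)
    (hc : ∑ i ∈ s, ‖c i‖ ≤ M)
    (happ : ∀ x : ℝ, |x| ≤ ρ → ‖((g (v + x) : ℝ) : ℂ) - ∑ i ∈ s, c i * cexp (I * w i * x)‖ ≤ ε) :
    (g (v + y) - g v) ^ 2 ≤
      2 * C ^ 2 * Real.pi * (R * η) ^ 2 * (∫ x in (-ρ)..ρ, spW R x * g (v + x) ^ 2) +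
      2 * (C * Real.pi + 2) ^ 2 * (ε + M / ρ ^ 70) ^ 2 := by
  have hR0 : 0 < R := by linarith
  have hρ0 : 0 < ρ := by linarith
  have hpi := Real.pi_pos
  obtain ⟨P, hP⟩ : ∃ P, P = R * η := ⟨_, rfl⟩
  have hP0 : 0 ≤ P := by rw [hP]; positivity
  rw [← hP] at hRη ⊢
  have hRy : R * |y| ≤ P := by rw [hP]; gcongr
  set G : ℝ → ℂ := fun x => ∑ i ∈ s, c i * cexp (I * w i * x) with hG
  set h : ℝ → ℂ := fun x => (R : ℂ) * K (R * x) with hh
  have hhc : Continuous h := by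
    rw [hh]; fun_prop
  have hhn : ∀ x, ‖h x‖ ≤ C * spW R x := by
    intro x
    rw [hh]
    simp only
    rw [norm_mul, Complex.norm_real, Real.norm_of_nonneg hR0.le]
    unfold spW
    calc R * ‖K (R * x)‖ ≤ R * (C / (1 + (R * x) ^ 2) ^ 40) := by
          gcongr; exact hK _
      _ = _ := by ring
  have hDn : ∀ x, ‖h (x - y) - h x‖ ≤ C * P * spW R x := by
    intro x
    have e : h (x - y) - h x = (R : ℂ) * (K (R * x + -(R * y)) - K (R * x)) := by
      rw [hh]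
      simp only
      rw [show R * (x - y) = R * x + -(R * y) by ring]
      ring
    have h1 : |-(R * y)| = R * |y| := by rw [abs_neg, abs_mul, abs_of_pos hR0]
    have h2 := hL (R * x) (-(R * y)) (by rw [h1]; linarith)
    rw [h1] at h2
    rw [e, norm_mul, Complex.norm_real, Real.norm_of_nonneg hR0.le]
    unfold spW
    calc R * ‖K (R * x + -(R * y)) - K (R * x)‖ ≤ R * (C * (R * |y|) / (1 + (R * x) ^ 2) ^ 40) := by
          gcongr
      _ ≤ R * (C * P / (1 + (R * x) ^ 2) ^ 40) := by gcongr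
      _ = _ := by ring
  have hen : ∀ (a x : ℝ), ‖cexp (I * a * x)‖ = 1 := by
    intro a x
    have : I * a * x = ((a * x : ℝ) : ℂ) * I := by push_cast; ring
    rw [this, Complex.norm_exp_ofReal_mul_I]
  have hint : ∀ a : ℝ, Integrable (fun x : ℝ => h x * cexp (I * a * x)) := by
    intro a
    refine ((spW_int hR).const_mul C).mono' ?_ (Eventually.of_forall fun x => ?_)
    · refine Continuous.aestronglyMeasurable ?_
      fun_prop
    · rw [norm_mul, hen, mul_one]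
      exact hhn x
  have hone : ∀ i ∈ s, ∫ x : ℝ, h x * cexp (I * w i * x) = 1 := by
    intro i hi
    have h1 := hKi (w i / R) (by
      rw [abs_div, abs_of_pos hR0, div_le_one hR0]
      exact hw i hi)
    have h2 := Measure.integral_comp_mul_left
      (fun y : ℝ => K y * cexp (I * ((w i / R : ℝ) : ℂ) * y)) R
    rw [h1, abs_of_pos (inv_pos.2 hR0)] at h2
    have h3 : ∀ x : ℝ, h x * cexp (I * w i * x) =
        (R : ℂ) * (K (R * x) * cexp (I * ((w i / R : ℝ) : ℂ) * ((R * x : ℝ) : ℂ))) := by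
      intro x
      rw [hh]
      simp only
      have e : I * ((w i / R : ℝ) : ℂ) * ((R * x : ℝ) : ℂ) = I * w i * x := by
        have : (R : ℂ) ≠ 0 := by exact_mod_cast hR0.ne'
        push_cast
        field_simp
      rw [e]
      ring
    simp_rw [h3]
    rw [integral_const_mul, h2, Complex.real_smul, mul_one]
    have : (R : ℂ) ≠ 0 := by exact_mod_cast hR0.ne'
    push_cast
    field_simp
  have hshift : ∀ (a : ℝ) (x : ℝ), h (x - y) * cexp (I * a * x) =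
      cexp (I * a * y) * (h (x - y) * cexp (I * a * ((x - y : ℝ) : ℂ))) := by
    intro a x
    have e : cexp (I * a * x) = cexp (I * a * y) * cexp (I * a * ((x - y : ℝ) : ℂ)) := by
      rw [← Complex.exp_add]
      congr 1
      push_cast
      ring
    rw [e]
    ring
  have hint' : ∀ a : ℝ, Integrable (fun x : ℝ => h (x - y) * cexp (I * a * x)) := by
    intro a
    have h1 := ((hint a).comp_sub_right y).const_mul (cexp (I * a * y))
    refine h1.congr (Eventually.of_forall fun x => ?_)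
    exact (hshift a x).symm
  have hone' : ∀ i ∈ s, ∫ x : ℝ, h (x - y) * cexp (I * w i * x) = cexp (I * w i * y) := by
    intro i hi
    simp_rw [hshift (w i)]
    rw [integral_const_mul,
      integral_sub_right_eq_self (fun x : ℝ => h x * cexp (I * w i * ((x : ℝ) : ℂ))) y,
      hone i hi, mul_one]
  have hGd : G y - G 0 = ∫ x : ℝ, (h (x - y) - h x) * G x := by
    have h1 : ∀ x : ℝ, (h (x - y) - h x) * G x =
        ∑ i ∈ s, c i * (h (x - y) * cexp (I * w i * x) - h x * cexp (I * w i * x)) := by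
      intro x
      rw [hG]
      simp only
      rw [Finset.mul_sum]
      refine Finset.sum_congr rfl fun i _ => ?_
      ring
    have hsub : ∀ a : ℝ, Integrable
        (fun x : ℝ => h (x - y) * cexp (I * a * x) - h x * cexp (I * a * x)) :=
      fun a => (hint' a).sub (hint a)
    simp_rw [h1]
    rw [integral_finsetSum _ fun i _ => (hsub (w i)).const_mul (c i)]
    rw [hG]
    simp only
    rw [← Finset.sum_sub_distrib]
    refine Finset.sum_congr rfl fun i hi => ?_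
    rw [integral_const_mul, integral_sub (hint' (w i)) (hint (w i)), hone i hi, hone' i hi]
    simp
    ring
  have hGM : ∀ x, ‖G x‖ ≤ M := by
    intro x
    rw [hG]
    refine (norm_sum_le _ _).trans (le_trans (Finset.sum_le_sum fun i _ => ?_) hc)
    rw [norm_mul, hen, mul_one]
  have hGg : ∀ x, |x| ≤ ρ → ‖G x‖ ≤ |g (v + x)| + ε := by
    intro x hx
    have h1 := happ x hx
    have h2 := norm_sub_norm_le (G x) ((g (v + x) : ℝ) : ℂ)
    rw [norm_sub_rev, Complex.norm_real, Real.norm_eq_abs] at h2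
    have h3 : ‖((g (v + x) : ℝ) : ℂ) - G x‖ ≤ ε := h1
    linarith
  set φ : ℝ → ℝ := fun x => C * P * (spW R x * (|g (v + x)| + ε)) with hφ
  have hφc : Continuous φ := by
    rw [hφ]
    have := spW_cont R
    fun_prop
  have hφi : IntegrableOn φ (Ioc (-ρ) ρ) := (hφc.integrableOn_Icc).mono_set Ioc_subset_Icc_self
  have hbd : ∀ x, ‖(h (x - y) - h x) * G x‖ ≤ (Ioc (-ρ) ρ).indicator φ x +
      C * P * M / ρ ^ 70 * (R / (1 + (R * x) ^ 2)) := by
    intro x
    have hW := spW_nonneg hR x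
    have hx2 : 0 ≤ R / (1 + (R * x) ^ 2) := by positivity
    have hp : 0 ≤ C * P * M / ρ ^ 70 * (R / (1 + (R * x) ^ 2)) := by positivity
    rw [norm_mul]
    by_cases hx : x ∈ Ioc (-ρ) ρ
    · rw [indicator_of_mem hx]
      have h1 : |x| ≤ ρ := abs_le.2 ⟨hx.1.le, hx.2⟩
      have h2 : ‖h (x - y) - h x‖ * ‖G x‖ ≤ (C * P * spW R x) * (|g (v + x)| + ε) :=
        mul_le_mul (hDn x) (hGg x h1) (norm_nonneg _) (by positivity)
      have h3 : (C * P * spW R x) * (|g (v + x)| + ε) = φ x := by rw [hφ]; ring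
      linarith
    · rw [indicator_of_notMem hx, zero_add]
      have h1 : ρ ≤ |x| := by
        by_contra hcon
        push Not at hcon
        have := abs_lt.1 hcon
        exact hx ⟨this.1, this.2.le⟩
      have h2 := spW_far hR hρ h1
      calc ‖h (x - y) - h x‖ * ‖G x‖ ≤ (C * P * spW R x) * M :=
            mul_le_mul (hDn x) (hGM x) (norm_nonneg _) (by positivity)
        _ ≤ (C * P * (1 / ρ ^ 70 * (R / (1 + (R * x) ^ 2)))) * M := by gcongr
        _ = _ := by ring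
  have hGn : ‖G y - G 0‖ ≤ (∫ x in (-ρ)..ρ, φ x) + C * P * M / ρ ^ 70 * Real.pi := by
    rw [hGd]
    have h1 : Integrable (fun x => (Ioc (-ρ) ρ).indicator φ x +
        C * P * M / ρ ^ 70 * (R / (1 + (R * x) ^ 2))) :=
      (hφi.integrable_indicator measurableSet_Ioc).add ((sp_int hR).const_mul _)
    have e1 : ∫ x : ℝ, C * P * M / ρ ^ 70 * (R / (1 + (R * x) ^ 2)) =
        C * P * M / ρ ^ 70 * Real.pi := by
      rw [integral_const_mul, sp_int_eq hR]
    refine (norm_integral_le_of_norm_le h1 (Eventually.of_forall hbd)).trans (le_of_eq ?_)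
    rw [integral_add (hφi.integrable_indicator measurableSet_Ioc) ((sp_int hR).const_mul _), e1,
      integral_indicator measurableSet_Ioc, intervalIntegral.integral_of_le (by linarith)]
  -- the three integrals
  have hWi : IntervalIntegrable (spW R) volume (-ρ) ρ := (spW_cont R).intervalIntegrable _ _
  have hgc : Continuous fun x => g (v + x) := hg.comp (by fun_prop)
  have hc1 : Continuous fun x => spW R x * |g (v + x)| := (spW_cont R).mul hgc.abs
  have hc2 : Continuous fun x => spW R x * g (v + x) ^ 2 := (spW_cont R).mul (hgc.pow 2)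
  set J : ℝ := ∫ x in (-ρ)..ρ, spW R x * |g (v + x)| with hJ
  set Q : ℝ := ∫ x in (-ρ)..ρ, spW R x * g (v + x) ^ 2 with hQ
  set w0 : ℝ := ∫ x in (-ρ)..ρ, spW R x with hw0
  have hw0π : w0 ≤ Real.pi := by
    rw [hw0, intervalIntegral.integral_of_le (by linarith), ← sp_int_eq hR]
    refine (setIntegral_le_integral (spW_int hR) (Eventually.of_forall fun x => spW_nonneg hR x)).trans ?_
    exact integral_mono (spW_int hR) (sp_int hR) (fun x => spW_le hR x)
  have hw00 : 0 ≤ w0 := intervalIntegral.integral_nonneg (by linarith) fun x _ => spW_nonneg hR x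
  have hJ0 : 0 ≤ J := intervalIntegral.integral_nonneg (by linarith) fun x _ =>
    mul_nonneg (spW_nonneg hR x) (abs_nonneg _)
  have hφJ : ∫ x in (-ρ)..ρ, φ x = C * P * J + C * P * ε * w0 := by
    have h1 : ∀ x, φ x = C * P * (spW R x * |g (v + x)|) + C * P * ε * spW R x := by
      intro x; rw [hφ]; ring
    simp_rw [h1]
    rw [intervalIntegral.integral_add ((hc1.intervalIntegrable _ _).const_mul _)
      (hWi.const_mul _), intervalIntegral.integral_const_mul, intervalIntegral.integral_const_mul]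
  have hCS : J ^ 2 ≤ Real.pi * Q := by
    have h1 : 0 ≤ ∫ x in (-ρ)..ρ, spW R x * (|g (v + x)| - J / Real.pi) ^ 2 :=
      intervalIntegral.integral_nonneg (by linarith) fun x _ =>
        mul_nonneg (spW_nonneg hR x) (sq_nonneg _)
    have h2 : ∀ x, spW R x * (|g (v + x)| - J / Real.pi) ^ 2 =
        (spW R x * g (v + x) ^ 2 - 2 * (J / Real.pi) * (spW R x * |g (v + x)|)) +
          (J / Real.pi) ^ 2 * spW R x := by
      intro x
      have := sq_abs (g (v + x))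
      rw [← this]
      ring
    simp_rw [h2] at h1
    rw [intervalIntegral.integral_add ((hc2.intervalIntegrable _ _).sub
      ((hc1.intervalIntegrable _ _).const_mul _)) (hWi.const_mul _),
      intervalIntegral.integral_sub (hc2.intervalIntegrable _ _)
      ((hc1.intervalIntegrable _ _).const_mul _), intervalIntegral.integral_const_mul,
      intervalIntegral.integral_const_mul] at h1
    rw [← hJ, ← hQ, ← hw0] at h1
    have h3 : (J / Real.pi) ^ 2 * w0 ≤ (J / Real.pi) ^ 2 * Real.pi := by gcongr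
    have h4 : (J / Real.pi) ^ 2 * Real.pi = J ^ 2 / Real.pi := by field_simp
    have h5 : 2 * (J / Real.pi) * J = 2 * (J ^ 2 / Real.pi) := by ring
    rw [h5] at h1
    rw [h4] at h3
    have h6 : J ^ 2 / Real.pi ≤ Q := by linarith
    rw [div_le_iff₀ hpi] at h6
    linarith
  have hη1 : η ≤ 1 := by
    have h1 : 1 * η ≤ R * η := mul_le_mul_of_nonneg_right hR hη
    rw [← hP] at h1
    linarith
  have hgv : |g (v + y) - g v| ≤ C * P * J + (C * Real.pi + 2) * (ε + M / ρ ^ 70) := by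
    have h1 : ‖((g (v + 0) : ℝ) : ℂ) - G 0‖ ≤ ε := happ 0 (by rw [abs_zero]; exact hρ0.le)
    have h1' : ‖((g (v + y) : ℝ) : ℂ) - G y‖ ≤ ε := happ y (by linarith)
    rw [add_zero] at h1
    have h2 : |g (v + y) - g v| = ‖((g (v + y) : ℝ) : ℂ) - ((g v : ℝ) : ℂ)‖ := by
      rw [← Complex.ofReal_sub, Complex.norm_real, Real.norm_eq_abs]
    have h2' : ‖((g (v + y) : ℝ) : ℂ) - ((g v : ℝ) : ℂ)‖ ≤ ε + ‖G y - G 0‖ + ε := by
      have e : ((g (v + y) : ℝ) : ℂ) - ((g v : ℝ) : ℂ) =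
          ((((g (v + y) : ℝ) : ℂ) - G y) + (G y - G 0)) - (((g v : ℝ) : ℂ) - G 0) := by ring
      rw [e]
      refine (norm_sub_le _ _).trans ?_
      have := norm_add_le (((g (v + y) : ℝ) : ℂ) - G y) (G y - G 0)
      linarith
    rw [hφJ] at hGn
    have h3 : C * P * ε * w0 ≤ C * 1 * ε * Real.pi := by gcongr
    have h4 : C * P * M / ρ ^ 70 * Real.pi = C * Real.pi * P * (M / ρ ^ 70) := by ring
    have h5 : 0 ≤ M / ρ ^ 70 := by positivity
    have h6 : C * Real.pi * P * (M / ρ ^ 70) ≤ C * Real.pi * 1 * (M / ρ ^ 70) := by gcongr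
    rw [h4] at hGn
    rw [h2]
    nlinarith
  have hD : 0 ≤ (C * Real.pi + 2) * (ε + M / ρ ^ 70) := by positivity
  have h1 : (g (v + y) - g v) ^ 2 ≤ (C * P * J + (C * Real.pi + 2) * (ε + M / ρ ^ 70)) ^ 2 := by
    rw [← sq_abs (g (v + y) - g v)]
    gcongr
  have h2 : (C * P * J + (C * Real.pi + 2) * (ε + M / ρ ^ 70)) ^ 2 ≤
      2 * (C * P * J) ^ 2 + 2 * ((C * Real.pi + 2) * (ε + M / ρ ^ 70)) ^ 2 := by
    nlinarith [sq_nonneg (C * P * J - (C * Real.pi + 2) * (ε + M / ρ ^ 70))]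
  have h3 : (C * P * J) ^ 2 ≤ C ^ 2 * P ^ 2 * (Real.pi * Q) := by
    rw [mul_pow, mul_pow]; gcongr
  calc (g (v + y) - g v) ^ 2
      ≤ 2 * (C * P * J) ^ 2 + 2 * ((C * Real.pi + 2) * (ε + M / ρ ^ 70)) ^ 2 := h1.trans h2
    _ ≤ 2 * (C ^ 2 * P ^ 2 * (Real.pi * Q)) +
        2 * ((C * Real.pi + 2) * (ε + M / ρ ^ 70)) ^ 2 := by gcongr
    _ = _ := by ring

theorem sp2
    (hkr : ∃ (K : ℝ → ℂ) (C : ℝ), 0 < C ∧ Continuous K ∧ (∀ x : ℝ, ‖K x‖ ≤ C / (1 + x ^ 2) ^ 40) ∧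
      (∀ x y : ℝ, |y| ≤ 1 → ‖K (x + y) - K x‖ ≤ C * |y| / (1 + x ^ 2) ^ 40) ∧
      ∀ w : ℝ, |w| ≤ 1 → ∫ x : ℝ, K x * cexp (I * w * x) = 1) :
    ∃ C1 : ℝ, 0 < C1 ∧ ∀ (u0 δ R ρ ε M a b η : ℝ) (m1 m2 : ℤ) (g : ℝ → ℝ) (y : ℤ → ℝ), Continuous g → 1 ≤ R → 0 < δ → 1 ≤ R * δ → 1 ≤ ρ → 0 ≤ ε →
      0 ≤ M → a ≤ b → 0 ≤ η → R * η ≤ 1 → (∀ k ∈ Finset.Ico m1 m2, |y k| ≤ η) →
      (∀ k ∈ Finset.Ico m1 m2, a + ρ ≤ u0 + δ * k ∧ u0 + δ * k ≤ b - ρ) →
      (∀ k ∈ Finset.Ico m1 m2, ∃ (ι : Type) (s : Finset ι) (c : ι → ℂ) (w : ι → ℝ), (∀ i ∈ s, |w i| ≤ R) ∧ ∑ i ∈ s, ‖c i‖ ≤ M ∧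
        ∀ x : ℝ, |x| ≤ ρ → ‖((g (u0 + δ * k + x) : ℝ) : ℂ) - ∑ i ∈ s, c i * cexp (I * w i * x)‖ ≤ ε) →
      ∑ k ∈ Finset.Ico m1 m2, (g (u0 + δ * k + y k) - g (u0 + δ * k)) ^ 2 ≤
        C1 * R * (R * η) ^ 2 * (∫ t in a..b, g t ^ 2) + C1 * ((Finset.Ico m1 m2).card : ℝ) * (ε + M / ρ ^ 70) ^ 2 := by
  obtain ⟨K, C, hC, hKc, hK, hL, hKi⟩ := hkr
  set S0 : ℝ := ∑' m : ℤ, 1 / (1 + (m:ℝ) ^ 2) with hS0
  have hS0n : 0 ≤ S0 := tsum_nonneg fun m => by positivity
  have hpi := Real.pi_pos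
  refine ⟨2 * C ^ 2 * Real.pi * (3 * S0) + 2 * (C * Real.pi + 2) ^ 2, by positivity, ?_⟩
  intro u0 δ R ρ ε M a b η m1 m2 g y hg hR hδ hRδ hρ hε hM hab hη hRη hy hin happ
  have hR0 : 0 < R := by linarith
  have hρ0 : 0 < ρ := by linarith
  set s := Finset.Ico m1 m2 with hs
  have h1 : ∀ k ∈ s, (g (u0 + δ * k + y k) - g (u0 + δ * k)) ^ 2 ≤
      2 * C ^ 2 * Real.pi * (R * η) ^ 2 *
        (∫ t in a..b, spW R (t - (u0 + δ * k)) * g t ^ 2) +
      2 * (C * Real.pi + 2) ^ 2 * (ε + M / ρ ^ 70) ^ 2 := by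
    intro k hk
    obtain ⟨ι, s', c, w, hw, hc, hap⟩ := happ k hk
    have h2 := sp2_single hC hKc hK hL hKi hg hR hρ hε hM hη hRη (hy k hk) s' c w hw hc hap
    refine h2.trans ?_
    have h3 : ∫ x in (-ρ)..ρ, spW R x * g (u0 + δ * k + x) ^ 2 ≤
        ∫ t in a..b, spW R (t - (u0 + δ * k)) * g t ^ 2 := by
      have h4 : ∫ x in (-ρ)..ρ, spW R x * g (u0 + δ * k + x) ^ 2 =
          ∫ t in (u0 + δ * k - ρ)..(u0 + δ * k + ρ), spW R (t - (u0 + δ * k)) * g t ^ 2 := by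
        have h5 := intervalIntegral.integral_comp_add_left
          (fun t => spW R (t - (u0 + δ * k)) * g t ^ 2) (u0 + δ * k) (a := -ρ) (b := ρ)
        simp only [add_sub_cancel_left] at h5
        rw [h5]
        rfl
      rw [h4]
      obtain ⟨ha, hb⟩ := hin k hk
      have hcont : Continuous fun t => spW R (t - (u0 + δ * k)) * g t ^ 2 :=
        ((spW_cont R).comp (by fun_prop)).mul (hg.pow 2)
      refine intervalIntegral.integral_mono_interval (by linarith) (by linarith) (by linarith)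
        (Eventually.of_forall fun t => mul_nonneg (spW_nonneg hR _) (sq_nonneg _))
        (hcont.intervalIntegrable _ _)
    gcongr
  refine (Finset.sum_le_sum h1).trans ?_
  rw [Finset.sum_add_distrib, ← Finset.mul_sum, Finset.sum_const, nsmul_eq_mul]
  have h6 : ∑ k ∈ s, ∫ t in a..b, spW R (t - (u0 + δ * k)) * g t ^ 2 ≤
      R * (3 * S0) * ∫ t in a..b, g t ^ 2 := by
    have hcont : ∀ k : ℤ, Continuous fun t => spW R (t - (u0 + δ * k)) * g t ^ 2 := fun k =>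
      ((spW_cont R).comp (by fun_prop)).mul (hg.pow 2)
    rw [← intervalIntegral.integral_finsetSum fun k _ => (hcont k).intervalIntegrable _ _,
      ← intervalIntegral.integral_const_mul]
    refine intervalIntegral.integral_mono_on hab ?_ ?_ fun t _ => ?_
    · exact (continuous_finsetSum _ fun k _ => hcont k).intervalIntegrable _ _
    · exact ((hg.pow 2).const_smul (R * (3 * S0))).intervalIntegrable _ _
    · rw [← Finset.sum_mul]
      exact mul_le_mul_of_nonneg_right (spW_sum hR hδ hRδ s) (sq_nonneg _)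
  have hI0 : 0 ≤ ∫ t in a..b, g t ^ 2 := intervalIntegral.integral_nonneg hab fun t _ => sq_nonneg _
  obtain ⟨Z, hZ⟩ : ∃ Z, Z = ∫ t in a..b, g t ^ 2 := ⟨_, rfl⟩
  obtain ⟨E, hE⟩ : ∃ E, E = (ε + M / ρ ^ 70) ^ 2 := ⟨_, rfl⟩
  obtain ⟨N, hN⟩ : ∃ N : ℝ, N = (s.card : ℝ) := ⟨_, rfl⟩
  obtain ⟨P, hP⟩ : ∃ P, P = (R * η) ^ 2 := ⟨_, rfl⟩
  have h7 : 0 ≤ E := by rw [hE]; exact sq_nonneg _
  have h8 : 0 ≤ N := by rw [hN]; exact Nat.cast_nonneg _
  have hP0 : 0 ≤ P := by rw [hP]; exact sq_nonneg _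
  rw [← hZ] at hI0 h6 ⊢
  rw [← hE, ← hN, ← hP]
  have h9 : 2 * C ^ 2 * Real.pi * P * ∑ k ∈ s, ∫ t in a..b, spW R (t - (u0 + δ * k)) * g t ^ 2 ≤
      2 * C ^ 2 * Real.pi * P * (R * (3 * S0) * Z) := by gcongr
  have h10 : 0 ≤ 2 * (C * Real.pi + 2) ^ 2 * R * P * Z := by positivity
  have h11 : 0 ≤ 2 * C ^ 2 * Real.pi * (3 * S0) * N * E := by
    positivity
  refine (add_le_add_left h9 _).trans ?_
  have e : (2 * C ^ 2 * Real.pi * (3 * S0) + 2 * (C * Real.pi + 2) ^ 2) * R * P * Z +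
      (2 * C ^ 2 * Real.pi * (3 * S0) + 2 * (C * Real.pi + 2) ^ 2) * N * E =
      2 * C ^ 2 * Real.pi * P * (R * (3 * S0) * Z) + N * (2 * (C * Real.pi + 2) ^ 2 * E) +
      (2 * (C * Real.pi + 2) ^ 2 * R * P * Z + 2 * C ^ 2 * Real.pi * (3 * S0) * N * E) := by ring
  rw [e]
  linarith

end Pool.Agent.Helper647.SG.ASP
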