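import Pool.Agent.Helper647_SG.Base

set_option autoImplicit false

/-! All zeros instead of the critical ones; measurability; signs; the parity correlation. -/

namespace Pool.Agent.Helper647.SG

open Complex Filter Topology MeasureTheory Set
open Pool.Agent.Helper647.PT (cr cr_add fz par_cr)
open H370 (good_zeta)
open Pool.Agent.Helper647.GL (mo half_eta)

/-- the zeros of zeta in the critical strip with ordinate in `[a, b)` -/
def zs (a b : ℝ) : Set ℂ := {s : ℂ | 0 < s.re ∧ s.re < 1 ∧ a ≤ s.im ∧ s.im < b ∧ riemannZeta s = 0}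

/-- the number of these zeros, with multiplicity -/
noncomputable def ct (a b : ℝ) : ℕ := ∑ᶠ s ∈ zs a b, analyticOrderNatAt riemannZeta s

lemma zs_fin {a : ℝ} (ha : 2 ≤ a) (b : ℝ) : (zs a b).Finite := by
  refine (H370.zset_finite good_zeta 1 b le_rfl).subset ?_
  rintro s ⟨h1, h2, h3, h4, h5⟩
  exact ⟨h1, h2, by linarith, h4.le, h5⟩

/-- the parity of the number of all zeros is that of the number of critical zeros -/
theorem ct_parity {a : ℝ} (ha : 2 ≤ a) (b : ℝ) : ∃ n : ℕ, ct a b = cr a b + 2 * n := by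
  classical
  set S := (zs_fin ha b).toFinset with hS
  have hmem : ∀ s, s ∈ S ↔ (0 < s.re ∧ s.re < 1 ∧ a ≤ s.im ∧ s.im < b ∧ riemannZeta s = 0) := by
    intro s; rw [hS, Set.Finite.mem_toFinset]; rfl
  set m : ℂ → ℕ := fun s => analyticOrderNatAt riemannZeta s with hm
  have h1 : ct a b = ∑ s ∈ S, m s := finsum_mem_eq_finite_toFinset_sum _ (zs_fin ha b)
  -- the critical zeros
  have h2 : cr a b = ∑ s ∈ S.filter (fun s => s.re = 1 / 2), m s := by
    unfold cr
    rw [finsum_mem_eq_finite_toFinset_sum _ (fz a b)]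
    refine Finset.sum_bij (fun t _ => (1 / 2 + I * (t : ℂ) : ℂ)) ?_ ?_ ?_ ?_
    · intro t ht
      rw [Set.Finite.mem_toFinset] at ht
      obtain ⟨x1, x2, x3⟩ := ht
      have him : (1 / 2 + I * (t : ℂ)).im = t := by simp
      have hre : (1 / 2 + I * (t : ℂ)).re = 1 / 2 := by simp
      rw [Finset.mem_filter, hmem]
      refine ⟨⟨by rw [hre]; norm_num, by rw [hre]; norm_num, by rw [him]; exact x1, by rw [him]; exact x2, x3⟩, hre⟩
    · intro x _ y _ h
      have := congrArg Complex.im h
      simpa using this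
    · intro s hs
      rw [Finset.mem_filter, hmem] at hs
      refine ⟨s.im, ?_, half_eta hs.2⟩
      rw [Set.Finite.mem_toFinset]
      refine ⟨hs.1.2.2.1, hs.1.2.2.2.1, ?_⟩
      rw [half_eta hs.2]
      exact hs.1.2.2.2.2
    · intro t _
      rfl
  -- the zeros to the left and to the right
  have h3 : ∑ s ∈ S.filter (fun s => s.re < 1 / 2), m s = ∑ s ∈ S.filter (fun s => 1 / 2 < s.re), m s := by
    have hsym : ∀ s ∈ S, m (1 - (starRingEnd ℂ) s) = m s := by
      intro s hs
      rw [hmem] at hs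
      simp only [hm]
      unfold analyticOrderNatAt
      rw [good_zeta.symm s hs.1 hs.2.1 (by linarith [hs.2.2.1])]
    have hz : ∀ s ∈ S, riemannZeta (1 - (starRingEnd ℂ) s) = 0 := by
      intro s hs
      have h4 := hs
      rw [hmem] at hs
      have h5 := good_zeta.symm s hs.1 hs.2.1 (by linarith [hs.2.2.1])
      have h6 : AnalyticAt ℂ riemannZeta s := good_zeta.an s (by linarith [hs.2.2.1])
      have h7 : AnalyticAt ℂ riemannZeta (1 - (starRingEnd ℂ) s) :=
        good_zeta.an _ (by simp; linarith [hs.2.2.1])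
      rw [← h7.analyticOrderAt_ne_zero, h5, h6.analyticOrderAt_ne_zero]
      exact hs.2.2.2.2
    refine Finset.sum_bij (fun s _ => 1 - (starRingEnd ℂ) s) ?_ ?_ ?_ ?_
    · intro s hs
      rw [Finset.mem_filter] at hs
      have h4 := hz s hs.1
      have h5 := hs
      rw [hmem] at h5
      rw [Finset.mem_filter, hmem]
      simp only [Complex.sub_re, Complex.one_re, Complex.conj_re, Complex.sub_im, Complex.one_im, Complex.conj_im]
      refine ⟨⟨by linarith [h5.2], by linarith [h5.1.1], by linarith [h5.1.2.2.1], by linarith [h5.1.2.2.2.1], h4⟩,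
        by linarith [h5.2]⟩
    · intro x _ y _ h
      have h4 := congrArg (fun z => 1 - (starRingEnd ℂ) z) h
      simpa using h4
    · intro s hs
      rw [Finset.mem_filter] at hs
      have h4 := hz s hs.1
      have h5 := hs
      rw [hmem] at h5
      refine ⟨1 - (starRingEnd ℂ) s, ?_, by simp⟩
      rw [Finset.mem_filter, hmem]
      simp only [Complex.sub_re, Complex.one_re, Complex.conj_re, Complex.sub_im, Complex.one_im, Complex.conj_im]
      refine ⟨⟨by linarith [h5.1.2.1], by linarith [h5.2], by linarith [h5.1.2.2.1], by linarith [h5.1.2.2.2.1], h4⟩,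
        by linarith [h5.2]⟩
    · intro s hs
      exact (hsym s (Finset.mem_filter.1 hs).1).symm
  refine ⟨∑ s ∈ S.filter (fun s => s.re < 1 / 2), m s, ?_⟩
  have h4 : ∑ s ∈ S, m s = ∑ s ∈ S.filter (fun s => s.re = 1 / 2), m s +
      (∑ s ∈ S.filter (fun s => s.re < 1 / 2), m s + ∑ s ∈ S.filter (fun s => 1 / 2 < s.re), m s) := by
    rw [← Finset.sum_filter_add_sum_filter_not S (fun s => s.re = 1 / 2)]
    congr 1
    rw [← Finset.sum_filter_add_sum_filter_not (S.filter (fun s => ¬ s.re = 1 / 2)) (fun s => s.re < 1 / 2),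
      Finset.filter_filter, Finset.filter_filter]
    congr 1
    · refine Finset.sum_congr ?_ fun _ _ => rfl
      ext s
      simp only [Finset.mem_filter]
      constructor
      · rintro ⟨x1, x2, x3⟩; exact ⟨x1, x3⟩
      · rintro ⟨x1, x2⟩; exact ⟨x1, x2.ne, x2⟩
    · refine Finset.sum_congr ?_ fun _ _ => rfl
      ext s
      simp only [Finset.mem_filter]
      constructor
      · rintro ⟨x1, x2, x3⟩; exact ⟨x1, lt_of_le_of_ne (not_lt.1 x3) (Ne.symm x2)⟩
      · rintro ⟨x1, x2⟩; exact ⟨x1, x2.ne', not_lt.2 x2.le⟩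
  rw [h1, h4, h2, ← h3]
  ring

lemma ct_odd {a : ℝ} (ha : 2 ≤ a) (b : ℝ) : Odd (ct a b) ↔ Odd (cr a b) := by
  obtain ⟨n, hn⟩ := ct_parity ha b
  rw [hn, Nat.odd_add]
  have : Even (2 * n) := even_two_mul n
  tauto

lemma ct_even {a : ℝ} (ha : 2 ≤ a) (b : ℝ) : Even (ct a b) ↔ Even (cr a b) := by
  rw [← Nat.not_odd_iff_even, ← Nat.not_odd_iff_even, ct_odd ha]

/-- Hardy's function -/
noncomputable def Zr (t : ℝ) : ℝ := (Pool.Agent.R304.SG.Z t).re

lemma Zr_cont : Continuous Zr := Complex.continuous_re.comp Pool.Agent.R304.SG.Z_cont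

lemma Zr_zero (t : ℝ) : Zr t = 0 ↔ riemannZeta (1 / 2 + I * t) = 0 := by
  unfold Zr
  rw [← Pool.Agent.R304.SG.Z_zero_iff, ← Pool.Agent.R304.SG.Z_re t]
  simp

/-- an odd number of zeros between two points where Hardy's function does not vanish -/
lemma par_cr_odd {a b : ℝ} (hab : a ≤ b) (ha : Zr a ≠ 0) (hb : Zr b ≠ 0) (hodd : Odd (cr a b)) :
    Zr a * Zr b < 0 := by
  classical
  set S := (fz a b).toFinset with hS
  have hmem : ∀ u, u ∈ S ↔ a < u ∧ u < b ∧ Zr u = 0 := by
    intro u
    rw [hS, Set.Finite.mem_toFinset, Set.mem_ofPred_eq]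
    constructor
    · rintro ⟨x1, x2, x3⟩
      refine ⟨lt_of_le_of_ne x1 ?_, x2, (Zr_zero u).2 x3⟩
      rintro rfl
      exact ha ((Zr_zero a).2 x3)
    · rintro ⟨x1, x2, x3⟩
      exact ⟨x1.le, x2, (Zr_zero u).1 x3⟩
  have hcr : cr a b = ∑ u ∈ S, mo riemannZeta u := by
    unfold cr
    exact finsum_mem_eq_finite_toFinset_sum _ (fz a b)
  have hne : S.Nonempty := by
    by_contra h
    rw [Finset.not_nonempty_iff_eq_empty] at h
    rw [hcr, h, Finset.sum_empty] at hodd
    simp at hodd
  obtain ⟨v, hv⟩ := hne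
  have hv' := (hmem v).1 hv
  have hlt : a < b := hv'.1.trans hv'.2.1
  have key := Pool.Agent.Helper647.PT.par (fun t => (t - v) * Zr t)
    ((continuous_id.sub continuous_const).mul Zr_cont) a b hlt
    (mul_ne_zero (by linarith [hv'.1] : a - v ≠ 0) ha) (mul_ne_zero (by linarith [hv'.2.1] : b - v ≠ 0) hb)
    S ?_ (fun u => if u = v then mo riemannZeta u + 1 else mo riemannZeta u) ?_ ?_
  · have h1 : a - v < 0 := by linarith [hv'.1]
    have h2 : 0 < b - v := by linarith [hv'.2.1]
    have h3 : (a - v) * Zr a * ((b - v) * Zr b) = ((a - v) * (b - v)) * (Zr a * Zr b) := by ring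
    rw [h3] at key
    have h4 : (a - v) * (b - v) < 0 := mul_neg_of_neg_of_pos h1 h2
    by_contra hc
    push Not at hc
    have := mul_nonpos_of_nonpos_of_nonneg h4.le hc
    linarith
  · intro u
    rw [hmem u]
    constructor
    · rintro ⟨x1, x2, x3⟩
      exact ⟨x1, x2, by rw [x3, mul_zero]⟩
    · rintro ⟨x1, x2, x3⟩
      refine ⟨x1, x2, ?_⟩
      rcases mul_eq_zero.1 x3 with h | h
      · have : u = v := by linarith
        rw [this]; exact hv'.2.2
      · exact h
  · intro u hu
    obtain ⟨c, hc0, hc⟩ := Pool.Agent.R304.SG.local_behaviour u (mo riemannZeta u)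
      (Nat.cast_analyticOrderNatAt (Pool.Agent.Helper647.PT.order_fin u)).symm
    by_cases huv : u = v
    · refine ⟨c, hc0, ?_⟩
      simp only [huv, if_true]
      rw [huv] at hc
      refine hc.congr' ?_
      filter_upwards [self_mem_nhdsWithin] with t ht
      have h1 : t - v ≠ 0 := sub_ne_zero.2 ht
      unfold Zr
      rw [pow_succ]
      field_simp
    · refine ⟨(u - v) * c, mul_ne_zero (sub_ne_zero.2 huv) hc0, ?_⟩
      simp only [huv, if_false]
      have h1 : Tendsto (fun t : ℝ => t - v) (𝓝[≠] u) (𝓝 (u - v)) :=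
        ((continuous_id.sub continuous_const).tendsto u).mono_left nhdsWithin_le_nhds
      refine (h1.mul hc).congr fun t => ?_
      unfold Zr
      rw [mul_div_assoc]
  · have h1 : ∑ u ∈ S, (if u = v then mo riemannZeta u + 1 else mo riemannZeta u) =
        ∑ u ∈ S, mo riemannZeta u + 1 := by
      have e : ∀ u ∈ S, (if u = v then mo riemannZeta u + 1 else mo riemannZeta u) =
          mo riemannZeta u + (if u = v then 1 else 0) := by
        intro u _
        split_ifs <;> rfl
      rw [Finset.sum_congr rfl e, Finset.sum_add_distrib, Finset.sum_ite_eq' S v, if_pos hv]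
    rw [h1, ← hcr]
    exact hodd.add_one

lemma Z_odd {t h : ℝ} (hh : 0 ≤ h) (h1 : Zr t ≠ 0) (h2 : Zr (t + h) ≠ 0) :
    Odd (cr t (t + h)) ↔ Zr t * Zr (t + h) < 0 := by
  constructor
  · exact fun h3 => par_cr_odd (by linarith) h1 h2 h3
  · intro h3
    by_contra hc
    rw [Nat.not_odd_iff_even] at hc
    have := par_cr (by linarith : t ≤ t + h) h1 h2 hc
    unfold Zr at h3
    linarith

end Pool.Agent.Helper647.SG
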