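import Pool.Agent.Helper647_SG.Lat0
import Pool.Agent.Helper647_SG.AKR
import Pool.Agent.Helper647_SG.ASP
import Pool.Agent.Helper647_SG.AFG

set_option autoImplicit false

/-! Arithmetic progressions of small difference: many terms are far from all critical zeros. -/

namespace Pool.Agent.Helper647.SG

open Complex Filter Topology MeasureTheory Set
open Pool.Agent.Helper647.PT (al bR Bz Pz Yn Nn F1 KE cr cr_add fz Yn_le Yn_pos Nn_ge Nn_le bR_abs bR_one zp sizes)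
open Pool.Agent.R304.GR (vt psi exp_vt)

/-- the first moment over a progression -/
lemma fdm2 : ∃ δ0 T0 : ℝ, 0 < δ0 ∧ δ0 ≤ 1 ∧ 8 ≤ T0 ∧ ∀ (T δ u0 : ℝ) (m1 m2 : ℤ), T0 ≤ T → 1 / Real.log T ≤ δ →
    δ ≤ δ0 → m1 ≤ m2 → T ^ (51 / 100 : ℝ) ≤ (m2 : ℝ) - m1 → T / 2 ≤ u0 + δ * m1 → u0 + δ * m2 ≤ 4 * T →
      1 / 2 * ((m2 : ℝ) - m1) ≤ ∑ k ∈ Finset.Ico m1 m2, |XS T (u0 + δ * k)| := by
  obtain ⟨δ0, T1, hδ00, hδ01, hT1, hfd⟩ := AFG.fd3 (Pool.Agent.H373R2.T4.DivB.div_bound (δ := 1 / 1000) (by norm_num))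
  obtain ⟨T2, hT2, h2⟩ := sizes
  have hev : ∀ᶠ T : ℝ in atTop, 200 ≤ T ^ (49 / 100 : ℝ) :=
    (tendsto_rpow_atTop (by norm_num)).eventually_ge_atTop _
  obtain ⟨T3, hT3⟩ := hev.exists_forall_of_atTop
  refine ⟨δ0, max (max T1 T2) T3, hδ00, hδ01, hT1.trans ((le_max_left _ _).trans (le_max_left _ _)), ?_⟩
  intro T δ u0 m1 m2 hT hδ1 hδ2 hm hP ha hb
  have hTT1 : T1 ≤ T := ((le_max_left _ _).trans (le_max_left _ _)).trans hT
  have hTT2 : T2 ≤ T := ((le_max_right _ _).trans (le_max_left _ _)).trans hT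
  have hTT3 : T3 ≤ T := (le_max_right _ _).trans hT
  have hT8 : 8 ≤ T := hT1.trans hTT1
  have hT0 : 0 < T := by linarith
  obtain ⟨s1, s2, s3, s4, s5, s6⟩ := h2 T hTT2
  have g1 := hT3 T hTT3
  have hδ0 : 0 < δ := lt_of_lt_of_le (one_div_pos.2 (by linarith)) hδ1
  have hN1 : 1 ≤ Nn T := by
    have h := Nn_ge T
    have : (1 : ℝ) ≤ Nn T := by linarith
    exact_mod_cast this
  have h3 : 3 / 4 * ((m2 : ℝ) - m1) ≤
      ‖∑ k ∈ Finset.Ico m1 m2, Pz (Nn T) (u0 + δ * k) * Bz (Yn T) (bR (Real.log T)) (u0 + δ * k) ^ 2‖ :=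
    hfd T δ u0 (Yn T) (Nn T) (bR (Real.log T)) m1 m2 hTT1 hδ1 hδ2 (Yn_pos hT0) s6 hN1 (Nn_le (by linarith))
      (fun n => bR_abs _ _) (bR_one _) hm hP
  have hsmall : 50 * T ^ (-(49 / 100) : ℝ) ≤ 1 / 4 := by
    have p1 : 0 < T ^ (49 / 100 : ℝ) := Real.rpow_pos_of_pos hT0 _
    rw [Real.rpow_neg hT0.le, ← div_eq_mul_inv, div_le_iff₀ p1]
    linarith
  have hpw : ∀ k ∈ Finset.Ico m1 m2,
      ‖Pz (Nn T) (u0 + δ * k) * Bz (Yn T) (bR (Real.log T)) (u0 + δ * k) ^ 2‖ ≤ |XS T (u0 + δ * k)| + 1 / 4 := by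
    intro k hk
    rw [Finset.mem_Ico] at hk
    have k1 : (m1 : ℝ) ≤ k := by exact_mod_cast hk.1
    have k2 : (k : ℝ) ≤ m2 := by exact_mod_cast hk.2.le
    have k3 : δ * m1 ≤ δ * k := mul_le_mul_of_nonneg_left k1 hδ0.le
    have k4 : δ * k ≤ δ * m2 := mul_le_mul_of_nonneg_left k2 hδ0.le
    rw [XS_abs]
    set t := u0 + δ * k with ht
    have h4 := zp (T := T) (t := t) hT8 (by linarith) (by linarith)
    have h5 := s3 t
    have e : riemannZeta (1 / 2 + I * t) * Bz (Yn T) (bR (Real.log T)) t ^ 2 =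
        Pz (Nn T) t * Bz (Yn T) (bR (Real.log T)) t ^ 2 +
        (riemannZeta (1 / 2 + I * t) - Pz (Nn T) t) * Bz (Yn T) (bR (Real.log T)) t ^ 2 := by ring
    have h6 : ‖(riemannZeta (1 / 2 + I * t) - Pz (Nn T) t) * Bz (Yn T) (bR (Real.log T)) t ^ 2‖ ≤
        50 * T ^ (-(49 / 100) : ℝ) := by
      rw [norm_mul, norm_pow]
      calc _ ≤ 50 / Real.sqrt T * T ^ (1 / 100 : ℝ) :=
            mul_le_mul h4 h5 (by positivity) (by positivity)
        _ = 50 * T ^ (-(49 / 100) : ℝ) := by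
            rw [Real.sqrt_eq_rpow, div_mul_eq_mul_div, mul_div_assoc, ← Real.rpow_sub hT0]
            norm_num
    have h7 := norm_sub_norm_le (Pz (Nn T) t * Bz (Yn T) (bR (Real.log T)) t ^ 2)
      (-((riemannZeta (1 / 2 + I * t) - Pz (Nn T) t) * Bz (Yn T) (bR (Real.log T)) t ^ 2))
    rw [sub_neg_eq_add, ← e, norm_neg] at h7
    linarith
  have h8 := (norm_sum_le _ _).trans (Finset.sum_le_sum hpw)
  rw [Finset.sum_add_distrib, Finset.sum_const, Int.card_Ico, nsmul_eq_mul] at h8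
  have hm' : (m1 : ℝ) ≤ m2 := by exact_mod_cast hm
  have e4 : (((m2 - m1).toNat : ℕ) : ℝ) = (m2 : ℝ) - m1 := by
    have h9 : (((m2 - m1).toNat : ℕ) : ℤ) = m2 - m1 := Int.toNat_of_nonneg (by omega)
    have h10 : ((((m2 - m1).toNat : ℕ) : ℤ) : ℝ) = ((m2 - m1 : ℤ) : ℝ) := by rw [h9]
    push_cast at h10
    exact h10
  rw [e4] at h8
  linarith

theorem ap : ∃ c δ0 T0 : ℝ, 0 < c ∧ 0 < δ0 ∧ 8 ≤ T0 ∧ ∀ (T δ u : ℝ) (m1 m2 : ℤ), T0 ≤ T → 1 / Real.log T ≤ δ →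
    δ ≤ δ0 → T ≤ u + δ * m1 → u + δ * m2 ≤ 2 * T → T ^ (51 / 100 : ℝ) ≤ (m2 : ℝ) - m1 →
      c * (((m2 : ℝ) - m1) ^ 2 / (T * Real.log T)) ≤
        ({k : ℤ | m1 ≤ k ∧ k < m2 ∧ ∀ γ : ℝ, riemannZeta (1 / 2 + I * γ) = 0 →
          c * Real.sqrt (((m2 : ℝ) - m1) / (T * Real.log T ^ 3)) < |γ - (u + δ * k)|}.ncard : ℝ) := by
  classical
  obtain ⟨C3, T3, hC3, hT3, hSM⟩ := SM2
  obtain ⟨Cs, hCs, hsp⟩ := JSP.sp JKR.kr
  obtain ⟨Cd, hCd, hsp2⟩ := ASP.sp2 AKR.kr2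
  obtain ⟨δ0, T1, hδ00, hδ01, hT1, hFM⟩ := fdm2
  obtain ⟨T5, hT5, hloc⟩ := loc'
  obtain ⟨T6, hT6, hsz⟩ := szs
  set K1 : ℝ := 3 * Cs * C3 + Cs with hK1
  have hK1p : 0 < K1 := by positivity
  have hev : ∀ᶠ T : ℝ in atTop, 2 ^ 71 + 128 * Cd ≤ T ^ (1 / 60 : ℝ) ∧ 4 * T ^ (1 / 20 : ℝ) ≤ T := by
    have a1 : ∀ᶠ T : ℝ in atTop, (4 : ℝ) ≤ T ^ (19 / 20 : ℝ) :=
      (tendsto_rpow_atTop (by norm_num)).eventually_ge_atTop _
    filter_upwards [(tendsto_rpow_atTop (show (0 : ℝ) < 1 / 60 by norm_num)).eventually_ge_atTop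
        (2 ^ 71 + 128 * Cd), a1, eventually_ge_atTop (1 : ℝ)] with T b1 b2 hT
    refine ⟨b1, ?_⟩
    have hT0 : 0 < T := by linarith
    have e1 : T ^ (19 / 20 : ℝ) * T ^ (1 / 20 : ℝ) = T := by
      rw [← Real.rpow_add hT0]; norm_num
    have p1 : 0 < T ^ (1 / 20 : ℝ) := Real.rpow_pos_of_pos hT0 _
    nlinarith
  obtain ⟨T4, hT4⟩ := hev.exists_forall_of_atTop
  set c : ℝ := min (1 / 3) (min (1 / (16 * K1)) (1 / (1 + 864 * Cd * C3))) with hc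
  have hc0 : 0 < c := by
    rw [hc]; positivity
  have hc1 : c ≤ 1 / 3 := min_le_left _ _
  have hc2 : c ≤ 1 / (16 * K1) := (min_le_right _ _).trans (min_le_left _ _)
  have hc3 : c ≤ 1 / (1 + 864 * Cd * C3) := (min_le_right _ _).trans (min_le_right _ _)
  refine ⟨c, δ0, max (max T1 T3) (max T4 (max T5 T6)), hc0, hδ00,
    hT1.trans ((le_max_left _ _).trans (le_max_left _ _)), ?_⟩
  intro T δ u m1 m2 hT hδ1 hδ2 ha hb hP
  have hTT1 : T1 ≤ T := ((le_max_left _ _).trans (le_max_left _ _)).trans hT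
  have hTT3 : T3 ≤ T := ((le_max_right _ _).trans (le_max_left _ _)).trans hT
  have hTT4 : T4 ≤ T := ((le_max_left _ _).trans (le_max_right _ _)).trans hT
  have hTT5 : T5 ≤ T := ((le_max_left _ _).trans ((le_max_right _ _).trans (le_max_right _ _))).trans hT
  have hTT6 : T6 ≤ T := ((le_max_right _ _).trans ((le_max_right _ _).trans (le_max_right _ _))).trans hT
  have hT8 : 8 ≤ T := hT1.trans hTT1
  have hT0 : 0 < T := by linarith
  obtain ⟨g1, g2⟩ := hT4 T hTT4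
  obtain ⟨z1, z2, z3, z4⟩ := hsz T hTT6
  set L := Real.log T with hL
  have hL0 : 0 < L := by linarith
  have hδp : 0 < δ := lt_of_lt_of_le (one_div_pos.2 hL0) hδ1
  have hLδ : 1 ≤ L * δ := by
    rw [div_le_iff₀ hL0] at hδ1
    linarith
  -- the powers of T
  obtain ⟨z, hz⟩ : ∃ z : ℝ, z = T ^ (1 / 60 : ℝ) := ⟨_, rfl⟩
  rw [← hz] at g1
  have hz1 : 2 ^ 71 ≤ z := by linarith
  have hz2 : 128 * Cd ≤ z := by
    have : (0 : ℝ) ≤ 2 ^ 71 := by positivity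
    linarith
  have hz5 : (16 : ℝ) ≤ z := le_trans (by norm_num) hz1
  have hz0 : 0 < z := by linarith
  have e20 : T ^ (1 / 20 : ℝ) = z ^ 3 := by
    rw [hz, ← Real.rpow_natCast, ← Real.rpow_mul hT0.le]; norm_num
  have e10 : T ^ (-(1 / 10) : ℝ) = (z ^ 6)⁻¹ := by
    rw [hz, ← Real.rpow_natCast, ← Real.rpow_mul hT0.le, ← Real.rpow_neg hT0.le]; norm_num
  have e51 : T ^ (51 / 100 : ℝ) ≤ z ^ 31 := by
    rw [hz, ← Real.rpow_natCast, ← Real.rpow_mul hT0.le]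
    exact Real.rpow_le_rpow_of_exponent_le (by linarith) (by norm_num)
  rw [e20] at g2
  -- the range
  set P : ℝ := (m2 : ℝ) - m1 with hPd
  have hP0 : 0 < P := lt_of_lt_of_le (Real.rpow_pos_of_pos hT0 _) hP
  have hm : m1 ≤ m2 := by
    have : (m1 : ℝ) ≤ m2 := by linarith
    exact_mod_cast this
  have hPT : P ≤ T * L := by
    have h1 : δ * P ≤ T := by rw [hPd]; linarith
    have h2 : P ≤ (L * δ) * P := le_mul_of_one_le_left hP0.le hLδ
    have h3 : L * (δ * P) ≤ L * T := mul_le_mul_of_nonneg_left h1 hL0.le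
    linarith
  have hcard : ((Finset.Ico m1 m2).card : ℝ) = P := by
    rw [Int.card_Ico]
    have h9 : (((m2 - m1).toNat : ℕ) : ℤ) = m2 - m1 := Int.toNat_of_nonneg (by omega)
    have h10 : ((((m2 - m1).toNat : ℕ) : ℤ) : ℝ) = ((m2 - m1 : ℤ) : ℝ) := by rw [h9]
    push_cast at h10
    rw [hPd]
    exact h10
  have hrange : ∀ k ∈ Finset.Ico m1 m2, T ≤ u + δ * k ∧ u + δ * k ≤ 2 * T := by
    intro k hk
    rw [Finset.mem_Ico] at hk
    have k1 : (m1 : ℝ) ≤ k := by exact_mod_cast hk.1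
    have k2 : (k : ℝ) ≤ m2 := by exact_mod_cast hk.2.le
    have k3 : δ * m1 ≤ δ * k := mul_le_mul_of_nonneg_left k1 hδp.le
    have k4 : δ * k ≤ δ * m2 := mul_le_mul_of_nonneg_left k2 hδp.le
    constructor <;> linarith
  have hz3' : 2 * z ≤ z ^ 3 := by nlinarith [mul_pos hz0 hz0]
  have hρ1 : 1 ≤ z ^ 3 / 2 := by linarith
  have hρ70 : z ^ 210 / 2 ^ 70 = (z ^ 3 / 2) ^ 70 := by
    rw [div_pow, ← pow_mul]
  have hran2 : ∀ k ∈ Finset.Ico m1 m2, T / 4 + z ^ 3 / 2 ≤ u + δ * k ∧ u + δ * k ≤ 4 * T - z ^ 3 / 2 := by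
    intro k hk
    obtain ⟨k1, k2⟩ := hrange k hk
    constructor <;> linarith
  have hlocal : ∀ k ∈ Finset.Ico m1 m2, ∃ (ι : Type) (s : Finset ι) (c : ι → ℂ) (w : ι → ℝ),
      (∀ i ∈ s, |w i| ≤ 3 * L) ∧ ∑ i ∈ s, ‖c i‖ ≤ z ^ 31 ∧
        ∀ x : ℝ, |x| ≤ z ^ 3 / 2 →
          ‖((XS T (u + δ * k + x) : ℝ) : ℂ) - ∑ i ∈ s, c i * cexp (I * w i * x)‖ ≤ (z ^ 6)⁻¹ := by
    intro k hk
    obtain ⟨k1, k2⟩ := hrange k hk
    refine ⟨ℕ × ℕ × ℕ, tri (Nn T) (Yn T), fun q => lac T (u + δ * k) 0 q,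
      fun q => psi (u + δ * k) - lm q, fun q hq => ?_, ?_, ?_⟩
    · have h3 := z4 _ k1 k2
      have h4 := z2 q hq
      have h5 := abs_sub (psi (u + δ * k)) (lm q)
      linarith
    · calc ∑ q ∈ tri (Nn T) (Yn T), ‖lac T (u + δ * k) 0 q‖
            = ∑ q ∈ tri (Nn T) (Yn T), |cf (bR (Real.log T)) q| :=
              Finset.sum_congr rfl fun q _ => lac_norm _ _ _ _
          _ ≤ z ^ 31 := z3.trans e51
    · intro x hx
      have h4 := hloc T (u + δ * k) (0 + x) hTT5 k1 k2 (by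
        rw [zero_add, e20]
        have : 0 < z ^ 3 := by positivity
        linarith)
      rw [lac_exp, e10, zero_add] at h4
      exact h4
  have herr : z ^ 31 / (z ^ 3 / 2) ^ 70 ≤ (z ^ 6)⁻¹ := by
    rw [← hρ70, div_div_eq_mul_div, div_le_iff₀ (by positivity)]
    have h1 : (2 : ℝ) ^ 70 ≤ z := le_trans (by norm_num) hz1
    calc z ^ 31 * 2 ^ 70 ≤ z ^ 31 * z := mul_le_mul_of_nonneg_left h1 (by positivity)
      _ = z ^ 32 := by ring
      _ ≤ z ^ 204 := pow_le_pow_right₀ (by linarith) (by norm_num)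
      _ = (z ^ 6)⁻¹ * z ^ 210 := by field_simp
  have herr2 : ((z ^ 6)⁻¹ + z ^ 31 / (z ^ 3 / 2) ^ 70) ^ 2 ≤ 4 / z := by
    have h1 : 0 ≤ z ^ 31 / (z ^ 3 / 2) ^ 70 := by positivity
    have h2 : ((z ^ 6)⁻¹ + z ^ 31 / (z ^ 3 / 2) ^ 70) ^ 2 ≤ (2 * (z ^ 6)⁻¹) ^ 2 := by
      apply pow_le_pow_left₀ (by positivity)
      linarith
    refine h2.trans ?_
    rw [mul_pow, inv_pow, ← pow_mul, ← div_eq_mul_inv]
    norm_num
    apply div_le_div_of_nonneg_left (by norm_num) hz0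
    calc z = z ^ 1 := (pow_one z).symm
      _ ≤ z ^ 12 := pow_le_pow_right₀ (by linarith) (by norm_num)
  -- the second moment
  have hI := hSM T hTT3
  have hI0 : 0 ≤ ∫ t in (T / 4)..(4 * T), XS T t ^ 2 :=
    intervalIntegral.integral_nonneg (by linarith) fun t _ => sq_nonneg _
  have hall : ∑ k ∈ Finset.Ico m1 m2, XS T (u + δ * k) ^ 2 ≤ K1 * (T * L) := by
    have h1 := hsp u δ (3 * L) (z ^ 3 / 2) ((z ^ 6)⁻¹) (z ^ 31) (T / 4) (4 * T) m1 m2 (XS T) (cont T) (by linarith) hδp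
      (by linarith) hρ1 (by positivity) (by positivity) (by linarith) hran2 hlocal
    rw [hcard] at h1
    have h2 : 4 / z ≤ 1 := by
      rw [div_le_one hz0]; linarith
    have h3 : Cs * P * ((z ^ 6)⁻¹ + z ^ 31 / (z ^ 3 / 2) ^ 70) ^ 2 ≤ Cs * P * 1 :=
      mul_le_mul_of_nonneg_left (herr2.trans h2) (by positivity)
    have h4 : Cs * P ≤ Cs * (T * L) := mul_le_mul_of_nonneg_left hPT hCs.le
    have h5 : Cs * (3 * L) * (∫ t in (T / 4)..(4 * T), XS T t ^ 2) ≤ Cs * (3 * L) * (C3 * T) :=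
      mul_le_mul_of_nonneg_left hI (by positivity)
    rw [hK1]
    linarith
  -- the displacements
  set η : ℝ := c * Real.sqrt (P / (T * L ^ 3)) with hη
  have hη0 : 0 ≤ η := by positivity
  have hη2 : η ^ 2 = c ^ 2 * (P / (T * L ^ 3)) := by
    rw [hη, mul_pow, Real.sq_sqrt (by positivity)]
  have hRη : 3 * L * η ≤ 1 := by
    have h1 : Real.sqrt (P / (T * L ^ 3)) ≤ 1 / L := by
      rw [Real.sqrt_le_left (by positivity), div_pow, one_pow, div_le_div_iff₀ (by positivity) (by positivity)]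
      calc P * L ^ 2 ≤ (T * L) * L ^ 2 := mul_le_mul_of_nonneg_right hPT (by positivity)
        _ = 1 * (T * L ^ 3) := by ring
    calc 3 * L * η ≤ 3 * L * (1 / 3 * (1 / L)) := by
          rw [hη]
          gcongr
      _ = 1 := by field_simp
  set Gd : Set ℤ := {k : ℤ | m1 ≤ k ∧ k < m2 ∧ ∀ γ : ℝ, riemannZeta (1 / 2 + I * γ) = 0 → η < |γ - (u + δ * k)|} with hGd
  set G : Finset ℤ := (Finset.Ico m1 m2).filter (fun k => ∀ γ : ℝ, riemannZeta (1 / 2 + I * γ) = 0 → η < |γ - (u + δ * k)|) with hG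
  have hGG : Gd = (G : Set ℤ) := by
    ext k
    rw [hGd, hG, Finset.coe_filter]
    simp only [Set.mem_ofPred_eq, Finset.mem_Ico]
    tauto
  rw [hGG, Set.ncard_coe_finset]
  set B : Finset ℤ := (Finset.Ico m1 m2).filter (fun k => ¬ ∀ γ : ℝ, riemannZeta (1 / 2 + I * γ) = 0 → η < |γ - (u + δ * k)|) with hB
  have hex : ∀ k : ℤ, ∃ y : ℝ, |y| ≤ η ∧ (k ∈ B → XS T (u + δ * k + y) = 0) := by
    intro k
    by_cases hk : k ∈ B
    · rw [hB, Finset.mem_filter] at hk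
      obtain ⟨_, hk2⟩ := hk
      push Not at hk2
      obtain ⟨γ, h1, h2⟩ := hk2
      refine ⟨γ - (u + δ * k), h2, fun _ => ?_⟩
      have e : u + δ * k + (γ - (u + δ * k)) = γ := by ring
      rw [e]
      have h3 := (Zr_zero γ).2 h1
      unfold Zr at h3
      unfold XS
      rw [h3, zero_mul]
    · exact ⟨0, by rw [abs_zero]; exact hη0, fun h => absurd h hk⟩
  choose y hy1 hy2 using hex
  have hbad : ∑ k ∈ B, XS T (u + δ * k) ^ 2 ≤ P / 16 := by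
    have h1 := hsp2 u δ (3 * L) (z ^ 3 / 2) ((z ^ 6)⁻¹) (z ^ 31) (T / 4) (4 * T) η m1 m2 (XS T) y (cont T) (by linarith) hδp
      (by linarith) hρ1 (by positivity) (by positivity) (by linarith) hη0 hRη (fun k _ => hy1 k) hran2 hlocal
    rw [hcard] at h1
    have h2 : ∑ k ∈ B, XS T (u + δ * k) ^ 2 ≤
        ∑ k ∈ Finset.Ico m1 m2, (XS T (u + δ * k + y k) - XS T (u + δ * k)) ^ 2 := by
      have h3 : ∑ k ∈ B, XS T (u + δ * k) ^ 2 = ∑ k ∈ B, (XS T (u + δ * k + y k) - XS T (u + δ * k)) ^ 2 := by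
        refine Finset.sum_congr rfl fun k hk => ?_
        rw [hy2 k hk]
        ring
      rw [h3]
      exact Finset.sum_le_sum_of_subset_of_nonneg (Finset.filter_subset _ _) fun k _ _ => sq_nonneg _
    have h4 : Cd * (3 * L) * (3 * L * η) ^ 2 * (∫ t in (T / 4)..(4 * T), XS T t ^ 2) ≤ P / 32 := by
      have h5 : Cd * (3 * L) * (3 * L * η) ^ 2 * (∫ t in (T / 4)..(4 * T), XS T t ^ 2) ≤
          Cd * (3 * L) * (3 * L * η) ^ 2 * (C3 * T) := mul_le_mul_of_nonneg_left hI (by positivity)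
      refine h5.trans ?_
      have h6 : Cd * (3 * L) * (3 * L * η) ^ 2 * (C3 * T) = 27 * Cd * C3 * c ^ 2 * P := by
        rw [mul_pow, hη2]
        field_simp
        ring
      rw [h6]
      have h7 : c ^ 2 ≤ c := by nlinarith
      have h8 : 27 * Cd * C3 * c ≤ 1 / 32 := by
        have h9 : 27 * Cd * C3 * c ≤ 27 * Cd * C3 * (1 / (1 + 864 * Cd * C3)) :=
          mul_le_mul_of_nonneg_left hc3 (by positivity)
        refine h9.trans ?_
        rw [mul_one_div, div_le_div_iff₀ (by positivity) (by norm_num)]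
        linarith
      have h10 : 27 * Cd * C3 * c ^ 2 ≤ 27 * Cd * C3 * c := mul_le_mul_of_nonneg_left h7 (by positivity)
      have h11 : (27 * Cd * C3 * c ^ 2) * P ≤ (1 / 32) * P := mul_le_mul_of_nonneg_right (h10.trans h8) hP0.le
      linarith
    have h12 : Cd * P * ((z ^ 6)⁻¹ + z ^ 31 / (z ^ 3 / 2) ^ 70) ^ 2 ≤ P / 32 := by
      have h13 : Cd * P * ((z ^ 6)⁻¹ + z ^ 31 / (z ^ 3 / 2) ^ 70) ^ 2 ≤ Cd * P * (4 / z) :=
        mul_le_mul_of_nonneg_left herr2 (by positivity)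
      refine h13.trans ?_
      rw [mul_div_assoc', div_le_div_iff₀ hz0 (by norm_num)]
      have := mul_le_mul_of_nonneg_right hz2 hP0.le
      linarith
    linarith
  -- the first moment
  have hfirst := hFM T δ u m1 m2 hTT1 hδ1 hδ2 hm hP (by linarith) (by linarith)
  have hsplit : ∑ k ∈ Finset.Ico m1 m2, |XS T (u + δ * k)| =
      ∑ k ∈ G, |XS T (u + δ * k)| + ∑ k ∈ B, |XS T (u + δ * k)| :=
    (Finset.sum_filter_add_sum_filter_not _ _ _).symm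
  have hBc : (B.card : ℝ) ≤ P := by
    rw [← hcard]
    exact_mod_cast Finset.card_le_card (Finset.filter_subset _ _)
  have hB1 : ∑ k ∈ B, |XS T (u + δ * k)| ≤ P / 4 := by
    have h1 : (∑ k ∈ B, |XS T (u + δ * k)|) ^ 2 ≤ (B.card : ℝ) * ∑ k ∈ B, |XS T (u + δ * k)| ^ 2 :=
      sq_sum_le_card_mul_sum_sq
    simp only [sq_abs] at h1
    have h2 : (B.card : ℝ) * ∑ k ∈ B, XS T (u + δ * k) ^ 2 ≤ P * (P / 16) :=
      mul_le_mul hBc hbad (Finset.sum_nonneg fun k _ => sq_nonneg _) hP0.le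
    have h3 : (∑ k ∈ B, |XS T (u + δ * k)|) ^ 2 ≤ (P / 4) ^ 2 := by
      calc _ ≤ P * (P / 16) := h1.trans h2
        _ = _ := by ring
    exact abs_le_of_sq_le_sq' h3 (by positivity) |>.2
  have hG1 : P / 4 ≤ ∑ k ∈ G, |XS T (u + δ * k)| := by
    linarith
  have hG2 : (P / 4) ^ 2 ≤ (G.card : ℝ) * (K1 * (T * L)) := by
    have h1 : (∑ k ∈ G, |XS T (u + δ * k)|) ^ 2 ≤ (G.card : ℝ) * ∑ k ∈ G, |XS T (u + δ * k)| ^ 2 :=
      sq_sum_le_card_mul_sum_sq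
    simp only [sq_abs] at h1
    have h2 : ∑ k ∈ G, XS T (u + δ * k) ^ 2 ≤ ∑ k ∈ Finset.Ico m1 m2, XS T (u + δ * k) ^ 2 :=
      Finset.sum_le_sum_of_subset_of_nonneg (Finset.filter_subset _ _) fun k _ _ => sq_nonneg _
    have h3 : (P / 4) ^ 2 ≤ (∑ k ∈ G, |XS T (u + δ * k)|) ^ 2 := pow_le_pow_left₀ (by positivity) hG1 2
    refine h3.trans (h1.trans ?_)
    exact mul_le_mul_of_nonneg_left (h2.trans hall) (Nat.cast_nonneg _)
  have hTL : 0 < T * L := by positivity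
  calc c * (P ^ 2 / (T * L)) ≤ 1 / (16 * K1) * (P ^ 2 / (T * L)) :=
        mul_le_mul_of_nonneg_right hc2 (by positivity)
    _ = (P / 4) ^ 2 / (K1 * (T * L)) := by
        field_simp
        ring
    _ ≤ (G.card : ℝ) := by
        rw [div_le_iff₀ (by positivity)]
        exact hG2

end Pool.Agent.Helper647.SG
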