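import Pool.Agent.Helper647_SG.Defs

set_option autoImplicit false

/-! The number of critical zeros. -/

namespace Pool.Agent.Helper647.SG

open Complex Filter Topology MeasureTheory Set
open Pool.Agent.Helper647.PT (cr)
open Pool.Agent.Helper647.GL (CF mo mem_CF CF_mem mo_pos sum_CF NN_upper half_eta)
open H370 (good_zeta NN mult Zf mem_Zf NN_eq)

theorem cnt : S_cnt := by
  classical
  obtain ⟨b, X0, hb, hX0, hN⟩ := NN_upper good_zeta
  refine ⟨1 + 3 * b, X0 + 3, by positivity, by linarith, fun T h hT hh hh1 => ?_⟩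
  have hT3 : 3 ≤ T := by linarith
  have hTX : X0 ≤ T := by linarith
  have hL : 1 ≤ Real.log T := by
    have h1 := Real.exp_one_lt_d9
    rw [Real.le_log_iff_exp_le (by linarith)]
    linarith
  have hU : (1 : ℝ) ≤ X0 := by linarith
  set S := CF riemannZeta X0 (2 * T + 1) with hS
  -- the number of points
  have hcard : (S.card : ℝ) ≤ (1 + 3 * b) * T * Real.log T := by
    have h1 : (S.card : ℝ) ≤ NN riemannZeta X0 (2 * T + 1) := by
      have h2 : S.card ≤ ∑ x ∈ S, mo riemannZeta x := by
        rw [Finset.card_eq_sum_ones]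
        exact Finset.sum_le_sum fun x hx => mo_pos good_zeta hU hx
      have h3 : ∑ x ∈ S, mo riemannZeta x ≤ NN riemannZeta X0 (2 * T + 1) := by
        rw [NN_eq good_zeta hU, hS, sum_CF]
        have e2 : ∑ s ∈ (Zf riemannZeta X0 (2 * T + 1)).filter (fun s => s.re = 1 / 2), mo riemannZeta s.im =
            ∑ s ∈ (Zf riemannZeta X0 (2 * T + 1)).filter (fun s => s.re = 1 / 2), mult riemannZeta s := by
          refine Finset.sum_congr rfl fun s hs => ?_
          unfold mo
          rw [half_eta (Finset.mem_filter.mp hs).2]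
        rw [e2]
        exact Finset.sum_le_sum_of_subset (Finset.filter_subset _ _)
      exact_mod_cast h2.trans h3
    have h4 := hN (2 * T + 1) (by linarith)
    have h5 : Real.log (2 * T + 1) ≤ 2 * Real.log T := by
      have h6 : Real.log (2 * T + 1) ≤ Real.log (T * T) := Real.log_le_log (by linarith) (by nlinarith)
      rw [Real.log_mul (by linarith) (by linarith)] at h6
      linarith
    have hpi := Real.pi_gt_three
    have h7 : (2 * T + 1) * Real.log (2 * T + 1) / (2 * Real.pi) ≤ T * Real.log T := by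
      rw [div_le_iff₀ (by positivity)]
      have h8 : (2 * T + 1) * Real.log (2 * T + 1) ≤ (3 * T) * (2 * Real.log T) := by
        refine mul_le_mul (by linarith) h5 (Real.log_nonneg (by linarith)) (by linarith)
      have h9 : 0 ≤ T * Real.log T := by positivity
      nlinarith
    have h10 : b * (2 * T + 1) ≤ 3 * b * T * Real.log T := by
      have h11 : b * (2 * T + 1) ≤ b * (3 * T) := mul_le_mul_of_nonneg_left (by linarith) hb
      have h12 : b * (3 * T) * 1 ≤ b * (3 * T) * Real.log T := mul_le_mul_of_nonneg_left hL (by positivity)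
      nlinarith
    nlinarith
  -- the covering
  have hsub : ({t : ℝ | cr t (t + h) ≠ 0} ∩ Icc T (2 * T)) ⊆ ⋃ γ ∈ S, Icc (γ - h) γ := by
    rintro t ⟨ht1, ht2⟩
    have h1 : ∃ γ, t ≤ γ ∧ γ < t + h ∧ riemannZeta (1 / 2 + I * γ) = 0 := by
      by_contra hc
      push Not at hc
      apply ht1
      unfold cr
      have e : {γ : ℝ | t ≤ γ ∧ γ < t + h ∧ riemannZeta (1 / 2 + I * γ) = 0} = ∅ := by
        ext γ
        simp only [Set.mem_ofPred_eq, Set.mem_empty_iff_false, iff_false]
        rintro ⟨x1, x2, x3⟩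
        exact hc γ x1 x2 x3
      rw [e, finsum_mem_empty]
    obtain ⟨γ, x1, x2, x3⟩ := h1
    refine Set.mem_biUnion (x := γ) ?_ ⟨by linarith, x1⟩
    have him : (1 / 2 + I * (γ : ℂ)).im = γ := by simp
    have hre : (1 / 2 + I * (γ : ℂ)).re = 1 / 2 := by simp
    show γ ∈ S
    rw [hS, mem_CF, mem_Zf good_zeta hU]
    refine ⟨by rw [hre]; norm_num, by rw [hre]; norm_num, by rw [him]; linarith [ht2.1],
      by rw [him]; linarith [ht2.2], x3⟩
  refine (measure_mono hsub).trans ?_
  refine (measure_biUnion_finset_le S _).trans ?_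
  have e1 : ∀ γ ∈ S, volume (Icc (γ - h) γ) = ENNReal.ofReal h := by
    intro γ _
    rw [Real.volume_Icc]
    congr 1
    ring
  rw [Finset.sum_congr rfl e1, Finset.sum_const, nsmul_eq_mul, ← ENNReal.ofReal_natCast,
    ← ENNReal.ofReal_mul (by positivity)]
  apply ENNReal.ofReal_le_ofReal
  calc (S.card : ℝ) * h ≤ ((1 + 3 * b) * T * Real.log T) * h := mul_le_mul_of_nonneg_right hcard hh.le
    _ = _ := by ring

end Pool.Agent.Helper647.SG
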