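import Mathlib

set_option autoImplicit false

namespace Pool.Agent.Helper647.SG.JMA

open Complex Filter Topology MeasureTheory Set

lemma main_of_base_odd (cr : ℝ → ℝ → ℕ) (hadd : ∀ a b c : ℝ, a ≤ b → b ≤ c → cr a c = cr a b + cr b c)
    (hbase : ∃ η : ℝ, 0 < η ∧ ∀ A : ℝ, 1 ≤ A → ∃ T0 : ℝ, ∀ T δ : ℝ, T0 ≤ T → 1 / Real.log T ≤ δ → δ ≤ A →
      ENNReal.ofReal (η * T) ≤ volume ({t : ℝ | Odd (cr t (t + δ))} ∩ Icc T (2 * T))) :
    ∃ c : ℝ, 0 < c ∧ ∀ A : ℝ, 1 ≤ A → ∃ T0 : ℝ, ∀ T h : ℝ, T0 ≤ T → 0 < h → h ≤ A →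
      ENNReal.ofReal (c * min 1 (h * Real.log T) * T) ≤
        volume ({t : ℝ | Odd (cr t (t + h))} ∩ Icc T (2 * T)) := by
  obtain ⟨η, hη, hb⟩ := hbase
  refine ⟨η / 4, by positivity, fun A hA => ?_⟩
  obtain ⟨T0, hT0⟩ := hb A hA
  refine ⟨max (max T0 (Real.exp 2)) (max (2 / η) 1), fun T h hT hh hhA => ?_⟩
  have hT1 : T0 ≤ T := (le_max_left _ _).trans ((le_max_left _ _).trans hT)
  have hT2 : Real.exp 2 ≤ T := (le_max_right _ _).trans ((le_max_left _ _).trans hT)
  have hT3 : 2 / η ≤ T := (le_max_left _ _).trans ((le_max_right _ _).trans hT)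
  have hT4 : 1 ≤ T := (le_max_right _ _).trans ((le_max_right _ _).trans hT)
  have hTpos : 0 < T := by linarith
  set L : ℝ := Real.log T with hL
  have hL2 : 2 ≤ L := by
    rw [hL, ← Real.log_exp 2]; exact Real.log_le_log (Real.exp_pos _) hT2
  have hLpos : 0 < L := by linarith
  rcases le_or_gt (1 / L) h with hc | hc
  · refine le_trans (ENNReal.ofReal_le_ofReal ?_) (hT0 T h hT1 hc hhA)
    have : min 1 (h * L) ≤ 1 := min_le_left _ _
    have h1 : η / 4 * min 1 (h * L) ≤ η := by
      calc η / 4 * min 1 (h * L) ≤ η / 4 * 1 := by gcongr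
        _ ≤ η := by linarith
    exact mul_le_mul_of_nonneg_right h1 hTpos.le
  · have hhL : h * L < 1 := by rwa [lt_div_iff₀ hLpos] at hc
    have hhLpos : 0 < h * L := by positivity
    set m : ℕ := ⌈1 / (h * L)⌉₊ with hm
    have hm1 : 1 / (h * L) ≤ m := Nat.le_ceil _
    have hm2 : (m : ℝ) < 1 / (h * L) + 1 := Nat.ceil_lt_add_one (by positivity)
    have hone : 1 < 1 / (h * L) := by rw [lt_div_iff₀ hhLpos]; linarith
    have hm3 : (m : ℝ) ≤ 2 / (h * L) := by
      have : 2 / (h * L) = 1 / (h * L) + 1 / (h * L) := by ring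
      linarith
    have hmpos : (0 : ℝ) < m := by linarith
    have hmh1 : 1 / L ≤ m * h := by
      have : 1 / L = 1 / (h * L) * h := by field_simp
      rw [this]; exact mul_le_mul_of_nonneg_right hm1 hh.le
    have hmh2 : m * h ≤ 2 / L := by
      have : 2 / L = 2 / (h * L) * h := by field_simp
      rw [this]; exact mul_le_mul_of_nonneg_right hm3 hh.le
    have h2L : 2 / L ≤ 1 := by rw [div_le_one hLpos]; exact hL2
    set δ : ℝ := m * h with hδ
    have hδ1 : δ ≤ 1 := hmh2.trans h2L
    have hδ0 : 0 < δ := by positivity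
    have hS := hT0 T δ hT1 hmh1 (hδ1.trans hA)
    set O : Set ℝ := {t : ℝ | Odd (cr t (t + h))} ∩ Icc T (2 * T) with hO
    -- chain
    have hchain : ∀ (j : ℕ) (t : ℝ), Odd (cr t (t + j * h)) →
        ∃ i : ℕ, i < j ∧ Odd (cr (t + i * h) (t + i * h + h)) := by
      intro j
      induction j with
      | zero =>
        intro t ht
        exfalso
        have h0 : cr t t = cr t t + cr t t := hadd t t t le_rfl le_rfl
        have h1 : cr t t = 0 := by omega
        simp only [Nat.cast_zero, zero_mul, add_zero, h1] at ht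
        exact absurd ht (by decide)
      | succ j ih =>
        intro t ht
        have h1 : cr t (t + (j + 1 : ℕ) * h) = cr t (t + j * h) + cr (t + j * h) (t + j * h + h) := by
          have := hadd t (t + j * h) (t + j * h + h) (by
            have : 0 ≤ (j : ℝ) * h := by positivity
            linarith) (by linarith)
          rw [← this]
          congr 1
          push_cast
          ring
        rw [h1, Nat.odd_add] at ht
        by_cases h2 : Odd (cr t (t + j * h))
        · obtain ⟨i, hi, hio⟩ := ih t h2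
          exact ⟨i, by omega, hio⟩
        · refine ⟨j, by omega, ?_⟩
          rw [← Nat.not_even_iff_odd]
          intro h3
          exact h2 (ht.2 h3)
    have hcover : {t : ℝ | Odd (cr t (t + δ))} ∩ Icc T (2 * T) ⊆
        (⋃ i ∈ Finset.range m, (fun t : ℝ => t + (i : ℝ) * h) ⁻¹' O) ∪ Icc (2 * T - δ) (2 * T) := by
      rintro t ⟨ht1, ht2⟩
      rcases le_or_gt t (2 * T - δ) with hle | hgt
      · left
        obtain ⟨i, hi, hio⟩ := hchain m t ht1
        rw [Set.mem_iUnion₂]
        refine ⟨i, Finset.mem_range.2 hi, ?_⟩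
        refine ⟨hio, ?_, ?_⟩
        · have : 0 ≤ (i : ℝ) * h := by positivity
          show T ≤ t + (i : ℝ) * h
          linarith [ht2.1]
        · show t + (i : ℝ) * h ≤ 2 * T
          have : (i : ℝ) * h ≤ m * h := by
            apply mul_le_mul_of_nonneg_right _ hh.le
            exact_mod_cast hi.le
          linarith
      · right
        exact ⟨hgt.le, ht2.2⟩
    have hvol : volume ({t : ℝ | Odd (cr t (t + δ))} ∩ Icc T (2 * T)) ≤ m * volume O + ENNReal.ofReal δ := by
      refine (measure_mono hcover).trans ((measure_union_le _ _).trans ?_)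
      gcongr
      · refine (measure_biUnion_finset_le _ _).trans ?_
        simp_rw [measure_preimage_add_right]
        simp
      · rw [Real.volume_Icc]
        apply le_of_eq
        congr 1
        ring
    have hOfin : volume O ≠ ⊤ := by
      refine ne_top_of_le_ne_top ?_ (measure_mono (Set.inter_subset_right))
      rw [Real.volume_Icc]
      exact ENNReal.ofReal_ne_top
    have hreal : η * T ≤ m * (volume O).toReal + δ := by
      have h1 := hS.trans hvol
      have h2 : (m : ENNReal) * volume O + ENNReal.ofReal δ =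
          ENNReal.ofReal (m * (volume O).toReal + δ) := by
        have h3 : ENNReal.ofReal ((m : ℝ) * (volume O).toReal) = (m : ENNReal) * volume O := by
          rw [ENNReal.ofReal_mul (Nat.cast_nonneg m), ENNReal.ofReal_toReal hOfin,
            ENNReal.ofReal_natCast]
        rw [ENNReal.ofReal_add (by positivity) hδ0.le, h3]
      rw [h2] at h1
      exact (ENNReal.ofReal_le_ofReal_iff (by positivity)).1 h1
    have hηT : 2 ≤ η * T := by
      rw [div_le_iff₀ hη] at hT3
      linarith
    have hfin : η / 4 * min 1 (h * L) * T ≤ (volume O).toReal := by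
      rw [min_eq_right hhL.le]
      have h1 : η * T / 2 ≤ m * (volume O).toReal := by linarith
      have h2 : m * (volume O).toReal ≤ 2 / (h * L) * (volume O).toReal :=
        mul_le_mul_of_nonneg_right hm3 ENNReal.toReal_nonneg
      have h3 : η * T / 2 ≤ 2 / (h * L) * (volume O).toReal := h1.trans h2
      have h4 : 2 / (h * L) * (volume O).toReal = 2 * (volume O).toReal / (h * L) := by ring
      rw [h4, le_div_iff₀ hhLpos] at h3
      nlinarith
    calc ENNReal.ofReal (η / 4 * min 1 (h * L) * T) ≤ ENNReal.ofReal (volume O).toReal :=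
          ENNReal.ofReal_le_ofReal hfin
      _ = volume O := ENNReal.ofReal_toReal hOfin

theorem main_of_base (cr : ℝ → ℝ → ℕ) (hadd : ∀ a b c : ℝ, a ≤ b → b ≤ c → cr a c = cr a b + cr b c)
    (hbase : ∃ η : ℝ, 0 < η ∧ ∀ A : ℝ, 1 ≤ A → ∃ T0 : ℝ, ∀ T δ : ℝ, T0 ≤ T → 1 / Real.log T ≤ δ → δ ≤ A →
      ENNReal.ofReal (η * T) ≤ volume ({t : ℝ | Odd (cr t (t + δ))} ∩ Icc T (2 * T)))
    (hcnt : ∃ C T0 : ℝ, 0 < C ∧ 2 ≤ T0 ∧ ∀ T h : ℝ, T0 ≤ T → 0 < h → h ≤ 1 →
      volume ({t : ℝ | cr t (t + h) ≠ 0} ∩ Icc T (2 * T)) ≤ ENNReal.ofReal (C * h * T * Real.log T)) :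
    ∃ c : ℝ, 0 < c ∧ ∀ A : ℝ, 1 ≤ A → ∃ T0 : ℝ, ∀ T h : ℝ, T0 ≤ T → 0 < h → h ≤ A →
      ENNReal.ofReal (c * min 1 (h * Real.log T) * T) ≤ volume ({t : ℝ | Odd (cr t (t + h))} ∩ Icc T (2 * T)) ∧
      ENNReal.ofReal (c * T) ≤ volume ({t : ℝ | Even (cr t (t + h))} ∩ Icc T (2 * T)) := by
  obtain ⟨c1, hc1, hodd⟩ := main_of_base_odd cr hadd hbase
  obtain ⟨C, T1, hC, hT1, hcnt⟩ := hcnt
  set c' : ℝ := min 1 (1 / (2 * C)) with hc'
  have hc'0 : 0 < c' := lt_min one_pos (by positivity)
  have hc'1 : c' ≤ 1 := min_le_left _ _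
  have hc'2 : c' ≤ 1 / (2 * C) := min_le_right _ _
  set c : ℝ := min c1 (min (1 / 2) (c1 * c' / 4)) with hc
  have hcc1 : c ≤ c1 := min_le_left _ _
  have hcc2 : c ≤ 1 / 2 := (min_le_right _ _).trans (min_le_left _ _)
  have hcc3 : c ≤ c1 * c' / 4 := (min_le_right _ _).trans (min_le_right _ _)
  have hc0 : 0 < c := lt_min hc1 (lt_min (by norm_num) (by positivity))
  refine ⟨c, hc0, fun A hA => ?_⟩
  obtain ⟨T2, hT2⟩ := hodd A hA
  obtain ⟨T3, hT3⟩ := hodd (2 * A) (by linarith)
  refine ⟨max (max T1 T2) (max T3 (max (Real.exp 1) (2 * A / (c1 * c')))), fun T h hT hh hhA => ?_⟩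
  have hTT1 : T1 ≤ T := (le_max_left _ _).trans ((le_max_left _ _).trans hT)
  have hTT2 : T2 ≤ T := (le_max_right _ _).trans ((le_max_left _ _).trans hT)
  have hTT3 : T3 ≤ T := (le_max_left _ _).trans ((le_max_right _ _).trans hT)
  have hTT4 : Real.exp 1 ≤ T := (le_max_left _ _).trans ((le_max_right _ _).trans ((le_max_right _ _).trans hT))
  have hTT5 : 2 * A / (c1 * c') ≤ T :=
    (le_max_right _ _).trans ((le_max_right _ _).trans ((le_max_right _ _).trans hT))
  have hTpos : 0 < T := by linarith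
  set L : ℝ := Real.log T with hL
  have hL1 : 1 ≤ L := by
    rw [hL, ← Real.log_exp 1]; exact Real.log_le_log (Real.exp_pos _) hTT4
  have hLpos : 0 < L := by linarith
  have hmin0 : 0 ≤ min 1 (h * L) := le_min zero_le_one (by positivity)
  refine ⟨le_trans (ENNReal.ofReal_le_ofReal ?_) (hT2 T h hTT2 hh hhA), ?_⟩
  · exact mul_le_mul_of_nonneg_right (mul_le_mul_of_nonneg_right hcc1 hmin0) hTpos.le
  set E : Set ℝ := {t : ℝ | Even (cr t (t + h))} ∩ Icc T (2 * T) with hE
  have hEfin : volume E ≠ ⊤ := by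
    refine ne_top_of_le_ne_top ?_ (measure_mono (Set.inter_subset_right))
    rw [Real.volume_Icc]
    exact ENNReal.ofReal_ne_top
  suffices hs : c * T ≤ (volume E).toReal by
    calc ENNReal.ofReal (c * T) ≤ ENNReal.ofReal (volume E).toReal := ENNReal.ofReal_le_ofReal hs
      _ = volume E := ENNReal.ofReal_toReal hEfin
  rcases le_or_gt (h * L) c' with hcase | hcase
  · have hh1 : h ≤ 1 := by
      have : h * 1 ≤ h * L := mul_le_mul_of_nonneg_left hL1 hh.le
      linarith
    have h1 := hcnt T h hTT1 hh hh1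
    have h2 : C * h * T * L ≤ T / 2 := by
      have h3 : C * (h * L) ≤ 1 / 2 := by
        calc C * (h * L) ≤ C * (1 / (2 * C)) := mul_le_mul_of_nonneg_left (hcase.trans hc'2) hC.le
          _ = 1 / 2 := by field_simp
      have h4 : C * h * T * L = C * (h * L) * T := by ring
      rw [h4]
      have := mul_le_mul_of_nonneg_right h3 hTpos.le
      linarith
    have hcov : Icc T (2 * T) ⊆ ({t : ℝ | cr t (t + h) ≠ 0} ∩ Icc T (2 * T)) ∪ E := by
      intro t ht
      by_cases h5 : cr t (t + h) = 0
      · right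
        refine ⟨?_, ht⟩
        show Even (cr t (t + h))
        rw [h5]
        exact Even.zero
      · left
        exact ⟨h5, ht⟩
    have h6 : ENNReal.ofReal T ≤ ENNReal.ofReal (T / 2) + volume E := by
      have h7 := (measure_mono (μ := volume) hcov).trans (measure_union_le _ _)
      rw [Real.volume_Icc] at h7
      have h8 : 2 * T - T = T := by ring
      rw [h8] at h7
      refine h7.trans ?_
      gcongr
      exact h1.trans (ENNReal.ofReal_le_ofReal h2)
    have h9 : T ≤ T / 2 + (volume E).toReal := by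
      have h10 : ENNReal.ofReal (T / 2) + volume E = ENNReal.ofReal (T / 2 + (volume E).toReal) := by
        rw [ENNReal.ofReal_add (by positivity) ENNReal.toReal_nonneg, ENNReal.ofReal_toReal hEfin]
      rw [h10] at h6
      exact (ENNReal.ofReal_le_ofReal_iff (by positivity)).1 h6
    have := mul_le_mul_of_nonneg_right hcc2 hTpos.le
    linarith
  · have h1 := hT3 T (2 * h) hTT3 (by positivity) (by linarith)
    have h2 : c1 * c' * T ≤ c1 * min 1 (2 * h * L) * T := by
      have h3 : c' ≤ min 1 (2 * h * L) := by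
        refine le_min hc'1 ?_
        have : 0 < h * L := by positivity
        linarith
      exact mul_le_mul_of_nonneg_right (mul_le_mul_of_nonneg_left h3 hc1.le) hTpos.le
    have hcov : {t : ℝ | Odd (cr t (t + 2 * h))} ∩ Icc T (2 * T) ⊆
        (E ∪ (fun t : ℝ => t + h) ⁻¹' E) ∪ Icc (2 * T - h) (2 * T) := by
      rintro t ⟨ht1, ht2⟩
      rcases le_or_gt t (2 * T - h) with hle | hgt
      · left
        have h4 : cr t (t + 2 * h) = cr t (t + h) + cr (t + h) (t + h + h) := by
          have := hadd t (t + h) (t + h + h) (by linarith) (by linarith)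
          rw [← this]
          congr 1
          ring
        have ht1' : Odd (cr t (t + 2 * h)) := ht1
        rw [h4, Nat.odd_add] at ht1'
        by_cases h5 : Even (cr t (t + h))
        · left
          exact ⟨h5, ht2⟩
        · right
          rw [Nat.not_even_iff_odd] at h5
          refine ⟨ht1'.1 h5, ?_, ?_⟩
          · show T ≤ t + h
            linarith [ht2.1]
          · show t + h ≤ 2 * T
            linarith
      · right
        exact ⟨hgt.le, ht2.2⟩
    have h6 : ENNReal.ofReal (c1 * c' * T) ≤ (volume E + volume E) + ENNReal.ofReal h := by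
      refine (ENNReal.ofReal_le_ofReal h2).trans (h1.trans ?_)
      refine (measure_mono hcov).trans ((measure_union_le _ _).trans ?_)
      gcongr
      · refine (measure_union_le _ _).trans ?_
        rw [measure_preimage_add_right]
      · rw [Real.volume_Icc]
        apply le_of_eq
        congr 1
        ring
    have h7 : c1 * c' * T ≤ (volume E).toReal + (volume E).toReal + h := by
      have h8 : (volume E + volume E) + ENNReal.ofReal h =
          ENNReal.ofReal ((volume E).toReal + (volume E).toReal + h) := by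
        rw [ENNReal.ofReal_add (by positivity) hh.le,
          ENNReal.ofReal_add ENNReal.toReal_nonneg ENNReal.toReal_nonneg, ENNReal.ofReal_toReal hEfin]
      rw [h8] at h6
      exact (ENNReal.ofReal_le_ofReal_iff (by positivity)).1 h6
    have hpos : 0 < c1 * c' := by positivity
    rw [div_le_iff₀ hpos] at hTT5
    have h9 : c * T ≤ c1 * c' / 4 * T := mul_le_mul_of_nonneg_right hcc3 hTpos.le
    nlinarith

end Pool.Agent.Helper647.SG.JMA
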