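import Pool.Agent.Helper647_SG.Br2
import Pool.Agent.Helper647_SG.Cnt
import Pool.Agent.Helper647_SG.JMA
import Pool.Agent.Helper647_PT.Ker

set_option autoImplicit false

/-! The theorem. -/

namespace Pool.Agent.Helper647.SG

open Complex Filter Topology MeasureTheory Set
open Pool.Agent.Helper647.PT (KE cr cr_add)

theorem base : S_base := by
  obtain ⟨E, C, c0, hC, hc0, hEc, hEl, hEd, hElow, hEft⟩ := Pool.Agent.Helper647.PT.ker
  have hE : KE E C c0 := ⟨hC, hc0, hEc, hEl, hEd, hElow, hEft⟩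
  obtain ⟨C2, hC2, hsm⟩ := sj E C c0 hE
  obtain ⟨C3, T3, hC3, hT3, hSM⟩ := SM2
  obtain ⟨T1, hT1, hFM⟩ := fm'
  obtain ⟨J, η, D, hJ, hη, hD, hfin⟩ := fin (fun v => E v ^ 2) (C ^ 2) (16 * c0) C2 C3 (hEc.pow 2)
    (fun v => sq_nonneg _) (fun v => hE.sq_pow (by norm_num) v) (by positivity) hC2 hC3
  refine ⟨η, hη, fun A hA => ?_⟩
  obtain ⟨T2, hT2, hsm'⟩ := hsm A J hA hJ
  have hJ1 : (8 : ℝ) ≤ J := by exact_mod_cast hJ
  have hev : ∀ᶠ T : ℝ in atTop, 16 * (J : ℝ) * A ≤ T / 2 ∧ (16 * (J : ℝ)) ≤ T ^ (1 / 30 : ℝ) ∧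
      A * T ^ (1 / 30 : ℝ) ≤ T / 4 ∧ D * A ≤ T ∧ 1 ≤ Real.log T := by
    have a1 : ∀ᶠ T : ℝ in atTop, 2 * (16 * (J : ℝ) * A) ≤ T := eventually_ge_atTop _
    have a2 : ∀ᶠ T : ℝ in atTop, (16 * (J : ℝ)) ≤ T ^ (1 / 30 : ℝ) :=
      (tendsto_rpow_atTop (by norm_num)).eventually_ge_atTop _
    have a3 : ∀ᶠ T : ℝ in atTop, 4 * A ≤ T ^ (29 / 30 : ℝ) :=
      (tendsto_rpow_atTop (by norm_num)).eventually_ge_atTop _
    have a4 : ∀ᶠ T : ℝ in atTop, D * A ≤ T := eventually_ge_atTop _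
    have a5 : ∀ᶠ T : ℝ in atTop, (1 : ℝ) ≤ Real.log T :=
      Real.tendsto_log_atTop.eventually_ge_atTop _
    filter_upwards [a1, a2, a3, a4, a5, eventually_gt_atTop (0 : ℝ)] with T b1 b2 b3 b4 b5 hT0
    refine ⟨by linarith, b2, ?_, b4, b5⟩
    have e1 : T ^ (1 / 30 : ℝ) * T ^ (29 / 30 : ℝ) = T := by
      rw [← Real.rpow_add hT0]; norm_num
    have p1 : 0 < T ^ (1 / 30 : ℝ) := Real.rpow_pos_of_pos hT0 _
    nlinarith
  obtain ⟨T4, hT4⟩ := hev.exists_forall_of_atTop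
  refine ⟨max (max T1 T2) (max T3 T4), fun T δ hT hδ1 hδ2 => ?_⟩
  have hTT1 : T1 ≤ T := ((le_max_left _ _).trans (le_max_left _ _)).trans hT
  have hTT2 : T2 ≤ T := ((le_max_right _ _).trans (le_max_left _ _)).trans hT
  have hTT3 : T3 ≤ T := ((le_max_left _ _).trans (le_max_right _ _)).trans hT
  have hTT4 : T4 ≤ T := ((le_max_right _ _).trans (le_max_right _ _)).trans hT
  have hT8 : 8 ≤ T := hT1.trans hTT1
  have hT0 : 0 < T := by linarith
  obtain ⟨g1, g2, g3, g4, g5⟩ := hT4 T hTT4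
  have hδ0 : 0 < δ := lt_of_lt_of_le (one_div_pos.2 (by linarith)) hδ1
  set M : ℕ := ⌊T ^ (1 / 30 : ℝ)⌋₊ with hM
  have hMle : (M : ℝ) ≤ T ^ (1 / 30 : ℝ) := Nat.floor_le (Real.rpow_nonneg hT0.le _)
  have hMJ : 16 * J ≤ M := by
    rw [hM]
    apply Nat.le_floor
    push_cast
    exact g2
  refine hfin T δ M (XS T) (OS δ) (by linarith) hδ0 ?_ (cont T) ?_ ?_ ?_ ?_
  · exact (mul_le_mul_of_nonneg_left hδ2 hD.le).trans g4
  · -- the first moment
    have hcj : ∀ j : ℤ, Continuous fun u : ℝ => |XS T (u + δ * j)| * (E (δ * j / (16 * J * δ)) ^ 2) :=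
      fun j => (((cont T).comp (continuous_id.add continuous_const)).abs).mul continuous_const
    rw [intervalIntegral.integral_finsetSum fun j _ => (hcj j).intervalIntegrable _ _]
    have hsub : Finset.Icc (-(16 * J : ℕ) : ℤ) (16 * J : ℕ) ⊆ Finset.Icc (-(M : ℤ)) M := by
      apply Finset.Icc_subset_Icc
      · have : ((16 * J : ℕ) : ℤ) ≤ M := by exact_mod_cast hMJ
        omega
      · exact_mod_cast hMJ
    have hnn : ∀ j ∈ Finset.Icc (-(M : ℤ)) M, j ∉ Finset.Icc (-(16 * J : ℕ) : ℤ) (16 * J : ℕ) →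
        0 ≤ ∫ u in T..(2 * T), |XS T (u + δ * j)| * (E (δ * j / (16 * J * δ)) ^ 2) := by
      intro j _ _
      exact intervalIntegral.integral_nonneg (by linarith) fun u _ => by positivity
    refine le_trans ?_ (Finset.sum_le_sum_of_subset_of_nonneg hsub hnn)
    have hterm : ∀ j ∈ Finset.Icc (-(16 * J : ℕ) : ℤ) (16 * J : ℕ), c0 * (T / 2) ≤
        ∫ u in T..(2 * T), |XS T (u + δ * j)| * (E (δ * j / (16 * J * δ)) ^ 2) := by
      intro j hj
      rw [Finset.mem_Icc] at hj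
      have hj1 : -(16 * (J : ℝ)) ≤ j := by exact_mod_cast hj.1
      have hj2 : (j : ℝ) ≤ 16 * (J : ℝ) := by exact_mod_cast hj.2
      have e1 : δ * j / (16 * J * δ) = j / (16 * J) := by field_simp
      have h1 : c0 ≤ E (δ * j / (16 * J * δ)) ^ 2 := by
        apply hElow
        rw [e1, abs_div, abs_of_pos (show (0 : ℝ) < 16 * J by positivity), div_le_one (by positivity), abs_le]
        exact ⟨hj1, hj2⟩
      rw [intervalIntegral.integral_mul_const,
        intervalIntegral.integral_comp_add_right (fun t => |XS T t|) (δ * j)]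
      have h2 : |δ * j| ≤ T / 2 := by
        rw [abs_mul, abs_of_pos hδ0]
        have h3 : |(j : ℝ)| ≤ 16 * J := abs_le.2 ⟨hj1, hj2⟩
        calc δ * |(j : ℝ)| ≤ A * (16 * J) := mul_le_mul hδ2 h3 (abs_nonneg _) (by linarith)
          _ = 16 * (J : ℝ) * A := by ring
          _ ≤ _ := g1
      rw [abs_le] at h2
      have h4 := hFM T (T + δ * j) hTT1 (by linarith) (by linarith)
      have e2 : 2 * T + δ * j = T + δ * j + T := by ring
      rw [e2]
      have h5 : 0 ≤ ∫ t in (T + δ * j)..(T + δ * j + T), |XS T t| := by linarith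
      calc c0 * (T / 2) = (T / 2) * c0 := by ring
        _ ≤ (∫ t in (T + δ * j)..(T + δ * j + T), |XS T t|) * E (δ * j / (16 * J * δ)) ^ 2 :=
          mul_le_mul h4 h1 hc0.le h5
    refine le_trans ?_ (Finset.sum_le_sum hterm)
    rw [Finset.sum_const, Int.card_Icc, nsmul_eq_mul]
    have e3 : ((((16 * J : ℕ) : ℤ) + 1 - (-(16 * J : ℕ) : ℤ)).toNat : ℝ) = 32 * J + 1 := by
      have : ((((16 * J : ℕ) : ℤ) + 1 - (-(16 * J : ℕ) : ℤ)).toNat) = 32 * J + 1 := by omega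
      rw [this]; push_cast; ring
    rw [e3]
    have : 0 ≤ c0 * T := by positivity
    nlinarith
  · exact hsm' T δ hTT2 hδ1 hδ2
  · -- the second moment of the values
    intro j hj
    rw [Finset.mem_Icc] at hj
    have hj1 : -(M : ℝ) ≤ j := by exact_mod_cast hj.1
    have hj2 : (j : ℝ) ≤ M := by exact_mod_cast hj.2
    have h2 : |δ * j| ≤ T / 4 := by
      rw [abs_mul, abs_of_pos hδ0]
      have h3 : |(j : ℝ)| ≤ T ^ (1 / 30 : ℝ) := (abs_le.2 ⟨hj1, hj2⟩).trans hMle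
      exact (mul_le_mul hδ2 h3 (abs_nonneg _) (by linarith)).trans g3
    rw [abs_le] at h2
    rw [intervalIntegral.integral_comp_add_right (fun t => XS T t ^ 2) (δ * j)]
    refine le_trans ?_ (hSM T hTT3)
    exact intervalIntegral.integral_mono_interval (by linarith) (by linarith) (by linarith)
      (ae_of_all _ fun t => sq_nonneg _) (((cont T).pow 2).intervalIntegrable _ _)
  · intro u i k hik hO
    exact chain T u δ i k hδ0 hik hO

theorem main : S_main := JMA.main_of_base cr (fun _ _ _ h1 h2 => cr_add h1 h2) base cnt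

end Pool.Agent.Helper647.SG
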