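import Mathlib

set_option autoImplicit false

namespace Pool.Agent.Helper647.SG.JCS

open Complex Filter Topology MeasureTheory Set

/-- the properties of the kernel -/
structure KE (E : ℝ → ℝ) (C c0 : ℝ) : Prop where
  hC : 0 < C
  hc0 : 0 < c0
  cont : Continuous E
  lip : ∀ v w : ℝ, |E v - E w| ≤ C * |v - w|
  dec : ∀ v : ℝ, |E v| ≤ C / (1 + v ^ 2) ^ 40
  low : ∀ v : ℝ, |v| ≤ 1 → c0 ≤ E v ^ 2
  ft : ∀ ξ : ℝ, 1 ≤ |ξ| → ∫ v : ℝ, ((E v ^ 2 : ℝ) : ℂ) * cexp (I * ξ * v) = 0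


lemma part685 (a : ℝ) (ha : 0 < a) (ha1 : a ≤ 1) (n : ℕ) :
    ∑ k ∈ Finset.range n, 1 / (1 + (a * k) ^ 2) ≤ 4 / a := by
  have h1 : ∀ k : ℕ, 1 / (1 + (a * (k : ℝ)) ^ 2) ≤ (4 / a) * (1 / (1 + a * k) - 1 / (1 + a * (k + 1))) := by
    intro k
    have hk : (0 : ℝ) ≤ k := Nat.cast_nonneg k
    have p1 : 0 < 1 + a * (k : ℝ) := by positivity
    have p2 : 0 < 1 + a * ((k : ℝ) + 1) := by positivity
    have e : (4 / a) * (1 / (1 + a * (k : ℝ)) - 1 / (1 + a * ((k : ℝ) + 1))) = 4 / ((1 + a * k) * (1 + a * (k + 1))) := by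
      field_simp
      ring
    rw [e, div_le_div_iff₀ (by positivity) (by positivity)]
    have h2 : 1 + a * ((k : ℝ) + 1) ≤ 2 * (1 + a * k) := by nlinarith [mul_nonneg ha.le hk]
    have h3 : (1 + a * (k : ℝ)) ^ 2 ≤ 2 * (1 + (a * k) ^ 2) := by nlinarith [sq_nonneg (1 - a * (k : ℝ))]
    calc 1 * ((1 + a * (k : ℝ)) * (1 + a * (k + 1))) ≤ (1 + a * (k : ℝ)) * (2 * (1 + a * k)) := by
          rw [one_mul]; exact mul_le_mul_of_nonneg_left h2 p1.le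
      _ = 2 * (1 + a * (k : ℝ)) ^ 2 := by ring
      _ ≤ 4 * (1 + (a * k) ^ 2) := by linarith
  have h2 : ∀ n : ℕ, ∑ k ∈ Finset.range n, 1 / (1 + (a * (k : ℝ)) ^ 2) ≤ (4 / a) * (1 - 1 / (1 + a * n)) := by
    intro n
    induction n with
    | zero => simp
    | succ n ih =>
      rw [Finset.sum_range_succ]
      have := h1 n
      push_cast
      linarith
  refine (h2 n).trans ?_
  have h3 : 0 ≤ 1 / (1 + a * (n : ℝ)) := by positivity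
  have h4 : 0 < 4 / a := by positivity
  nlinarith

lemma phi685 (E : ℝ → ℝ) (C c0 : ℝ) (h : KE E C c0) (δ H : ℝ) (hδ : 0 < δ) (hδH : δ ≤ H) :
    Summable (fun j : ℤ => E (δ * j / H) ^ 2) ∧ ∑' j : ℤ, E (δ * j / H) ^ 2 ≤ 8 * C ^ 2 * (H / δ) := by
  have hH : 0 < H := by linarith
  set a := δ / H with ha
  have ha0 : 0 < a := by positivity
  have ha1 : a ≤ 1 := by rw [ha, div_le_one hH]; exact hδH
  have hC := h.hC
  have hE : ∀ v : ℝ, E v ^ 2 ≤ C ^ 2 * (1 / (1 + v ^ 2)) := by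
    intro v
    have h1 := h.dec v
    have hv : 1 ≤ 1 + v ^ 2 := by nlinarith [sq_nonneg v]
    have h2 : 1 + v ^ 2 ≤ (1 + v ^ 2) ^ 40 := le_self_pow₀ hv (by norm_num)
    have h3 : C / (1 + v ^ 2) ^ 40 ≤ C / (1 + v ^ 2) := div_le_div_of_nonneg_left hC.le (by positivity) h2
    have h4 : |E v| ≤ C / (1 + v ^ 2) := h1.trans h3
    have h5 : E v ^ 2 ≤ (C / (1 + v ^ 2)) ^ 2 := by
      rw [← sq_abs (E v)]
      gcongr
    refine h5.trans ?_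
    have h6 : (C / (1 + v ^ 2)) ^ 2 = C ^ 2 * (1 / (1 + v ^ 2) ^ 2) := by field_simp
    rw [h6]
    apply mul_le_mul_of_nonneg_left _ (by positivity)
    apply one_div_le_one_div_of_le (by positivity)
    exact le_self_pow₀ hv (by norm_num)
  have hpos : ∀ n : ℕ, E (δ * ((n : ℤ) : ℝ) / H) ^ 2 ≤ C ^ 2 * (1 / (1 + (a * n) ^ 2)) := by
    intro n
    have := hE (δ * ((n : ℤ) : ℝ) / H)
    have e : δ * ((n : ℤ) : ℝ) / H = a * n := by rw [ha]; push_cast; ring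
    rw [e] at this ⊢
    exact this
  have hneg : ∀ n : ℕ, E (δ * ((-((n : ℤ) + 1) : ℤ) : ℝ) / H) ^ 2 ≤ C ^ 2 * (1 / (1 + (a * n) ^ 2)) := by
    intro n
    have := hE (δ * ((-((n : ℤ) + 1) : ℤ) : ℝ) / H)
    have e : δ * ((-((n : ℤ) + 1) : ℤ) : ℝ) / H = -(a * (n + 1)) := by rw [ha]; push_cast; ring
    rw [e] at this ⊢
    refine this.trans ?_
    apply mul_le_mul_of_nonneg_left _ (by positivity)
    apply one_div_le_one_div_of_le (by positivity)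
    have hn : (0 : ℝ) ≤ n := Nat.cast_nonneg n
    have : (a * (n : ℝ)) ^ 2 ≤ (-(a * ((n : ℝ) + 1))) ^ 2 := by
      rw [neg_sq]
      gcongr
      linarith
    linarith
  have hsum : Summable (fun n : ℕ => C ^ 2 * (1 / (1 + (a * (n : ℝ)) ^ 2))) := by
    apply Summable.mul_left
    exact summable_of_sum_range_le (fun n => by positivity) (part685 a ha0 ha1)
  have hts : ∑' n : ℕ, C ^ 2 * (1 / (1 + (a * (n : ℝ)) ^ 2)) ≤ C ^ 2 * (4 / a) := by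
    rw [tsum_mul_left]
    apply mul_le_mul_of_nonneg_left _ (by positivity)
    exact Real.tsum_le_of_sum_range_le (fun n => by positivity) (part685 a ha0 ha1)
  have s1 : Summable (fun n : ℕ => E (δ * ((n : ℤ) : ℝ) / H) ^ 2) :=
    Summable.of_nonneg_of_le (fun n => sq_nonneg _) hpos hsum
  have s2 : Summable (fun n : ℕ => E (δ * ((-((n : ℤ) + 1) : ℤ) : ℝ) / H) ^ 2) :=
    Summable.of_nonneg_of_le (fun n => sq_nonneg _) hneg hsum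
  have hS := HasSum.of_nat_of_neg_add_one (f := fun j : ℤ => E (δ * j / H) ^ 2) s1.hasSum s2.hasSum
  refine ⟨hS.summable, ?_⟩
  rw [hS.tsum_eq]
  have t1 : ∑' n : ℕ, E (δ * ((n : ℤ) : ℝ) / H) ^ 2 ≤ C ^ 2 * (4 / a) := (s1.tsum_le_tsum hpos hsum).trans hts
  have t2 : ∑' n : ℕ, E (δ * ((-((n : ℤ) + 1) : ℤ) : ℝ) / H) ^ 2 ≤ C ^ 2 * (4 / a) :=
    (s2.tsum_le_tsum hneg hsum).trans hts
  have e : 8 * C ^ 2 * (H / δ) = C ^ 2 * (4 / a) + C ^ 2 * (4 / a) := by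
    rw [ha]
    field_simp
    ring
  rw [e]
  exact add_le_add t1 t2

lemma cs_tsum685 (x φ : ℤ → ℝ) (M : ℝ) (hx : ∀ j, 0 ≤ x j) (hxM : ∀ j, x j ≤ M) (hφ : ∀ j, 0 ≤ φ j) (hs : Summable φ)
    (h0 : 0 < ∑' j, φ j) :
    Summable (fun j => x j * φ j) ∧ Summable (fun j => x j ^ 2 * φ j) ∧
    (∑' j, x j * φ j) ^ 2 ≤ (∑' j, φ j) * ∑' j, x j ^ 2 * φ j := by
  have hM : 0 ≤ M := (hx 0).trans (hxM 0)
  have s1 : Summable (fun j => x j * φ j) :=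
    Summable.of_nonneg_of_le (fun j => mul_nonneg (hx j) (hφ j)) (fun j => mul_le_mul_of_nonneg_right (hxM j) (hφ j))
      (hs.mul_left M)
  have s2 : Summable (fun j => x j ^ 2 * φ j) :=
    Summable.of_nonneg_of_le (fun j => mul_nonneg (sq_nonneg _) (hφ j)) (fun j => mul_le_mul_of_nonneg_right
      (pow_le_pow_left₀ (hx j) (hxM j) 2) (hφ j)) (hs.mul_left (M ^ 2))
  refine ⟨s1, s2, ?_⟩
  set S0 := ∑' j, φ j with hS0
  set S1 := ∑' j, x j * φ j with hS1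
  set S2 := ∑' j, x j ^ 2 * φ j with hS2
  set t := S1 / S0 with ht
  have h1 : 0 ≤ ∑' j, (x j ^ 2 * φ j - 2 * t * (x j * φ j) + t ^ 2 * φ j) := by
    apply tsum_nonneg
    intro j
    have : x j ^ 2 * φ j - 2 * t * (x j * φ j) + t ^ 2 * φ j = (x j - t) ^ 2 * φ j := by ring
    rw [this]
    exact mul_nonneg (sq_nonneg _) (hφ j)
  have h2 : ∑' j, (x j ^ 2 * φ j - 2 * t * (x j * φ j) + t ^ 2 * φ j) = S2 - 2 * t * S1 + t ^ 2 * S0 := by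
    rw [(s2.sub (s1.mul_left (2 * t))).tsum_add (hs.mul_left (t ^ 2)), s2.tsum_sub (s1.mul_left (2 * t)),
      tsum_mul_left, tsum_mul_left]
  rw [h2] at h1
  have h3 : t * S0 = S1 := by rw [ht]; field_simp
  have h4 : S0 * (S2 - 2 * t * S1 + t ^ 2 * S0) = S0 * S2 - 2 * (t * S0) * S1 + (t * S0) ^ 2 := by ring
  have h5 : 0 ≤ S0 * (S2 - 2 * t * S1 + t ^ 2 * S0) := mul_nonneg h0.le h1
  rw [h4, h3] at h5
  nlinarith

/- TASK (helper647, project SG): prove this theorem (axioms propext, Classical.choice, Quot.sound only; helper lemmas welcome;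
keep the statement, the definition and the namespace).
PROOF. E(δ j/H)² ≤ C²/(1 + (δj/H)²), summable over ℤ, and ∑_j E(δj/H)² ≤ C1 H/δ as H/δ ≥ 1 (compare with an integral, or split |j| ≤ H/δ + 1 and the
rest: ∑_j 1/(1+(a j)²) ≤ 1 + (2/a)(π/2) for 0 < a ≤ 1). (i) continuity: continuous_tsum with bound M² E(δj/H)². (ii) Cauchy-Schwarz for tsum:
‖∑ c_j G_j φ_j‖ ≤ ∑ ‖G_j‖ φ_j, (∑ ‖G_j‖ φ_j)² ≤ (∑ φ_j)(∑ ‖G_j‖² φ_j) (e.g. inner_le_nnorm_mul_nnorm / Real.inner_le_Lp_mul_Lq_tsum_of_nonneg with p = q = 2, or for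
finite sums Finset.sum_sq_le_sum_mul_sum_of_sq_eq_mul and a limit). (iii) exchange of integral and sum (intervalIntegral / hasSum_intervalIntegral_of_summable_norm), and
∫_a^b ‖G(u+δj)‖² du = ∫_{a+δj}^{b+δj} ‖G‖² ≤ Kb. Note Kb ≥ 0 if a ≤ b and M ≥ 0. -/
theorem cs : ∀ (E : ℝ → ℝ) (C c0 : ℝ), KE E C c0 → ∃ C1 : ℝ, 0 < C1 ∧
  ∀ (G : ℝ → ℂ) (M δ H : ℝ), Continuous G → (∀ t, ‖G t‖ ≤ M) → 0 < δ → δ ≤ H →
    Continuous (fun u : ℝ => ∑' j : ℤ, ‖G (u + δ * j)‖ ^ 2 * E (δ * j / H) ^ 2) ∧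
    (∀ (u : ℝ) (c : ℤ → ℂ), (∀ j, ‖c j‖ ≤ 1) →
      ‖∑' j : ℤ, c j * G (u + δ * j) * ((E (δ * j / H) ^ 2 : ℝ) : ℂ)‖ ^ 2 ≤
        C1 * (H / δ) * ∑' j : ℤ, ‖G (u + δ * j)‖ ^ 2 * E (δ * j / H) ^ 2) ∧
    ∀ a b Kb : ℝ, a ≤ b → (∀ x : ℝ, ∫ t in (a + x)..(b + x), ‖G t‖ ^ 2 ≤ Kb) →
      ∫ u in a..b, ∑' j : ℤ, ‖G (u + δ * j)‖ ^ 2 * E (δ * j / H) ^ 2 ≤ C1 * (H / δ) * Kb := by
  intro E C c0 hK
  have hC := hK.hC
  refine ⟨8 * C ^ 2, by positivity, fun G M δ H hG hM hδ hδH => ?_⟩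
  have hH : 0 < H := by linarith
  obtain ⟨hs, hle⟩ := phi685 E C c0 hK δ H hδ hδH
  have hM0 : 0 ≤ M := (norm_nonneg _).trans (hM 0)
  have hφ : ∀ j : ℤ, 0 ≤ E (δ * j / H) ^ 2 := fun j => sq_nonneg _
  have h0 : 0 < ∑' j : ℤ, E (δ * j / H) ^ 2 := by
    have h1 : c0 ≤ E (δ * ((0 : ℤ) : ℝ) / H) ^ 2 := by
      apply hK.low
      simp
    have h2 := hs.le_tsum (0 : ℤ) (fun j _ => hφ j)
    linarith [hK.hc0]
  refine ⟨?_, ?_, ?_⟩
  · refine continuous_tsum (u := fun j : ℤ => M ^ 2 * E (δ * j / H) ^ 2) ?_ (hs.mul_left _) ?_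
    · intro j
      fun_prop
    · intro j u
      rw [Real.norm_of_nonneg (by positivity)]
      exact mul_le_mul_of_nonneg_right (pow_le_pow_left₀ (norm_nonneg _) (hM _) 2) (hφ j)
  · intro u c hc
    obtain ⟨s1, s2, s3⟩ := cs_tsum685 (fun j : ℤ => ‖G (u + δ * j)‖) (fun j : ℤ => E (δ * j / H) ^ 2) M
      (fun j => norm_nonneg _) (fun j => hM _) hφ hs h0
    have hn : ∀ j : ℤ, ‖c j * G (u + δ * j) * ((E (δ * j / H) ^ 2 : ℝ) : ℂ)‖ ≤ ‖G (u + δ * j)‖ * E (δ * j / H) ^ 2 := by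
      intro j
      rw [norm_mul, norm_mul, Complex.norm_real, Real.norm_of_nonneg (hφ j)]
      apply mul_le_mul_of_nonneg_right _ (hφ j)
      exact mul_le_of_le_one_left (norm_nonneg _) (hc j)
    have hsn : Summable (fun j : ℤ => ‖c j * G (u + δ * j) * ((E (δ * j / H) ^ 2 : ℝ) : ℂ)‖) :=
      Summable.of_nonneg_of_le (fun j => norm_nonneg _) hn s1
    have h1 : ‖∑' j : ℤ, c j * G (u + δ * j) * ((E (δ * j / H) ^ 2 : ℝ) : ℂ)‖ ≤
        ∑' j : ℤ, ‖G (u + δ * j)‖ * E (δ * j / H) ^ 2 :=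
      (norm_tsum_le_tsum_norm hsn).trans (hsn.tsum_le_tsum hn s1)
    have h3 : 0 ≤ ∑' j : ℤ, ‖G (u + δ * j)‖ ^ 2 * E (δ * j / H) ^ 2 :=
      tsum_nonneg (fun j => mul_nonneg (sq_nonneg _) (hφ j))
    calc ‖∑' j : ℤ, c j * G (u + δ * j) * ((E (δ * j / H) ^ 2 : ℝ) : ℂ)‖ ^ 2
        ≤ (∑' j : ℤ, ‖G (u + δ * j)‖ * E (δ * j / H) ^ 2) ^ 2 := pow_le_pow_left₀ (norm_nonneg _) h1 2
      _ ≤ (∑' j : ℤ, E (δ * j / H) ^ 2) * ∑' j : ℤ, ‖G (u + δ * j)‖ ^ 2 * E (δ * j / H) ^ 2 := s3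
      _ ≤ 8 * C ^ 2 * (H / δ) * ∑' j : ℤ, ‖G (u + δ * j)‖ ^ 2 * E (δ * j / H) ^ 2 :=
          mul_le_mul_of_nonneg_right hle h3
  · intro a b Kb hab hKb
    have hKb0 : 0 ≤ Kb := by
      have h1 := hKb 0
      refine le_trans ?_ h1
      exact intervalIntegral.integral_nonneg (by linarith) (fun x _ => sq_nonneg _)
    have hcont : ∀ j : ℤ, Continuous (fun u : ℝ => ‖G (u + δ * j)‖ ^ 2 * E (δ * j / H) ^ 2) := by
      intro j
      fun_prop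
    have hint : ∀ j : ℤ, Integrable (fun u : ℝ => ‖G (u + δ * j)‖ ^ 2 * E (δ * j / H) ^ 2) (volume.restrict (Ioc a b)) := by
      intro j
      exact ((hcont j).integrableOn_Icc (a := a) (b := b)).mono_set Ioc_subset_Icc_self
    have hval : ∀ j : ℤ, ∫ u in a..b, ‖G (u + δ * j)‖ ^ 2 * E (δ * j / H) ^ 2 ≤ E (δ * j / H) ^ 2 * Kb := by
      intro j
      have e1 : ∫ u in a..b, ‖G (u + δ * j)‖ ^ 2 * E (δ * j / H) ^ 2 =
          (∫ u in a..b, ‖G (u + δ * j)‖ ^ 2) * E (δ * j / H) ^ 2 :=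
        intervalIntegral.integral_mul_const _ _
      have e2 : ∫ u in a..b, ‖G (u + δ * j)‖ ^ 2 = ∫ t in (a + δ * j)..(b + δ * j), ‖G t‖ ^ 2 :=
        intervalIntegral.integral_comp_add_right (fun t => ‖G t‖ ^ 2) (δ * j)
      rw [e1, e2, mul_comm]
      exact mul_le_mul_of_nonneg_left (hKb _) (hφ j)
    have hnorm : ∀ j : ℤ, ∫ u in Ioc a b, ‖‖G (u + δ * j)‖ ^ 2 * E (δ * j / H) ^ 2‖ =
        ∫ u in a..b, ‖G (u + δ * j)‖ ^ 2 * E (δ * j / H) ^ 2 := by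
      intro j
      rw [intervalIntegral.integral_of_le hab]
      refine integral_congr_ae (Filter.Eventually.of_forall fun u => ?_)
      exact Real.norm_of_nonneg (mul_nonneg (sq_nonneg _) (hφ j))
    have hnn : ∀ j : ℤ, 0 ≤ ∫ u in a..b, ‖G (u + δ * j)‖ ^ 2 * E (δ * j / H) ^ 2 := fun j =>
      intervalIntegral.integral_nonneg hab (fun x _ => mul_nonneg (sq_nonneg _) (hφ j))
    have hsI : Summable (fun j : ℤ => ∫ u in a..b, ‖G (u + δ * j)‖ ^ 2 * E (δ * j / H) ^ 2) :=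
      Summable.of_nonneg_of_le hnn hval (hs.mul_right Kb)
    have hS := hasSum_integral_of_summable_integral_norm (μ := volume.restrict (Ioc a b)) hint (by
      simp only [hnorm]
      exact hsI)
    have e3 : ∫ u in a..b, ∑' j : ℤ, ‖G (u + δ * j)‖ ^ 2 * E (δ * j / H) ^ 2 =
        ∑' j : ℤ, ∫ u in a..b, ‖G (u + δ * j)‖ ^ 2 * E (δ * j / H) ^ 2 := by
      rw [intervalIntegral.integral_of_le hab, ← hS.tsum_eq]
      refine tsum_congr fun j => ?_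
      rw [intervalIntegral.integral_of_le hab]
    rw [e3]
    calc ∑' j : ℤ, ∫ u in a..b, ‖G (u + δ * j)‖ ^ 2 * E (δ * j / H) ^ 2
        ≤ ∑' j : ℤ, E (δ * j / H) ^ 2 * Kb := hsI.tsum_le_tsum hval (hs.mul_right Kb)
      _ = (∑' j : ℤ, E (δ * j / H) ^ 2) * Kb := tsum_mul_right
      _ ≤ 8 * C ^ 2 * (H / δ) * Kb := mul_le_mul_of_nonneg_right hle hKb0


end Pool.Agent.Helper647.SG.JCS
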