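import Mathlib

set_option autoImplicit false

namespace Pool.Agent.Helper647.SG.JCT

open Complex Filter Topology MeasureTheory Set

/-- Selberg's coefficients on squarefree numbers -/
noncomputable def al (n : ℕ) : ℝ := if Squarefree n then (-1 / 2 : ℝ) ^ n.primeFactors.card else 0

/-- the Dirichlet series of `al` over the integers prime to `k` -/
noncomputable def Q (z : ℂ) (k : ℕ) : ℂ :=
  ∑' m : ℕ, if m.Coprime k then ((al m : ℝ) : ℂ) * (m : ℂ) ^ (-(1 + z)) else 0

/-- the part at the primes dividing `k` -/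
noncomputable def V (z₁ z₂ : ℂ) (k : ℕ) : ℂ := ∑ d₁ ∈ k.divisors, ∑ d₂ ∈ k.divisors,
  if k ∣ d₁ * d₂ then (((al d₁ : ℝ) : ℂ) * (d₁ : ℂ) ^ (-(1 + z₁))) * (((al d₂ : ℝ) : ℂ) * (d₂ : ℂ) ^ (-(1 + z₂)))
  else 0

theorem al_abs_le (n : ℕ) : |al n| ≤ 1 := by
  unfold al
  split_ifs
  · rw [abs_pow]
    apply pow_le_one₀ (abs_nonneg _)
    rw [abs_div, abs_neg, abs_one]; norm_num
  · simp

theorem al_zero : al 0 = 0 := by
  unfold al; rw [if_neg]; exact not_squarefree_zero

theorem cont_Q {X : Type*} [TopologicalSpace X] (z : X → ℂ) (hz : Continuous z) (c : ℝ) (hc : 0 < c)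
    (hzr : ∀ x, c ≤ (z x).re) (k : ℕ) : Continuous (fun x => Q (z x) k) := by
  unfold Q
  refine continuous_tsum (u := fun m : ℕ => (m : ℝ) ^ (-(1 + c))) ?_ ?_ ?_
  · intro m
    by_cases hm : m.Coprime k
    · rw [show (fun x => if m.Coprime k then ((al m : ℝ) : ℂ) * (m : ℂ) ^ (-(1 + z x)) else 0) =
        fun x => ((al m : ℝ) : ℂ) * (m : ℂ) ^ (-(1 + z x)) from funext fun x => if_pos hm]
      rcases Nat.eq_zero_or_pos m with h0 | h0
      · subst h0
        rw [show (fun x => ((al 0 : ℝ) : ℂ) * ((0 : ℕ) : ℂ) ^ (-(1 + z x))) = fun _ => (0 : ℂ) from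
          funext fun x => by rw [al_zero]; simp]
        exact continuous_const
      · refine continuous_const.mul (Continuous.const_cpow (by fun_prop) (Or.inl ?_))
        exact_mod_cast h0.ne'
    · rw [show (fun x => if m.Coprime k then ((al m : ℝ) : ℂ) * (m : ℂ) ^ (-(1 + z x)) else 0) =
        fun _ => (0 : ℂ) from funext fun x => if_neg hm]
      exact continuous_const
  · rw [Real.summable_nat_rpow]; linarith
  · intro m x
    by_cases hm : m.Coprime k
    · rw [if_pos hm]
      rcases Nat.eq_zero_or_pos m with h0 | h0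
      · subst h0; rw [al_zero, Complex.ofReal_zero, zero_mul, norm_zero]
        exact Real.rpow_nonneg (Nat.cast_nonneg _) _
      · rw [norm_mul, Complex.norm_real, Real.norm_eq_abs]
        have h1 : ‖(m : ℂ) ^ (-(1 + z x))‖ = (m : ℝ) ^ (-(1 + (z x).re)) := by
          have := Complex.norm_natCast_cpow_of_pos h0 (-(1 + z x))
          simpa using this
        rw [h1]
        have h2 : (m : ℝ) ^ (-(1 + (z x).re)) ≤ (m : ℝ) ^ (-(1 + c)) := by
          apply Real.rpow_le_rpow_of_exponent_le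
          · exact_mod_cast h0
          · have := hzr x; linarith
        have h3 := al_abs_le m
        have h4 : 0 ≤ (m : ℝ) ^ (-(1 + (z x).re)) := Real.rpow_nonneg (Nat.cast_nonneg _) _
        calc |al m| * (m : ℝ) ^ (-(1 + (z x).re)) ≤ 1 * (m : ℝ) ^ (-(1 + (z x).re)) :=
              mul_le_mul_of_nonneg_right h3 h4
          _ ≤ _ := by rw [one_mul]; exact h2
    · rw [if_neg hm, norm_zero]
      exact Real.rpow_nonneg (Nat.cast_nonneg _) _

theorem cont_V {X : Type*} [TopologicalSpace X] (z₁ z₂ : X → ℂ) (h1 : Continuous z₁) (h2 : Continuous z₂)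
    (k : ℕ) : Continuous (fun x => V (z₁ x) (z₂ x) k) := by
  unfold V
  refine continuous_finsetSum _ fun d₁ hd₁ => continuous_finsetSum _ fun d₂ hd₂ => ?_
  have e1 : (d₁ : ℂ) ≠ 0 := by exact_mod_cast (Nat.pos_of_mem_divisors hd₁).ne'
  have e2 : (d₂ : ℂ) ≠ 0 := by exact_mod_cast (Nat.pos_of_mem_divisors hd₂).ne'
  split_ifs
  · exact (continuous_const.mul (Continuous.const_cpow (by fun_prop) (Or.inl e1))).mul
      (continuous_const.mul (Continuous.const_cpow (by fun_prop) (Or.inl e2)))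
  · exact continuous_const

/- TASK (helper647, project SG): prove this theorem (axioms propext, Classical.choice, Quot.sound only; helper lemmas welcome;
keep the statement, the definitions and the namespace).
HINT. |al m| ≤ 1; on the relevant points Re z ≥ 1/L, so the terms are bounded by m^{-(1+1/L)} (continuous_tsum); every cpow with a
positive natural base is continuous in the exponent (the term m = 0 is constant 0 since al 0 = 0). -/
theorem cont_rep : ∀ (L : ℝ) (s : ℂ) (k : ℕ), 1 ≤ L → 0 ≤ s.re → 1 ≤ k → Continuous (fun x : ℝ × ℝ =>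
      V (s + (1 + I * x.1) / L) ((1 + I * x.2) / L) k * Q (s + (1 + I * x.1) / L) k * Q ((1 + I * x.2) / L) k) := by
  intro L s k hL hs hk
  have hL0 : 0 < L := by linarith
  have c1 : Continuous (fun x : ℝ × ℝ => s + (1 + I * (x.1 : ℂ)) / (L : ℂ)) := by fun_prop
  have c2 : Continuous (fun x : ℝ × ℝ => (1 + I * (x.2 : ℂ)) / (L : ℂ)) := by fun_prop
  have re : ∀ t : ℝ, ((1 + I * (t : ℂ)) / (L : ℂ)).re = 1 / L := by
    intro t
    rw [Complex.div_ofReal_re]; simp
  have r1 : ∀ x : ℝ × ℝ, 1 / L ≤ (s + (1 + I * (x.1 : ℂ)) / (L : ℂ)).re := by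
    intro x; rw [Complex.add_re, re]; linarith
  have r2 : ∀ x : ℝ × ℝ, 1 / L ≤ ((1 + I * (x.2 : ℂ)) / (L : ℂ)).re := by
    intro x; rw [re]
  exact ((cont_V _ _ c1 c2 k).mul (cont_Q _ c1 (1 / L) (by positivity) r1 k)).mul
    (cont_Q _ c2 (1 / L) (by positivity) r2 k)

end Pool.Agent.Helper647.SG.JCT
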