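import Mathlib

set_option autoImplicit false

namespace Pool.Agent.Helper647.SG.JGL

open Complex Filter Topology MeasureTheory Set

/-- the complex Jordan function -/
noncomputable def Jc (w : ℂ) (n : ℕ) : ℂ :=
  ∑ d ∈ n.divisors, ((ArithmeticFunction.moebius (n / d) : ℤ) : ℂ) * (d : ℂ) ^ w

/-- `∑_{k ∣ ab} β_a β_b a^{-1-s} b^{-1}` -/
noncomputable def Rg (s : ℂ) (β : ℕ → ℝ) (Y k : ℕ) : ℂ := ∑ a ∈ Finset.Icc 1 Y, ∑ b ∈ Finset.Icc 1 Y,
  if k ∣ a * b then (((β a : ℝ) : ℂ) * (a : ℂ) ^ (-(1 + s))) * (((β b : ℝ) : ℂ) * (b : ℂ)⁻¹) else 0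

/-- the limit of the masses -/
noncomputable def GG (s : ℂ) (β : ℕ → ℝ) (Y : ℕ) : ℂ :=
  riemannZeta (1 + s) * ∑ k ∈ Finset.Icc 1 (Y * Y), Jc (1 + s) k * Rg s β Y k ^ 2

/-- the triples `(n, μ, ν)` -/
noncomputable def tri (N Y : ℕ) : Finset (ℕ × ℕ × ℕ) := Finset.Icc 1 N ×ˢ (Finset.Icc 1 Y ×ˢ Finset.Icc 1 Y)

/-- the frequency -/
noncomputable def lm (p : ℕ × ℕ × ℕ) : ℝ := Real.log (p.1 * p.2.1 / p.2.2)

/-- the coefficient -/
noncomputable def cf (β : ℕ → ℝ) (p : ℕ × ℕ × ℕ) : ℝ := β p.2.1 * β p.2.2 / Real.sqrt (p.1 * p.2.1 * p.2.2)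

/-- the full sum with a damping factor -/
noncomputable def Gn (s : ℂ) (β : ℕ → ℝ) (N Y : ℕ) : ℂ :=
  ∑ p ∈ tri N Y, ∑ p' ∈ tri N Y, if lm p = lm p' then ((cf β p * cf β p' : ℝ) : ℂ) * cexp (-(s * lm p)) else 0

lemma pair_sum (a b : ℕ) (ha : 0 < a) (hb : 0 < b) (hab : Nat.Coprime a b) (X : ℕ → ℕ → ℂ) (N : ℕ) :
    ∑ n ∈ Finset.Icc 1 N, ∑ n' ∈ Finset.Icc 1 N, (if n * a = n' * b then X n n' else 0) =
      ∑ m ∈ Finset.Icc 1 (N / max a b), X (m * b) (m * a) := by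
  classical
  rw [← Finset.sum_product', ← Finset.sum_filter]
  symm
  have hmax : 0 < max a b := lt_max_of_lt_left ha
  apply Finset.sum_nbij (fun m => (m * b, m * a))
  · intro m hm
    rw [Finset.mem_Icc] at hm
    have h1 := (Nat.le_div_iff_mul_le hmax).1 hm.2
    have h2 : m * a ≤ N := le_trans (Nat.mul_le_mul_left m (le_max_left a b)) h1
    have h3 : m * b ≤ N := le_trans (Nat.mul_le_mul_left m (le_max_right a b)) h1
    simp only [Finset.mem_filter, Finset.mem_product, Finset.mem_Icc]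
    refine ⟨⟨⟨Nat.mul_pos hm.1 hb, h3⟩, ⟨Nat.mul_pos hm.1 ha, h2⟩⟩, by ring⟩
  · intro m _ m' _ h
    simp only [Prod.mk.injEq] at h
    exact Nat.eq_of_mul_eq_mul_right hb h.1
  · rintro ⟨n, n'⟩ h
    simp only [Finset.coe_filter, Finset.mem_product, Finset.mem_Icc, Set.mem_ofPred_eq] at h
    obtain ⟨⟨⟨h1, h2⟩, ⟨h3, h4⟩⟩, h5⟩ := h
    have h6 : b ∣ n := by
      have : b ∣ n * a := ⟨n', by rw [h5]; ring⟩
      exact (Nat.Coprime.symm hab).dvd_of_dvd_mul_right this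
    obtain ⟨m, rfl⟩ := h6
    have h7 : n' = m * a := by
      have : n' * b = (m * a) * b := by rw [← h5]; ring
      exact Nat.eq_of_mul_eq_mul_right hb this
    refine ⟨m, ?_, ?_⟩
    · simp only [Finset.coe_Icc, Set.mem_Icc]
      refine ⟨?_, ?_⟩
      · by_contra hc
        have : m = 0 := by omega
        subst this
        simp at h1
      · rw [Nat.le_div_iff_mul_le hmax]
        rcases le_total a b with hab' | hab'
        · rw [max_eq_right hab']; linarith [mul_comm b m]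
        · rw [max_eq_left hab']; rw [h7] at h4; exact h4
    · simp only [Prod.mk.injEq]
      exact ⟨by ring, h7.symm⟩
  · intro m _
    rfl

lemma natpow (x : ℕ) (hx : x ≠ 0) (w : ℂ) : (x : ℂ) ^ w = cexp ((Real.log x : ℝ) * w) := by
  rw [Complex.cpow_def_of_ne_zero (by exact_mod_cast hx), Complex.ofReal_log (by positivity)]
  simp

/-- the inner limit -/
lemma inner_lim (s : ℂ) (hs : 0 < s.re) (β : ℕ → ℝ) (μ ν μ' ν' : ℕ) (h1 : 1 ≤ μ) (h2 : 1 ≤ ν)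
    (h3 : 1 ≤ μ') (h4 : 1 ≤ ν') :
    Tendsto (fun N : ℕ => ∑ n ∈ Finset.Icc 1 N, ∑ n' ∈ Finset.Icc 1 N,
      if lm (n, μ, ν) = lm (n', μ', ν') then ((cf β (n, μ, ν) * cf β (n', μ', ν') : ℝ) : ℂ) *
        cexp (-(s * lm (n, μ, ν))) else 0) atTop
      (𝓝 ((((β μ : ℝ) : ℂ) * (μ : ℂ) ^ (-(1 + s))) * (((β ν : ℝ) : ℂ) * (ν : ℂ)⁻¹) *
        ((((β μ' : ℝ) : ℂ) * (μ' : ℂ) ^ (-(1 + s))) * (((β ν' : ℝ) : ℂ) * (ν' : ℂ)⁻¹)) *
        ((Nat.gcd (μ * ν') (μ' * ν) : ℕ) : ℂ) ^ (1 + s) * riemannZeta (1 + s))) := by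
  set g := Nat.gcd (μ * ν') (μ' * ν) with hg
  have hgpos : 0 < g := Nat.gcd_pos_of_pos_left _ (Nat.mul_pos h1 h4)
  obtain ⟨a, ha⟩ : g ∣ μ * ν' := Nat.gcd_dvd_left _ _
  obtain ⟨b, hb⟩ : g ∣ μ' * ν := Nat.gcd_dvd_right _ _
  have hcop : Nat.Coprime a b := by
    have := Nat.coprime_div_gcd_div_gcd (m := μ * ν') (n := μ' * ν) (by rw [← hg]; exact hgpos)
    rw [← hg, ha, hb, Nat.mul_div_cancel_left _ hgpos, Nat.mul_div_cancel_left _ hgpos] at this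
    exact this
  have hapos : 0 < a := Nat.pos_of_ne_zero (by rintro rfl; simp at ha; omega)
  have hbpos : 0 < b := Nat.pos_of_ne_zero (by rintro rfl; simp at hb; omega)
  have hμ : (0 : ℝ) < μ := by exact_mod_cast h1
  have hν : (0 : ℝ) < ν := by exact_mod_cast h2
  have hμ' : (0 : ℝ) < μ' := by exact_mod_cast h3
  have hν' : (0 : ℝ) < ν' := by exact_mod_cast h4
  have hgR : (0 : ℝ) < g := by exact_mod_cast hgpos
  have haR : (μ : ℝ) * ν' = g * a := by exact_mod_cast ha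
  have hbR : (μ' : ℝ) * ν = g * b := by exact_mod_cast hb
  have haR' : (0 : ℝ) < a := by exact_mod_cast hapos
  have hbR' : (0 : ℝ) < b := by exact_mod_cast hbpos
  set A : ℂ := (((β μ : ℝ) : ℂ) * (μ : ℂ) ^ (-(1 + s))) * (((β ν : ℝ) : ℂ) * (ν : ℂ)⁻¹) *
        ((((β μ' : ℝ) : ℂ) * (μ' : ℂ) ^ (-(1 + s))) * (((β ν' : ℝ) : ℂ) * (ν' : ℂ)⁻¹)) *
        ((g : ℕ) : ℂ) ^ (1 + s) with hA
  have hq1 : ∀ m : ℕ, 1 ≤ m → ((m * b : ℕ) : ℝ) * μ / ν = (m : ℝ) * μ * μ' / g := by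
    intro m _
    have : (b : ℝ) = μ' * ν / g := by field_simp; linarith
    push_cast
    rw [this]
    field_simp
  have hq2 : ∀ m : ℕ, 1 ≤ m → ((m * a : ℕ) : ℝ) * μ' / ν' = (m : ℝ) * μ * μ' / g := by
    intro m _
    have : (a : ℝ) = μ * ν' / g := by field_simp; linarith
    push_cast
    rw [this]
    field_simp
  have hterm : ∀ m : ℕ, 1 ≤ m →
      ((cf β (m * b, μ, ν) * cf β (m * a, μ', ν') : ℝ) : ℂ) * cexp (-(s * lm (m * b, μ, ν))) =
        A * (1 / (m : ℂ) ^ (1 + s)) := by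
    intro m hm
    have hmR : (0 : ℝ) < m := by exact_mod_cast hm
    set q : ℝ := (m : ℝ) * μ * μ' / g with hq
    have hqpos : 0 < q := by positivity
    have e1 : lm (m * b, μ, ν) = Real.log q := by
      unfold lm
      rw [hq1 m hm]
    have e2 : cf β (m * b, μ, ν) = β μ * β ν / (ν * Real.sqrt q) := by
      unfold cf
      have : ((m * b : ℕ) : ℝ) * μ * ν = ν ^ 2 * q := by
        rw [hq, ← hq1 m hm]; field_simp
      simp only [this]
      rw [Real.sqrt_mul (by positivity), Real.sqrt_sq hν.le]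
    have e3 : cf β (m * a, μ', ν') = β μ' * β ν' / (ν' * Real.sqrt q) := by
      unfold cf
      have : ((m * a : ℕ) : ℝ) * μ' * ν' = ν' ^ 2 * q := by
        rw [hq, ← hq2 m hm]; field_simp
      simp only [this]
      rw [Real.sqrt_mul (by positivity), Real.sqrt_sq hν'.le]
    have e4 : cf β (m * b, μ, ν) * cf β (m * a, μ', ν') =
        β μ * β ν * β μ' * β ν' / (ν * ν') * Real.exp (-Real.log q) := by
      rw [e2, e3, Real.exp_neg, Real.exp_log hqpos]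
      have hsq : Real.sqrt q * Real.sqrt q = q := Real.mul_self_sqrt hqpos.le
      have hsq0 : Real.sqrt q ≠ 0 := (Real.sqrt_pos.2 hqpos).ne'
      field_simp
      rw [Real.sq_sqrt hqpos.le]
      ring
    have e5 : Real.log q = Real.log m + Real.log μ + Real.log μ' - Real.log g := by
      rw [hq, Real.log_div (by positivity) (by positivity), Real.log_mul (by positivity) (by positivity),
        Real.log_mul (by positivity) (by positivity)]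
    rw [e4, e1, hA, natpow μ (by omega), natpow μ' (by omega), natpow g (by omega), natpow m (by omega), one_div,
      ← Complex.exp_neg]
    simp only [Complex.ofReal_mul, Complex.ofReal_div, Complex.ofReal_exp, Complex.ofReal_neg, Complex.ofReal_natCast]
    have e6 : cexp (-((Real.log q : ℝ) : ℂ)) * cexp (-(s * ((Real.log q : ℝ) : ℂ))) =
        cexp (((Real.log μ : ℝ) : ℂ) * -(1 + s)) * cexp (((Real.log μ' : ℝ) : ℂ) * -(1 + s)) *
          cexp (((Real.log g : ℝ) : ℂ) * (1 + s)) * cexp (-(((Real.log m : ℝ) : ℂ) * (1 + s))) := by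
      rw [← Complex.exp_add, ← Complex.exp_add, ← Complex.exp_add, ← Complex.exp_add, e5]
      simp only [Complex.ofReal_add, Complex.ofReal_sub]
      congr 1
      ring
    calc _ = (β μ : ℂ) * β ν * β μ' * β ν' / (ν * ν') *
          (cexp (-((Real.log q : ℝ) : ℂ)) * cexp (-(s * ((Real.log q : ℝ) : ℂ)))) := by ring
      _ = _ := by
        rw [e6]
        have hν0 : (ν : ℂ) ≠ 0 := by exact_mod_cast hν.ne'
        have hν0' : (ν' : ℂ) ≠ 0 := by exact_mod_cast hν'.ne'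
        field_simp
  have hsum : ∀ N : ℕ, (∑ n ∈ Finset.Icc 1 N, ∑ n' ∈ Finset.Icc 1 N,
      if lm (n, μ, ν) = lm (n', μ', ν') then ((cf β (n, μ, ν) * cf β (n', μ', ν') : ℝ) : ℂ) *
        cexp (-(s * lm (n, μ, ν))) else 0) =
      A * ∑ i ∈ Finset.range (N / max a b + 1), (1 / (i : ℂ) ^ (1 + s)) := by
    intro N
    have hcond : ∀ n ∈ Finset.Icc 1 N, ∀ n' ∈ Finset.Icc 1 N,
        (lm (n, μ, ν) = lm (n', μ', ν') ↔ n * a = n' * b) := by
      intro n hn n' hn'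
      rw [Finset.mem_Icc] at hn hn'
      have hnR : (0 : ℝ) < n := by exact_mod_cast hn.1
      have hnR' : (0 : ℝ) < n' := by exact_mod_cast hn'.1
      unfold lm
      simp only
      constructor
      · intro h
        have h5 := Real.log_injOn_pos (Set.mem_Ioi.2 (by positivity)) (Set.mem_Ioi.2 (by positivity)) h
        rw [div_eq_div_iff hν.ne' hν'.ne'] at h5
        have h6 : (n : ℝ) * a = n' * b := by
          have : (g : ℝ) * (n * a) = g * (n' * b) := by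
            calc (g : ℝ) * (n * a) = n * (g * a) := by ring
              _ = n * (μ * ν') := by rw [haR]
              _ = n' * (μ' * ν) := by linarith
              _ = n' * (g * b) := by rw [hbR]
              _ = _ := by ring
          exact mul_left_cancel₀ hgR.ne' this
        exact_mod_cast h6
      · intro h
        have h6 : (n : ℝ) * a = n' * b := by exact_mod_cast h
        congr 1
        rw [div_eq_div_iff hν.ne' hν'.ne']
        calc (n : ℝ) * μ * ν' = n * (μ * ν') := by ring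
          _ = g * (n * a) := by rw [haR]; ring
          _ = n' * (g * b) := by rw [h6]; ring
          _ = n' * μ' * ν := by rw [← hbR]; ring
    have hstep : (∑ n ∈ Finset.Icc 1 N, ∑ n' ∈ Finset.Icc 1 N,
      if lm (n, μ, ν) = lm (n', μ', ν') then ((cf β (n, μ, ν) * cf β (n', μ', ν') : ℝ) : ℂ) *
        cexp (-(s * lm (n, μ, ν))) else 0) = ∑ n ∈ Finset.Icc 1 N, ∑ n' ∈ Finset.Icc 1 N,
      if n * a = n' * b then ((cf β (n, μ, ν) * cf β (n', μ', ν') : ℝ) : ℂ) *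
        cexp (-(s * lm (n, μ, ν))) else 0 := by
      refine Finset.sum_congr rfl fun n hn => Finset.sum_congr rfl fun n' hn' => ?_
      by_cases hc : n * a = n' * b
      · rw [if_pos hc, if_pos ((hcond n hn n' hn').2 hc)]
      · rw [if_neg hc, if_neg (fun h => hc ((hcond n hn n' hn').1 h))]
    rw [hstep, pair_sum a b hapos hbpos hcop (fun n n' =>
      ((cf β (n, μ, ν) * cf β (n', μ', ν') : ℝ) : ℂ) * cexp (-(s * lm (n, μ, ν))))]
    rw [Finset.sum_congr rfl (fun m hm => hterm m (Finset.mem_Icc.1 hm).1), ← Finset.mul_sum]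
    congr 1
    rw [Finset.range_eq_Ico, Finset.sum_eq_sum_Ico_succ_bot (Nat.succ_pos _)]
    have h0 : (1 / ((0 : ℕ) : ℂ) ^ (1 + s)) = 0 := by
      rw [Nat.cast_zero, Complex.zero_cpow, div_zero]
      intro h
      have := congrArg Complex.re h
      simp at this
      linarith
    rw [h0, zero_add]
    rfl
  simp_rw [hsum]
  have hre : 1 < (1 + s).re := by simp; exact hs
  have hS : HasSum (fun n : ℕ => 1 / (n : ℂ) ^ (1 + s)) (riemannZeta (1 + s)) := by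
    rw [zeta_eq_tsum_one_div_nat_cpow hre]
    exact (Complex.summable_one_div_nat_cpow.2 hre).hasSum
  have hT := hS.tendsto_sum_nat
  have hmax : max a b ≠ 0 := (lt_max_of_lt_left hapos).ne'
  have hU : Tendsto (fun N : ℕ => N / max a b + 1) atTop atTop :=
    (tendsto_add_atTop_nat 1).comp (Nat.tendsto_div_const_atTop hmax)
  exact (hT.comp hU).const_mul A

lemma gcd_pow (hJ : ∀ (w : ℂ) (n : ℕ), 1 ≤ n → ∑ k ∈ n.divisors, Jc w k = (n : ℂ) ^ w) (Y : ℕ) (w : ℂ)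
    (x y : ℕ) (hx : 1 ≤ x) (hxY : x ≤ Y * Y) :
    ((Nat.gcd x y : ℕ) : ℂ) ^ w = ∑ k ∈ Finset.Icc 1 (Y * Y), if k ∣ x ∧ k ∣ y then Jc w k else 0 := by
  classical
  rw [← hJ w _ (Nat.gcd_pos_of_pos_left _ hx), ← Finset.sum_filter]
  apply Finset.sum_congr _ (fun _ _ => rfl)
  ext k
  simp only [Nat.mem_divisors, Finset.mem_filter, Finset.mem_Icc, Nat.dvd_gcd_iff]
  constructor
  · rintro ⟨⟨h1, h2⟩, _⟩
    exact ⟨⟨Nat.pos_of_dvd_of_pos h1 hx, (Nat.le_of_dvd hx h1).trans hxY⟩, h1, h2⟩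
  · rintro ⟨_, h1, h2⟩
    exact ⟨⟨h1, h2⟩, (Nat.gcd_pos_of_pos_left _ hx).ne'⟩

lemma alg (hJ : ∀ (w : ℂ) (n : ℕ), 1 ≤ n → ∑ k ∈ n.divisors, Jc w k = (n : ℂ) ^ w) (Y : ℕ) (w z : ℂ)
    (F H : ℕ → ℂ) :
    ∑ μ ∈ Finset.Icc 1 Y, ∑ ν ∈ Finset.Icc 1 Y, ∑ μ' ∈ Finset.Icc 1 Y, ∑ ν' ∈ Finset.Icc 1 Y,
      F μ * H ν * (F μ' * H ν') * ((Nat.gcd (μ * ν') (μ' * ν) : ℕ) : ℂ) ^ w * z =
      z * ∑ k ∈ Finset.Icc 1 (Y * Y), Jc w k * (∑ a ∈ Finset.Icc 1 Y, ∑ b ∈ Finset.Icc 1 Y,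
        if k ∣ a * b then F a * H b else 0) ^ 2 := by
  classical
  set I := Finset.Icc 1 Y with hI
  have h1 : ∀ k, Jc w k * (∑ a ∈ I, ∑ b ∈ I, if k ∣ a * b then F a * H b else 0) ^ 2 =
      ∑ μ ∈ I, ∑ ν' ∈ I, ∑ μ' ∈ I, ∑ ν ∈ I,
        F μ * H ν * (F μ' * H ν') * (if k ∣ μ * ν' ∧ k ∣ μ' * ν then Jc w k else 0) := by
    intro k
    rw [sq, Finset.sum_mul, Finset.mul_sum]
    refine Finset.sum_congr rfl fun μ _ => ?_
    rw [Finset.sum_mul, Finset.mul_sum]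
    refine Finset.sum_congr rfl fun ν' _ => ?_
    rw [Finset.mul_sum, Finset.mul_sum]
    refine Finset.sum_congr rfl fun μ' _ => ?_
    rw [Finset.mul_sum, Finset.mul_sum]
    refine Finset.sum_congr rfl fun ν _ => ?_
    by_cases c1 : k ∣ μ * ν' <;> by_cases c2 : k ∣ μ' * ν <;> simp [c1, c2] <;> ring
  simp_rw [h1]
  conv_rhs => rw [Finset.sum_comm]
  rw [Finset.mul_sum]
  refine Finset.sum_congr rfl fun μ hμ => ?_
  conv_rhs => rw [Finset.sum_comm]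
  have h2 : ∑ ν ∈ I, ∑ μ' ∈ I, ∑ ν' ∈ I,
      F μ * H ν * (F μ' * H ν') * ((Nat.gcd (μ * ν') (μ' * ν) : ℕ) : ℂ) ^ w * z =
      ∑ ν' ∈ I, ∑ μ' ∈ I, ∑ ν ∈ I,
      F μ * H ν * (F μ' * H ν') * ((Nat.gcd (μ * ν') (μ' * ν) : ℕ) : ℂ) ^ w * z := by
    calc _ = ∑ μ' ∈ I, ∑ ν ∈ I, ∑ ν' ∈ I,
          F μ * H ν * (F μ' * H ν') * ((Nat.gcd (μ * ν') (μ' * ν) : ℕ) : ℂ) ^ w * z := Finset.sum_comm
      _ = ∑ μ' ∈ I, ∑ ν' ∈ I, ∑ ν ∈ I,
          F μ * H ν * (F μ' * H ν') * ((Nat.gcd (μ * ν') (μ' * ν) : ℕ) : ℂ) ^ w * z :=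
        Finset.sum_congr rfl (fun μ' _ => Finset.sum_comm)
      _ = _ := Finset.sum_comm
  rw [h2, Finset.mul_sum]
  refine Finset.sum_congr rfl fun ν' hν' => ?_
  conv_rhs => rw [Finset.sum_comm]
  rw [Finset.mul_sum]
  refine Finset.sum_congr rfl fun μ' hμ' => ?_
  conv_rhs => rw [Finset.sum_comm]
  rw [Finset.mul_sum]
  refine Finset.sum_congr rfl fun ν hν => ?_
  rw [hI, Finset.mem_Icc] at hμ hν hμ' hν'
  rw [gcd_pow hJ Y w (μ * ν') (μ' * ν) (Nat.mul_pos hμ.1 hν'.1) (Nat.mul_le_mul hμ.2 hν'.2),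
    ← Finset.mul_sum]
  ring

theorem glim (hJ : ∀ (w : ℂ) (n : ℕ), 1 ≤ n → ∑ k ∈ n.divisors, Jc w k = (n : ℂ) ^ w) :
    ∀ (Y : ℕ) (β : ℕ → ℝ) (s : ℂ), 0 < s.re → Tendsto (fun N : ℕ => Gn s β N Y) atTop (𝓝 (GG s β Y)) := by
  intro Y β s hs
  have h0 : GG s β Y = ∑ μ ∈ Finset.Icc 1 Y, ∑ ν ∈ Finset.Icc 1 Y, ∑ μ' ∈ Finset.Icc 1 Y, ∑ ν' ∈ Finset.Icc 1 Y,
      ((((β μ : ℝ) : ℂ) * (μ : ℂ) ^ (-(1 + s))) * (((β ν : ℝ) : ℂ) * (ν : ℂ)⁻¹) *
        ((((β μ' : ℝ) : ℂ) * (μ' : ℂ) ^ (-(1 + s))) * (((β ν' : ℝ) : ℂ) * (ν' : ℂ)⁻¹)) *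
        ((Nat.gcd (μ * ν') (μ' * ν) : ℕ) : ℂ) ^ (1 + s) * riemannZeta (1 + s)) := by
    rw [alg hJ Y (1 + s) (riemannZeta (1 + s)) (fun a => ((β a : ℝ) : ℂ) * (a : ℂ) ^ (-(1 + s)))
      (fun b => ((β b : ℝ) : ℂ) * (b : ℂ)⁻¹)]
    rfl
  have h1 : ∀ N, Gn s β N Y = ∑ μ ∈ Finset.Icc 1 Y, ∑ ν ∈ Finset.Icc 1 Y, ∑ μ' ∈ Finset.Icc 1 Y,
      ∑ ν' ∈ Finset.Icc 1 Y, ∑ n ∈ Finset.Icc 1 N, ∑ n' ∈ Finset.Icc 1 N,
      (if lm (n, μ, ν) = lm (n', μ', ν') then ((cf β (n, μ, ν) * cf β (n', μ', ν') : ℝ) : ℂ) *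
        cexp (-(s * lm (n, μ, ν))) else 0) := by
    intro N
    unfold Gn tri
    rw [Finset.sum_product, Finset.sum_comm, Finset.sum_product]
    refine Finset.sum_congr rfl fun μ _ => Finset.sum_congr rfl fun ν _ => ?_
    rw [Finset.sum_congr rfl (fun n _ => by rw [Finset.sum_product, Finset.sum_comm, Finset.sum_product])]
    rw [Finset.sum_comm]
    refine Finset.sum_congr rfl fun μ' _ => ?_
    rw [Finset.sum_comm]
  rw [h0]
  simp_rw [h1]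
  refine tendsto_finsetSum _ fun μ hμ => tendsto_finsetSum _ fun ν hν => tendsto_finsetSum _ fun μ' hμ' =>
    tendsto_finsetSum _ fun ν' hν' => ?_
  rw [Finset.mem_Icc] at hμ hν hμ' hν'
  exact inner_lim s hs β μ ν μ' ν' hμ.1 hν.1 hμ'.1 hν'.1

end Pool.Agent.Helper647.SG.JGL
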