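import Mathlib

set_option autoImplicit false

namespace Pool.Agent.Helper647.SG.JJC

open Complex Filter Topology MeasureTheory Set

/-- the complex Jordan function -/
noncomputable def Jc (w : ℂ) (n : ℕ) : ℂ :=
  ∑ d ∈ n.divisors, ((ArithmeticFunction.moebius (n / d) : ℤ) : ℂ) * (d : ℂ) ^ w


/-- comparison of nonnegative multiplicative functions -/
theorem mult_le_aux (f g : ℕ → ℝ) (hf1 : f 1 = 1) (hg1 : g 1 = 1)
    (hfm : ∀ m n : ℕ, m.Coprime n → f (m * n) = f m * f n)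
    (hgm : ∀ m n : ℕ, m.Coprime n → g (m * n) = g m * g n)
    (h : ∀ p k : ℕ, p.Prime → 1 ≤ k → 0 ≤ f (p ^ k) ∧ f (p ^ k) ≤ g (p ^ k)) :
    ∀ n : ℕ, 1 ≤ n → 0 ≤ f n ∧ f n ≤ g n := by
  intro n
  induction n using Nat.recOnPosPrimePosCoprime with
  | prime_pow p k hp hk => exact fun _ => h p k hp hk
  | zero => intro h0; omega
  | one => intro _; rw [hf1, hg1]; norm_num
  | coprime a b ha hb hab iha ihb =>
    intro _
    obtain ⟨h1, h2⟩ := iha (by omega)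
    obtain ⟨h3, h4⟩ := ihb (by omega)
    rw [hfm a b hab, hgm a b hab]
    exact ⟨mul_nonneg h1 h3, mul_le_mul h2 h4 h3 (h1.trans h2)⟩

/-- the complex power function -/
noncomputable def pwc (w : ℂ) : ArithmeticFunction ℂ :=
  ⟨fun n => if n = 0 then 0 else (n : ℂ) ^ w, by simp⟩

lemma pwc_apply (w : ℂ) {n : ℕ} (hn : n ≠ 0) : pwc w n = (n : ℂ) ^ w := if_neg hn

lemma pwc_mult (w : ℂ) : (pwc w).IsMultiplicative := by
  refine ⟨?_, ?_⟩
  · rw [pwc_apply w one_ne_zero]; simp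
  · intro m n _
    rcases Nat.eq_zero_or_pos m with rfl | hm
    · simp
    rcases Nat.eq_zero_or_pos n with rfl | hn
    · simp
    rw [pwc_apply w (by positivity), pwc_apply w (by omega), pwc_apply w (by omega), Nat.cast_mul]
    exact Complex.natCast_mul_natCast_cpow m n w

lemma Jc_eq (w : ℂ) (n : ℕ) : Jc w n =
    (((ArithmeticFunction.moebius : ArithmeticFunction ℤ) : ArithmeticFunction ℂ) * pwc w) n := by
  rw [ArithmeticFunction.mul_apply,
    Nat.sum_divisorsAntidiagonal' (f := fun a b =>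
      ((ArithmeticFunction.moebius : ArithmeticFunction ℤ) : ArithmeticFunction ℂ) a * pwc w b)]
  unfold Jc
  refine Finset.sum_congr rfl fun d hd => ?_
  rw [pwc_apply w (Nat.pos_of_mem_divisors hd).ne', ArithmeticFunction.intCoe_apply]

lemma Jc_mul (w : ℂ) (m n : ℕ) (h : m.Coprime n) : Jc w (m * n) = Jc w m * Jc w n := by
  rw [Jc_eq, Jc_eq, Jc_eq]
  exact ((ArithmeticFunction.isMultiplicative_moebius.intCast).mul (pwc_mult w)).2 h

lemma Jc_sum (w : ℂ) (n : ℕ) (hn : 1 ≤ n) : ∑ k ∈ n.divisors, Jc w k = (n : ℂ) ^ w := by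
  have h1 : ∑ k ∈ n.divisors, Jc w k =
      ((((ArithmeticFunction.moebius : ArithmeticFunction ℤ) : ArithmeticFunction ℂ) * pwc w) *
        ((ArithmeticFunction.zeta : ArithmeticFunction ℕ) : ArithmeticFunction ℂ)) n := by
    rw [ArithmeticFunction.coe_mul_zeta_apply]
    exact Finset.sum_congr rfl fun k _ => Jc_eq w k
  rw [h1, mul_comm _ (pwc w), mul_assoc, ArithmeticFunction.coe_moebius_mul_coe_zeta, mul_one,
    pwc_apply w (by omega)]

lemma Jc_prime_pow (w : ℂ) (p k : ℕ) (hp : p.Prime) (hk : 1 ≤ k) :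
    Jc w (p ^ k) = ((p ^ k : ℕ) : ℂ) ^ w - ((p ^ (k - 1) : ℕ) : ℂ) ^ w := by
  obtain ⟨m, rfl⟩ : ∃ m, k = m + 1 := ⟨k - 1, by omega⟩
  unfold Jc
  rw [Nat.sum_divisors_prime_pow hp, Finset.sum_range_succ, Finset.sum_range_succ]
  have h0 : ∑ i ∈ Finset.range m, ((ArithmeticFunction.moebius (p ^ (m + 1) / p ^ i) : ℤ) : ℂ) *
      ((p ^ i : ℕ) : ℂ) ^ w = 0 := by
    refine Finset.sum_eq_zero fun i hi => ?_
    have hi' := Finset.mem_range.1 hi
    rw [Nat.pow_div (by omega) hp.pos]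
    have h2 : ArithmeticFunction.moebius (p ^ (m + 1 - i)) = 0 := by
      rw [ArithmeticFunction.moebius_apply_prime_pow hp (by omega), if_neg (by omega)]
    rw [h2]
    simp
  rw [h0, Nat.pow_div (by omega) hp.pos, Nat.pow_div (by omega) hp.pos]
  have e1 : m + 1 - m = 1 := by omega
  have e2 : m + 1 - (m + 1) = 0 := by omega
  have e3 : m + 1 - 1 = m := by omega
  rw [e1, e2, e3, pow_one, pow_zero, ArithmeticFunction.moebius_apply_prime hp,
    ArithmeticFunction.moebius_apply_one]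
  push_cast
  ring

lemma Jc_bd (w : ℂ) (hw : 1 ≤ w.re) (n : ℕ) (hn : 1 ≤ n) :
    ‖Jc w n‖ ≤ (n : ℝ) ^ w.re * (n / (Nat.totient n : ℝ)) := by
  refine (mult_le_aux (fun n => ‖Jc w n‖) (fun n => (n : ℝ) ^ w.re * (n / (Nat.totient n : ℝ)))
    ?_ ?_ ?_ ?_ ?_ n hn).2
  · have h := Jc_sum w 1 le_rfl
    simp only [Nat.divisors_one, Finset.sum_singleton, Nat.cast_one, Complex.one_cpow] at h
    simp only [h, norm_one]
  · simp
  · intro m n h
    simp only [Jc_mul w m n h, norm_mul]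
  · intro m n h
    rw [Nat.totient_mul h]
    push_cast
    rw [Real.mul_rpow (Nat.cast_nonneg _) (Nat.cast_nonneg _), mul_div_mul_comm]
    ring
  · intro p k hp hk
    refine ⟨norm_nonneg _, ?_⟩
    have hp1 : (1 : ℝ) < p := by exact_mod_cast hp.one_lt
    have hp0 : (0 : ℝ) < p := by linarith
    rw [Jc_prime_pow w p k hp hk]
    refine (norm_sub_le _ _).trans ?_
    rw [Complex.norm_natCast_cpow_of_pos (pow_pos hp.pos _),
      Complex.norm_natCast_cpow_of_pos (pow_pos hp.pos _), Nat.totient_prime_pow hp hk]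
    have h5 : (((p ^ k : ℕ)) : ℝ) / ((p ^ (k - 1) * (p - 1) : ℕ) : ℝ) = p / (p - 1) := by
      have e : p ^ k = p ^ (k - 1) * p := by
        rw [← pow_succ]; congr 1; omega
      rw [e]
      push_cast [Nat.cast_sub hp.one_lt.le]
      have h6 : ((p : ℝ) ^ (k - 1)) ≠ 0 := by positivity
      rw [mul_div_mul_left _ _ h6]
    rw [h5]
    have e : p ^ k = p ^ (k - 1) * p := by
      rw [← pow_succ]; congr 1; omega
    have h7 : ((p ^ k : ℕ) : ℝ) ^ w.re = ((p ^ (k - 1) : ℕ) : ℝ) ^ w.re * (p : ℝ) ^ w.re := by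
      rw [e, Nat.cast_mul, Real.mul_rpow (Nat.cast_nonneg _) (Nat.cast_nonneg _)]
    rw [h7]
    have h8 : (p : ℝ) ≤ (p : ℝ) ^ w.re := by
      calc (p : ℝ) = (p : ℝ) ^ (1 : ℝ) := (Real.rpow_one _).symm
        _ ≤ (p : ℝ) ^ w.re := Real.rpow_le_rpow_of_exponent_le hp1.le hw
    have h9 : 0 ≤ ((p ^ (k - 1) : ℕ) : ℝ) ^ w.re := by positivity
    have h10 : (p : ℝ) ^ w.re + 1 ≤ (p : ℝ) ^ w.re * (p / (p - 1)) := by
      rw [mul_div_assoc', le_div_iff₀ (by linarith)]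
      nlinarith
    calc ((p ^ (k - 1) : ℕ) : ℝ) ^ w.re * (p : ℝ) ^ w.re + ((p ^ (k - 1) : ℕ) : ℝ) ^ w.re
        = ((p ^ (k - 1) : ℕ) : ℝ) ^ w.re * ((p : ℝ) ^ w.re + 1) := by ring
      _ ≤ ((p ^ (k - 1) : ℕ) : ℝ) ^ w.re * ((p : ℝ) ^ w.re * (p / (p - 1))) :=
          mul_le_mul_of_nonneg_left h10 h9
      _ = _ := by ring

theorem jc : ∀ (w : ℂ) (n : ℕ), 1 ≤ n → ∑ k ∈ n.divisors, Jc w k = (n : ℂ) ^ w ∧
  (1 ≤ w.re → ‖Jc w n‖ ≤ (n : ℝ) ^ w.re * (n / (Nat.totient n : ℝ))) := by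
  intro w n hn
  exact ⟨Jc_sum w n hn, fun hw => Jc_bd w hw n hn⟩


end Pool.Agent.Helper647.SG.JJC

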