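import Mathlib

set_option autoImplicit false

namespace Pool.Agent.Helper647.SG.JMS

open Complex Filter Topology MeasureTheory Set

/-- `s = 1/L - i τ` -/
noncomputable def sL (L τ : ℝ) : ℂ := ((1 / L : ℝ) : ℂ) - I * τ

/-- the triples `(n, μ, ν)` -/
noncomputable def tri (N Y : ℕ) : Finset (ℕ × ℕ × ℕ) := Finset.Icc 1 N ×ˢ (Finset.Icc 1 Y ×ˢ Finset.Icc 1 Y)

/-- the frequency -/
noncomputable def lm (p : ℕ × ℕ × ℕ) : ℝ := Real.log (p.1 * p.2.1 / p.2.2)

/-- the coefficient -/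
noncomputable def cf (β : ℕ → ℝ) (p : ℕ × ℕ × ℕ) : ℝ := β p.2.1 * β p.2.2 / Real.sqrt (p.1 * p.2.1 * p.2.2)

open Classical in
/-- the mass at the frequencies in `W` -/
noncomputable def mass (N Y : ℕ) (β : ℕ → ℝ) (W : Set ℝ) : ℝ :=
  ∑ p ∈ tri N Y, ∑ p' ∈ tri N Y, if lm p = lm p' then
    (if lm p ∈ W then cf β p else 0) * (if lm p' ∈ W then cf β p' else 0) else 0

/-- the full sum with a damping factor -/
noncomputable def Gn (s : ℂ) (β : ℕ → ℝ) (N Y : ℕ) : ℂ :=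
  ∑ p ∈ tri N Y, ∑ p' ∈ tri N Y, if lm p = lm p' then ((cf β p * cf β p' : ℝ) : ℂ) * cexp (-(s * lm p)) else 0

open Classical in
theorem SF_nonneg (N Y : ℕ) (β : ℕ → ℝ) (K : ℝ → ℝ) (hK : ∀ x, 0 ≤ K x) :
    0 ≤ ∑ p ∈ tri N Y, ∑ p' ∈ tri N Y,
      (if lm p = lm p' then K (lm p) * (cf β p * cf β p') else 0) := by
  rw [← Finset.sum_fiberwise_of_maps_to (s := tri N Y) (t := (tri N Y).image lm) (g := lm)
    (fun p hp => Finset.mem_image_of_mem _ hp)]
  refine Finset.sum_nonneg fun q _ => ?_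
  have : ∑ p ∈ (tri N Y).filter (fun p => lm p = q), ∑ p' ∈ tri N Y,
      (if lm p = lm p' then K (lm p) * (cf β p * cf β p') else 0) =
      K q * (∑ p ∈ (tri N Y).filter (fun p => lm p = q), cf β p) ^ 2 := by
    rw [sq, Finset.sum_mul_sum, Finset.mul_sum]
    refine Finset.sum_congr rfl fun p hp => ?_
    rw [Finset.mem_filter] at hp
    rw [hp.2, Finset.mul_sum, ← Finset.sum_filter]
    have : (tri N Y).filter (fun p' => q = lm p') = (tri N Y).filter (fun p' => lm p' = q) := by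
      ext p'; simp [eq_comm]
    rw [this]
  rw [this]
  exact mul_nonneg (hK q) (sq_nonneg _)

open Classical in
theorem mass_eq (N Y : ℕ) (β : ℕ → ℝ) (W : Set ℝ) :
    mass N Y β W = ∑ p ∈ tri N Y, ∑ p' ∈ tri N Y,
      (if lm p = lm p' then (if lm p ∈ W then (1 : ℝ) else 0) * (cf β p * cf β p') else 0) := by
  unfold mass
  refine Finset.sum_congr rfl fun p _ => Finset.sum_congr rfl fun p' _ => ?_
  split_ifs with h1 h2 h3 h3
  · ring
  · rw [h1] at h2; exact absurd h2 h3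
  · rw [← h1] at h3; exact absurd h3 h2
  · ring
  · rfl

theorem lm_gt {N Y : ℕ} {B : ℝ} (hN : Real.exp B * Y ≤ N) {n μ ν : ℕ} (hn : N < n) (hμ : 1 ≤ μ)
    (hν : 1 ≤ ν) (hνY : ν ≤ Y) : B < lm (n, μ, ν) := by
  unfold lm
  simp only
  have hν' : (0 : ℝ) < ν := by exact_mod_cast hν
  have hμ' : (1 : ℝ) ≤ μ := by exact_mod_cast hμ
  have hY' : (ν : ℝ) ≤ Y := by exact_mod_cast hνY
  have hn' : (N : ℝ) < n := by exact_mod_cast hn
  have hn0 : (0 : ℝ) < n := lt_of_le_of_lt (Nat.cast_nonneg _) hn'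
  rw [Real.lt_log_iff_exp_lt (by positivity)]
  rw [lt_div_iff₀ hν']
  have h1 : Real.exp B * ν ≤ Real.exp B * Y := mul_le_mul_of_nonneg_left hY' (Real.exp_pos _).le
  have h2 : (n : ℝ) ≤ n * μ := by nlinarith
  linarith

theorem mass_mono {N N' Y : ℕ} (β : ℕ → ℝ) (W : Set ℝ) {B : ℝ} (hW : ∀ x ∈ W, x ≤ B)
    (hN : Real.exp B * Y ≤ N) (hNN : N ≤ N') : mass N Y β W = mass N' Y β W := by
  classical
  rw [mass_eq, mass_eq]
  have hsub : tri N Y ⊆ tri N' Y := by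
    unfold tri
    exact Finset.product_subset_product (Finset.Icc_subset_Icc le_rfl hNN) (Finset.Subset.refl _)
  have hout : ∀ p ∈ tri N' Y, p ∉ tri N Y → lm p ∉ W := by
    rintro ⟨n, μ, ν⟩ hp hp' hW'
    simp only [tri, Finset.mem_product, Finset.mem_Icc] at hp hp'
    have hn : N < n := by
      by_contra h
      exact hp' ⟨⟨hp.1.1, by omega⟩, hp.2⟩
    exact absurd (hW _ hW') (not_le.2 (lm_gt hN hn hp.2.1.1 hp.2.2.1 hp.2.2.2))
  have hinner : ∀ p, ∑ p' ∈ tri N Y,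
      (if lm p = lm p' then (if lm p ∈ W then (1 : ℝ) else 0) * (cf β p * cf β p') else 0) =
      ∑ p' ∈ tri N' Y,
      (if lm p = lm p' then (if lm p ∈ W then (1 : ℝ) else 0) * (cf β p * cf β p') else 0) := by
    intro p
    refine Finset.sum_subset hsub fun p' hp' hp'' => ?_
    have := hout p' hp' hp''
    split_ifs with h1 h2
    · rw [h1] at h2; exact absurd h2 this
    · simp
    · rfl
  simp only [hinner]
  refine Finset.sum_subset hsub fun p hp' hp'' => ?_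
  have := hout p hp' hp''
  refine Finset.sum_eq_zero fun p' _ => ?_
  rw [if_neg this]
  simp

theorem norm_sq_sum (J : ℕ) (a : ℝ) :
    ((‖∑ j ∈ Finset.range J, cexp (I * ((j * a : ℝ) : ℂ))‖ ^ 2 : ℝ) : ℂ) =
    ∑ i ∈ Finset.range J, ∑ j ∈ Finset.range J, cexp (I * (((((i : ℝ) - j)) * a : ℝ) : ℂ)) := by
  rw [← Complex.normSq_eq_norm_sq, ← Complex.mul_conj, map_sum, Finset.sum_mul_sum]
  refine Finset.sum_congr rfl fun i _ => Finset.sum_congr rfl fun j _ => ?_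
  rw [← Complex.exp_conj, ← Complex.exp_add]
  congr 1
  rw [map_mul, Complex.conj_I, Complex.conj_ofReal]
  push_cast
  ring

/-- TASK -/
theorem mass_le : ∀ (N Y : ℕ) (β : ℕ → ℝ) (W : Set ℝ) (B L δ ω : ℝ) (J : ℕ) (G : ℝ → ℂ), 0 < L → 1 ≤ J →
  (∀ x ∈ W, x ≤ B) → Real.exp B * Y ≤ N →
  (∀ x ∈ W, 1 / 2 ≤ ‖(1 / (J : ℂ)) * ∑ j ∈ Finset.range J, cexp (I * ((j * δ * (x - ω) : ℝ) : ℂ))‖ ^ 2) →
  (∀ τ : ℝ, Tendsto (fun N : ℕ => Gn (sL L τ) β N Y) atTop (𝓝 (G τ))) →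
  mass N Y β W ≤ 2 * Real.exp (B / L) / (J : ℝ) ^ 2 *
    ∑ i ∈ Finset.range J, ∑ j ∈ Finset.range J, ‖G (((i : ℝ) - j) * δ)‖ := by
  classical
  intro N Y β W B L δ ω J G hL hJ hW hN hhalf hG
  have hJ0 : (J : ℝ) ≠ 0 := by positivity
  have hJ0' : (J : ℂ) ≠ 0 := by exact_mod_cast hJ0
  set h : ℝ → ℝ := fun x => 2 * Real.exp ((B - x) / L) *
    ‖(1 / (J : ℂ)) * ∑ j ∈ Finset.range J, cexp (I * ((j * δ * (x - ω) : ℝ) : ℂ))‖ ^ 2 with hh
  have hle : ∀ x, (if x ∈ W then (1 : ℝ) else 0) ≤ h x := by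
    intro x
    split_ifs with hx
    · have h1 := hhalf x hx
      have h2 : 1 ≤ Real.exp ((B - x) / L) :=
        Real.one_le_exp (div_nonneg (sub_nonneg.2 (hW x hx)) hL.le)
      simp only [hh]
      nlinarith
    · simp only [hh]; positivity
  -- the complex identity
  set Z : ℕ → ℂ := fun N' => ((2 * Real.exp (B / L) / (J : ℝ) ^ 2 : ℝ) : ℂ) *
    ∑ i ∈ Finset.range J, ∑ j ∈ Finset.range J,
      cexp (-(I * ((((i : ℝ) - j) * δ * ω : ℝ) : ℂ))) * Gn (sL L (((i : ℝ) - j) * δ)) β N' Y with hZ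
  have hhx : ∀ x : ℝ, ((h x : ℝ) : ℂ) = ((2 * Real.exp (B / L) / (J : ℝ) ^ 2 : ℝ) : ℂ) *
    ∑ i ∈ Finset.range J, ∑ j ∈ Finset.range J,
      cexp (-(I * ((((i : ℝ) - j) * δ * ω : ℝ) : ℂ))) * cexp (-(sL L (((i : ℝ) - j) * δ) * x)) := by
    intro x
    have e1 : h x = 2 * Real.exp (B / L) / (J : ℝ) ^ 2 * (Real.exp (-(x / L)) *
        ‖∑ j ∈ Finset.range J, cexp (I * ((j * (δ * (x - ω)) : ℝ) : ℂ))‖ ^ 2) := by
      simp only [hh]
      rw [norm_mul, mul_pow]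
      have : ‖(1 / (J : ℂ))‖ ^ 2 = 1 / (J : ℝ) ^ 2 := by
        rw [norm_div, norm_one, Complex.norm_natCast, div_pow, one_pow]
      rw [this]
      have e2 : Real.exp ((B - x) / L) = Real.exp (B / L) * Real.exp (-(x / L)) := by
        rw [← Real.exp_add]; congr 1; field_simp; ring
      rw [e2]
      simp only [mul_assoc]
      ring
    rw [e1]
    push_cast
    have e3 := norm_sq_sum J (δ * (x - ω))
    push_cast at e3
    rw [e3]
    congr 1
    rw [Finset.mul_sum]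
    refine Finset.sum_congr rfl fun i _ => ?_
    rw [Finset.mul_sum]
    refine Finset.sum_congr rfl fun j _ => ?_
    rw [← Complex.exp_add, ← Complex.exp_add]
    congr 1
    unfold sL
    push_cast
    ring
  have hSh : ∀ N', ((∑ p ∈ tri N' Y, ∑ p' ∈ tri N' Y,
      (if lm p = lm p' then h (lm p) * (cf β p * cf β p') else 0) : ℝ) : ℂ) = Z N' := by
    intro N'
    simp only [hZ, Gn]
    push_cast
    have : ∀ i j : ℕ, cexp (-(I * ((((i : ℝ) - j) * δ * ω : ℝ) : ℂ))) *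
        (∑ p ∈ tri N' Y, ∑ p' ∈ tri N' Y, if lm p = lm p' then
          ((cf β p * cf β p' : ℝ) : ℂ) * cexp (-(sL L (((i : ℝ) - j) * δ) * lm p)) else 0) =
        ∑ p ∈ tri N' Y, ∑ p' ∈ tri N' Y, if lm p = lm p' then
          (cexp (-(I * ((((i : ℝ) - j) * δ * ω : ℝ) : ℂ))) *
            cexp (-(sL L (((i : ℝ) - j) * δ) * lm p))) * ((cf β p * cf β p' : ℝ) : ℂ) else 0 := by
      intro i j
      rw [Finset.mul_sum]
      refine Finset.sum_congr rfl fun p _ => ?_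
      rw [Finset.mul_sum]
      refine Finset.sum_congr rfl fun p' _ => ?_
      split_ifs
      · ring
      · simp
    push_cast at this
    simp only [this]
    have sw : ∀ (g : ℕ → ℕ → (ℕ × ℕ × ℕ) → (ℕ × ℕ × ℕ) → ℂ),
        ∑ i ∈ Finset.range J, ∑ j ∈ Finset.range J, ∑ p ∈ tri N' Y, ∑ p' ∈ tri N' Y, g i j p p' =
        ∑ p ∈ tri N' Y, ∑ p' ∈ tri N' Y, ∑ i ∈ Finset.range J, ∑ j ∈ Finset.range J, g i j p p' := by
      intro g
      calc _ = ∑ i ∈ Finset.range J, ∑ p ∈ tri N' Y, ∑ j ∈ Finset.range J, ∑ p' ∈ tri N' Y,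
            g i j p p' := Finset.sum_congr rfl fun i _ => Finset.sum_comm
        _ = ∑ i ∈ Finset.range J, ∑ p ∈ tri N' Y, ∑ p' ∈ tri N' Y, ∑ j ∈ Finset.range J,
            g i j p p' := Finset.sum_congr rfl fun i _ => Finset.sum_congr rfl fun p _ =>
              Finset.sum_comm
        _ = ∑ p ∈ tri N' Y, ∑ i ∈ Finset.range J, ∑ p' ∈ tri N' Y, ∑ j ∈ Finset.range J,
            g i j p p' := Finset.sum_comm
        _ = _ := Finset.sum_congr rfl fun p _ => Finset.sum_comm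
    rw [sw, Finset.mul_sum]
    refine Finset.sum_congr rfl fun p _ => ?_
    rw [Finset.mul_sum]
    refine Finset.sum_congr rfl fun p' _ => ?_
    split_ifs with hp
    · have h5 := hhx (lm p)
      have h6 : ∀ (a b c : ℝ), ((a * (b * c) : ℝ) : ℂ) = (a : ℂ) * ((b : ℂ) * (c : ℂ)) := by
        intro a b c
        rw [Complex.ofReal_mul, Complex.ofReal_mul]
      rw [h6, h5]
      simp only [← Finset.sum_mul]
      push_cast
      ring
    · simp
  have hbound : ∀ N', N ≤ N' → mass N Y β W ≤ ‖Z N'‖ := by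
    intro N' hNN
    rw [mass_mono β W hW hN hNN, mass_eq]
    have h1 := SF_nonneg N' Y β (fun x => h x - (if x ∈ W then (1 : ℝ) else 0))
      (fun x => sub_nonneg.2 (hle x))
    have h2 : ∑ p ∈ tri N' Y, ∑ p' ∈ tri N' Y,
        (if lm p = lm p' then (h (lm p) - (if lm p ∈ W then (1 : ℝ) else 0)) *
          (cf β p * cf β p') else 0) =
        ∑ p ∈ tri N' Y, ∑ p' ∈ tri N' Y,
          (if lm p = lm p' then h (lm p) * (cf β p * cf β p') else 0) -
        ∑ p ∈ tri N' Y, ∑ p' ∈ tri N' Y,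
          (if lm p = lm p' then (if lm p ∈ W then (1 : ℝ) else 0) * (cf β p * cf β p') else 0) := by
      rw [← Finset.sum_sub_distrib]
      refine Finset.sum_congr rfl fun p _ => ?_
      rw [← Finset.sum_sub_distrib]
      refine Finset.sum_congr rfl fun p' _ => ?_
      by_cases hp : lm p = lm p'
      · rw [if_pos hp, if_pos hp, if_pos hp]; ring
      · rw [if_neg hp, if_neg hp, if_neg hp]; ring
    rw [h2] at h1
    have h3 : ∑ p ∈ tri N' Y, ∑ p' ∈ tri N' Y,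
          (if lm p = lm p' then h (lm p) * (cf β p * cf β p') else 0) ≤ ‖Z N'‖ := by
      rw [← hSh N', Complex.norm_real]
      exact le_abs_self _
    linarith
  have hlim : Tendsto (fun N' => ‖Z N'‖) atTop (𝓝 ‖((2 * Real.exp (B / L) / (J : ℝ) ^ 2 : ℝ) : ℂ) *
    ∑ i ∈ Finset.range J, ∑ j ∈ Finset.range J,
      cexp (-(I * ((((i : ℝ) - j) * δ * ω : ℝ) : ℂ))) * G (((i : ℝ) - j) * δ)‖) := by
    refine Tendsto.norm ?_
    refine Tendsto.const_mul _ ?_
    refine tendsto_finsetSum _ fun i _ => tendsto_finsetSum _ fun j _ => ?_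
    exact Tendsto.const_mul _ (hG _)
  have hfin : mass N Y β W ≤ ‖((2 * Real.exp (B / L) / (J : ℝ) ^ 2 : ℝ) : ℂ) *
    ∑ i ∈ Finset.range J, ∑ j ∈ Finset.range J,
      cexp (-(I * ((((i : ℝ) - j) * δ * ω : ℝ) : ℂ))) * G (((i : ℝ) - j) * δ)‖ := by
    refine ge_of_tendsto hlim ?_
    filter_upwards [eventually_ge_atTop N] with N' hN' using hbound N' hN'
  refine hfin.trans ?_
  rw [norm_mul, Complex.norm_real, Real.norm_of_nonneg (by positivity)]
  refine mul_le_mul_of_nonneg_left ?_ (by positivity)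
  refine (norm_sum_le _ _).trans (Finset.sum_le_sum fun i _ => (norm_sum_le _ _).trans
    (Finset.sum_le_sum fun j _ => ?_))
  rw [norm_mul]
  have : ‖cexp (-(I * ((((i : ℝ) - j) * δ * ω : ℝ) : ℂ)))‖ = 1 := by
    rw [Complex.norm_exp]
    simp
  rw [this, one_mul]

end Pool.Agent.Helper647.SG.JMS
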