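import Mathlib

set_option autoImplicit false

namespace Pool.Agent.Helper647.SG.JQB

open Complex Filter Topology MeasureTheory Set

/-- Selberg's coefficients on squarefree numbers -/
noncomputable def al (n : ℕ) : ℝ := if Squarefree n then (-1 / 2 : ℝ) ^ n.primeFactors.card else 0

/-- the Dirichlet series of `al` over the integers prime to `k` -/
noncomputable def Q (z : ℂ) (k : ℕ) : ℂ :=
  ∑' m : ℕ, if m.Coprime k then ((al m : ℝ) : ℂ) * (m : ℂ) ^ (-(1 + z)) else 0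

theorem q_bound_prod (a : ℕ → ℂ) (c : ℂ) (ha1 : a 1 = 1) (ha0 : a 0 = 0)
    (hamul : ∀ m n : ℕ, m.Coprime n → a (m * n) = a m * a n)
    (hap : ∀ p : ℕ, p.Prime → a p = c)
    (hape : ∀ p : ℕ, p.Prime → ∀ e : ℕ, 2 ≤ e → a (p ^ e) = 0)
    (hab : ∀ n, ‖a n‖ ≤ 1) (s : ℂ) (hs : 1 < s.re) (k : ℕ) :
    HasProd (fun p : Nat.Primes => 1 + c * (if (p : ℕ).Coprime k then ((p : ℕ) : ℂ) ^ (-s) else 0))
      (∑' n : ℕ, if n.Coprime k then a n * (n : ℂ) ^ (-s) else 0) := by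
  set f : ℕ → ℂ := fun n => if n.Coprime k then a n * (n : ℂ) ^ (-s) else 0 with hf
  have h1 : f 1 = 1 := by simp [hf, ha1]
  have h0 : f 0 = 0 := by simp [hf, ha0]
  have hmul : ∀ {m n : ℕ}, Nat.Coprime m n → f (m * n) = f m * f n := by
    intro m n hmn
    simp only [hf]
    by_cases hm : m.Coprime k
    · by_cases hn : n.Coprime k
      · rw [if_pos (Nat.coprime_mul_iff_left.2 ⟨hm, hn⟩), if_pos hm, if_pos hn, hamul m n hmn]
        rw [Nat.cast_mul, Complex.natCast_mul_natCast_cpow]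
        ring
      · rw [if_neg (fun h => hn (Nat.coprime_mul_iff_left.1 h).2), if_neg hn, mul_zero]
    · rw [if_neg (fun h => hm (Nat.coprime_mul_iff_left.1 h).1), if_neg hm, zero_mul]
  have hsum : Summable (fun n => ‖f n‖) := by
    apply Summable.of_nonneg_of_le (fun _ => norm_nonneg _) (f := fun n : ℕ => 1 / (n : ℝ) ^ s.re)
    · intro n
      rcases Nat.eq_zero_or_pos n with rfl | hn
      · rw [h0, norm_zero]; positivity
      · simp only [hf]
        split_ifs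
        · rw [norm_mul, Complex.norm_natCast_cpow_of_pos hn, Complex.neg_re,
            Real.rpow_neg (by positivity), one_div]
          have : (0:ℝ) ≤ ((n : ℝ) ^ s.re)⁻¹ := by positivity
          nlinarith [hab n]
        · rw [norm_zero]; positivity
    · exact Real.summable_one_div_nat_rpow.2 hs
  have key := EulerProduct.eulerProduct_hasProd h1 hmul hsum h0
  convert key using 2 with p
  have hp := p.2
  have hz : ∀ e ∉ Finset.range 2, f ((p : ℕ) ^ e) = 0 := by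
    intro e he
    have he2 : 2 ≤ e := by
      rw [Finset.mem_range] at he
      omega
    simp only [hf]
    rw [hape p hp e he2]
    simp
  rw [tsum_eq_sum hz]
  rw [Finset.sum_range_succ, Finset.sum_range_succ, Finset.sum_range_zero, zero_add, pow_zero, h1,
    pow_one]
  simp only [hf]
  rw [hap p hp]
  split_ifs
  · rfl
  · simp

theorem q_bound_loc (x : ℂ) (hx : ‖x‖ ≤ 1 / 2) :
    ‖1 + (-1 / 2) * x‖ ^ 2 ≤ ‖1 + (-1) * x‖ * Real.exp (‖x‖ ^ 2 / 2) := by
  have e1 : ‖1 + (-1 / 2) * x‖ ^ 2 = ‖(1 + (-1) * x) + x ^ 2 / 4‖ := by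
    rw [← norm_pow]
    congr 1
    ring
  have e2 : ‖(1 + (-1) * x) + x ^ 2 / 4‖ ≤ ‖1 + (-1) * x‖ + ‖x‖ ^ 2 / 4 := by
    refine (norm_add_le _ _).trans ?_
    rw [norm_div, norm_pow]
    simp
  have e3 : 1 / 2 ≤ ‖1 + (-1) * x‖ := by
    have h := norm_sub_norm_le (1 : ℂ) x
    have h2 : (1 : ℂ) - x = 1 + (-1) * x := by ring
    rw [h2, norm_one] at h
    linarith
  have e4 := Real.add_one_le_exp (‖x‖ ^ 2 / 2)
  rw [e1]
  refine e2.trans ?_
  have e5 : 0 ≤ ‖x‖ ^ 2 := by positivity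
  nlinarith

theorem q_bound_al_one : al 1 = 1 := by simp [al]

theorem q_bound_al_zero : al 0 = 0 := by simp [al]

theorem q_bound_al_mul (m n : ℕ) (h : m.Coprime n) : al (m * n) = al m * al n := by
  simp only [al]
  by_cases hm : Squarefree m
  · by_cases hn : Squarefree n
    · rw [if_pos ((Nat.squarefree_mul h).2 ⟨hm, hn⟩), if_pos hm, if_pos hn, h.primeFactors_mul,
        Finset.card_union_of_disjoint h.disjoint_primeFactors, pow_add]
    · rw [if_neg (fun h' => hn ((Nat.squarefree_mul h).1 h').2), if_neg hn, mul_zero]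
  · rw [if_neg (fun h' => hm ((Nat.squarefree_mul h).1 h').1), if_neg hm, zero_mul]

theorem q_bound_al_prime (p : ℕ) (hp : p.Prime) : al p = -1 / 2 := by
  simp only [al]
  rw [if_pos hp.squarefree, hp.primeFactors]
  simp

theorem q_bound_al_pow (p : ℕ) (hp : p.Prime) (e : ℕ) (he : 2 ≤ e) : al (p ^ e) = 0 := by
  simp only [al]
  rw [if_neg]
  rw [Nat.squarefree_pow_iff hp.ne_one (by omega)]
  omega

theorem q_bound_al_le (n : ℕ) : ‖((al n : ℝ) : ℂ)‖ ≤ 1 := by
  rw [Complex.norm_real]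
  simp only [al]
  split_ifs
  · rw [norm_pow]
    apply pow_le_one₀ (norm_nonneg _)
    norm_num
  · simp


theorem q_bound_zeta (s : ℂ) (hs : 1 < s.re) (w : ℂ)
    (h : HasProd (fun p : Nat.Primes => 1 + (-1) * ((p : ℕ) : ℂ) ^ (-s)) w) :
    w = (riemannZeta s)⁻¹ := by
  have h1 := riemannZeta_eulerProduct_hasProd hs
  have h2 := h1.mul h
  have h3 : HasProd (fun _ : Nat.Primes => (1 : ℂ)) (riemannZeta s * w) := by
    convert h2 using 2 with p
    have hp : 1 < (p : ℕ) := p.2.one_lt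
    have hne : (1 : ℂ) - ((p : ℕ) : ℂ) ^ (-s) ≠ 0 := by
      intro h0
      have h4 : ((p : ℕ) : ℂ) ^ (-s) = 1 := by linear_combination -h0
      have h5 : ‖((p : ℕ) : ℂ) ^ (-s)‖ < 1 := by
        rw [Complex.norm_natCast_cpow_of_pos (by omega), Complex.neg_re]
        exact Real.rpow_lt_one_of_one_lt_of_neg (by exact_mod_cast hp) (by linarith)
      rw [h4, norm_one] at h5
      exact lt_irrefl _ h5
    have h6 : (1 : ℂ) + (-1) * ((p : ℕ) : ℂ) ^ (-s) = 1 - ((p : ℕ) : ℂ) ^ (-s) := by ring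
    rw [h6, inv_mul_cancel₀ hne]
  have h4 : riemannZeta s * w = 1 := h3.unique hasProd_one
  exact eq_inv_of_mul_eq_one_right h4

theorem q_bound_tot (k : ℕ) (hk : 1 ≤ k) :
    ∏ p ∈ k.primeFactors, (1 - 1 / (p : ℝ)) = (Nat.totient k : ℝ) / k := by
  have h := Nat.totient_eq_mul_prod_factors k
  have h2 : (Nat.totient k : ℝ) = k * ∏ p ∈ k.primeFactors, (1 - (p : ℝ)⁻¹) := by
    have h3 : (((Nat.totient k : ℕ) : ℚ) : ℝ) = ((k * ∏ p ∈ k.primeFactors, (1 - (p : ℚ)⁻¹) : ℚ) : ℝ) := by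
      rw [h]
    push_cast at h3
    exact h3
  have hk0 : (k : ℝ) ≠ 0 := by
    have : 0 < k := hk
    positivity
  rw [h2, mul_div_cancel_left₀ _ hk0]
  apply Finset.prod_congr rfl
  intro p _
  rw [one_div]

theorem q_bound_low (s : ℂ) (hs : 1 < s.re) (p : ℕ) (hp : p.Prime) :
    1 - 1 / (p : ℝ) ≤ ‖1 + (-1) * (p : ℂ) ^ (-s)‖ := by
  have hp0 : 0 < p := hp.pos
  have hp1 : (1 : ℝ) ≤ p := by exact_mod_cast hp.one_le
  have h1 : ‖(p : ℂ) ^ (-s)‖ ≤ 1 / (p : ℝ) := by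
    rw [Complex.norm_natCast_cpow_of_pos hp0, Complex.neg_re, Real.rpow_neg (by positivity), one_div]
    apply inv_anti₀ (by positivity)
    calc (p : ℝ) = (p : ℝ) ^ (1 : ℝ) := by rw [Real.rpow_one]
      _ ≤ (p : ℝ) ^ s.re := Real.rpow_le_rpow_of_exponent_le hp1 hs.le
  have h := norm_sub_norm_le (1 : ℂ) ((p : ℂ) ^ (-s))
  have h2 : (1 : ℂ) - (p : ℂ) ^ (-s) = 1 + (-1) * (p : ℂ) ^ (-s) := by ring
  rw [h2, norm_one] at h
  linarith

theorem q_bound_fin (s : ℂ) (hs : 1 < s.re) (k : ℕ) (hk : 1 ≤ k) (A : Finset Nat.Primes)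
    (hA : ∀ p : Nat.Primes, (p : ℕ) ∣ k → p ∈ A) :
    ‖∏ p ∈ A, (1 + (-1) * (if (p : ℕ).Coprime k then ((p : ℕ) : ℂ) ^ (-s) else 0))‖ *
      ((Nat.totient k : ℝ) / k) ≤ ‖∏ p ∈ A, (1 + (-1) * ((p : ℕ) : ℂ) ^ (-s))‖ := by
  classical
  rw [norm_prod, norm_prod, ← q_bound_tot k hk]
  have hpf : ∏ p ∈ k.primeFactors, (1 - 1 / (p : ℝ))
      = ∏ p ∈ A, (if (p : ℕ).Coprime k then (1 : ℝ) else 1 - 1 / ((p : ℕ) : ℝ)) := by
    rw [← Finset.prod_filter_mul_prod_filter_not A (fun p : Nat.Primes => (p : ℕ).Coprime k)]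
    have e1 : ∏ p ∈ A.filter (fun p : Nat.Primes => (p : ℕ).Coprime k), (if (p : ℕ).Coprime k then (1 : ℝ) else 1 - 1 / ((p : ℕ) : ℝ)) = 1 := by
      apply Finset.prod_eq_one
      intro p hp
      rw [if_pos (Finset.mem_filter.1 hp).2]
    rw [e1, one_mul]
    have e2 : ∏ p ∈ A.filter (fun p : Nat.Primes => ¬ (p : ℕ).Coprime k), (if (p : ℕ).Coprime k then (1 : ℝ) else 1 - 1 / ((p : ℕ) : ℝ))
        = ∏ p ∈ A.filter (fun p : Nat.Primes => ¬ (p : ℕ).Coprime k), (1 - 1 / ((p : ℕ) : ℝ)) := by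
      apply Finset.prod_congr rfl
      intro p hp
      rw [if_neg (Finset.mem_filter.1 hp).2]
    rw [e2]
    symm
    apply Finset.prod_bij (fun (p : Nat.Primes) _ => (p : ℕ))
    · intro p hp
      rw [Finset.mem_filter] at hp
      have : (p : ℕ) ∣ k := by
        by_contra hc
        exact hp.2 ((Nat.Prime.coprime_iff_not_dvd p.2).2 hc)
      exact Nat.mem_primeFactors.2 ⟨p.2, this, by omega⟩
    · intro p _ q _ h
      exact Subtype.ext h
    · intro q hq
      rw [Nat.mem_primeFactors] at hq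
      refine ⟨⟨q, hq.1⟩, ?_, rfl⟩
      refine Finset.mem_filter.2 ⟨hA ⟨q, hq.1⟩ hq.2.1, ?_⟩
      intro hc
      exact (Nat.Prime.coprime_iff_not_dvd hq.1).1 hc hq.2.1
    · intro p _
      rfl
  rw [hpf, ← Finset.prod_mul_distrib]
  apply Finset.prod_le_prod
  · intro p _
    apply mul_nonneg (norm_nonneg _)
    split_ifs
    · exact zero_le_one
    · have hp1 : (1 : ℝ) ≤ ((p : ℕ) : ℝ) := by exact_mod_cast p.2.one_le
      rw [sub_nonneg, div_le_one (by positivity)]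
      exact hp1
  · intro p _
    by_cases h : (p : ℕ).Coprime k
    · rw [if_pos h, if_pos h, mul_one]
    · rw [if_neg h, if_neg h, mul_zero, add_zero, norm_one, one_mul]
      exact q_bound_low s hs p p.2

/- TASK (helper647, project SG): prove this theorem (axioms propext, Classical.choice, Quot.sound only; helper lemmas welcome;
keep the statement, the definitions and the namespace).
PROOF. Put s = 1 + z. Q z k = ∏_{p ∤ k} (1 - p^{-s}/2) and 1/ζ(s) = ∏_p (1 - p^{-s}). For ‖x‖ ≤ 1/2, ‖1 - x/2‖^2 ≤ ‖1 - x‖ exp(c ‖x‖^2).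
So ‖Q z k‖^2 ≤ C ∏_{p ∤ k} ‖1 - p^{-s}‖ = C ‖1/ζ(s)‖ ∏_{p | k} ‖1 - p^{-s}‖^{-1} ≤ C ‖1/ζ(s)‖ ∏_{p|k} (1 - 1/p)^{-1} = C (k/φ(k)) ‖1/ζ(s)‖.
A very similar theorem is proved in Pool/Agent/Helper647_PT/Qb.lean on origin/main (theorems qbd_prod, qbd_loc, qbd; self-contained up to
the definition of al): copy what you need (finite partial products over sets of primes, then the limit). -/
theorem q_bound : ∃ C : ℝ, 0 < C ∧ ∀ (z : ℂ) (k : ℕ), 0 < z.re → 1 ≤ k →
    ‖Q z k‖ ^ 2 ≤ C * (k / (Nat.totient k : ℝ)) * ‖(riemannZeta (1 + z))⁻¹‖ := by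
  have hsq : Summable (fun p : Nat.Primes => 1 / ((p : ℕ) : ℝ) ^ 2) := by
    have h : Summable (fun n : ℕ => 1 / (n : ℝ) ^ 2) := Real.summable_one_div_nat_pow.2 one_lt_two
    exact h.comp_injective Subtype.val_injective
  set C1 : ℝ := Real.exp ((∑' p : Nat.Primes, 1 / ((p : ℕ) : ℝ) ^ 2) / 2) with hC1
  have hC1pos : 0 < C1 := Real.exp_pos _
  refine ⟨C1, hC1pos, ?_⟩
  intro z k hz hk
  set s : ℂ := 1 + z with hs
  have hs1 : 1 < s.re := by
    rw [hs, Complex.add_re, Complex.one_re]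
    linarith
  have P1 := q_bound_prod (fun n => ((al n : ℝ) : ℂ)) (-1 / 2) (by simp [q_bound_al_one])
    (by simp [q_bound_al_zero]) (fun m n h => by rw [q_bound_al_mul m n h]; push_cast; rfl)
    (fun p hp => by rw [q_bound_al_prime p hp]; push_cast; rfl)
    (fun p hp e he => by rw [q_bound_al_pow p hp e he]; simp) q_bound_al_le s hs1 k
  have P2 : ∀ j : ℕ, HasProd (fun p : Nat.Primes => 1 + (-1) *
      (if (p : ℕ).Coprime j then ((p : ℕ) : ℂ) ^ (-s) else 0)) (∑' n : ℕ, if n.Coprime j then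
        (ArithmeticFunction.moebius n : ℂ) * (n : ℂ) ^ (-s) else 0) := fun j =>
    q_bound_prod (fun n => (ArithmeticFunction.moebius n : ℂ)) (-1) (by simp)
    (by simp) (fun m n h => by
      rw [ArithmeticFunction.isMultiplicative_moebius.map_mul_of_coprime h]; push_cast; rfl)
    (fun p hp => by rw [ArithmeticFunction.moebius_apply_prime hp]; push_cast; rfl)
    (fun p hp e he => by
      rw [ArithmeticFunction.moebius_apply_prime_pow hp (by omega), if_neg (by omega)]; simp)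
    (fun n => by
      rw [Complex.norm_intCast]
      exact_mod_cast ArithmeticFunction.abs_moebius_le_one) s hs1 j
  set x : Nat.Primes → ℂ := fun p => if (p : ℕ).Coprime k then ((p : ℕ) : ℂ) ^ (-s) else 0 with hx
  have hxle : ∀ p : Nat.Primes, ‖x p‖ ≤ 1 / ((p : ℕ) : ℝ) := by
    intro p
    have hp : 0 < (p : ℕ) := p.2.pos
    have hp1 : (1:ℝ) ≤ (p : ℕ) := by exact_mod_cast hp
    simp only [hx]
    split_ifs
    · rw [Complex.norm_natCast_cpow_of_pos hp, Complex.neg_re, Real.rpow_neg (by positivity), one_div]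
      apply inv_anti₀ (by positivity)
      calc ((p : ℕ) : ℝ) = ((p : ℕ) : ℝ) ^ (1 : ℝ) := by rw [Real.rpow_one]
        _ ≤ ((p : ℕ) : ℝ) ^ s.re := Real.rpow_le_rpow_of_exponent_le hp1 hs1.le
    · rw [norm_zero]; positivity
  have hxh : ∀ p : Nat.Primes, ‖x p‖ ≤ 1 / 2 := by
    intro p
    refine (hxle p).trans ?_
    have : (2:ℝ) ≤ (p : ℕ) := by exact_mod_cast p.2.two_le
    exact one_div_le_one_div_of_le (by norm_num) this
  have hfin : ∀ A : Finset Nat.Primes, ‖∏ p ∈ A, (1 + (-1 / 2) * x p)‖ ^ 2 ≤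
      C1 * ‖∏ p ∈ A, (1 + (-1) * x p)‖ := by
    intro A
    rw [norm_prod, norm_prod, ← Finset.prod_pow]
    calc ∏ p ∈ A, ‖1 + (-1 / 2) * x p‖ ^ 2
        ≤ ∏ p ∈ A, (‖1 + (-1) * x p‖ * Real.exp (‖x p‖ ^ 2 / 2)) :=
          Finset.prod_le_prod (fun p _ => by positivity) (fun p _ => q_bound_loc _ (hxh p))
      _ = (∏ p ∈ A, ‖1 + (-1) * x p‖) * Real.exp (∑ p ∈ A, ‖x p‖ ^ 2 / 2) := by
          rw [Finset.prod_mul_distrib, Real.exp_sum]
      _ ≤ (∏ p ∈ A, ‖1 + (-1) * x p‖) * C1 := by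
          apply mul_le_mul_of_nonneg_left _ (Finset.prod_nonneg fun p _ => norm_nonneg _)
          rw [hC1]
          apply Real.exp_le_exp.2
          rw [← Finset.sum_div]
          apply div_le_div_of_nonneg_right _ (by norm_num)
          refine (Finset.sum_le_sum (fun p _ => ?_)).trans
            (hsq.sum_le_tsum A (fun p _ => by positivity))
          have h1 := hxle p
          have h2 := norm_nonneg (x p)
          calc ‖x p‖ ^ 2 ≤ (1 / ((p : ℕ) : ℝ)) ^ 2 := pow_le_pow_left₀ h2 h1 2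
            _ = 1 / ((p : ℕ) : ℝ) ^ 2 := by rw [div_pow, one_pow]
      _ = C1 * ∏ p ∈ A, ‖1 + (-1) * x p‖ := mul_comm _ _
  have hlim := le_of_tendsto_of_tendsto' (Tendsto.pow (Tendsto.norm P1) 2)
    (Tendsto.const_mul C1 (Tendsto.norm (P2 k))) hfin
  have P3 : HasProd (fun p : Nat.Primes => 1 + (-1) * ((p : ℕ) : ℂ) ^ (-s))
      (∑' n : ℕ, if n.Coprime 1 then
        (ArithmeticFunction.moebius n : ℂ) * (n : ℂ) ^ (-s) else 0) := by
    convert P2 1 using 2 with p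
    rw [if_pos (Nat.coprime_one_right _)]
  have hz := q_bound_zeta s hs1 _ P3
  rw [hz] at P3
  classical
  have hev : ∀ᶠ A : Finset Nat.Primes in atTop,
      ‖∏ p ∈ A, (1 + (-1) * (if (p : ℕ).Coprime k then ((p : ℕ) : ℂ) ^ (-s) else 0))‖ *
      ((Nat.totient k : ℝ) / k) ≤ ‖∏ p ∈ A, (1 + (-1) * ((p : ℕ) : ℂ) ^ (-s))‖ := by
    have hfinite : {p : Nat.Primes | (p : ℕ) ∣ k}.Finite := by
      apply Set.Finite.of_injOn (f := fun p : Nat.Primes => (p : ℕ)) (t := (k.divisors : Set ℕ))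
      · intro p hp
        simp only [Set.mem_ofPred_eq] at hp
        rw [Finset.mem_coe, Nat.mem_divisors]
        exact ⟨hp, by omega⟩
      · intro p _ q _ h
        exact Subtype.ext h
      · exact Finset.finite_toSet _
    filter_upwards [eventually_ge_atTop hfinite.toFinset] with A hA
    apply q_bound_fin s hs1 k hk A
    intro p hp
    exact hA (hfinite.mem_toFinset.2 hp)
  have hlim2 := le_of_tendsto_of_tendsto (Tendsto.mul_const ((Nat.totient k : ℝ) / k)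
    (Tendsto.norm (P2 k))) (Tendsto.norm P3) hev
  have htot : 0 < (Nat.totient k : ℝ) := by exact_mod_cast Nat.totient_pos.2 hk
  have hk0 : (0 : ℝ) < k := by exact_mod_cast hk
  have hM : ‖∑' n : ℕ, if n.Coprime k then
        (ArithmeticFunction.moebius n : ℂ) * (n : ℂ) ^ (-s) else 0‖ ≤
        (k / (Nat.totient k : ℝ)) * ‖(riemannZeta s)⁻¹‖ := by
    calc _ = (k / (Nat.totient k : ℝ)) * (‖∑' n : ℕ, if n.Coprime k then
        (ArithmeticFunction.moebius n : ℂ) * (n : ℂ) ^ (-s) else 0‖ * ((Nat.totient k : ℝ) / k)) := by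
          field_simp
      _ ≤ _ := mul_le_mul_of_nonneg_left hlim2 (by positivity)
  have hQ : Q z k = ∑' n : ℕ, if n.Coprime k then ((al n : ℝ) : ℂ) * (n : ℂ) ^ (-s) else 0 := rfl
  rw [hQ, mul_assoc]
  exact hlim.trans (mul_le_mul_of_nonneg_left hM hC1pos.le)

end Pool.Agent.Helper647.SG.JQB
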