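import Mathlib

set_option autoImplicit false

namespace Pool.Agent.Helper647.SG.JRL

open Complex Filter Topology MeasureTheory Set

/-- the properties of the kernel -/
structure KE (E : ℝ → ℝ) (C c0 : ℝ) : Prop where
  hC : 0 < C
  hc0 : 0 < c0
  cont : Continuous E
  lip : ∀ v w : ℝ, |E v - E w| ≤ C * |v - w|
  dec : ∀ v : ℝ, |E v| ≤ C / (1 + v ^ 2) ^ 40
  low : ∀ v : ℝ, |v| ≤ 1 → c0 ≤ E v ^ 2
  ft : ∀ ξ : ℝ, 1 ≤ |ξ| → ∫ v : ℝ, ((E v ^ 2 : ℝ) : ℂ) * cexp (I * ξ * v) = 0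

namespace RLAux

variable {E : ℝ → ℝ} {C c0 : ℝ}

lemma sq_le (hE : KE E C c0) (v : ℝ) : E v ^ 2 ≤ C ^ 2 / (1 + v ^ 2) ^ 80 := by
  have h1 : |E v| ^ 2 ≤ (C / (1 + v ^ 2) ^ 40) ^ 2 := pow_le_pow_left₀ (abs_nonneg _) (hE.dec v) 2
  rw [sq_abs, div_pow, ← pow_mul] at h1
  exact h1

lemma sq_pow (hE : KE E C c0) {k : ℕ} (hk : k ≤ 80) (v : ℝ) : E v ^ 2 ≤ C ^ 2 / (1 + v ^ 2) ^ k := by
  refine (sq_le hE v).trans ?_
  apply div_le_div_of_nonneg_left (sq_nonneg _) (by positivity)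
  exact pow_le_pow_right₀ (by nlinarith [sq_nonneg v]) hk

lemma sq_abs2 (hE : KE E C c0) (v : ℝ) : |E v ^ 2| ≤ C ^ 2 / (1 + v ^ 2) ^ 2 := by
  rw [abs_of_nonneg (sq_nonneg _)]
  exact sq_pow hE (by norm_num) v

lemma int_inv {H : ℝ} (hH : 0 < H) : Integrable fun t : ℝ => (1 + (t / H) ^ 2)⁻¹ :=
  integrable_inv_one_add_sq.comp_div hH.ne'

lemma int_inv_val {H : ℝ} (hH : 0 < H) : ∫ t : ℝ, (1 + (t / H) ^ 2)⁻¹ = H * Real.pi := by
  rw [Measure.integral_comp_div (fun v : ℝ => (1 + v ^ 2)⁻¹) H, integral_univ_inv_one_add_sq,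
    abs_of_pos hH, smul_eq_mul]

lemma norm_cexp_I (x : ℝ) : ‖cexp (I * x)‖ = 1 := by
  rw [mul_comm]; exact Complex.norm_exp_ofReal_mul_I x

lemma norm_cexp_I2 (w t : ℝ) : ‖cexp (I * w * t)‖ = 1 := by
  have := norm_cexp_I (w * t)
  rw [Complex.ofReal_mul, ← mul_assoc] at this
  exact this

/-- window term -/
noncomputable def A (E : ℝ → ℝ) (H δ ω : ℝ) (l : ℤ) : ℂ :=
  ∫ t : ℝ, cexp (I * ω * t) * cexp (-(I * (2 * Real.pi * l / δ) * t)) * ((E (t / H) ^ 2 : ℝ) : ℂ)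

lemma norm_e2 (δ t : ℝ) (l : ℤ) : ‖cexp (-(I * (2 * Real.pi * l / δ) * t))‖ = 1 := by
  have := norm_cexp_I (-(2 * Real.pi * l / δ * t))
  rw [← this]
  congr 2
  push_cast; ring

lemma int_A (hE : KE E C c0) {H : ℝ} (hH : 0 < H) (δ ω : ℝ) (l : ℤ) :
    Integrable fun t : ℝ => cexp (I * ω * t) * cexp (-(I * (2 * Real.pi * l / δ) * t)) *
      ((E (t / H) ^ 2 : ℝ) : ℂ) := by
  refine Integrable.mono' ((int_inv hH).const_mul (C ^ 2)) ?_ (ae_of_all _ fun t => ?_)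
  · have := hE.cont
    exact (by fun_prop : Continuous fun t : ℝ => cexp (I * ω * t) *
      cexp (-(I * (2 * Real.pi * l / δ) * t)) * ((E (t / H) ^ 2 : ℝ) : ℂ)).aestronglyMeasurable
  · rw [norm_mul, norm_mul, norm_cexp_I2, norm_e2, one_mul, one_mul, Complex.norm_real, Real.norm_eq_abs,
      abs_of_nonneg (sq_nonneg _)]
    have := sq_pow hE (k := 1) (by norm_num) (t / H)
    rw [pow_one, div_eq_mul_inv] at this
    exact this

/-- window terms outside the window vanish -/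
lemma A_zero (hE : KE E C c0) {H : ℝ} (hH : 0 < H) (δ ω : ℝ) (l : ℤ)
    (h : 1 / H ≤ |ω - 2 * Real.pi * l / δ|) : A E H δ ω l = 0 := by
  have h1 : ∀ t : ℝ, cexp (I * ω * t) * cexp (-(I * (2 * Real.pi * l / δ) * t)) *
      ((E (t / H) ^ 2 : ℝ) : ℂ) =
      (fun v : ℝ => ((E v ^ 2 : ℝ) : ℂ) * cexp (I * ((H * (ω - 2 * Real.pi * l / δ) : ℝ) : ℂ) * v)) (t / H) := by
    intro t
    have hHc : (H : ℂ) ≠ 0 := by exact_mod_cast hH.ne'
    simp only
    rw [← Complex.exp_add, mul_comm]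
    congr 2
    push_cast
    field_simp
    ring
  unfold A
  simp_rw [h1]
  rw [Measure.integral_comp_div (fun v : ℝ => ((E v ^ 2 : ℝ) : ℂ) *
    cexp (I * ((H * (ω - 2 * Real.pi * l / δ) : ℝ) : ℂ) * v)) H]
  rw [hE.ft, smul_zero]
  rw [abs_mul, abs_of_pos hH]
  rw [div_le_iff₀ hH] at h
  linarith

lemma summ_kernel (hE : KE E C c0) {H δ : ℝ} (hH : 0 < H) (hδ : 0 < δ) :
    Summable fun j : ℤ => E (δ * j / H) ^ 2 := by
  have hs : Summable (fun j : ℤ => (C ^ 2 * (H / δ) ^ 2) * (1 / (j : ℝ) ^ 2)) :=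
    (Real.summable_one_div_int_pow.2 one_lt_two).mul_left _
  refine Summable.of_norm_bounded_eventually hs ?_
  apply (Set.finite_singleton (0 : ℤ)).subset
  intro j hj
  by_contra hj0
  apply hj
  have hj0' : (j : ℝ) ≠ 0 := by
    have : j ≠ 0 := by simpa using hj0
    exact_mod_cast this
  have hjp : (0 : ℝ) < (j : ℝ) ^ 2 := by positivity
  show ‖E (δ * (j : ℝ) / H) ^ 2‖ ≤ C ^ 2 * (H / δ) ^ 2 * (1 / (j : ℝ) ^ 2)
  rw [Real.norm_of_nonneg (sq_nonneg _)]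
  have h1 := sq_pow hE (k := 1) (by norm_num) (δ * j / H)
  rw [pow_one] at h1
  refine h1.trans ?_
  have e : (δ * j / H) ^ 2 = (δ / H) ^ 2 * (j : ℝ) ^ 2 := by ring
  have e2 : C ^ 2 * (H / δ) ^ 2 * (1 / (j : ℝ) ^ 2) = C ^ 2 / ((δ / H) ^ 2 * (j : ℝ) ^ 2) := by
    field_simp
  rw [e2, e]
  apply div_le_div_of_nonneg_left (sq_nonneg _) (by positivity)
  linarith

/-- pointwise bound for the kernel far out -/
lemma far (hE : KE E C c0) {H ρ t : ℝ} (hH : 0 < H) (hρ : H ≤ ρ) (ht : ρ ≤ |t|) :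
    E (t / H) ^ 2 ≤ C ^ 2 * (H / ρ) ^ 100 * (1 + (t / H) ^ 2)⁻¹ := by
  have hρ0 : 0 < ρ := by linarith
  have h1 := sq_le hE (t / H)
  refine h1.trans ?_
  have hx : ρ / H ≤ |t / H| := by
    rw [abs_div, abs_of_pos hH]
    exact div_le_div_of_nonneg_right ht hH.le
  have hx2 : (ρ / H) ^ 2 ≤ (t / H) ^ 2 := by
    rw [← sq_abs (t / H)]
    exact pow_le_pow_left₀ (by positivity) hx 2
  have h2 : (ρ / H) ^ 100 ≤ (1 + (t / H) ^ 2) ^ 50 := by
    have : ((ρ / H) ^ 2) ^ 50 ≤ (1 + (t / H) ^ 2) ^ 50 :=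
      pow_le_pow_left₀ (by positivity) (by linarith) 50
    rwa [← pow_mul] at this
  have h3 : (1 + (t / H) ^ 2) ^ 50 * (1 + (t / H) ^ 2) ≤ (1 + (t / H) ^ 2) ^ 80 := by
    rw [← pow_succ]
    exact pow_le_pow_right₀ (by nlinarith [sq_nonneg (t / H)]) (by norm_num)
  have h4 : (ρ / H) ^ 100 * (1 + (t / H) ^ 2) ≤ (1 + (t / H) ^ 2) ^ 80 :=
    (mul_le_mul_of_nonneg_right h2 (by positivity)).trans h3
  have e : C ^ 2 * (H / ρ) ^ 100 * (1 + (t / H) ^ 2)⁻¹ = C ^ 2 / ((ρ / H) ^ 100 * (1 + (t / H) ^ 2)) := by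
    rw [div_pow, div_pow]
    field_simp
  rw [e]
  exact div_le_div_of_nonneg_left (sq_nonneg _) (by positivity) h4

/-- splitting of a symmetric interval -/
lemma split_sum (n : ℕ) (B : ℤ → ℂ) :
    ∑ l ∈ Finset.Icc (-(n : ℤ)) n, B l =
      ∑ l ∈ Finset.Icc (0 : ℤ) n, B l + ∑ l ∈ Finset.Icc (1 : ℤ) n, B (-l) := by
  have h1 : ∑ l ∈ Finset.Icc (1 : ℤ) n, B (-l) = ∑ l ∈ Finset.Icc (-(n : ℤ)) (-1), B l := by
    refine Finset.sum_bij (fun l _ => -l) ?_ ?_ ?_ ?_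
    · intro l hl
      rw [Finset.mem_Icc] at hl ⊢
      omega
    · intro a _ b _ h
      simpa using h
    · intro b hb
      rw [Finset.mem_Icc] at hb
      refine ⟨-b, ?_, by simp⟩
      rw [Finset.mem_Icc]
      omega
    · intro l _
      rfl
  rw [h1, add_comm, ← Finset.sum_union]
  · congr 1
    ext l
    simp only [Finset.mem_union, Finset.mem_Icc]
    omega
  · rw [Finset.disjoint_left]
    intro l h1 h2
    rw [Finset.mem_Icc] at h1 h2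
    omega

end RLAux

open RLAux in
/- real trick, helper647's project SG -/
theorem real_trick
    (hpoi : ∀ (φ : ℝ → ℝ) (C : ℝ), Continuous φ → (∀ v : ℝ, |φ v| ≤ C / (1 + v ^ 2) ^ 2) →
      (∀ ξ : ℝ, 1 ≤ |ξ| → ∫ v : ℝ, ((φ v : ℝ) : ℂ) * cexp (I * ξ * v) = 0) →
      ∀ (h δ a u ω : ℝ), 0 < h → 0 < δ → ∀ (S : Finset ℤ),
      (∀ l : ℤ, l ∉ S → 1 / h ≤ |ω - 2 * Real.pi * l / δ|) →
      ∑' j : ℤ, cexp (I * ω * (a + δ * j)) * ((φ ((a + δ * j - u) / h) : ℝ) : ℂ) =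
        (1 / δ) * ∑ l ∈ S, ∫ t : ℝ, cexp (I * ω * t) * cexp (-(I * (2 * Real.pi * l / δ) * (t - a))) *
          ((φ ((t - u) / h) : ℝ) : ℂ)) :
    ∀ (E : ℝ → ℝ) (C c0 : ℝ), KE E C c0 → ∃ C1 : ℝ, 0 < C1 ∧
  ∀ (ι : Type) (s : Finset ι) (c : ι → ℂ) (w : ι → ℝ) (P0 P1 : ι → Prop) (R M δ H ε ρ : ℝ),
    0 < δ → δ ≤ H → 1 ≤ R → H ≤ ρ → 0 ≤ ε → (∀ i ∈ s, |w i| ≤ R) → ∑ i ∈ s, ‖c i‖ ≤ M →
    (∀ i ∈ s, (P0 i → ∀ l : ℤ, l < 0 → 1 / H ≤ |w i - 2 * Real.pi * l / δ|) ∧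
      (¬ P0 i → ∀ l : ℤ, 0 ≤ l → 1 / H ≤ |w i - 2 * Real.pi * l / δ|)) →
    (∀ i ∈ s, (P1 i → ∀ l : ℤ, l < 1 → 1 / H ≤ |w i - 2 * Real.pi * l / δ|) ∧
      (¬ P1 i → ∀ l : ℤ, 1 ≤ l → 1 / H ≤ |w i - 2 * Real.pi * l / δ|)) →
    (∀ x : ℝ, |x| ≤ ρ → |(∑ i ∈ s, c i * cexp (I * w i * x)).im| ≤ ε) →
    ‖∑' j : ℤ, (∑ i ∈ s, c i * cexp (I * w i * (δ * j))) * ((E (δ * j / H) ^ 2 : ℝ) : ℂ)‖ ≤
      ‖∑' j : ℤ, (∑ i ∈ s, (open Classical in if P0 i then c i else 0) * cexp (I * w i * (δ * j))) *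
        ((E (δ * j / H) ^ 2 : ℝ) : ℂ)‖ +
      ‖∑' j : ℤ, (∑ i ∈ s, (open Classical in if P1 i then c i else 0) * cexp (I * w i * (δ * j))) *
        ((E (δ * j / H) ^ 2 : ℝ) : ℂ)‖ +
      C1 * (R * δ + 2) * (H / δ) * (ε + M * (H / ρ) ^ 100) := by
  classical
  intro E C c0 hE
  have hCp := hE.hC
  refine ⟨2 * C ^ 2 * Real.pi, by positivity, ?_⟩
  intro ι s c w P0 P1 R M δ H ε ρ hδ hδH hR hHρ hε hw hM hP0 hP1 him
  have hH : 0 < H := lt_of_lt_of_le hδ hδH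
  have hρ : 0 < ρ := lt_of_lt_of_le hH hHρ
  have hM0 : 0 ≤ M := (Finset.sum_nonneg fun i _ => norm_nonneg _).trans hM
  obtain ⟨n, hn1, hn2⟩ : ∃ n : ℕ, R * δ ≤ n ∧ (n : ℝ) ≤ R * δ + 2 := by
    refine ⟨⌈R * δ⌉₊, Nat.le_ceil _, ?_⟩
    have := Nat.ceil_lt_add_one (show (0 : ℝ) ≤ R * δ by positivity)
    linarith
  -- the window
  have hwin : ∀ i ∈ s, ∀ l : ℤ, l ∉ Finset.Icc (-(n : ℤ)) n → 1 / H ≤ |w i - 2 * Real.pi * l / δ| := by
    intro i hi l hl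
    have hl' : (n : ℤ) + 1 ≤ |l| := by
      rw [Finset.mem_Icc] at hl
      by_contra hcon
      apply hl
      have : |l| ≤ (n : ℤ) := by omega
      exact abs_le.1 this
    have hl2 : (n : ℝ) + 1 ≤ |(l : ℝ)| := by
      have : (((n : ℤ) + 1 : ℤ) : ℝ) ≤ ((|l| : ℤ) : ℝ) := by exact_mod_cast hl'
      rw [Int.cast_abs] at this
      push_cast at this
      exact this
    have hpi := Real.pi_gt_three
    have h1 : |2 * Real.pi * l / δ| = 2 * Real.pi * |(l : ℝ)| / δ := by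
      rw [abs_div, abs_mul, abs_of_pos hδ, abs_of_pos (by positivity : (0 : ℝ) < 2 * Real.pi)]
    have h2 : |2 * Real.pi * l / δ| - |w i| ≤ |w i - 2 * Real.pi * l / δ| := by
      have := abs_sub_abs_le_abs_sub (2 * Real.pi * l / δ) (w i)
      rwa [abs_sub_comm (2 * Real.pi * (l : ℝ) / δ) (w i)] at this
    have h3 : R + 1 / δ ≤ 2 * Real.pi * |(l : ℝ)| / δ := by
      rw [le_div_iff₀ hδ, add_mul, one_div, inv_mul_cancel₀ hδ.ne']
      have h0 : 0 ≤ R * δ := by positivity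
      nlinarith
    have h4 : 1 / H ≤ 1 / δ := one_div_le_one_div_of_le hδ hδH
    have h5 := hw i hi
    rw [h1] at h2
    linarith
  -- single sums
  have hT : ∀ i ∈ s, ∑' j : ℤ, cexp (I * w i * (δ * j)) * ((E (δ * j / H) ^ 2 : ℝ) : ℂ) =
      (1 / δ) * ∑ l ∈ Finset.Icc (-(n : ℤ)) n, A E H δ (w i) l := by
    intro i hi
    have h := hpoi (fun v => E v ^ 2) (C ^ 2) (hE.cont.pow 2) (sq_abs2 hE) hE.ft H δ 0 0 (w i) hH hδ
      (Finset.Icc (-(n : ℤ)) n) (hwin i hi)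
    simp only [Complex.ofReal_zero, zero_add, sub_zero] at h
    exact h
  have hsum0 := summ_kernel hE hH hδ
  have hsum1 : ∀ i, Summable fun j : ℤ => cexp (I * w i * (δ * j)) * ((E (δ * j / H) ^ 2 : ℝ) : ℂ) := by
    intro i
    refine Summable.of_norm_bounded hsum0 fun j => ?_
    have e1 : ‖cexp (I * w i * (δ * j))‖ = 1 := by
      have := norm_cexp_I2 (w i) (δ * j)
      push_cast at this
      exact this
    rw [norm_mul, e1, one_mul, Complex.norm_real, Real.norm_eq_abs, abs_of_nonneg (sq_nonneg _)]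
  have hlin : ∀ d : ι → ℂ, ∑' j : ℤ, (∑ i ∈ s, d i * cexp (I * w i * (δ * j))) *
      ((E (δ * j / H) ^ 2 : ℝ) : ℂ) =
      (1 / δ) * ∑ i ∈ s, d i * ∑ l ∈ Finset.Icc (-(n : ℤ)) n, A E H δ (w i) l := by
    intro d
    have e2 : ∑' j : ℤ, (∑ i ∈ s, d i * cexp (I * w i * (δ * j))) * ((E (δ * j / H) ^ 2 : ℝ) : ℂ) =
        ∑ i ∈ s, ∑' j : ℤ, d i * (cexp (I * w i * (δ * j)) * ((E (δ * j / H) ^ 2 : ℝ) : ℂ)) := by
      rw [← Summable.tsum_finsetSum fun i _ => (hsum1 i).mul_left _]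
      refine tsum_congr fun j => ?_
      rw [Finset.sum_mul]
      refine Finset.sum_congr rfl fun i _ => ?_
      ring
    rw [e2, Finset.mul_sum]
    refine Finset.sum_congr rfl fun i hi => ?_
    rw [tsum_mul_left, hT i hi]
    ring
  -- combined windows
  set B : ℤ → ℂ := fun l => ∑ i ∈ s, c i * A E H δ (w i) l with hB
  have hfull : ∑' j : ℤ, (∑ i ∈ s, c i * cexp (I * w i * (δ * j))) * ((E (δ * j / H) ^ 2 : ℝ) : ℂ) =
      (1 / δ) * ∑ l ∈ Finset.Icc (-(n : ℤ)) n, B l := by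
    rw [hlin c, hB]
    simp only
    rw [Finset.sum_comm]
    congr 1
    refine Finset.sum_congr rfl fun i _ => ?_
    rw [Finset.mul_sum]
  have hpart : ∀ (k : ℤ), -(n : ℤ) ≤ k → ∀ (P : ι → Prop),
      (∀ i ∈ s, (P i → ∀ l : ℤ, l < k → 1 / H ≤ |w i - 2 * Real.pi * l / δ|) ∧
      (¬ P i → ∀ l : ℤ, k ≤ l → 1 / H ≤ |w i - 2 * Real.pi * l / δ|)) →
      ∑' j : ℤ, (∑ i ∈ s, (if P i then c i else 0) * cexp (I * w i * (δ * j))) *
        ((E (δ * j / H) ^ 2 : ℝ) : ℂ) = (1 / δ) * ∑ l ∈ Finset.Icc k n, B l := by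
    intro k hk P hP
    rw [hlin, hB]
    simp only
    rw [Finset.sum_comm]
    congr 1
    refine Finset.sum_congr rfl fun i hi => ?_
    rw [← Finset.mul_sum]
    by_cases h : P i
    · rw [if_pos h]
      congr 1
      symm
      apply Finset.sum_subset
      · intro l hl
        rw [Finset.mem_Icc] at hl ⊢
        omega
      · intro l hl hl2
        apply A_zero hE hH
        apply (hP i hi).1 h
        rw [Finset.mem_Icc] at hl hl2
        omega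
    · rw [if_neg h, zero_mul]
      symm
      have : ∑ l ∈ Finset.Icc k n, A E H δ (w i) l = 0 := by
        apply Finset.sum_eq_zero
        intro l hl
        rw [Finset.mem_Icc] at hl
        exact A_zero hE hH _ _ _ ((hP i hi).2 h l hl.1)
      rw [this, mul_zero]
  have h0 := hpart 0 (by omega) P0 hP0
  have h1 := hpart 1 (by omega) P1 hP1
  -- the difference
  set K : ℝ := 2 * C ^ 2 * Real.pi * H * (ε + M * (H / ρ) ^ 100) with hK
  have hF : ∀ t : ℝ, ‖∑ i ∈ s, c i * cexp (I * w i * t)‖ ≤ M := by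
    intro t
    refine (norm_sum_le _ _).trans (le_trans (le_of_eq ?_) hM)
    refine Finset.sum_congr rfl fun i _ => ?_
    rw [norm_mul, norm_cexp_I2, mul_one]
  have hBint : ∀ l : ℤ, B l = ∫ t : ℝ, (∑ i ∈ s, c i * cexp (I * w i * t)) *
      cexp (-(I * (2 * Real.pi * l / δ) * t)) * ((E (t / H) ^ 2 : ℝ) : ℂ) := by
    intro l
    rw [hB]
    simp only [A]
    simp_rw [← integral_const_mul]
    rw [← integral_finsetSum _ fun i _ => (int_A hE hH δ (w i) l).const_mul _]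
    refine integral_congr_ae (ae_of_all _ fun t => ?_)
    simp only
    rw [Finset.sum_mul, Finset.sum_mul]
    refine Finset.sum_congr rfl fun i _ => ?_
    ring
  have hFint : ∀ l : ℤ, Integrable fun t : ℝ => (∑ i ∈ s, c i * cexp (I * w i * t)) *
      cexp (-(I * (2 * Real.pi * l / δ) * t)) * ((E (t / H) ^ 2 : ℝ) : ℂ) := by
    intro l
    have : (fun t : ℝ => (∑ i ∈ s, c i * cexp (I * w i * t)) *
      cexp (-(I * (2 * Real.pi * l / δ) * t)) * ((E (t / H) ^ 2 : ℝ) : ℂ)) =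
      fun t : ℝ => ∑ i ∈ s, c i * (cexp (I * w i * t) *
      cexp (-(I * (2 * Real.pi * l / δ) * t)) * ((E (t / H) ^ 2 : ℝ) : ℂ)) := by
      funext t
      rw [Finset.sum_mul, Finset.sum_mul]
      refine Finset.sum_congr rfl fun i _ => ?_
      ring
    rw [this]
    exact integrable_finsetSum _ fun i _ => (int_A hE hH δ (w i) l).const_mul _
  have hdiff : ∀ l : ℤ, ‖B (-l) - (starRingEnd ℂ) (B l)‖ ≤ K := by
    intro l
    have e1 : (starRingEnd ℂ) (B l) = ∫ t : ℝ, (starRingEnd ℂ) (∑ i ∈ s, c i * cexp (I * w i * t)) *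
        cexp (-(I * (2 * Real.pi * (-l : ℤ) / δ) * t)) * ((E (t / H) ^ 2 : ℝ) : ℂ) := by
      rw [hBint l, ← integral_conj]
      refine integral_congr_ae (ae_of_all _ fun t => ?_)
      simp only
      rw [map_mul, map_mul, Complex.conj_ofReal, ← Complex.exp_conj]
      congr 3
      simp only [map_neg, map_mul, Complex.conj_I, map_div₀, Complex.conj_ofReal, map_ofNat, map_intCast]
      push_cast
      ring
    have hcint : Integrable fun t : ℝ => (starRingEnd ℂ) (∑ i ∈ s, c i * cexp (I * w i * t)) *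
        cexp (-(I * (2 * Real.pi * (-l : ℤ) / δ) * t)) * ((E (t / H) ^ 2 : ℝ) : ℂ) := by
      refine Integrable.mono' ((int_inv hH).const_mul (M * C ^ 2)) ?_ (ae_of_all _ fun t => ?_)
      · have := hE.cont
        have hcc : Continuous fun t : ℝ => (starRingEnd ℂ) (∑ i ∈ s, c i * cexp (I * w i * t)) :=
          Complex.continuous_conj.comp (by fun_prop)
        have hc2 : Continuous fun t : ℝ => cexp (-(I * (2 * Real.pi * (-l : ℤ) / δ) * t)) := by fun_prop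
        have hc3 : Continuous fun t : ℝ => ((E (t / H) ^ 2 : ℝ) : ℂ) := by fun_prop
        exact ((hcc.mul hc2).mul hc3).aestronglyMeasurable
      · rw [norm_mul, norm_mul, norm_e2, mul_one, Complex.norm_real, Real.norm_eq_abs,
          abs_of_nonneg (sq_nonneg _), RCLike.norm_conj]
        have h2 := sq_pow hE (k := 1) (by norm_num) (t / H)
        rw [pow_one, div_eq_mul_inv] at h2
        calc _ ≤ M * (C ^ 2 * (1 + (t / H) ^ 2)⁻¹) :=
              mul_le_mul (hF t) h2 (sq_nonneg _) hM0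
          _ = _ := by ring
    rw [e1, hBint (-l), ← integral_sub (hFint (-l)) hcint]
    have hb : ∀ t : ℝ, ‖(∑ i ∈ s, c i * cexp (I * w i * t)) *
        cexp (-(I * (2 * Real.pi * (-l : ℤ) / δ) * t)) * ((E (t / H) ^ 2 : ℝ) : ℂ) -
        (starRingEnd ℂ) (∑ i ∈ s, c i * cexp (I * w i * t)) *
        cexp (-(I * (2 * Real.pi * (-l : ℤ) / δ) * t)) * ((E (t / H) ^ 2 : ℝ) : ℂ)‖ ≤
        (2 * C ^ 2 * (ε + M * (H / ρ) ^ 100)) * (1 + (t / H) ^ 2)⁻¹ := by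
      intro t
      rw [← sub_mul, ← sub_mul, norm_mul, norm_mul, norm_e2, mul_one, Complex.norm_real, Real.norm_eq_abs,
          abs_of_nonneg (sq_nonneg _)]
      set F := ∑ i ∈ s, c i * cexp (I * w i * t) with hFd
      have e3 : F - (starRingEnd ℂ) F = ((2 * F.im : ℝ) : ℂ) * I := by
        apply Complex.ext <;> simp
        ring
      have e4 : ‖F - (starRingEnd ℂ) F‖ = 2 * |F.im| := by
        rw [e3, norm_mul, Complex.norm_I, mul_one, Complex.norm_real, Real.norm_eq_abs, abs_mul]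
        norm_num
      rw [e4]
      have hinv : 0 < (1 + (t / H) ^ 2)⁻¹ := by positivity
      by_cases ht : |t| ≤ ρ
      · have h3 := him t ht
        have h2 := sq_pow hE (k := 1) (by norm_num) (t / H)
        rw [pow_one, div_eq_mul_inv] at h2
        have h4 : 2 * |F.im| * E (t / H) ^ 2 ≤ 2 * ε * (C ^ 2 * (1 + (t / H) ^ 2)⁻¹) :=
          mul_le_mul (by linarith) h2 (sq_nonneg _) (by positivity)
        refine h4.trans ?_
        have : 0 ≤ M * (H / ρ) ^ 100 * (C ^ 2 * (1 + (t / H) ^ 2)⁻¹) := by positivity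
        nlinarith
      · have h3 : |F.im| ≤ M := (Complex.abs_im_le_norm F).trans (hF t)
        have h2 := far hE hH hHρ (le_of_lt (not_le.1 ht))
        have h4 : 2 * |F.im| * E (t / H) ^ 2 ≤ 2 * M * (C ^ 2 * (H / ρ) ^ 100 * (1 + (t / H) ^ 2)⁻¹) :=
          mul_le_mul (by linarith) h2 (sq_nonneg _) (by positivity)
        refine h4.trans ?_
        have : 0 ≤ ε * (C ^ 2 * (1 + (t / H) ^ 2)⁻¹) := by positivity
        nlinarith
    refine (norm_integral_le_of_norm_le ((int_inv hH).const_mul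
      (2 * C ^ 2 * (ε + M * (H / ρ) ^ 100))) (ae_of_all _ hb)).trans (le_of_eq ?_)
    rw [integral_const_mul, int_inv_val hH, hK]
    ring
  rw [hfull, h0, h1, split_sum]
  have e5 : ∑ l ∈ Finset.Icc (1 : ℤ) n, B (-l) =
      (starRingEnd ℂ) (∑ l ∈ Finset.Icc (1 : ℤ) n, B l) +
      ∑ l ∈ Finset.Icc (1 : ℤ) n, (B (-l) - (starRingEnd ℂ) (B l)) := by
    rw [map_sum, ← Finset.sum_add_distrib]
    refine Finset.sum_congr rfl fun l _ => ?_
    ring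
  have e6 : ‖∑ l ∈ Finset.Icc (1 : ℤ) n, (B (-l) - (starRingEnd ℂ) (B l))‖ ≤ (n : ℝ) * K := by
    refine (norm_sum_le_of_le _ fun l _ => hdiff l).trans (le_of_eq ?_)
    rw [Finset.sum_const, Int.card_Icc, nsmul_eq_mul]
    congr 1
    simp
  rw [e5, mul_add, mul_add]
  have hnδ : ‖(1 / (δ : ℂ))‖ = 1 / δ := by
    rw [norm_div, norm_one, Complex.norm_real, Real.norm_eq_abs, abs_of_pos hδ]
  refine (norm_add_le _ _).trans ?_
  refine (add_le_add_right (norm_add_le _ _) _).trans ?_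
  have e7 : ‖(1 / (δ : ℂ)) * (starRingEnd ℂ) (∑ l ∈ Finset.Icc (1 : ℤ) n, B l)‖ =
      ‖(1 / (δ : ℂ)) * ∑ l ∈ Finset.Icc (1 : ℤ) n, B l‖ := by
    rw [norm_mul, norm_mul, RCLike.norm_conj]
  have e8 : ‖(1 / (δ : ℂ)) * ∑ l ∈ Finset.Icc (1 : ℤ) n, (B (-l) - (starRingEnd ℂ) (B l))‖ ≤
      2 * C ^ 2 * Real.pi * (R * δ + 2) * (H / δ) * (ε + M * (H / ρ) ^ 100) := by
    rw [norm_mul, hnδ]
    have hK0 : 0 ≤ K := by rw [hK]; positivity
    calc 1 / δ * ‖∑ l ∈ Finset.Icc (1 : ℤ) n, (B (-l) - (starRingEnd ℂ) (B l))‖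
        ≤ 1 / δ * ((R * δ + 2) * K) :=
          mul_le_mul_of_nonneg_left (e6.trans (mul_le_mul_of_nonneg_right hn2 hK0)) (by positivity)
      _ = _ := by rw [hK]; ring
  linarith

end Pool.Agent.Helper647.SG.JRL
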