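import Mathlib

set_option autoImplicit false

namespace Pool.Agent.Helper647.SG.JRR

open Complex Filter Topology MeasureTheory Set

/-- Selberg's coefficients on squarefree numbers -/
noncomputable def al (n : ℕ) : ℝ := if Squarefree n then (-1 / 2 : ℝ) ^ n.primeFactors.card else 0

/-- the Dirichlet series of `al` over the integers prime to `k` -/
noncomputable def Q (z : ℂ) (k : ℕ) : ℂ :=
  ∑' m : ℕ, if m.Coprime k then ((al m : ℝ) : ℂ) * (m : ℂ) ^ (-(1 + z)) else 0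

/-- the part at the primes dividing `k` -/
noncomputable def V (z₁ z₂ : ℂ) (k : ℕ) : ℂ := ∑ d₁ ∈ k.divisors, ∑ d₂ ∈ k.divisors,
  if k ∣ d₁ * d₂ then (((al d₁ : ℝ) : ℂ) * (d₁ : ℂ) ^ (-(1 + z₁))) * (((al d₂ : ℝ) : ℂ) * (d₂ : ℂ) ^ (-(1 + z₂)))
  else 0

/-- `∑_{k ∣ ab} β_a β_b a^{-1-s} b^{-1}` -/
noncomputable def Rg (s : ℂ) (β : ℕ → ℝ) (Y k : ℕ) : ℂ := ∑ a ∈ Finset.Icc 1 Y, ∑ b ∈ Finset.Icc 1 Y,
  if k ∣ a * b then (((β a : ℝ) : ℂ) * (a : ℂ) ^ (-(1 + s))) * (((β b : ℝ) : ℂ) * (b : ℂ)⁻¹) else 0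


open Classical in
/-- splitting of a sum over squarefree numbers according to the common divisor with `k` -/
theorem split_sum {k : ℕ} (hk : 1 ≤ k) (Y : ℕ) (F : ℕ → ℂ) (hF : ∀ h, F h ≠ 0 → Squarefree h ∧ h ≤ Y) :
    ∑ h ∈ Finset.Icc 1 Y, F h =
      ∑ d ∈ k.divisors, ∑ m ∈ Finset.Icc 1 Y, if m.Coprime k then F (d * m) else 0 := by
  rw [← Finset.sum_product', ← Finset.sum_filter_ne_zero (s := Finset.Icc 1 Y),
    ← Finset.sum_filter_ne_zero (s := k.divisors ×ˢ Finset.Icc 1 Y)]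
  refine Finset.sum_nbij' (fun h => (Nat.gcd h k, h / Nat.gcd h k)) (fun x => x.1 * x.2) ?_ ?_ ?_ ?_ ?_
  · intro h hh
    rw [Finset.mem_filter, Finset.mem_Icc] at hh
    obtain ⟨⟨h1, h2⟩, h3⟩ := hh
    obtain ⟨hsq, -⟩ := hF h h3
    have hg : Nat.gcd h k ∣ h := Nat.gcd_dvd_left h k
    have hg0 : 0 < Nat.gcd h k := Nat.gcd_pos_of_pos_left k h1
    have hmul : Nat.gcd h k * (h / Nat.gcd h k) = h := Nat.mul_div_cancel' hg
    have hcop : (h / Nat.gcd h k).Coprime k := by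
      have hsq' : Squarefree (Nat.gcd h k * (h / Nat.gcd h k)) := by rw [hmul]; exact hsq
      have hc1 : (Nat.gcd h k).Coprime (h / Nat.gcd h k) := Nat.coprime_of_squarefree_mul hsq'
      have h4 : Nat.gcd (h / Nat.gcd h k) k ∣ Nat.gcd h k :=
        Nat.gcd_dvd_gcd_of_dvd_left k (Nat.div_dvd_of_dvd hg)
      have h5 : Nat.gcd (h / Nat.gcd h k) k ∣ h / Nat.gcd h k := Nat.gcd_dvd_left _ _
      exact Nat.eq_one_of_dvd_coprimes hc1 h4 h5
    rw [Finset.mem_filter, Finset.mem_product, Nat.mem_divisors, Finset.mem_Icc]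
    refine ⟨⟨⟨Nat.gcd_dvd_right h k, by omega⟩, ?_, ?_⟩, ?_⟩
    · exact Nat.div_pos (Nat.le_of_dvd h1 hg) hg0
    · exact (Nat.div_le_self _ _).trans h2
    · simp only
      rw [if_pos hcop, hmul]
      exact h3
  · intro x hx
    rw [Finset.mem_filter, Finset.mem_product, Nat.mem_divisors, Finset.mem_Icc] at hx
    obtain ⟨⟨⟨h1, h2⟩, h3, h4⟩, h5⟩ := hx
    rw [Finset.mem_filter, Finset.mem_Icc]
    have h6 : F (x.1 * x.2) ≠ 0 := by
      intro h6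
      apply h5
      rw [h6, ite_self]
    refine ⟨⟨?_, (hF _ h6).2⟩, h6⟩
    exact Nat.mul_pos (Nat.pos_of_dvd_of_pos h1 hk) h3
  · intro h hh
    exact Nat.mul_div_cancel' (Nat.gcd_dvd_left h k)
  · intro x hx
    rw [Finset.mem_filter, Finset.mem_product, Nat.mem_divisors, Finset.mem_Icc] at hx
    obtain ⟨⟨⟨h1, h2⟩, h3, h4⟩, h5⟩ := hx
    have hcop : x.2.Coprime k := by
      by_contra hc
      rw [if_neg hc] at h5
      exact h5 rfl
    have hx1 : 0 < x.1 := Nat.pos_of_dvd_of_pos h1 hk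
    have h6 : Nat.gcd (x.1 * x.2) k = x.1 := by
      rw [Nat.Coprime.gcd_mul_right_cancel _ hcop]
      exact Nat.gcd_eq_left h1
    ext
    · exact h6
    · simp only
      rw [h6]
      exact Nat.mul_div_cancel_left _ hx1
  · intro h hh
    rw [Finset.mem_filter, Finset.mem_Icc] at hh
    obtain ⟨⟨h1, h2⟩, h3⟩ := hh
    obtain ⟨hsq, -⟩ := hF h h3
    have hg : Nat.gcd h k ∣ h := Nat.gcd_dvd_left h k
    have hmul : Nat.gcd h k * (h / Nat.gcd h k) = h := Nat.mul_div_cancel' hg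
    have hcop : (h / Nat.gcd h k).Coprime k := by
      have hsq' : Squarefree (Nat.gcd h k * (h / Nat.gcd h k)) := by rw [hmul]; exact hsq
      have hc1 : (Nat.gcd h k).Coprime (h / Nat.gcd h k) := Nat.coprime_of_squarefree_mul hsq'
      have h4 : Nat.gcd (h / Nat.gcd h k) k ∣ Nat.gcd h k :=
        Nat.gcd_dvd_gcd_of_dvd_left k (Nat.div_dvd_of_dvd hg)
      have h5 : Nat.gcd (h / Nat.gcd h k) k ∣ h / Nat.gcd h k := Nat.gcd_dvd_left _ _
      exact Nat.eq_one_of_dvd_coprimes hc1 h4 h5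
    simp only
    rw [if_pos hcop, hmul]

lemma w_int (w : ℝ → ℂ) (C : ℝ) (hw : Continuous w) (hd : ∀ τ, ‖w τ‖ ≤ C * (1 + |τ|) ^ (-10 : ℝ)) :
    Integrable w := by
  have h1 : Integrable (fun τ : ℝ => (1 + ‖τ‖) ^ (-(10:ℝ))) :=
    integrable_one_add_norm (by simp)
  refine (h1.const_mul C).mono' hw.aestronglyMeasurable (Eventually.of_forall fun τ => ?_)
  simpa [Real.norm_eq_abs] using hd τ

lemma al_zero : al 0 = 0 := by
  unfold al
  rw [if_neg]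
  exact not_squarefree_zero

lemma al_abs (m : ℕ) : |al m| ≤ 1 := by
  unfold al
  split_ifs
  · rw [abs_pow]
    exact pow_le_one₀ (abs_nonneg _) (by rw [abs_div, abs_neg, abs_one]; norm_num)
  · simp

lemma al_mul {a b : ℕ} (h : a.Coprime b) : al (a * b) = al a * al b := by
  unfold al
  by_cases ha : Squarefree a
  · by_cases hb : Squarefree b
    · rw [if_pos ((Nat.squarefree_mul h).2 ⟨ha, hb⟩), if_pos ha, if_pos hb,
        h.primeFactors_mul, Finset.card_union_of_disjoint h.disjoint_primeFactors, pow_add]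
    · rw [if_neg (fun hc => hb ((Nat.squarefree_mul h).1 hc).2), if_neg hb, mul_zero]
  · rw [if_neg (fun hc => ha ((Nat.squarefree_mul h).1 hc).1), if_neg ha, zero_mul]

lemma al_norm (m : ℕ) : ‖((al m : ℝ) : ℂ)‖ ≤ 1 := by
  rw [Complex.norm_real]
  exact al_abs m

/-- the point -/
noncomputable def zz (s : ℂ) (L τ : ℝ) : ℂ := s + (1 + I * τ) / L

lemma zz_re (s : ℂ) (L τ : ℝ) : (zz s L τ).re = s.re + 1 / L := by
  unfold zz
  rw [add_re, Complex.div_ofReal_re]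
  simp

lemma zz_cont (s : ℂ) (L : ℝ) : Continuous (zz s L) := by
  unfold zz
  fun_prop

lemma cp_norm (s : ℂ) (hs : 0 ≤ s.re) (L τ : ℝ) (m : ℕ) (hm : 1 ≤ m) :
    ‖(m : ℂ) ^ (-(1 + zz s L τ))‖ ≤ (m : ℝ) ^ (-(1 + 1 / L)) := by
  rw [Complex.norm_natCast_cpow_of_pos hm]
  refine Real.rpow_le_rpow_of_exponent_le (by exact_mod_cast hm) ?_
  rw [neg_re, add_re, one_re, zz_re]
  linarith

lemma cp_cont (s : ℂ) (L : ℝ) (m : ℕ) (hm : 1 ≤ m) :
    Continuous fun τ : ℝ => (m : ℂ) ^ (-(1 + zz s L τ)) := by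
  have hm0 : (m : ℂ) ≠ 0 := by exact_mod_cast (by omega : m ≠ 0)
  exact Continuous.const_cpow ((continuous_const.add (zz_cont s L)).neg) (Or.inl hm0)

/-- the terms of the Dirichlet series -/
noncomputable def Hm (s : ℂ) (L : ℝ) (k m : ℕ) (τ : ℝ) : ℂ :=
  if m.Coprime k then ((al m : ℝ) : ℂ) * (m : ℂ) ^ (-(1 + zz s L τ)) else 0

lemma Hm_norm (s : ℂ) (hs : 0 ≤ s.re) (L : ℝ) (k m : ℕ) (τ : ℝ) :
    ‖Hm s L k m τ‖ ≤ (m : ℝ) ^ (-(1 + 1 / L)) := by
  unfold Hm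
  rcases Nat.eq_zero_or_pos m with rfl | hm
  · rw [al_zero]
    simp only [Complex.ofReal_zero, zero_mul, ite_self, norm_zero]
    exact Real.rpow_nonneg (Nat.cast_nonneg _) _
  split_ifs
  · rw [norm_mul]
    calc _ ≤ 1 * (m : ℝ) ^ (-(1 + 1 / L)) :=
          mul_le_mul (al_norm m) (cp_norm s hs L τ m hm) (norm_nonneg _) zero_le_one
      _ = _ := one_mul _
  · rw [norm_zero]
    exact Real.rpow_nonneg (Nat.cast_nonneg _) _

lemma Hm_cont (s : ℂ) (L : ℝ) (k m : ℕ) : Continuous (Hm s L k m) := by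
  unfold Hm
  rcases Nat.eq_zero_or_pos m with rfl | hm
  · rw [al_zero]
    simp only [Complex.ofReal_zero, zero_mul, ite_self]
    exact continuous_const
  split_ifs
  · exact continuous_const.mul (cp_cont s L m hm)
  · exact continuous_const

lemma sumL {L : ℝ} (hL : 1 ≤ L) : Summable fun m : ℕ => (m : ℝ) ^ (-(1 + 1 / L)) :=
  Real.summable_nat_rpow.2 (by
    have : 0 < 1 / L := by positivity
    linarith)

lemma Q_cont (s : ℂ) (hs : 0 ≤ s.re) {L : ℝ} (hL : 1 ≤ L) (k : ℕ) :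
    Continuous fun τ : ℝ => Q (zz s L τ) k := by
  unfold Q
  exact continuous_tsum (fun m => Hm_cont s L k m) (sumL hL) (fun m τ => Hm_norm s hs L k m τ)

lemma Q_bd (s : ℂ) (hs : 0 ≤ s.re) {L : ℝ} (hL : 1 ≤ L) (k : ℕ) (τ : ℝ) :
    ‖Q (zz s L τ) k‖ ≤ ∑' m : ℕ, (m : ℝ) ^ (-(1 + 1 / L)) := by
  unfold Q
  exact tsum_of_norm_bounded (sumL hL).hasSum (fun m => Hm_norm s hs L k m τ)

/-- the factor of `d` -/
noncomputable def kf (s : ℂ) (L : ℝ) (d : ℕ) (τ : ℝ) : ℂ :=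
  ((al d : ℝ) : ℂ) * (d : ℂ) ^ (-(1 + zz s L τ))

lemma kf_cont (s : ℂ) (L : ℝ) (d : ℕ) (hd : 1 ≤ d) : Continuous (kf s L d) :=
  continuous_const.mul (cp_cont s L d hd)

lemma kf_norm (s : ℂ) (hs : 0 ≤ s.re) {L : ℝ} (hL : 1 ≤ L) (d : ℕ) (hd : 1 ≤ d) (τ : ℝ) :
    ‖kf s L d τ‖ ≤ 1 := by
  unfold kf
  rw [norm_mul]
  have h1 : (d : ℝ) ^ (-(1 + 1 / L)) ≤ 1 := by
    refine Real.rpow_le_one_of_one_le_of_nonpos (by exact_mod_cast hd) ?_
    have : 0 < 1 / L := by positivity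
    linarith
  calc _ ≤ 1 * 1 := mul_le_mul (al_norm d) ((cp_norm s hs L τ d hd).trans h1) (norm_nonneg _) zero_le_one
    _ = _ := one_mul _

lemma term_eq (s : ℂ) (L : ℝ) (k d m : ℕ) (hk : 1 ≤ k) (hd : d ∣ k) (τ : ℝ) (hc : m.Coprime k)
    (hm : 1 ≤ m) :
    ((al (d * m) : ℝ) : ℂ) * ((d * m : ℕ) : ℂ) ^ (-((1 + I * τ) / L)) * ((d * m : ℕ) : ℂ) ^ (-(1 + s)) =
      kf s L d τ * Hm s L k m τ := by
  have hd1 : 0 < d := Nat.pos_of_dvd_of_pos hd hk
  have hd0 : (d : ℂ) ≠ 0 := by exact_mod_cast (by omega : d ≠ 0)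
  have hm0 : (m : ℂ) ≠ 0 := by exact_mod_cast (by omega : m ≠ 0)
  have hkm0 : ((d * m : ℕ) : ℂ) ≠ 0 := by push_cast; exact mul_ne_zero hd0 hm0
  have h1 : ((d * m : ℕ) : ℂ) ^ (-((1 + I * τ) / L)) * ((d * m : ℕ) : ℂ) ^ (-(1 + s)) =
      (d : ℂ) ^ (-(1 + zz s L τ)) * (m : ℂ) ^ (-(1 + zz s L τ)) := by
    rw [← Complex.natCast_mul_natCast_cpow, ← Nat.cast_mul, ← cpow_add _ _ hkm0]
    congr 1
    unfold zz
    ring
  have hdm : d.Coprime m := (Nat.Coprime.coprime_dvd_right hd hc).symm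
  rw [mul_assoc, h1]
  unfold kf Hm
  rw [if_pos hc, al_mul hdm]
  push_cast
  ring

/-- the inner sums -/
noncomputable def gi (s : ℂ) (β : ℕ → ℝ) (Y k d : ℕ) : ℂ :=
  ∑ m ∈ Finset.Icc 1 Y, if m.Coprime k then ((β (d * m) : ℝ) : ℂ) * ((d * m : ℕ) : ℂ) ^ (-(1 + s)) else 0

theorem gi_eq (w : ℝ → ℂ) (hwi : Integrable w)
    (L : ℝ) (hL : 1 ≤ L) (β : ℕ → ℝ) (Y : ℕ)
    (hβ : ∀ n : ℕ, 1 ≤ n → ((β n : ℝ) : ℂ) = ((al n : ℝ) : ℂ) * ∫ τ : ℝ, w τ * (n : ℂ) ^ (-((1 + I * τ) / L)))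
    (hY : ∀ n : ℕ, Y < n → β n = 0) (s : ℂ) (hs : 0 ≤ s.re) (k : ℕ) (hk : 1 ≤ k) (d : ℕ) (hd : d ∣ k) :
    gi s β Y k d = ∫ τ : ℝ, w τ * (kf s L d τ * Q (zz s L τ) k) := by
  have hd1 : 1 ≤ d := Nat.pos_of_dvd_of_pos hd hk
  set f : ℕ → ℝ → ℂ := fun m τ => w τ * (kf s L d τ * Hm s L k m τ) with hf
  have hbd : ∀ m τ, ‖kf s L d τ * Hm s L k m τ‖ ≤ (m : ℝ) ^ (-(1 + 1 / L)) := by
    intro m τ
    rw [norm_mul]
    calc ‖kf s L d τ‖ * ‖Hm s L k m τ‖ ≤ 1 * (m : ℝ) ^ (-(1 + 1 / L)) :=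
          mul_le_mul (kf_norm s hs hL d hd1 τ) (Hm_norm s hs L k m τ) (norm_nonneg _) zero_le_one
      _ = _ := one_mul _
  have hfi : ∀ m, Integrable (f m) := fun m =>
    hwi.mul_bdd (c := (m : ℝ) ^ (-(1 + 1 / L)))
      ((kf_cont s L d hd1).mul (Hm_cont s L k m)).aestronglyMeasurable
      (Eventually.of_forall (hbd m))
  have hterm : ∀ m : ℕ, (if m.Coprime k then ((β (d * m) : ℝ) : ℂ) * ((d * m : ℕ) : ℂ) ^ (-(1 + s)) else 0) =
      ∫ τ, f m τ := by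
    intro m
    rcases Nat.eq_zero_or_pos m with rfl | hm
    · have h0 : (((d * 0 : ℕ) : ℂ)) ^ (-(1 + s)) = 0 := by
        rw [mul_zero, Nat.cast_zero, Complex.zero_cpow]
        intro h
        have := congrArg Complex.re h
        simp at this
        linarith
      rw [h0, mul_zero, ite_self]
      simp [hf, Hm, al_zero]
    · split_ifs with hc
      · rw [hβ (d * m) (Nat.mul_pos hd1 hm), mul_assoc, ← integral_mul_const,
          ← integral_const_mul]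
        refine integral_congr_ae (Eventually.of_forall fun τ => ?_)
        show _ = w τ * (kf s L d τ * Hm s L k m τ)
        rw [← term_eq s L k d m hk hd τ hc hm]
        ring
      · have : f m = fun _ => 0 := by
          funext τ
          show w τ * (kf s L d τ * Hm s L k m τ) = 0
          unfold Hm
          rw [if_neg hc, mul_zero, mul_zero]
        rw [this, integral_zero]
  have hsum : Summable fun m : ℕ => ∫ τ, ‖f m τ‖ := by
    refine Summable.of_nonneg_of_le (fun m => integral_nonneg fun τ => norm_nonneg _)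
      (fun m => ?_) ((sumL hL).mul_left (∫ τ, ‖w τ‖))
    rw [← integral_mul_const]
    refine integral_mono (hfi m).norm (hwi.norm.mul_const _) fun τ => ?_
    show ‖w τ * (kf s L d τ * Hm s L k m τ)‖ ≤ ‖w τ‖ * (m : ℝ) ^ (-(1 + 1 / L))
    rw [norm_mul]
    exact mul_le_mul_of_nonneg_left (hbd m τ) (norm_nonneg _)
  have hHS := hasSum_integral_of_summable_integral_norm hfi hsum
  have hgi : gi s β Y k d =
      ∑' m : ℕ, (if m.Coprime k then ((β (d * m) : ℝ) : ℂ) * ((d * m : ℕ) : ℂ) ^ (-(1 + s)) else 0) := by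
    unfold gi
    rw [tsum_eq_sum (s := Finset.Icc 1 Y)]
    intro m hm
    rw [Finset.mem_Icc] at hm
    rcases Nat.eq_zero_or_pos m with rfl | hm0
    · rw [hterm 0]
      simp [hf, Hm, al_zero]
    · have h0 : β (d * m) = 0 := by
        apply hY
        have h2 : m ≤ d * m := Nat.le_mul_of_pos_left m hd1
        omega
      rw [h0]
      simp
  rw [hgi, tsum_congr hterm, hHS.tsum_eq]
  refine integral_congr_ae (Eventually.of_forall fun τ => ?_)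
  show ∑' m, f m τ = _
  rw [hf]
  simp only
  rw [tsum_mul_left, tsum_mul_left]
  rfl

theorem Rg_split (s : ℂ) (β : ℕ → ℝ) (Y : ℕ) (hsq : ∀ n : ℕ, 1 ≤ n → β n ≠ 0 → Squarefree n ∧ n ≤ Y)
    (hs0 : (0 : ℂ) ^ (-(1 + s)) = 0) (k : ℕ) (hk : 1 ≤ k) :
    Rg s β Y k = ∑ d₁ ∈ k.divisors, ∑ d₂ ∈ k.divisors,
      if k ∣ d₁ * d₂ then gi s β Y k d₁ * gi 0 β Y k d₂ else 0 := by
  have hdvd : ∀ d₁ m₁ d₂ m₂ : ℕ, m₁.Coprime k → m₂.Coprime k →
      (k ∣ (d₁ * m₁) * (d₂ * m₂) ↔ k ∣ d₁ * d₂) := by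
    intro d₁ m₁ d₂ m₂ h1 h2
    have e : (d₁ * m₁) * (d₂ * m₂) = (d₁ * d₂) * (m₁ * m₂) := by ring
    rw [e]
    exact Nat.Coprime.dvd_mul_right (Nat.Coprime.mul_right h1.symm h2.symm)
  unfold Rg
  rw [split_sum hk Y (fun a => ∑ b ∈ Finset.Icc 1 Y,
    if k ∣ a * b then (((β a : ℝ) : ℂ) * (a : ℂ) ^ (-(1 + s))) * (((β b : ℝ) : ℂ) * (b : ℂ)⁻¹) else 0)]
  · refine Finset.sum_congr rfl fun d₁ hd₁ => ?_
    have h1 : ∀ m₁ ∈ Finset.Icc 1 Y, (if m₁.Coprime k then ∑ b ∈ Finset.Icc 1 Y,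
        (if k ∣ (d₁ * m₁) * b then (((β (d₁ * m₁) : ℝ) : ℂ) * ((d₁ * m₁ : ℕ) : ℂ) ^ (-(1 + s))) *
          (((β b : ℝ) : ℂ) * (b : ℂ)⁻¹) else 0)
          else 0) =
        ∑ d₂ ∈ k.divisors, (if k ∣ d₁ * d₂ then
          (if m₁.Coprime k then ((β (d₁ * m₁) : ℝ) : ℂ) * ((d₁ * m₁ : ℕ) : ℂ) ^ (-(1 + s)) else 0) *
            gi 0 β Y k d₂ else 0) := by
      intro m₁ _
      split_ifs with hc
      · rw [split_sum hk Y (fun b => if k ∣ (d₁ * m₁) * b then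
          (((β (d₁ * m₁) : ℝ) : ℂ) * ((d₁ * m₁ : ℕ) : ℂ) ^ (-(1 + s))) *
          (((β b : ℝ) : ℂ) * (b : ℂ)⁻¹) else 0)]
        · refine Finset.sum_congr rfl fun d₂ hd₂ => ?_
          unfold gi
          split_ifs with hd
          · rw [Finset.mul_sum]
            refine Finset.sum_congr rfl fun m₂ _ => ?_
            split_ifs with hc2 h3
            · rw [add_zero, cpow_neg_one]
            · exact absurd ((hdvd d₁ m₁ d₂ m₂ hc hc2).2 hd) h3
            · rw [mul_zero]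
          · refine Finset.sum_eq_zero fun m₂ _ => ?_
            split_ifs with hc2 h3
            · exact absurd ((hdvd d₁ m₁ d₂ m₂ hc hc2).1 h3) hd
            · rfl
            · rfl
        · intro h hh
          rcases Nat.eq_zero_or_pos h with rfl | hp
          · exfalso
            apply hh
            simp
          refine hsq h hp ?_
          intro h0
          apply hh
          rw [h0]
          simp
      · simp
    rw [Finset.sum_congr rfl h1, Finset.sum_comm]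
    refine Finset.sum_congr rfl fun d₂ hd₂ => ?_
    split_ifs with hd
    · rw [← Finset.sum_mul]
      rfl
    · simp
  · intro h hh
    rcases Nat.eq_zero_or_pos h with rfl | hp
    · exfalso
      apply hh
      refine Finset.sum_eq_zero fun h₂ _ => ?_
      rw [Nat.cast_zero, hs0, mul_zero, zero_mul (((β h₂ : ℝ) : ℂ) * (h₂ : ℂ)⁻¹), ite_self]
    refine hsq h hp ?_
    intro h0
    apply hh
    refine Finset.sum_eq_zero fun h₂ _ => ?_
    rw [h0]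
    simp

theorem rrep (w : ℝ → ℂ) (C : ℝ) (hC : 0 < C) (hw : Continuous w) (hd : ∀ τ, ‖w τ‖ ≤ C * (1 + |τ|) ^ (-10 : ℝ))
    (L : ℝ) (hL : 1 ≤ L) (β : ℕ → ℝ) (Y : ℕ)
    (hβ : ∀ n : ℕ, 1 ≤ n → ((β n : ℝ) : ℂ) = ((al n : ℝ) : ℂ) * ∫ τ : ℝ, w τ * (n : ℂ) ^ (-((1 + I * τ) / L)))
    (hY : ∀ n : ℕ, Y < n → β n = 0) (s : ℂ) (hs : 0 ≤ s.re) (k : ℕ) (hk : 1 ≤ k) :
    Rg s β Y k = ∫ τ₁ : ℝ, ∫ τ₂ : ℝ, w τ₁ * w τ₂ *
      (V (s + (1 + I * τ₁) / L) ((1 + I * τ₂) / L) k * Q (s + (1 + I * τ₁) / L) k * Q ((1 + I * τ₂) / L) k) := by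
  have hwi := w_int w C hw hd
  have hsq : ∀ n : ℕ, 1 ≤ n → β n ≠ 0 → Squarefree n ∧ n ≤ Y := by
    intro n hn hne
    refine ⟨?_, ?_⟩
    · by_contra hns
      apply hne
      have h1 := hβ n hn
      have h2 : al n = 0 := by
        unfold al
        rw [if_neg hns]
      rw [h2] at h1
      simpa using h1
    · by_contra hns
      exact hne (hY n (by omega))
  have hs0 : (0 : ℂ) ^ (-(1 + s)) = 0 := by
    rw [Complex.zero_cpow]
    intro h
    have := congrArg Complex.re h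
    simp at this
    linarith
  rw [Rg_split s β Y hsq hs0 k hk]
  have h0 : 0 ≤ (0 : ℂ).re := by simp
  -- integrability
  have hint : ∀ (s : ℂ), 0 ≤ s.re → ∀ d ∈ k.divisors,
      Integrable (fun τ : ℝ => w τ * (kf s L d τ * Q (zz s L τ) k)) := by
    intro s hs d hd'
    have hd1 : 1 ≤ d := Nat.pos_of_mem_divisors hd'
    refine hwi.mul_bdd (c := ∑' m : ℕ, (m : ℝ) ^ (-(1 + 1 / L)))
      ((kf_cont s L d hd1).mul (Q_cont s hs hL k)).aestronglyMeasurable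
      (Eventually.of_forall fun τ => ?_)
    rw [norm_mul]
    calc _ ≤ 1 * (∑' m : ℕ, (m : ℝ) ^ (-(1 + 1 / L))) :=
          mul_le_mul (kf_norm s hs hL d hd1 τ) (Q_bd s hs hL k τ) (norm_nonneg _) zero_le_one
      _ = _ := one_mul _
  have hz0 : ∀ τ : ℝ, (1 + I * (τ : ℂ)) / (L : ℂ) = zz 0 L τ := by
    intro τ
    unfold zz
    rw [zero_add]
  have hzs : ∀ τ : ℝ, s + (1 + I * (τ : ℂ)) / (L : ℂ) = zz s L τ := fun τ => rfl
  have hgs : ∀ d ∈ k.divisors, gi s β Y k d = ∫ τ : ℝ, w τ * (kf s L d τ * Q (zz s L τ) k) :=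
    fun d hd' => gi_eq w hwi L hL β Y hβ hY s hs k hk d (Nat.dvd_of_mem_divisors hd')
  have hg0 : ∀ d ∈ k.divisors, gi 0 β Y k d = ∫ τ : ℝ, w τ * (kf 0 L d τ * Q (zz 0 L τ) k) :=
    fun d hd' => gi_eq w hwi L hL β Y hβ hY 0 h0 k hk d (Nat.dvd_of_mem_divisors hd')
  -- the inner integral
  have hinner : ∀ τ₁ : ℝ, (∫ τ₂ : ℝ, w τ₁ * w τ₂ *
      (V (s + (1 + I * τ₁) / L) ((1 + I * τ₂) / L) k * Q (s + (1 + I * τ₁) / L) k * Q ((1 + I * τ₂) / L) k)) =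
      ∑ d₁ ∈ k.divisors, ∑ d₂ ∈ k.divisors, (if k ∣ d₁ * d₂ then
        (w τ₁ * (kf s L d₁ τ₁ * Q (zz s L τ₁) k)) * gi 0 β Y k d₂ else 0) := by
    intro τ₁
    have e : ∀ τ₂ : ℝ, w τ₁ * w τ₂ *
      (V (s + (1 + I * τ₁) / L) ((1 + I * τ₂) / L) k * Q (s + (1 + I * τ₁) / L) k * Q ((1 + I * τ₂) / L) k) =
      ∑ d₁ ∈ k.divisors, ∑ d₂ ∈ k.divisors, (if k ∣ d₁ * d₂ then
        (w τ₁ * (kf s L d₁ τ₁ * Q (zz s L τ₁) k)) else 0) * (w τ₂ * (kf 0 L d₂ τ₂ * Q (zz 0 L τ₂) k)) := by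
      intro τ₂
      rw [hz0 τ₂, hzs]
      unfold V
      rw [Finset.sum_mul, Finset.sum_mul, Finset.mul_sum]
      refine Finset.sum_congr rfl fun d₁ _ => ?_
      rw [Finset.sum_mul, Finset.sum_mul, Finset.mul_sum]
      refine Finset.sum_congr rfl fun d₂ _ => ?_
      split_ifs
      · unfold kf
        ring
      · simp
    simp only [e]
    rw [integral_finsetSum]
    · refine Finset.sum_congr rfl fun d₁ _ => ?_
      rw [integral_finsetSum]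
      · refine Finset.sum_congr rfl fun d₂ hd₂ => ?_
        rw [integral_const_mul, ← hg0 d₂ hd₂]
        split_ifs
        · rfl
        · rw [zero_mul]
      · intro d₂ hd₂
        exact (hint 0 h0 d₂ hd₂).const_mul _
    · intro d₁ _
      refine integrable_finsetSum _ fun d₂ hd₂ => ?_
      exact (hint 0 h0 d₂ hd₂).const_mul _
  simp only [hinner]
  rw [integral_finsetSum]
  · refine Finset.sum_congr rfl fun d₁ hd₁ => ?_
    rw [integral_finsetSum]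
    · refine Finset.sum_congr rfl fun d₂ hd₂ => ?_
      split_ifs
      · rw [integral_mul_const, ← hgs d₁ hd₁]
      · rw [integral_zero]
    · intro d₂ hd₂
      split_ifs
      · exact (hint s hs d₁ hd₁).mul_const _
      · exact integrable_zero _ _ _
  · intro d₁ hd₁
    refine integrable_finsetSum _ fun d₂ hd₂ => ?_
    split_ifs
    · exact (hint s hs d₁ hd₁).mul_const _
    · exact integrable_zero _ _ _

end Pool.Agent.Helper647.SG.JRR
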