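import Mathlib

set_option autoImplicit false

namespace Pool.Agent.Helper647.SG.JRS

open Complex Filter Topology MeasureTheory Set

/-- `s = 1/L - i τ` -/
noncomputable def sL (L τ : ℝ) : ℂ := ((1 / L : ℝ) : ℂ) - I * τ

theorem rs_one_add_abs_sub (a b : ℝ) : 1 + |a - b| ≤ (1 + |a|) * (1 + |b|) := by
  have h1 : |a - b| ≤ |a| + |b| := abs_sub a b
  nlinarith [abs_nonneg a, abs_nonneg b, mul_nonneg (abs_nonneg a) (abs_nonneg b)]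

theorem rs_CS (W g : ℝ × ℝ → ℝ) (hW : ∀ z, 0 ≤ W z) (i0 : Integrable W)
    (i1 : Integrable (fun z => W z * g z)) (i2 : Integrable (fun z => W z * g z ^ 2)) :
    (∫ z, W z * g z) ^ 2 ≤ ((∫ z, W z) + 1) * ∫ z, W z * g z ^ 2 := by
  set M := ∫ z, W z with hM
  set X := ∫ z, W z * g z with hX
  set Z := ∫ z, W z * g z ^ 2 with hZ
  have hM0 : 0 ≤ M := integral_nonneg hW
  have key : ∀ a : ℝ, 0 ≤ Z - 2 * a * X + a ^ 2 * M := by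
    intro a
    have e : ∫ z, ((W z * g z ^ 2 - 2 * a * (W z * g z)) + a ^ 2 * W z) = Z - 2 * a * X + a ^ 2 * M := by
      have j1 : Integrable (fun z => 2 * a * (W z * g z)) := i1.const_mul (2 * a)
      have j : Integrable (fun z => W z * g z ^ 2 - 2 * a * (W z * g z)) := i2.sub j1
      rw [integral_add j (i0.const_mul (a ^ 2)), integral_sub i2 j1, integral_const_mul, integral_const_mul]
    rw [← e]
    apply integral_nonneg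
    intro z
    have : W z * g z ^ 2 - 2 * a * (W z * g z) + a ^ 2 * W z = W z * (g z - a) ^ 2 := by ring
    show 0 ≤ W z * g z ^ 2 - 2 * a * (W z * g z) + a ^ 2 * W z
    rw [this]
    exact mul_nonneg (hW z) (sq_nonneg _)
  have hM1 : 0 < M + 1 := by linarith
  have h := key (X / (M + 1))
  have h2 : (X / (M + 1)) ^ 2 * M ≤ (X / (M + 1)) ^ 2 * (M + 1) :=
    mul_le_mul_of_nonneg_left (by linarith) (sq_nonneg _)
  have h3 : (X / (M + 1)) ^ 2 * (M + 1) = X ^ 2 / (M + 1) := by field_simp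
  have h4 : 2 * (X / (M + 1)) * X = 2 * (X ^ 2 / (M + 1)) := by ring
  have h5 : X ^ 2 / (M + 1) ≤ Z := by
    rw [h4] at h; rw [h3] at h2; linarith
  rw [div_le_iff₀ hM1] at h5
  linarith

theorem rs_point (Q : ℂ → ℕ → ℂ) (V : ℂ → ℂ → ℕ → ℂ)
    (hQ : ∃ C : ℝ, 0 < C ∧ ∀ (z : ℂ) (k : ℕ), 0 < z.re → 1 ≤ k →
      ‖Q z k‖ ^ 2 ≤ C * (k / (Nat.totient k : ℝ)) * ‖(riemannZeta (1 + z))⁻¹‖)
    (hVs : ∃ C : ℝ, 0 < C ∧ ∀ (L : ℝ) (z₁ z₂ : ℂ) (K : ℕ), 1 ≤ L → z₁.re = 2 / L → z₂.re = 1 / L →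
      ∑ k ∈ Finset.Icc 1 K, (k : ℝ) ^ (1 + 1 / L) * (k / (Nat.totient k : ℝ)) ^ 3 * ‖V z₁ z₂ k‖ ^ 2 ≤
        C * (‖riemannZeta (1 + ((3 / L : ℝ) : ℂ))‖ ^ (1 / 4 : ℝ) * ‖riemannZeta (1 + ((1 / L : ℝ) : ℂ))‖ ^ (1 / 4 : ℝ) *
          ‖riemannZeta (1 + ((2 / L : ℝ) : ℂ) + I * ((z₁.im - z₂.im : ℝ) : ℂ))‖ ^ (1 / 2 : ℝ)))
    (hZ : ∀ R : ℝ, 1 ≤ R → ∃ C : ℝ, 1 ≤ C ∧ ∀ L x τ τ' : ℝ, 1 ≤ L → 1 / L ≤ x → x ≤ 3 / L → |τ| ≤ R →
      ‖(riemannZeta (1 + (x : ℂ) + I * ((τ + τ' / L : ℝ) : ℂ)))⁻¹‖ ≤ C * (1 + |τ * L + τ'|) / L * (1 + |τ'|) ^ 2 ∧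
      ‖riemannZeta (1 + (x : ℂ) + I * ((τ + τ' / L : ℝ) : ℂ))‖ ≤ C * L / (1 + |τ * L + τ'|) * (1 + |τ'|))
    (R : ℝ) (hR : 1 ≤ R) : ∃ C : ℝ, 0 < C ∧ ∀ (L τ : ℝ) (K : ℕ) (t₁ t₂ : ℝ), 1 ≤ L → |τ| ≤ R →
      ∑ k ∈ Finset.Icc 1 K, (k : ℝ) ^ (1 + 1 / L) * (k / (Nat.totient k : ℝ)) *
        ‖V (sL L τ + (1 + I * t₁) / L) ((1 + I * t₂) / L) k * Q (sL L τ + (1 + I * t₁) / L) k *
          Q ((1 + I * t₂) / L) k‖ ^ 2 ≤
        C * (1 + |τ| * L) ^ (1 / 2 : ℝ) / L * ((1 + |t₁|) ^ 4 * (1 + |t₂|) ^ 4) := by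
  obtain ⟨CQ, hCQ, hQ⟩ := hQ
  obtain ⟨CV, hCV, hVs⟩ := hVs
  obtain ⟨CZ, hCZ, hZ⟩ := hZ R hR
  have hCZ0 : 0 < CZ := by linarith
  refine ⟨CQ ^ 2 * CV * CZ ^ 3, by positivity, ?_⟩
  intro L τ K t₁ t₂ hL hτ
  have hL0 : 0 < L := by linarith
  have hLc : (L : ℂ) ≠ 0 := by exact_mod_cast hL0.ne'
  set z₁ : ℂ := sL L τ + (1 + I * t₁) / L with hz₁
  set z₂ : ℂ := (1 + I * t₂) / L with hz₂
  have ez₁ : z₁ = ((2 / L : ℝ) : ℂ) + I * ((-τ + t₁ / L : ℝ) : ℂ) := by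
    rw [hz₁, sL]; push_cast; field_simp; ring
  have ez₂ : z₂ = ((1 / L : ℝ) : ℂ) + I * ((0 + t₂ / L : ℝ) : ℂ) := by
    rw [hz₂]; push_cast; field_simp; ring
  have r1 : z₁.re = 2 / L := by rw [ez₁]; simp
  have i1 : z₁.im = -τ + t₁ / L := by rw [ez₁]; simp
  have r2 : z₂.re = 1 / L := by rw [ez₂]; simp
  have i2 : z₂.im = t₂ / L := by rw [ez₂]; simp
  have hnτ : |-τ| ≤ R := by rw [abs_neg]; exact hτ
  have h0R : |(0 : ℝ)| ≤ R := by rw [abs_zero]; linarith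
  have l12 : 1 / L ≤ 2 / L := by gcongr; norm_num
  have l23 : 2 / L ≤ 3 / L := by gcongr; norm_num
  have Z1 := (hZ L (2 / L) (-τ) t₁ hL l12 l23 hnτ).1
  have Z2 := (hZ L (1 / L) 0 t₂ hL le_rfl (l12.trans l23) h0R).1
  have Z3 := (hZ L (2 / L) (-τ) (t₁ - t₂) hL l12 l23 hnτ).2
  have Z4 := (hZ L (3 / L) 0 0 hL (l12.trans l23) le_rfl h0R).2
  have Z5 := (hZ L (1 / L) 0 0 hL le_rfl (l12.trans l23) h0R).2
  rw [show (1 : ℂ) + ((2 / L : ℝ) : ℂ) + I * ((-τ + t₁ / L : ℝ) : ℂ) = 1 + z₁ by rw [ez₁]; ring] at Z1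
  rw [show (1 : ℂ) + ((1 / L : ℝ) : ℂ) + I * ((0 + t₂ / L : ℝ) : ℂ) = 1 + z₂ by rw [ez₂]; ring] at Z2
  have Z4' : ‖riemannZeta (1 + ((3 / L : ℝ) : ℂ))‖ ≤ CZ * L := by
    have := Z4; simpa using this
  have Z5' : ‖riemannZeta (1 + ((1 / L : ℝ) : ℂ))‖ ≤ CZ * L := by
    have := Z5; simpa using this
  have Z3' : ‖riemannZeta (1 + ((2 / L : ℝ) : ℂ) + I * ((z₁.im - z₂.im : ℝ) : ℂ))‖ ≤
      CZ * L * ((1 + |t₁ - t₂|) / (1 + |-τ * L + (t₁ - t₂)|)) := by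
    have e : (z₁.im - z₂.im : ℝ) = -τ + (t₁ - t₂) / L := by rw [i1, i2]; ring
    rw [e]
    calc _ ≤ _ := Z3
      _ = _ := by ring
  have S := hVs L z₁ z₂ K hL r1 r2
  -- the sum
  set u : ℝ := (1 + |t₁ - t₂|) / (1 + |-τ * L + (t₁ - t₂)|) with hu
  have hu0 : 0 ≤ u := by positivity
  have hq : 0 < CZ * L := by positivity
  have S2 : ∑ k ∈ Finset.Icc 1 K, (k : ℝ) ^ (1 + 1 / L) * (k / (Nat.totient k : ℝ)) ^ 3 * ‖V z₁ z₂ k‖ ^ 2 ≤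
      CV * (CZ * L * u ^ (1 / 2 : ℝ)) := by
    refine S.trans (mul_le_mul_of_nonneg_left ?_ hCV.le)
    have a1 : ‖riemannZeta (1 + ((3 / L : ℝ) : ℂ))‖ ^ (1 / 4 : ℝ) ≤ (CZ * L) ^ (1 / 4 : ℝ) :=
      Real.rpow_le_rpow (norm_nonneg _) Z4' (by norm_num)
    have a2 : ‖riemannZeta (1 + ((1 / L : ℝ) : ℂ))‖ ^ (1 / 4 : ℝ) ≤ (CZ * L) ^ (1 / 4 : ℝ) :=
      Real.rpow_le_rpow (norm_nonneg _) Z5' (by norm_num)
    have a3 : ‖riemannZeta (1 + ((2 / L : ℝ) : ℂ) + I * ((z₁.im - z₂.im : ℝ) : ℂ))‖ ^ (1 / 2 : ℝ) ≤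
        (CZ * L * u) ^ (1 / 2 : ℝ) :=
      Real.rpow_le_rpow (norm_nonneg _) Z3' (by norm_num)
    have b0 : 0 ≤ (CZ * L) ^ (1 / 4 : ℝ) := Real.rpow_nonneg hq.le _
    calc _ ≤ (CZ * L) ^ (1 / 4 : ℝ) * (CZ * L) ^ (1 / 4 : ℝ) * (CZ * L * u) ^ (1 / 2 : ℝ) := by
          refine mul_le_mul (mul_le_mul a1 a2 (Real.rpow_nonneg (norm_nonneg _) _) b0) a3
            (Real.rpow_nonneg (norm_nonneg _) _) (mul_nonneg b0 b0)
      _ = CZ * L * u ^ (1 / 2 : ℝ) := by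
          rw [← Real.rpow_add hq, Real.mul_rpow hq.le hu0, ← mul_assoc, ← Real.rpow_add hq]
          norm_num
  -- termwise
  have T : ∑ k ∈ Finset.Icc 1 K, (k : ℝ) ^ (1 + 1 / L) * (k / (Nat.totient k : ℝ)) *
        ‖V z₁ z₂ k * Q z₁ k * Q z₂ k‖ ^ 2 ≤
      (CQ ^ 2 * ‖(riemannZeta (1 + z₁))⁻¹‖ * ‖(riemannZeta (1 + z₂))⁻¹‖) *
        ∑ k ∈ Finset.Icc 1 K, (k : ℝ) ^ (1 + 1 / L) * (k / (Nat.totient k : ℝ)) ^ 3 * ‖V z₁ z₂ k‖ ^ 2 := by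
    rw [Finset.mul_sum]
    refine Finset.sum_le_sum fun k hk => ?_
    have hk1 : 1 ≤ k := (Finset.mem_Icc.mp hk).1
    have q1 := hQ z₁ k (by rw [r1]; positivity) hk1
    have q2 := hQ z₂ k (by rw [r2]; positivity) hk1
    have p0 : 0 ≤ (k : ℝ) ^ (1 + 1 / L) := Real.rpow_nonneg (Nat.cast_nonneg _) _
    have p1 : 0 ≤ (k / (Nat.totient k : ℝ)) := by positivity
    have e : ‖V z₁ z₂ k * Q z₁ k * Q z₂ k‖ ^ 2 = ‖V z₁ z₂ k‖ ^ 2 * (‖Q z₁ k‖ ^ 2 * ‖Q z₂ k‖ ^ 2) := by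
      rw [norm_mul, norm_mul]; ring
    rw [e]
    have m : ‖Q z₁ k‖ ^ 2 * ‖Q z₂ k‖ ^ 2 ≤ (CQ * (k / (Nat.totient k : ℝ)) * ‖(riemannZeta (1 + z₁))⁻¹‖) *
        (CQ * (k / (Nat.totient k : ℝ)) * ‖(riemannZeta (1 + z₂))⁻¹‖) :=
      mul_le_mul q1 q2 (sq_nonneg _) (by positivity)
    calc (k : ℝ) ^ (1 + 1 / L) * (k / (Nat.totient k : ℝ)) *
          (‖V z₁ z₂ k‖ ^ 2 * (‖Q z₁ k‖ ^ 2 * ‖Q z₂ k‖ ^ 2))
        ≤ (k : ℝ) ^ (1 + 1 / L) * (k / (Nat.totient k : ℝ)) * (‖V z₁ z₂ k‖ ^ 2 *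
          ((CQ * (k / (Nat.totient k : ℝ)) * ‖(riemannZeta (1 + z₁))⁻¹‖) *
            (CQ * (k / (Nat.totient k : ℝ)) * ‖(riemannZeta (1 + z₂))⁻¹‖))) := by
          refine mul_le_mul_of_nonneg_left (mul_le_mul_of_nonneg_left m (sq_nonneg _)) (mul_nonneg p0 p1)
      _ = _ := by ring
  refine T.trans ?_
  have hZ1 : ‖(riemannZeta (1 + z₁))⁻¹‖ ≤ CZ * (1 + |t₁ - τ * L|) / L * (1 + |t₁|) ^ 2 := by
    have e : -τ * L + t₁ = t₁ - τ * L := by ring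
    rw [e] at Z1; exact Z1
  have hZ2 : ‖(riemannZeta (1 + z₂))⁻¹‖ ≤ CZ * (1 + |t₂|) / L * (1 + |t₂|) ^ 2 := by
    have e : (0 : ℝ) * L + t₂ = t₂ := by ring
    rw [e] at Z2; exact Z2
  -- the elementary inequality
  have main : (1 + |t₁ - τ * L|) * u ^ (1 / 2 : ℝ) ≤
      (1 + |τ| * L) ^ (1 / 2 : ℝ) * ((1 + |t₁|) * (1 + |t₂|)) := by
    rw [← Real.sqrt_eq_rpow, ← Real.sqrt_eq_rpow]
    have d0 : 0 < 1 + |-τ * L + (t₁ - t₂)| := by positivity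
    have lhs0 : 0 ≤ (1 + |t₁ - τ * L|) := by positivity
    have e1 : (1 + |t₁ - τ * L|) * √u = √((1 + |t₁ - τ * L|) ^ 2 * u) := by
      rw [Real.sqrt_mul (sq_nonneg _), Real.sqrt_sq lhs0]
    have e2 : √(1 + |τ| * L) * ((1 + |t₁|) * (1 + |t₂|)) =
        √((1 + |τ| * L) * ((1 + |t₁|) * (1 + |t₂|)) ^ 2) := by
      rw [Real.sqrt_mul (by positivity), Real.sqrt_sq (by positivity)]
    rw [e1, e2]
    apply Real.sqrt_le_sqrt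
    rw [hu, ← mul_div_assoc, div_le_iff₀ d0]
    have f1 : 1 + |t₁ - τ * L| ≤ (1 + |t₁|) * (1 + |τ| * L) := by
      have := rs_one_add_abs_sub t₁ (τ * L)
      rwa [abs_mul, abs_of_pos hL0] at this
    have f2 : 1 + |t₁ - τ * L| ≤ (1 + |-τ * L + (t₁ - t₂)|) * (1 + |t₂|) := by
      have := rs_one_add_abs_sub (-τ * L + (t₁ - t₂)) (-t₂)
      rw [abs_neg] at this
      have e : -τ * L + (t₁ - t₂) - -t₂ = t₁ - τ * L := by ring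
      rwa [e] at this
    have f3 := rs_one_add_abs_sub t₁ t₂
    calc (1 + |t₁ - τ * L|) ^ 2 * (1 + |t₁ - t₂|)
        = (1 + |t₁ - τ * L|) * (1 + |t₁ - τ * L|) * (1 + |t₁ - t₂|) := by ring
      _ ≤ ((1 + |t₁|) * (1 + |τ| * L)) * ((1 + |-τ * L + (t₁ - t₂)|) * (1 + |t₂|)) *
          ((1 + |t₁|) * (1 + |t₂|)) := by
          refine mul_le_mul (mul_le_mul f1 f2 lhs0 (by positivity)) f3 (by positivity) (by positivity)
      _ = _ := by ring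
  have A1 : 1 ≤ 1 + |t₁| := by linarith [abs_nonneg t₁]
  calc _ ≤ (CQ ^ 2 * (CZ * (1 + |t₁ - τ * L|) / L * (1 + |t₁|) ^ 2) * (CZ * (1 + |t₂|) / L * (1 + |t₂|) ^ 2)) *
        (CV * (CZ * L * u ^ (1 / 2 : ℝ))) := by
        refine mul_le_mul ?_ S2 ?_ (by positivity)
        · refine mul_le_mul (mul_le_mul_of_nonneg_left hZ1 (by positivity)) hZ2 (norm_nonneg _) (by positivity)
        · refine Finset.sum_nonneg fun k _ => ?_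
          have p0 : 0 ≤ (k : ℝ) ^ (1 + 1 / L) := Real.rpow_nonneg (Nat.cast_nonneg _) _
          positivity
    _ = (CQ ^ 2 * CV * CZ ^ 3) / L * ((1 + |t₁|) ^ 2 * (1 + |t₂|) ^ 3) *
        ((1 + |t₁ - τ * L|) * u ^ (1 / 2 : ℝ)) := by field_simp
    _ ≤ (CQ ^ 2 * CV * CZ ^ 3) / L * ((1 + |t₁|) ^ 2 * (1 + |t₂|) ^ 3) *
        ((1 + |τ| * L) ^ (1 / 2 : ℝ) * ((1 + |t₁|) * (1 + |t₂|))) :=
        mul_le_mul_of_nonneg_left main (by positivity)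
    _ = (CQ ^ 2 * CV * CZ ^ 3 * (1 + |τ| * L) ^ (1 / 2 : ℝ) / L) * ((1 + |t₁|) ^ 3 * (1 + |t₂|) ^ 4) := by ring
    _ ≤ _ := by
        have g0 : 0 ≤ (1 + |τ| * L) ^ (1 / 2 : ℝ) := Real.rpow_nonneg (by positivity) _
        refine mul_le_mul_of_nonneg_left (mul_le_mul_of_nonneg_right ?_ (by positivity)) (by positivity)
        exact pow_le_pow_right₀ A1 (by norm_num)

theorem rs_int10 : Integrable (fun t : ℝ => (1 + |t|) ^ (-10 : ℝ)) := by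
  have h := integrable_one_add_norm (E := ℝ) (μ := volume) (r := 10) (by simp)
  simpa [Real.norm_eq_abs] using h

theorem rs_int6 : Integrable (fun t : ℝ => (1 + |t|) ^ 4 * (1 + |t|) ^ (-10 : ℝ)) := by
  have h := integrable_one_add_norm (E := ℝ) (μ := volume) (r := 6) (by simp)
  refine (h.congr (Filter.Eventually.of_forall fun t => ?_))
  have h0 : (0 : ℝ) < 1 + |t| := by positivity
  simp only [Real.norm_eq_abs]
  rw [← Real.rpow_natCast, ← Real.rpow_add h0]; norm_num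

/- TASK (helper647, project SG): prove this theorem (axioms propext, Classical.choice, Quot.sound only; helper lemmas welcome;
keep the statement, the definition and the namespace). Q, V, J, Rg are arbitrary functions here. -/
theorem rsum (Q : ℂ → ℕ → ℂ) (V : ℂ → ℂ → ℕ → ℂ) (J : ℂ → ℕ → ℂ) (Rg : ℂ → (ℕ → ℝ) → ℕ → ℕ → ℂ) (bR : ℝ → ℕ → ℝ)
    (w : ℝ → ℂ) (Cw : ℝ) (hCw : 0 < Cw) (hw : Continuous w) (hd : ∀ τ, ‖w τ‖ ≤ Cw * (1 + |τ|) ^ (-10 : ℝ))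
    (hc : ∀ (L : ℝ) (s : ℂ) (k : ℕ), 1 ≤ L → 0 ≤ s.re → 1 ≤ k → Continuous (fun x : ℝ × ℝ =>
      V (s + (1 + I * x.1) / L) ((1 + I * x.2) / L) k * Q (s + (1 + I * x.1) / L) k * Q ((1 + I * x.2) / L) k))
    (hrep : ∀ (L : ℝ) (s : ℂ) (Y k : ℕ), 1 ≤ L → 0 ≤ s.re → Real.exp (1 / 1000 * L) ≤ Y → 1 ≤ k →
      Rg s (bR L) Y k = ∫ τ₁ : ℝ, ∫ τ₂ : ℝ, w τ₁ * w τ₂ *
        (V (s + (1 + I * τ₁) / L) ((1 + I * τ₂) / L) k * Q (s + (1 + I * τ₁) / L) k * Q ((1 + I * τ₂) / L) k))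
    (hJ : ∀ (w : ℂ) (n : ℕ), 1 ≤ n → 1 ≤ w.re → ‖J w n‖ ≤ (n : ℝ) ^ w.re * (n / (Nat.totient n : ℝ)))
    (hQ : ∃ C : ℝ, 0 < C ∧ ∀ (z : ℂ) (k : ℕ), 0 < z.re → 1 ≤ k →
      ‖Q z k‖ ^ 2 ≤ C * (k / (Nat.totient k : ℝ)) * ‖(riemannZeta (1 + z))⁻¹‖)
    (hVs : ∃ C : ℝ, 0 < C ∧ ∀ (L : ℝ) (z₁ z₂ : ℂ) (K : ℕ), 1 ≤ L → z₁.re = 2 / L → z₂.re = 1 / L →
      ∑ k ∈ Finset.Icc 1 K, (k : ℝ) ^ (1 + 1 / L) * (k / (Nat.totient k : ℝ)) ^ 3 * ‖V z₁ z₂ k‖ ^ 2 ≤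
        C * (‖riemannZeta (1 + ((3 / L : ℝ) : ℂ))‖ ^ (1 / 4 : ℝ) * ‖riemannZeta (1 + ((1 / L : ℝ) : ℂ))‖ ^ (1 / 4 : ℝ) *
          ‖riemannZeta (1 + ((2 / L : ℝ) : ℂ) + I * ((z₁.im - z₂.im : ℝ) : ℂ))‖ ^ (1 / 2 : ℝ)))
    (hZ : ∀ R : ℝ, 1 ≤ R → ∃ C : ℝ, 1 ≤ C ∧ ∀ L x τ τ' : ℝ, 1 ≤ L → 1 / L ≤ x → x ≤ 3 / L → |τ| ≤ R →
      ‖(riemannZeta (1 + (x : ℂ) + I * ((τ + τ' / L : ℝ) : ℂ)))⁻¹‖ ≤ C * (1 + |τ * L + τ'|) / L * (1 + |τ'|) ^ 2 ∧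
      ‖riemannZeta (1 + (x : ℂ) + I * ((τ + τ' / L : ℝ) : ℂ))‖ ≤ C * L / (1 + |τ * L + τ'|) * (1 + |τ'|)) :
    ∀ R : ℝ, 1 ≤ R → ∃ C : ℝ, 0 < C ∧ ∀ (L τ : ℝ) (Y K : ℕ), 1 ≤ L → |τ| ≤ R → Real.exp (1 / 1000 * L) ≤ Y →
      ∑ k ∈ Finset.Icc 1 K, ‖J (1 + sL L τ) k‖ * ‖Rg (sL L τ) (bR L) Y k‖ ^ 2 ≤
        C * (1 + |τ| * L) ^ (1 / 2 : ℝ) / L := by
  intro R hR
  obtain ⟨C0, hC0, hP⟩ := rs_point Q V hQ hVs hZ R hR
  -- the weight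
  set φ : ℝ → ℝ := fun t => (1 + |t|) ^ (-10 : ℝ) with hφ
  have hφ0 : ∀ t, 0 ≤ φ t := fun t => Real.rpow_nonneg (by positivity) _
  set W : ℝ × ℝ → ℝ := fun z => Cw ^ 2 * (φ z.1 * φ z.2) with hWdef
  have hW0 : ∀ z, 0 ≤ W z := fun z => mul_nonneg (sq_nonneg _) (mul_nonneg (hφ0 _) (hφ0 _))
  have iW : Integrable W := (rs_int10.mul_prod rs_int10).const_mul _
  set P : ℝ × ℝ → ℝ := fun z => (1 + |z.1|) ^ 4 * (1 + |z.2|) ^ 4 with hPdef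
  have iWP : Integrable (fun z => W z * P z) := by
    have h := (rs_int6.mul_prod rs_int6).const_mul (Cw ^ 2)
    refine h.congr (Filter.Eventually.of_forall fun z => ?_)
    simp only [hWdef, hPdef, hφ]; ring
  have hP1 : ∀ z, 1 ≤ P z := by
    intro z
    have a1 : (1 : ℝ) ≤ (1 + |z.1|) ^ 4 := one_le_pow₀ (by linarith [abs_nonneg z.1])
    have a2 : (1 : ℝ) ≤ (1 + |z.2|) ^ 4 := one_le_pow₀ (by linarith [abs_nonneg z.2])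
    show 1 ≤ (1 + |z.1|) ^ 4 * (1 + |z.2|) ^ 4
    nlinarith
  have iWP0 : 0 ≤ ∫ z, W z * P z := integral_nonneg fun z => mul_nonneg (hW0 z) (by linarith [hP1 z])
  have iW00 : 0 ≤ ∫ z, W z := integral_nonneg hW0
  refine ⟨((∫ z, W z) + 1) * (C0 * (∫ z, W z * P z)) + 1, by positivity, ?_⟩
  intro L τ Y K hL hτ hY
  have hL0 : 0 < L := by linarith
  have hsre : (sL L τ).re = 1 / L := by simp [sL]
  have hs0 : 0 ≤ (sL L τ).re := by rw [hsre]; positivity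
  -- abbreviations
  set F : ℕ → ℝ × ℝ → ℂ := fun k x =>
    V (sL L τ + (1 + I * x.1) / L) ((1 + I * x.2) / L) k * Q (sL L τ + (1 + I * x.1) / L) k *
      Q ((1 + I * x.2) / L) k with hF
  set A : ℕ → ℝ := fun k => (k : ℝ) ^ (1 + 1 / L) * (k / (Nat.totient k : ℝ)) with hA
  set B : ℝ := C0 * (1 + |τ| * L) ^ (1 / 2 : ℝ) / L with hB
  have g0 : 0 ≤ (1 + |τ| * L) ^ (1 / 2 : ℝ) := Real.rpow_nonneg (by positivity) _
  have hB0 : 0 ≤ B := by rw [hB]; positivity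
  have hAk : ∀ k ∈ Finset.Icc 1 K, 1 ≤ A k := by
    intro k hk
    have hk1 : 1 ≤ k := (Finset.mem_Icc.mp hk).1
    have hk1' : (1 : ℝ) ≤ k := by exact_mod_cast hk1
    have a1 : 1 ≤ (k : ℝ) ^ (1 + 1 / L) := Real.one_le_rpow hk1' (by positivity)
    have a2 : 1 ≤ (k / (Nat.totient k : ℝ)) := by
      rw [le_div_iff₀ (by exact_mod_cast Nat.totient_pos.mpr hk1), one_mul]
      exact_mod_cast Nat.totient_le k
    show 1 ≤ (k : ℝ) ^ (1 + 1 / L) * (k / (Nat.totient k : ℝ))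
    nlinarith
  have hsum : ∀ z : ℝ × ℝ, ∑ k ∈ Finset.Icc 1 K, A k * ‖F k z‖ ^ 2 ≤ B * P z := by
    intro z
    have := hP L τ K z.1 z.2 hL hτ
    simpa only [hA, hF, hB, hPdef] using this
  have hone : ∀ k ∈ Finset.Icc 1 K, ∀ z : ℝ × ℝ, ‖F k z‖ ^ 2 ≤ B * P z := by
    intro k hk z
    have h1 : A k * ‖F k z‖ ^ 2 ≤ ∑ k ∈ Finset.Icc 1 K, A k * ‖F k z‖ ^ 2 :=
      Finset.single_le_sum (f := fun k => A k * ‖F k z‖ ^ 2)
        (fun j hj => mul_nonneg (by linarith [hAk j hj]) (sq_nonneg _)) hk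
    have h2 : ‖F k z‖ ^ 2 ≤ A k * ‖F k z‖ ^ 2 := by
      nlinarith [hAk k hk, sq_nonneg ‖F k z‖]
    exact h2.trans (h1.trans (hsum z))
  have hFc : ∀ k ∈ Finset.Icc 1 K, Continuous (F k) := fun k hk =>
    hc L (sL L τ) k hL hs0 (Finset.mem_Icc.mp hk).1
  have hφc : Continuous φ := by
    rw [hφ]
    refine Continuous.rpow_const (by fun_prop) fun t => Or.inl ?_
    have : (0 : ℝ) < 1 + |t| := by positivity
    exact this.ne'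
  have hWc : Continuous W := by
    rw [hWdef]
    exact continuous_const.mul ((hφc.comp continuous_fst).mul (hφc.comp continuous_snd))
  have i2 : ∀ k ∈ Finset.Icc 1 K, Integrable (fun z => W z * ‖F k z‖ ^ 2) := by
    intro k hk
    refine (iWP.const_mul B).mono' ((hWc.mul ((hFc k hk).norm.pow 2)).aestronglyMeasurable)
      (Filter.Eventually.of_forall fun z => ?_)
    rw [Real.norm_eq_abs, abs_of_nonneg (mul_nonneg (hW0 z) (sq_nonneg _))]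
    calc W z * ‖F k z‖ ^ 2 ≤ W z * (B * P z) := mul_le_mul_of_nonneg_left (hone k hk z) (hW0 z)
      _ = B * (W z * P z) := by ring
  have i1 : ∀ k ∈ Finset.Icc 1 K, Integrable (fun z => W z * ‖F k z‖) := by
    intro k hk
    refine (iW.add (i2 k hk)).mono' ((hWc.mul (hFc k hk).norm).aestronglyMeasurable)
      (Filter.Eventually.of_forall fun z => ?_)
    rw [Real.norm_eq_abs, abs_of_nonneg (mul_nonneg (hW0 z) (norm_nonneg _))]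
    show W z * ‖F k z‖ ≤ W z + W z * ‖F k z‖ ^ 2
    have : ‖F k z‖ ≤ 1 + ‖F k z‖ ^ 2 := by nlinarith [sq_nonneg (‖F k z‖ - 1), norm_nonneg (F k z)]
    nlinarith [hW0 z, mul_le_mul_of_nonneg_left this (hW0 z)]
  have hww : ∀ z : ℝ × ℝ, ‖w z.1 * w z.2‖ ≤ W z := by
    intro z
    rw [norm_mul]
    calc ‖w z.1‖ * ‖w z.2‖ ≤ (Cw * φ z.1) * (Cw * φ z.2) :=
          mul_le_mul (hd z.1) (hd z.2) (norm_nonneg _) (mul_nonneg hCw.le (hφ0 _))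
      _ = W z := by simp only [hWdef]; ring
  have hRg : ∀ k ∈ Finset.Icc 1 K, ‖Rg (sL L τ) (bR L) Y k‖ ≤ ∫ z, W z * ‖F k z‖ := by
    intro k hk
    have hk1 : 1 ≤ k := (Finset.mem_Icc.mp hk).1
    rw [hrep L (sL L τ) Y k hL hs0 hY hk1]
    have bd : ∀ z : ℝ × ℝ, ‖w z.1 * w z.2 * F k z‖ ≤ W z * ‖F k z‖ := by
      intro z
      rw [norm_mul]
      exact mul_le_mul_of_nonneg_right (hww z) (norm_nonneg _)
    have iF : Integrable (fun z : ℝ × ℝ => w z.1 * w z.2 * F k z) := by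
      refine (i1 k hk).mono' ?_ (Filter.Eventually.of_forall bd)
      exact (((hw.comp continuous_fst).mul (hw.comp continuous_snd)).mul (hFc k hk)).aestronglyMeasurable
    have e := MeasureTheory.integral_prod (μ := (volume : Measure ℝ)) (ν := (volume : Measure ℝ))
      (fun z : ℝ × ℝ => w z.1 * w z.2 * F k z) iF
    have e2 : (∫ τ₁ : ℝ, ∫ τ₂ : ℝ, w τ₁ * w τ₂ *
        (V (sL L τ + (1 + I * τ₁) / L) ((1 + I * τ₂) / L) k * Q (sL L τ + (1 + I * τ₁) / L) k *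
          Q ((1 + I * τ₂) / L) k)) = ∫ z : ℝ × ℝ, w z.1 * w z.2 * F k z := e.symm
    rw [e2]
    exact norm_integral_le_of_norm_le (i1 k hk) (Filter.Eventually.of_forall bd)
  have hCS : ∀ k ∈ Finset.Icc 1 K, ‖Rg (sL L τ) (bR L) Y k‖ ^ 2 ≤
      ((∫ z, W z) + 1) * ∫ z, W z * ‖F k z‖ ^ 2 := by
    intro k hk
    refine (pow_le_pow_left₀ (norm_nonneg _) (hRg k hk) 2).trans ?_
    exact rs_CS W (fun z => ‖F k z‖) hW0 iW (i1 k hk) (i2 k hk)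
  have hJk : ∀ k ∈ Finset.Icc 1 K, ‖J (1 + sL L τ) k‖ ≤ A k := by
    intro k hk
    have hk1 : 1 ≤ k := (Finset.mem_Icc.mp hk).1
    have hre : (1 + sL L τ).re = 1 + 1 / L := by rw [Complex.add_re, hsre, Complex.one_re]
    have := hJ (1 + sL L τ) k hk1 (by rw [hre]; have : 0 ≤ 1 / L := by positivity
                                      linarith)
    rw [hre] at this
    exact this
  have M1 : 0 ≤ (∫ z, W z) + 1 := by linarith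
  calc ∑ k ∈ Finset.Icc 1 K, ‖J (1 + sL L τ) k‖ * ‖Rg (sL L τ) (bR L) Y k‖ ^ 2
      ≤ ∑ k ∈ Finset.Icc 1 K, A k * (((∫ z, W z) + 1) * ∫ z, W z * ‖F k z‖ ^ 2) := by
        refine Finset.sum_le_sum fun k hk => ?_
        exact mul_le_mul (hJk k hk) (hCS k hk) (sq_nonneg _) (by linarith [hAk k hk])
    _ = ((∫ z, W z) + 1) * ∫ z, ∑ k ∈ Finset.Icc 1 K, A k * (W z * ‖F k z‖ ^ 2) := by
        rw [integral_finsetSum _ (fun k hk => (i2 k hk).const_mul (A k)), Finset.mul_sum]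
        refine Finset.sum_congr rfl fun k _ => ?_
        have e : ∫ z, A k * (W z * ‖F k z‖ ^ 2) = A k * ∫ z, W z * ‖F k z‖ ^ 2 :=
          integral_const_mul _ _
        rw [e]
        generalize (∫ z, W z * ‖F k z‖ ^ 2) = q1
        generalize (∫ z, W z) = q2
        ring
    _ ≤ ((∫ z, W z) + 1) * ∫ z, B * (W z * P z) := by
        refine mul_le_mul_of_nonneg_left ?_ M1
        refine integral_mono (integrable_finsetSum _ fun k hk => (i2 k hk).const_mul (A k))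
          (iWP.const_mul B) fun z => ?_
        show ∑ k ∈ Finset.Icc 1 K, A k * (W z * ‖F k z‖ ^ 2) ≤ B * (W z * P z)
        calc ∑ k ∈ Finset.Icc 1 K, A k * (W z * ‖F k z‖ ^ 2) = W z * ∑ k ∈ Finset.Icc 1 K, A k * ‖F k z‖ ^ 2 := by
              rw [Finset.mul_sum]; exact Finset.sum_congr rfl fun k _ => by ring
          _ ≤ W z * (B * P z) := mul_le_mul_of_nonneg_left (hsum z) (hW0 z)
          _ = _ := by ring
    _ = (((∫ z, W z) + 1) * (C0 * (∫ z, W z * P z))) * (1 + |τ| * L) ^ (1 / 2 : ℝ) / L := by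
        have e : ∫ z, B * (W z * P z) = B * ∫ z, W z * P z := integral_const_mul _ _
        rw [e, hB]
        generalize (∫ z, W z * P z) = q1
        generalize (∫ z, W z) = q2
        ring
    _ ≤ _ := by
        rw [div_le_div_iff_of_pos_right hL0]
        exact mul_le_mul_of_nonneg_right (by linarith) g0

end Pool.Agent.Helper647.SG.JRS
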