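import Mathlib

set_option autoImplicit false

namespace Pool.Agent.Helper647.SG.JVM

open Complex Filter Topology MeasureTheory Set

/-- Selberg's coefficients on squarefree numbers -/
noncomputable def al (n : ℕ) : ℝ := if Squarefree n then (-1 / 2 : ℝ) ^ n.primeFactors.card else 0

/-- the part at the primes dividing `k` -/
noncomputable def V (z₁ z₂ : ℂ) (k : ℕ) : ℂ := ∑ d₁ ∈ k.divisors, ∑ d₂ ∈ k.divisors,
  if k ∣ d₁ * d₂ then (((al d₁ : ℝ) : ℂ) * (d₁ : ℂ) ^ (-(1 + z₁))) * (((al d₂ : ℝ) : ℂ) * (d₂ : ℂ) ^ (-(1 + z₂)))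
  else 0

theorem vm_sum_div (m n : ℕ) (h : m.Coprime n) (F : ℕ → ℂ) :
    ∑ d ∈ (m * n).divisors, F d = ∑ a ∈ m.divisors, ∑ b ∈ n.divisors, F (a * b) := by
  rw [← Finset.sum_product']
  rcases Nat.eq_zero_or_pos m with rfl | hm
  · simp
  rcases Nat.eq_zero_or_pos n with rfl | hn
  · simp
  refine Finset.sum_nbij' (fun d => (Nat.gcd d m, Nat.gcd d n)) (fun p => p.1 * p.2) ?_ ?_ ?_ ?_ ?_
  · intro d _
    rw [Finset.mem_product, Nat.mem_divisors, Nat.mem_divisors]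
    exact ⟨⟨Nat.gcd_dvd_right _ _, hm.ne'⟩, ⟨Nat.gcd_dvd_right _ _, hn.ne'⟩⟩
  · intro p hp
    rw [Finset.mem_product, Nat.mem_divisors, Nat.mem_divisors] at hp
    rw [Nat.mem_divisors]
    exact ⟨mul_dvd_mul hp.1.1 hp.2.1, (Nat.mul_pos hm hn).ne'⟩
  · intro d hd
    rw [Nat.mem_divisors] at hd
    simp only
    rw [← Nat.Coprime.gcd_mul d h]
    exact Nat.gcd_eq_left hd.1
  · rintro ⟨a, b⟩ hp
    rw [Finset.mem_product, Nat.mem_divisors, Nat.mem_divisors] at hp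
    obtain ⟨⟨ha, -⟩, ⟨hb, -⟩⟩ := hp
    simp only at ha hb ⊢
    have h1 : b.Coprime m := (h.coprime_dvd_right hb).symm
    have h2 : a.Coprime n := h.coprime_dvd_left ha
    rw [Nat.Coprime.gcd_mul_right_cancel a h1, Nat.gcd_eq_left ha,
      Nat.Coprime.gcd_mul_left_cancel b h2, Nat.gcd_eq_left hb]
  · intro d hd
    rw [Nat.mem_divisors] at hd
    simp only
    rw [← Nat.Coprime.gcd_mul d h, Nat.gcd_eq_left hd.1]

theorem vm_al_mul (a b : ℕ) (h : a.Coprime b) : al (a * b) = al a * al b := by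
  unfold al
  by_cases ha : Squarefree a <;> by_cases hb : Squarefree b
  · rw [if_pos ((Nat.squarefree_mul h).2 ⟨ha, hb⟩), if_pos ha, if_pos hb,
      Nat.Coprime.primeFactors_mul h, Finset.card_union_of_disjoint h.disjoint_primeFactors, pow_add]
  · rw [if_neg (fun h' => hb ((Nat.squarefree_mul h).1 h').2), if_neg hb, mul_zero]
  · rw [if_neg (fun h' => ha ((Nat.squarefree_mul h).1 h').1), if_neg ha, zero_mul]
  · rw [if_neg (fun h' => ha ((Nat.squarefree_mul h).1 h').1), if_neg ha, zero_mul]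

theorem vm_f_mul (z : ℂ) (a b : ℕ) (h : a.Coprime b) :
    (((al (a * b) : ℝ) : ℂ) * ((a * b : ℕ) : ℂ) ^ z)
      = (((al a : ℝ) : ℂ) * (a : ℂ) ^ z) * (((al b : ℝ) : ℂ) * (b : ℂ) ^ z) := by
  rw [vm_al_mul a b h]
  push_cast
  rw [Complex.natCast_mul_natCast_cpow]
  ring

theorem vm_dvd (m n a b a' b' : ℕ) (h : m.Coprime n) (ha : a ∣ m) (ha' : a' ∣ m) (hb : b ∣ n)
    (hb' : b' ∣ n) : m * n ∣ (a * b) * (a' * b') ↔ m ∣ a * a' ∧ n ∣ b * b' := by
  have e : (a * b) * (a' * b') = (a * a') * (b * b') := by ring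
  rw [e]
  constructor
  · intro hd
    constructor
    · have h1 : m.Coprime (b * b') :=
        Nat.Coprime.mul_right (h.coprime_dvd_right hb) (h.coprime_dvd_right hb')
      exact h1.dvd_of_dvd_mul_right ((Dvd.intro _ rfl).trans hd)
    · have h1 : n.Coprime (a * a') :=
        Nat.Coprime.mul_right (h.symm.coprime_dvd_right ha) (h.symm.coprime_dvd_right ha')
      exact h1.dvd_of_dvd_mul_left ((Dvd.intro_left _ rfl).trans hd)
  · rintro ⟨h1, h2⟩
    exact mul_dvd_mul h1 h2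

theorem vm_coprime (z₁ z₂ : ℂ) (m n : ℕ) (h : m.Coprime n) :
    V z₁ z₂ (m * n) = V z₁ z₂ m * V z₁ z₂ n := by
  unfold V
  rw [vm_sum_div m n h]
  simp_rw [vm_sum_div m n h]
  rw [Finset.sum_mul]
  apply Finset.sum_congr rfl
  intro a ha
  rw [Finset.sum_comm, Finset.sum_mul_sum]
  have ha1 := (Nat.mem_divisors.1 ha).1
  apply Finset.sum_congr rfl
  intro a' ha'
  have ha1' := (Nat.mem_divisors.1 ha').1
  apply Finset.sum_congr rfl
  intro b hb
  have hb1 := (Nat.mem_divisors.1 hb).1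
  rw [Finset.mul_sum]
  apply Finset.sum_congr rfl
  intro b' hb'
  have hb1' := (Nat.mem_divisors.1 hb').1
  have hab : a.Coprime b := (h.coprime_dvd_left ha1).coprime_dvd_right hb1
  have hab' : a'.Coprime b' := (h.coprime_dvd_left ha1').coprime_dvd_right hb1'
  have hd := vm_dvd m n a b a' b' h ha1 ha1' hb1 hb1'
  rw [vm_f_mul _ a b hab, vm_f_mul _ a' b' hab']
  by_cases h1 : m ∣ a * a'
  · by_cases h2 : n ∣ b * b'
    · rw [if_pos (hd.2 ⟨h1, h2⟩), if_pos h1, if_pos h2]; ring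
    · rw [if_neg (fun h' => h2 (hd.1 h').2), if_neg h2, mul_zero]
  · rw [if_neg (fun h' => h1 (hd.1 h').1), if_neg h1, zero_mul]

theorem vm_al_prime (p : ℕ) (hp : p.Prime) : al p = -1 / 2 := by
  unfold al
  rw [if_pos hp.prime.squarefree, hp.primeFactors]
  simp

theorem vm_al_one : al 1 = 1 := by
  unfold al
  simp

theorem vm_al_pow (p : ℕ) (hp : p.Prime) (i : ℕ) (hi : 2 ≤ i) : al (p ^ i) = 0 := by
  unfold al
  rw [if_neg]
  intro h
  have h1 : p * p ∣ p ^ i := by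
    rw [← sq]; exact pow_dvd_pow p hi
  exact hp.one_lt.ne' (Nat.isUnit_iff.1 (h p h1))

theorem vm_pow (z₁ z₂ : ℂ) (p : ℕ) (hp : p.Prime) (e : ℕ) (he : 1 ≤ e) :
    V z₁ z₂ (p ^ e) = ∑ i ∈ Finset.range 2, ∑ j ∈ Finset.range 2, if e ≤ i + j then
      (((al (p ^ i) : ℝ) : ℂ) * ((p ^ i : ℕ) : ℂ) ^ (-(1 + z₁))) *
        (((al (p ^ j) : ℝ) : ℂ) * ((p ^ j : ℕ) : ℂ) ^ (-(1 + z₂))) else 0 := by
  unfold V
  rw [Nat.sum_divisors_prime_pow hp]
  have hsub : Finset.range 2 ⊆ Finset.range (e + 1) := by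
    intro i hi
    rw [Finset.mem_range] at hi ⊢
    omega
  symm
  rw [← Finset.sum_subset hsub]
  · apply Finset.sum_congr rfl
    intro i _
    rw [Nat.sum_divisors_prime_pow hp]
    rw [← Finset.sum_subset hsub]
    · apply Finset.sum_congr rfl
      intro j _
      have hiff : p ^ e ∣ p ^ i * p ^ j ↔ e ≤ i + j := by
        rw [← pow_add]
        exact Nat.pow_dvd_pow_iff_le_right hp.one_lt
      by_cases h : e ≤ i + j
      · rw [if_pos h, if_pos (hiff.2 h)]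
      · rw [if_neg h, if_neg (fun h' => h (hiff.1 h'))]
    · intro j _ hj
      rw [Finset.mem_range] at hj
      rw [vm_al_pow p hp j (by omega)]
      simp
  · intro i _ hi
    rw [Finset.mem_range] at hi
    apply Finset.sum_eq_zero
    intro j _
    rw [vm_al_pow p hp i (by omega)]
    simp

theorem v_mul : ∀ z₁ z₂ : ℂ, V z₁ z₂ 1 = 1 ∧
  (∀ m n : ℕ, m.Coprime n → V z₁ z₂ (m * n) = V z₁ z₂ m * V z₁ z₂ n) ∧
  ∀ p : ℕ, p.Prime →
    V z₁ z₂ p = -(1 / 2) * ((p : ℂ) ^ (-(1 + z₁)) + (p : ℂ) ^ (-(1 + z₂))) +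
      1 / 4 * ((p : ℂ) ^ (-(1 + z₁)) * (p : ℂ) ^ (-(1 + z₂))) ∧
    V z₁ z₂ (p ^ 2) = 1 / 4 * ((p : ℂ) ^ (-(1 + z₁)) * (p : ℂ) ^ (-(1 + z₂))) ∧
    ∀ e : ℕ, 3 ≤ e → V z₁ z₂ (p ^ e) = 0 := by
  intro z₁ z₂
  refine ⟨?_, fun m n h => vm_coprime z₁ z₂ m n h, ?_⟩
  · unfold V
    simp [vm_al_one]
  · intro p hp
    refine ⟨?_, ?_, ?_⟩
    · have h := vm_pow z₁ z₂ p hp 1 le_rfl
      rw [pow_one] at h
      rw [h]
      simp only [Finset.sum_range_succ, Finset.sum_range_zero, pow_zero, pow_one, vm_al_one,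
        vm_al_prime p hp]
      norm_num
      ring
    · rw [vm_pow z₁ z₂ p hp 2 (by norm_num)]
      simp only [Finset.sum_range_succ, Finset.sum_range_zero, pow_zero, pow_one, vm_al_one,
        vm_al_prime p hp]
      norm_num
      ring
    · intro e he
      rw [vm_pow z₁ z₂ p hp e (by omega)]
      apply Finset.sum_eq_zero
      intro i hi
      apply Finset.sum_eq_zero
      intro j hj
      rw [Finset.mem_range] at hi hj
      rw [if_neg (by omega)]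

end Pool.Agent.Helper647.SG.JVM
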