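import Mathlib

set_option autoImplicit false

namespace Pool.Agent.Helper647.SG.JVS

open Complex Filter Topology MeasureTheory Set

theorem vs_exp_re {x : ℂ} (hx : ‖x‖ ≤ 1 / 2) :
    Real.exp x.re ≤ ‖(1 - x)⁻¹‖ * Real.exp (3 * ‖x‖ ^ 2) := by
  have h0 : 0 ≤ ‖x‖ := norm_nonneg x
  have h1 : ‖exp x - 1 - x‖ ≤ ‖x‖ ^ 2 := Complex.norm_exp_sub_one_sub_id_le (by linarith)
  have h2 : (1 - x) * exp x = 1 + (-(x ^ 2) + (1 - x) * (exp x - 1 - x)) := by ring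
  have h3 : ‖(1 - x) * exp x‖ ≤ 1 + 3 * ‖x‖ ^ 2 := by
    rw [h2]
    have h4 : ‖(1 - x) * (exp x - 1 - x)‖ ≤ (1 + ‖x‖) * ‖x‖ ^ 2 := by
      rw [norm_mul]
      have h5 : ‖(1 - x)‖ ≤ 1 + ‖x‖ := by
        have := norm_sub_le (1 : ℂ) x
        rwa [norm_one] at this
      exact mul_le_mul h5 h1 (norm_nonneg _) (by linarith)
    have h6 : ‖(-(x ^ 2) : ℂ)‖ = ‖x‖ ^ 2 := by rw [norm_neg, norm_pow]
    have h7 := norm_add_le (-(x ^ 2)) ((1 - x) * (exp x - 1 - x))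
    have h8 := norm_add_le (1 : ℂ) (-(x ^ 2) + (1 - x) * (exp x - 1 - x))
    rw [norm_one] at h8
    nlinarith [sq_nonneg ‖x‖]
  have h4 : ‖(1 - x) * exp x‖ ≤ Real.exp (3 * ‖x‖ ^ 2) := by
    refine h3.trans ?_
    have := Real.add_one_le_exp (3 * ‖x‖ ^ 2)
    linarith
  have h5 : 0 < ‖1 - x‖ := by
    have := norm_sub_norm_le (1 : ℂ) x
    rw [norm_one] at this
    linarith
  rw [norm_mul, Complex.norm_exp] at h4
  rw [norm_inv, inv_mul_eq_div, le_div_iff₀ h5]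
  linarith

theorem vs_main_id (p : ℕ) (hp : 0 < p) (L : ℝ) (z₁ z₂ : ℂ) (h1 : z₁.re = 2 / L) (h2 : z₂.re = 1 / L) :
    (p : ℝ) ^ (1 / L - 1) * ‖(p : ℂ) ^ (-z₁) + (p : ℂ) ^ (-z₂)‖ ^ 2 =
      ((p : ℂ) ^ (-(1 + ((3 / L : ℝ) : ℂ)))).re + ((p : ℂ) ^ (-(1 + ((1 / L : ℝ) : ℂ)))).re
        + 2 * ((p : ℂ) ^ (-(1 + ((2 / L : ℝ) : ℂ) + I * ((z₁.im - z₂.im : ℝ) : ℂ)))).re := by
  have hP : (0 : ℝ) < (p : ℝ) := by exact_mod_cast hp
  have hpc : (p : ℂ) ≠ 0 := by exact_mod_cast hp.ne'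
  have hpr : ((p : ℝ) : ℂ) = (p : ℂ) := by push_cast; rfl
  have e3 : (p : ℂ) ^ (-(1 + ((3 / L : ℝ) : ℂ))) = (((p : ℝ) ^ (-(1 + 3 / L)) : ℝ) : ℂ) := by
    rw [Complex.ofReal_cpow hP.le, hpr]
    congr 1
    push_cast
    ring
  have e1 : (p : ℂ) ^ (-(1 + ((1 / L : ℝ) : ℂ))) = (((p : ℝ) ^ (-(1 + 1 / L)) : ℝ) : ℂ) := by
    rw [Complex.ofReal_cpow hP.le, hpr]
    congr 1
    push_cast
    ring
  rw [e3, e1, Complex.ofReal_re, Complex.ofReal_re, ← Complex.normSq_eq_norm_sq, Complex.normSq_add,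
    Complex.normSq_eq_norm_sq, Complex.normSq_eq_norm_sq,
    Complex.norm_natCast_cpow_of_pos hp, Complex.norm_natCast_cpow_of_pos hp]
  have hu : ((p : ℝ) ^ (-z₁).re) ^ 2 = (p : ℝ) ^ (-4 / L) := by
    rw [← Real.rpow_natCast, ← Real.rpow_mul hP.le, Complex.neg_re, h1]
    congr 1
    push_cast
    ring
  have hv : ((p : ℝ) ^ (-z₂).re) ^ 2 = (p : ℝ) ^ (-2 / L) := by
    rw [← Real.rpow_natCast, ← Real.rpow_mul hP.le, Complex.neg_re, h2]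
    congr 1
    push_cast
    ring
  have harg : (p : ℂ).arg ≠ Real.pi := by
    rw [Complex.natCast_arg]
    exact Real.pi_pos.ne
  have hc : (starRingEnd ℂ) ((p : ℂ) ^ (-z₂)) = (p : ℂ) ^ (-(starRingEnd ℂ) z₂) := by
    have := Complex.cpow_conj (p : ℂ) (-z₂) harg
    rw [Complex.conj_natCast] at this
    rw [← this, map_neg]
  have hx : (p : ℝ) ^ (1 / L - 1) * (((p : ℂ) ^ (-z₁)) * (starRingEnd ℂ) ((p : ℂ) ^ (-z₂))).re
      = ((p : ℂ) ^ (-(1 + ((2 / L : ℝ) : ℂ) + I * ((z₁.im - z₂.im : ℝ) : ℂ)))).re := by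
    rw [← Complex.re_ofReal_mul, Complex.ofReal_cpow hP.le, hpr, hc, ← Complex.cpow_add _ _ hpc,
      ← Complex.cpow_add _ _ hpc]
    congr 2
    apply Complex.ext
    · simp [h1, h2]
      ring
    · simp
      ring
  rw [hu, hv, mul_add, mul_add, ← Real.rpow_add hP, ← Real.rpow_add hP]
  have a1 : (1 / L - 1 + -4 / L) = -(1 + 3 / L) := by ring
  have a2 : (1 / L - 1 + -2 / L) = -(1 + 1 / L) := by ring
  rw [a1, a2]
  linear_combination 2 * hx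

theorem vs_local (V : ℂ → ℂ → ℕ → ℂ) (L : ℝ) (z₁ z₂ : ℂ) (hL : 1 ≤ L) (h1 : z₁.re = 2 / L)
    (h2 : z₂.re = 1 / L) (p : ℕ) (hp : p.Prime)
    (hVp : V z₁ z₂ p = -(1 / 2) * ((p : ℂ) ^ (-(1 + z₁)) + (p : ℂ) ^ (-(1 + z₂))) +
      1 / 4 * ((p : ℂ) ^ (-(1 + z₁)) * (p : ℂ) ^ (-(1 + z₂))))
    (hVp2 : V z₁ z₂ (p ^ 2) = 1 / 4 * ((p : ℂ) ^ (-(1 + z₁)) * (p : ℂ) ^ (-(1 + z₂)))) :
    (p : ℝ) ^ (1 + 1 / L) * (p / (Nat.totient p : ℝ)) ^ 3 * ‖V z₁ z₂ p‖ ^ 2 +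
      ((p ^ 2 : ℕ) : ℝ) ^ (1 + 1 / L) * (((p ^ 2 : ℕ) : ℝ) / (Nat.totient (p ^ 2) : ℝ)) ^ 3 *
        ‖V z₁ z₂ (p ^ 2)‖ ^ 2 ≤
      (1 / 4) * ((p : ℝ) ^ (1 / L - 1) * ‖(p : ℂ) ^ (-z₁) + (p : ℂ) ^ (-z₂)‖ ^ 2) + 23 / (p : ℝ) ^ 2 := by
  have hp0 : 0 < p := hp.pos
  have hP2 : (2 : ℝ) ≤ (p : ℝ) := by exact_mod_cast hp.two_le
  have hP : (0 : ℝ) < (p : ℝ) := by linarith
  have hpc : (p : ℂ) ≠ 0 := by exact_mod_cast hp0.ne'
  have hL0 : 0 < L := by linarith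
  set P : ℝ := (p : ℝ) with hPdef
  set a : ℝ := P ^ (1 / L) with ha
  have ha0 : 0 < a := Real.rpow_pos_of_pos hP _
  have ha1 : 1 ≤ a := Real.one_le_rpow (by linarith) (by positivity)
  set u : ℂ := (p : ℂ) ^ (-z₁) with hu
  set v : ℂ := (p : ℂ) ^ (-z₂) with hv
  have hun : ‖u‖ = (a ^ 2)⁻¹ := by
    rw [hu, Complex.norm_natCast_cpow_of_pos hp0, Complex.neg_re, h1, ha, ← Real.rpow_natCast,
      ← Real.rpow_mul hP.le, ← Real.rpow_neg hP.le]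
    congr 1
    push_cast
    ring
  have hvn : ‖v‖ = a⁻¹ := by
    rw [hv, Complex.norm_natCast_cpow_of_pos hp0, Complex.neg_re, h2, ha, ← Real.rpow_neg hP.le]
  have c1 : (p : ℂ) ^ (-(1 + z₁)) = (p : ℂ)⁻¹ * u := by
    rw [hu, neg_add, Complex.cpow_add _ _ hpc, Complex.cpow_neg_one]
  have c2 : (p : ℂ) ^ (-(1 + z₂)) = (p : ℂ)⁻¹ * v := by
    rw [hv, neg_add, Complex.cpow_add _ _ hpc, Complex.cpow_neg_one]
  rw [c1, c2] at hVp hVp2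
  set s : ℝ := ‖u + v‖ with hs
  have hs0 : 0 ≤ s := norm_nonneg _
  have hs2 : s ≤ 2 / a := by
    have : s ≤ ‖u‖ + ‖v‖ := norm_add_le _ _
    rw [hun, hvn] at this
    have h3 : (a ^ 2)⁻¹ ≤ a⁻¹ := by
      apply inv_anti₀ ha0
      nlinarith
    have : s ≤ a⁻¹ + a⁻¹ := by linarith
    calc s ≤ a⁻¹ + a⁻¹ := this
      _ = 2 / a := by ring
  have hnp : ‖((p : ℂ))⁻¹‖ = P⁻¹ := by
    rw [norm_inv, Complex.norm_natCast]
  have hVn : ‖V z₁ z₂ p‖ ≤ P⁻¹ * (s / 2 + P⁻¹ * (a ^ 3)⁻¹ / 4) := by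
    have e : V z₁ z₂ p = (p : ℂ)⁻¹ * (-(1 / 2) * (u + v) + 1 / 4 * ((p : ℂ)⁻¹ * (u * v))) := by
      rw [hVp]; ring
    rw [e, norm_mul, hnp]
    apply mul_le_mul_of_nonneg_left _ (by positivity)
    refine (norm_add_le _ _).trans ?_
    have n1 : ‖(-(1 / 2) * (u + v) : ℂ)‖ = s / 2 := by
      rw [norm_mul, norm_neg]
      norm_num
      rw [← hs]; ring
    have n2 : ‖(1 / 4 * ((p : ℂ)⁻¹ * (u * v)) : ℂ)‖ = P⁻¹ * (a ^ 3)⁻¹ / 4 := by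
      rw [norm_mul, norm_mul, norm_mul, hnp, hun, hvn]
      norm_num
      field_simp
    rw [n1, n2]
  have hV2n : ‖V z₁ z₂ (p ^ 2)‖ = P⁻¹ ^ 2 * (a ^ 3)⁻¹ / 4 := by
    have e : V z₁ z₂ (p ^ 2) = 1 / 4 * ((p : ℂ)⁻¹ * ((p : ℂ)⁻¹ * (u * v))) := by
      rw [hVp2]; ring
    rw [e, norm_mul, norm_mul, norm_mul, norm_mul, hnp, hun, hvn]
    norm_num
    field_simp
  have hr1 : P ^ (1 + 1 / L) = P * a := by
    rw [Real.rpow_add hP, Real.rpow_one]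
  have hr2 : ((p ^ 2 : ℕ) : ℝ) ^ (1 + 1 / L) = P ^ 2 * a ^ 2 := by
    have : ((p ^ 2 : ℕ) : ℝ) = P * P := by push_cast; ring
    rw [this, Real.mul_rpow hP.le hP.le, hr1]
    ring
  have hr3 : P ^ (1 / L - 1) = a / P := by
    rw [Real.rpow_sub hP, Real.rpow_one]
  have ht1 : P / (Nat.totient p : ℝ) = P / (P - 1) := by
    rw [Nat.totient_prime hp, Nat.cast_sub hp.one_le, Nat.cast_one]
  have ht2 : ((p ^ 2 : ℕ) : ℝ) / (Nat.totient (p ^ 2) : ℝ) = P / (P - 1) := by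
    rw [Nat.totient_prime_pow hp (by norm_num)]
    have hq : P - 1 ≠ 0 := by
      intro h
      linarith
    have : ((p ^ (2 - 1) * (p - 1) : ℕ) : ℝ) = P * (P - 1) := by
      rw [Nat.cast_mul, Nat.cast_sub hp.one_le, Nat.cast_one]
      norm_num
      rw [hPdef]
    rw [this]
    push_cast
    rw [← hPdef]
    field_simp
  rw [hr1, hr2, hr3, ht1, ht2, hV2n]
  have hq : 0 < P - 1 := by linarith
  -- the factor
  have hk : (P / (P - 1)) ^ 3 ≤ 1 + 14 / P := by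
    rw [div_pow, div_le_iff₀ (by positivity)]
    have : (1 + 14 / P) * (P - 1) ^ 3 = (P + 14) * (P - 1) ^ 3 / P := by field_simp
    rw [this, le_div_iff₀ hP]
    have h5 : 0 ≤ (P - 2) * (11 * P ^ 2 - 17 * P + 7) := by
      apply mul_nonneg (by linarith)
      nlinarith
    nlinarith
  have hk8 : (P / (P - 1)) ^ 3 ≤ 8 := by
    refine hk.trans ?_
    have : 14 / P ≤ 7 := by
      rw [div_le_iff₀ hP]; linarith
    linarith
  have hk0 : 0 ≤ (P / (P - 1)) ^ 3 := by positivity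
  have hV2 : ‖V z₁ z₂ p‖ ^ 2 ≤ (P⁻¹ * (s / 2 + P⁻¹ * (a ^ 3)⁻¹ / 4)) ^ 2 :=
    pow_le_pow_left₀ (norm_nonneg _) hVn 2
  set w : ℝ := a / P * s ^ 2 with hw
  have hw0 : 0 ≤ w := by positivity
  have hw4 : w ≤ 4 / P := by
    have : s ^ 2 ≤ (2 / a) ^ 2 := pow_le_pow_left₀ hs0 hs2 2
    calc w ≤ a / P * (2 / a) ^ 2 := mul_le_mul_of_nonneg_left this (by positivity)
      _ = 4 / P * (1 / a) := by field_simp; norm_num
      _ ≤ 4 / P * 1 := by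
        apply mul_le_mul_of_nonneg_left _ (by positivity)
        rw [div_le_one ha0]; exact ha1
      _ = 4 / P := by ring
  -- the square
  have hsq : P * a * (P⁻¹ * (s / 2 + P⁻¹ * (a ^ 3)⁻¹ / 4)) ^ 2 ≤ w / 4 + 1 / P ^ 2 := by
    have e : P * a * (P⁻¹ * (s / 2 + P⁻¹ * (a ^ 3)⁻¹ / 4)) ^ 2 =
        w / 4 + (s * a) * (1 / (4 * a ^ 3)) / P ^ 2 + (1 / (16 * a ^ 5)) * (1 / P) * (1 / P ^ 2) := by
      rw [hw]
      field_simp
      ring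
    rw [e]
    have hsa : s * a ≤ 2 := by
      calc s * a ≤ 2 / a * a := mul_le_mul_of_nonneg_right hs2 ha0.le
        _ = 2 := by field_simp
    have ha3 : 1 ≤ a ^ 3 := one_le_pow₀ ha1
    have ha5 : 1 ≤ a ^ 5 := one_le_pow₀ ha1
    have f1 : (s * a) * (1 / (4 * a ^ 3)) / P ^ 2 ≤ (1 / 2) / P ^ 2 := by
      apply div_le_div_of_nonneg_right _ (by positivity)
      have : 1 / (4 * a ^ 3) ≤ 1 / 4 := by
        apply one_div_le_one_div_of_le (by norm_num)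
        linarith
      calc (s * a) * (1 / (4 * a ^ 3)) ≤ 2 * (1 / 4) :=
            mul_le_mul hsa this (by positivity) (by norm_num)
        _ = 1 / 2 := by norm_num
    have f2 : (1 / (16 * a ^ 5)) * (1 / P) * (1 / P ^ 2) ≤ (1 / 2) / P ^ 2 := by
      have g1 : 1 / (16 * a ^ 5) ≤ 1 := by
        rw [div_le_one (by positivity)]
        linarith
      have g2 : 1 / P ≤ 1 / 2 := by
        apply one_div_le_one_div_of_le (by norm_num) hP2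
      calc (1 / (16 * a ^ 5)) * (1 / P) * (1 / P ^ 2) ≤ 1 * (1 / 2) * (1 / P ^ 2) := by
            apply mul_le_mul_of_nonneg_right _ (by positivity)
            exact mul_le_mul g1 g2 (by positivity) (by norm_num)
        _ = (1 / 2) / P ^ 2 := by ring
    have : (1 / 2) / P ^ 2 + (1 / 2) / P ^ 2 = 1 / P ^ 2 := by ring
    linarith
  have hA : P * a * (P / (P - 1)) ^ 3 * ‖V z₁ z₂ p‖ ^ 2 ≤ w / 4 + 22 / P ^ 2 := by
    calc P * a * (P / (P - 1)) ^ 3 * ‖V z₁ z₂ p‖ ^ 2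
        ≤ P * a * (P / (P - 1)) ^ 3 * (P⁻¹ * (s / 2 + P⁻¹ * (a ^ 3)⁻¹ / 4)) ^ 2 :=
          mul_le_mul_of_nonneg_left hV2 (by positivity)
      _ = (P / (P - 1)) ^ 3 * (P * a * (P⁻¹ * (s / 2 + P⁻¹ * (a ^ 3)⁻¹ / 4)) ^ 2) := by ring
      _ ≤ (P / (P - 1)) ^ 3 * (w / 4 + 1 / P ^ 2) := mul_le_mul_of_nonneg_left hsq hk0
      _ ≤ (1 + 14 / P) * (w / 4 + 1 / P ^ 2) := mul_le_mul_of_nonneg_right hk (by positivity)
      _ = w / 4 + (14 / P) * (w / 4) + 1 / P ^ 2 + (14 / P) * (1 / P ^ 2) := by ring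
      _ ≤ w / 4 + (14 / P) * (1 / P) + 1 / P ^ 2 + 7 * (1 / P ^ 2) := by
        have g1 : w / 4 ≤ 1 / P := by
          have : 4 / P / 4 = 1 / P := by ring
          linarith
        have g2 : 14 / P ≤ 7 := by
          rw [div_le_iff₀ hP]; linarith
        have g3 : (14 / P) * (w / 4) ≤ (14 / P) * (1 / P) :=
          mul_le_mul_of_nonneg_left g1 (by positivity)
        have g4 : (14 / P) * (1 / P ^ 2) ≤ 7 * (1 / P ^ 2) :=
          mul_le_mul_of_nonneg_right g2 (by positivity)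
        linarith
      _ = w / 4 + 22 / P ^ 2 := by
        have : (14 / P) * (1 / P) = 14 / P ^ 2 := by field_simp
        rw [this]; ring
  have hB : P ^ 2 * a ^ 2 * (P / (P - 1)) ^ 3 * (P⁻¹ ^ 2 * (a ^ 3)⁻¹ / 4) ^ 2 ≤ 1 / P ^ 2 := by
    calc P ^ 2 * a ^ 2 * (P / (P - 1)) ^ 3 * (P⁻¹ ^ 2 * (a ^ 3)⁻¹ / 4) ^ 2
        = (P / (P - 1)) ^ 3 * (P ^ 2 * a ^ 2 * (P⁻¹ ^ 2 * (a ^ 3)⁻¹ / 4) ^ 2) := by ring
      _ ≤ 8 * (P ^ 2 * a ^ 2 * (P⁻¹ ^ 2 * (a ^ 3)⁻¹ / 4) ^ 2) :=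
          mul_le_mul_of_nonneg_right hk8 (by positivity)
      _ = (1 / (2 * a ^ 4)) * (1 / P ^ 2) := by
          field_simp
          norm_num
      _ ≤ 1 * (1 / P ^ 2) := by
          apply mul_le_mul_of_nonneg_right _ (by positivity)
          rw [div_le_one (by positivity)]
          have : 1 ≤ a ^ 4 := one_le_pow₀ ha1
          linarith
      _ = 1 / P ^ 2 := by ring
  have : 22 / P ^ 2 + 1 / P ^ 2 = 23 / P ^ 2 := by ring
  linarith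

theorem v_sum (V : ℂ → ℂ → ℕ → ℂ) (hV : ∀ z₁ z₂ : ℂ, V z₁ z₂ 1 = 1 ∧
  (∀ m n : ℕ, m.Coprime n → V z₁ z₂ (m * n) = V z₁ z₂ m * V z₁ z₂ n) ∧
  ∀ p : ℕ, p.Prime →
    V z₁ z₂ p = -(1 / 2) * ((p : ℂ) ^ (-(1 + z₁)) + (p : ℂ) ^ (-(1 + z₂))) +
      1 / 4 * ((p : ℂ) ^ (-(1 + z₁)) * (p : ℂ) ^ (-(1 + z₂))) ∧
    V z₁ z₂ (p ^ 2) = 1 / 4 * ((p : ℂ) ^ (-(1 + z₁)) * (p : ℂ) ^ (-(1 + z₂))) ∧
    ∀ e : ℕ, 3 ≤ e → V z₁ z₂ (p ^ e) = 0) :
    ∃ C : ℝ, 0 < C ∧ ∀ (L : ℝ) (z₁ z₂ : ℂ) (K : ℕ), 1 ≤ L → z₁.re = 2 / L → z₂.re = 1 / L →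
    ∑ k ∈ Finset.Icc 1 K, (k : ℝ) ^ (1 + 1 / L) * (k / (Nat.totient k : ℝ)) ^ 3 * ‖V z₁ z₂ k‖ ^ 2 ≤
      C * (‖riemannZeta (1 + ((3 / L : ℝ) : ℂ))‖ ^ (1 / 4 : ℝ) * ‖riemannZeta (1 + ((1 / L : ℝ) : ℂ))‖ ^ (1 / 4 : ℝ) *
        ‖riemannZeta (1 + ((2 / L : ℝ) : ℂ) + I * ((z₁.im - z₂.im : ℝ) : ℂ))‖ ^ (1 / 2 : ℝ)) := by
  set S : ℝ := ∑' n : ℕ, 1 / (n : ℝ) ^ 2 with hS
  have hSsum : Summable (fun n : ℕ => 1 / (n : ℝ) ^ 2) := Real.summable_one_div_nat_pow.mpr (by norm_num)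
  refine ⟨Real.exp (26 * S), Real.exp_pos _, ?_⟩
  intro L z₁ z₂ K hL h1 h2
  have hL0 : 0 < L := by linarith
  obtain ⟨hV1, hVm, hVp⟩ := hV z₁ z₂
  set f : ℕ → ℝ := fun k => (k : ℝ) ^ (1 + 1 / L) * (k / (Nat.totient k : ℝ)) ^ 3 * ‖V z₁ z₂ k‖ ^ 2 with hf
  have hf0 : ∀ k, 0 ≤ f k := fun k => by
    simp only [hf]
    positivity
  have hf1 : f 1 = 1 := by
    simp [hf, hV1]
  have hfm : ∀ {m n : ℕ}, m.Coprime n → f (m * n) = f m * f n := by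
    intro m n hmn
    simp only [hf]
    rw [hVm m n hmn, Nat.totient_mul hmn, norm_mul, Nat.cast_mul, Nat.cast_mul,
      Real.mul_rpow (Nat.cast_nonneg _) (Nat.cast_nonneg _), mul_div_mul_comm, mul_pow, mul_pow]
    ring
  have hf3 : ∀ p : ℕ, p.Prime → ∀ e : ℕ, e ∉ Finset.range 3 → f (p ^ e) = 0 := by
    intro p hp e he
    have he3 : 3 ≤ e := by
      simpa using he
    simp only [hf]
    rw [(hVp p hp).2.2 e he3]
    simp
  have hfs : ∀ {p : ℕ}, p.Prime → Summable (fun n : ℕ => ‖f (p ^ n)‖) := by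
    intro p hp
    apply summable_of_ne_finset_zero (s := Finset.range 3)
    intro e he
    rw [hf3 p hp e he, norm_zero]
  have hft : ∀ p : ℕ, p.Prime → ∑' n : ℕ, f (p ^ n) = 1 + (f p + f (p ^ 2)) := by
    intro p hp
    rw [tsum_eq_sum (hf3 p hp), Finset.sum_range_succ, Finset.sum_range_succ, Finset.sum_range_one,
      pow_zero, pow_one, hf1]
    ring
  -- the three families
  set X3 : ℕ → ℂ := fun p => (p : ℂ) ^ (-(1 + ((3 / L : ℝ) : ℂ))) with hX3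
  set X1 : ℕ → ℂ := fun p => (p : ℂ) ^ (-(1 + ((1 / L : ℝ) : ℂ))) with hX1
  set X2 : ℕ → ℂ := fun p => (p : ℂ) ^ (-(1 + ((2 / L : ℝ) : ℂ) + I * ((z₁.im - z₂.im : ℝ) : ℂ))) with hX2
  have hnorm : ∀ p : ℕ, p.Prime → ∀ s : ℂ, s.re ≤ -1 → ‖(p : ℂ) ^ s‖ ≤ 1 / (p : ℝ) := by
    intro p hp s hs
    rw [Complex.norm_natCast_cpow_of_pos hp.pos]
    have : (p : ℝ) ^ s.re ≤ (p : ℝ) ^ (-1 : ℝ) :=
      Real.rpow_le_rpow_of_exponent_le (by exact_mod_cast hp.one_le) hs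
    rwa [Real.rpow_neg_one, ← one_div] at this
  have hn3 : ∀ p : ℕ, p.Prime → ‖X3 p‖ ≤ 1 / (p : ℝ) := by
    intro p hp
    apply hnorm p hp
    have : 0 < 3 / L := by positivity
    rw [Complex.neg_re, Complex.add_re, Complex.one_re, Complex.ofReal_re]
    linarith
  have hn1 : ∀ p : ℕ, p.Prime → ‖X1 p‖ ≤ 1 / (p : ℝ) := by
    intro p hp
    apply hnorm p hp
    have : 0 < 1 / L := by positivity
    rw [Complex.neg_re, Complex.add_re, Complex.one_re, Complex.ofReal_re]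
    linarith
  have hn2 : ∀ p : ℕ, p.Prime → ‖X2 p‖ ≤ 1 / (p : ℝ) := by
    intro p hp
    apply hnorm p hp
    have : 0 < 2 / L := by positivity
    rw [Complex.neg_re, Complex.add_re, Complex.add_re, Complex.one_re, Complex.ofReal_re, Complex.mul_re,
      Complex.I_re, Complex.I_im, Complex.ofReal_im, Complex.ofReal_re]
    linarith
  have hroot : ∀ p : ℕ, p.Prime → ∀ x : ℂ, ‖x‖ ≤ 1 / (p : ℝ) → ∀ r : ℝ, 0 ≤ r →
      Real.exp (r * x.re) ≤ ‖(1 - x)⁻¹‖ ^ r * Real.exp (3 * r / (p : ℝ) ^ 2) := by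
    intro p hp x hx r hr
    have hP2 : (2 : ℝ) ≤ (p : ℝ) := by exact_mod_cast hp.two_le
    have hP : (0 : ℝ) < (p : ℝ) := by linarith
    have hx2 : ‖x‖ ≤ 1 / 2 := hx.trans (one_div_le_one_div_of_le (by norm_num) hP2)
    have h3 := vs_exp_re hx2
    have h4 : Real.exp (3 * ‖x‖ ^ 2) ≤ Real.exp (3 / (p : ℝ) ^ 2) := by
      apply Real.exp_le_exp.mpr
      have : ‖x‖ ^ 2 ≤ (1 / (p : ℝ)) ^ 2 := pow_le_pow_left₀ (norm_nonneg _) hx 2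
      rw [one_div, inv_pow] at this
      rw [div_eq_mul_inv]
      linarith
    have h5 : Real.exp x.re ≤ ‖(1 - x)⁻¹‖ * Real.exp (3 / (p : ℝ) ^ 2) :=
      h3.trans (mul_le_mul_of_nonneg_left h4 (norm_nonneg _))
    have h6 := Real.rpow_le_rpow (Real.exp_pos _).le h5 hr
    rw [Real.mul_rpow (norm_nonneg _) (Real.exp_pos _).le, ← Real.exp_mul, ← Real.exp_mul] at h6
    have e1 : x.re * r = r * x.re := by ring
    have e2 : 3 / (p : ℝ) ^ 2 * r = 3 * r / (p : ℝ) ^ 2 := by ring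
    rwa [e1, e2] at h6
  have hloc : ∀ p : ℕ, p.Prime → 1 + (f p + f (p ^ 2)) ≤ Real.exp (26 / (p : ℝ) ^ 2) *
      (‖(1 - X3 p)⁻¹‖ ^ (1 / 4 : ℝ) * ‖(1 - X1 p)⁻¹‖ ^ (1 / 4 : ℝ) * ‖(1 - X2 p)⁻¹‖ ^ (1 / 2 : ℝ)) := by
    intro p hp
    obtain ⟨hq1, hq2, -⟩ := hVp p hp
    have h3 := vs_local V L z₁ z₂ hL h1 h2 p hp hq1 hq2
    rw [vs_main_id p hp.pos L z₁ z₂ h1 h2] at h3
    have h4 : f p + f (p ^ 2) ≤ (1 / 4) * ((X3 p).re + (X1 p).re + 2 * (X2 p).re) + 23 / (p : ℝ) ^ 2 := h3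
    have h5 : 1 + (f p + f (p ^ 2)) ≤ Real.exp (f p + f (p ^ 2)) := by
      have := Real.add_one_le_exp (f p + f (p ^ 2))
      linarith
    have h6 : Real.exp (f p + f (p ^ 2)) ≤
        Real.exp ((1 / 4) * ((X3 p).re + (X1 p).re + 2 * (X2 p).re) + 23 / (p : ℝ) ^ 2) :=
      Real.exp_le_exp.mpr h4
    refine (h5.trans h6).trans ?_
    have e : (1 / 4) * ((X3 p).re + (X1 p).re + 2 * (X2 p).re) + 23 / (p : ℝ) ^ 2 =
        (1 / 4) * (X3 p).re + (1 / 4) * (X1 p).re + (1 / 2) * (X2 p).re + 23 / (p : ℝ) ^ 2 := by ring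
    rw [e, Real.exp_add, Real.exp_add, Real.exp_add]
    have g3 := hroot p hp (X3 p) (hn3 p hp) (1 / 4) (by norm_num)
    have g1 := hroot p hp (X1 p) (hn1 p hp) (1 / 4) (by norm_num)
    have g2 := hroot p hp (X2 p) (hn2 p hp) (1 / 2) (by norm_num)
    have e26 : Real.exp (26 / (p : ℝ) ^ 2) = Real.exp (3 * (1 / 4) / (p : ℝ) ^ 2) *
        Real.exp (3 * (1 / 4) / (p : ℝ) ^ 2) * Real.exp (3 * (1 / 2) / (p : ℝ) ^ 2) *
        Real.exp (23 / (p : ℝ) ^ 2) := by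
      rw [← Real.exp_add, ← Real.exp_add, ← Real.exp_add]
      congr 1
      ring
    rw [e26]
    have k31 := mul_le_mul g3 g1 (Real.exp_pos _).le (by positivity)
    have k312 := mul_le_mul k31 g2 (Real.exp_pos _).le (by positivity)
    have k := mul_le_mul_of_nonneg_right k312 (Real.exp_pos (23 / (p : ℝ) ^ 2)).le
    refine k.trans (le_of_eq ?_)
    ring
  -- the finite bound
  have hfin : ∀ N : ℕ, K < N → ∑ k ∈ Finset.Icc 1 K, f k ≤ Real.exp (26 * S) *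
      (‖∏ p ∈ Nat.primesBelow N, (1 - X3 p)⁻¹‖ ^ (1 / 4 : ℝ) *
        ‖∏ p ∈ Nat.primesBelow N, (1 - X1 p)⁻¹‖ ^ (1 / 4 : ℝ) *
        ‖∏ p ∈ Nat.primesBelow N, (1 - X2 p)⁻¹‖ ^ (1 / 2 : ℝ)) := by
    intro N hN
    obtain ⟨hsm, hhs⟩ := EulerProduct.summable_and_hasSum_smoothNumbers_prod_primesBelow_tsum hf1 hfm hfs N
    have hpr : ∀ p ∈ Nat.primesBelow N, p.Prime := fun p hp => Nat.prime_of_mem_primesBelow hp
    have hprod : ∏ p ∈ Nat.primesBelow N, ∑' n : ℕ, f (p ^ n) =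
        ∏ p ∈ Nat.primesBelow N, (1 + (f p + f (p ^ 2))) :=
      Finset.prod_congr rfl fun p hp => hft p (hpr p hp)
    rw [hprod] at hhs
    have hs1 : ∑ k ∈ Finset.Icc 1 K, f k ≤ ∏ p ∈ Nat.primesBelow N, (1 + (f p + f (p ^ 2))) := by
      have hsub : ∀ k ∈ Finset.Icc 1 K, k ∈ Nat.smoothNumbers N := by
        intro k hk
        rw [Finset.mem_Icc] at hk
        exact Nat.mem_smoothNumbers_of_lt (by omega) (by omega)
      have : ∑ k ∈ Finset.Icc 1 K, f k = ∑ k ∈ (Finset.Icc 1 K).attach.map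
          ⟨fun k => (⟨k.1, hsub k.1 k.2⟩ : Nat.smoothNumbers N), fun a b hab => by
            apply Subtype.ext
            exact congrArg (fun z : Nat.smoothNumbers N => z.1) hab⟩, f k.1 := by
        rw [Finset.sum_map, ← Finset.sum_attach]
        rfl
      rw [this]
      exact sum_le_hasSum _ (fun i _ => hf0 _) hhs
    refine hs1.trans ?_
    have hs2 : ∏ p ∈ Nat.primesBelow N, (1 + (f p + f (p ^ 2))) ≤
        ∏ p ∈ Nat.primesBelow N, (Real.exp (26 / (p : ℝ) ^ 2) *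
      (‖(1 - X3 p)⁻¹‖ ^ (1 / 4 : ℝ) * ‖(1 - X1 p)⁻¹‖ ^ (1 / 4 : ℝ) * ‖(1 - X2 p)⁻¹‖ ^ (1 / 2 : ℝ))) := by
      apply Finset.prod_le_prod
      · intro p _
        have := hf0 p
        have := hf0 (p ^ 2)
        linarith
      · intro p hp
        exact hloc p (hpr p hp)
    refine hs2.trans ?_
    rw [Finset.prod_mul_distrib, Finset.prod_mul_distrib, Finset.prod_mul_distrib, ← Real.exp_sum,
      Real.finsetProd_rpow _ _ (fun i _ => norm_nonneg _), Real.finsetProd_rpow _ _ (fun i _ => norm_nonneg _),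
      Real.finsetProd_rpow _ _ (fun i _ => norm_nonneg _), ← norm_prod, ← norm_prod, ← norm_prod]
    apply mul_le_mul_of_nonneg_right _ (by positivity)
    apply Real.exp_le_exp.mpr
    have : ∑ p ∈ Nat.primesBelow N, 26 / (p : ℝ) ^ 2 = 26 * ∑ p ∈ Nat.primesBelow N, 1 / (p : ℝ) ^ 2 := by
      rw [Finset.mul_sum]
      exact Finset.sum_congr rfl fun p _ => by ring
    rw [this]
    apply mul_le_mul_of_nonneg_left _ (by norm_num)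
    exact hSsum.sum_le_tsum _ (fun i _ => by positivity)
  -- the limit
  have ht3 : Tendsto (fun n : ℕ => ∏ p ∈ Nat.primesBelow n, (1 - X3 p)⁻¹) atTop
      (𝓝 (riemannZeta (1 + ((3 / L : ℝ) : ℂ)))) := by
    apply riemannZeta_eulerProduct
    have : 0 < 3 / L := by positivity
    rw [Complex.add_re, Complex.one_re, Complex.ofReal_re]
    linarith
  have ht1 : Tendsto (fun n : ℕ => ∏ p ∈ Nat.primesBelow n, (1 - X1 p)⁻¹) atTop
      (𝓝 (riemannZeta (1 + ((1 / L : ℝ) : ℂ)))) := by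
    apply riemannZeta_eulerProduct
    have : 0 < 1 / L := by positivity
    rw [Complex.add_re, Complex.one_re, Complex.ofReal_re]
    linarith
  have ht2 : Tendsto (fun n : ℕ => ∏ p ∈ Nat.primesBelow n, (1 - X2 p)⁻¹) atTop
      (𝓝 (riemannZeta (1 + ((2 / L : ℝ) : ℂ) + I * ((z₁.im - z₂.im : ℝ) : ℂ)))) := by
    apply riemannZeta_eulerProduct
    have : 0 < 2 / L := by positivity
    rw [Complex.add_re, Complex.add_re, Complex.one_re, Complex.ofReal_re, Complex.mul_re,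
      Complex.I_re, Complex.I_im, Complex.ofReal_im, Complex.ofReal_re]
    linarith
  have hlim : Tendsto (fun N : ℕ => Real.exp (26 * S) *
      (‖∏ p ∈ Nat.primesBelow N, (1 - X3 p)⁻¹‖ ^ (1 / 4 : ℝ) *
        ‖∏ p ∈ Nat.primesBelow N, (1 - X1 p)⁻¹‖ ^ (1 / 4 : ℝ) *
        ‖∏ p ∈ Nat.primesBelow N, (1 - X2 p)⁻¹‖ ^ (1 / 2 : ℝ))) atTop
      (𝓝 (Real.exp (26 * S) * (‖riemannZeta (1 + ((3 / L : ℝ) : ℂ))‖ ^ (1 / 4 : ℝ) *
        ‖riemannZeta (1 + ((1 / L : ℝ) : ℂ))‖ ^ (1 / 4 : ℝ) *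
        ‖riemannZeta (1 + ((2 / L : ℝ) : ℂ) + I * ((z₁.im - z₂.im : ℝ) : ℂ))‖ ^ (1 / 2 : ℝ)))) := by
    apply Tendsto.const_mul
    exact ((ht3.norm.rpow_const (Or.inr (by norm_num))).mul (ht1.norm.rpow_const (Or.inr (by norm_num)))).mul
      (ht2.norm.rpow_const (Or.inr (by norm_num)))
  refine ge_of_tendsto hlim ?_
  filter_upwards [eventually_gt_atTop K] with N hN
  exact hfin N hN

end Pool.Agent.Helper647.SG.JVS
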