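import Mathlib

set_option autoImplicit false

namespace Pool.Agent.Helper647.SG.JZB

open Complex Filter Topology MeasureTheory Set

open LSeries in
theorem zb_norm_LSeries (f : ℕ → ℂ) (hf : ∀ n, ‖f n‖ ≤ 1) {s : ℂ} (hs : 1 < s.re) :
    ‖LSeries f s‖ ≤ ‖riemannZeta ((s.re : ℝ) : ℂ)‖ := by
  have hsum : Summable fun n => ‖LSeries.term 1 s n‖ := by
    have := (LSeriesSummable_one_iff.mpr hs)
    exact this.norm
  have hle : ∀ n, ‖LSeries.term f s n‖ ≤ ‖LSeries.term 1 s n‖ := by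
    intro n
    apply LSeries.norm_term_le
    simpa using hf n
  have hsumf : Summable fun n => ‖LSeries.term f s n‖ :=
    Summable.of_nonneg_of_le (fun n => norm_nonneg _) hle hsum
  have h1 : ‖LSeries f s‖ ≤ ∑' n, ‖LSeries.term 1 s n‖ := by
    calc ‖LSeries f s‖ ≤ ∑' n, ‖LSeries.term f s n‖ := norm_tsum_le_tsum_norm hsumf
      _ ≤ ∑' n, ‖LSeries.term 1 s n‖ := hsumf.tsum_le_tsum hle hsum
  have hre : 1 < (((s.re : ℝ) : ℂ)).re := by simpa using hs
  have h2 : riemannZeta ((s.re : ℝ) : ℂ) = ((∑' n, ‖LSeries.term 1 s n‖ : ℝ) : ℂ) := by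
    rw [← LSeries_one_eq_riemannZeta hre, LSeries, Complex.ofReal_tsum]
    congr 1
    ext n
    rw [LSeries.norm_term_eq]
    rcases eq_or_ne n 0 with hn | hn
    · simp [hn]
    · rw [LSeries.term_of_ne_zero hn, if_neg hn]
      push_cast
      rw [Complex.ofReal_cpow (Nat.cast_nonneg n)]
      simp
  rw [h2]
  refine h1.trans ?_
  rw [Complex.norm_real]
  exact le_abs_self _

theorem zb_norm_zeta {s : ℂ} (hs : 1 < s.re) :
    ‖riemannZeta s‖ ≤ ‖riemannZeta ((s.re : ℝ) : ℂ)‖ := by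
  have := zb_norm_LSeries 1 (by intro n; simp) hs
  rwa [LSeries_one_eq_riemannZeta hs] at this

theorem zb_norm_zeta_inv {s : ℂ} (hs : 1 < s.re) :
    ‖(riemannZeta s)⁻¹‖ ≤ ‖riemannZeta ((s.re : ℝ) : ℂ)‖ := by
  have h1 := LSeries_one_mul_Lseries_moebius hs
  rw [LSeries_one_eq_riemannZeta hs] at h1
  have h2 := eq_inv_of_mul_eq_one_right h1
  rw [← h2]
  apply zb_norm_LSeries _ _ hs
  intro n
  have := ArithmeticFunction.abs_moebius_le_one (n := n)
  norm_cast

/-- `z ζ(1+z)`, extended by `1` at `0` -/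
noncomputable def zb_g : ℂ → ℂ := Function.update (fun z => z * riemannZeta (1 + z)) 0 1

theorem zb_g_of_ne {z : ℂ} (hz : z ≠ 0) : zb_g z = z * riemannZeta (1 + z) := by
  rw [zb_g, Function.update_of_ne hz]

theorem zb_g_cont : Continuous zb_g := by
  rw [continuous_iff_continuousAt]
  intro z
  rcases eq_or_ne z 0 with rfl | hz
  · rw [zb_g, continuousAt_update_same]
    have h1 : Tendsto (fun z : ℂ => 1 + z) (𝓝[≠] 0) (𝓝[≠] 1) := by
      rw [tendsto_nhdsWithin_iff]
      constructor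
      · have : Tendsto (fun z : ℂ => 1 + z) (𝓝 0) (𝓝 (1 + 0)) :=
          (continuous_const.add continuous_id).tendsto 0
        rw [add_zero] at this
        exact this.mono_left nhdsWithin_le_nhds
      · filter_upwards [self_mem_nhdsWithin] with z hz
        simp only [mem_compl_iff, mem_singleton_iff] at hz ⊢
        intro h
        apply hz
        linear_combination h
    have h2 := riemannZeta_residue_one.comp h1
    refine h2.congr ?_
    intro z
    simp [Function.comp]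
  · have h1 : ContinuousAt (fun z => z * riemannZeta (1 + z)) z := by
      apply ContinuousAt.mul continuousAt_id
      have h2 : ContinuousAt riemannZeta (1 + z) := by
        apply (differentiableAt_riemannZeta _).continuousAt
        intro h
        apply hz
        linear_combination h
      exact ContinuousAt.comp (f := fun z : ℂ => 1 + z) h2 (by fun_prop)
    refine h1.congr ?_
    filter_upwards [isOpen_ne.mem_nhds hz] with w hw
    rw [zb_g_of_ne hw]

theorem zb_g_ne {z : ℂ} (hz : 0 ≤ z.re) : zb_g z ≠ 0 := by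
  rcases eq_or_ne z 0 with rfl | h
  · simp [zb_g]
  · rw [zb_g_of_ne h]
    apply mul_ne_zero h
    apply riemannZeta_ne_zero_of_one_le_re
    simp only [add_re, one_re]
    linarith

theorem zb_compact (R : ℝ) (hR : 1 ≤ R) : ∃ c C : ℝ, 0 < c ∧ c ≤ 1 ∧ 1 ≤ C ∧
    ∀ z : ℂ, 0 ≤ z.re → z.re ≤ 3 → |z.im| ≤ R + 1 → c ≤ ‖zb_g z‖ ∧ ‖zb_g z‖ ≤ C := by
  have hK : IsCompact ((Icc (0 : ℝ) 3) ×ℂ (Icc (-(R + 1)) (R + 1))) :=
    isCompact_Icc.reProdIm isCompact_Icc
  have hne : ((Icc (0 : ℝ) 3) ×ℂ (Icc (-(R + 1)) (R + 1))).Nonempty := by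
    refine ⟨0, ?_⟩
    rw [mem_reProdIm]
    simp only [zero_re, zero_im, mem_Icc]
    refine ⟨⟨le_refl _, by norm_num⟩, by linarith, by linarith⟩
  have hcont : ContinuousOn (fun z => ‖zb_g z‖) ((Icc (0 : ℝ) 3) ×ℂ (Icc (-(R + 1)) (R + 1))) :=
    zb_g_cont.norm.continuousOn
  obtain ⟨z1, hz1, hm1⟩ := hK.exists_isMinOn hne hcont
  obtain ⟨z2, hz2, hm2⟩ := hK.exists_isMaxOn hne hcont
  refine ⟨min ‖zb_g z1‖ 1, max ‖zb_g z2‖ 1, ?_, min_le_right _ _, le_max_right _ _, ?_⟩
  · apply lt_min _ one_pos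
    rw [norm_pos_iff]
    apply zb_g_ne
    rw [mem_reProdIm] at hz1
    exact hz1.1.1
  · intro z h1 h2 h3
    have hz : z ∈ ((Icc (0 : ℝ) 3) ×ℂ (Icc (-(R + 1)) (R + 1))) := by
      rw [mem_reProdIm]
      exact ⟨⟨h1, h2⟩, abs_le.mp h3⟩
    exact ⟨(min_le_left _ _).trans (hm1 hz), (hm2 hz).trans (le_max_left _ _)⟩

/- TASK (helper647, project SG): prove this theorem (axioms propext, Classical.choice, Quot.sound only; helper lemmas welcome;
keep the statement and the namespace).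
PROOF. Put z = x + i y, y = τ + τ'/L, so 1/L ≤ Re z = x ≤ 3/L ≤ 3. The function g(z) = z ζ(1+z) (g(0) = 1) is continuous on
K = {0 ≤ Re z ≤ 3, |Im z| ≤ R + 1} (differentiable extension across 0: riemannZeta_residue_one, or
analyticity; e.g. Function.update and tendsto of (s-1) ζ(s) at 1) and has no zero there (riemannZeta_ne_zero_of_one_le_re), so by compactness
c1 ≤ |g| ≤ C1 on K. If |y| ≤ R + 1 then |1/ζ(1+z)| = |z|/|g(z)| ≤ |z| / c1 and |z| ≤ 3/L + |y| ≤ 3 (1 + |τ L + τ'|)/L, and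
|ζ(1+z)| ≤ C1/|z| with |z| ≥ max(1/L, |y|) ≥ (1 + |τ L + τ'|)/(2L). If |y| > R + 1 then |τ'| ≥ L, and the trivial bounds
|ζ(1+z)| ≤ ζ(1+x) ≤ 1 + 1/x ≤ 2L, |1/ζ(1+z)| ≤ ζ(1+x) ≤ 2L (|∑ μ(n) n^{-1-z}| ≤ ∑ n^{-1-x}: LSeries_moebius / zeta) suffice, because
(1+|τ L+τ'|)/L ≥ |y| ≥ 1, (1+|τ'|)^2 ≥ L, and 1 + |τ L + τ'| ≤ 1 + R L + |τ'| ≤ (R+1)(1+|τ'|). -/
theorem zb : ∀ R : ℝ, 1 ≤ R → ∃ C : ℝ, 1 ≤ C ∧ ∀ L x τ τ' : ℝ, 1 ≤ L → 1 / L ≤ x → x ≤ 3 / L → |τ| ≤ R →
    ‖(riemannZeta (1 + (x : ℂ) + I * ((τ + τ' / L : ℝ) : ℂ)))⁻¹‖ ≤ C * (1 + |τ * L + τ'|) / L * (1 + |τ'|) ^ 2 ∧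
    ‖riemannZeta (1 + (x : ℂ) + I * ((τ + τ' / L : ℝ) : ℂ))‖ ≤ C * L / (1 + |τ * L + τ'|) * (1 + |τ'|) := by
  intro R hR
  obtain ⟨c, C1, hc0, hc1, hC1, hK⟩ := zb_compact R hR
  have hc1' : 1 ≤ 1 / c := by
    rw [le_div_iff₀ hc0]
    linarith
  refine ⟨3 / c + 2 * C1 * (R + 1), ?_, ?_⟩
  · have h1 : 3 / c = 3 * (1 / c) := by ring
    have h2 : 0 ≤ 2 * C1 * (R + 1) := by positivity
    linarith
  intro L x τ τ' hL hx1 hx2 hτ
  have hL0 : 0 < L := by linarith
  have hx0 : 0 < x := lt_of_lt_of_le (by positivity) hx1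
  have hx3 : x ≤ 3 := by
    refine hx2.trans ?_
    rw [div_le_iff₀ hL0]
    nlinarith
  set y : ℝ := τ + τ' / L with hy
  set w : ℝ := τ * L + τ' with hw
  have hwy : w = y * L := by
    rw [hw, hy]
    field_simp
  have hwabs : |w| = |y| * L := by
    rw [hwy, abs_mul, abs_of_pos hL0]
  set z : ℂ := (x : ℂ) + I * ((y : ℝ) : ℂ) with hz
  have hzre : z.re = x := by
    rw [hz]
    simp
  have hzim : z.im = y := by
    rw [hz]
    simp
  have hz0 : z ≠ 0 := by
    intro h
    rw [h] at hzre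
    simp at hzre
    linarith
  have harg : (1 : ℂ) + (x : ℂ) + I * ((y : ℝ) : ℂ) = 1 + z := by
    rw [hz]
    ring
  rw [harg]
  have hsre : 1 < (1 + z).re := by
    simp only [add_re, one_re, hzre]
    linarith
  have hζ : riemannZeta (1 + z) = zb_g z / z := by
    rw [zb_g_of_ne hz0]
    field_simp
  have hznorm : 0 < ‖z‖ := norm_pos_iff.mpr hz0
  have hD0 : (0 : ℝ) ≤ |w| := abs_nonneg _
  have hD' : (0 : ℝ) ≤ |τ'| := abs_nonneg _
  have hone : (1 : ℝ) ≤ (1 + |τ'|) ^ 2 := by nlinarith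
  rcases le_or_gt |y| (R + 1) with hyR | hyR
  · obtain ⟨hg1, hg2⟩ := hK z (by rw [hzre]; exact hx0.le) (by rw [hzre]; exact hx3)
      (by rw [hzim]; exact hyR)
    have hgpos : 0 < ‖zb_g z‖ := lt_of_lt_of_le hc0 hg1
    constructor
    · rw [hζ, inv_div, norm_div]
      have h1 : ‖z‖ ≤ x + |y| := by
        have := Complex.norm_le_abs_re_add_abs_im z
        rw [hzre, hzim, abs_of_pos hx0] at this
        exact this
      have h2 : ‖z‖ ≤ 3 * (1 + |w|) / L := by
        rw [le_div_iff₀ hL0, hwabs]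
        have h3 : x * L ≤ 3 := by
          rwa [le_div_iff₀ hL0] at hx2
        have h4 : 0 ≤ |y| * L := by positivity
        nlinarith
      have h5 : 0 ≤ 3 * (1 + |w|) / L := by positivity
      calc ‖z‖ / ‖zb_g z‖ ≤ (3 * (1 + |w|) / L) / c := by
            apply div_le_div₀ h5 h2 hc0 hg1
        _ = (3 / c) * (1 + |w|) / L * 1 := by ring
        _ ≤ (3 / c) * (1 + |w|) / L * (1 + |τ'|) ^ 2 := by
            apply mul_le_mul_of_nonneg_left hone
            positivity
        _ ≤ (3 / c + 2 * C1 * (R + 1)) * (1 + |w|) / L * (1 + |τ'|) ^ 2 := by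
            have : 3 / c ≤ 3 / c + 2 * C1 * (R + 1) := by
              have : 0 ≤ 2 * C1 * (R + 1) := by positivity
              linarith
            gcongr
    · rw [hζ, norm_div]
      have h1 : x ≤ ‖z‖ := by
        have := Complex.abs_re_le_norm z
        rw [hzre, abs_of_pos hx0] at this
        exact this
      have h2 : |y| ≤ ‖z‖ := by
        have := Complex.abs_im_le_norm z
        rwa [hzim] at this
      have h3 : (1 + |w|) ≤ 2 * L * ‖z‖ := by
        rw [hwabs]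
        have h4 : 1 ≤ ‖z‖ * L := by
          have h5 : 1 / L ≤ ‖z‖ := hx1.trans h1
          rwa [div_le_iff₀ hL0] at h5
        have h6 : |y| * L ≤ ‖z‖ * L := mul_le_mul_of_nonneg_right h2 hL0.le
        nlinarith
      calc ‖zb_g z‖ / ‖z‖ ≤ 2 * C1 * L / (1 + |w|) := by
            rw [div_le_div_iff₀ hznorm (by positivity)]
            calc ‖zb_g z‖ * (1 + |w|) ≤ C1 * (2 * L * ‖z‖) := by
                  apply mul_le_mul hg2 h3 (by positivity) (by positivity)
              _ = 2 * C1 * L * ‖z‖ := by ring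
        _ = 2 * C1 * L / (1 + |w|) * 1 := by ring
        _ ≤ 2 * C1 * L / (1 + |w|) * (1 + |τ'|) := by
            apply mul_le_mul_of_nonneg_left _ (by positivity)
            linarith
        _ ≤ (3 / c + 2 * C1 * (R + 1)) * L / (1 + |w|) * (1 + |τ'|) := by
            have : 2 * C1 ≤ 3 / c + 2 * C1 * (R + 1) := by
              have h7 : 0 ≤ 3 / c := by positivity
              nlinarith
            gcongr
  · have hτ'L : L ≤ |τ'| := by
      have h1 : |y| ≤ |τ| + |τ' / L| := abs_add_le _ _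
      rw [abs_div, abs_of_pos hL0] at h1
      have h2 : 1 ≤ |τ'| / L := by linarith
      rw [le_div_iff₀ hL0] at h2
      linarith
    have hxc : ((x : ℝ) : ℂ) ≠ 0 := by
      exact_mod_cast hx0.ne'
    have hZ : ‖riemannZeta (((1 + z).re : ℝ) : ℂ)‖ ≤ C1 * L := by
      have h1 : (((1 + z).re : ℝ) : ℂ) = 1 + ((x : ℝ) : ℂ) := by
        simp only [add_re, one_re, hzre]
        push_cast
        ring
      rw [h1]
      have h2 : riemannZeta (1 + ((x : ℝ) : ℂ)) = zb_g ((x : ℝ) : ℂ) / ((x : ℝ) : ℂ) := by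
        rw [zb_g_of_ne hxc]
        field_simp
      rw [h2, norm_div, Complex.norm_real, Real.norm_eq_abs, abs_of_pos hx0]
      have h3 := (hK ((x : ℝ) : ℂ) (by simpa using hx0.le) (by simpa using hx3)
        (by simp; linarith)).2
      rw [div_le_iff₀ hx0]
      have h4 : 1 ≤ L * x := by
        rw [div_le_iff₀ hL0] at hx1
        linarith
      calc ‖zb_g ((x : ℝ) : ℂ)‖ ≤ C1 * 1 := by linarith
        _ ≤ C1 * (L * x) := mul_le_mul_of_nonneg_left h4 (by linarith)
        _ = C1 * L * x := by ring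
    have hwL : L ≤ |w| := by
      rw [hwabs]
      nlinarith
    constructor
    · refine (zb_norm_zeta_inv hsre).trans (hZ.trans ?_)
      have h1 : 1 ≤ (1 + |w|) / L := by
        rw [le_div_iff₀ hL0]
        linarith
      have h2 : L ≤ (1 + |τ'|) ^ 2 := by nlinarith
      calc C1 * L ≤ C1 * (1 * (1 + |τ'|) ^ 2) := by
            apply mul_le_mul_of_nonneg_left _ (by linarith)
            linarith
        _ ≤ C1 * ((1 + |w|) / L * (1 + |τ'|) ^ 2) := by
            apply mul_le_mul_of_nonneg_left _ (by linarith)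
            apply mul_le_mul_of_nonneg_right h1 (by positivity)
        _ = C1 * (1 + |w|) / L * (1 + |τ'|) ^ 2 := by ring
        _ ≤ (3 / c + 2 * C1 * (R + 1)) * (1 + |w|) / L * (1 + |τ'|) ^ 2 := by
            have : C1 ≤ 3 / c + 2 * C1 * (R + 1) := by
              have h7 : 0 ≤ 3 / c := by positivity
              nlinarith
            gcongr
    · refine (zb_norm_zeta hsre).trans (hZ.trans ?_)
      have h1 : 1 + |w| ≤ (R + 1) * (1 + |τ'|) := by
        have h2 : |w| ≤ |τ * L| + |τ'| := abs_add_le _ _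
        rw [abs_mul, abs_of_pos hL0] at h2
        have h3 : |τ| * L ≤ R * |τ'| := mul_le_mul hτ hτ'L hL0.le (by linarith)
        nlinarith
      have hw1 : 0 < 1 + |w| := by positivity
      rw [div_mul_eq_mul_div, le_div_iff₀ hw1]
      calc C1 * L * (1 + |w|) ≤ C1 * L * ((R + 1) * (1 + |τ'|)) :=
            mul_le_mul_of_nonneg_left h1 (by positivity)
        _ = (C1 * (R + 1)) * L * (1 + |τ'|) := by ring
        _ ≤ (3 / c + 2 * C1 * (R + 1)) * L * (1 + |τ'|) := by
            have : C1 * (R + 1) ≤ 3 / c + 2 * C1 * (R + 1) := by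
              have h7 : 0 ≤ 3 / c := by positivity
              nlinarith
            gcongr

end Pool.Agent.Helper647.SG.JZB
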