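import Pool.Agent.Helper647_SG.Sm1
import Pool.Agent.Helper647_SG.JZB
import Pool.Agent.Helper647_SG.JQB
import Pool.Agent.Helper647_SG.JVM
import Pool.Agent.Helper647_SG.JVS
import Pool.Agent.Helper647_SG.JJC
import Pool.Agent.Helper647_SG.JRR
import Pool.Agent.Helper647_SG.JCT
import Pool.Agent.Helper647_SG.JRS
import Pool.Agent.Helper647_SG.JGL
import Pool.Agent.Helper647_SG.JMS
import Pool.Agent.Helper647_SG.JRL
import Pool.Agent.Helper647_SG.JCS
import Pool.Agent.Helper647_SG.JFI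
import Pool.Agent.Helper647_PT.Ar4

set_option autoImplicit false

/-! The lemmas of the separate files in the notation of this project. -/

namespace Pool.Agent.Helper647.SG

open Complex Filter Topology MeasureTheory Set
open Pool.Agent.Helper647.PT (al bR Bz Pz Yn Nn F1 KE cr bR_supp)

theorem zb : S_ZB := JZB.zb

theorem qb : S_Q := JQB.q_bound

theorem vm : S_Vmul := JVM.v_mul

theorem vs : S_Vsum := JVS.v_sum V vm

theorem jc : S_Jc := JJC.jc

theorem rrp : S_Rrep := by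
  obtain ⟨C1, hC1, hF⟩ := Pool.Agent.W688.SD.sfour (1 / 1000) (by norm_num) (by norm_num)
  obtain ⟨w, hwc, hwb, hwe⟩ := hF 0
  have hwb' : ∀ τ, ‖w τ‖ ≤ C1 * (1 + |τ|) ^ (-10 : ℝ) := by
    intro τ
    have := hwb τ
    simpa using this
  refine ⟨w, C1, hC1, hwc, hwb', fun L s Y k hL hs hY hk => ?_⟩
  have hL0 : 0 < L := by linarith
  have hLC : (L : ℂ) ≠ 0 := by exact_mod_cast hL0.ne'
  refine JRR.rrep w C1 hC1 hwc hwb' L hL (bR L) Y ?_ ?_ s hs k hk
  · intro n hn
    have hm0 : (n : ℂ) ≠ 0 := by exact_mod_cast (by omega : n ≠ 0)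
    have hu : 0 ≤ Real.log n / L := div_nonneg (Real.log_natCast_nonneg n) hL0.le
    have h1 := hwe _ hu
    rw [zero_mul, neg_zero, Complex.exp_zero, mul_one] at h1
    have e1 : Real.log n / (1 / 1000 * L) = Real.log n / L / (1 / 1000) := by
      field_simp
    have e3 : ∀ τ : ℝ, (n : ℂ) ^ (-((1 + I * τ) / L)) = cexp (-((1 + I * τ) * ((Real.log n / L : ℝ) : ℂ))) := by
      intro τ
      rw [cpow_def_of_ne_zero hm0, Complex.natCast_log.symm]
      congr 1
      push_cast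
      field_simp
    simp only [e3]
    rw [← h1]
    unfold bR
    rw [e1]
    push_cast
    rfl
  · intro n hn
    by_contra h0
    have := bR_supp hL0 hY h0
    omega

theorem rsm : S_Rsum := by
  obtain ⟨w, C, hC, hwc, hwb, hrep⟩ := rrp
  exact JRS.rsum Q V Jc Rg bR w C hC hwc hwb JCT.cont_rep hrep (fun w n hn hw => (jc w n hn).2 hw) qb vs zb

theorem gl : S_Glim := JGL.glim fun w n hn => (jc w n hn).1

theorem ms : S_mass := JMS.mass_le

lemma keJ {E : ℝ → ℝ} {C c0 : ℝ} (h : KE E C c0) : JRL.KE E C c0 :=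
  ⟨h.hC, h.hc0, h.cont, h.lip, h.dec, h.low, h.ft⟩

lemma keC {E : ℝ → ℝ} {C c0 : ℝ} (h : KE E C c0) : JCS.KE E C c0 :=
  ⟨h.hC, h.hc0, h.cont, h.lip, h.dec, h.low, h.ft⟩

theorem rl : S_real := fun E C c0 h => JRL.real_trick Pool.Agent.Helper647.PT.poi E C c0 (keJ h)

theorem cs : S_cs := fun E C c0 h => JCS.cs E C c0 (keC h)

theorem fin : S_fin := JFI.fin_ineq

end Pool.Agent.Helper647.SG
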