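import Mathlib

set_option autoImplicit false

namespace Pool.Agent.Helper647.SG.JMJ

open Complex Filter Topology MeasureTheory Set

/-- the properties of the kernel -/
structure KE (E : ℝ → ℝ) (C c0 : ℝ) : Prop where
  hC : 0 < C
  hc0 : 0 < c0
  cont : Continuous E
  lip : ∀ v w : ℝ, |E v - E w| ≤ C * |v - w|
  dec : ∀ v : ℝ, |E v| ≤ C / (1 + v ^ 2) ^ 40
  low : ∀ v : ℝ, |v| ≤ 1 → c0 ≤ E v ^ 2
  ft : ∀ ξ : ℝ, 1 ≤ |ξ| → ∫ v : ℝ, ((E v ^ 2 : ℝ) : ℂ) * cexp (I * ξ * v) = 0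

/-- the windows -/
def Wd (ψ δ H : ℝ) (l0 : ℕ) : Set ℝ := {x : ℝ | ∃ l : ℕ, l0 ≤ l ∧ |ψ - x - 2 * Real.pi * l / δ| ≤ 2 / H}

/-- the triples -/
noncomputable def tri (N Y : ℕ) : Finset (ℕ × ℕ × ℕ) := Finset.Icc 1 N ×ˢ (Finset.Icc 1 Y ×ˢ Finset.Icc 1 Y)

/-- the frequency -/
noncomputable def lm (p : ℕ × ℕ × ℕ) : ℝ := Real.log (p.1 * p.2.1 / p.2.2)

/-- the coefficient -/
noncomputable def cf (β : ℕ → ℝ) (p : ℕ × ℕ × ℕ) : ℝ := β p.2.1 * β p.2.2 / Real.sqrt (p.1 * p.2.1 * p.2.2)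

open Classical in
/-- the part with frequencies in `W` -/
noncomputable def DS (N Y : ℕ) (β : ℕ → ℝ) (W : Set ℝ) (t : ℝ) : ℂ :=
  ∑ p ∈ tri N Y, (((if lm p ∈ W then cf β p else 0 : ℝ)) : ℂ) * cexp (-(I * lm p * t))

theorem mj_summ : Summable (fun j : ℤ => 1 / (1 + (j : ℝ) ^ 2)) := by
  have h := (Real.summable_one_div_int_pow (p := 2)).2 (by norm_num)
  refine Summable.of_norm_bounded_eventually h ?_
  have : ∀ᶠ j : ℤ in cofinite, j ∉ ({0} : Set ℤ) := (Set.finite_singleton 0).compl_mem_cofinite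
  filter_upwards [this] with j hj
  have hj0 : (j : ℝ) ≠ 0 := by
    intro h0
    apply hj
    have : j = 0 := by exact_mod_cast h0
    simp [this]
  have hpos : 0 < (j : ℝ) ^ 2 := by positivity
  rw [Real.norm_of_nonneg (by positivity)]
  apply one_div_le_one_div_of_le hpos
  linarith

theorem mj_E (E : ℝ → ℝ) (C c0 : ℝ) (hE : KE E C c0) (K δ : ℝ) (hK : 1 ≤ K) (hδ : 0 < δ) (j : ℤ) :
    E (δ * j / (K * δ)) ^ 2 ≤ C ^ 2 * K ^ 160 / (1 + (j : ℝ) ^ 2) ^ 80 := by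
  have hC := hE.hC
  have hK0 : 0 < K := by linarith
  have h1 := hE.dec (δ * j / (K * δ))
  have h2 : δ * j / (K * δ) = j / K := by field_simp
  rw [h2] at h1 ⊢
  have h3 : (1 + (j:ℝ)^2) / K^2 ≤ 1 + ((j:ℝ)/K)^2 := by
    rw [div_pow, div_le_iff₀ (by positivity)]
    have : (1 + (j:ℝ)^2/K^2) * K^2 = K^2 + (j:ℝ)^2 := by field_simp
    rw [this]; nlinarith
  calc E (j/K)^2 = |E (j/K)|^2 := (sq_abs _).symm
    _ ≤ (C / (1 + ((j:ℝ)/K)^2)^40)^2 := by gcongr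
    _ = C^2 / (1 + ((j:ℝ)/K)^2)^80 := by rw [div_pow, ← pow_mul]
    _ ≤ C^2 / ((1 + (j:ℝ)^2)/K^2)^80 := by gcongr
    _ = C^2*K^160/(1+(j:ℝ)^2)^80 := by rw [div_pow, ← pow_mul]; field_simp

theorem mj_wd (pu ψ δ K x : ℝ) (l0 : ℕ) (hδ : 0 < δ) (hK : 16 ≤ K)
    (hpψ : |pu - ψ| ≤ 1 / (K * δ)) :
    (x ∈ Wd ψ δ (K * δ) l0 → ∀ l : ℤ, l < l0 → 1 / (K * δ) ≤ |(pu - x) - 2 * Real.pi * l / δ|) ∧
    (¬ x ∈ Wd ψ δ (K * δ) l0 → ∀ l : ℤ, (l0 : ℤ) ≤ l →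
      1 / (K * δ) ≤ |(pu - x) - 2 * Real.pi * l / δ|) := by
  have hK0 : 0 < K := by linarith
  have hKδ : 0 < K * δ := by positivity
  set a := 1 / (K * δ) with ha
  have ha2 : 2 / (K * δ) = 2 * a := by rw [ha]; ring
  have hpi : 3 < Real.pi := Real.pi_gt_three
  have ha4 : 4 * a ≤ 2 * Real.pi / δ := by
    rw [ha]
    have : 4 * (1 / (K * δ)) = (4 / K) / δ := by field_simp
    rw [this]
    have h4 : 4 / K ≤ 2 * Real.pi := by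
      rw [div_le_iff₀ hK0]; nlinarith
    gcongr
  obtain ⟨hp1, hp2⟩ := abs_le.1 hpψ
  constructor
  · rintro ⟨l', hl', h⟩ l hl
    rw [ha2] at h
    obtain ⟨h1, h2⟩ := abs_le.1 h
    have hll : (1 : ℝ) ≤ (l' : ℝ) - l := by
      have : (1 : ℤ) ≤ (l' : ℤ) - l := by omega
      exact_mod_cast this
    have hmul : 2 * Real.pi / δ ≤ 2 * Real.pi * l' / δ - 2 * Real.pi * l / δ := by
      have : 2 * Real.pi * l' / δ - 2 * Real.pi * l / δ = (2 * Real.pi / δ) * ((l' : ℝ) - l) := by ring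
      rw [this]
      have h0 : 0 ≤ 2 * Real.pi / δ := by positivity
      nlinarith
    refine le_trans ?_ (le_abs_self _)
    linarith
  · intro hx l hl
    obtain ⟨n, rfl⟩ := Int.eq_ofNat_of_zero_le (show (0 : ℤ) ≤ l by omega)
    by_contra hcon
    push Not at hcon
    apply hx
    refine ⟨n, by exact_mod_cast hl, ?_⟩
    rw [ha2]
    obtain ⟨h1, h2⟩ := abs_lt.1 hcon
    have hcast : (((n : ℕ) : ℤ) : ℝ) = (n : ℝ) := by norm_cast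
    simp only [hcast] at h1 h2
    rw [abs_le]
    constructor <;> linarith

theorem mj_F (N Y : ℕ) (β : ℕ → ℝ) (vu pu u x : ℝ) :
    cexp (I * ((vu + pu * x : ℝ) : ℂ)) *
        ∑ q ∈ tri N Y, ((cf β q : ℝ) : ℂ) * cexp (-(I * lm q * ((u + x : ℝ) : ℂ))) =
      ∑ q ∈ tri N Y, (((cf β q : ℝ) : ℂ) * cexp (I * ((vu - lm q * u : ℝ) : ℂ))) *
        cexp (I * ((pu - lm q : ℝ) : ℂ) * x) := by
  rw [Finset.mul_sum]
  apply Finset.sum_congr rfl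
  intro q _
  rw [mul_left_comm, ← Complex.exp_add, mul_assoc ((cf β q : ℝ) : ℂ), ← Complex.exp_add]
  congr 2
  push_cast
  ring

open Classical in
theorem mj_DS (N Y : ℕ) (β : ℕ → ℝ) (W : Set ℝ) (vu pu u x : ℝ) :
    ∑ q ∈ tri N Y, (if lm q ∈ W then (((cf β q : ℝ) : ℂ) * cexp (I * ((vu - lm q * u : ℝ) : ℂ)))
        else 0) * cexp (I * ((pu - lm q : ℝ) : ℂ) * x) =
      cexp (I * ((vu + pu * x : ℝ) : ℂ)) * DS N Y β W (u + x) := by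
  unfold DS
  rw [Finset.mul_sum]
  apply Finset.sum_congr rfl
  intro q _
  by_cases h : lm q ∈ W
  · rw [if_pos h, if_pos h]
    rw [mul_left_comm (cexp _), ← Complex.exp_add, mul_assoc, ← Complex.exp_add]
    congr 2
    push_cast
    ring
  · rw [if_neg h, if_neg h]
    simp

theorem mj_DS_cont (N Y : ℕ) (β : ℕ → ℝ) (W : Set ℝ) : Continuous (DS N Y β W) := by
  unfold DS
  fun_prop

theorem mj_DS_le (N Y : ℕ) (β : ℕ → ℝ) (W : Set ℝ) (t : ℝ) :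
    ‖DS N Y β W t‖ ≤ ∑ q ∈ tri N Y, |cf β q| := by
  classical
  unfold DS
  refine le_trans (norm_sum_le _ _) ?_
  apply Finset.sum_le_sum
  intro q _
  rw [norm_mul]
  have : ‖cexp (-(I * lm q * t))‖ = 1 := by
    rw [Complex.norm_exp]; simp
  rw [this, mul_one, Complex.norm_real, Real.norm_eq_abs]
  split_ifs
  · exact le_refl _
  · simp

theorem mj_asym (A K C C1 D S : ℝ) :
    ∀ᶠ T : ℝ in atTop, (2 * T ^ (1/30:ℝ) + 1) * T ^ (-(1/10):ℝ) * C ^ 2 +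
      T ^ (51/100:ℝ) * D * S / (T ^ (1/30:ℝ)) ^ 158 +
      C1 * (3 * Real.log T * A + 2) * K * (T ^ (-(1/10):ℝ) +
        T ^ (51/100:ℝ) * (K * A / T ^ (1/20:ℝ)) ^ 100) ≤ 1 / 2 := by
  have t1 : ∀ a : ℝ, 0 < a → Tendsto (fun T : ℝ => T ^ (-a)) atTop (𝓝 0) :=
    fun a ha => tendsto_rpow_neg_atTop ha
  have t2 : ∀ a : ℝ, 0 < a → Tendsto (fun T : ℝ => Real.log T * T ^ (-a)) atTop (𝓝 0) := by
    intro a ha
    have h := (isLittleO_log_rpow_atTop ha).tendsto_div_nhds_zero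
    refine h.congr' ?_
    filter_upwards [eventually_gt_atTop 0] with T hT
    rw [Real.rpow_neg hT.le, div_eq_mul_inv]
  have key : Tendsto (fun T : ℝ => 2 * C ^ 2 * T ^ (-(1/15):ℝ) + C ^ 2 * T ^ (-(1/10):ℝ) +
      D * S * T ^ (-(158/30 - 51/100):ℝ) +
      C1 * K * (3 * A * (Real.log T * T ^ (-(1/10):ℝ)) + 2 * T ^ (-(1/10):ℝ) +
        (K * A) ^ 100 * (3 * A * (Real.log T * T ^ (-(449/100):ℝ)) + 2 * T ^ (-(449/100):ℝ))))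
      atTop (𝓝 (2 * C ^ 2 * 0 + C ^ 2 * 0 + D * S * 0 +
        C1 * K * (3 * A * 0 + 2 * 0 + (K * A) ^ 100 * (3 * A * 0 + 2 * 0)))) := by
    have a1 := t1 (1/15) (by norm_num)
    have a2 := t1 (1/10) (by norm_num)
    have a3 := t1 (158/30 - 51/100) (by norm_num)
    have a4 := t1 (449/100) (by norm_num)
    have b2 := t2 (1/10) (by norm_num)
    have b4 := t2 (449/100) (by norm_num)
    exact (((a1.const_mul _).add (a2.const_mul _)).add (a3.const_mul _)).add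
      ((((b2.const_mul _).add (a2.const_mul _)).add
        (((b4.const_mul _).add (a4.const_mul _)).const_mul _)).const_mul _)
  have hz : (2 * C ^ 2 * 0 + C ^ 2 * 0 + D * S * 0 +
        C1 * K * (3 * A * 0 + 2 * 0 + (K * A) ^ 100 * (3 * A * 0 + 2 * 0))) = 0 := by ring
  rw [hz] at key
  have hev := key.eventually (gt_mem_nhds (show (0 : ℝ) < 1 / 2 by norm_num))
  filter_upwards [hev, eventually_gt_atTop 0] with T hT hT0
  refine le_trans (le_of_eq ?_) hT.le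
  have e1 : T ^ (1/30:ℝ) * T ^ (-(1/10):ℝ) = T ^ (-(1/15):ℝ) := by
    rw [← Real.rpow_add hT0]; norm_num
  have e2 : T ^ (51/100:ℝ) / (T ^ (1/30:ℝ)) ^ 158 = T ^ (-(158/30 - 51/100):ℝ) := by
    rw [← Real.rpow_natCast (T ^ (1/30:ℝ)) 158, ← Real.rpow_mul hT0.le, ← Real.rpow_sub hT0]
    norm_num
  have e3 : T ^ (51/100:ℝ) * (K * A / T ^ (1/20:ℝ)) ^ 100 = (K * A) ^ 100 * T ^ (-(449/100):ℝ) := by
    rw [div_pow, ← Real.rpow_natCast (T ^ (1/20:ℝ)) 100, ← Real.rpow_mul hT0.le]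
    have : T ^ (51/100:ℝ) * ((K * A) ^ 100 / T ^ (1/20 * ((100 : ℕ) : ℝ))) =
        (K * A) ^ 100 * (T ^ (51/100:ℝ) / T ^ (1/20 * ((100 : ℕ) : ℝ))) := by ring
    rw [this, ← Real.rpow_sub hT0]
    norm_num
  rw [e3]
  have e2' : T ^ (51/100:ℝ) * D * S / (T ^ (1/30:ℝ)) ^ 158 = D * S * T ^ (-(158/30 - 51/100):ℝ) := by
    rw [← e2]; ring
  rw [e2']
  have e1' : (2 * T ^ (1/30:ℝ) + 1) * T ^ (-(1/10):ℝ) * C ^ 2 =
      2 * C ^ 2 * T ^ (-(1/15):ℝ) + C ^ 2 * T ^ (-(1/10):ℝ) := by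
    rw [← e1]; ring
  rw [e1']
  ring

/-- the sum over all `j` against the truncated sum -/
theorem mj_trunc (F : ℤ → ℂ) (e : ℤ → ℝ) (Mb D τ : ℝ) (M' : ℕ) (hM : 0 ≤ Mb) (hD : 0 ≤ D)
    (hτ : 0 < τ) (hτM : τ ≤ M' + 1) (hF : ∀ j, ‖F j‖ ≤ Mb) (he0 : ∀ j, 0 ≤ e j)
    (he : ∀ j : ℤ, e j ≤ D / (1 + (j : ℝ) ^ 2) ^ 80) :
    ‖∑ j ∈ Finset.Icc (-(M' : ℤ)) M', F j * ((e j : ℝ) : ℂ)‖ ≤
      ‖∑' j : ℤ, F j * ((e j : ℝ) : ℂ)‖ +
        Mb * D * (∑' j : ℤ, 1 / (1 + (j : ℝ) ^ 2)) / τ ^ 158 := by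
  classical
  have hnorm : ∀ j : ℤ, ‖F j * ((e j : ℝ) : ℂ)‖ ≤ Mb * D * (1 / (1 + (j : ℝ) ^ 2)) := by
    intro j
    rw [norm_mul, Complex.norm_real, Real.norm_of_nonneg (he0 j)]
    have h1 : e j ≤ D * (1 / (1 + (j : ℝ) ^ 2)) := by
      refine le_trans (he j) ?_
      rw [mul_one_div]
      apply div_le_div_of_nonneg_left hD (by positivity)
      exact le_self_pow₀ (by nlinarith [sq_nonneg (j : ℝ)]) (by norm_num)
    calc ‖F j‖ * e j ≤ Mb * (D * (1 / (1 + (j : ℝ) ^ 2))) := by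
          apply mul_le_mul (hF j) h1 (he0 j) hM
      _ = _ := by ring
  have hS : Summable (fun j : ℤ => F j * ((e j : ℝ) : ℂ)) :=
    Summable.of_norm_bounded (mj_summ.mul_left (Mb * D)) hnorm
  set I := Finset.Icc (-(M' : ℤ)) (M' : ℤ) with hI
  set g : ℤ → ℂ := fun j => if j ∈ I then 0 else F j * ((e j : ℝ) : ℂ) with hg
  set h : ℤ → ℂ := fun j => if j ∈ I then F j * ((e j : ℝ) : ℂ) else 0 with hh
  have hgb : ∀ j : ℤ, ‖g j‖ ≤ Mb * D / τ ^ 158 * (1 / (1 + (j : ℝ) ^ 2)) := by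
    intro j
    by_cases hj : j ∈ I
    · rw [hg]
      simp only [hj, if_true, norm_zero]
      positivity
    · have hj' : τ ≤ |(j : ℝ)| := by
        have hj1 : (M' : ℤ) + 1 ≤ |j| := by
          rw [hI, Finset.mem_Icc] at hj
          by_contra hcon
          apply hj
          have : |j| ≤ M' := by omega
          exact abs_le.1 this
        have : ((M' : ℝ) + 1) ≤ |(j : ℝ)| := by exact_mod_cast hj1
        linarith
      have hsq : τ ^ 2 ≤ (j : ℝ) ^ 2 := by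
        rw [← sq_abs (j : ℝ)]
        gcongr
      have hpow : (1 + (j : ℝ) ^ 2) * τ ^ 158 ≤ (1 + (j : ℝ) ^ 2) ^ 80 := by
        have : (1 + (j : ℝ) ^ 2) ^ 80 = (1 + (j : ℝ) ^ 2) * (1 + (j : ℝ) ^ 2) ^ 79 := by ring
        rw [this]
        have h2 : τ ^ 158 = (τ ^ 2) ^ 79 := by rw [← pow_mul]
        rw [h2]
        gcongr
        linarith
      rw [hg]
      simp only [hj, if_false]
      rw [norm_mul, Complex.norm_real, Real.norm_of_nonneg (he0 j)]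
      have h1 : e j ≤ D / τ ^ 158 * (1 / (1 + (j : ℝ) ^ 2)) := by
        refine le_trans (he j) ?_
        rw [div_mul_div_comm, mul_one]
        apply div_le_div_of_nonneg_left hD (by positivity)
        rw [mul_comm]
        exact hpow
      calc ‖F j‖ * e j ≤ Mb * (D / τ ^ 158 * (1 / (1 + (j : ℝ) ^ 2))) := by
            apply mul_le_mul (hF j) h1 (he0 j) hM
        _ = _ := by ring
  have hgS : Summable g := Summable.of_norm_bounded (mj_summ.mul_left (Mb * D / τ ^ 158)) hgb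
  have hhS : Summable h := by
    apply summable_of_ne_finset_zero (s := I)
    intro j hj
    rw [hh]
    simp [hj]
  have hsplit : ∀ j, F j * ((e j : ℝ) : ℂ) = g j + h j := by
    intro j
    rw [hg, hh]
    by_cases hj : j ∈ I <;> simp [hj]
  have hth : ∑' j, h j = ∑ j ∈ I, F j * ((e j : ℝ) : ℂ) := by
    rw [tsum_eq_sum (s := I)]
    · apply Finset.sum_congr rfl
      intro j hj
      rw [hh]
      simp [hj]
    · intro j hj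
      rw [hh]
      simp [hj]
  have htot : ∑' j, F j * ((e j : ℝ) : ℂ) = ∑' j, g j + ∑ j ∈ I, F j * ((e j : ℝ) : ℂ) := by
    rw [← hth, ← hgS.tsum_add hhS]
    exact tsum_congr hsplit
  have hgn : ‖∑' j, g j‖ ≤ Mb * D / τ ^ 158 * ∑' j : ℤ, 1 / (1 + (j : ℝ) ^ 2) :=
    tsum_of_norm_bounded (mj_summ.hasSum.mul_left _) hgb
  have : ∑ j ∈ I, F j * ((e j : ℝ) : ℂ) = ∑' j, F j * ((e j : ℝ) : ℂ) - ∑' j, g j := by
    rw [htot]; ring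
  rw [this]
  refine le_trans (norm_sub_le _ _) ?_
  have : Mb * D * (∑' j : ℤ, 1 / (1 + (j : ℝ) ^ 2)) / τ ^ 158 =
      Mb * D / τ ^ 158 * ∑' j : ℤ, 1 / (1 + (j : ℝ) ^ 2) := by ring
  rw [this]
  linarith

theorem maj (X : ℝ → ℝ → ℝ) (v p : ℝ → ℝ) (b : ℝ → ℕ → ℝ) (Yn Nn : ℝ → ℕ)
    (hloc : ∃ T0 : ℝ, 8 ≤ T0 ∧ ∀ T u x : ℝ, T0 ≤ T → T ≤ u → u ≤ 2 * T → |x| ≤ T ^ (1 / 20 : ℝ) →
      ‖((X T (u + x) : ℝ) : ℂ) - cexp (I * ((v u + p u * x : ℝ) : ℂ)) *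
        ∑ q ∈ tri (Nn T) (Yn T), ((cf (b T) q : ℝ) : ℂ) * cexp (-(I * lm q * ((u + x : ℝ) : ℂ)))‖ ≤ T ^ (-(1 / 10) : ℝ))
    (hsz : ∃ T0 : ℝ, 8 ≤ T0 ∧ ∀ T : ℝ, T0 ≤ T → 1 ≤ Real.log T ∧ (∀ q ∈ tri (Nn T) (Yn T), |lm q| ≤ 2 * Real.log T) ∧
      ∑ q ∈ tri (Nn T) (Yn T), |cf (b T) q| ≤ T ^ (51 / 100 : ℝ) ∧
      ∀ u : ℝ, T ≤ u → u ≤ 2 * T → |p u| ≤ Real.log T)
    (E : ℝ → ℝ) (C c0 : ℝ) (hE : KE E C c0)
    (hreal : ∃ C1 : ℝ, 0 < C1 ∧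
      ∀ (ι : Type) (s : Finset ι) (c : ι → ℂ) (w : ι → ℝ) (P0 P1 : ι → Prop) (R M δ H ε ρ : ℝ),
        0 < δ → δ ≤ H → 1 ≤ R → H ≤ ρ → 0 ≤ ε → (∀ i ∈ s, |w i| ≤ R) → ∑ i ∈ s, ‖c i‖ ≤ M →
        (∀ i ∈ s, (P0 i → ∀ l : ℤ, l < 0 → 1 / H ≤ |w i - 2 * Real.pi * l / δ|) ∧
          (¬ P0 i → ∀ l : ℤ, 0 ≤ l → 1 / H ≤ |w i - 2 * Real.pi * l / δ|)) →
        (∀ i ∈ s, (P1 i → ∀ l : ℤ, l < 1 → 1 / H ≤ |w i - 2 * Real.pi * l / δ|) ∧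
          (¬ P1 i → ∀ l : ℤ, 1 ≤ l → 1 / H ≤ |w i - 2 * Real.pi * l / δ|)) →
        (∀ x : ℝ, |x| ≤ ρ → |(∑ i ∈ s, c i * cexp (I * w i * x)).im| ≤ ε) →
        ‖∑' j : ℤ, (∑ i ∈ s, c i * cexp (I * w i * (δ * j))) * ((E (δ * j / H) ^ 2 : ℝ) : ℂ)‖ ≤
          ‖∑' j : ℤ, (∑ i ∈ s, (open Classical in if P0 i then c i else 0) * cexp (I * w i * (δ * j))) *
            ((E (δ * j / H) ^ 2 : ℝ) : ℂ)‖ +
          ‖∑' j : ℤ, (∑ i ∈ s, (open Classical in if P1 i then c i else 0) * cexp (I * w i * (δ * j))) *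
            ((E (δ * j / H) ^ 2 : ℝ) : ℂ)‖ +
          C1 * (R * δ + 2) * (H / δ) * (ε + M * (H / ρ) ^ 100))
    (hcs : ∃ C1 : ℝ, 0 < C1 ∧ ∀ (G : ℝ → ℂ) (M δ H : ℝ), Continuous G → (∀ t, ‖G t‖ ≤ M) → 0 < δ → δ ≤ H →
      ∀ (u : ℝ) (c : ℤ → ℂ), (∀ j, ‖c j‖ ≤ 1) →
        ‖∑' j : ℤ, c j * G (u + δ * j) * ((E (δ * j / H) ^ 2 : ℝ) : ℂ)‖ ^ 2 ≤
          C1 * (H / δ) * ∑' j : ℤ, ‖G (u + δ * j)‖ ^ 2 * E (δ * j / H) ^ 2) :
    ∃ C1 : ℝ, 0 < C1 ∧ ∀ A K : ℝ, 1 ≤ A → 1 ≤ K →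
      ∃ T0 : ℝ, 8 ≤ T0 ∧ ∀ (T u ψ δ : ℝ), T0 ≤ T → T ≤ u → u ≤ 2 * T → 1 / Real.log T ≤ δ → δ ≤ A → 16 ≤ K →
        |p u - ψ| ≤ 1 / (K * δ) →
        (∑ j ∈ Finset.Icc (-(⌊T ^ (1 / 30 : ℝ)⌋₊ : ℤ)) ⌊T ^ (1 / 30 : ℝ)⌋₊, X T (u + δ * j) * E (δ * j / (K * δ)) ^ 2) ^ 2 ≤
          C1 * K * (∑' j : ℤ, ‖DS (Nn T) (Yn T) (b T) (Wd ψ δ (K * δ) 0) (u + δ * j)‖ ^ 2 * E (δ * j / (K * δ)) ^ 2) +
          C1 * K * (∑' j : ℤ, ‖DS (Nn T) (Yn T) (b T) (Wd ψ δ (K * δ) 1) (u + δ * j)‖ ^ 2 * E (δ * j / (K * δ)) ^ 2) + 1 := by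
  classical
  obtain ⟨T1, hT1, hloc⟩ := hloc
  obtain ⟨T2, hT2, hsz⟩ := hsz
  obtain ⟨C1, hC1, hreal⟩ := hreal
  obtain ⟨C2, hC2, hcs⟩ := hcs
  refine ⟨3 * C2, by positivity, ?_⟩
  intro A K hA hK
  have hC := hE.hC
  set S0 : ℝ := ∑' j : ℤ, 1 / (1 + (j : ℝ) ^ 2) with hS0
  have h20 : ∀ᶠ T : ℝ in atTop, K * A ≤ T ^ (1/20:ℝ) :=
    (tendsto_rpow_atTop (by norm_num)).eventually_ge_atTop _
  have h60 : ∀ᶠ T : ℝ in atTop, A ≤ T ^ (1/60:ℝ) :=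
    (tendsto_rpow_atTop (by norm_num)).eventually_ge_atTop _
  obtain ⟨T3, hT3⟩ := eventually_atTop.1 ((mj_asym A K C C1 (C ^ 2 * K ^ 160) S0).and (h20.and h60))
  refine ⟨max 8 (max T1 (max T2 T3)), le_max_left _ _, ?_⟩
  intro T u ψ δ hT hTu huT hδ1 hδA hK16 hpψ
  have hT8 : 8 ≤ T := le_trans (le_max_left _ _) hT
  have hT1' : T1 ≤ T := le_trans (le_trans (le_max_left _ _) (le_max_right _ _)) hT
  have hT2' : T2 ≤ T :=
    le_trans (le_trans (le_trans (le_max_left _ _) (le_max_right _ _)) (le_max_right _ _)) hT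
  have hT3' : T3 ≤ T :=
    le_trans (le_trans (le_trans (le_max_right _ _) (le_max_right _ _)) (le_max_right _ _)) hT
  obtain ⟨hasym, hKA, hA60⟩ := hT3 T hT3'
  obtain ⟨hL, hlm, hcf, hp⟩ := hsz T hT2'
  have hT0 : 0 < T := by linarith
  have hLpos : 0 < Real.log T := by linarith
  have hδ : 0 < δ := lt_of_lt_of_le (by positivity) hδ1
  have hK0 : 0 < K := by linarith
  have hHδ : K * δ / δ = K := by field_simp
  have hKδ : K * δ ≤ K * A := by gcongr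
  -- data
  set s := tri (Nn T) (Yn T) with hs
  set c : ℕ × ℕ × ℕ → ℂ := fun q => ((cf (b T) q : ℝ) : ℂ) * cexp (I * ((v u - lm q * u : ℝ) : ℂ))
    with hc
  set w : ℕ × ℕ × ℕ → ℝ := fun q => p u - lm q with hw
  have hcn : ∀ q, ‖c q‖ = |cf (b T) q| := by
    intro q
    rw [hc]
    simp only
    rw [norm_mul, Complex.norm_real, Real.norm_eq_abs]
    have : ‖cexp (I * ((v u - lm q * u : ℝ) : ℂ))‖ = 1 := by
      rw [mul_comm]; exact Complex.norm_exp_ofReal_mul_I _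
    rw [this, mul_one]
  have hF : ∀ x : ℝ, cexp (I * ((v u + p u * x : ℝ) : ℂ)) *
        ∑ q ∈ s, ((cf (b T) q : ℝ) : ℂ) * cexp (-(I * lm q * ((u + x : ℝ) : ℂ))) =
      ∑ q ∈ s, c q * cexp (I * w q * x) := fun x => mj_F _ _ _ _ _ _ _
  have hloc' : ∀ x : ℝ, |x| ≤ T ^ (1/20:ℝ) →
      ‖((X T (u + x) : ℝ) : ℂ) - ∑ q ∈ s, c q * cexp (I * w q * x)‖ ≤ T ^ (-(1/10):ℝ) := by
    intro x hx
    rw [← hF x]
    exact hloc T u x hT1' hTu huT hx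
  have hsum : ∑ q ∈ s, ‖c q‖ ≤ T ^ (51/100:ℝ) := by
    simp_rw [hcn]; exact hcf
  have hwb : ∀ q ∈ s, |w q| ≤ 3 * Real.log T := by
    intro q hq
    have h1 := hp u hTu huT
    have h2 := hlm q hq
    have h3 : |p u - lm q| ≤ |p u| + |lm q| := abs_sub _ _
    show |p u - lm q| ≤ _
    linarith
  have him : ∀ x : ℝ, |x| ≤ T ^ (1/20:ℝ) →
      |(∑ q ∈ s, c q * cexp (I * w q * x)).im| ≤ T ^ (-(1/10):ℝ) := by
    intro x hx
    have h1 := hloc' x hx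
    have h2 := Complex.abs_im_le_norm (((X T (u + x) : ℝ) : ℂ) - ∑ q ∈ s, c q * cexp (I * w q * x))
    rw [Complex.sub_im, Complex.ofReal_im, zero_sub, abs_neg] at h2
    linarith
  have hr := hreal (ℕ × ℕ × ℕ) s c w (fun q => lm q ∈ Wd ψ δ (K * δ) 0)
    (fun q => lm q ∈ Wd ψ δ (K * δ) 1) (3 * Real.log T) (T ^ (51/100:ℝ)) δ (K * δ)
    (T ^ (-(1/10):ℝ)) (T ^ (1/20:ℝ)) hδ (by nlinarith) (by linarith) (by linarith)
    (by positivity) hwb hsum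
    (fun q _ => by
      have h := mj_wd (p u) ψ δ K (lm q) 0 hδ hK16 hpψ
      exact_mod_cast h)
    (fun q _ => by
      have h := mj_wd (p u) ψ δ K (lm q) 1 hδ hK16 hpψ
      exact_mod_cast h) him
  rw [hHδ] at hr
  -- the restricted sums
  have hrestr : ∀ l0 : ℕ,
      ‖∑' j : ℤ, (∑ i ∈ s, (if lm i ∈ Wd ψ δ (K * δ) l0 then c i else 0) *
        cexp (I * w i * (δ * j))) * ((E (δ * j / (K * δ)) ^ 2 : ℝ) : ℂ)‖ ^ 2 ≤
      C2 * K * ∑' j : ℤ, ‖DS (Nn T) (Yn T) (b T) (Wd ψ δ (K * δ) l0) (u + δ * j)‖ ^ 2 *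
        E (δ * j / (K * δ)) ^ 2 := by
    intro l0
    have h := hcs (DS (Nn T) (Yn T) (b T) (Wd ψ δ (K * δ) l0)) (∑ q ∈ s, |cf (b T) q|) δ (K * δ)
      (mj_DS_cont _ _ _ _) (mj_DS_le _ _ _ _) hδ (by nlinarith) u
      (fun j => cexp (I * ((v u + p u * (δ * j) : ℝ) : ℂ)))
      (fun j => by rw [mul_comm]; exact (Complex.norm_exp_ofReal_mul_I _).le)
    rw [hHδ] at h
    refine le_trans (le_of_eq ?_) h
    congr 2
    apply tsum_congr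
    intro j
    have h3 := mj_DS (Nn T) (Yn T) (b T) (Wd ψ δ (K * δ) l0) (v u) (p u) u (δ * j)
    rw [← h3]
    congr 1
    apply Finset.sum_congr rfl
    intro q _
    rw [hc, hw]
    simp only
    congr 2
    · push_cast
      ring
  have h0 := hrestr 0
  have h1 := hrestr 1
  set a0 := ‖∑' j : ℤ, (∑ i ∈ s, (if lm i ∈ Wd ψ δ (K * δ) 0 then c i else 0) *
        cexp (I * w i * (δ * j))) * ((E (δ * j / (K * δ)) ^ 2 : ℝ) : ℂ)‖ with ha0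
  set a1 := ‖∑' j : ℤ, (∑ i ∈ s, (if lm i ∈ Wd ψ δ (K * δ) 1 then c i else 0) *
        cexp (I * w i * (δ * j))) * ((E (δ * j / (K * δ)) ^ 2 : ℝ) : ℂ)‖ with ha1
  have hr' : ‖∑' j : ℤ, (∑ i ∈ s, c i * cexp (I * w i * (δ * j))) *
        ((E (δ * j / (K * δ)) ^ 2 : ℝ) : ℂ)‖ ≤ a0 + a1 +
      C1 * (3 * Real.log T * δ + 2) * K * (T ^ (-(1/10):ℝ) + T ^ (51/100:ℝ) *
        (K * δ / T ^ (1/20:ℝ)) ^ 100) := by
    refine le_trans hr (le_of_eq ?_)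
    rw [ha0, ha1]
  -- truncation
  set M' : ℕ := ⌊T ^ (1/30:ℝ)⌋₊ with hM'
  have hτ0 : 0 < T ^ (1/30:ℝ) := by positivity
  have hM'le : (M' : ℝ) ≤ T ^ (1/30:ℝ) := Nat.floor_le hτ0.le
  have hM'lt : T ^ (1/30:ℝ) ≤ M' + 1 := (Nat.lt_floor_add_one _).le
  have hFn : ∀ j : ℤ, ‖∑ i ∈ s, c i * cexp (I * w i * (δ * j))‖ ≤ T ^ (51/100:ℝ) := by
    intro j
    refine le_trans (norm_sum_le _ _) (le_trans (le_of_eq ?_) hsum)
    apply Finset.sum_congr rfl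
    intro q _
    rw [norm_mul]
    have : ‖cexp (I * w q * (δ * j))‖ = 1 := by
      have h2 : I * w q * (δ * j) = ((w q * (δ * j) : ℝ) : ℂ) * I := by push_cast; ring
      rw [h2]; exact Complex.norm_exp_ofReal_mul_I _
    rw [this, mul_one]
  have htr := mj_trunc (fun j => ∑ i ∈ s, c i * cexp (I * w i * (δ * j)))
    (fun j => E (δ * j / (K * δ)) ^ 2) (T ^ (51/100:ℝ)) (C ^ 2 * K ^ 160) (T ^ (1/30:ℝ)) M'
    (by positivity) (by positivity) hτ0 hM'lt hFn (fun j => sq_nonneg _)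
    (fun j => mj_E E C c0 hE K δ hK hδ j)
  rw [← hS0] at htr
  -- the difference of the truncated sums
  have hdiff : ‖∑ j ∈ Finset.Icc (-(M' : ℤ)) M', (((X T (u + δ * j) : ℝ) : ℂ) -
      ∑ i ∈ s, c i * cexp (I * w i * (δ * j))) * ((E (δ * j / (K * δ)) ^ 2 : ℝ) : ℂ)‖ ≤
      (2 * T ^ (1/30:ℝ) + 1) * T ^ (-(1/10):ℝ) * C ^ 2 := by
    have hb : ∀ j ∈ Finset.Icc (-(M' : ℤ)) M', ‖(((X T (u + δ * j) : ℝ) : ℂ) -
        ∑ i ∈ s, c i * cexp (I * w i * (δ * j))) * ((E (δ * j / (K * δ)) ^ 2 : ℝ) : ℂ)‖ ≤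
        T ^ (-(1/10):ℝ) * C ^ 2 := by
      intro j hj
      rw [Finset.mem_Icc] at hj
      have hjabs : |(j : ℝ)| ≤ M' := by
        have : |j| ≤ M' := abs_le.2 hj
        exact_mod_cast this
      have hx : |δ * j| ≤ T ^ (1/20:ℝ) := by
        rw [abs_mul, abs_of_pos hδ]
        calc δ * |(j : ℝ)| ≤ T ^ (1/60:ℝ) * T ^ (1/30:ℝ) := by
              apply mul_le_mul (by linarith) (by linarith) (abs_nonneg _) (by positivity)
          _ = T ^ (1/20:ℝ) := by rw [← Real.rpow_add hT0]; norm_num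
      have h2 := hloc' (δ * j) hx
      rw [norm_mul]
      apply mul_le_mul _ _ (norm_nonneg _) (by positivity)
      · refine le_trans (le_of_eq ?_) h2
        congr 2
        apply Finset.sum_congr rfl
        intro q _
        push_cast
        rfl
      · rw [Complex.norm_real, Real.norm_of_nonneg (sq_nonneg _), ← sq_abs]
        have h3 := hE.dec (δ * j / (K * δ))
        have h4 : C / (1 + (δ * j / (K * δ)) ^ 2) ^ 40 ≤ C := by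
          apply div_le_self hC.le
          exact one_le_pow₀ (by nlinarith [sq_nonneg (δ * (j : ℝ) / (K * δ))])
        have h5 : |E (δ * j / (K * δ))| ≤ C := le_trans h3 h4
        gcongr
    refine le_trans (norm_sum_le_of_le _ hb) ?_
    rw [Finset.sum_const, nsmul_eq_mul, Int.card_Icc]
    have : (((M' : ℤ) + 1 - -(M' : ℤ)).toNat : ℝ) = 2 * M' + 1 := by
      have h3 : ((M' : ℤ) + 1 - -(M' : ℤ)).toNat = 2 * M' + 1 := by omega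
      rw [h3]; push_cast; ring
    rw [this, mul_assoc]
    apply mul_le_mul_of_nonneg_right _ (by positivity)
    linarith
  -- assemble
  set SS : ℝ := ∑ j ∈ Finset.Icc (-(M' : ℤ)) M', X T (u + δ * j) * E (δ * j / (K * δ)) ^ 2 with hSS
  have hSSc : (SS : ℂ) = ∑ j ∈ Finset.Icc (-(M' : ℤ)) M', (((X T (u + δ * j) : ℝ) : ℂ) -
      ∑ i ∈ s, c i * cexp (I * w i * (δ * j))) * ((E (δ * j / (K * δ)) ^ 2 : ℝ) : ℂ) +
      ∑ j ∈ Finset.Icc (-(M' : ℤ)) M', (∑ i ∈ s, c i * cexp (I * w i * (δ * j))) *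
        ((E (δ * j / (K * δ)) ^ 2 : ℝ) : ℂ) := by
    rw [← Finset.sum_add_distrib, hSS, Complex.ofReal_sum]
    apply Finset.sum_congr rfl
    intro j _
    rw [Complex.ofReal_mul]
    ring
  have hSSn : |SS| ≤ (2 * T ^ (1/30:ℝ) + 1) * T ^ (-(1/10):ℝ) * C ^ 2 +
      (a0 + a1 + C1 * (3 * Real.log T * δ + 2) * K * (T ^ (-(1/10):ℝ) + T ^ (51/100:ℝ) *
        (K * δ / T ^ (1/20:ℝ)) ^ 100) + T ^ (51/100:ℝ) * (C ^ 2 * K ^ 160) * S0 /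
          (T ^ (1/30:ℝ)) ^ 158) := by
    rw [← Real.norm_eq_abs, ← Complex.norm_real, hSSc]
    refine le_trans (norm_add_le _ _) ?_
    apply add_le_add hdiff
    refine le_trans htr ?_
    linarith
  have herr : C1 * (3 * Real.log T * δ + 2) * K * (T ^ (-(1/10):ℝ) + T ^ (51/100:ℝ) *
        (K * δ / T ^ (1/20:ℝ)) ^ 100) ≤ C1 * (3 * Real.log T * A + 2) * K * (T ^ (-(1/10):ℝ) +
        T ^ (51/100:ℝ) * (K * A / T ^ (1/20:ℝ)) ^ 100) := by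
    gcongr
  have hfin : |SS| ≤ a0 + a1 + 1 / 2 := by linarith
  have ha0n : 0 ≤ a0 := norm_nonneg _
  have ha1n : 0 ≤ a1 := norm_nonneg _
  have hsq : SS ^ 2 ≤ (a0 + a1 + 1 / 2) ^ 2 := by
    rw [← sq_abs]
    exact pow_le_pow_left₀ (abs_nonneg _) hfin 2
  have hq : (a0 + a1 + 1 / 2) ^ 2 ≤ 3 * a0 ^ 2 + 3 * a1 ^ 2 + 1 := by
    nlinarith [sq_nonneg (a0 - a1), sq_nonneg (a0 - 1 / 2), sq_nonneg (a1 - 1 / 2)]
  calc SS ^ 2 ≤ 3 * a0 ^ 2 + 3 * a1 ^ 2 + 1 := le_trans hsq hq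
    _ ≤ _ := by
      have e0 : 3 * C2 * K * (∑' j : ℤ, ‖DS (Nn T) (Yn T) (b T) (Wd ψ δ (K * δ) 0) (u + δ * j)‖ ^ 2 *
          E (δ * j / (K * δ)) ^ 2) = 3 * (C2 * K * ∑' j : ℤ,
          ‖DS (Nn T) (Yn T) (b T) (Wd ψ δ (K * δ) 0) (u + δ * j)‖ ^ 2 *
          E (δ * j / (K * δ)) ^ 2) := by ring
      have e1 : 3 * C2 * K * (∑' j : ℤ, ‖DS (Nn T) (Yn T) (b T) (Wd ψ δ (K * δ) 1) (u + δ * j)‖ ^ 2 *
          E (δ * j / (K * δ)) ^ 2) = 3 * (C2 * K * ∑' j : ℤ,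
          ‖DS (Nn T) (Yn T) (b T) (Wd ψ δ (K * δ) 1) (u + δ * j)‖ ^ 2 *
          E (δ * j / (K * δ)) ^ 2) := by ring
      rw [e0, e1]
      linarith

end Pool.Agent.Helper647.SG.JMJ
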