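import Mathlib

set_option autoImplicit false

namespace Pool.Agent.Helper647.SG.JSJ

open Complex Filter Topology MeasureTheory Set

/-- the windows -/
def Wd (ψ δ H : ℝ) (l0 : ℕ) : Set ℝ := {x : ℝ | ∃ l : ℕ, l0 ≤ l ∧ |ψ - x - 2 * Real.pi * l / δ| ≤ 2 / H}

theorem sm_wd {ψ δ H B : ℝ} {l0 : ℕ} (hδ : 0 < δ) (hB : ψ + 2 / H ≤ B) :
    ∀ x ∈ Wd ψ δ H l0, x ≤ B := by
  rintro x ⟨l, -, hl⟩
  have h1 := (abs_le.mp hl).1
  have h2 : 0 ≤ 2 * Real.pi * l / δ := by positivity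
  linarith

theorem sm_pow {T : ℝ} {n y : ℕ} (hn : 1 ≤ n) (hT : (2 * (n : ℝ)) ^ 3 ≤ T)
    (hy : (y : ℝ) ≤ T ^ (1 / 500 : ℝ)) :
    2 * Real.exp (55 / 100 * Real.log T) * (y : ℝ) ^ 2 ≤ T / n := by
  have hn1 : (1 : ℝ) ≤ n := by exact_mod_cast hn
  have h0 : (0 : ℝ) < 2 * (n : ℝ) := by linarith
  have hTp : 0 < T := lt_of_lt_of_le (by positivity) hT
  have hT1 : 1 ≤ T := by
    have h1 : (1 : ℝ) ≤ 2 * n := by linarith
    have h2 : (1 : ℝ) ≤ (2 * (n : ℝ)) ^ 3 := one_le_pow₀ h1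
    linarith
  have e1 : Real.exp (55 / 100 * Real.log T) = T ^ (55 / 100 : ℝ) := by
    rw [Real.rpow_def_of_pos hTp, mul_comm]
  have e2 : (y : ℝ) ^ 2 ≤ T ^ (1 / 250 : ℝ) := by
    have h1 : (y : ℝ) ^ 2 ≤ (T ^ (1 / 500 : ℝ)) ^ 2 := by
      apply pow_le_pow_left₀ (Nat.cast_nonneg y) hy
    have h2 : (T ^ (1 / 500 : ℝ)) ^ 2 = T ^ (1 / 250 : ℝ) := by
      rw [← Real.rpow_natCast, ← Real.rpow_mul hTp.le]
      norm_num
    rw [h2] at h1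
    exact h1
  have e3 : 2 * (n : ℝ) ≤ T ^ (1 / 3 : ℝ) := by
    have h1 : ((2 * (n : ℝ)) ^ 3) ^ (1 / 3 : ℝ) ≤ T ^ (1 / 3 : ℝ) :=
      Real.rpow_le_rpow (by positivity) hT (by norm_num)
    have h2 : ((2 * (n : ℝ)) ^ 3) ^ (1 / 3 : ℝ) = 2 * n := by
      rw [← Real.rpow_natCast, ← Real.rpow_mul h0.le]
      norm_num
    rw [h2] at h1
    exact h1
  rw [le_div_iff₀ (by linarith)]
  have e4 : T ^ (55 / 100 : ℝ) * T ^ (1 / 250 : ℝ) * T ^ (1 / 3 : ℝ) ≤ T := by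
    rw [← Real.rpow_add hTp, ← Real.rpow_add hTp]
    conv_rhs => rw [← Real.rpow_one T]
    exact Real.rpow_le_rpow_of_exponent_le hT1 (by norm_num)
  have h5 : 0 < T ^ (55 / 100 : ℝ) := Real.rpow_pos_of_pos hTp _
  have h6 : 0 < T ^ (1 / 250 : ℝ) := Real.rpow_pos_of_pos hTp _
  calc 2 * Real.exp (55 / 100 * Real.log T) * (y : ℝ) ^ 2 * n
      = T ^ (55 / 100 : ℝ) * (y : ℝ) ^ 2 * (2 * n) := by rw [e1]; ring
    _ ≤ T ^ (55 / 100 : ℝ) * T ^ (1 / 250 : ℝ) * (T ^ (1 / 3 : ℝ)) := by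
        apply mul_le_mul (mul_le_mul_of_nonneg_left e2 h5.le) e3 (by positivity) (by positivity)
    _ ≤ T := e4

/- TASK (helper647, project SG) -/
theorem sm (X : ℝ → ℝ → ℝ) (p : ℝ → ℝ) (D : ℝ → Set ℝ → ℝ → ℂ) (m : ℝ → Set ℝ → ℝ) (Yn : ℝ → ℕ) (E : ℝ → ℝ)
    (hX : ∀ T, Continuous (X T))
    (hpl : ∀ T t u : ℝ, 8 ≤ T → T / 4 ≤ t → T / 4 ≤ u → |p t - p u| ≤ 10 / T * |t - u|)
    (hps : ∃ T0 : ℝ, ∀ T u : ℝ, T0 ≤ T → T ≤ u → u ≤ 2 * T → p u ≤ 52 / 100 * Real.log T)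
    (hY : ∃ T0 : ℝ, 2 ≤ T0 ∧ ∀ T : ℝ, T0 ≤ T → (Yn T : ℝ) ≤ T ^ (1 / 500 : ℝ))
    (hD : ∀ (T : ℝ) (W : Set ℝ), Continuous (D T W) ∧ ∃ M : ℝ, ∀ t, ‖D T W t‖ ≤ M)
    (hls : ∃ C1 : ℝ, 0 < C1 ∧ ∀ (T T' a B : ℝ) (W : Set ℝ), 0 < T → 0 < T' → (∀ x ∈ W, x ≤ B) →
      2 * Real.exp B * (Yn T : ℝ) ^ 2 ≤ T' → ∫ t in a..(a + T'), ‖D T W t‖ ^ 2 ≤ C1 * T' * m T W)
    (hwm : ∃ C : ℝ, 0 < C ∧ ∀ (A : ℝ) (J : ℕ), 1 ≤ A → 8 ≤ J → ∃ T0 : ℝ, 8 ≤ T0 ∧ ∀ T δ ψ : ℝ, T0 ≤ T →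
      1 / Real.log T ≤ δ → δ ≤ A → ψ ≤ 52 / 100 * Real.log T → ∀ l0 : ℕ,
        m T (Wd ψ δ (16 * J * δ) l0) ≤ C * (J : ℝ) ^ (-(1 / 2) : ℝ))
    (hcs : ∃ C1 : ℝ, 0 < C1 ∧ ∀ (G : ℝ → ℂ) (M δ H : ℝ), Continuous G → (∀ t, ‖G t‖ ≤ M) → 0 < δ → δ ≤ H →
      Continuous (fun u : ℝ => ∑' j : ℤ, ‖G (u + δ * j)‖ ^ 2 * E (δ * j / H) ^ 2) ∧
      ∀ a b Kb : ℝ, a ≤ b → (∀ x : ℝ, ∫ t in (a + x)..(b + x), ‖G t‖ ^ 2 ≤ Kb) →
        ∫ u in a..b, ∑' j : ℤ, ‖G (u + δ * j)‖ ^ 2 * E (δ * j / H) ^ 2 ≤ C1 * (H / δ) * Kb)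
    (hmaj : ∃ C1 : ℝ, 0 < C1 ∧ ∀ A K : ℝ, 1 ≤ A → 1 ≤ K →
      ∃ T0 : ℝ, 8 ≤ T0 ∧ ∀ (T u ψ δ : ℝ), T0 ≤ T → T ≤ u → u ≤ 2 * T → 1 / Real.log T ≤ δ → δ ≤ A → 16 ≤ K →
        |p u - ψ| ≤ 1 / (K * δ) →
        (∑ j ∈ Finset.Icc (-(⌊T ^ (1 / 30 : ℝ)⌋₊ : ℤ)) ⌊T ^ (1 / 30 : ℝ)⌋₊, X T (u + δ * j) * E (δ * j / (K * δ)) ^ 2) ^ 2 ≤
          C1 * K * (∑' j : ℤ, ‖D T (Wd ψ δ (K * δ) 0) (u + δ * j)‖ ^ 2 * E (δ * j / (K * δ)) ^ 2) +
          C1 * K * (∑' j : ℤ, ‖D T (Wd ψ δ (K * δ) 1) (u + δ * j)‖ ^ 2 * E (δ * j / (K * δ)) ^ 2) + 1) :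
    ∃ C1 : ℝ, 0 < C1 ∧ ∀ (A : ℝ) (J : ℕ), 1 ≤ A → 8 ≤ J →
      ∃ T0 : ℝ, 8 ≤ T0 ∧ ∀ T δ : ℝ, T0 ≤ T → 1 / Real.log T ≤ δ → δ ≤ A →
        ∫ u in T..(2 * T), (∑ j ∈ Finset.Icc (-(⌊T ^ (1 / 30 : ℝ)⌋₊ : ℤ)) ⌊T ^ (1 / 30 : ℝ)⌋₊,
          X T (u + δ * j) * E (δ * j / (16 * J * δ)) ^ 2) ^ 2 ≤ C1 * (J : ℝ) ^ (3 / 2 : ℝ) * T := by
  obtain ⟨Tp, hps⟩ := hps
  obtain ⟨Ty, -, hY⟩ := hY
  obtain ⟨Cl, hCl, hls⟩ := hls
  obtain ⟨Cw, hCw, hwm⟩ := hwm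
  obtain ⟨Cc, hCc, hcs⟩ := hcs
  obtain ⟨Cm, hCm, hmaj⟩ := hmaj
  refine ⟨512 * Cm * Cc * Cl * Cw + 1, by positivity, ?_⟩
  intro A J hA hJ
  have hJ8 : (8 : ℝ) ≤ J := by exact_mod_cast hJ
  obtain ⟨Tw, hTw8, hwm⟩ := hwm A J hA hJ
  obtain ⟨Tm, hTm8, hmaj⟩ := hmaj A (16 * (J : ℝ)) hA (by linarith)
  -- number of pieces
  obtain ⟨n, hn⟩ := exists_nat_ge (160 * (J : ℝ) * A)
  have hJA : (1 : ℝ) ≤ 160 * (J : ℝ) * A := by nlinarith
  have hn1 : (1 : ℝ) ≤ n := le_trans hJA hn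
  have hn1' : 1 ≤ n := by exact_mod_cast hn1
  refine ⟨max (max Tp Ty) (max (max Tw Tm) ((2 * (n : ℝ)) ^ 3)), ?_, ?_⟩
  · exact le_trans (le_trans hTw8 (le_max_left _ _))
      (le_trans (le_max_left _ _) (le_max_right _ _))
  intro T δ hT hδ1 hδA
  have hTp : Tp ≤ T := le_trans (le_trans (le_max_left _ _) (le_max_left _ _)) hT
  have hTy : Ty ≤ T := le_trans (le_trans (le_max_right _ _) (le_max_left _ _)) hT
  have hTw : Tw ≤ T := le_trans (le_trans (le_trans (le_max_left _ _) (le_max_left _ _))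
    (le_max_right _ _)) hT
  have hTm : Tm ≤ T := le_trans (le_trans (le_trans (le_max_right _ _) (le_max_left _ _))
    (le_max_right _ _)) hT
  have hTn : (2 * (n : ℝ)) ^ 3 ≤ T := le_trans (le_trans (le_max_right _ _)
    (le_max_right _ _)) hT
  have hT8 : 8 ≤ T := le_trans hTw8 hTw
  have hT0 : 0 < T := by linarith
  have hlog : 0 < Real.log T := Real.log_pos (by linarith)
  have hδ : 0 < δ := lt_of_lt_of_le (by positivity) hδ1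
  set K : ℝ := 16 * (J : ℝ) with hK
  have hK16 : 16 ≤ K := by rw [hK]; linarith
  have hK128 : 128 ≤ K := by rw [hK]; linarith
  set T' : ℝ := T / n with hT'
  have hn0 : (0 : ℝ) < n := by linarith
  have hT'0 : 0 < T' := by rw [hT']; positivity
  set a : ℕ → ℝ := fun i => T + i * T' with ha
  set F : ℝ → ℝ := fun u => (∑ j ∈ Finset.Icc (-(⌊T ^ (1 / 30 : ℝ)⌋₊ : ℤ)) ⌊T ^ (1 / 30 : ℝ)⌋₊,
          X T (u + δ * j) * E (δ * j / (K * δ)) ^ 2) ^ 2 with hF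
  have hFc : Continuous F := by
    rw [hF]
    apply Continuous.pow
    apply continuous_finsetSum
    intro j _
    exact ((hX T).comp (continuous_id.add continuous_const)).mul continuous_const
  have hlogδ : 1 / δ ≤ Real.log T := by
    rw [div_le_iff₀ hδ]
    rw [div_le_iff₀ hlog] at hδ1
    linarith
  have hstep : ∀ i : ℕ, a (i + 1) = a i + T' := by
    intro i
    simp only [ha]
    push_cast
    ring
  have hTT : (n : ℝ) * T' = T := by rw [hT']; field_simp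
  -- one piece
  have hpiece : ∀ i < n, ∫ u in (a i)..(a (i + 1)), F u ≤
      (512 * Cm * Cc * Cl * Cw + 1) * (J : ℝ) ^ (3 / 2 : ℝ) * T' := by
    intro i hi
    have hi1 : (i : ℝ) + 1 ≤ n := by exact_mod_cast hi
    have ha1 : T ≤ a i := by
      simp only [ha]
      have : 0 ≤ (i : ℝ) * T' := by positivity
      linarith
    have ha2 : a (i + 1) ≤ 2 * T := by
      rw [hstep i]
      simp only [ha]
      have : ((i : ℝ) + 1) * T' ≤ n * T' := mul_le_mul_of_nonneg_right hi1 hT'0.le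
      rw [hTT] at this
      linarith
    have ha3 : a i ≤ a (i + 1) := by rw [hstep i]; linarith
    set ψ : ℝ := p (a i) with hψ
    have hψ1 : ψ ≤ 52 / 100 * Real.log T := hps T (a i) hTp ha1 (le_trans ha3 ha2)
    -- the bound of the function
    have hb : ∀ u ∈ Icc (a i) (a (i + 1)), F u ≤
        Cm * K * (∑' j : ℤ, ‖D T (Wd ψ δ (K * δ) 0) (u + δ * j)‖ ^ 2 * E (δ * j / (K * δ)) ^ 2) +
        Cm * K * (∑' j : ℤ, ‖D T (Wd ψ δ (K * δ) 1) (u + δ * j)‖ ^ 2 * E (δ * j / (K * δ)) ^ 2)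
          + 1 := by
      intro u hu
      apply hmaj T u ψ δ hTm (le_trans ha1 hu.1) (le_trans hu.2 ha2) hδ1 hδA hK16
      have h1 := hpl T u (a i) hT8 (by linarith [hu.1]) (by linarith)
      have h2 : |u - a i| ≤ T' := by
        rw [abs_of_nonneg (by linarith [hu.1])]
        have := hu.2
        rw [hstep i] at this
        linarith
      have h3 : 10 / T * |u - a i| ≤ 10 / T * T' := mul_le_mul_of_nonneg_left h2 (by positivity)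
      have h4 : 10 / T * T' = 10 / n := by
        rw [hT']
        field_simp
      have h5 : (10 : ℝ) / n ≤ 1 / (K * δ) := by
        rw [div_le_div_iff₀ hn0 (by positivity)]
        have h6 : K * δ ≤ K * A := mul_le_mul_of_nonneg_left hδA (by linarith)
        have h7 : 10 * (K * A) ≤ n := by
          rw [hK]
          linarith
        linarith
      linarith
    -- the integrals of the two series
    have hser : ∀ l0 : ℕ, Continuous (fun u : ℝ => ∑' j : ℤ,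
          ‖D T (Wd ψ δ (K * δ) l0) (u + δ * j)‖ ^ 2 * E (δ * j / (K * δ)) ^ 2) ∧
        ∫ u in (a i)..(a (i + 1)), ∑' j : ℤ,
          ‖D T (Wd ψ δ (K * δ) l0) (u + δ * j)‖ ^ 2 * E (δ * j / (K * δ)) ^ 2 ≤
          Cc * K * (Cl * T' * (Cw * (J : ℝ) ^ (-(1 / 2) : ℝ))) := by
      intro l0
      obtain ⟨hDc, M, hM⟩ := hD T (Wd ψ δ (K * δ) l0)
      obtain ⟨h1, h2⟩ := hcs (D T (Wd ψ δ (K * δ) l0)) M δ (K * δ) hDc hM hδ (by nlinarith)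
      refine ⟨h1, ?_⟩
      have h3 := h2 (a i) (a (i + 1)) (Cl * T' * (Cw * (J : ℝ) ^ (-(1 / 2) : ℝ))) ha3 ?_
      · have h4 : K * δ / δ = K := by field_simp
        rw [h4] at h3
        exact h3
      · intro x
        have e1 : a (i + 1) + x = (a i + x) + T' := by rw [hstep i]; ring
        rw [e1]
        have h5 := hls T T' (a i + x) (55 / 100 * Real.log T) (Wd ψ δ (K * δ) l0) hT0 hT'0 ?_ ?_
        · have h6 := hwm T δ ψ hTw hδ1 hδA hψ1 l0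
          have h7 : Cl * T' * m T (Wd ψ δ (K * δ) l0) ≤
              Cl * T' * (Cw * (J : ℝ) ^ (-(1 / 2) : ℝ)) :=
            mul_le_mul_of_nonneg_left h6 (by positivity)
          exact le_trans h5 h7
        · apply sm_wd hδ
          have h8 : 2 / (K * δ) ≤ 1 / 64 * Real.log T := by
            have h9 : 2 / (K * δ) = 2 / K * (1 / δ) := by
              field_simp
            rw [h9]
            have h10 : 2 / K ≤ 1 / 64 := by
              rw [div_le_div_iff₀ (by linarith) (by norm_num)]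
              linarith
            exact mul_le_mul h10 hlogδ (by positivity) (by norm_num)
          linarith
        · exact sm_pow hn1' hTn (hY T hTy)
    obtain ⟨c0, s0⟩ := hser 0
    obtain ⟨c1, s1⟩ := hser 1
    have hmono : ∫ u in (a i)..(a (i + 1)), F u ≤ ∫ u in (a i)..(a (i + 1)),
        (Cm * K * (∑' j : ℤ, ‖D T (Wd ψ δ (K * δ) 0) (u + δ * j)‖ ^ 2 * E (δ * j / (K * δ)) ^ 2) +
        Cm * K * (∑' j : ℤ, ‖D T (Wd ψ δ (K * δ) 1) (u + δ * j)‖ ^ 2 * E (δ * j / (K * δ)) ^ 2)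
          + 1) := by
      apply intervalIntegral.integral_mono_on ha3 (hFc.intervalIntegrable _ _)
      · exact (((continuous_const.mul c0).add (continuous_const.mul c1)).add
          continuous_const).intervalIntegrable _ _
      · exact hb
    have i0 := c0.intervalIntegrable (μ := volume) (a i) (a (i + 1))
    have i1 := c1.intervalIntegrable (μ := volume) (a i) (a (i + 1))
    rw [intervalIntegral.integral_add ((i0.const_mul (Cm * K)).add (i1.const_mul (Cm * K)))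
      intervalIntegrable_const, intervalIntegral.integral_add (i0.const_mul (Cm * K))
      (i1.const_mul (Cm * K)), intervalIntegral.integral_const_mul,
      intervalIntegral.integral_const_mul, intervalIntegral.integral_const, hstep i] at hmono
    rw [hstep i] at s0 s1 ⊢
    have hCK : 0 ≤ Cm * K := by positivity
    have t0 := mul_le_mul_of_nonneg_left s0 hCK
    have t1 := mul_le_mul_of_nonneg_left s1 hCK
    have hJp : (0 : ℝ) < J := by linarith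
    have ej : K * K * (J : ℝ) ^ (-(1 / 2) : ℝ) = 256 * (J : ℝ) ^ (3 / 2 : ℝ) := by
      have e1 : (J : ℝ) ^ (3 / 2 : ℝ) = (J : ℝ) ^ (2 : ℝ) * (J : ℝ) ^ (-(1 / 2) : ℝ) := by
        rw [← Real.rpow_add hJp]
        norm_num
      rw [e1, Real.rpow_two, hK]
      ring
    have hJ1 : (1 : ℝ) ≤ (J : ℝ) ^ (3 / 2 : ℝ) :=
      Real.one_le_rpow (by linarith) (by norm_num)
    have hfin : Cm * K * (Cc * K * (Cl * T' * (Cw * (J : ℝ) ^ (-(1 / 2) : ℝ)))) =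
        256 * Cm * Cc * Cl * Cw * (J : ℝ) ^ (3 / 2 : ℝ) * T' := by
      have : Cm * K * (Cc * K * (Cl * T' * (Cw * (J : ℝ) ^ (-(1 / 2) : ℝ)))) =
        Cm * Cc * Cl * Cw * T' * (K * K * (J : ℝ) ^ (-(1 / 2) : ℝ)) := by ring
      rw [this, ej]
      ring
    rw [hfin] at t0 t1
    have h11 : (a i + T' - a i) • (1 : ℝ) = T' := by
      rw [smul_eq_mul]; ring
    rw [h11] at hmono
    have h12 : T' ≤ (J : ℝ) ^ (3 / 2 : ℝ) * T' := by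
      nlinarith
    have h13 : (512 * Cm * Cc * Cl * Cw + 1) * (J : ℝ) ^ (3 / 2 : ℝ) * T' =
        256 * Cm * Cc * Cl * Cw * (J : ℝ) ^ (3 / 2 : ℝ) * T' +
        256 * Cm * Cc * Cl * Cw * (J : ℝ) ^ (3 / 2 : ℝ) * T' + (J : ℝ) ^ (3 / 2 : ℝ) * T' := by
      ring
    rw [h13]
    linarith
  -- sum of the pieces
  have hsum := intervalIntegral.sum_integral_adjacent_intervals (f := F) (μ := volume) (a := a)
    (n := n) (fun k _ => hFc.intervalIntegrable _ _)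
  have h0 : a 0 = T := by simp [ha]
  have hn' : a n = 2 * T := by
    simp only [ha]
    rw [hTT]
    ring
  rw [h0, hn'] at hsum
  show ∫ u in T..(2 * T), F u ≤ _
  rw [← hsum]
  calc ∑ k ∈ Finset.range n, ∫ u in (a k)..(a (k + 1)), F u
      ≤ ∑ k ∈ Finset.range n, (512 * Cm * Cc * Cl * Cw + 1) * (J : ℝ) ^ (3 / 2 : ℝ) * T' :=
        Finset.sum_le_sum (fun k hk => hpiece k (Finset.mem_range.mp hk))
    _ = (512 * Cm * Cc * Cl * Cw + 1) * (J : ℝ) ^ (3 / 2 : ℝ) * T := by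
        rw [Finset.sum_const, Finset.card_range, nsmul_eq_mul]
        have : (n : ℝ) * ((512 * Cm * Cc * Cl * Cw + 1) * (J : ℝ) ^ (3 / 2 : ℝ) * T') =
          (512 * Cm * Cc * Cl * Cw + 1) * (J : ℝ) ^ (3 / 2 : ℝ) * (n * T') := by ring
        rw [this, hTT]

end Pool.Agent.Helper647.SG.JSJ
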