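import Pool.Agent.Helper647_SG.Fm
import Pool.Agent.Helper647_SG.JMJ
import Pool.Agent.Helper647_SG.JSJ

set_option autoImplicit false

/-! The majorant and the second moment of the sum over a progression. -/

namespace Pool.Agent.Helper647.SG

open Complex Filter Topology MeasureTheory Set
open Pool.Agent.Helper647.PT (al bR Bz Pz Yn Nn F1 F2 KE cr bR_supp exp_le_Yn Yn_le Yn_pos Nn_ge Nn_le bR_abs bR_one zp
  sizes mom_r mom_r_nonneg mom_r_sum psi_size psi_lip)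
open Pool.Agent.R304.GR (vt psi exp_vt)

lemma keM {E : ℝ → ℝ} {C c0 : ℝ} (h : KE E C c0) : JMJ.KE E C c0 :=
  ⟨h.hC, h.hc0, h.cont, h.lip, h.dec, h.low, h.ft⟩

lemma cf_abs {β : ℕ → ℝ} (hβ : ∀ n, |β n| ≤ 1) (p : ℕ × ℕ × ℕ) :
    |cf β p| ≤ mom_r p.1 * (mom_r p.2.1 * mom_r p.2.2) := by
  unfold cf mom_r
  rw [abs_div, abs_mul, abs_of_nonneg (Real.sqrt_nonneg _), Real.sqrt_mul (by positivity),
    Real.sqrt_mul (by positivity), ← mul_inv, ← mul_inv, div_eq_mul_inv, mul_assoc (Real.sqrt _)]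
  have h1 : |β p.2.1| * |β p.2.2| ≤ 1 := mul_le_one₀ (hβ _) (abs_nonneg _) (hβ _)
  have h2 : 0 ≤ (Real.sqrt p.1 * (Real.sqrt p.2.1 * Real.sqrt p.2.2))⁻¹ := by positivity
  nlinarith

lemma cf_sum {β : ℕ → ℝ} (hβ : ∀ n, |β n| ≤ 1) (N Y : ℕ) :
    ∑ p ∈ tri N Y, |cf β p| ≤ 2 * Real.sqrt N * (2 * Real.sqrt Y * (2 * Real.sqrt Y)) := by
  calc ∑ p ∈ tri N Y, |cf β p| ≤ ∑ p ∈ tri N Y, mom_r p.1 * (mom_r p.2.1 * mom_r p.2.2) :=
        Finset.sum_le_sum fun p _ => cf_abs hβ p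
    _ = (∑ n ∈ Finset.Icc 1 N, mom_r n) * ((∑ n ∈ Finset.Icc 1 Y, mom_r n) * (∑ n ∈ Finset.Icc 1 Y, mom_r n)) := by
        unfold tri
        rw [Finset.sum_product, Finset.sum_mul]
        refine Finset.sum_congr rfl fun n _ => ?_
        rw [Finset.sum_product, Finset.sum_mul, Finset.mul_sum]
        refine Finset.sum_congr rfl fun m _ => ?_
        simp only
        rw [Finset.mul_sum, Finset.mul_sum]
    _ ≤ _ := by
        have h1 := mom_r_sum N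
        have h2 := mom_r_sum Y
        have h3 : 0 ≤ ∑ n ∈ Finset.Icc 1 Y, mom_r n := Finset.sum_nonneg fun n _ => mom_r_nonneg n
        exact mul_le_mul h1 (mul_le_mul h2 h2 h3 (by positivity)) (mul_nonneg h3 h3) (by positivity)

lemma szs : ∃ T0 : ℝ, 8 ≤ T0 ∧ ∀ T : ℝ, T0 ≤ T → 1 ≤ Real.log T ∧
      (∀ q ∈ tri (Nn T) (Yn T), |lm q| ≤ 2 * Real.log T) ∧
      ∑ q ∈ tri (Nn T) (Yn T), |cf (bR (Real.log T)) q| ≤ T ^ (51 / 100 : ℝ) ∧
      ∀ u : ℝ, T ≤ u → u ≤ 2 * T → |psi u| ≤ Real.log T := by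
  obtain ⟨T1, hT1, hY⟩ := Yn_le
  obtain ⟨C2, T2, hC2, hT2, hps⟩ := psi_size
  have hev : ∀ᶠ T : ℝ in atTop, 32 ≤ T ^ (8 / 1000 : ℝ) ∧ 4 * Real.log 16 ≤ Real.log T ∧ 1 ≤ Real.log T := by
    have a1 : ∀ᶠ T : ℝ in atTop, (32 : ℝ) ≤ T ^ (8 / 1000 : ℝ) :=
      (tendsto_rpow_atTop (by norm_num)).eventually_ge_atTop _
    have a2 : ∀ᶠ T : ℝ in atTop, 4 * Real.log 16 ≤ Real.log T :=
      Real.tendsto_log_atTop.eventually_ge_atTop _
    have a4 : ∀ᶠ T : ℝ in atTop, (1 : ℝ) ≤ Real.log T :=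
      Real.tendsto_log_atTop.eventually_ge_atTop _
    filter_upwards [a1, a2, a4] with T b1 b2 b4
    exact ⟨b1, b2, b4⟩
  obtain ⟨T3, hT3⟩ := hev.exists_forall_of_atTop
  refine ⟨max (max T1 T2) (max T3 8), (le_max_right _ _).trans (le_max_right _ _), fun T hT => ?_⟩
  have hTT1 : T1 ≤ T := ((le_max_left _ _).trans (le_max_left _ _)).trans hT
  have hTT2 : T2 ≤ T := ((le_max_right _ _).trans (le_max_left _ _)).trans hT
  have hTT3 : T3 ≤ T := ((le_max_left _ _).trans (le_max_right _ _)).trans hT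
  have hT8 : 8 ≤ T := ((le_max_right _ _).trans (le_max_right _ _)).trans hT
  have hT0 : 0 < T := by linarith
  obtain ⟨g1, g2, g3⟩ := hT3 T hTT3
  have hYT := hY T hTT1
  have hY1 : 1 ≤ Yn T := Yn_pos hT0
  have hY1' : (1 : ℝ) ≤ Yn T := by exact_mod_cast hY1
  have hN16 := Nn_le (T := T) (by linarith)
  have hN8 := Nn_ge T
  have hN1 : (1 : ℝ) ≤ Nn T := by linarith
  have l1 : Real.log (Nn T) ≤ Real.log 16 + Real.log T := by
    rw [← Real.log_mul (by norm_num) hT0.ne']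
    exact Real.log_le_log (by linarith) hN16
  have l2 : Real.log (Yn T) ≤ 1 / 500 * Real.log T := by
    have := Real.log_le_log (by linarith) hYT
    rwa [Real.log_rpow hT0] at this
  refine ⟨g3, ?_, ?_, ?_⟩
  · intro q hq
    unfold tri at hq
    simp only [Finset.mem_product, Finset.mem_Icc] at hq
    obtain ⟨⟨a1, a2⟩, ⟨a3, a4⟩, a5, a6⟩ := hq
    have c1 : (1 : ℝ) ≤ q.1 := by exact_mod_cast a1
    have c2 : (1 : ℝ) ≤ q.2.1 := by exact_mod_cast a3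
    have c3 : (1 : ℝ) ≤ q.2.2 := by exact_mod_cast a5
    have d1 : (q.1 : ℝ) ≤ Nn T := by exact_mod_cast a2
    have d2 : (q.2.1 : ℝ) ≤ Yn T := by exact_mod_cast a4
    have d3 : (q.2.2 : ℝ) ≤ Yn T := by exact_mod_cast a6
    have e1 : lm q = Real.log q.1 + Real.log q.2.1 - Real.log q.2.2 := by
      unfold lm
      rw [Real.log_div (by positivity) (by positivity), Real.log_mul (by positivity) (by positivity)]
    have f1 := Real.log_nonneg c1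
    have f2 := Real.log_nonneg c2
    have f3 := Real.log_nonneg c3
    have k1 : Real.log q.1 ≤ Real.log (Nn T) := Real.log_le_log (by linarith) d1
    have k2 : Real.log q.2.1 ≤ Real.log (Yn T) := Real.log_le_log (by linarith) d2
    have k3 : Real.log q.2.2 ≤ Real.log (Yn T) := Real.log_le_log (by linarith) d3
    rw [e1, abs_le]
    constructor <;> linarith
  · refine (cf_sum (fun n => bR_abs _ n) _ _).trans ?_
    have s1 : Real.sqrt (Nn T) ≤ 4 * T ^ (1 / 2 : ℝ) := by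
      rw [← Real.sqrt_eq_rpow]
      calc Real.sqrt (Nn T) ≤ Real.sqrt (16 * T) := Real.sqrt_le_sqrt hN16
        _ = 4 * Real.sqrt T := by
            rw [Real.sqrt_mul (by norm_num), show (16 : ℝ) = 4 ^ 2 by norm_num, Real.sqrt_sq (by norm_num)]
    have s2 : Real.sqrt (Yn T) * Real.sqrt (Yn T) ≤ T ^ (1 / 500 : ℝ) := by
      rw [Real.mul_self_sqrt (by linarith)]; exact hYT
    have hr0 : 0 < T ^ (1 / 2 : ℝ) := Real.rpow_pos_of_pos hT0 _
    have hr1 : 0 < T ^ (1 / 500 : ℝ) := Real.rpow_pos_of_pos hT0 _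
    have e : T ^ (51 / 100 : ℝ) = T ^ (1 / 2 : ℝ) * T ^ (1 / 500 : ℝ) * T ^ (8 / 1000 : ℝ) := by
      rw [← Real.rpow_add hT0, ← Real.rpow_add hT0]; norm_num
    rw [e]
    calc 2 * Real.sqrt (Nn T) * (2 * Real.sqrt (Yn T) * (2 * Real.sqrt (Yn T)))
        = 8 * Real.sqrt (Nn T) * (Real.sqrt (Yn T) * Real.sqrt (Yn T)) := by ring
      _ ≤ 8 * (4 * T ^ (1 / 2 : ℝ)) * (T ^ (1 / 500 : ℝ)) := by
          refine mul_le_mul (by linarith) s2 (by positivity) (by positivity)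
      _ = T ^ (1 / 2 : ℝ) * T ^ (1 / 500 : ℝ) * 32 := by ring
      _ ≤ _ := mul_le_mul_of_nonneg_left g1 (by positivity)
  · intro u h1 h2
    obtain ⟨k1, k2, k3, k4⟩ := hps T u hTT2 (by linarith) (by linarith)
    rw [abs_of_nonneg (by linarith)]
    exact k3

lemma loc' : ∃ T0 : ℝ, 8 ≤ T0 ∧ ∀ T u x : ℝ, T0 ≤ T → T ≤ u → u ≤ 2 * T → |x| ≤ T ^ (1 / 20 : ℝ) →
      ‖((XS T (u + x) : ℝ) : ℂ) - cexp (I * ((vt u + psi u * x : ℝ) : ℂ)) *
        ∑ q ∈ tri (Nn T) (Yn T), ((cf (bR (Real.log T)) q : ℝ) : ℂ) * cexp (-(I * lm q * ((u + x : ℝ) : ℂ)))‖ ≤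
        T ^ (-(1 / 10) : ℝ) := by
  obtain ⟨T0, hT0, h⟩ := loc
  refine ⟨T0, hT0, fun T u x h1 h2 h3 h4 => ?_⟩
  have h5 := h T u x h1 h2 h3 h4
  have e : F1 T (u + x) = ∑ q ∈ tri (Nn T) (Yn T), ((cf (bR (Real.log T)) q : ℝ) : ℂ) *
      cexp (-(I * lm q * ((u + x : ℝ) : ℂ))) :=
    Pool.Agent.Helper647.PT.onlyW_expand (Nn T) (Yn T) (bR (Real.log T)) (u + x)
  rw [← e]
  exact h5

theorem mj : S_maj := by
  intro E C c0 hE
  obtain ⟨C2, hC2, hcs⟩ := cs E C c0 hE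
  exact JMJ.maj XS vt psi (fun T => bR (Real.log T)) Yn Nn loc' szs E C c0 (keM hE) (rl E C c0 hE)
    ⟨C2, hC2, fun G M δ H h1 h2 h3 h4 => (hcs G M δ H h1 h2 h3 h4).2.1⟩

lemma DS_facts (N Y : ℕ) (β : ℕ → ℝ) (W : Set ℝ) :
    Continuous (DS N Y β W) ∧ ∃ M : ℝ, ∀ t, ‖DS N Y β W t‖ ≤ M := by
  classical
  constructor
  · unfold DS
    refine continuous_finsetSum _ fun p _ => ?_
    fun_prop
  · refine ⟨∑ p ∈ tri N Y, |if lm p ∈ W then cf β p else 0|, fun t => ?_⟩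
    unfold DS
    refine (norm_sum_le _ _).trans (Finset.sum_le_sum fun p _ => ?_)
    rw [norm_mul]
    have e : cexp (-(I * lm p * t)) = cexp (I * ((-(lm p * t) : ℝ) : ℂ)) := by
      congr 1; push_cast; ring
    rw [e, Pool.Agent.Helper647.PT.norm_cexp_I, mul_one, Complex.norm_real, Real.norm_eq_abs]

theorem sj : S_sm := by
  intro E C c0 hE
  obtain ⟨C2, hC2, hcs⟩ := cs E C c0 hE
  obtain ⟨C3, hC3, hls⟩ := ls E C c0 hE
  refine JSJ.sm XS psi (fun T W => DS (Nn T) (Yn T) (bR (Real.log T)) W)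
    (fun T W => mass (Nn T) (Yn T) (bR (Real.log T)) W) Yn E cont
    (fun T t u h1 h2 h3 => psi_lip h1 h2 h3) ?_ Yn_le (fun T W => DS_facts _ _ _ W) ?_ wm
    ⟨C2, hC2, fun G M δ H h1 h2 h3 h4 => ⟨(hcs G M δ H h1 h2 h3 h4).1, (hcs G M δ H h1 h2 h3 h4).2.2⟩⟩ (mj E C c0 hE)
  · obtain ⟨C4, T4, hC4, hT4, hps⟩ := psi_size
    obtain ⟨T5, hT5⟩ := (Real.tendsto_log_atTop.eventually_ge_atTop (50 * C4)).exists_forall_of_atTop
    refine ⟨max T4 T5, fun T u hT h1 h2 => ?_⟩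
    have hTT4 : T4 ≤ T := (le_max_left _ _).trans hT
    obtain ⟨k1, k2, k3, k4⟩ := hps T u hTT4 (by linarith) (by linarith)
    have k5 := hT5 T ((le_max_right _ _).trans hT)
    have k6 := (abs_le.1 k1).2
    linarith
  · refine ⟨C3, hC3, fun T T' a B W hT hT' hW hB => ?_⟩
    exact hls T' a B (Nn T) (Yn T) (bR (Real.log T)) W hT' (Yn_pos hT) hW hB

end Pool.Agent.Helper647.SG
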