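import Pool.Agent.Helper647_PT.Chn

set_option autoImplicit false

/-!
# Signs of Hardy's function at two points: definitions and the statements of all steps

Every step is one `Prop` `S_...`; a step is proved from the earlier ones given as hypotheses.
-/

namespace Pool.Agent.Helper647.SG

open Complex Filter Topology MeasureTheory Set
open Pool.Agent.Helper647.PT (al bR Bz Pz Yn Nn F1 KE cr)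
open Pool.Agent.R304.GR (vt psi)

/-! ## A. Arithmetic -/

/-- zeta near the line `Re s = 1` -/
def S_ZB : Prop := ∀ R : ℝ, 1 ≤ R → ∃ C : ℝ, 1 ≤ C ∧ ∀ L x τ τ' : ℝ, 1 ≤ L → 1 / L ≤ x → x ≤ 3 / L → |τ| ≤ R →
    ‖(riemannZeta (1 + (x : ℂ) + I * ((τ + τ' / L : ℝ) : ℂ)))⁻¹‖ ≤ C * (1 + |τ * L + τ'|) / L * (1 + |τ'|) ^ 2 ∧
    ‖riemannZeta (1 + (x : ℂ) + I * ((τ + τ' / L : ℝ) : ℂ))‖ ≤ C * L / (1 + |τ * L + τ'|) * (1 + |τ'|)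

/-- the Dirichlet series of `al` over the integers prime to `k` -/
noncomputable def Q (z : ℂ) (k : ℕ) : ℂ :=
  ∑' m : ℕ, if m.Coprime k then ((al m : ℝ) : ℂ) * (m : ℂ) ^ (-(1 + z)) else 0

def S_Q : Prop := ∃ C : ℝ, 0 < C ∧ ∀ (z : ℂ) (k : ℕ), 0 < z.re → 1 ≤ k →
    ‖Q z k‖ ^ 2 ≤ C * (k / (Nat.totient k : ℝ)) * ‖(riemannZeta (1 + z))⁻¹‖

/-- the part at the primes dividing `k` -/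
noncomputable def V (z₁ z₂ : ℂ) (k : ℕ) : ℂ := ∑ d₁ ∈ k.divisors, ∑ d₂ ∈ k.divisors,
  if k ∣ d₁ * d₂ then (((al d₁ : ℝ) : ℂ) * (d₁ : ℂ) ^ (-(1 + z₁))) * (((al d₂ : ℝ) : ℂ) * (d₂ : ℂ) ^ (-(1 + z₂)))
  else 0

def S_Vmul : Prop := ∀ z₁ z₂ : ℂ, V z₁ z₂ 1 = 1 ∧
  (∀ m n : ℕ, m.Coprime n → V z₁ z₂ (m * n) = V z₁ z₂ m * V z₁ z₂ n) ∧
  ∀ p : ℕ, p.Prime →
    V z₁ z₂ p = -(1 / 2) * ((p : ℂ) ^ (-(1 + z₁)) + (p : ℂ) ^ (-(1 + z₂))) +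
      1 / 4 * ((p : ℂ) ^ (-(1 + z₁)) * (p : ℂ) ^ (-(1 + z₂))) ∧
    V z₁ z₂ (p ^ 2) = 1 / 4 * ((p : ℂ) ^ (-(1 + z₁)) * (p : ℂ) ^ (-(1 + z₂))) ∧
    ∀ e : ℕ, 3 ≤ e → V z₁ z₂ (p ^ e) = 0

def S_Vsum : Prop := ∃ C : ℝ, 0 < C ∧ ∀ (L : ℝ) (z₁ z₂ : ℂ) (K : ℕ), 1 ≤ L → z₁.re = 2 / L → z₂.re = 1 / L →
    ∑ k ∈ Finset.Icc 1 K, (k : ℝ) ^ (1 + 1 / L) * (k / (Nat.totient k : ℝ)) ^ 3 * ‖V z₁ z₂ k‖ ^ 2 ≤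
      C * (‖riemannZeta (1 + ((3 / L : ℝ) : ℂ))‖ ^ (1 / 4 : ℝ) * ‖riemannZeta (1 + ((1 / L : ℝ) : ℂ))‖ ^ (1 / 4 : ℝ) *
        ‖riemannZeta (1 + ((2 / L : ℝ) : ℂ) + I * ((z₁.im - z₂.im : ℝ) : ℂ))‖ ^ (1 / 2 : ℝ))

/-- the complex Jordan function -/
noncomputable def Jc (w : ℂ) (n : ℕ) : ℂ :=
  ∑ d ∈ n.divisors, ((ArithmeticFunction.moebius (n / d) : ℤ) : ℂ) * (d : ℂ) ^ w

def S_Jc : Prop := ∀ (w : ℂ) (n : ℕ), 1 ≤ n → ∑ k ∈ n.divisors, Jc w k = (n : ℂ) ^ w ∧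
  (1 ≤ w.re → ‖Jc w n‖ ≤ (n : ℝ) ^ w.re * (n / (Nat.totient n : ℝ)))

/-- `∑_{k ∣ ab} β_a β_b a^{-1-s} b^{-1}` -/
noncomputable def Rg (s : ℂ) (β : ℕ → ℝ) (Y k : ℕ) : ℂ := ∑ a ∈ Finset.Icc 1 Y, ∑ b ∈ Finset.Icc 1 Y,
  if k ∣ a * b then (((β a : ℝ) : ℂ) * (a : ℂ) ^ (-(1 + s))) * (((β b : ℝ) : ℂ) * (b : ℂ)⁻¹) else 0

/-- integral representation of `Rg` for Selberg's coefficients -/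
def S_Rrep : Prop := ∃ (w : ℝ → ℂ) (C : ℝ), 0 < C ∧ Continuous w ∧ (∀ τ, ‖w τ‖ ≤ C * (1 + |τ|) ^ (-10 : ℝ)) ∧
  ∀ (L : ℝ) (s : ℂ) (Y k : ℕ), 1 ≤ L → 0 ≤ s.re → Real.exp (1 / 1000 * L) ≤ Y → 1 ≤ k →
    Rg s (bR L) Y k = ∫ τ₁ : ℝ, ∫ τ₂ : ℝ, w τ₁ * w τ₂ *
      (V (s + (1 + I * τ₁) / L) ((1 + I * τ₂) / L) k * Q (s + (1 + I * τ₁) / L) k * Q ((1 + I * τ₂) / L) k)

/-- `s = 1/L - i τ` -/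
noncomputable def sL (L τ : ℝ) : ℂ := ((1 / L : ℝ) : ℂ) - I * τ

def S_Rsum : Prop := ∀ R : ℝ, 1 ≤ R → ∃ C : ℝ, 0 < C ∧ ∀ (L τ : ℝ) (Y K : ℕ), 1 ≤ L → |τ| ≤ R →
    Real.exp (1 / 1000 * L) ≤ Y →
    ∑ k ∈ Finset.Icc 1 K, ‖Jc (1 + sL L τ) k‖ * ‖Rg (sL L τ) (bR L) Y k‖ ^ 2 ≤
      C * (1 + |τ| * L) ^ (1 / 2 : ℝ) / L

/-- the limit of the masses -/
noncomputable def GG (s : ℂ) (β : ℕ → ℝ) (Y : ℕ) : ℂ :=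
  riemannZeta (1 + s) * ∑ k ∈ Finset.Icc 1 (Y * Y), Jc (1 + s) k * Rg s β Y k ^ 2

def S_GG : Prop := ∀ R : ℝ, 1 ≤ R → ∃ C : ℝ, 0 < C ∧ ∀ (L τ : ℝ) (Y : ℕ), 1 ≤ L → |τ| ≤ R →
    Real.exp (1 / 1000 * L) ≤ Y → ‖GG (sL L τ) (bR L) Y‖ ≤ C * (1 + |τ| * L) ^ (-(1 / 2) : ℝ)

/-! ## B. Masses -/

/-- the triples `(n, μ, ν)` -/
noncomputable def tri (N Y : ℕ) : Finset (ℕ × ℕ × ℕ) := Finset.Icc 1 N ×ˢ (Finset.Icc 1 Y ×ˢ Finset.Icc 1 Y)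

/-- the frequency -/
noncomputable def lm (p : ℕ × ℕ × ℕ) : ℝ := Real.log (p.1 * p.2.1 / p.2.2)

/-- the coefficient -/
noncomputable def cf (β : ℕ → ℝ) (p : ℕ × ℕ × ℕ) : ℝ := β p.2.1 * β p.2.2 / Real.sqrt (p.1 * p.2.1 * p.2.2)

open Classical in
/-- the mass at the frequencies in `W` -/
noncomputable def mass (N Y : ℕ) (β : ℕ → ℝ) (W : Set ℝ) : ℝ :=
  ∑ p ∈ tri N Y, ∑ p' ∈ tri N Y, if lm p = lm p' then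
    (if lm p ∈ W then cf β p else 0) * (if lm p' ∈ W then cf β p' else 0) else 0

open Classical in
/-- the part of `Pz |Bz|²` with frequencies in `W` -/
noncomputable def DS (N Y : ℕ) (β : ℕ → ℝ) (W : Set ℝ) (t : ℝ) : ℂ :=
  ∑ p ∈ tri N Y, (((if lm p ∈ W then cf β p else 0 : ℝ)) : ℂ) * cexp (-(I * lm p * t))

/-- the full sum with a damping factor -/
noncomputable def Gn (s : ℂ) (β : ℕ → ℝ) (N Y : ℕ) : ℂ :=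
  ∑ p ∈ tri N Y, ∑ p' ∈ tri N Y, if lm p = lm p' then ((cf β p * cf β p' : ℝ) : ℂ) * cexp (-(s * lm p)) else 0

def S_Glim : Prop := ∀ (Y : ℕ) (β : ℕ → ℝ) (s : ℂ), 0 < s.re →
  Tendsto (fun N : ℕ => Gn s β N Y) atTop (𝓝 (GG s β Y))

def S_mass : Prop := ∀ (N Y : ℕ) (β : ℕ → ℝ) (W : Set ℝ) (B L δ ω : ℝ) (J : ℕ) (G : ℝ → ℂ), 0 < L → 1 ≤ J →
  (∀ x ∈ W, x ≤ B) → Real.exp B * Y ≤ N →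
  (∀ x ∈ W, 1 / 2 ≤ ‖(1 / (J : ℂ)) * ∑ j ∈ Finset.range J, cexp (I * ((j * δ * (x - ω) : ℝ) : ℂ))‖ ^ 2) →
  (∀ τ : ℝ, Tendsto (fun N : ℕ => Gn (sL L τ) β N Y) atTop (𝓝 (G τ))) →
  mass N Y β W ≤ 2 * Real.exp (B / L) / (J : ℝ) ^ 2 *
    ∑ i ∈ Finset.range J, ∑ j ∈ Finset.range J, ‖G (((i : ℝ) - j) * δ)‖

def S_ls : Prop := ∀ (E : ℝ → ℝ) (C c0 : ℝ), KE E C c0 → ∃ C1 : ℝ, 0 < C1 ∧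
  ∀ (T a B : ℝ) (N Y : ℕ) (β : ℕ → ℝ) (W : Set ℝ), 0 < T → 1 ≤ Y → (∀ x ∈ W, x ≤ B) →
    2 * Real.exp B * (Y : ℝ) ^ 2 ≤ T →
    ∫ t in a..(a + T), ‖DS N Y β W t‖ ^ 2 ≤ C1 * T * mass N Y β W

/-! ## C. Sums over arithmetic progressions -/

/-- the one-sided form of the sum over a progression of an almost real exponential sum -/
def S_real : Prop := ∀ (E : ℝ → ℝ) (C c0 : ℝ), KE E C c0 → ∃ C1 : ℝ, 0 < C1 ∧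
  ∀ (ι : Type) (s : Finset ι) (c : ι → ℂ) (w : ι → ℝ) (P0 P1 : ι → Prop) (R M δ H ε ρ : ℝ),
    0 < δ → δ ≤ H → 1 ≤ R → H ≤ ρ → 0 ≤ ε → (∀ i ∈ s, |w i| ≤ R) → ∑ i ∈ s, ‖c i‖ ≤ M →
    (∀ i ∈ s, (P0 i → ∀ l : ℤ, l < 0 → 1 / H ≤ |w i - 2 * Real.pi * l / δ|) ∧
      (¬ P0 i → ∀ l : ℤ, 0 ≤ l → 1 / H ≤ |w i - 2 * Real.pi * l / δ|)) →
    (∀ i ∈ s, (P1 i → ∀ l : ℤ, l < 1 → 1 / H ≤ |w i - 2 * Real.pi * l / δ|) ∧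
      (¬ P1 i → ∀ l : ℤ, 1 ≤ l → 1 / H ≤ |w i - 2 * Real.pi * l / δ|)) →
    (∀ x : ℝ, |x| ≤ ρ → |(∑ i ∈ s, c i * cexp (I * w i * x)).im| ≤ ε) →
    ‖∑' j : ℤ, (∑ i ∈ s, c i * cexp (I * w i * (δ * j))) * ((E (δ * j / H) ^ 2 : ℝ) : ℂ)‖ ≤
      ‖∑' j : ℤ, (∑ i ∈ s, (open Classical in if P0 i then c i else 0) * cexp (I * w i * (δ * j))) *
        ((E (δ * j / H) ^ 2 : ℝ) : ℂ)‖ +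
      ‖∑' j : ℤ, (∑ i ∈ s, (open Classical in if P1 i then c i else 0) * cexp (I * w i * (δ * j))) *
        ((E (δ * j / H) ^ 2 : ℝ) : ℂ)‖ +
      C1 * (R * δ + 2) * (H / δ) * (ε + M * (H / ρ) ^ 100)

/-- Cauchy-Schwarz and integration -/
def S_cs : Prop := ∀ (E : ℝ → ℝ) (C c0 : ℝ), KE E C c0 → ∃ C1 : ℝ, 0 < C1 ∧
  ∀ (G : ℝ → ℂ) (M δ H : ℝ), Continuous G → (∀ t, ‖G t‖ ≤ M) → 0 < δ → δ ≤ H →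
    Continuous (fun u : ℝ => ∑' j : ℤ, ‖G (u + δ * j)‖ ^ 2 * E (δ * j / H) ^ 2) ∧
    (∀ (u : ℝ) (c : ℤ → ℂ), (∀ j, ‖c j‖ ≤ 1) →
      ‖∑' j : ℤ, c j * G (u + δ * j) * ((E (δ * j / H) ^ 2 : ℝ) : ℂ)‖ ^ 2 ≤
        C1 * (H / δ) * ∑' j : ℤ, ‖G (u + δ * j)‖ ^ 2 * E (δ * j / H) ^ 2) ∧
    ∀ a b Kb : ℝ, a ≤ b → (∀ x : ℝ, ∫ t in (a + x)..(b + x), ‖G t‖ ^ 2 ≤ Kb) →
      ∫ u in a..b, ∑' j : ℤ, ‖G (u + δ * j)‖ ^ 2 * E (δ * j / H) ^ 2 ≤ C1 * (H / δ) * Kb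

/-! ## D. The function `X = Z |B|²` -/

/-- Hardy's function times the square of the mollifier -/
noncomputable def XS (T t : ℝ) : ℝ :=
  (Pool.Agent.R304.SG.Z t).re * ‖Bz (Yn T) (bR (Real.log T)) t‖ ^ 2

def S_cont : Prop := ∀ T : ℝ, Continuous (XS T)

/-- first moment -/
def S_FM : Prop := ∃ T0 : ℝ, 8 ≤ T0 ∧ ∀ T a : ℝ, T0 ≤ T → T / 2 ≤ a → a ≤ 5 / 2 * T →
  T / 2 ≤ ∫ t in a..(a + T), |XS T t|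

/-- second moment -/
def S_SM : Prop := ∃ C T0 : ℝ, 0 < C ∧ 8 ≤ T0 ∧ ∀ T : ℝ, T0 ≤ T →
  ∫ t in (T / 4)..(4 * T), XS T t ^ 2 ≤ C * T

/-- the local approximation -/
def S_loc : Prop := ∃ T0 : ℝ, 8 ≤ T0 ∧ ∀ T u x : ℝ, T0 ≤ T → T ≤ u → u ≤ 2 * T → |x| ≤ T ^ (1 / 20 : ℝ) →
  ‖((XS T (u + x) : ℝ) : ℂ) - cexp (I * ((vt u + psi u * x : ℝ) : ℂ)) * F1 T (u + x)‖ ≤ T ^ (-(1 / 10) : ℝ)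

/-- the sum over the progression -/
noncomputable def SS (E : ℝ → ℝ) (T δ H : ℝ) (M : ℕ) (u : ℝ) : ℝ :=
  ∑ j ∈ Finset.Icc (-(M : ℤ)) M, XS T (u + δ * j) * E (δ * j / H) ^ 2

/-- the windows -/
def Wd (ψ δ H : ℝ) (l0 : ℕ) : Set ℝ := {x : ℝ | ∃ l : ℕ, l0 ≤ l ∧ |ψ - x - 2 * Real.pi * l / δ| ≤ 2 / H}

/-- the one-sided majorant of the sum -/
def S_maj : Prop := ∀ (E : ℝ → ℝ) (C c0 : ℝ), KE E C c0 → ∃ C1 : ℝ, 0 < C1 ∧ ∀ A K : ℝ, 1 ≤ A → 1 ≤ K →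
  ∃ T0 : ℝ, 8 ≤ T0 ∧ ∀ (T u ψ δ : ℝ), T0 ≤ T → T ≤ u → u ≤ 2 * T → 1 / Real.log T ≤ δ → δ ≤ A → 16 ≤ K →
    |psi u - ψ| ≤ 1 / (K * δ) →
    SS E T δ (K * δ) ⌊T ^ (1 / 30 : ℝ)⌋₊ u ^ 2 ≤
      C1 * K * (∑' j : ℤ, ‖DS (Nn T) (Yn T) (bR (Real.log T)) (Wd ψ δ (K * δ) 0) (u + δ * j)‖ ^ 2 *
        E (δ * j / (K * δ)) ^ 2) +
      C1 * K * (∑' j : ℤ, ‖DS (Nn T) (Yn T) (bR (Real.log T)) (Wd ψ δ (K * δ) 1) (u + δ * j)‖ ^ 2 *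
        E (δ * j / (K * δ)) ^ 2) + 1

/-- the mass of the windows -/
def S_wm : Prop := ∃ C : ℝ, 0 < C ∧ ∀ (A : ℝ) (J : ℕ), 1 ≤ A → 8 ≤ J → ∃ T0 : ℝ, 8 ≤ T0 ∧ ∀ T δ ψ : ℝ, T0 ≤ T →
  1 / Real.log T ≤ δ → δ ≤ A → ψ ≤ 52 / 100 * Real.log T → ∀ l0 : ℕ,
    mass (Nn T) (Yn T) (bR (Real.log T)) (Wd ψ δ (16 * J * δ) l0) ≤ C * (J : ℝ) ^ (-(1 / 2) : ℝ)

/-- the second moment of the sum -/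
def S_sm : Prop := ∀ (E : ℝ → ℝ) (C c0 : ℝ), KE E C c0 → ∃ C1 : ℝ, 0 < C1 ∧ ∀ (A : ℝ) (J : ℕ), 1 ≤ A → 8 ≤ J →
  ∃ T0 : ℝ, 8 ≤ T0 ∧ ∀ T δ : ℝ, T0 ≤ T → 1 / Real.log T ≤ δ → δ ≤ A →
    ∫ u in T..(2 * T), SS E T δ (16 * J * δ) ⌊T ^ (1 / 30 : ℝ)⌋₊ u ^ 2 ≤ C1 * (J : ℝ) ^ (3 / 2 : ℝ) * T

/-! ## E. Bad sets and conclusion -/

/-- the points with an odd number of critical zeros in `[t, t + h)` -/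
def OS (h : ℝ) : Set ℝ := {t : ℝ | Odd (cr t (t + h))}

def S_fin : Prop := ∀ (φ : ℝ → ℝ) (C c1 C2 C3 : ℝ), Continuous φ → (∀ v, 0 ≤ φ v) →
  (∀ v, φ v ≤ C / (1 + v ^ 2) ^ 2) → 0 < c1 → 0 < C2 → 0 < C3 →
  ∃ (J : ℕ) (η D : ℝ), 8 ≤ J ∧ 0 < η ∧ 0 < D ∧ ∀ (T δ : ℝ) (M : ℕ) (X : ℝ → ℝ) (O : Set ℝ), 1 ≤ T → 0 < δ →
    D * δ ≤ T → Continuous X →
    c1 * J * T ≤ ∫ u in T..(2 * T), ∑ j ∈ Finset.Icc (-(M : ℤ)) M, |X (u + δ * j)| * φ (δ * j / (16 * J * δ)) →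
    ∫ u in T..(2 * T), (∑ j ∈ Finset.Icc (-(M : ℤ)) M, X (u + δ * j) * φ (δ * j / (16 * J * δ))) ^ 2 ≤
      C2 * (J : ℝ) ^ (3 / 2 : ℝ) * T →
    (∀ j ∈ Finset.Icc (-(M : ℤ)) M, ∫ u in T..(2 * T), X (u + δ * j) ^ 2 ≤ C3 * T) →
    (∀ (u : ℝ) (i k : ℤ), i ≤ k → (∀ j : ℤ, i ≤ j → j < k → u + δ * j ∉ O) →
      0 ≤ X (u + δ * i) * X (u + δ * k)) →
    ENNReal.ofReal (η * T) ≤ volume (O ∩ Icc T (2 * T))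

def S_chain : Prop := ∀ (T u δ : ℝ) (i k : ℤ), 0 < δ → i ≤ k → (∀ j : ℤ, i ≤ j → j < k → u + δ * j ∉ OS δ) →
  0 ≤ XS T (u + δ * i) * XS T (u + δ * k)

/-- the theorem for `1 / log T ≤ δ ≤ A` -/
def S_base : Prop := ∃ η : ℝ, 0 < η ∧ ∀ A : ℝ, 1 ≤ A → ∃ T0 : ℝ, ∀ T δ : ℝ, T0 ≤ T → 1 / Real.log T ≤ δ → δ ≤ A →
  ENNReal.ofReal (η * T) ≤ volume (OS δ ∩ Icc T (2 * T))

/-- the number of critical zeros -/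
def S_cnt : Prop := ∃ C T0 : ℝ, 0 < C ∧ 2 ≤ T0 ∧ ∀ T h : ℝ, T0 ≤ T → 0 < h → h ≤ 1 →
  volume ({t : ℝ | cr t (t + h) ≠ 0} ∩ Icc T (2 * T)) ≤ ENNReal.ofReal (C * h * T * Real.log T)

/-- the theorem -/
def S_main : Prop := ∃ c : ℝ, 0 < c ∧ ∀ A : ℝ, 1 ≤ A → ∃ T0 : ℝ, ∀ T h : ℝ, T0 ≤ T → 0 < h → h ≤ A →
  ENNReal.ofReal (c * min 1 (h * Real.log T) * T) ≤ volume (OS h ∩ Icc T (2 * T)) ∧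
  ENNReal.ofReal (c * T) ≤ volume ({t : ℝ | Even (cr t (t + h))} ∩ Icc T (2 * T))

end Pool.Agent.Helper647.SG
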