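import Pool.Agent.Helper647_SG.All

set_option autoImplicit false

/-! The final form of the theorem. -/

namespace Pool.Agent.Helper647.SG

open Complex Filter Topology MeasureTheory Set
open Pool.Agent.Helper647.PT (cr cr_add fz par_cr)

lemma cr_mono : Monotone (fun t : ℝ => (cr 2 t : ℝ)) := by
  intro s t hst
  by_cases hs : 2 ≤ s
  · have := cr_add hs hst
    simp only
    rw [this]
    push_cast
    have : (0 : ℝ) ≤ cr s t := Nat.cast_nonneg _
    linarith
  · have : cr 2 s = 0 := by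
      unfold cr
      have e : {t : ℝ | 2 ≤ t ∧ t < s ∧ riemannZeta (1 / 2 + I * t) = 0} = ∅ := by
        ext t
        simp only [Set.mem_ofPred_eq, Set.mem_empty_iff_false, iff_false]
        rintro ⟨x1, x2, x3⟩
        linarith
      rw [e, finsum_mem_empty]
    simp only
    rw [this]
    push_cast
    exact Nat.cast_nonneg _

lemma meas_odd {h : ℝ} (hh : 0 ≤ h) : MeasurableSet {t : ℝ | 2 ≤ t ∧ Odd (cr t (t + h))} := by
  have hg : Measurable fun t : ℝ => (cr 2 (t + h) : ℝ) - cr 2 t :=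
    (cr_mono.measurable.comp (measurable_id.add_const h)).sub cr_mono.measurable
  have hS : MeasurableSet {x : ℝ | ∃ n : ℕ, Odd n ∧ x = n} := by
    have : {x : ℝ | ∃ n : ℕ, Odd n ∧ x = n} ⊆ Set.range (fun n : ℕ => (n : ℝ)) := by
      rintro x ⟨n, _, rfl⟩
      exact ⟨n, rfl⟩
    exact ((Set.countable_range _).mono this).measurableSet
  have e : {t : ℝ | 2 ≤ t ∧ Odd (cr t (t + h))} =
      Ici 2 ∩ (fun t : ℝ => (cr 2 (t + h) : ℝ) - cr 2 t) ⁻¹' {x : ℝ | ∃ n : ℕ, Odd n ∧ x = n} := by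
    ext t
    simp only [Set.mem_ofPred_eq, Set.mem_inter_iff, Set.mem_Ici, Set.mem_preimage]
    constructor
    · rintro ⟨h1, h2⟩
      refine ⟨h1, cr t (t + h), h2, ?_⟩
      rw [cr_add h1 (by linarith : t ≤ t + h)]
      push_cast
      ring
    · rintro ⟨h1, n, h2, h3⟩
      refine ⟨h1, ?_⟩
      rw [cr_add h1 (by linarith : t ≤ t + h)] at h3
      push_cast at h3
      have h4 : (cr t (t + h) : ℝ) = n := by linarith
      have h5 : cr t (t + h) = n := by exact_mod_cast h4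
      rw [h5]; exact h2
  rw [e]
  exact measurableSet_Ici.inter (hg hS)

lemma zero_countable : {t : ℝ | Zr t = 0}.Countable := by
  have e : {t : ℝ | Zr t = 0} ⊆ ⋃ n : ℕ, {t : ℝ | -(n : ℝ) ≤ t ∧ t < n ∧ riemannZeta (1 / 2 + I * t) = 0} := by
    intro t ht
    obtain ⟨n, hn⟩ := exists_nat_gt |t|
    have h1 := abs_lt.1 hn
    exact Set.mem_iUnion.2 ⟨n, h1.1.le, h1.2, (Zr_zero t).1 ht⟩
  exact (Set.countable_iUnion fun n => (fz _ _).countable).mono e

lemma null_set (h : ℝ) : volume {t : ℝ | Zr t = 0 ∨ Zr (t + h) = 0} = 0 := by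
  have h1 : {t : ℝ | Zr (t + h) = 0}.Countable := by
    have : {t : ℝ | Zr (t + h) = 0} = (fun t => t + h) ⁻¹' {t : ℝ | Zr t = 0} := rfl
    rw [this]
    exact zero_countable.preimage (add_left_injective h)
  have h2 : {t : ℝ | Zr t = 0 ∨ Zr (t + h) = 0} = {t : ℝ | Zr t = 0} ∪ {t : ℝ | Zr (t + h) = 0} := rfl
  rw [h2]
  exact (zero_countable.union h1).measure_zero _

lemma real_le {S : Set ℝ} {T x : ℝ} (hS : S ⊆ Icc T (2 * T)) (h : ENNReal.ofReal x ≤ volume S) :
    x ≤ volume.real S := by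
  have h1 : volume S ≠ ⊤ := by
    refine ne_top_of_le_ne_top ?_ (measure_mono hS)
    rw [Real.volume_Icc]
    exact ENNReal.ofReal_ne_top
  rw [Measure.real]
  exact (ENNReal.ofReal_le_iff_le_toReal h1).1 h

lemma fin_of {S : Set ℝ} {a b : ℝ} (hS : S ⊆ Icc a b) : volume S ≠ ⊤ := by
  refine ne_top_of_le_ne_top ?_ (measure_mono hS)
  rw [Real.volume_Icc]
  exact ENNReal.ofReal_ne_top

/-- the two orders of opposite signs occur equally often -/
lemma orders {T h : ℝ} (hT : 0 < T) (hh : 0 < h) :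
    volume.real {t : ℝ | t ∈ Icc T (2 * T) ∧ Zr t < 0 ∧ 0 < Zr (t + h)} ≤
      volume.real {t : ℝ | t ∈ Icc T (2 * T) ∧ 0 < Zr t ∧ Zr (t + h) < 0} + h ∧
    volume.real {t : ℝ | t ∈ Icc T (2 * T) ∧ 0 < Zr t ∧ Zr (t + h) < 0} ≤
      volume.real {t : ℝ | t ∈ Icc T (2 * T) ∧ Zr t < 0 ∧ 0 < Zr (t + h)} + h := by
  set P1 : Set ℝ := {t : ℝ | t ∈ Icc T (2 * T) ∧ 0 < Zr t} with hP1
  set P2 : Set ℝ := {t : ℝ | t ∈ Icc T (2 * T) ∧ 0 < Zr (t + h)} with hP2
  set PM : Set ℝ := {t : ℝ | t ∈ Icc T (2 * T) ∧ 0 < Zr t ∧ Zr (t + h) < 0} with hPM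
  set MP : Set ℝ := {t : ℝ | t ∈ Icc T (2 * T) ∧ Zr t < 0 ∧ 0 < Zr (t + h)} with hMP
  set N : Set ℝ := {t : ℝ | Zr t = 0 ∨ Zr (t + h) = 0} with hN
  have hN0 : volume.real N = 0 := by rw [Measure.real, null_set]; rfl
  have s1 : P1 ⊆ Icc T (2 * T) := fun t ht => ht.1
  have s2 : P2 ⊆ Icc T (2 * T) := fun t ht => ht.1
  have m1 : MeasurableSet P1 :=
    measurableSet_Icc.inter (measurableSet_lt measurable_const Zr_cont.measurable)
  have m2 : MeasurableSet P2 :=
    measurableSet_Icc.inter (measurableSet_lt measurable_const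
      (Zr_cont.comp (continuous_id.add continuous_const)).measurable)
  have f1 := fin_of s1
  have f2 := fin_of s2
  -- differences
  have d1 : volume.real (P1 \ P2) = volume.real P1 - volume.real (P1 ∩ P2) := by
    have := measureReal_sdiff_add_inter (μ := volume) (s := P1) m2 (h := f1)
    linarith
  have d2 : volume.real (P2 \ P1) = volume.real P2 - volume.real (P1 ∩ P2) := by
    have := measureReal_sdiff_add_inter (μ := volume) (s := P2) m1 (h := f2)
    rw [Set.inter_comm] at this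
    linarith
  -- shifted sets
  set P3 : Set ℝ := {t : ℝ | t ∈ Icc (T + h) (2 * T + h) ∧ 0 < Zr t} with hP3
  have e2 : P2 = (fun t => t + h) ⁻¹' P3 := by
    ext t
    simp only [hP2, hP3, Set.mem_ofPred_eq, Set.mem_preimage, Set.mem_Icc]
    constructor
    · rintro ⟨⟨x1, x2⟩, x3⟩; exact ⟨⟨by linarith, by linarith⟩, x3⟩
    · rintro ⟨⟨x1, x2⟩, x3⟩; exact ⟨⟨by linarith, by linarith⟩, x3⟩
  have v2 : volume.real P2 = volume.real P3 := by
    rw [e2, Measure.real, Measure.real, measure_preimage_add_right]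
  have f3 : volume P3 ≠ ⊤ := fin_of (fun t ht => ht.1 : P3 ⊆ Icc (T + h) (2 * T + h))
  have c1 : volume.real P3 ≤ volume.real P1 + h := by
    have hsub : P3 ⊆ P1 ∪ Icc (2 * T) (2 * T + h) := by
      rintro t ⟨⟨x1, x2⟩, x3⟩
      by_cases hc : t ≤ 2 * T
      · exact Or.inl ⟨⟨by linarith, hc⟩, x3⟩
      · exact Or.inr ⟨by linarith, x2⟩
    have hfin : volume (P1 ∪ Icc (2 * T) (2 * T + h)) ≠ ⊤ := by
      refine ne_top_of_le_ne_top (ENNReal.add_ne_top.2 ⟨f1, ?_⟩) (measure_union_le _ _)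
      rw [Real.volume_Icc]; exact ENNReal.ofReal_ne_top
    have h1 := measureReal_mono hsub hfin
    have h2 := measureReal_union_le (μ := volume) P1 (Icc (2 * T) (2 * T + h))
    have h3 : volume.real (Icc (2 * T) (2 * T + h)) = h := by
      rw [Real.volume_real_Icc_of_le (by linarith)]; ring
    linarith
  have c2 : volume.real P1 ≤ volume.real P3 + h := by
    have hsub : P1 ⊆ P3 ∪ Icc T (T + h) := by
      rintro t ⟨⟨x1, x2⟩, x3⟩
      by_cases hc : T + h ≤ t
      · exact Or.inl ⟨⟨hc, by linarith⟩, x3⟩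
      · exact Or.inr ⟨x1, by linarith⟩
    have hfin : volume (P3 ∪ Icc T (T + h)) ≠ ⊤ := by
      refine ne_top_of_le_ne_top (ENNReal.add_ne_top.2 ⟨f3, ?_⟩) (measure_union_le _ _)
      rw [Real.volume_Icc]; exact ENNReal.ofReal_ne_top
    have h1 := measureReal_mono hsub hfin
    have h2 := measureReal_union_le (μ := volume) P3 (Icc T (T + h))
    have h3 : volume.real (Icc T (T + h)) = h := by
      rw [Real.volume_real_Icc_of_le (by linarith)]; ring
    linarith
  -- inclusions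
  have i1 : volume.real MP ≤ volume.real (P2 \ P1) := by
    refine measureReal_mono ?_ (fin_of (fun t ht => ht.1.1 : P2 \ P1 ⊆ Icc T (2 * T)))
    rintro t ⟨x1, x2, x3⟩
    exact ⟨⟨x1, x3⟩, fun x4 => by linarith [x4.2]⟩
  have i2 : volume.real PM ≤ volume.real (P1 \ P2) := by
    refine measureReal_mono ?_ (fin_of (fun t ht => ht.1.1 : P1 \ P2 ⊆ Icc T (2 * T)))
    rintro t ⟨x1, x2, x3⟩
    exact ⟨⟨x1, x2⟩, fun x4 => by linarith [x4.2]⟩
  have fPM : volume PM ≠ ⊤ := fin_of (fun t ht => ht.1 : PM ⊆ Icc T (2 * T))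
  have fMP : volume MP ≠ ⊤ := fin_of (fun t ht => ht.1 : MP ⊆ Icc T (2 * T))
  have fN : volume N ≠ ⊤ := by rw [hN, null_set]; exact ENNReal.zero_ne_top
  have i3 : volume.real (P1 \ P2) ≤ volume.real PM := by
    have hsub : P1 \ P2 ⊆ PM ∪ N := by
      rintro t ⟨⟨x1, x2⟩, x3⟩
      by_cases hc : Zr (t + h) = 0
      · exact Or.inr (Or.inr hc)
      · refine Or.inl ⟨x1, x2, ?_⟩
        by_contra h4
        exact x3 ⟨x1, lt_of_le_of_ne (not_lt.1 h4) (Ne.symm hc)⟩
    have h1 := measureReal_mono hsub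
      (ne_top_of_le_ne_top (ENNReal.add_ne_top.2 ⟨fPM, fN⟩) (measure_union_le _ _))
    have h2 := measureReal_union_le (μ := volume) PM N
    linarith
  have i4 : volume.real (P2 \ P1) ≤ volume.real MP := by
    have hsub : P2 \ P1 ⊆ MP ∪ N := by
      rintro t ⟨⟨x1, x2⟩, x3⟩
      by_cases hc : Zr t = 0
      · exact Or.inr (Or.inl hc)
      · refine Or.inl ⟨x1, ?_, x2⟩
        by_contra h4
        exact x3 ⟨x1, lt_of_le_of_ne (not_lt.1 h4) (Ne.symm hc)⟩
    have h1 := measureReal_mono hsub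
      (ne_top_of_le_ne_top (ENNReal.add_ne_top.2 ⟨fMP, fN⟩) (measure_union_le _ _))
    have h2 := measureReal_union_le (μ := volume) MP N
    linarith
  constructor <;> linarith

/-- **the theorem, all parts** -/
theorem final : ∃ c : ℝ, 0 < c ∧ ∀ A : ℝ, 1 ≤ A → ∃ T0 : ℝ, ∀ T h : ℝ, T0 ≤ T → 0 < h → h ≤ A →
    MeasurableSet {t : ℝ | t ∈ Icc T (2 * T) ∧ Odd (ct t (t + h))} ∧
    MeasurableSet {t : ℝ | t ∈ Icc T (2 * T) ∧ Even (ct t (t + h))} ∧
    c * min 1 (h * Real.log T) * T ≤ volume.real {t : ℝ | t ∈ Icc T (2 * T) ∧ Odd (ct t (t + h))} ∧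
    c * T ≤ volume.real {t : ℝ | t ∈ Icc T (2 * T) ∧ Even (ct t (t + h))} ∧
    c * min 1 (h * Real.log T) * T ≤ volume.real {t : ℝ | t ∈ Icc T (2 * T) ∧ 0 < Zr t ∧ Zr (t + h) < 0} ∧
    c * min 1 (h * Real.log T) * T ≤ volume.real {t : ℝ | t ∈ Icc T (2 * T) ∧ Zr t < 0 ∧ 0 < Zr (t + h)} ∧
    c * T ≤ volume.real {t : ℝ | t ∈ Icc T (2 * T) ∧ 0 < Zr t * Zr (t + h)} ∧
    |∫ t in T..(2 * T), (-1 : ℝ) ^ ct t (t + h)| ≤ (1 - c * min 1 (h * Real.log T)) * T := by
  obtain ⟨c, hc, hmain⟩ := main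
  refine ⟨c / 4, by positivity, fun A hA => ?_⟩
  obtain ⟨T1, hT1⟩ := hmain A hA
  obtain ⟨T2, hT2⟩ := (Real.tendsto_log_atTop.eventually_ge_atTop (max 1 (2 / c))).exists_forall_of_atTop
  refine ⟨max (max T1 T2) (max 2 (2 * A / c)), fun T h hT hh hhA => ?_⟩
  have hTT1 : T1 ≤ T := ((le_max_left _ _).trans (le_max_left _ _)).trans hT
  have hTT2 : T2 ≤ T := ((le_max_right _ _).trans (le_max_left _ _)).trans hT
  have hTT3 : 2 ≤ T := ((le_max_left _ _).trans (le_max_right _ _)).trans hT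
  have hTT4 : 2 * A / c ≤ T := ((le_max_right _ _).trans (le_max_right _ _)).trans hT
  have hT0 : 0 < T := by linarith
  have hL := hT2 T hTT2
  have hL1 : 1 ≤ Real.log T := (le_max_left _ _).trans hL
  have hL2 : 2 / c ≤ Real.log T := (le_max_right _ _).trans hL
  obtain ⟨g1, g2⟩ := hT1 T h hTT1 hh hhA
  set μ1 := min 1 (h * Real.log T) with hμ1
  have hμ0 : 0 ≤ μ1 := le_min zero_le_one (by positivity)
  have hμle : μ1 ≤ 1 := min_le_left _ _
  -- the shift is small
  have hsh : h ≤ c / 2 * μ1 * T := by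
    rcases min_cases 1 (h * Real.log T) with ⟨h1, h2⟩ | ⟨h1, h2⟩
    · rw [hμ1, h1, mul_one]
      have : A ≤ c / 2 * T := by
        rw [div_le_iff₀ hc] at hTT4
        linarith
      linarith
    · rw [hμ1, h1]
      have h3 : 1 ≤ c / 2 * Real.log T := by
        rw [div_le_iff₀ hc] at hL2
        linarith
      have h4 : 1 ≤ c / 2 * Real.log T * T := by nlinarith
      calc h = h * 1 := by ring
        _ ≤ h * (c / 2 * Real.log T * T) := mul_le_mul_of_nonneg_left h4 hh.le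
        _ = _ := by ring
  -- the sets
  set O : Set ℝ := {t : ℝ | t ∈ Icc T (2 * T) ∧ Odd (ct t (t + h))} with hO
  set V : Set ℝ := {t : ℝ | t ∈ Icc T (2 * T) ∧ Even (ct t (t + h))} with hV
  have eO : O = OS h ∩ Icc T (2 * T) := by
    ext t
    simp only [hO, OS, Set.mem_ofPred_eq, Set.mem_inter_iff]
    constructor
    · rintro ⟨x1, x2⟩; exact ⟨(ct_odd (by linarith [x1.1]) _).1 x2, x1⟩
    · rintro ⟨x1, x2⟩; exact ⟨x2, (ct_odd (by linarith [x2.1]) _).2 x1⟩
  have eV : V = {t : ℝ | Even (cr t (t + h))} ∩ Icc T (2 * T) := by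
    ext t
    simp only [hV, Set.mem_ofPred_eq, Set.mem_inter_iff]
    constructor
    · rintro ⟨x1, x2⟩; exact ⟨(ct_even (by linarith [x1.1]) _).1 x2, x1⟩
    · rintro ⟨x1, x2⟩; exact ⟨x2, (ct_even (by linarith [x2.1]) _).2 x1⟩
  have mO : MeasurableSet O := by
    have e : O = Icc T (2 * T) ∩ {t : ℝ | 2 ≤ t ∧ Odd (cr t (t + h))} := by
      rw [eO]
      ext t
      simp only [OS, Set.mem_ofPred_eq, Set.mem_inter_iff]
      constructor
      · rintro ⟨x1, x2⟩; exact ⟨x2, by linarith [x2.1], x1⟩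
      · rintro ⟨x1, x2, x3⟩; exact ⟨x3, x1⟩
    rw [e]
    exact measurableSet_Icc.inter (meas_odd hh.le)
  have eVO : V = Icc T (2 * T) \ O := by
    ext t
    simp only [hO, hV, Set.mem_ofPred_eq, Set.mem_sdiff, not_and, Nat.not_odd_iff_even]
    constructor
    · rintro ⟨x1, x2⟩; exact ⟨x1, fun _ => x2⟩
    · rintro ⟨x1, x2⟩; exact ⟨x1, x2 x1⟩
  have mV : MeasurableSet V := by
    rw [eVO]; exact measurableSet_Icc.diff mO
  have sO : O ⊆ Icc T (2 * T) := fun t ht => ht.1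
  have sV : V ⊆ Icc T (2 * T) := fun t ht => ht.1
  have vO : c * μ1 * T ≤ volume.real O := real_le sO (by rw [eO]; exact g1)
  have vV : c * T ≤ volume.real V := real_le sV (by rw [eV]; exact g2)
  have vI : volume.real (Icc T (2 * T)) = T := by
    rw [Real.volume_real_Icc_of_le (by linarith)]; ring
  have vsum : volume.real O + volume.real V = T := by
    rw [eVO]
    have h1 := measureReal_sdiff_add_inter (μ := volume) (s := Icc T (2 * T)) mO
      (h := by rw [Real.volume_Icc]; exact ENNReal.ofReal_ne_top)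
    rw [Set.inter_eq_right.2 sO, vI] at h1
    linarith
  -- signs
  set PM : Set ℝ := {t : ℝ | t ∈ Icc T (2 * T) ∧ 0 < Zr t ∧ Zr (t + h) < 0} with hPM
  set MP : Set ℝ := {t : ℝ | t ∈ Icc T (2 * T) ∧ Zr t < 0 ∧ 0 < Zr (t + h)} with hMP
  set SS' : Set ℝ := {t : ℝ | t ∈ Icc T (2 * T) ∧ 0 < Zr t * Zr (t + h)} with hSS
  set N : Set ℝ := {t : ℝ | Zr t = 0 ∨ Zr (t + h) = 0} with hN
  have hN0 : volume.real N = 0 := by rw [Measure.real, null_set]; rfl
  have fN : volume N ≠ ⊤ := by rw [hN, null_set]; exact ENNReal.zero_ne_top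
  have fPM : volume PM ≠ ⊤ := fin_of (fun t ht => ht.1 : PM ⊆ Icc T (2 * T))
  have fMP : volume MP ≠ ⊤ := fin_of (fun t ht => ht.1 : MP ⊆ Icc T (2 * T))
  have fSS : volume SS' ≠ ⊤ := fin_of (fun t ht => ht.1 : SS' ⊆ Icc T (2 * T))
  have hOsub : volume.real O ≤ volume.real PM + volume.real MP := by
    have hsub : O ⊆ (PM ∪ MP) ∪ N := by
      rintro t ⟨x1, x2⟩
      by_cases hz1 : Zr t = 0
      · exact Or.inr (Or.inl hz1)
      by_cases hz2 : Zr (t + h) = 0
      · exact Or.inr (Or.inr hz2)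
      left
      have h3 := (Z_odd hh.le hz1 hz2).1 ((ct_odd (by linarith [x1.1]) _).1 x2)
      rcases mul_neg_iff.1 h3 with ⟨h4, h5⟩ | ⟨h4, h5⟩
      · exact Or.inl ⟨x1, h4, h5⟩
      · exact Or.inr ⟨x1, h4, h5⟩
    have hf : volume (PM ∪ MP) ≠ ⊤ :=
      ne_top_of_le_ne_top (ENNReal.add_ne_top.2 ⟨fPM, fMP⟩) (measure_union_le _ _)
    have h1 := measureReal_mono hsub
      (ne_top_of_le_ne_top (ENNReal.add_ne_top.2 ⟨hf, fN⟩) (measure_union_le _ _))
    have h2 := measureReal_union_le (μ := volume) (PM ∪ MP) N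
    have h3 := measureReal_union_le (μ := volume) PM MP
    linarith
  have hVsub : volume.real V ≤ volume.real SS' := by
    have hsub : V ⊆ SS' ∪ N := by
      rintro t ⟨x1, x2⟩
      by_cases hz1 : Zr t = 0
      · exact Or.inr (Or.inl hz1)
      by_cases hz2 : Zr (t + h) = 0
      · exact Or.inr (Or.inr hz2)
      left
      exact ⟨x1, par_cr (by linarith : t ≤ t + h) hz1 hz2 ((ct_even (by linarith [x1.1]) _).1 x2)⟩
    have h1 := measureReal_mono hsub
      (ne_top_of_le_ne_top (ENNReal.add_ne_top.2 ⟨fSS, fN⟩) (measure_union_le _ _))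
    have h2 := measureReal_union_le (μ := volume) SS' N
    linarith
  obtain ⟨o1, o2⟩ := orders hT0 hh
  have hcT : 0 ≤ c * μ1 * T := by positivity
  -- the integral
  have hint : ∫ t in T..(2 * T), (-1 : ℝ) ^ ct t (t + h) = T - 2 * volume.real O := by
    have e1 : ∫ t in T..(2 * T), (-1 : ℝ) ^ ct t (t + h) =
        ∫ t in T..(2 * T), (1 - 2 * O.indicator (fun _ => (1 : ℝ)) t) := by
      refine intervalIntegral.integral_congr fun t ht => ?_
      rw [Set.uIcc_of_le (by linarith)] at ht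
      by_cases hodd : Odd (ct t (t + h))
      · rw [Set.indicator_of_mem (show t ∈ O from ⟨ht, hodd⟩), hodd.neg_one_pow]; norm_num
      · rw [Set.indicator_of_notMem (fun h' => hodd h'.2), (Nat.not_odd_iff_even.1 hodd).neg_one_pow]; norm_num
    have iO : IntervalIntegrable (O.indicator (fun _ => (1 : ℝ))) volume T (2 * T) := by
      rw [intervalIntegrable_iff_integrableOn_Ioc_of_le (by linarith)]
      exact (integrable_const (1 : ℝ)).indicator mO
    rw [e1, intervalIntegral.integral_sub (by simp) (iO.const_mul 2), intervalIntegral.integral_const,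
      intervalIntegral.integral_const_mul]
    have e2 : ∫ t in T..(2 * T), O.indicator (fun _ => (1 : ℝ)) t = volume.real O := by
      rw [intervalIntegral.integral_of_le (by linarith), ← integral_Icc_eq_integral_Ioc,
        setIntegral_indicator mO, setIntegral_const, smul_eq_mul, mul_one, Set.inter_eq_right.2 sO]
    rw [e2, smul_eq_mul]
    ring
  refine ⟨mO, mV, ?_, ?_, ?_, ?_, ?_, ?_⟩
  · nlinarith
  · have : 0 ≤ c * T := by positivity
    linarith
  · linarith
  · linarith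
  · have : 0 ≤ c * T := by positivity
    linarith
  · rw [hint, abs_le]
    have h1 : c * μ1 * T ≤ c * T := by
      have := mul_le_mul_of_nonneg_left hμle (by positivity : 0 ≤ c * T)
      nlinarith
    constructor
    · nlinarith
    · nlinarith

end Pool.Agent.Helper647.SG
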