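import Pool.Agent.Helper647_SG.Gg
import Pool.Agent.Helper647_PT.Etwo

set_option autoImplicit false

/-! The first moment and the local approximation. -/

namespace Pool.Agent.Helper647.SG

open Complex Filter Topology MeasureTheory Set
open Pool.Agent.Helper647.PT (al bR Bz Pz Yn Nn F1 F2 KE cr bR_supp exp_le_Yn Yn_le Yn_pos Nn_ge Nn_le bR_abs bR_one zp
  sizes)
open Pool.Agent.R304.GR (vt psi exp_vt)

theorem fm' : S_FM := by
  obtain ⟨T1, hT1, h1⟩ := JFM.fm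
  obtain ⟨T2, hT2, h2⟩ := sizes
  have hev : ∀ᶠ T : ℝ in atTop, T ^ (6 / 10 : ℝ) ≤ T / 4 ∧ 50 * T ^ (51 / 100 : ℝ) ≤ T / 4 := by
    have a1 : ∀ᶠ T : ℝ in atTop, (4 : ℝ) ≤ T ^ (4 / 10 : ℝ) :=
      (tendsto_rpow_atTop (by norm_num)).eventually_ge_atTop _
    have a2 : ∀ᶠ T : ℝ in atTop, (200 : ℝ) ≤ T ^ (49 / 100 : ℝ) :=
      (tendsto_rpow_atTop (by norm_num)).eventually_ge_atTop _
    filter_upwards [a1, a2, eventually_ge_atTop (1 : ℝ)] with T b1 b2 hT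
    have hT0 : 0 < T := by linarith
    have e1 : T ^ (6 / 10 : ℝ) * T ^ (4 / 10 : ℝ) = T := by
      rw [← Real.rpow_add hT0]; norm_num
    have e2 : T ^ (51 / 100 : ℝ) * T ^ (49 / 100 : ℝ) = T := by
      rw [← Real.rpow_add hT0]; norm_num
    have p1 : 0 < T ^ (6 / 10 : ℝ) := Real.rpow_pos_of_pos hT0 _
    have p2 : 0 < T ^ (51 / 100 : ℝ) := Real.rpow_pos_of_pos hT0 _
    constructor <;> nlinarith
  obtain ⟨T3, hT3⟩ := hev.exists_forall_of_atTop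
  refine ⟨max (max T1 T2) T3, hT1.trans ((le_max_left _ _).trans (le_max_left _ _)), fun T a hT ha1 ha2 => ?_⟩
  have hTT1 : T1 ≤ T := ((le_max_left _ _).trans (le_max_left _ _)).trans hT
  have hTT2 : T2 ≤ T := ((le_max_right _ _).trans (le_max_left _ _)).trans hT
  have hTT3 : T3 ≤ T := (le_max_right _ _).trans hT
  have hT8 : 8 ≤ T := hT1.trans hTT1
  have hT0 : 0 < T := by linarith
  obtain ⟨s1, s2, s3, s4, s5, s6⟩ := h2 T hTT2
  obtain ⟨g1, g2⟩ := hT3 T hTT3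
  have hN1 : 1 ≤ Nn T := by
    have h := Nn_ge T
    have : (1 : ℝ) ≤ Nn T := by linarith
    exact_mod_cast this
  have h3 : ‖(∫ t in a..(a + T), Pz (Nn T) t * Bz (Yn T) (bR (Real.log T)) t ^ 2) - ((T : ℝ) : ℂ)‖ ≤ T ^ (6 / 10 : ℝ) :=
    h1 T (Nn T) (Yn T) (bR (Real.log T)) hTT1 hN1 (Nn_le (by linarith)) (Yn_pos hT0) s6
      (fun h => bR_abs _ _) (bR_one _) a
  have hpw : ∀ t ∈ Icc a (a + T), ‖Pz (Nn T) t * Bz (Yn T) (bR (Real.log T)) t ^ 2‖ - 50 * T ^ (-(49 / 100) : ℝ) ≤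
      |XS T t| := by
    intro t ht
    rw [XS_abs]
    have h4 := zp (T := T) (t := t) hT8 (by linarith [ht.1]) (by linarith [ht.2])
    have h5 := s3 t
    have e : riemannZeta (1 / 2 + I * t) * Bz (Yn T) (bR (Real.log T)) t ^ 2 =
        Pz (Nn T) t * Bz (Yn T) (bR (Real.log T)) t ^ 2 +
        (riemannZeta (1 / 2 + I * t) - Pz (Nn T) t) * Bz (Yn T) (bR (Real.log T)) t ^ 2 := by ring
    have h6 : ‖(riemannZeta (1 / 2 + I * t) - Pz (Nn T) t) * Bz (Yn T) (bR (Real.log T)) t ^ 2‖ ≤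
        50 * T ^ (-(49 / 100) : ℝ) := by
      rw [norm_mul, norm_pow]
      calc _ ≤ 50 / Real.sqrt T * T ^ (1 / 100 : ℝ) :=
            mul_le_mul h4 h5 (by positivity) (by positivity)
        _ = 50 * T ^ (-(49 / 100) : ℝ) := by
            rw [Real.sqrt_eq_rpow, div_mul_eq_mul_div, mul_div_assoc, ← Real.rpow_sub hT0]
            norm_num
    have h7 := norm_sub_norm_le (Pz (Nn T) t * Bz (Yn T) (bR (Real.log T)) t ^ 2)
      (-((riemannZeta (1 / 2 + I * t) - Pz (Nn T) t) * Bz (Yn T) (bR (Real.log T)) t ^ 2))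
    rw [sub_neg_eq_add, ← e, norm_neg] at h7
    linarith
  have hcF : Continuous fun t : ℝ => Pz (Nn T) t * Bz (Yn T) (bR (Real.log T)) t ^ 2 :=
    (Pool.Agent.Helper647.PT.Pz_cont _).mul ((Pool.Agent.Helper647.PT.Bz_cont _ _).pow 2)
  have h8 : ∫ t in a..(a + T), (‖Pz (Nn T) t * Bz (Yn T) (bR (Real.log T)) t ^ 2‖ - 50 * T ^ (-(49 / 100) : ℝ)) ≤
      ∫ t in a..(a + T), |XS T t| :=
    intervalIntegral.integral_mono_on (by linarith) ((hcF.norm.sub continuous_const).intervalIntegrable _ _)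
      ((cont T).abs.intervalIntegrable _ _) hpw
  have h9 : ‖∫ t in a..(a + T), Pz (Nn T) t * Bz (Yn T) (bR (Real.log T)) t ^ 2‖ ≤
      ∫ t in a..(a + T), ‖Pz (Nn T) t * Bz (Yn T) (bR (Real.log T)) t ^ 2‖ :=
    intervalIntegral.norm_integral_le_integral_norm (by linarith)
  rw [intervalIntegral.integral_sub (hcF.norm.intervalIntegrable _ _) (by simp),
    intervalIntegral.integral_const, smul_eq_mul, add_sub_cancel_left] at h8
  have e3 : T * (50 * T ^ (-(49 / 100) : ℝ)) = 50 * T ^ (51 / 100 : ℝ) := by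
    have : T ^ (51 / 100 : ℝ) = T ^ (1 : ℝ) * T ^ (-(49 / 100) : ℝ) := by
      rw [← Real.rpow_add hT0]; norm_num
    rw [this, Real.rpow_one]; ring
  rw [e3] at h8
  have h10 : T - T ^ (6 / 10 : ℝ) ≤ ‖∫ t in a..(a + T), Pz (Nn T) t * Bz (Yn T) (bR (Real.log T)) t ^ 2‖ := by
    have h11 := norm_sub_norm_le ((T : ℝ) : ℂ) (∫ t in a..(a + T), Pz (Nn T) t * Bz (Yn T) (bR (Real.log T)) t ^ 2)
    rw [Complex.norm_real, Real.norm_eq_abs, abs_of_pos hT0, norm_sub_rev] at h11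
    linarith
  linarith

theorem loc : S_loc := by
  obtain ⟨T2, hT2, h2⟩ := sizes
  have hev : ∀ᶠ T : ℝ in atTop, T ^ (1 / 20 : ℝ) ≤ T / 2 ∧
      T ^ (1 / 100 : ℝ) * (50 / Real.sqrt T + T ^ (51 / 100 : ℝ) * (10 / T * (T ^ (1 / 20 : ℝ)) ^ 2)) ≤
        T ^ (-(1 / 10) : ℝ) := by
    have a1 : ∀ᶠ T : ℝ in atTop, (2 : ℝ) ≤ T ^ (95 / 100 : ℝ) :=
      (tendsto_rpow_atTop (by norm_num)).eventually_ge_atTop _
    have a2 : ∀ᶠ T : ℝ in atTop, (60 : ℝ) ≤ T ^ (28 / 100 : ℝ) :=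
      (tendsto_rpow_atTop (by norm_num)).eventually_ge_atTop _
    filter_upwards [a1, a2, eventually_ge_atTop (1 : ℝ)] with T b1 b2 hT
    have hT0 : 0 < T := by linarith
    constructor
    · have e1 : T ^ (1 / 20 : ℝ) * T ^ (95 / 100 : ℝ) = T := by
        rw [← Real.rpow_add hT0]; norm_num
      have p1 : 0 < T ^ (1 / 20 : ℝ) := Real.rpow_pos_of_pos hT0 _
      nlinarith
    · have e1 : T ^ (1 / 100 : ℝ) * (50 / Real.sqrt T) = 50 * T ^ (-(49 / 100) : ℝ) := by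
        rw [Real.sqrt_eq_rpow, mul_div_assoc', mul_comm (T ^ (1 / 100 : ℝ)) 50, mul_div_assoc, ← Real.rpow_sub hT0]
        norm_num
      have e2 : T ^ (1 / 100 : ℝ) * (T ^ (51 / 100 : ℝ) * (10 / T * (T ^ (1 / 20 : ℝ)) ^ 2)) =
          10 * T ^ (-(38 / 100) : ℝ) := by
        have e3 : (T ^ (1 / 20 : ℝ)) ^ 2 = T ^ (1 / 10 : ℝ) := by
          rw [← Real.rpow_natCast, ← Real.rpow_mul hT0.le]; norm_num
        have e4 : T ^ (-(38 / 100) : ℝ) = T ^ (1 / 100 : ℝ) * T ^ (51 / 100 : ℝ) * T ^ (1 / 10 : ℝ) * T ^ (-1 : ℝ) := by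
          rw [← Real.rpow_add hT0, ← Real.rpow_add hT0, ← Real.rpow_add hT0]; norm_num
        rw [e3, e4, Real.rpow_neg_one]
        field_simp
      rw [mul_add, e1, e2]
      have e5 : T ^ (-(1 / 10) : ℝ) = T ^ (-(38 / 100) : ℝ) * T ^ (28 / 100 : ℝ) := by
        rw [← Real.rpow_add hT0]; norm_num
      have e6 : T ^ (-(49 / 100) : ℝ) ≤ T ^ (-(38 / 100) : ℝ) :=
        Real.rpow_le_rpow_of_exponent_le hT (by norm_num)
      have p1 : 0 < T ^ (-(38 / 100) : ℝ) := Real.rpow_pos_of_pos hT0 _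
      rw [e5]
      nlinarith
  obtain ⟨T3, hT3⟩ := hev.exists_forall_of_atTop
  refine ⟨max T2 T3, hT2.trans (le_max_left _ _), fun T u x hT hu1 hu2 hx => ?_⟩
  have hTT2 : T2 ≤ T := (le_max_left _ _).trans hT
  have hTT3 : T3 ≤ T := (le_max_right _ _).trans hT
  have hT8 : 8 ≤ T := hT2.trans hTT2
  have hT0 : 0 < T := by linarith
  obtain ⟨s1, s2, s3, s4, s5, s6⟩ := h2 T hTT2
  obtain ⟨g1, g2⟩ := hT3 T hTT3
  have hx' := abs_le.1 hx
  have ht1 : T / 4 ≤ u + x := by linarith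
  have ht2 : u + x ≤ 4 * T := by linarith
  set t := u + x with ht
  set Bq : ℝ := ‖Bz (Yn T) (bR (Real.log T)) t‖ ^ 2 with hBq
  have hB0 : 0 ≤ Bq := by positivity
  have hB1 : Bq ≤ T ^ (1 / 100 : ℝ) := s3 t
  -- Hardy's function
  have e1 : ((XS T t : ℝ) : ℂ) = cexp (I * (vt t : ℂ)) * riemannZeta (1 / 2 + I * t) * (Bq : ℂ) := by
    unfold XS
    rw [← hBq]
    have h3 := Pool.Agent.R304.SG.Z_re t
    push_cast
    rw [h3]
    unfold Pool.Agent.R304.SG.Z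
    rw [exp_vt]
  have e2 : F1 T t = Pz (Nn T) t * (Bq : ℂ) := rfl
  have e3 : ((XS T t : ℝ) : ℂ) - cexp (I * ((vt u + psi u * x : ℝ) : ℂ)) * F1 T t =
      (Bq : ℂ) * (cexp (I * (vt t : ℂ)) * (riemannZeta (1 / 2 + I * t) - Pz (Nn T) t) +
        Pz (Nn T) t * (cexp (I * (vt t : ℂ)) - cexp (I * ((vt u + psi u * x : ℝ) : ℂ)))) := by
    rw [e1, e2]; ring
  have h4 := zp (T := T) (t := t) hT8 ht1 ht2
  have h5 : ‖cexp (I * (vt t : ℂ)) - cexp (I * ((vt u + psi u * x : ℝ) : ℂ))‖ ≤ 10 / T * (T ^ (1 / 20 : ℝ)) ^ 2 := by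
    refine (Pool.Agent.Helper647.PT.cexp_sub_le _ _).trans ?_
    have h6 := Pool.Agent.Helper647.PT.vt_lin (T := T) (t := t) (u := u) hT8 ht1 (by linarith)
    have e4 : t - u = x := by rw [ht]; ring
    rw [e4] at h6
    have e5 : vt t - (vt u + psi u * x) = vt t - vt u - psi u * x := by ring
    rw [e5]
    refine h6.trans ?_
    have h7 : x ^ 2 ≤ (T ^ (1 / 20 : ℝ)) ^ 2 := by
      rw [← sq_abs x]
      exact pow_le_pow_left₀ (abs_nonneg _) hx 2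
    exact mul_le_mul_of_nonneg_left h7 (by positivity)
  have h8 : ‖cexp (I * (vt t : ℂ))‖ = 1 := Pool.Agent.Helper647.PT.norm_cexp_I _
  rw [e3, norm_mul, Complex.norm_real, Real.norm_eq_abs, abs_of_nonneg hB0]
  have h9 : ‖cexp (I * (vt t : ℂ)) * (riemannZeta (1 / 2 + I * t) - Pz (Nn T) t) +
        Pz (Nn T) t * (cexp (I * (vt t : ℂ)) - cexp (I * ((vt u + psi u * x : ℝ) : ℂ)))‖ ≤
      50 / Real.sqrt T + T ^ (51 / 100 : ℝ) * (10 / T * (T ^ (1 / 20 : ℝ)) ^ 2) := by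
    refine (norm_add_le _ _).trans (add_le_add ?_ ?_)
    · rw [norm_mul, h8, one_mul]; exact h4
    · rw [norm_mul]
      exact mul_le_mul (s4 t) h5 (norm_nonneg _) (by positivity)
  refine le_trans ?_ g2
  exact mul_le_mul hB1 h9 (norm_nonneg _) (by positivity)

end Pool.Agent.Helper647.SG
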