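import Mathlib

set_option autoImplicit false

namespace Pool.Agent.Helper647.SG.JFM

open Complex Filter Topology MeasureTheory Set

/-- the partial sum of zeta -/
noncomputable def Pz (N : ℕ) (t : ℝ) : ℂ := ∑ n ∈ Finset.Icc 1 N, (n : ℂ) ^ (-(1 / 2 + I * t))

/-- the mollifier -/
noncomputable def Bz (Y : ℕ) (β : ℕ → ℝ) (t : ℝ) : ℂ :=
  ∑ h ∈ Finset.Icc 1 Y, ((β h : ℝ) : ℂ) * (h : ℂ) ^ (-(1 / 2 + I * t))

theorem fm_cont (m : ℕ) (hm : 1 ≤ m) : Continuous (fun t : ℝ => (m : ℂ) ^ (-(1 / 2 + I * (t : ℂ)))) := by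
  have hm0 : (m : ℂ) ≠ 0 := by
    have : m ≠ 0 := by omega
    exact_mod_cast this
  refine Continuous.const_cpow ?_ (Or.inl hm0)
  fun_prop

theorem fm_term (m : ℕ) (hm : 2 ≤ m) (a b : ℝ) :
    ‖∫ t in a..b, (m : ℂ) ^ (-(1 / 2 + I * (t : ℂ)))‖ ≤ 4 * (m : ℝ) ^ (-(1 / 2) : ℝ) := by
  have hm0 : (m : ℂ) ≠ 0 := by
    have : m ≠ 0 := by omega
    exact_mod_cast this
  have hmpos : (0 : ℝ) < (m : ℝ) := by
    have : 0 < m := by omega
    exact_mod_cast this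
  have hlog2 : Real.log 2 ≤ Real.log m := by
    apply Real.log_le_log (by norm_num)
    exact_mod_cast hm
  have hl2 : (1 / 2 : ℝ) < Real.log 2 := by
    have := Real.log_two_gt_d9
    linarith
  have hlpos : 0 < Real.log m := by linarith
  set c : ℂ := -(I * (Real.log m : ℂ)) with hc
  have hc0 : c ≠ 0 := by
    rw [hc]
    apply neg_ne_zero.mpr
    apply mul_ne_zero I_ne_zero
    exact_mod_cast hlpos.ne'
  have hcn : ‖c‖ = Real.log m := by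
    rw [hc, norm_neg, norm_mul, norm_I, one_mul, Complex.norm_real, Real.norm_eq_abs, abs_of_pos hlpos]
  have h1 : ∀ t : ℝ, (m : ℂ) ^ (-(1 / 2 + I * (t : ℂ))) = (m : ℂ) ^ (-(1 / 2) : ℂ) * Complex.exp (c * t) := by
    intro t
    have : -(1 / 2 + I * (t : ℂ)) = -(1 / 2) + (-(I * t)) := by ring
    rw [this, Complex.cpow_add _ _ hm0]
    congr 1
    rw [Complex.cpow_def_of_ne_zero hm0, ← Complex.natCast_log, hc]
    congr 1
    ring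
  simp_rw [h1]
  rw [intervalIntegral.integral_const_mul, integral_exp_mul_complex hc0, norm_mul, norm_div, hcn]
  have h2 : ‖(m : ℂ) ^ (-(1 / 2) : ℂ)‖ = (m : ℝ) ^ (-(1 / 2) : ℝ) := by
    rw [Complex.norm_natCast_cpow_of_pos (by omega)]
    congr 1
    simp
  rw [h2]
  have h3 : ∀ t : ℝ, ‖Complex.exp (c * t)‖ = 1 := by
    intro t
    rw [Complex.norm_exp]
    have : (c * (t : ℂ)).re = 0 := by
      rw [hc]
      simp only [neg_mul, Complex.neg_re, Complex.mul_re, Complex.I_re, Complex.ofReal_re, Complex.mul_im,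
        Complex.I_im, Complex.ofReal_im]
      ring
    rw [this, Real.exp_zero]
  have h4 : ‖Complex.exp (c * b) - Complex.exp (c * a)‖ ≤ 2 := by
    calc _ ≤ ‖Complex.exp (c * b)‖ + ‖Complex.exp (c * a)‖ := norm_sub_le _ _
      _ = 2 := by rw [h3, h3]; norm_num
  have h5 : ‖Complex.exp (c * b) - Complex.exp (c * a)‖ / Real.log m ≤ 4 := by
    rw [div_le_iff₀ hlpos]
    linarith
  have h6 : 0 ≤ (m : ℝ) ^ (-(1 / 2) : ℝ) := Real.rpow_nonneg hmpos.le _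
  calc _ ≤ (m : ℝ) ^ (-(1 / 2) : ℝ) * 4 := mul_le_mul_of_nonneg_left h5 h6
    _ = _ := by ring

theorem fm_sum (N : ℕ) : ∑ n ∈ Finset.Icc 1 N, (n : ℝ) ^ (-(1 / 2) : ℝ) ≤ 2 * Real.sqrt N := by
  induction N with
  | zero => simp
  | succ k ih =>
    rw [Finset.sum_Icc_succ_top (by omega)]
    have hk : (0 : ℝ) ≤ (k : ℝ) := Nat.cast_nonneg k
    have hk1 : (0 : ℝ) < ((k + 1 : ℕ) : ℝ) := by exact_mod_cast Nat.succ_pos k
    have h1 : ((k + 1 : ℕ) : ℝ) ^ (-(1 / 2) : ℝ) = 1 / Real.sqrt ((k + 1 : ℕ) : ℝ) := by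
      rw [Real.rpow_neg hk1.le, Real.sqrt_eq_rpow, one_div ((((k + 1 : ℕ) : ℝ)) ^ (1 / 2 : ℝ))]
    rw [h1]
    set x := Real.sqrt (k : ℝ) with hx
    set y := Real.sqrt ((k + 1 : ℕ) : ℝ) with hy
    have hx2 : x ^ 2 = k := Real.sq_sqrt hk
    have hy2 : y ^ 2 = k + 1 := by
      rw [hy, Real.sq_sqrt hk1.le]; push_cast; ring
    have hypos : 0 < y := Real.sqrt_pos.mpr hk1
    have hxn : 0 ≤ x := Real.sqrt_nonneg _
    have : 1 / y ≤ 2 * y - 2 * x := by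
      rw [div_le_iff₀ hypos]
      nlinarith [sq_nonneg (y - x)]
    linarith

/-- the exact form of the error -/
theorem fm_expand (T : ℝ) (N Y : ℕ) (β : ℕ → ℝ) (hN : 1 ≤ N) (hY : 1 ≤ Y) (hβ1 : β 1 = 1) (a : ℝ) :
    (∫ t in a..(a + T), Pz N t * Bz Y β t ^ 2) - ((T : ℝ) : ℂ) =
    ∑ p ∈ Finset.Icc 1 N ×ˢ (Finset.Icc 1 Y ×ˢ Finset.Icc 1 Y),
      ((β p.2.1 : ℝ) : ℂ) * ((β p.2.2 : ℝ) : ℂ) *
        ((∫ t in a..(a + T), ((p.1 * (p.2.1 * p.2.2) : ℕ) : ℂ) ^ (-(1 / 2 + I * (t : ℂ)))) -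
          (if p = (1, (1, 1)) then (T : ℂ) else 0)) := by
  have hS : ((1, (1, 1)) : ℕ × (ℕ × ℕ)) ∈ Finset.Icc 1 N ×ˢ (Finset.Icc 1 Y ×ˢ Finset.Icc 1 Y) := by
    simp [hN, hY]
  simp_rw [mul_sub]
  rw [Finset.sum_sub_distrib]
  congr 1
  · have h1 : ∀ t : ℝ, Pz N t * Bz Y β t ^ 2 =
        ∑ p ∈ Finset.Icc 1 N ×ˢ (Finset.Icc 1 Y ×ˢ Finset.Icc 1 Y),
          ((β p.2.1 : ℝ) : ℂ) * ((β p.2.2 : ℝ) : ℂ) *
            ((p.1 * (p.2.1 * p.2.2) : ℕ) : ℂ) ^ (-(1 / 2 + I * (t : ℂ))) := by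
      intro t
      rw [Finset.sum_product]
      simp_rw [Finset.sum_product]
      unfold Pz Bz
      rw [sq, Finset.sum_mul_sum, Finset.sum_mul]
      refine Finset.sum_congr rfl fun n hn => ?_
      rw [Finset.mul_sum]
      refine Finset.sum_congr rfl fun μ hμ => ?_
      rw [Finset.mul_sum]
      refine Finset.sum_congr rfl fun ν hν => ?_
      have e1 : ((n * (μ * ν) : ℕ) : ℂ) ^ (-(1 / 2 + I * (t : ℂ))) =
          (n : ℂ) ^ (-(1 / 2 + I * (t : ℂ))) * ((μ : ℂ) ^ (-(1 / 2 + I * (t : ℂ))) * (ν : ℂ) ^ (-(1 / 2 + I * (t : ℂ)))) := by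
        rw [← Complex.natCast_mul_natCast_cpow, ← Nat.cast_mul, ← Complex.natCast_mul_natCast_cpow, ← Nat.cast_mul]
      rw [e1]
      ring
    simp_rw [h1]
    rw [intervalIntegral.integral_finsetSum]
    · refine Finset.sum_congr rfl fun p hp => ?_
      rw [intervalIntegral.integral_const_mul]
    · intro p hp
      apply Continuous.intervalIntegrable
      apply Continuous.mul continuous_const
      apply fm_cont
      simp only [Finset.mem_product, Finset.mem_Icc] at hp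
      have h1 := hp.1.1
      have h2 := hp.2.1.1
      have h3 := hp.2.2.1
      exact Nat.succ_le_of_lt (Nat.mul_pos h1 (Nat.mul_pos h2 h3))
  · rw [Finset.sum_eq_single (1, (1, 1))]
    · simp [hβ1]
    · intro p hp hne
      simp [hne]
    · intro h
      exact absurd hS h

theorem fm : ∃ T0 : ℝ, 8 ≤ T0 ∧ ∀ (T : ℝ) (N Y : ℕ) (β : ℕ → ℝ), T0 ≤ T → 1 ≤ N → (N : ℝ) ≤ 16 * T →
    1 ≤ Y → (Y : ℝ) ≤ T ^ (1 / 500 : ℝ) → (∀ h, |β h| ≤ 1) → β 1 = 1 → ∀ a : ℝ,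
    ‖(∫ t in a..(a + T), Pz N t * Bz Y β t ^ 2) - ((T : ℝ) : ℂ)‖ ≤ T ^ (6 / 10 : ℝ) := by
  refine ⟨2 ^ 60, by norm_num, ?_⟩
  intro T N Y β hT hN hNT hY hYT hβ hβ1 a
  have hTpos : 0 < T := lt_of_lt_of_le (by norm_num) hT
  rw [fm_expand T N Y β hN hY hβ1 a]
  refine (norm_sum_le _ _).trans ?_
  have hterm : ∀ p ∈ Finset.Icc 1 N ×ˢ (Finset.Icc 1 Y ×ˢ Finset.Icc 1 Y),
      ‖((β p.2.1 : ℝ) : ℂ) * ((β p.2.2 : ℝ) : ℂ) *
        ((∫ t in a..(a + T), ((p.1 * (p.2.1 * p.2.2) : ℕ) : ℂ) ^ (-(1 / 2 + I * (t : ℂ)))) -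
          (if p = (1, (1, 1)) then (T : ℂ) else 0))‖ ≤ 4 * (p.1 : ℝ) ^ (-(1 / 2) : ℝ) := by
    rintro ⟨n, μ, ν⟩ hp
    simp only [Finset.mem_product, Finset.mem_Icc] at hp
    obtain ⟨⟨hn, -⟩, ⟨hμ, -⟩, hν, -⟩ := hp
    have hn0 : (0 : ℝ) < n := by exact_mod_cast hn
    have hnn : 0 ≤ 4 * (n : ℝ) ^ (-(1 / 2) : ℝ) := by positivity
    rw [norm_mul, norm_mul, Complex.norm_real, Complex.norm_real, Real.norm_eq_abs, Real.norm_eq_abs]
    have hb : |β μ| * |β ν| ≤ 1 := mul_le_one₀ (hβ μ) (abs_nonneg _) (hβ ν)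
    have hb0 : 0 ≤ |β μ| * |β ν| := by positivity
    have key : ‖(∫ t in a..(a + T), ((n * (μ * ν) : ℕ) : ℂ) ^ (-(1 / 2 + I * (t : ℂ)))) -
          (if (n, μ, ν) = ((1, (1, 1)) : ℕ × ℕ × ℕ) then (T : ℂ) else 0)‖ ≤ 4 * (n : ℝ) ^ (-(1 / 2) : ℝ) := by
      by_cases h : (n, μ, ν) = ((1, (1, 1)) : ℕ × ℕ × ℕ)
      · rw [if_pos h]
        simp only [Prod.mk.injEq] at h
        obtain ⟨rfl, rfl, rfl⟩ := h
        simp
      · rw [if_neg h, sub_zero]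
        have hμν : 1 ≤ μ * ν := Nat.succ_le_of_lt (Nat.mul_pos hμ hν)
        have hm1 : 1 ≤ n * (μ * ν) := Nat.succ_le_of_lt (Nat.mul_pos hn hμν)
        have hm2 : 2 ≤ n * (μ * ν) := by
          rcases Nat.lt_or_ge 1 (n * (μ * ν)) with h2 | h2
          · exact h2
          · exfalso
            have h3 : n * (μ * ν) = 1 := le_antisymm h2 hm1
            have h4 := Nat.eq_one_of_mul_eq_one_right h3
            have h5 := Nat.eq_one_of_mul_eq_one_left h3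
            have h6 := Nat.eq_one_of_mul_eq_one_right h5
            have h7 := Nat.eq_one_of_mul_eq_one_left h5
            apply h
            simp [h4, h6, h7]
        refine (fm_term _ hm2 a (a + T)).trans ?_
        have hle : (n : ℝ) ≤ ((n * (μ * ν) : ℕ) : ℝ) := by
          exact_mod_cast Nat.le_mul_of_pos_right n hμν
        have := Real.rpow_le_rpow_of_nonpos hn0 hle (by norm_num : (-(1 / 2) : ℝ) ≤ 0)
        linarith
    calc _ ≤ 1 * (4 * (n : ℝ) ^ (-(1 / 2) : ℝ)) := mul_le_mul hb key (norm_nonneg _) zero_le_one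
      _ = _ := one_mul _
  refine (Finset.sum_le_sum hterm).trans ?_
  rw [Finset.sum_product]
  have hcard : ∀ n ∈ Finset.Icc 1 N, (∑ y ∈ Finset.Icc 1 Y ×ˢ Finset.Icc 1 Y, 4 * (((n, y) : ℕ × (ℕ × ℕ)).1 : ℝ) ^ (-(1 / 2) : ℝ))
      = 4 * (Y : ℝ) ^ 2 * (n : ℝ) ^ (-(1 / 2) : ℝ) := by
    intro n hn
    simp only [Finset.sum_const, Finset.card_product, Nat.card_Icc, nsmul_eq_mul]
    push_cast
    simp
    ring
  rw [Finset.sum_congr rfl hcard, ← Finset.mul_sum]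
  have hs := fm_sum N
  have hsqN : Real.sqrt N ≤ 4 * T ^ (1 / 2 : ℝ) := by
    have h16 : (4 : ℝ) * T ^ (1 / 2 : ℝ) = Real.sqrt (16 * T) := by
      rw [← Real.sqrt_eq_rpow, Real.sqrt_mul (by norm_num)]
      congr 1
      rw [show (16 : ℝ) = 4 ^ 2 by norm_num, Real.sqrt_sq (by norm_num)]
    rw [h16]
    exact Real.sqrt_le_sqrt hNT
  have hY0 : (0 : ℝ) ≤ Y := Nat.cast_nonneg Y
  have hY2 : (Y : ℝ) ^ 2 ≤ T ^ (1 / 250 : ℝ) := by
    have : T ^ (1 / 250 : ℝ) = (T ^ (1 / 500 : ℝ)) ^ 2 := by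
      rw [← Real.rpow_natCast, ← Real.rpow_mul hTpos.le]
      norm_num
    rw [this]
    exact pow_le_pow_left₀ hY0 hYT 2
  have h32 : (32 : ℝ) ≤ T ^ (6 / 10 - (1 / 2 + 1 / 250) : ℝ) := by
    have h1 : ((2 : ℝ) ^ 60) ^ (6 / 10 - (1 / 2 + 1 / 250) : ℝ) ≤ T ^ (6 / 10 - (1 / 2 + 1 / 250) : ℝ) :=
      Real.rpow_le_rpow (by norm_num) hT (by norm_num)
    refine le_trans ?_ h1
    rw [← Real.rpow_natCast 2 60, ← Real.rpow_mul (by norm_num)]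
    have h2 : (2 : ℝ) ^ (5 : ℝ) ≤ 2 ^ (((60 : ℕ) : ℝ) * (6 / 10 - (1 / 2 + 1 / 250) : ℝ)) :=
      Real.rpow_le_rpow_of_exponent_le (by norm_num) (by norm_num)
    refine le_trans ?_ h2
    have : (2 : ℝ) ^ (5 : ℝ) = 32 := by
      rw [show (5 : ℝ) = ((5 : ℕ) : ℝ) by norm_num, Real.rpow_natCast]; norm_num
    rw [this]
  have hsplit : T ^ (6 / 10 : ℝ) = T ^ (6 / 10 - (1 / 2 + 1 / 250) : ℝ) * (T ^ (1 / 2 : ℝ) * T ^ (1 / 250 : ℝ)) := by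
    rw [← Real.rpow_add hTpos, ← Real.rpow_add hTpos]
    norm_num
  rw [hsplit]
  have hA : 0 ≤ T ^ (1 / 2 : ℝ) := by positivity
  have hB : 0 ≤ T ^ (1 / 250 : ℝ) := by positivity
  have hsum : ∑ i ∈ Finset.Icc 1 N, (i : ℝ) ^ (-(1 / 2) : ℝ) ≤ 8 * T ^ (1 / 2 : ℝ) := by linarith
  calc 4 * (Y : ℝ) ^ 2 * ∑ i ∈ Finset.Icc 1 N, (i : ℝ) ^ (-(1 / 2) : ℝ)
      ≤ 4 * (Y : ℝ) ^ 2 * (8 * T ^ (1 / 2 : ℝ)) := mul_le_mul_of_nonneg_left hsum (by positivity)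
    _ = 32 * (T ^ (1 / 2 : ℝ) * (Y : ℝ) ^ 2) := by ring
    _ ≤ 32 * (T ^ (1 / 2 : ℝ) * T ^ (1 / 250 : ℝ)) := by gcongr
    _ ≤ _ := mul_le_mul_of_nonneg_right h32 (by positivity)

end Pool.Agent.Helper647.SG.JFM
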