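import Mathlib

set_option autoImplicit false

namespace Pool.Agent.Helper647.SG.JWM

open Complex Filter Topology MeasureTheory Set

/-- the windows -/
def Wd (ψ δ H : ℝ) (l0 : ℕ) : Set ℝ := {x : ℝ | ∃ l : ℕ, l0 ≤ l ∧ |ψ - x - 2 * Real.pi * l / δ| ≤ 2 / H}

theorem wm_sum1 (n : ℕ) : ∑ k ∈ Finset.range n, (1 + (k : ℝ)) ^ (-(1 / 2) : ℝ) ≤ 2 * Real.sqrt n := by
  induction n with
  | zero => simp
  | succ n ih =>
    rw [Finset.sum_range_succ]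
    have h1 : (1 + (n : ℝ)) ^ (-(1 / 2) : ℝ) = 1 / Real.sqrt (n + 1) := by
      rw [Real.rpow_neg (by positivity), ← Real.sqrt_eq_rpow, one_div, add_comm]
    rw [h1]
    have h2 : 0 < Real.sqrt (n + 1) := Real.sqrt_pos.mpr (by positivity)
    have h3 : Real.sqrt n ≤ Real.sqrt (n + 1) := Real.sqrt_le_sqrt (by linarith)
    have h4 : Real.sqrt n * Real.sqrt n = n := Real.mul_self_sqrt (by positivity)
    have h5 : Real.sqrt (n + 1) * Real.sqrt (n + 1) = n + 1 := Real.mul_self_sqrt (by positivity)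
    have h6 : 1 / Real.sqrt (n + 1) ≤ 2 * Real.sqrt (n + 1) - 2 * Real.sqrt n := by
      rw [div_le_iff₀ h2]
      nlinarith [Real.sqrt_nonneg (n : ℝ)]
    push_cast
    linarith

theorem wm_sum2 (J i : ℕ) (hi : i < J) :
    ∑ j ∈ Finset.range J, (1 + |(i : ℝ) - j|) ^ (-(1 / 2) : ℝ) ≤ 4 * Real.sqrt J := by
  classical
  have hs : ∑ j ∈ Finset.range J, (1 + |(i : ℝ) - j|) ^ (-(1 / 2) : ℝ) =
      ∑ j ∈ (Finset.range J).filter (fun j => j ≤ i), (1 + |(i : ℝ) - j|) ^ (-(1 / 2) : ℝ) +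
      ∑ j ∈ (Finset.range J).filter (fun j => ¬ j ≤ i), (1 + |(i : ℝ) - j|) ^ (-(1 / 2) : ℝ) :=
    (Finset.sum_filter_add_sum_filter_not _ _ _).symm
  have key : ∀ (s : Finset ℕ) (φ : ℕ → ℕ), (∀ j ∈ s, φ j < J) → Set.InjOn φ s →
      (∀ j ∈ s, |(i : ℝ) - j| = φ j) →
      ∑ j ∈ s, (1 + |(i : ℝ) - j|) ^ (-(1 / 2) : ℝ) ≤ 2 * Real.sqrt J := by
    intro s φ h1 h2 h3
    have h4 : ∑ j ∈ s, (1 + |(i : ℝ) - j|) ^ (-(1 / 2) : ℝ) =
        ∑ k ∈ s.image φ, (1 + (k : ℝ)) ^ (-(1 / 2) : ℝ) := by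
      rw [Finset.sum_image h2]
      exact Finset.sum_congr rfl fun j hj => by rw [h3 j hj]
    rw [h4]
    refine le_trans (Finset.sum_le_sum_of_subset_of_nonneg ?_ fun k _ _ => by positivity)
      (wm_sum1 J)
    intro k hk
    obtain ⟨j, hj, rfl⟩ := Finset.mem_image.mp hk
    exact Finset.mem_range.mpr (h1 j hj)
  have ha : ∑ j ∈ (Finset.range J).filter (fun j => j ≤ i), (1 + |(i : ℝ) - j|) ^ (-(1 / 2) : ℝ)
      ≤ 2 * Real.sqrt J := by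
    refine key _ (fun j => i - j) ?_ ?_ ?_
    · intro j hj; omega
    · intro a ha b hb hab
      simp only [Finset.coe_filter, Finset.mem_range, Set.mem_ofPred_eq] at ha hb hab
      omega
    · intro j hj
      have := (Finset.mem_filter.mp hj).2
      rw [Nat.cast_sub this, abs_of_nonneg]
      have : (j : ℝ) ≤ i := by exact_mod_cast this
      linarith
  have hb : ∑ j ∈ (Finset.range J).filter (fun j => ¬ j ≤ i), (1 + |(i : ℝ) - j|) ^ (-(1 / 2) : ℝ)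
      ≤ 2 * Real.sqrt J := by
    refine key _ (fun j => j - i) ?_ ?_ ?_
    · intro j hj
      have := Finset.mem_range.mp (Finset.mem_filter.mp hj).1
      omega
    · intro a ha b hb hab
      simp only [Finset.coe_filter, Finset.mem_range, Set.mem_ofPred_eq] at ha hb hab
      omega
    · intro j hj
      have h := (Finset.mem_filter.mp hj).2
      have h' : i ≤ j := by omega
      rw [Nat.cast_sub h', abs_of_nonpos]
      · ring
      have : (i : ℝ) ≤ j := by exact_mod_cast h'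
      linarith
  linarith

/-- the average of the exponentials is large on the windows -/
theorem wm_avg (ψ δ x : ℝ) (J l : ℕ) (hJ : 8 ≤ J) (hδ : 0 < δ)
    (hx : |ψ - x - 2 * Real.pi * l / δ| ≤ 2 / (16 * J * δ)) :
    1 / 2 ≤ ‖(1 / (J : ℂ)) * ∑ j ∈ Finset.range J, cexp (I * ((j * δ * (x - ψ) : ℝ) : ℂ))‖ ^ 2 := by
  have hJ0 : (0 : ℝ) < J := by
    have : 0 < J := by omega
    exact_mod_cast this
  set e : ℝ := ψ - x - 2 * Real.pi * l / δ with he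
  have hterm : ∀ j ∈ Finset.range J,
      127 / 128 ≤ (cexp (I * ((j * δ * (x - ψ) : ℝ) : ℂ))).re := by
    intro j hj
    have hjJ : (j : ℝ) ≤ J := by
      have := Finset.mem_range.mp hj
      exact_mod_cast this.le
    have h1 : (j : ℝ) * δ * (x - ψ) = -(j * δ * e) - (l * j : ℕ) * (2 * Real.pi) := by
      rw [he]
      push_cast
      field_simp
      ring
    have h2 : cexp (I * ((j * δ * (x - ψ) : ℝ) : ℂ)) = cexp (((j * δ * (x - ψ) : ℝ) : ℂ) * I) := by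
      rw [mul_comm]
    rw [h2, Complex.exp_ofReal_mul_I_re, h1, Real.cos_sub_nat_mul_two_pi, Real.cos_neg]
    have h3 : |(j : ℝ) * δ * e| ≤ 1 / 8 := by
      rw [abs_mul, abs_of_nonneg (by positivity : (0 : ℝ) ≤ j * δ)]
      calc (j : ℝ) * δ * |e| ≤ J * δ * (2 / (16 * J * δ)) := by gcongr
        _ = 1 / 8 := by field_simp; norm_num
    have h4 := Real.one_sub_sq_div_two_le_cos (x := (j : ℝ) * δ * e)
    have h5 : ((j : ℝ) * δ * e) ^ 2 ≤ (1 / 8) ^ 2 := by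
      rw [← sq_abs]
      gcongr
    linarith
  have h6 : (127 / 128 : ℝ) ≤ ((1 / (J : ℂ)) * ∑ j ∈ Finset.range J,
      cexp (I * ((j * δ * (x - ψ) : ℝ) : ℂ))).re := by
    have h7 : (1 / (J : ℂ)) = ((1 / (J : ℝ) : ℝ) : ℂ) := by push_cast; rfl
    rw [h7, Complex.re_ofReal_mul, Complex.re_sum]
    have h8 : (J : ℝ) * (127 / 128) ≤ ∑ j ∈ Finset.range J,
        (cexp (I * ((j * δ * (x - ψ) : ℝ) : ℂ))).re := by
      have := Finset.card_nsmul_le_sum (Finset.range J) _ _ hterm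
      simpa using this
    calc (127 / 128 : ℝ) = 1 / (J : ℝ) * (J * (127 / 128)) := by field_simp
      _ ≤ _ := by gcongr
  have h9 := h6.trans (Complex.re_le_norm _)
  have h10 : (127 / 128 : ℝ) ^ 2 ≤ ‖(1 / (J : ℂ)) * ∑ j ∈ Finset.range J,
      cexp (I * ((j * δ * (x - ψ) : ℝ) : ℂ))‖ ^ 2 := by gcongr
  refine le_trans ?_ h10
  norm_num

theorem wm (m : ℝ → Set ℝ → ℝ) (g : ℝ → ℝ → ℕ → ℝ) (Yn Nn : ℝ → ℕ)
    (hY : ∃ T0 : ℝ, 2 ≤ T0 ∧ ∀ T : ℝ, T0 ≤ T → (Yn T : ℝ) ≤ T ^ (1 / 500 : ℝ))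
    (hY2 : ∀ T : ℝ, 0 < T → Real.exp (1 / 1000 * Real.log T) ≤ Yn T)
    (hN : ∀ T : ℝ, 8 * T ≤ Nn T)
    (hG : ∀ R : ℝ, 1 ≤ R → ∃ C : ℝ, 0 < C ∧ ∀ (L τ : ℝ) (Y : ℕ), 1 ≤ L → |τ| ≤ R →
      Real.exp (1 / 1000 * L) ≤ Y → g L τ Y ≤ C * (1 + |τ| * L) ^ (-(1 / 2) : ℝ))
    (hm : ∀ (T : ℝ) (W : Set ℝ) (B δ ω : ℝ) (J : ℕ), 1 < T → 1 ≤ J →
      (∀ x ∈ W, x ≤ B) → Real.exp B * Yn T ≤ Nn T →
      (∀ x ∈ W, 1 / 2 ≤ ‖(1 / (J : ℂ)) * ∑ j ∈ Finset.range J, cexp (I * ((j * δ * (x - ω) : ℝ) : ℂ))‖ ^ 2) →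
      m T W ≤ 2 * Real.exp (B / Real.log T) / (J : ℝ) ^ 2 *
        ∑ i ∈ Finset.range J, ∑ j ∈ Finset.range J, g (Real.log T) (((i : ℝ) - j) * δ) (Yn T)) :
    ∃ C : ℝ, 0 < C ∧ ∀ (A : ℝ) (J : ℕ), 1 ≤ A → 8 ≤ J → ∃ T0 : ℝ, 8 ≤ T0 ∧ ∀ T δ ψ : ℝ, T0 ≤ T →
      1 / Real.log T ≤ δ → δ ≤ A → ψ ≤ 52 / 100 * Real.log T → ∀ l0 : ℕ,
        m T (Wd ψ δ (16 * J * δ) l0) ≤ C * (J : ℝ) ^ (-(1 / 2) : ℝ) := by
  obtain ⟨C₁, hC₁, hG₁⟩ := hG 1 le_rfl
  obtain ⟨TY, hTY2, hTY⟩ := hY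
  refine ⟨16 * C₁ + 4, by positivity, fun A J hA hJ => ?_⟩
  have hJ0 : (0 : ℝ) < J := by
    have : 0 < J := by omega
    exact_mod_cast this
  have hJ8 : (8 : ℝ) ≤ J := by exact_mod_cast hJ
  obtain ⟨C₂, hC₂, hG₂⟩ := hG (J * A + 1) (by nlinarith)
  refine ⟨max 8 (max TY (Real.exp (C₂ ^ 2 * J))), le_max_left _ _, ?_⟩
  intro T δ ψ hT hδ1 hδA hψ l0
  have hT8 : 8 ≤ T := le_trans (le_max_left _ _) hT
  have hTT : TY ≤ T := le_trans (le_trans (le_max_left _ _) (le_max_right _ _)) hT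
  have hTe : Real.exp (C₂ ^ 2 * J) ≤ T := le_trans (le_trans (le_max_right _ _) (le_max_right _ _)) hT
  have hT0 : 0 < T := by linarith
  set L := Real.log T with hL
  have hL1 : 1 ≤ L := by
    rw [hL, Real.le_log_iff_exp_le hT0]
    linarith [Real.exp_one_lt_d9]
  have hLC : C₂ ^ 2 * J ≤ L := by
    rw [hL, Real.le_log_iff_exp_le hT0]; exact hTe
  have hL0 : 0 < L := by linarith
  have hδ0 : 0 < δ := lt_of_lt_of_le (by positivity) hδ1
  have hδL : 1 ≤ δ * L := by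
    rwa [div_le_iff₀ hL0] at hδ1
  have hY2' := hY2 T hT0
  rw [← hL] at hY2'
  -- bound of the terms
  have hterm : ∀ i ∈ Finset.range J, ∀ j ∈ Finset.range J,
      g L (((i : ℝ) - j) * δ) (Yn T) ≤ C₁ * (1 + |(i : ℝ) - j|) ^ (-(1 / 2) : ℝ) +
        (J : ℝ) ^ (-(1 / 2) : ℝ) := by
    intro i hi j hj
    have hi' : (i : ℝ) ≤ J := by
      have := Finset.mem_range.mp hi
      exact_mod_cast this.le
    have hj' : (j : ℝ) ≤ J := by
      have := Finset.mem_range.mp hj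
      exact_mod_cast this.le
    have hi0 : (0 : ℝ) ≤ i := Nat.cast_nonneg i
    have hj0 : (0 : ℝ) ≤ j := Nat.cast_nonneg j
    have habs : |((i : ℝ) - j) * δ| = |(i : ℝ) - j| * δ := by
      rw [abs_mul, abs_of_pos hδ0]
    by_cases hc : |((i : ℝ) - j) * δ| ≤ 1
    · have h1 := hG₁ L (((i : ℝ) - j) * δ) (Yn T) hL1 hc hY2'
      have h2 : (1 + |((i : ℝ) - j) * δ| * L) ^ (-(1 / 2) : ℝ) ≤
          (1 + |(i : ℝ) - j|) ^ (-(1 / 2) : ℝ) := by
        apply Real.rpow_le_rpow_of_nonpos (by positivity) _ (by norm_num)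
        rw [habs, mul_assoc]
        nlinarith [abs_nonneg ((i : ℝ) - j)]
      have h3 : C₁ * (1 + |((i : ℝ) - j) * δ| * L) ^ (-(1 / 2) : ℝ) ≤
          C₁ * (1 + |(i : ℝ) - j|) ^ (-(1 / 2) : ℝ) := by gcongr
      have h4 : (0 : ℝ) ≤ (J : ℝ) ^ (-(1 / 2) : ℝ) := by positivity
      linarith
    · push Not at hc
      have hle : |((i : ℝ) - j) * δ| ≤ J * A + 1 := by
        rw [habs]
        have : |(i : ℝ) - j| ≤ J := by
          rw [abs_le]; constructor <;> linarith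
        nlinarith [abs_nonneg ((i : ℝ) - j)]
      have h1 := hG₂ L (((i : ℝ) - j) * δ) (Yn T) hL1 hle hY2'
      have h2 : (1 + |((i : ℝ) - j) * δ| * L) ^ (-(1 / 2) : ℝ) ≤
          (C₂ ^ 2 * J) ^ (-(1 / 2) : ℝ) := by
        apply Real.rpow_le_rpow_of_nonpos (by positivity) _ (by norm_num)
        nlinarith
      have h3 : C₂ * (C₂ ^ 2 * J) ^ (-(1 / 2) : ℝ) = (J : ℝ) ^ (-(1 / 2) : ℝ) := by
        rw [Real.mul_rpow (by positivity) (by positivity)]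
        have : (C₂ ^ 2 : ℝ) ^ (-(1 / 2) : ℝ) = C₂⁻¹ := by
          rw [← Real.rpow_natCast, ← Real.rpow_mul hC₂.le]
          norm_num
          exact Real.rpow_neg_one C₂
        rw [this, ← mul_assoc, mul_inv_cancel₀ hC₂.ne', one_mul]
      have h4 : C₂ * (1 + |((i : ℝ) - j) * δ| * L) ^ (-(1 / 2) : ℝ) ≤
          C₂ * (C₂ ^ 2 * J) ^ (-(1 / 2) : ℝ) := by gcongr
      have h5 : (0 : ℝ) ≤ C₁ * (1 + |(i : ℝ) - j|) ^ (-(1 / 2) : ℝ) := by positivity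
      linarith
  have hsum : ∑ i ∈ Finset.range J, ∑ j ∈ Finset.range J, g L (((i : ℝ) - j) * δ) (Yn T) ≤
      (4 * C₁ + 1) * (J : ℝ) ^ (3 / 2 : ℝ) := by
    have hsq : Real.sqrt J * J = (J : ℝ) ^ (3 / 2 : ℝ) := by
      rw [Real.sqrt_eq_rpow]
      nth_rewrite 2 [← Real.rpow_one (J : ℝ)]
      rw [← Real.rpow_add hJ0]
      norm_num
    have hinv : (J : ℝ) ^ (-(1 / 2) : ℝ) * J * J = (J : ℝ) ^ (3 / 2 : ℝ) := by
      have : (J : ℝ) ^ (-(1 / 2) : ℝ) * J * J =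
          (J : ℝ) ^ (-(1 / 2) : ℝ) * (J : ℝ) ^ (1 : ℝ) * (J : ℝ) ^ (1 : ℝ) := by
        rw [Real.rpow_one]
      rw [this, ← Real.rpow_add hJ0, ← Real.rpow_add hJ0]
      norm_num
    calc ∑ i ∈ Finset.range J, ∑ j ∈ Finset.range J, g L (((i : ℝ) - j) * δ) (Yn T)
        ≤ ∑ i ∈ Finset.range J, ∑ j ∈ Finset.range J,
          (C₁ * (1 + |(i : ℝ) - j|) ^ (-(1 / 2) : ℝ) + (J : ℝ) ^ (-(1 / 2) : ℝ)) :=
          Finset.sum_le_sum fun i hi => Finset.sum_le_sum fun j hj => hterm i hi j hj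
      _ ≤ ∑ i ∈ Finset.range J, (C₁ * (4 * Real.sqrt J) + J * (J : ℝ) ^ (-(1 / 2) : ℝ)) := by
          refine Finset.sum_le_sum fun i hi => ?_
          rw [Finset.sum_add_distrib, ← Finset.mul_sum, Finset.sum_const, Finset.card_range,
            nsmul_eq_mul]
          have := wm_sum2 J i (Finset.mem_range.mp hi)
          gcongr
      _ = (4 * C₁ + 1) * (J : ℝ) ^ (3 / 2 : ℝ) := by
          rw [Finset.sum_const, Finset.card_range, nsmul_eq_mul]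
          linear_combination (4 * C₁) * hsq + hinv
  have hmain := hm T (Wd ψ δ (16 * J * δ) l0) (55 / 100 * L) δ ψ J (by linarith) (by omega) ?_ ?_ ?_
  · rw [← hL] at hmain
    have he : Real.exp (55 / 100 * L / L) ≤ 2 := by
      rw [mul_div_assoc, div_self hL0.ne', mul_one]
      have h1 := Real.exp_bound' (x := 55 / 100) (n := 3) (by norm_num) (by norm_num) (by norm_num)
      norm_num [Finset.sum_range_succ, Nat.factorial] at h1
      linarith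
    have hJpow : (J : ℝ) ^ (3 / 2 : ℝ) = (J : ℝ) ^ (-(1 / 2) : ℝ) * (J : ℝ) ^ 2 := by
      rw [← Real.rpow_natCast, ← Real.rpow_add hJ0]
      norm_num
    calc m T (Wd ψ δ (16 * J * δ) l0)
        ≤ 2 * Real.exp (55 / 100 * L / L) / (J : ℝ) ^ 2 *
          ∑ i ∈ Finset.range J, ∑ j ∈ Finset.range J, g L (((i : ℝ) - j) * δ) (Yn T) := hmain
      _ ≤ 2 * Real.exp (55 / 100 * L / L) / (J : ℝ) ^ 2 *
          ((4 * C₁ + 1) * (J : ℝ) ^ (3 / 2 : ℝ)) := by gcongr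
      _ ≤ 2 * 2 / (J : ℝ) ^ 2 * ((4 * C₁ + 1) * (J : ℝ) ^ (3 / 2 : ℝ)) := by gcongr
      _ = (16 * C₁ + 4) * (J : ℝ) ^ (-(1 / 2) : ℝ) := by
          rw [hJpow]
          field_simp
          ring
  · intro x hx
    obtain ⟨l, -, hl⟩ := hx
    have h1 : 0 ≤ 2 * Real.pi * l / δ := by positivity
    have h2 := (abs_le.mp hl).1
    have h3 : 2 / (16 * (J : ℝ) * δ) ≤ L / 64 := by
      rw [div_le_div_iff₀ (by positivity) (by norm_num)]
      nlinarith [mul_le_mul hJ8 hδL (by norm_num) hJ0.le]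
    linarith
  · have h1 : Real.exp (55 / 100 * L) = T ^ (55 / 100 : ℝ) := by
      rw [Real.rpow_def_of_pos hT0, mul_comm]
    have h2 := hTY T hTT
    have h3 : T ^ (55 / 100 : ℝ) * T ^ (1 / 500 : ℝ) ≤ T := by
      rw [← Real.rpow_add hT0]
      nth_rewrite 2 [← Real.rpow_one T]
      exact Real.rpow_le_rpow_of_exponent_le (by linarith) (by norm_num)
    calc Real.exp (55 / 100 * L) * Yn T ≤ T ^ (55 / 100 : ℝ) * T ^ (1 / 500 : ℝ) := by
          rw [h1]; gcongr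
      _ ≤ T := h3
      _ ≤ 8 * T := by linarith
      _ ≤ Nn T := hN T
  · intro x hx
    obtain ⟨l, -, hl⟩ := hx
    exact wm_avg ψ δ x J l hJ hδ0 hl

end Pool.Agent.Helper647.SG.JWM
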