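import Pool.Agent.Helper647_SG.Br1
import Pool.Agent.Helper647_SG.JWM
import Pool.Agent.Helper647_SG.JFM

set_option autoImplicit false

/-! The bound for the limit of the masses; the mass of the windows; the first moment. -/

namespace Pool.Agent.Helper647.SG

open Complex Filter Topology MeasureTheory Set
open Pool.Agent.Helper647.PT (al bR Bz Pz Yn Nn F1 KE cr bR_supp exp_le_Yn Yn_le Yn_pos Nn_ge Nn_le bR_abs bR_one zp
  sizes)
open Pool.Agent.R304.GR (vt psi exp_vt)

theorem gg : S_GG := by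
  intro R hR
  obtain ⟨C, hC, h⟩ := rsm R hR
  obtain ⟨C', hC', h'⟩ := zb R hR
  refine ⟨C' * C, by positivity, fun L τ Y hL hτ hY => ?_⟩
  have hL0 : 0 < L := by linarith
  have h1 := h L τ Y (Y * Y) hL hτ hY
  have h2 := (h' L (1 / L) (-τ) 0 hL le_rfl (div_le_div_of_nonneg_right (by norm_num) hL0.le)
    (by rwa [abs_neg])).2
  have e1 : (1 + ((1 / L : ℝ) : ℂ) + I * ((-τ + 0 / L : ℝ) : ℂ)) = 1 + sL L τ := by
    unfold sL
    push_cast
    ring
  have e2 : |-τ * L + 0| = |τ| * L := by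
    rw [add_zero, abs_mul, abs_neg, abs_of_pos hL0]
  rw [e1, e2, abs_zero, add_zero, mul_one] at h2
  have hp : 0 < 1 + |τ| * L := by positivity
  unfold GG
  rw [norm_mul]
  have h3 : ‖∑ k ∈ Finset.Icc 1 (Y * Y), Jc (1 + sL L τ) k * Rg (sL L τ) (bR L) Y k ^ 2‖ ≤
      C * (1 + |τ| * L) ^ (1 / 2 : ℝ) / L := by
    refine (norm_sum_le _ _).trans (le_trans (le_of_eq ?_) h1)
    refine Finset.sum_congr rfl fun k _ => ?_
    rw [norm_mul, norm_pow]
  calc _ ≤ (C' * L / (1 + |τ| * L)) * (C * (1 + |τ| * L) ^ (1 / 2 : ℝ) / L) :=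
        mul_le_mul h2 h3 (norm_nonneg _) (by positivity)
    _ = C' * C * ((1 + |τ| * L) ^ (1 / 2 : ℝ) / (1 + |τ| * L)) := by
        field_simp
    _ = C' * C * (1 + |τ| * L) ^ (-(1 / 2) : ℝ) := by
        congr 1
        rw [← Real.rpow_sub_one hp.ne']
        norm_num

theorem wm : S_wm := by
  refine JWM.wm (fun T W => mass (Nn T) (Yn T) (bR (Real.log T)) W) (fun L τ Y => ‖GG (sL L τ) (bR L) Y‖) Yn Nn
    Yn_le (fun T hT => exp_le_Yn hT) Nn_ge gg ?_
  intro T W B δ ω J hT hJ hW hB hk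
  exact ms (Nn T) (Yn T) (bR (Real.log T)) W B (Real.log T) δ ω J
    (fun τ => GG (sL (Real.log T) τ) (bR (Real.log T)) (Yn T)) (Real.log_pos hT) hJ hW hB hk
    (fun τ => gl (Yn T) (bR (Real.log T)) (sL (Real.log T) τ) (by
      unfold sL
      have : 0 < 1 / Real.log T := one_div_pos.2 (Real.log_pos hT)
      simpa using this))

end Pool.Agent.Helper647.SG
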