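import Mathlib

set_option autoImplicit false

namespace Pool.Agent.Helper647.SG.JCP

open Complex Filter Topology MeasureTheory Set

lemma cp_same_sign {ι : Type*} (s : Finset ι) (x φ : ι → ℝ) (hφ : ∀ i ∈ s, 0 ≤ φ i)
    (h : ∀ i ∈ s, ∀ j ∈ s, 0 ≤ x i * x j) : |∑ i ∈ s, x i * φ i| = ∑ i ∈ s, |x i| * φ i := by
  by_cases hp : ∃ i ∈ s, 0 < x i
  · obtain ⟨i0, hi0, hpos⟩ := hp
    have hnn : ∀ i ∈ s, 0 ≤ x i := fun i hi => by
      have := h i hi i0 hi0
      by_contra hneg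
      push Not at hneg
      nlinarith
    rw [abs_of_nonneg (Finset.sum_nonneg fun i hi => mul_nonneg (hnn i hi) (hφ i hi))]
    exact Finset.sum_congr rfl fun i hi => by rw [abs_of_nonneg (hnn i hi)]
  · push Not at hp
    have : ∑ i ∈ s, x i * φ i = -∑ i ∈ s, |x i| * φ i := by
      rw [← Finset.sum_neg_distrib]
      exact Finset.sum_congr rfl fun i hi => by rw [abs_of_nonpos (hp i hi)]; ring
    rw [this, abs_neg,
      abs_of_nonneg (Finset.sum_nonneg fun i hi => mul_nonneg (abs_nonneg _) (hφ i hi))]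

/-- The symmetric integer interval. -/
noncomputable def cpI (n : ℕ) : Finset ℤ := Finset.Icc (-(n : ℤ)) n

lemma mem_cpI {n : ℕ} {j : ℤ} : j ∈ cpI n ↔ -(n : ℤ) ≤ j ∧ j ≤ n := Finset.mem_Icc

lemma cpI_mono {a b : ℕ} (h : a ≤ b) : cpI a ⊆ cpI b := by
  intro j hj
  rw [mem_cpI] at hj ⊢
  omega

lemma card_cpI (n : ℕ) : (cpI n).card = 2 * n + 1 := by
  unfold cpI
  rw [Int.card_Icc]
  omega

lemma cp_lower (x φ : ℤ → ℝ) (c0 κ : ℝ) (K m N : ℕ) (hKm : K ≤ m) (hmN : m ≤ N)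
    (hφ : ∀ j, 0 ≤ φ j) (hlow : ∀ j ∈ cpI K, c0 ≤ φ j) (hc0 : 0 ≤ c0) (hκ : 0 ≤ κ)
    (h : ∀ i ∈ cpI m, ∀ j ∈ cpI m, 0 ≤ x i * x j)
    (hcount : ((cpI K).filter fun j => |x j| < κ).card ≤ K) :
    c0 * κ * (K + 1) - ∑ j ∈ cpI N \ cpI m, |x j| * φ j ≤ |∑ j ∈ cpI N, x j * φ j| := by
  have h1 : ∑ j ∈ cpI N, x j * φ j = (∑ j ∈ cpI N \ cpI m, x j * φ j) + ∑ j ∈ cpI m, x j * φ j :=
    (Finset.sum_sdiff (cpI_mono hmN)).symm
  have h2 : |∑ j ∈ cpI m, x j * φ j| = ∑ j ∈ cpI m, |x j| * φ j :=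
    cp_same_sign _ _ _ (fun i _ => hφ i) h
  have h3 : |∑ j ∈ cpI N \ cpI m, x j * φ j| ≤ ∑ j ∈ cpI N \ cpI m, |x j| * φ j := by
    refine (Finset.abs_sum_le_sum_abs _ _).trans (le_of_eq ?_)
    refine Finset.sum_congr rfl fun i _ => ?_
    rw [abs_mul, abs_of_nonneg (hφ i)]
  have h4 : c0 * κ * (K + 1) ≤ ∑ j ∈ cpI m, |x j| * φ j := by
    have h5 : ∑ j ∈ (cpI K).filter (fun j => ¬ |x j| < κ), c0 * κ ≤ ∑ j ∈ cpI m, |x j| * φ j := by
      refine (Finset.sum_le_sum (g := fun j => |x j| * φ j) ?_).trans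
        (Finset.sum_le_sum_of_subset_of_nonneg ?_ ?_)
      · intro j hj
        rw [Finset.mem_filter] at hj
        obtain ⟨hj1, hj2⟩ := hj
        push Not at hj2
        rw [mul_comm c0 κ]
        exact mul_le_mul hj2 (hlow j hj1) hc0 (abs_nonneg _)
      · exact (Finset.filter_subset _ _).trans (cpI_mono hKm)
      · intro j _ _
        exact mul_nonneg (abs_nonneg _) (hφ j)
    rw [Finset.sum_const, nsmul_eq_mul] at h5
    have h6 : (K + 1 : ℕ) ≤ ((cpI K).filter (fun j => ¬ |x j| < κ)).card := by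
      have := Finset.card_filter_add_card_filter_not (s := cpI K) (fun j => |x j| < κ)
      rw [card_cpI] at this
      omega
    have h7 : ((K + 1 : ℕ) : ℝ) ≤ (((cpI K).filter (fun j => ¬ |x j| < κ)).card : ℝ) := by
      exact_mod_cast h6
    push_cast at h7
    calc c0 * κ * (K + 1) = (K + 1) * (c0 * κ) := by ring
      _ ≤ _ := mul_le_mul_of_nonneg_right h7 (mul_nonneg hc0 hκ)
      _ ≤ _ := h5
  rw [h1]
  have h8 : |∑ j ∈ cpI m, x j * φ j| - |∑ j ∈ cpI N \ cpI m, x j * φ j| ≤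
      |(∑ j ∈ cpI N \ cpI m, x j * φ j) + ∑ j ∈ cpI m, x j * φ j| := by
    have := abs_sub_abs_le_abs_sub (∑ j ∈ cpI m, x j * φ j) (-(∑ j ∈ cpI N \ cpI m, x j * φ j))
    rw [abs_neg, sub_neg_eq_add, add_comm (∑ j ∈ cpI m, x j * φ j)] at this
    exact this
  linarith [h2 ▸ h8]

/-- Markov's inequality on an interval. -/
lemma cp_markov (g : ℝ → ℝ) (hg : Continuous g) (h0 : ∀ u, 0 ≤ g u) (a b ε : ℝ) (hab : a ≤ b)
    (hε : 0 < ε) :
    volume ({u : ℝ | ε ≤ g u} ∩ Icc a b) ≤ ENNReal.ofReal ((∫ u in a..b, g u) / ε) := by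
  have hmeas : MeasurableSet {u : ℝ | ε ≤ g u} := measurableSet_le measurable_const hg.measurable
  have h1 : volume ({u : ℝ | ε ≤ g u} ∩ Icc a b) = (volume.restrict (Icc a b)) {u : ℝ | ε ≤ g u} :=
    (Measure.restrict_apply hmeas).symm
  have hint : Integrable g (volume.restrict (Icc a b)) := hg.continuousOn.integrableOn_Icc
  have h2 := mul_meas_ge_le_integral_of_nonneg (μ := volume.restrict (Icc a b))
    (Eventually.of_forall h0) hint ε
  have h3 : ∫ u, g u ∂(volume.restrict (Icc a b)) = ∫ u in a..b, g u := by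
    rw [intervalIntegral.integral_of_le hab, integral_Icc_eq_integral_Ioc]
  rw [h3] at h2
  rw [h1]
  have hfin : (volume.restrict (Icc a b)) {u : ℝ | ε ≤ g u} ≠ ⊤ := by
    rw [← h1]
    exact ((measure_mono inter_subset_right).trans_lt (by simp)).ne
  rw [← ENNReal.ofReal_toReal hfin]
  apply ENNReal.ofReal_le_ofReal
  rw [le_div_iff₀ hε, mul_comm]
  exact h2

lemma cp_cheb (f : ℝ → ℝ) (hf : Continuous f) (a b ε : ℝ) (hab : a ≤ b) (hε : 0 < ε) :
    volume ({u : ℝ | ε ≤ |f u|} ∩ Icc a b) ≤ ENNReal.ofReal ((∫ u in a..b, f u ^ 2) / ε ^ 2) := by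
  have h := cp_markov (fun u => f u ^ 2) (hf.pow 2) (fun u => sq_nonneg _) a b (ε ^ 2) hab
    (by positivity)
  refine (measure_mono ?_).trans h
  intro u hu
  refine ⟨?_, hu.2⟩
  have : ε ≤ |f u| := hu.1
  show ε ^ 2 ≤ f u ^ 2
  rw [← sq_abs (f u)]
  exact pow_le_pow_left₀ hε.le this 2

lemma cp_count (f : ℝ → ℝ) (hf : Continuous f) (δ κ a b : ℝ) (K : ℕ) (hK : 0 < K) (M : ℝ)
    (hM : ∀ j ∈ cpI K, volume ({u : ℝ | |f (u + δ * j)| < κ} ∩ Icc a b) ≤ ENNReal.ofReal M) :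
    volume ({u : ℝ | K < ((cpI K).filter fun j : ℤ => |f (u + δ * j)| < κ).card} ∩ Icc a b) ≤
      ENNReal.ofReal (3 * M) := by
  classical
  set μ' : Measure ℝ := volume.restrict (Icc a b) with hμ'
  set S : ℤ → Set ℝ := fun j => {u : ℝ | |f (u + δ * j)| < κ} with hS
  have hmeas : ∀ j : ℤ, MeasurableSet (S j) := fun j =>
    measurableSet_lt (by fun_prop) measurable_const
  set g : ℝ → ENNReal := fun u => ∑ j ∈ cpI K, (S j).indicator 1 u with hg
  have hgm : Measurable g := by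
    refine Finset.measurable_sum _ fun j _ => ?_
    exact measurable_one.indicator (hmeas j)
  have hgcard : ∀ u, g u = (((cpI K).filter fun j : ℤ => |f (u + δ * j)| < κ).card : ENNReal) := by
    intro u
    rw [hg]
    simp only [Set.indicator_apply, Pi.one_apply]
    rw [Finset.sum_boole]
    rfl
  have key := mul_meas_ge_le_lintegral (μ := μ') hgm (K : ENNReal)
  have h1 : ∫⁻ u, g u ∂μ' = ∑ j ∈ cpI K, μ' (S j) := by
    rw [hg, lintegral_finsetSum]
    · refine Finset.sum_congr rfl fun j _ => ?_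
      rw [lintegral_indicator_one (hmeas j)]
    · intro j _
      exact measurable_one.indicator (hmeas j)
  have h2 : ∑ j ∈ cpI K, μ' (S j) ≤ (K : ENNReal) * ENNReal.ofReal (3 * M) := by
    have h3 : ∑ j ∈ cpI K, μ' (S j) ≤ ∑ j ∈ cpI K, ENNReal.ofReal M := by
      refine Finset.sum_le_sum fun j hj => ?_
      rw [hμ', Measure.restrict_apply (hmeas j)]
      exact hM j hj
    refine h3.trans ?_
    rw [Finset.sum_const, card_cpI, nsmul_eq_mul, ENNReal.ofReal_mul (by norm_num : (0:ℝ) ≤ 3),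
      ← mul_assoc]
    refine mul_le_mul' ?_ le_rfl
    have : (ENNReal.ofReal 3) = (3 : ℕ) := by norm_num
    rw [this]
    norm_cast
    omega
  have h4 : volume ({u : ℝ | K < ((cpI K).filter fun j : ℤ => |f (u + δ * j)| < κ).card} ∩ Icc a b)
      ≤ μ' {u | (K : ENNReal) ≤ g u} := by
    rw [hμ', Measure.restrict_apply (measurableSet_le measurable_const hgm)]
    refine measure_mono ?_
    intro u hu
    refine ⟨?_, hu.2⟩
    have h5 : K < ((cpI K).filter fun j : ℤ => |f (u + δ * j)| < κ).card := hu.1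
    show (K : ENNReal) ≤ g u
    rw [hgcard]
    exact_mod_cast h5.le
  have h5 : (K : ENNReal) *
      volume ({u : ℝ | K < ((cpI K).filter fun j : ℤ => |f (u + δ * j)| < κ).card} ∩ Icc a b) ≤
      (K : ENNReal) * ENNReal.ofReal (3 * M) := by
    calc _ ≤ (K : ENNReal) * μ' {u | (K : ENNReal) ≤ g u} := mul_le_mul' le_rfl h4
      _ ≤ _ := key
      _ = _ := h1
      _ ≤ _ := h2
  exact (ENNReal.mul_le_mul_iff_right (by exact_mod_cast hK.ne') (by simp)).mp h5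

lemma cp_sum_sq (m N : ℕ) : ∑ j ∈ cpI N \ cpI m, ((j : ℝ) ^ 2)⁻¹ ≤ 4 / (m + 1) := by
  classical
  set A : Finset ℤ := (Finset.Ioo m (N + 1)).image (fun i : ℕ => (i : ℤ)) with hA
  set B : Finset ℤ := (Finset.Ioo m (N + 1)).image (fun i : ℕ => -(i : ℤ)) with hB
  have hsub : cpI N \ cpI m ⊆ A ∪ B := by
    intro j hj
    rw [Finset.mem_sdiff, mem_cpI, mem_cpI] at hj
    obtain ⟨hj1, hj2⟩ := hj
    rw [Finset.mem_union]
    rcases le_or_gt 0 j with h0 | h0
    · left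
      rw [hA, Finset.mem_image]
      refine ⟨j.toNat, ?_, ?_⟩
      · rw [Finset.mem_Ioo]
        omega
      · omega
    · right
      rw [hB, Finset.mem_image]
      refine ⟨(-j).toNat, ?_, ?_⟩
      · rw [Finset.mem_Ioo]
        omega
      · omega
  have h1 : ∑ j ∈ cpI N \ cpI m, ((j : ℝ) ^ 2)⁻¹ ≤ ∑ j ∈ A ∪ B, ((j : ℝ) ^ 2)⁻¹ :=
    Finset.sum_le_sum_of_subset_of_nonneg hsub fun j _ _ => by positivity
  have h2 := Finset.sum_union_inter (s₁ := A) (s₂ := B) (f := fun j : ℤ => ((j : ℝ) ^ 2)⁻¹)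
  have h3 : 0 ≤ ∑ j ∈ A ∩ B, ((j : ℝ) ^ 2)⁻¹ := Finset.sum_nonneg fun j _ => by positivity
  have h4 : ∑ j ∈ A, ((j : ℝ) ^ 2)⁻¹ ≤ 2 / (m + 1) := by
    rw [hA, Finset.sum_image (by intro a _ b _ h; simpa using h)]
    have := sum_Ioo_inv_sq_le (α := ℝ) m (N + 1)
    simpa using this
  have h5 : ∑ j ∈ B, ((j : ℝ) ^ 2)⁻¹ ≤ 2 / (m + 1) := by
    rw [hB, Finset.sum_image (by intro a _ b _ h; simpa using h)]
    have := sum_Ioo_inv_sq_le (α := ℝ) m (N + 1)
    simpa using this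
  have h6 : (4 : ℝ) / (m + 1) = 2 / (m + 1) + 2 / (m + 1) := by ring
  linarith

lemma cp_tail (f : ℝ → ℝ) (hf : Continuous f) (φ : ℤ → ℝ) (S : Finset ℤ) (T δ C3 P : ℝ)
    (hT : 0 < T) (hSM : ∫ t in (T / 4)..(4 * T), f t ^ 2 ≤ C3 * T)
    (hS : ∀ j ∈ S, |δ * j| ≤ T / 2) (hφ0 : ∀ j ∈ S, 0 ≤ φ j) (hφ : ∑ j ∈ S, φ j ≤ P)
    (hC3 : 0 ≤ C3) :
    volume ({u : ℝ | 1 ≤ ∑ j ∈ S, |f (u + δ * j)| * φ j} ∩ Icc T (2 * T)) ≤
      ENNReal.ofReal (P * ((1 + C3) * T)) := by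
  have hT2 : T ≤ 2 * T := by linarith
  have hterm : ∀ j : ℤ, Continuous fun u : ℝ => |f (u + δ * j)| := fun j => by fun_prop
  have hc : Continuous fun u : ℝ => ∑ j ∈ S, |f (u + δ * j)| * φ j := by
    refine continuous_finsetSum _ fun j _ => ?_
    exact (hterm j).mul continuous_const
  have h1 := cp_markov (fun u => ∑ j ∈ S, |f (u + δ * j)| * φ j) hc
    (fun u => Finset.sum_nonneg fun j hj => mul_nonneg (abs_nonneg _) (hφ0 j hj)) T (2 * T) 1 hT2
    one_pos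
  refine h1.trans (ENNReal.ofReal_le_ofReal ?_)
  rw [div_one, intervalIntegral.integral_finsetSum]
  · have h2 : ∀ j ∈ S, ∫ u in T..(2 * T), |f (u + δ * j)| * φ j ≤ ((1 + C3) * T) * φ j := by
      intro j hj
      rw [intervalIntegral.integral_mul_const]
      refine mul_le_mul_of_nonneg_right ?_ (hφ0 j hj)
      have h3 : ∫ u in T..(2 * T), |f (u + δ * j)| ≤
          ∫ u in T..(2 * T), (1 + f (u + δ * j) ^ 2) := by
        refine intervalIntegral.integral_mono_on hT2 ?_ ?_ ?_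
        · exact (hterm j).intervalIntegrable _ _
        · exact Continuous.intervalIntegrable (by fun_prop) _ _
        · intro u _
          have := sq_abs (f (u + δ * j))
          nlinarith [sq_nonneg (|f (u + δ * j)| - 1), abs_nonneg (f (u + δ * j))]
      have h4 : ∫ u in T..(2 * T), (1 + f (u + δ * j) ^ 2) =
          T + ∫ u in (T + δ * j)..(2 * T + δ * j), f u ^ 2 := by
        rw [intervalIntegral.integral_add (by simp)
          (Continuous.intervalIntegrable (by fun_prop) _ _)]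
        rw [intervalIntegral.integral_comp_add_right (fun x => f x ^ 2)]
        simp
        ring
      have h5 : ∫ u in (T + δ * j)..(2 * T + δ * j), f u ^ 2 ≤ ∫ u in (T / 4)..(4 * T), f u ^ 2 := by
        have hb := abs_le.mp (hS j hj)
        refine intervalIntegral.integral_mono_interval ?_ ?_ ?_ ?_ ?_
        · linarith
        · linarith
        · linarith
        · exact Eventually.of_forall fun u => sq_nonneg _
        · exact Continuous.intervalIntegrable (by fun_prop) _ _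
      linarith
    refine (Finset.sum_le_sum h2).trans ?_
    rw [← Finset.mul_sum, mul_comm]
    exact mul_le_mul_of_nonneg_right hφ (by positivity)
  · intro j _
    exact ((hterm j).mul continuous_const).intervalIntegrable _ _

lemma cp_core (f : ℝ → ℝ) (hf : Continuous f) (φ : ℤ → ℝ) (T δ κ c0 C3 M P Q : ℝ)
    (K m N J : ℕ) (hT : 0 < T) (hδ : 0 < δ) (hK : 0 < K) (hKm : K ≤ m) (hmN : m ≤ N)
    (hmJ : 2 * m + 1 ≤ J) (hc0 : 0 < c0) (hκ : 0 < κ) (hbig : 2 ≤ c0 * κ * K)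
    (hφ0 : ∀ j, 0 ≤ φ j) (hlow : ∀ j ∈ cpI K, c0 ≤ φ j) (hS : ∀ j ∈ cpI N, |δ * j| ≤ T / 2)
    (hP : ∑ j ∈ cpI N \ cpI m, φ j ≤ P) (hC3 : 0 ≤ C3)
    (hSM : ∫ t in (T / 4)..(4 * T), f t ^ 2 ≤ C3 * T)
    (hQ : ∫ u in T..(2 * T), (∑ j ∈ cpI N, f (u + δ * j) * φ j) ^ 2 ≤ Q)
    (hM : ∀ j ∈ cpI K, volume ({u : ℝ | |f (u + δ * j)| < κ} ∩ Icc T (2 * T)) ≤ ENNReal.ofReal M)
    (U : Set ℝ) (hU : U ⊆ Icc T (2 * T))
    (hpos : ∀ t ∈ U, ∀ i j : ℕ, i < J → j < J → 0 ≤ f (t + δ * i) * f (t + δ * j)) :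
    volume U ≤ ENNReal.ofReal (m * δ) + ENNReal.ofReal (Q / (c0 * κ * K / 2) ^ 2) +
      ENNReal.ofReal (P * ((1 + C3) * T)) + ENNReal.ofReal (3 * M) := by
  have hT2 : T ≤ 2 * T := by linarith
  have hKr : (0 : ℝ) < K := by exact_mod_cast hK
  set SS : ℝ → ℝ := fun u => ∑ j ∈ cpI N, f (u + δ * j) * φ j with hSS
  have hSSc : Continuous SS := by
    refine continuous_finsetSum _ fun j _ => ?_
    exact Continuous.mul (by fun_prop) continuous_const
  set B1 : Set ℝ := Ioc (2 * T) (2 * T + m * δ) with hB1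
  set B2 : Set ℝ := {u : ℝ | c0 * κ * K / 2 ≤ |SS u|} ∩ Icc T (2 * T) with hB2
  set B3 : Set ℝ := {u : ℝ | 1 ≤ ∑ j ∈ cpI N \ cpI m, |f (u + δ * j)| * φ j} ∩ Icc T (2 * T) with hB3
  set B4 : Set ℝ := {u : ℝ | K < ((cpI K).filter fun j : ℤ => |f (u + δ * j)| < κ).card} ∩
    Icc T (2 * T) with hB4
  have hsub : U ⊆ (fun t => t + m * δ) ⁻¹' (B1 ∪ B2 ∪ B3 ∪ B4) := by
    intro t ht
    show t + m * δ ∈ B1 ∪ B2 ∪ B3 ∪ B4
    have htI := hU ht
    have hmδ : 0 ≤ (m : ℝ) * δ := by positivity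
    by_cases h1 : t + m * δ ∈ B1
    · exact Or.inl (Or.inl (Or.inl h1))
    have hu : t + m * δ ∈ Icc T (2 * T) := by
      refine ⟨by linarith [htI.1], ?_⟩
      by_contra hcon
      push Not at hcon
      exact h1 ⟨hcon, by linarith [htI.2]⟩
    by_cases h2 : t + m * δ ∈ B2
    · exact Or.inl (Or.inl (Or.inr h2))
    by_cases h3 : t + m * δ ∈ B3
    · exact Or.inl (Or.inr h3)
    by_cases h4 : t + m * δ ∈ B4
    · exact Or.inr h4
    exfalso
    have h2' : |SS (t + m * δ)| < c0 * κ * K / 2 := by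
      by_contra hcon
      push Not at hcon
      exact h2 ⟨hcon, hu⟩
    have h3' : ∑ j ∈ cpI N \ cpI m, |f (t + m * δ + δ * j)| * φ j < 1 := by
      by_contra hcon
      push Not at hcon
      exact h3 ⟨hcon, hu⟩
    have h4' : ((cpI K).filter fun j : ℤ => |f (t + m * δ + δ * j)| < κ).card ≤ K := by
      by_contra hcon
      push Not at hcon
      exact h4 ⟨hcon, hu⟩
    have h5 := cp_lower (fun j : ℤ => f (t + m * δ + δ * j)) φ c0 κ K m N hKm hmN hφ0 hlow hc0.le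
      hκ.le (by
        intro i hi j hj
        rw [mem_cpI] at hi hj
        have e1 : ∀ i : ℤ, -(m : ℤ) ≤ i → t + m * δ + δ * i = t + δ * ((m + i).toNat : ℕ) := by
          intro i hi
          have : (((m + i).toNat : ℕ) : ℝ) = m + i := by
            have h6 : (((m + i).toNat : ℕ) : ℤ) = m + i := Int.toNat_of_nonneg (by omega)
            exact_mod_cast congrArg (fun z : ℤ => (z : ℝ)) h6
          rw [this]
          ring
        show 0 ≤ f (t + m * δ + δ * i) * f (t + m * δ + δ * j)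
        rw [e1 i hi.1, e1 j hj.1]
        apply hpos t ht
        · omega
        · omega) h4'
    have h6 : |∑ j ∈ cpI N, f (t + m * δ + δ * j) * φ j| = |SS (t + m * δ)| := rfl
    have h7 : 0 < c0 * κ := mul_pos hc0 hκ
    rw [h6] at h5
    nlinarith
  have h1 : volume B1 ≤ ENNReal.ofReal (m * δ) := by
    rw [hB1, Real.volume_Ioc]
    exact ENNReal.ofReal_le_ofReal (by linarith)
  have h2 : volume B2 ≤ ENNReal.ofReal (Q / (c0 * κ * K / 2) ^ 2) := by
    refine (cp_cheb SS hSSc T (2 * T) _ hT2 (by positivity)).trans (ENNReal.ofReal_le_ofReal ?_)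
    exact div_le_div_of_nonneg_right hQ (by positivity)
  have h3 : volume B3 ≤ ENNReal.ofReal (P * ((1 + C3) * T)) :=
    cp_tail f hf φ (cpI N \ cpI m) T δ C3 P hT hSM (fun j hj => hS j (Finset.mem_sdiff.mp hj).1)
      (fun j _ => hφ0 j) hP hC3
  have h4 : volume B4 ≤ ENNReal.ofReal (3 * M) := cp_count f hf δ κ T (2 * T) K hK M hM
  calc volume U ≤ volume ((fun t => t + m * δ) ⁻¹' (B1 ∪ B2 ∪ B3 ∪ B4)) := measure_mono hsub
    _ = volume (B1 ∪ B2 ∪ B3 ∪ B4) := measure_preimage_add_right _ _ _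
    _ ≤ volume B1 + volume B2 + volume B3 + volume B4 := by
      refine (measure_union_le _ _).trans (add_le_add ?_ le_rfl)
      refine (measure_union_le _ _).trans (add_le_add ?_ le_rfl)
      exact measure_union_le _ _
    _ ≤ _ := add_le_add (add_le_add (add_le_add h1 h2) h3) h4

lemma cp_tail_sum (E : ℝ → ℝ) (CE : ℝ) (hdec : ∀ v : ℝ, |E v| ≤ CE / (1 + v ^ 2) ^ 40)
    (hCE : 0 < CE) (K J m N : ℕ) (hK : 0 < K) (hKJ : K ^ 2 ≤ J) (hmJ : J ≤ 2 * (m + 1)) :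
    ∑ j ∈ cpI N \ cpI m, E ((j : ℝ) / K) ^ 2 ≤ 32 * CE ^ 2 / J := by
  have hKr : (0 : ℝ) < K := by exact_mod_cast hK
  have hJr : (0 : ℝ) < J := by
    have : 0 < K ^ 2 := by positivity
    exact_mod_cast lt_of_lt_of_le this hKJ
  have hKJr : (K : ℝ) ^ 2 ≤ J := by exact_mod_cast hKJ
  have hmJr : (J : ℝ) ≤ 2 * (m + 1) := by exact_mod_cast hmJ
  have hterm : ∀ j ∈ cpI N \ cpI m, E ((j : ℝ) / K) ^ 2 ≤ 4 * CE ^ 2 * ((j : ℝ) ^ 2)⁻¹ := by
    intro j hj
    rw [Finset.mem_sdiff, mem_cpI, mem_cpI] at hj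
    have hj1 : (m + 1 : ℤ) ≤ |j| := by
      rcases le_or_gt 0 j with h | h
      · rw [abs_of_nonneg h]; omega
      · rw [abs_of_neg h]; omega
    have hj2 : ((m : ℝ) + 1) ≤ |(j : ℝ)| := by
      have := (Int.cast_le (R := ℝ)).mpr hj1
      push_cast at this
      exact this
    have hj3 : (J : ℝ) / 2 ≤ |(j : ℝ)| := by linarith
    have hj4 : 0 < |(j : ℝ)| := by linarith [half_pos hJr]
    have hj5 : (0 : ℝ) < (j : ℝ) ^ 2 := by rw [← sq_abs]; positivity
    have hj6 : (J : ℝ) ^ 2 / 4 ≤ (j : ℝ) ^ 2 := by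
      rw [← sq_abs (j : ℝ)]
      nlinarith
    have h1 : E ((j : ℝ) / K) ^ 2 ≤ (CE / (1 + ((j : ℝ) / K) ^ 2) ^ 40) ^ 2 := by
      rw [← sq_abs (E _)]
      exact pow_le_pow_left₀ (abs_nonneg _) (hdec _) 2
    set w : ℝ := ((j : ℝ) / K) ^ 2 with hw
    have hw0 : 0 < w := by rw [hw, div_pow]; positivity
    have h2 : w ≤ (1 + w) ^ 40 := by
      calc w ≤ 1 + w := by linarith
        _ = (1 + w) ^ 1 := (pow_one _).symm
        _ ≤ (1 + w) ^ 40 := pow_le_pow_right₀ (by linarith) (by norm_num)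
    have h3 : (CE / (1 + w) ^ 40) ^ 2 ≤ (CE / w) ^ 2 := by
      refine pow_le_pow_left₀ (by positivity) ?_ 2
      exact div_le_div_of_nonneg_left hCE.le hw0 h2
    refine h1.trans (h3.trans ?_)
    have h4 : (CE / w) ^ 2 = CE ^ 2 * ((K : ℝ) ^ 4 / ((j : ℝ) ^ 2) ^ 2) := by
      rw [hw]
      field_simp
    rw [h4]
    have h5 : (K : ℝ) ^ 4 / ((j : ℝ) ^ 2) ^ 2 ≤ 4 * ((j : ℝ) ^ 2)⁻¹ := by
      rw [div_le_iff₀ (by positivity)]
      have h6 : 4 * ((j : ℝ) ^ 2)⁻¹ * ((j : ℝ) ^ 2) ^ 2 = 4 * (j : ℝ) ^ 2 := by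
        field_simp
      rw [h6]
      have h7 : (K : ℝ) ^ 4 ≤ (J : ℝ) ^ 2 := by
        calc (K : ℝ) ^ 4 = ((K : ℝ) ^ 2) ^ 2 := by ring
          _ ≤ (J : ℝ) ^ 2 := pow_le_pow_left₀ (by positivity) hKJr 2
      linarith
    calc CE ^ 2 * ((K : ℝ) ^ 4 / ((j : ℝ) ^ 2) ^ 2) ≤ CE ^ 2 * (4 * ((j : ℝ) ^ 2)⁻¹) :=
          mul_le_mul_of_nonneg_left h5 (by positivity)
      _ = _ := by ring
  refine (Finset.sum_le_sum hterm).trans ?_
  rw [← Finset.mul_sum]
  have h8 := cp_sum_sq m N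
  have h9 : (4 : ℝ) / (m + 1) ≤ 8 / J := by
    rw [div_le_div_iff₀ (by positivity) hJr]
    linarith
  calc 4 * CE ^ 2 * ∑ j ∈ cpI N \ cpI m, ((j : ℝ) ^ 2)⁻¹ ≤ 4 * CE ^ 2 * (8 / J) :=
        mul_le_mul_of_nonneg_left (h8.trans h9) (by positivity)
    _ = _ := by ring

/-- Numerics for the choice of `K`. -/
lemma cp_numerics (c0 : ℝ) (hc0 : 0 < c0) (J : ℕ) (hJ : 65536 + 64 / c0 ^ 4 ≤ (J : ℝ)) :
    ∃ J' K : ℕ, K = 16 * J' ∧ 16 ≤ J' ∧ K ^ 2 ≤ J ∧ J < 4 * K ^ 2 ∧ 4 / c0 ^ 2 ≤ (K : ℝ) := by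
  have hJ1 : 65536 ≤ J := by
    have h0 : (0 : ℝ) < 64 / c0 ^ 4 := by positivity
    have : (65536 : ℝ) ≤ J := by linarith
    exact_mod_cast this
  have h256 : 256 ≤ Nat.sqrt J := by
    rw [Nat.le_sqrt]
    omega
  refine ⟨Nat.sqrt J / 16, 16 * (Nat.sqrt J / 16), rfl, by omega, ?_, ?_, ?_⟩
  · have h1 : 16 * (Nat.sqrt J / 16) ≤ Nat.sqrt J := by omega
    have h2 := Nat.sqrt_le' J
    exact (Nat.pow_le_pow_left h1 2).trans h2
  · have h1 : Nat.sqrt J + 1 ≤ 2 * (16 * (Nat.sqrt J / 16)) := by omega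
    have h2 := Nat.lt_succ_sqrt' J
    have h3 := Nat.pow_le_pow_left h1 2
    have h4 : (2 * (16 * (Nat.sqrt J / 16))) ^ 2 = 4 * (16 * (Nat.sqrt J / 16)) ^ 2 := by ring
    rw [h4] at h3
    exact lt_of_lt_of_le h2 h3
  · have h1 : Nat.sqrt J + 1 ≤ 2 * (16 * (Nat.sqrt J / 16)) := by omega
    have h2 := Nat.lt_succ_sqrt' J
    have h3 := Nat.pow_le_pow_left h1 2
    have h4 : (J : ℝ) ≤ 4 * ((16 * (Nat.sqrt J / 16) : ℕ) : ℝ) ^ 2 := by
      have h5 : (J : ℝ) ≤ ((2 * (16 * (Nat.sqrt J / 16)) : ℕ) : ℝ) ^ 2 := by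
        exact_mod_cast (h2.le.trans h3)
      push_cast at h5 ⊢
      linarith
    have h6 : (4 / c0 ^ 2) ^ 2 ≤ ((16 * (Nat.sqrt J / 16) : ℕ) : ℝ) ^ 2 := by
      have h7 : (4 / c0 ^ 2) ^ 2 = 16 / c0 ^ 4 := by
        field_simp
        ring
      have h8 : 64 / c0 ^ 4 = 4 * (16 / c0 ^ 4) := by ring
      rw [h7]
      linarith
    exact (pow_le_pow_iff_left₀ (by positivity) (by positivity) (by norm_num)).mp h6

set_option maxHeartbeats 1000000 in
theorem cp (X : ℝ → ℝ → ℝ) (E : ℝ → ℝ) (c0 CE : ℝ) (hX : ∀ T, Continuous (X T)) (hE : Continuous E) (hc0 : 0 < c0)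
    (hCE : 0 < CE) (hdec : ∀ v : ℝ, |E v| ≤ CE / (1 + v ^ 2) ^ 40) (hlow : ∀ v : ℝ, |v| ≤ 1 → c0 ≤ E v ^ 2)
    (hsm : ∃ C1 : ℝ, 0 < C1 ∧ ∀ (A : ℝ) (J : ℕ), 1 ≤ A → 8 ≤ J →
      ∃ T0 : ℝ, 8 ≤ T0 ∧ ∀ T δ : ℝ, T0 ≤ T → 1 / Real.log T ≤ δ → δ ≤ A →
        ∫ u in T..(2 * T), (∑ j ∈ Finset.Icc (-(⌊T ^ (1 / 30 : ℝ)⌋₊ : ℤ)) ⌊T ^ (1 / 30 : ℝ)⌋₊,
          X T (u + δ * j) * E (δ * j / (16 * J * δ)) ^ 2) ^ 2 ≤ C1 * (J : ℝ) ^ (3 / 2 : ℝ) * T)
    (hSM : ∃ C3 T1 : ℝ, 0 < C3 ∧ 8 ≤ T1 ∧ ∀ T : ℝ, T1 ≤ T → ∫ t in (T / 4)..(4 * T), X T t ^ 2 ≤ C3 * T)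
    (hsv : ∃ C T1 : ℝ, 0 < C ∧ 8 ≤ T1 ∧ ∀ T κ : ℝ, T1 ≤ T → 0 < κ → κ ≤ 1 / 2 →
      volume ({t : ℝ | |X T t| < κ} ∩ Icc (T / 2) (5 / 2 * T)) ≤ ENNReal.ofReal (C * T / Real.log (1 / κ))) :
    ∃ C : ℝ, 0 < C ∧ ∀ (A : ℝ) (J : ℕ), 1 ≤ A → 2 ≤ J → ∃ T0 : ℝ, ∀ T δ : ℝ, T0 ≤ T → 1 / Real.log T ≤ δ → δ ≤ A →
      ∀ U : Set ℝ, U ⊆ Icc T (2 * T) → (∀ t ∈ U, ∀ i j : ℕ, i < J → j < J → 0 ≤ X T (t + δ * i) * X T (t + δ * j)) →
        volume U ≤ ENNReal.ofReal (C / Real.log J * T) := by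
  obtain ⟨C1, hC1, hsm⟩ := hsm
  obtain ⟨C3, T1, hC3, hT1, hSM⟩ := hSM
  obtain ⟨C, T2, hC, hT2, hsv⟩ := hsv
  set J0 : ℝ := 65536 + 64 / c0 ^ 4 with hJ0
  have hJ0pos : 65536 < J0 := by
    have : (0 : ℝ) < 64 / c0 ^ 4 := by positivity
    linarith
  have hlogJ0 : 0 ≤ Real.log J0 := Real.log_nonneg (by linarith)
  have hCt1 : 0 ≤ 48 * C1 / c0 ^ 2 := by positivity
  have hCt2 : 0 ≤ 32 * CE ^ 2 * (1 + C3) := by positivity
  refine ⟨1 + 48 * C1 / c0 ^ 2 + 32 * CE ^ 2 * (1 + C3) + 72 * C + Real.log J0, by positivity, ?_⟩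
  intro A J hA hJ2
  have hJr2 : (2 : ℝ) ≤ J := by exact_mod_cast hJ2
  have hlogJ : 0 < Real.log J := Real.log_pos (by linarith)
  by_cases hJ : (J : ℝ) < J0
  · refine ⟨1, fun T δ hT _ _ U hU _ => ?_⟩
    calc volume U ≤ volume (Icc T (2 * T)) := measure_mono hU
      _ = ENNReal.ofReal T := by rw [Real.volume_Icc]; congr 1; ring
      _ ≤ _ := by
        apply ENNReal.ofReal_le_ofReal
        have h1 : Real.log J ≤ Real.log J0 := Real.log_le_log (by linarith) hJ.le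
        have h2 : 1 ≤ (1 + 48 * C1 / c0 ^ 2 + 32 * CE ^ 2 * (1 + C3) + 72 * C + Real.log J0) /
            Real.log J := by
          rw [le_div_iff₀ hlogJ]
          linarith
        nlinarith
  · push Not at hJ
    obtain ⟨J', K, hKJ', hJ'16, hKJ, hJK, hKc⟩ := cp_numerics c0 hc0 J hJ
    obtain ⟨T0, hT0, hsm⟩ := hsm A J' hA (by omega)
    refine ⟨max (max T0 T1) (max T2 (max ((J : ℝ) ^ 30) (max (4 * A ^ 2) (J * A * Real.log J)))), ?_⟩
    intro T δ hT hδ1 hδ2 U hU hpos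
    have hTT0 : T0 ≤ T := ((le_max_left _ _).trans (le_max_left _ _)).trans hT
    have hTT1 : T1 ≤ T := ((le_max_right _ _).trans (le_max_left _ _)).trans hT
    have hT' := (le_max_right _ _).trans hT
    have hTT2 : T2 ≤ T := (le_max_left _ _).trans hT'
    have hT'' := (le_max_right _ _).trans hT'
    have hTJ : (J : ℝ) ^ 30 ≤ T := (le_max_left _ _).trans hT''
    have hT''' := (le_max_right _ _).trans hT''
    have hTA : 4 * A ^ 2 ≤ T := (le_max_left _ _).trans hT'''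
    have hTL : J * A * Real.log J ≤ T := (le_max_right _ _).trans hT'''
    have hT8 : 8 ≤ T := hT0.trans hTT0
    have hTpos : 0 < T := by linarith
    have hδpos : 0 < δ := lt_of_lt_of_le (by
      have : 0 < Real.log T := Real.log_pos (by linarith)
      positivity) hδ1
    have hK256 : 256 ≤ K := by omega
    have hKr : (256 : ℝ) ≤ K := by exact_mod_cast hK256
    have hKpos : (0 : ℝ) < K := by linarith
    set N : ℕ := ⌊T ^ (1 / 30 : ℝ)⌋₊ with hN
    set m : ℕ := (J - 1) / 2 with hm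
    have hKm : K ≤ m := by
      have h1 : 2 * K + 1 ≤ K ^ 2 := by nlinarith
      omega
    have hJN : J ≤ N := by
      apply Nat.le_floor
      have h1 : (J : ℝ) = ((J : ℝ) ^ 30) ^ (1 / 30 : ℝ) := by
        rw [← Real.rpow_natCast, ← Real.rpow_mul (by positivity)]
        norm_num
      rw [h1]
      exact Real.rpow_le_rpow (by positivity) hTJ (by norm_num)
    have hmN : m ≤ N := by omega
    have hmJ : 2 * m + 1 ≤ J := by omega
    have hS : ∀ j ∈ cpI N, |δ * j| ≤ T / 2 := by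
      intro j hj
      rw [mem_cpI] at hj
      have h1 : |(j : ℝ)| ≤ N := by
        rw [abs_le]
        constructor
        · exact_mod_cast hj.1
        · exact_mod_cast hj.2
      have h2 : (N : ℝ) ≤ T ^ (1 / 30 : ℝ) := Nat.floor_le (by positivity)
      have h3 : T ^ (1 / 30 : ℝ) ≤ T ^ (1 / 2 : ℝ) :=
        Real.rpow_le_rpow_of_exponent_le (by linarith) (by norm_num)
      have h4 : T ^ (1 / 2 : ℝ) = √T := (Real.sqrt_eq_rpow T).symm
      have h5 : 2 * A ≤ √T := Real.le_sqrt_of_sq_le (by nlinarith)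
      have h6 : √T * √T = T := Real.mul_self_sqrt hTpos.le
      rw [abs_mul, abs_of_pos hδpos]
      have h7 : |(j : ℝ)| ≤ √T := by linarith
      calc δ * |(j : ℝ)| ≤ A * √T := mul_le_mul hδ2 h7 (abs_nonneg _) (by linarith)
        _ ≤ T / 2 := by nlinarith [Real.sqrt_nonneg T]
    -- κ
    set κ : ℝ := ((K : ℝ) ^ (1 / 8 : ℝ))⁻¹ with hκ
    have hK8 : (2 : ℝ) ≤ (K : ℝ) ^ (1 / 8 : ℝ) := by
      have h1 : (2 : ℝ) = ((256 : ℝ)) ^ (1 / 8 : ℝ) := by
        rw [show (256 : ℝ) = (2 : ℝ) ^ (8 : ℝ) by norm_num, ← Real.rpow_mul (by norm_num)]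
        norm_num
      rw [h1]
      exact Real.rpow_le_rpow (by norm_num) hKr (by norm_num)
    have hκpos : 0 < κ := by positivity
    have hκhalf : κ ≤ 1 / 2 := by
      rw [hκ, one_div (2 : ℝ)]
      exact inv_anti₀ (by norm_num) hK8
    set L : ℝ := (K : ℝ) ^ (1 / 8 : ℝ) with hL
    have hLpos : 0 < L := by linarith
    have hL8 : L ^ 8 = K := by
      rw [hL, ← Real.rpow_natCast, ← Real.rpow_mul hKpos.le]
      norm_num
    have hκL : κ = L⁻¹ := rfl
    have hbig : 2 ≤ c0 * κ * K := by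
      have h1 : 4 / c0 ^ 2 ≤ L ^ 8 := by rw [hL8]; exact hKc
      have h2 : 2 / c0 ≤ L ^ 4 := by
        have h3 : (2 / c0) ^ 2 ≤ (L ^ 4) ^ 2 := by
          have : (2 / c0) ^ 2 = 4 / c0 ^ 2 := by rw [div_pow]; norm_num
          rw [this]
          calc 4 / c0 ^ 2 ≤ L ^ 8 := h1
            _ = (L ^ 4) ^ 2 := by ring
        exact (pow_le_pow_iff_left₀ (by positivity) (by positivity) (by norm_num)).mp h3
      have h4 : κ * K = L ^ 7 := by
        rw [← hL8, hκL]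
        field_simp
      have h5 : L ^ 4 ≤ L ^ 7 := pow_le_pow_right₀ (by linarith) (by norm_num)
      rw [mul_assoc, h4]
      have h6 : 2 / c0 ≤ L ^ 7 := h2.trans h5
      rw [div_le_iff₀ hc0] at h6
      linarith
    have hlogK : Real.log J ≤ 3 * Real.log K := by
      have h1 : (J : ℝ) ≤ (K : ℝ) ^ 3 := by
        have h2 : J ≤ K ^ 3 := by
          have h3 : 4 * K ^ 2 ≤ K * K ^ 2 := Nat.mul_le_mul_right _ (by omega)
          have h4 : K * K ^ 2 = K ^ 3 := by ring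
          omega
        exact_mod_cast h2
      calc Real.log J ≤ Real.log ((K : ℝ) ^ 3) := Real.log_le_log (by linarith) h1
        _ = 3 * Real.log K := by rw [Real.log_pow]; norm_num
    have hlogL : Real.log K = 8 * Real.log L := by
      rw [← hL8, Real.log_pow]
      norm_num
    have hlogJL : Real.log J ≤ 24 * Real.log L := by linarith
    have hκsq : κ ^ 2 ≤ 12 / Real.log J := by
      rw [le_div_iff₀ hlogJ, hκL, inv_pow, inv_mul_le_iff₀ (by positivity)]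
      have h1 : Real.log L ≤ L ^ 2 / 2 := by
        have := Real.log_le_rpow_div hLpos.le (show (0 : ℝ) < 2 by norm_num)
        calc Real.log L ≤ L ^ (2 : ℝ) / 2 := this
          _ = L ^ 2 / 2 := by norm_num
      linarith
    -- the weights
    have hφ : ∀ j : ℤ, E (δ * j / (16 * J' * δ)) ^ 2 = E ((j : ℝ) / K) ^ 2 := by
      intro j
      have hJ'pos : (0 : ℝ) < J' := by
        have : 0 < J' := by omega
        exact_mod_cast this
      have : δ * j / (16 * J' * δ) = (j : ℝ) / K := by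
        rw [hKJ']
        push_cast
        field_simp
      rw [this]
    have hQ := hsm T δ hTT0 hδ1 hδ2
    simp_rw [hφ] at hQ
    have hlow' : ∀ j ∈ cpI K, c0 ≤ E ((j : ℝ) / K) ^ 2 := by
      intro j hj
      rw [mem_cpI] at hj
      apply hlow
      rw [abs_div, abs_of_pos hKpos, div_le_one hKpos, abs_le]
      constructor
      · exact_mod_cast hj.1
      · exact_mod_cast hj.2
    have hP := cp_tail_sum E CE hdec hCE K J m N (by omega) hKJ (by omega)
    have hM : ∀ j ∈ cpI K, volume ({u : ℝ | |X T (u + δ * j)| < κ} ∩ Icc T (2 * T)) ≤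
        ENNReal.ofReal (C * T / Real.log (1 / κ)) := by
      intro j hj
      have h1 := hsv T κ hTT2 hκpos hκhalf
      have h2 := hS j (cpI_mono (hKm.trans hmN) hj)
      refine le_trans (measure_mono ?_)
        ((measure_preimage_add_right volume (δ * j)
          ({t : ℝ | |X T t| < κ} ∩ Icc (T / 2) (5 / 2 * T))).le.trans h1)
      intro u hu
      have h3 := abs_le.mp h2
      refine ⟨hu.1, ?_, ?_⟩
      · show T / 2 ≤ u + δ * j
        linarith [hu.2.1]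
      · show u + δ * j ≤ 5 / 2 * T
        linarith [hu.2.2]
    have hcore := cp_core (X T) (hX T) (fun j : ℤ => E ((j : ℝ) / K) ^ 2) T δ κ c0 C3
      (C * T / Real.log (1 / κ)) (32 * CE ^ 2 / J) (C1 * (J' : ℝ) ^ (3 / 2 : ℝ) * T) K m N J hTpos
      hδpos (by omega) hKm hmN hmJ hc0 hκpos hbig (fun j => sq_nonneg _) hlow' hS hP hC3.le
      (hSM T hTT1) hQ hM U hU hpos
    refine hcore.trans ?_
    have hlogL0 : 0 < Real.log L := by linarith
    have hlogκ : Real.log (1 / κ) = Real.log L := by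
      rw [hκL]
      simp
    -- four bounds
    have b1 : (m : ℝ) * δ ≤ 1 / Real.log J * T := by
      rw [div_mul_eq_mul_div, one_mul, le_div_iff₀ hlogJ]
      refine le_trans ?_ hTL
      have h1 : (m : ℝ) ≤ J := by
        have : m ≤ J := by omega
        exact_mod_cast this
      exact mul_le_mul_of_nonneg_right (mul_le_mul h1 hδ2 hδpos.le (by positivity)) hlogJ.le
    have b2 : C1 * (J' : ℝ) ^ (3 / 2 : ℝ) * T / (c0 * κ * K / 2) ^ 2 ≤
        48 * C1 / c0 ^ 2 / Real.log J * T := by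
      have h1 : (J' : ℝ) ^ (3 / 2 : ℝ) ≤ L ^ 12 := by
        have h2 : (J' : ℝ) ≤ K := by
          have : J' ≤ K := by omega
          exact_mod_cast this
        calc (J' : ℝ) ^ (3 / 2 : ℝ) ≤ (K : ℝ) ^ (3 / 2 : ℝ) :=
              Real.rpow_le_rpow (by positivity) h2 (by norm_num)
          _ = L ^ 12 := by
            rw [hL, ← Real.rpow_natCast, ← Real.rpow_mul hKpos.le]
            norm_num
      have h3 : (c0 * κ * K / 2) ^ 2 = c0 ^ 2 * L ^ 14 / 4 := by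
        rw [hκL, ← hL8]
        field_simp
        ring
      rw [h3, div_le_iff₀ (by positivity)]
      have h4 : κ ^ 2 * L ^ 2 = 1 := by
        rw [hκL]
        field_simp
      have h5 : 1 ≤ 12 / Real.log J * L ^ 2 := by
        rw [← h4]
        exact mul_le_mul_of_nonneg_right hκsq (by positivity)
      calc C1 * (J' : ℝ) ^ (3 / 2 : ℝ) * T ≤ C1 * L ^ 12 * T := by
            have := mul_le_mul_of_nonneg_left h1 hC1.le
            exact mul_le_mul_of_nonneg_right this hTpos.le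
        _ = C1 * L ^ 12 * T * 1 := by ring
        _ ≤ C1 * L ^ 12 * T * (12 / Real.log J * L ^ 2) :=
            mul_le_mul_of_nonneg_left h5 (by positivity)
        _ = 48 * C1 / c0 ^ 2 / Real.log J * T * (c0 ^ 2 * L ^ 14 / 4) := by
            field_simp
            ring
    have b3 : 32 * CE ^ 2 / J * ((1 + C3) * T) ≤ 32 * CE ^ 2 * (1 + C3) / Real.log J * T := by
      have h1 : Real.log J ≤ J := (Real.log_le_sub_one_of_pos (by linarith)).trans (by linarith)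
      have h2 : 32 * CE ^ 2 * (1 + C3) / J ≤ 32 * CE ^ 2 * (1 + C3) / Real.log J :=
        div_le_div_of_nonneg_left hCt2 hlogJ h1
      calc 32 * CE ^ 2 / J * ((1 + C3) * T) = 32 * CE ^ 2 * (1 + C3) / J * T := by ring
        _ ≤ _ := mul_le_mul_of_nonneg_right h2 hTpos.le
    have b4 : 3 * (C * T / Real.log (1 / κ)) ≤ 72 * C / Real.log J * T := by
      rw [hlogκ]
      have h1 : C * T / Real.log L ≤ C * T / (Real.log J / 24) :=
        div_le_div_of_nonneg_left (by positivity) (by positivity) (by linarith)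
      calc 3 * (C * T / Real.log L) ≤ 3 * (C * T / (Real.log J / 24)) := by linarith
        _ = _ := by field_simp; norm_num
    have p1 : 0 ≤ 1 / Real.log J * T := by positivity
    have p2 : 0 ≤ 48 * C1 / c0 ^ 2 / Real.log J * T := by positivity
    have p3 : 0 ≤ 32 * CE ^ 2 * (1 + C3) / Real.log J * T := by positivity
    have p4 : 0 ≤ 72 * C / Real.log J * T := by positivity
    calc _ ≤ ENNReal.ofReal (1 / Real.log J * T) +
          ENNReal.ofReal (48 * C1 / c0 ^ 2 / Real.log J * T) +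
          ENNReal.ofReal (32 * CE ^ 2 * (1 + C3) / Real.log J * T) +
          ENNReal.ofReal (72 * C / Real.log J * T) :=
          add_le_add (add_le_add (add_le_add (ENNReal.ofReal_le_ofReal b1)
            (ENNReal.ofReal_le_ofReal b2)) (ENNReal.ofReal_le_ofReal b3))
            (ENNReal.ofReal_le_ofReal b4)
      _ = ENNReal.ofReal (1 / Real.log J * T + 48 * C1 / c0 ^ 2 / Real.log J * T +
          32 * CE ^ 2 * (1 + C3) / Real.log J * T + 72 * C / Real.log J * T) := by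
          rw [ENNReal.ofReal_add (by positivity) p4, ENNReal.ofReal_add (by positivity) p3,
            ENNReal.ofReal_add p1 p2]
      _ ≤ _ := by
          apply ENNReal.ofReal_le_ofReal
          have h1 : (1 + 48 * C1 / c0 ^ 2 + 32 * CE ^ 2 * (1 + C3) + 72 * C + Real.log J0) /
              Real.log J * T = 1 / Real.log J * T + 48 * C1 / c0 ^ 2 / Real.log J * T +
              32 * CE ^ 2 * (1 + C3) / Real.log J * T + 72 * C / Real.log J * T +
              Real.log J0 / Real.log J * T := by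
            ring
          rw [h1]
          have : 0 ≤ Real.log J0 / Real.log J * T := by positivity
          linarith

end Pool.Agent.Helper647.SG.JCP

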