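import Mathlib

set_option autoImplicit false

namespace Pool.Agent.Helper647.SG.JDF

open Filter Topology MeasureTheory Set

theorem df_sum_aux (L : ℝ) (hL : 1 ≤ L) (n : ℕ) :
    ∑ j ∈ Finset.Icc (-(n : ℤ)) n, 1 / (1 + ((j : ℝ) / L) ^ 2) ≤ 1 + 4 * L - 4 * L ^ 2 / (L + n) := by
  have hL0 : 0 < L := by linarith
  induction n with
  | zero =>
    simp
    have : 4 * L ^ 2 / L = 4 * L := by field_simp
    rw [this]; linarith
  | succ n ih =>
    have hset : Finset.Icc (-((n + 1 : ℕ) : ℤ)) ((n + 1 : ℕ) : ℤ) =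
        insert (-((n : ℤ) + 1)) (insert ((n : ℤ) + 1) (Finset.Icc (-(n : ℤ)) n)) := by
      ext x
      simp only [Finset.mem_Icc, Finset.mem_insert]
      push_cast
      omega
    rw [hset, Finset.sum_insert, Finset.sum_insert]
    · have hn : (0 : ℝ) ≤ n := Nat.cast_nonneg n
      have hterm : 1 / (1 + (((n : ℝ) + 1) / L) ^ 2) ≤ 2 * L ^ 2 / (L + n) - 2 * L ^ 2 / (L + (n + 1)) := by
        have e : 2 * L ^ 2 / (L + n) - 2 * L ^ 2 / (L + (n + 1)) = 2 * L ^ 2 / ((L + n) * (L + (n + 1))) := by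
          field_simp
          ring
        rw [e]
        have e2 : 1 / (1 + (((n : ℝ) + 1) / L) ^ 2) = L ^ 2 / (L ^ 2 + (n + 1) ^ 2) := by
          field_simp
        rw [e2, div_le_div_iff₀ (by positivity) (by positivity)]
        have : (L + n) * (L + (n + 1)) ≤ 2 * (L ^ 2 + (n + 1) ^ 2) := by
          nlinarith [sq_nonneg (L - (n + 1))]
        nlinarith [sq_nonneg L, this, mul_le_mul_of_nonneg_left this (sq_nonneg L)]
      have h1 : (((((n : ℤ) + 1) : ℤ) : ℝ)) = (n : ℝ) + 1 := by push_cast; ring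
      have h2 : ((((-((n : ℤ) + 1)) : ℤ) : ℝ)) = -((n : ℝ) + 1) := by push_cast; ring
      rw [h1, h2]
      have h3 : (-((n : ℝ) + 1) / L) ^ 2 = (((n : ℝ) + 1) / L) ^ 2 := by rw [neg_div, neg_sq]
      rw [h3]
      push_cast
      have e4 : 4 * L ^ 2 / (L + n) = 2 * (2 * L ^ 2 / (L + n)) := by ring
      have e5 : 4 * L ^ 2 / (L + (n + 1)) = 2 * (2 * L ^ 2 / (L + (n + 1))) := by ring
      rw [e5]
      rw [e4] at ih
      linarith
    · simp
    · simp only [Finset.mem_insert, Finset.mem_Icc]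
      omega

theorem df_sum (L : ℝ) (hL : 1 ≤ L) (S : Finset ℤ) :
    ∑ j ∈ S, 1 / (1 + ((j : ℝ) / L) ^ 2) ≤ 5 * L := by
  have hL0 : 0 < L := by linarith
  obtain ⟨n, hn⟩ : ∃ n : ℕ, S ⊆ Finset.Icc (-(n : ℤ)) n := by
    refine ⟨∑ j ∈ S, j.natAbs, ?_⟩
    intro j hj
    have h := Finset.single_le_sum (f := fun j : ℤ => j.natAbs) (fun _ _ => Nat.zero_le _) hj
    rw [Finset.mem_Icc]
    omega
  calc ∑ j ∈ S, 1 / (1 + ((j : ℝ) / L) ^ 2) ≤ ∑ j ∈ Finset.Icc (-(n : ℤ)) n, 1 / (1 + ((j : ℝ) / L) ^ 2) := by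
        apply Finset.sum_le_sum_of_subset_of_nonneg hn
        intro i _ _
        positivity
    _ ≤ 1 + 4 * L - 4 * L ^ 2 / (L + n) := df_sum_aux L hL n
    _ ≤ 5 * L := by
        have : 0 ≤ 4 * L ^ 2 / (L + n) := by positivity
        linarith

theorem df_abs_sum {ι : Type*} (s : Finset ι) (a w : ι → ℝ)
    (ha : ∀ i ∈ s, ∀ j ∈ s, 0 ≤ a i * a j) :
    ∑ i ∈ s, |a i| * w i ≤ |∑ i ∈ s, a i * w i| := by
  by_cases h : ∀ i ∈ s, 0 ≤ a i
  · have : ∑ i ∈ s, |a i| * w i = ∑ i ∈ s, a i * w i := by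
      apply Finset.sum_congr rfl
      intro i hi
      rw [abs_of_nonneg (h i hi)]
    rw [this]
    exact le_abs_self _
  · push Not at h
    obtain ⟨i0, hi0, hneg⟩ := h
    have h2 : ∀ i ∈ s, a i ≤ 0 := by
      intro i hi
      by_contra hc
      push Not at hc
      have := ha i hi i0 hi0
      have h3 := mul_neg_of_pos_of_neg hc hneg
      linarith
    have : ∑ i ∈ s, |a i| * w i = - ∑ i ∈ s, a i * w i := by
      rw [← Finset.sum_neg_distrib]
      apply Finset.sum_congr rfl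
      intro i hi
      rw [abs_of_nonpos (h2 i hi)]
      ring
    rw [this]
    exact neg_le_abs _

theorem df_cs (T : Finset ℤ) (a : ℤ → ℝ) (N V R : ℝ) (hR : 0 ≤ R) (hN : (T.card : ℝ) ≤ N)
    (hV : ∑ k ∈ T, a k ^ 2 ≤ V) (h : N * V ≤ R ^ 2) : ∑ k ∈ T, |a k| ≤ R := by
  have h1 : (∑ k ∈ T, |a k|) ^ 2 ≤ (T.card : ℝ) * ∑ k ∈ T, |a k| ^ 2 := sq_sum_le_card_mul_sum_sq
  have h2 : ∑ k ∈ T, |a k| ^ 2 = ∑ k ∈ T, a k ^ 2 := by
    apply Finset.sum_congr rfl
    intro k _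
    exact sq_abs _
  rw [h2] at h1
  have h0 : 0 ≤ ∑ k ∈ T, a k ^ 2 := Finset.sum_nonneg fun k _ => sq_nonneg _
  have h3 : (T.card : ℝ) * ∑ k ∈ T, a k ^ 2 ≤ N * V := by
    apply mul_le_mul hN hV h0
    exact le_trans (Nat.cast_nonneg _) hN
  exact le_of_sq_le_sq (le_trans h1 (le_trans h3 h)) hR

theorem df (φ : ℝ → ℝ) (C c1 C2 C3 : ℝ) (hφc : Continuous φ) (hφ0 : ∀ v, 0 ≤ φ v) (hφ : ∀ v, φ v ≤ C / (1 + v ^ 2) ^ 2)
    (hc1 : 0 < c1) (hC2 : 0 < C2) (hC3 : 0 < C3) :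
    ∃ (J : ℕ) (η D : ℝ), 8 ≤ J ∧ 0 < η ∧ 0 < D ∧ ∀ (M : ℕ) (m1 m2 : ℤ) (X : ℤ → ℝ) (O : Set ℤ), D ≤ (m2 : ℝ) - m1 →
      c1 * J * ((m2 : ℝ) - m1) ≤ ∑ k ∈ Finset.Ico m1 m2, ∑ j ∈ Finset.Icc (-(M : ℤ)) M, |X (k + j)| * φ (j / (16 * J)) →
      ∑ k ∈ Finset.Ico m1 m2, (∑ j ∈ Finset.Icc (-(M : ℤ)) M, X (k + j) * φ (j / (16 * J))) ^ 2 ≤
        C2 * (J : ℝ) ^ (3 / 2 : ℝ) * ((m2 : ℝ) - m1) →
      (∀ j ∈ Finset.Icc (-(M : ℤ)) M, ∑ k ∈ Finset.Ico m1 m2, X (k + j) ^ 2 ≤ C3 * ((m2 : ℝ) - m1)) →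
      (∀ i k : ℤ, i ≤ k → (∀ j : ℤ, i ≤ j → j < k → j ∉ O) → 0 ≤ X i * X k) →
      η * ((m2 : ℝ) - m1) ≤ ({j : ℤ | m1 ≤ j ∧ j < m2 ∧ j ∈ O}.ncard : ℝ) := by
  classical
  have hC : 0 ≤ C := by
    have h1 := hφ 0
    have h2 := hφ0 0
    simp at h1
    linarith
  -- constants
  obtain ⟨D0, hD0⟩ := exists_nat_gt (max 1 (16 * (640 * (C + 1) * Real.sqrt C3 / c1)))
  have hD01 : (1 : ℝ) < D0 := lt_of_le_of_lt (le_max_left _ _) hD0
  have hD02 : 16 * (640 * (C + 1) * Real.sqrt C3 / c1) < D0 := lt_of_le_of_lt (le_max_right _ _) hD0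
  obtain ⟨J, hJ⟩ := exists_nat_gt (max 8 ((4 * C2 / c1 ^ 2) ^ 2))
  have hJ8 : (8 : ℝ) < J := lt_of_le_of_lt (le_max_left _ _) hJ
  have hJ2 : (4 * C2 / c1 ^ 2) ^ 2 < J := lt_of_le_of_lt (le_max_right _ _) hJ
  have hJ0 : (0 : ℝ) < J := by linarith
  set m : ℕ := D0 * J with hm
  have hmR : (m : ℝ) = D0 * J := by rw [hm]; push_cast; ring
  have hm1 : (1 : ℝ) ≤ m := by rw [hmR]; nlinarith
  have hm0 : (0 : ℝ) < m := by linarith
  set η : ℝ := (c1 / (320 * (C + 1))) ^ 2 / (8 * m * C3) with hη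
  have hη0 : 0 < η := by positivity
  set L : ℝ := 16 * J with hL
  have hL1 : 1 ≤ L := by rw [hL]; linarith
  have hL0 : 0 < L := by linarith
  -- total mass
  have hmass : ∀ S : Finset ℤ, ∑ j ∈ S, φ ((j : ℝ) / L) ≤ 80 * (C + 1) * J := by
    intro S
    calc ∑ j ∈ S, φ ((j : ℝ) / L) ≤ ∑ j ∈ S, (C + 1) * (1 / (1 + ((j : ℝ) / L) ^ 2)) := by
          apply Finset.sum_le_sum
          intro j _
          refine le_trans (hφ _) ?_
          rw [mul_one_div]
          have hx : (1 : ℝ) ≤ 1 + ((j : ℝ) / L) ^ 2 := by nlinarith [sq_nonneg ((j : ℝ) / L)]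
          apply div_le_div₀ (by linarith) (by linarith) (by linarith)
          nlinarith
      _ = (C + 1) * ∑ j ∈ S, 1 / (1 + ((j : ℝ) / L) ^ 2) := by rw [Finset.mul_sum]
      _ ≤ (C + 1) * (5 * L) := mul_le_mul_of_nonneg_left (df_sum L hL1 S) (by linarith)
      _ = 80 * (C + 1) * J := by rw [hL]; ring
  have htail : ∀ S : Finset ℤ, (∀ j ∈ S, (m : ℝ) ≤ |(j : ℝ)|) →
      ∑ j ∈ S, φ ((j : ℝ) / L) ≤ (80 * (C + 1) / (1 + ((D0 : ℝ) / 16) ^ 2)) * J := by
    intro S hS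
    calc ∑ j ∈ S, φ ((j : ℝ) / L) ≤ ∑ j ∈ S, ((C + 1) / (1 + ((D0 : ℝ) / 16) ^ 2)) * (1 / (1 + ((j : ℝ) / L) ^ 2)) := by
          apply Finset.sum_le_sum
          intro j hj
          refine le_trans (hφ _) ?_
          rw [div_mul_div_comm, mul_one]
          have h1 : ((D0 : ℝ) / 16) ^ 2 ≤ ((j : ℝ) / L) ^ 2 := by
            rw [← sq_abs ((j : ℝ) / L), abs_div, abs_of_pos hL0]
            apply pow_le_pow_left₀ (by positivity)
            rw [div_le_div_iff₀ (by norm_num) hL0, hL]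
            have := hS j hj
            rw [hmR] at this
            nlinarith
          apply div_le_div₀ (by linarith) (by linarith) (by positivity)
          rw [sq (1 + ((j : ℝ) / L) ^ 2)]
          apply mul_le_mul_of_nonneg_right _ (by positivity)
          linarith
      _ = ((C + 1) / (1 + ((D0 : ℝ) / 16) ^ 2)) * ∑ j ∈ S, 1 / (1 + ((j : ℝ) / L) ^ 2) := by rw [Finset.mul_sum]
      _ ≤ ((C + 1) / (1 + ((D0 : ℝ) / 16) ^ 2)) * (5 * L) := mul_le_mul_of_nonneg_left (df_sum L hL1 S) (by positivity)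
      _ = (80 * (C + 1) / (1 + ((D0 : ℝ) / 16) ^ 2)) * J := by rw [hL]; ring
  refine ⟨J, η, 1 / η, ?_, hη0, by positivity, ?_⟩
  · have : (8 : ℝ) ≤ J := hJ8.le
    exact_mod_cast this
  intro M m1 m2 X O hDP h1 h2 h3 h4
  by_contra hcon
  push Not at hcon
  set P : ℝ := (m2 : ℝ) - m1 with hP
  have hP0 : 0 < P := lt_of_lt_of_le (by positivity) hDP
  have hηP : 1 ≤ η * P := by
    rw [div_le_iff₀ hη0] at hDP
    linarith
  have hm12 : m1 < m2 := by
    have : (m1 : ℝ) < m2 := by linarith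
    exact_mod_cast this
  -- O'
  set O' : Finset ℤ := (Finset.Ico m1 m2).filter (fun j => j ∈ O) with hO'
  have hO'card : ({j : ℤ | m1 ≤ j ∧ j < m2 ∧ j ∈ O}.ncard : ℝ) = O'.card := by
    have : {j : ℤ | m1 ≤ j ∧ j < m2 ∧ j ∈ O} = (O' : Set ℤ) := by
      ext x
      simp [hO', and_assoc]
    rw [this, Set.ncard_coe_finset]
  rw [hO'card] at hcon
  -- bad set
  set B : Finset ℤ := (Finset.Ico m1 m2).filter (fun k => ¬ (m1 ≤ k - m ∧ k + m < m2 ∧ ∀ o ∈ O', ¬ (k - m ≤ o ∧ o ≤ k + m))) with hB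
  have hBcard : (B.card : ℝ) ≤ 8 * m * η * P := by
    have hsub : B ⊆ (Finset.Ico m1 (m1 + m)) ∪ (Finset.Ico (m2 - m) m2) ∪ O'.biUnion (fun o => Finset.Icc (o - m) (o + m)) := by
      intro k hk
      rw [hB, Finset.mem_filter, Finset.mem_Ico] at hk
      obtain ⟨⟨hk1, hk2⟩, hk3⟩ := hk
      rw [Finset.mem_union, Finset.mem_union, Finset.mem_Ico, Finset.mem_Ico, Finset.mem_biUnion]
      by_contra hc
      apply hk3
      push Not at hc
      obtain ⟨⟨hc1, hc2⟩, hc3⟩ := hc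
      refine ⟨?_, ?_, ?_⟩
      · by_contra h
        have := hc1 hk1
        omega
      · by_contra h
        have := hc2 (by omega)
        omega
      · intro o ho hh
        apply hc3 o ho
        rw [Finset.mem_Icc]
        omega
    have hc := Finset.card_le_card hsub
    have hc2 : ((Finset.Ico m1 (m1 + m)) ∪ (Finset.Ico (m2 - m) m2) ∪ O'.biUnion (fun o => Finset.Icc (o - m) (o + m))).card
        ≤ m + m + O'.card * (2 * m + 1) := by
      refine le_trans (Finset.card_union_le _ _) ?_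
      apply add_le_add
      · refine le_trans (Finset.card_union_le _ _) ?_
        rw [Int.card_Ico, Int.card_Ico]
        omega
      · apply Finset.card_biUnion_le_card_mul
        intro o _
        rw [Int.card_Icc]
        omega
    have hc3 : (B.card : ℝ) ≤ m + m + O'.card * (2 * m + 1) := by
      exact_mod_cast le_trans hc hc2
    have : (O'.card : ℝ) * (2 * m + 1) ≤ η * P * (2 * m + 1) := mul_le_mul_of_nonneg_right hcon.le (by positivity)
    have h5 : (m : ℝ) * 1 ≤ m * (η * P) := mul_le_mul_of_nonneg_left hηP (by positivity)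
    have h6 : 1 * (η * P) ≤ m * (η * P) := mul_le_mul_of_nonneg_right hm1 (by positivity)
    nlinarith
  -- main pointwise inequality
  set I : Finset ℤ := Finset.Icc (-(M : ℤ)) M with hI
  set I1 : Finset ℤ := I.filter (fun j => -(m : ℤ) ≤ j ∧ j ≤ m) with hI1
  set I2 : Finset ℤ := I.filter (fun j => ¬ (-(m : ℤ) ≤ j ∧ j ≤ m)) with hI2
  have hsplit : ∀ f : ℤ → ℝ, ∑ j ∈ I, f j = ∑ j ∈ I1, f j + ∑ j ∈ I2, f j := by
    intro f
    rw [hI1, hI2, Finset.sum_filter_add_sum_filter_not]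
  have hpt : ∀ k ∈ Finset.Ico m1 m2, ∑ j ∈ I, |X (k + j)| * φ (j / L) ≤
      |∑ j ∈ I, X (k + j) * φ (j / L)| + 2 * ∑ j ∈ I2, |X (k + j)| * φ (j / L)
        + (if k ∈ B then ∑ j ∈ I, |X (k + j)| * φ (j / L) else 0) := by
    intro k hk
    have hnn : 0 ≤ ∑ j ∈ I2, |X (k + j)| * φ (j / L) :=
      Finset.sum_nonneg fun j _ => mul_nonneg (abs_nonneg _) (hφ0 _)
    by_cases hkB : k ∈ B
    · rw [if_pos hkB]
      have := abs_nonneg (∑ j ∈ I, X (k + j) * φ (j / L))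
      linarith
    · rw [if_neg hkB]
      have hgood : m1 ≤ k - m ∧ k + m < m2 ∧ ∀ o ∈ O', ¬ (k - m ≤ o ∧ o ≤ k + m) := by
        by_contra hc
        apply hkB
        rw [hB, Finset.mem_filter]
        exact ⟨hk, hc⟩
      obtain ⟨hg1, hg2, hg3⟩ := hgood
      have key : ∀ i j : ℤ, -(m : ℤ) ≤ i → i ≤ j → j ≤ m → 0 ≤ X (k + i) * X (k + j) := by
        intro i j hi hij hj
        apply h4 (k + i) (k + j) (by omega)
        intro l hl1 hl2 hlO
        apply hg3 l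
        · rw [hO', Finset.mem_filter, Finset.mem_Ico]
          exact ⟨by omega, hlO⟩
        · omega
      have hA1 : ∑ j ∈ I1, |X (k + j)| * φ (j / L) ≤ |∑ j ∈ I1, X (k + j) * φ (j / L)| := by
        apply df_abs_sum I1 (fun j => X (k + j)) (fun j => φ (j / L))
        intro i hi j hj
        rw [hI1, Finset.mem_filter] at hi hj
        rcases le_total i j with hij | hij
        · exact key i j hi.2.1 hij hj.2.2
        · have := key j i hj.2.1 hij hi.2.2
          rw [mul_comm]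
          exact this
      have hA2 : |∑ j ∈ I2, X (k + j) * φ (j / L)| ≤ ∑ j ∈ I2, |X (k + j)| * φ (j / L) := by
        refine le_trans (Finset.abs_sum_le_sum_abs _ _) ?_
        apply Finset.sum_le_sum
        intro j _
        rw [abs_mul, abs_of_nonneg (hφ0 _)]
      have hA3 : |∑ j ∈ I1, X (k + j) * φ (j / L)| ≤ |∑ j ∈ I, X (k + j) * φ (j / L)| + |∑ j ∈ I2, X (k + j) * φ (j / L)| := by
        rw [hsplit (fun j => X (k + j) * φ (j / L))]
        have := abs_sub (∑ j ∈ I1, X (k + j) * φ (j / L) + ∑ j ∈ I2, X (k + j) * φ (j / L)) (∑ j ∈ I2, X (k + j) * φ (j / L))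
        simpa using this
      rw [hsplit (fun j => |X (k + j)| * φ (j / L))]
      linarith
  -- sum it
  have hsum := Finset.sum_le_sum hpt
  rw [Finset.sum_add_distrib, Finset.sum_add_distrib, ← Finset.mul_sum] at hsum
  -- part 1
  have hJpow : (J : ℝ) ^ (3 / 2 : ℝ) = J * Real.sqrt J := by
    rw [show (3 / 2 : ℝ) = 1 + 1 / 2 by norm_num, Real.rpow_add hJ0, Real.rpow_one, Real.sqrt_eq_rpow]
  have hsJ : 4 * C2 / c1 ^ 2 < Real.sqrt J := by
    apply Real.lt_sqrt_of_sq_lt hJ2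
  have hC2J : C2 * (J : ℝ) ^ (3 / 2 : ℝ) < (c1 / 2 * J) ^ 2 := by
    rw [hJpow]
    have h5 : 4 * C2 < Real.sqrt J * c1 ^ 2 := by
      rwa [div_lt_iff₀ (by positivity)] at hsJ
    have h6 : Real.sqrt J * Real.sqrt J = J := Real.mul_self_sqrt hJ0.le
    have h7 : 0 < Real.sqrt J := Real.sqrt_pos.mpr hJ0
    have h8 : 4 * C2 * (J * Real.sqrt J) < Real.sqrt J * c1 ^ 2 * (J * Real.sqrt J) :=
      mul_lt_mul_of_pos_right h5 (by positivity)
    have h9 : Real.sqrt J * c1 ^ 2 * (J * Real.sqrt J) = c1 ^ 2 * J * (Real.sqrt J * Real.sqrt J) := by ring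
    rw [h9, h6] at h8
    nlinarith
  have hpart1 : ∑ k ∈ Finset.Ico m1 m2, |∑ j ∈ I, X (k + j) * φ (j / L)| < c1 / 2 * J * P := by
    set q : ℝ := Real.sqrt (C2 * (J : ℝ) ^ (3 / 2 : ℝ)) with hq
    have hq1 : q < c1 / 2 * J := by
      rw [hq]
      exact (Real.sqrt_lt' (by positivity)).mpr hC2J
    have hq2 : q ^ 2 = C2 * (J : ℝ) ^ (3 / 2 : ℝ) := Real.sq_sqrt (by positivity)
    have : ∑ k ∈ Finset.Ico m1 m2, |∑ j ∈ I, X (k + j) * φ (j / L)| ≤ q * P := by
      apply df_cs (Finset.Ico m1 m2) (fun k => ∑ j ∈ I, X (k + j) * φ (j / L)) P (C2 * (J : ℝ) ^ (3 / 2 : ℝ) * P) (q * P) (by positivity)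
      · rw [Int.card_Ico]
        rw [hP]
        have : (((m2 - m1).toNat : ℕ) : ℝ) = ((m2 - m1 : ℤ) : ℝ) := by
          have h := Int.toNat_of_nonneg (show 0 ≤ m2 - m1 by omega)
          exact_mod_cast h
        rw [this]; push_cast; exact le_refl _
      · exact h2
      · rw [mul_pow, hq2]
        apply le_of_eq
        ring
    calc _ ≤ q * P := this
      _ < c1 / 2 * J * P := mul_lt_mul_of_pos_right hq1 hP0
  -- part 2
  have hpart2 : ∑ k ∈ Finset.Ico m1 m2, ∑ j ∈ I2, |X (k + j)| * φ (j / L) ≤ c1 / 8 * J * P := by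
    rw [Finset.sum_comm]
    have hj : ∀ j ∈ I2, ∑ k ∈ Finset.Ico m1 m2, |X (k + j)| * φ (j / L) ≤ (Real.sqrt C3 * P) * φ (j / L) := by
      intro j hj
      rw [← Finset.sum_mul]
      apply mul_le_mul_of_nonneg_right _ (hφ0 _)
      apply df_cs (Finset.Ico m1 m2) (fun k => X (k + j)) P (C3 * P) (Real.sqrt C3 * P) (by positivity)
      · rw [Int.card_Ico]
        rw [hP]
        have : (((m2 - m1).toNat : ℕ) : ℝ) = ((m2 - m1 : ℤ) : ℝ) := by
          have h := Int.toNat_of_nonneg (show 0 ≤ m2 - m1 by omega)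
          exact_mod_cast h
        rw [this]; push_cast; exact le_refl _
      · apply h3 j
        rw [hI2, Finset.mem_filter] at hj
        exact hj.1
      · rw [mul_pow, Real.sq_sqrt hC3.le]
        apply le_of_eq
        ring
    refine le_trans (Finset.sum_le_sum hj) ?_
    rw [← Finset.mul_sum]
    have ht := htail I2 (by
      intro j hj
      rw [hI2, Finset.mem_filter] at hj
      have h5 : (m : ℤ) ≤ |j| := by
        rcases abs_cases j with ⟨h, _⟩ | ⟨h, _⟩ <;> omega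
      exact_mod_cast h5)
    have hsC : 0 ≤ Real.sqrt C3 := Real.sqrt_nonneg _
    calc Real.sqrt C3 * P * ∑ j ∈ I2, φ (j / L) ≤ Real.sqrt C3 * P * ((80 * (C + 1) / (1 + ((D0 : ℝ) / 16) ^ 2)) * J) :=
          mul_le_mul_of_nonneg_left ht (by positivity)
      _ = (Real.sqrt C3 * (80 * (C + 1) / (1 + ((D0 : ℝ) / 16) ^ 2))) * J * P := by ring
      _ ≤ c1 / 8 * J * P := by
          apply mul_le_mul_of_nonneg_right _ hP0.le
          apply mul_le_mul_of_nonneg_right _ hJ0.le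
          rw [← mul_div_assoc, div_le_iff₀ (by positivity)]
          have h5 : 640 * (C + 1) * Real.sqrt C3 / c1 < (D0 : ℝ) / 16 := by linarith
          have h6 : 640 * (C + 1) * Real.sqrt C3 < (D0 : ℝ) / 16 * c1 := by
            rwa [div_lt_iff₀ hc1] at h5
          have h7 : (D0 : ℝ) / 16 ≤ 1 + ((D0 : ℝ) / 16) ^ 2 := by nlinarith [sq_nonneg ((D0 : ℝ) / 16 - 1)]
          have h8 : (D0 : ℝ) / 16 * c1 ≤ (1 + ((D0 : ℝ) / 16) ^ 2) * c1 := mul_le_mul_of_nonneg_right h7 hc1.le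
          linarith
  -- part 3
  have hpart3 : ∑ k ∈ Finset.Ico m1 m2, (if k ∈ B then ∑ j ∈ I, |X (k + j)| * φ (j / L) else 0) ≤ c1 / 4 * J * P := by
    rw [← Finset.sum_filter]
    have hBf : (Finset.Ico m1 m2).filter (fun k => k ∈ B) = B := by
      ext x
      rw [Finset.mem_filter]
      constructor
      · exact fun h => h.2
      · intro h
        refine ⟨?_, h⟩
        rw [hB, Finset.mem_filter] at h
        exact h.1
    rw [hBf, Finset.sum_comm]
    set r : ℝ := Real.sqrt (8 * m * η * C3) with hr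
    have hr2 : r ^ 2 = 8 * m * η * C3 := Real.sq_sqrt (by positivity)
    have hr3 : r = c1 / (320 * (C + 1)) := by
      rw [hr, hη]
      rw [show 8 * (m : ℝ) * ((c1 / (320 * (C + 1))) ^ 2 / (8 * m * C3)) * C3 = (c1 / (320 * (C + 1))) ^ 2 by
        field_simp]
      exact Real.sqrt_sq (by positivity)
    have hj : ∀ j ∈ I, ∑ k ∈ B, |X (k + j)| * φ (j / L) ≤ (r * P) * φ (j / L) := by
      intro j hj
      rw [← Finset.sum_mul]
      apply mul_le_mul_of_nonneg_right _ (hφ0 _)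
      apply df_cs B (fun k => X (k + j)) (8 * m * η * P) (C3 * P) (r * P) (by positivity) hBcard
      · refine le_trans ?_ (h3 j hj)
        apply Finset.sum_le_sum_of_subset_of_nonneg
        · rw [hB]; exact Finset.filter_subset _ _
        · intro i _ _; positivity
      · rw [mul_pow, hr2]
        apply le_of_eq
        ring
    refine le_trans (Finset.sum_le_sum hj) ?_
    rw [← Finset.mul_sum]
    calc r * P * ∑ j ∈ I, φ (j / L) ≤ r * P * (80 * (C + 1) * J) := mul_le_mul_of_nonneg_left (hmass I) (by positivity)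
      _ = c1 / 4 * J * P := by
        rw [hr3]
        field_simp
        ring
  have : c1 * J * P < c1 * J * P := by
    calc c1 * J * P ≤ _ := h1
      _ ≤ _ := hsum
      _ < c1 / 2 * J * P + 2 * (c1 / 8 * J * P) + c1 / 4 * J * P := by linarith
      _ = c1 * J * P := by ring
  exact lt_irrefl _ this

end Pool.Agent.Helper647.SG.JDF
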