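import Mathlib

set_option autoImplicit false

namespace Pool.Agent.Helper647.SG.JFI

open Complex Filter Topology MeasureTheory Set

lemma fi_sum (K : ℝ) (hK : 1 ≤ K) (M : ℕ) :
    ∑ j ∈ Finset.Icc (-(M : ℤ)) M, 1 / (1 + ((j : ℝ) / K) ^ 2) ≤ 5 * K := by
  have hK0 : 0 < K := by linarith
  have key : ∀ M : ℕ, ∑ j ∈ Finset.Icc (-(M : ℤ)) M, 1 / (1 + ((j : ℝ) / K) ^ 2) ≤
      1 + 4 * K ^ 2 * (1 / K - 1 / (K + M)) := by
    intro M
    induction M with
    | zero => simp
    | succ M ih =>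
      have hset : Finset.Icc (-((M + 1 : ℕ) : ℤ)) ((M + 1 : ℕ) : ℤ) =
          insert (((M + 1 : ℕ) : ℤ)) (insert (-((M + 1 : ℕ) : ℤ)) (Finset.Icc (-(M : ℤ)) M)) := by
        ext x
        simp only [Finset.mem_Icc, Finset.mem_insert]
        push_cast
        omega
      have h1 : ((M + 1 : ℕ) : ℤ) ∉ insert (-((M + 1 : ℕ) : ℤ)) (Finset.Icc (-(M : ℤ)) M) := by
        simp only [Finset.mem_Icc, Finset.mem_insert]
        push_cast
        omega
      have h2 : (-((M + 1 : ℕ) : ℤ)) ∉ Finset.Icc (-(M : ℤ)) M := by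
        simp only [Finset.mem_Icc]
        push_cast
        omega
      rw [hset, Finset.sum_insert h1, Finset.sum_insert h2]
      have hM : (0 : ℝ) ≤ M := Nat.cast_nonneg M
      have e1 : ((((M + 1 : ℕ) : ℤ) : ℝ)) = (M : ℝ) + 1 := by push_cast; ring
      have e2 : (((-((M + 1 : ℕ) : ℤ) : ℤ) : ℝ)) = -((M : ℝ) + 1) := by push_cast; ring
      rw [e1, e2, neg_div, neg_sq]
      have e3 : ((M + 1 : ℕ) : ℝ) = (M : ℝ) + 1 := by push_cast; ring
      rw [e3]
      have h3 : 1 / (1 + (((M : ℝ) + 1) / K) ^ 2) ≤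
          2 * K ^ 2 * (1 / (K + M) - 1 / (K + (M + 1))) := by
        have e4 : 1 / (K + M) - 1 / (K + ((M : ℝ) + 1)) = 1 / ((K + M) * (K + (M + 1))) := by
          field_simp
          ring
        have e5 : 1 / (1 + (((M : ℝ) + 1) / K) ^ 2) = K ^ 2 / (K ^ 2 + ((M : ℝ) + 1) ^ 2) := by
          field_simp
        rw [e4, e5, mul_one_div, div_le_div_iff₀ (by positivity) (by positivity)]
        have h5 : (K + M) * (K + (M + 1)) ≤ 2 * (K ^ 2 + ((M : ℝ) + 1) ^ 2) := by
          nlinarith [sq_nonneg (K - (M + 1))]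
        have h6 : 0 ≤ K ^ 2 := by positivity
        nlinarith [mul_le_mul_of_nonneg_left h5 h6]
      linarith
  refine (key M).trans ?_
  have h1 : 0 ≤ 1 / (K + (M : ℝ)) := by positivity
  have h2 : 4 * K ^ 2 * (1 / K - 1 / (K + M)) ≤ 4 * K := by
    have : 4 * K ^ 2 * (1 / K) = 4 * K := by field_simp
    have h3 : 0 ≤ 4 * K ^ 2 * (1 / (K + (M : ℝ))) := by positivity
    calc 4 * K ^ 2 * (1 / K - 1 / (K + M)) = 4 * K ^ 2 * (1 / K) - 4 * K ^ 2 * (1 / (K + M)) := by ring
      _ ≤ 4 * K := by rw [this]; linarith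
  linarith

/-- the measure of the bad set -/
lemma fi_bad (O : Set ℝ) (T δ η : ℝ) (N : ℕ) (hT : 1 ≤ T) (hδ : 0 < δ) (hη : 0 < η)
    (hO : volume (O ∩ Icc T (2 * T)) < ENNReal.ofReal (η * T)) :
    volume {u | u ∈ Icc T (2 * T) ∧ ∃ j ∈ Finset.Icc (-(N : ℤ)) N, u + δ * j ∈ O} ≤
      ENNReal.ofReal ((2 * N + 1) * (η * T + 2 * N * δ)) := by
  have hN : (0 : ℝ) ≤ N := Nat.cast_nonneg N
  have hsub : {u | u ∈ Icc T (2 * T) ∧ ∃ j ∈ Finset.Icc (-(N : ℤ)) N, u + δ * j ∈ O} ⊆
      ⋃ j ∈ Finset.Icc (-(N : ℤ)) N, (fun u => u + δ * (j : ℝ)) ⁻¹'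
        (O ∩ Icc (T - N * δ) (2 * T + N * δ)) := by
    rintro u ⟨hu, j, hj, hjO⟩
    refine mem_iUnion₂.2 ⟨j, hj, hjO, ?_⟩
    rw [Finset.mem_Icc] at hj
    have h1 : -(N : ℝ) ≤ j := by exact_mod_cast hj.1
    have h2 : (j : ℝ) ≤ N := by exact_mod_cast hj.2
    have h3 := mul_le_mul_of_nonneg_left h1 hδ.le
    have h4 := mul_le_mul_of_nonneg_left h2 hδ.le
    constructor
    · have := hu.1
      simp only
      nlinarith
    · have := hu.2
      simp only
      nlinarith
  have hb : volume (O ∩ Icc (T - N * δ) (2 * T + N * δ)) ≤ ENNReal.ofReal (η * T + 2 * N * δ) := by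
    have hs : O ∩ Icc (T - N * δ) (2 * T + N * δ) ⊆
        (O ∩ Icc T (2 * T)) ∪ (Icc (T - N * δ) T ∪ Icc (2 * T) (2 * T + N * δ)) := by
      rintro x ⟨hx, hx1, hx2⟩
      by_cases h1 : x ≤ T
      · exact Or.inr (Or.inl ⟨hx1, h1⟩)
      · by_cases h2 : 2 * T ≤ x
        · exact Or.inr (Or.inr ⟨h2, hx2⟩)
        · exact Or.inl ⟨hx, (not_le.1 h1).le, (not_le.1 h2).le⟩
    refine (measure_mono hs).trans ((measure_union_le _ _).trans ?_)
    have h3 : volume (Icc (T - N * δ) T ∪ Icc (2 * T) (2 * T + N * δ)) ≤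
        ENNReal.ofReal (2 * N * δ) := by
      refine (measure_union_le _ _).trans ?_
      rw [Real.volume_Icc, Real.volume_Icc, ← ENNReal.ofReal_add (by nlinarith) (by nlinarith)]
      apply ENNReal.ofReal_le_ofReal
      linarith
    rw [ENNReal.ofReal_add (by positivity) (by positivity)]
    exact add_le_add hO.le h3
  refine (measure_mono hsub).trans ((measure_biUnion_finset_le _ _).trans ?_)
  have hpre : ∀ j : ℤ, volume ((fun u => u + δ * (j : ℝ)) ⁻¹'
        (O ∩ Icc (T - N * δ) (2 * T + N * δ))) ≤ ENNReal.ofReal (η * T + 2 * N * δ) := by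
    intro j
    rw [measure_preimage_add_right]
    exact hb
  refine (Finset.sum_le_sum fun j _ => hpre j).trans ?_
  rw [Finset.sum_const, Int.card_Icc, nsmul_eq_mul]
  have hc : (((N : ℤ) + 1 - -(N : ℤ)).toNat : ENNReal) = ENNReal.ofReal (2 * N + 1) := by
    have : ((N : ℤ) + 1 - -(N : ℤ)).toNat = 2 * N + 1 := by omega
    rw [this, ENNReal.ofReal]
    norm_cast
    rw [Real.toNNReal_natCast]
  rw [hc, ← ENNReal.ofReal_mul (by positivity)]

/- TASK (helper647, project SG): prove this theorem (axioms propext, Classical.choice, Quot.sound only; helper lemmas welcome;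
keep the statement and the namespace).
PROOF. Put φ_j = φ(δj/(16Jδ)) = φ(j/(16J)). ∑_j φ_j ≤ C' · 16 J and, for N = 16 J R, ∑_{|j| > N} φ_j ≤ C' · 16 J R^{-3} (C' depends on C).
Choose R (from c1, C3, C) with 2 C' 16 R^{-3} √C3 ≤ c1/8 (note J cancels), then J ≥ 8 with √C2 J^{3/4} ≤ c1 J/8, then η, D with
16 C' J √C3 √((2N+1)(η + N/D)) ≤ c1 J/8 (so η small and D large), D ≥ 1.
Suppose volume (O ∩ Icc T (2T)) < η T. Bad = {u ∈ [T,2T] : u + δ j ∈ O for some |j| ≤ N} is contained in the union over |j| ≤ N of translates of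
O ∩ [T - Nδ, 2T + Nδ], so its (outer) measure is ≤ (2N+1)(ηT + 2Nδ) (adjust constants); take a measurable superset B of the same measure (toMeasurable).
For u ∈ [T,2T] \ B: all X(u+δj), |j| ≤ min(N, M), have weakly the same sign pairwise (last hypothesis), so ∑_{|j|≤min(N,M)} |X_j| φ_j = |∑_{|j| ≤ min(N,M)} X_j φ_j|
≤ |∑_{|j|≤M} X_j φ_j| + ∑_{N<|j|≤M} |X_j| φ_j. Hence ∑_{|j|≤M} |X_j| φ_j ≤ |∑ X_j φ_j| + 2 ∑_{N<|j|≤M} |X_j|φ_j + 1_B(u) ∑_{|j|≤M} |X_j|φ_j for all u ∈ [T,2T]; integrate: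
∫|∑X_jφ_j| ≤ (T C2 J^{3/2} T)^{1/2}; ∫|X_j| ≤ (T C3 T)^{1/2}; ∫_B ∑|X_j|φ_j ≤ (|B|)^{1/2} (∫(∑|X_j|φ_j)²)^{1/2}, (∑|X_j|φ_j)² ≤ (∑φ_j) ∑ X_j² φ_j. The total is at most 3/8 c1 J T
< c1 J T, a contradiction. It may be easier to use 2ab ≤ κ a² + b²/κ instead of the integral Cauchy-Schwarz inequalities; compare the proof of theorem
asm in Pool/Agent/Helper647_PT/Asm.lean on origin/main, which is the same argument for irregular points. -/
theorem fin_ineq : ∀ (φ : ℝ → ℝ) (C c1 C2 C3 : ℝ), Continuous φ → (∀ v, 0 ≤ φ v) →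
  (∀ v, φ v ≤ C / (1 + v ^ 2) ^ 2) → 0 < c1 → 0 < C2 → 0 < C3 →
  ∃ (J : ℕ) (η D : ℝ), 8 ≤ J ∧ 0 < η ∧ 0 < D ∧ ∀ (T δ : ℝ) (M : ℕ) (X : ℝ → ℝ) (O : Set ℝ), 1 ≤ T → 0 < δ →
    D * δ ≤ T → Continuous X →
    c1 * J * T ≤ ∫ u in T..(2 * T), ∑ j ∈ Finset.Icc (-(M : ℤ)) M, |X (u + δ * j)| * φ (δ * j / (16 * J * δ)) →
    ∫ u in T..(2 * T), (∑ j ∈ Finset.Icc (-(M : ℤ)) M, X (u + δ * j) * φ (δ * j / (16 * J * δ))) ^ 2 ≤
      C2 * (J : ℝ) ^ (3 / 2 : ℝ) * T →
    (∀ j ∈ Finset.Icc (-(M : ℤ)) M, ∫ u in T..(2 * T), X (u + δ * j) ^ 2 ≤ C3 * T) →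
    (∀ (u : ℝ) (i k : ℤ), i ≤ k → (∀ j : ℤ, i ≤ j → j < k → u + δ * j ∉ O) →
      0 ≤ X (u + δ * i) * X (u + δ * k)) →
    ENNReal.ofReal (η * T) ≤ volume (O ∩ Icc T (2 * T)) := by
  intro φ C c1 C2 C3 hc h0 hd hc1 hC2 hC3
  have hC : 0 ≤ C := by
    have := hd 0; have h00 := h0 0
    norm_num at this; linarith
  -- constants
  obtain ⟨R, hR1, hR2⟩ : ∃ R : ℝ, 1 ≤ R ∧ 640 * C * (1 + C3) ≤ c1 * (1 + R ^ 2) := by
    refine ⟨1 + 640 * C * (1 + C3) / c1, ?_, ?_⟩
    · have : 0 ≤ 640 * C * (1 + C3) / c1 := by positivity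
      linarith
    · have h2 : 0 ≤ 640 * C * (1 + C3) / c1 := by positivity
      have h3 : 640 * C * (1 + C3) = c1 * (640 * C * (1 + C3) / c1) := by field_simp
      calc 640 * C * (1 + C3) = c1 * (640 * C * (1 + C3) / c1) := h3
        _ ≤ c1 * (1 + (1 + 640 * C * (1 + C3) / c1) ^ 2) := by
            apply mul_le_mul_of_nonneg_left _ hc1.le
            nlinarith
  obtain ⟨J, hJ8, hJ⟩ : ∃ J : ℕ, 8 ≤ J ∧ 16 * C2 ≤ c1 ^ 2 * (J : ℝ) ^ (1 / 2 : ℝ) := by
    obtain ⟨n, hn⟩ := exists_nat_ge ((16 * C2 / c1 ^ 2) ^ 2)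
    refine ⟨max 8 n, le_max_left _ _, ?_⟩
    have h1 : (16 * C2 / c1 ^ 2) ^ 2 ≤ ((max 8 n : ℕ) : ℝ) :=
      hn.trans (by exact_mod_cast le_max_right 8 n)
    have h2 : 16 * C2 / c1 ^ 2 ≤ ((max 8 n : ℕ) : ℝ) ^ (1 / 2 : ℝ) := by
      rw [← Real.sqrt_eq_rpow]
      exact Real.le_sqrt_of_sq_le h1
    have h3 : 16 * C2 = c1 ^ 2 * (16 * C2 / c1 ^ 2) := by field_simp
    rw [h3]
    exact mul_le_mul_of_nonneg_left h2 (by positivity)
  have hJr : (8 : ℝ) ≤ J := by exact_mod_cast hJ8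
  have hJp : (0 : ℝ) < J := by linarith
  set K : ℝ := 16 * J with hK
  have hKp : 1 ≤ K := by linarith
  have hK0 : 0 < K := by linarith
  set W : ℝ := C * (5 * K) with hW
  have hW0 : 0 ≤ W := by positivity
  obtain ⟨L, hL, hL2⟩ : ∃ L : ℝ, 0 < L ∧ 4 * (W ^ 2 * C3) ≤ c1 * J * L := by
    refine ⟨1 + 4 * (W ^ 2 * C3) / (c1 * J), by positivity, ?_⟩
    have h3 : c1 * J * (1 + 4 * (W ^ 2 * C3) / (c1 * J)) = c1 * J + 4 * (W ^ 2 * C3) := by
      field_simp
    rw [h3]
    have : 0 < c1 * J := by positivity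
    linarith
  set κ : ℝ := c1 * J / (4 * L) with hκ
  have hκ0 : 0 < κ := by positivity
  obtain ⟨N, hN⟩ := exists_nat_ge (K * R)
  have hN0 : (0 : ℝ) ≤ N := Nat.cast_nonneg N
  refine ⟨J, κ / (2 * (2 * N + 1)), 4 * (N + 1) * (2 * N + 1) / κ, hJ8, by positivity,
    by positivity, ?_⟩
  intro T δ M X O hT hδ hD hX H1 H2 H3 H4
  by_contra hcon
  rw [not_le] at hcon
  have hTp : 0 < T := by linarith
  have hTT : T ≤ 2 * T := by linarith
  -- the weights
  obtain ⟨w, hw⟩ : ∃ w : ℤ → ℝ, w = fun j : ℤ => φ (δ * j / (16 * J * δ)) := ⟨_, rfl⟩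
  have hwj : ∀ j : ℤ, φ (δ * j / (16 * J * δ)) = w j := fun j => by rw [hw]
  simp only [hwj] at H1 H2
  have hw' : ∀ j : ℤ, w j = φ ((j : ℝ) / K) := by
    intro j
    rw [hw]
    simp only
    congr 1
    rw [hK]
    field_simp
  have hw0 : ∀ j, 0 ≤ w j := fun j => by rw [hw']; exact h0 _
  have hw1 : ∀ j : ℤ, w j ≤ C * (1 / (1 + ((j : ℝ) / K) ^ 2)) := by
    intro j
    rw [hw']
    refine (hd _).trans ?_
    have hv : 1 ≤ 1 + ((j : ℝ) / K) ^ 2 := by nlinarith [sq_nonneg ((j : ℝ) / K)]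
    rw [mul_one_div]
    apply div_le_div_of_nonneg_left hC (by linarith)
    nlinarith
  set A := Finset.Icc (-(M : ℤ)) M with hA
  have hwsum : ∑ j ∈ A, w j ≤ W := by
    calc ∑ j ∈ A, w j ≤ ∑ j ∈ A, C * (1 / (1 + ((j : ℝ) / K) ^ 2)) :=
          Finset.sum_le_sum fun j _ => hw1 j
      _ = C * ∑ j ∈ A, (1 / (1 + ((j : ℝ) / K) ^ 2)) := by rw [Finset.mul_sum]
      _ ≤ C * (5 * K) := mul_le_mul_of_nonneg_left (fi_sum K hKp M) hC
  set Nr := A.filter (fun j => |j| ≤ (N : ℤ)) with hNr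
  set F := A.filter (fun j => ¬ |j| ≤ (N : ℤ)) with hF
  have hfw : ∑ j ∈ F, w j ≤ C / (1 + R ^ 2) * (5 * K) := by
    have h1 : ∀ j ∈ F, w j ≤ C / (1 + R ^ 2) * (1 / (1 + ((j : ℝ) / K) ^ 2)) := by
      intro j hj
      rw [hF, Finset.mem_filter] at hj
      have hj2 := not_le.1 hj.2
      have hj3 : (N : ℝ) < |(j : ℝ)| := by exact_mod_cast hj2
      have hvv : R ^ 2 ≤ ((j : ℝ) / K) ^ 2 := by
        rw [← sq_abs ((j : ℝ) / K), abs_div, abs_of_pos hK0]
        apply pow_le_pow_left₀ (by linarith)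
        rw [le_div_iff₀ hK0]
        linarith
      rw [hw']
      refine (hd _).trans ?_
      rw [div_mul_div_comm, mul_one]
      apply div_le_div_of_nonneg_left hC (by positivity)
      rw [sq (1 + ((j : ℝ) / K) ^ 2)]
      apply mul_le_mul_of_nonneg_right _ (by positivity)
      linarith
    refine (Finset.sum_le_sum h1).trans ?_
    rw [← Finset.mul_sum]
    apply mul_le_mul_of_nonneg_left _ (by positivity)
    refine le_trans ?_ (fi_sum K hKp M)
    exact Finset.sum_le_sum_of_subset_of_nonneg (Finset.filter_subset _ _)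
      (fun j _ _ => by positivity)
  -- the bad set
  set Bad : Set ℝ := {u | u ∈ Icc T (2 * T) ∧ ∃ j ∈ Finset.Icc (-(N : ℤ)) N, u + δ * j ∈ O}
    with hBad
  have hBadm : volume Bad ≤ ENNReal.ofReal (κ * T) := by
    refine (fi_bad O T δ _ N hT hδ (by positivity) hcon).trans ?_
    apply ENNReal.ofReal_le_ofReal
    have h1 : 2 * N * δ ≤ κ * T / (2 * (2 * N + 1)) := by
      rw [div_mul_eq_mul_div, div_le_iff₀ hκ0] at hD
      rw [le_div_iff₀ (by positivity)]
      have : 0 ≤ δ * (2 * (N : ℝ) + 1) := by positivity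
      nlinarith
    calc (2 * (N : ℝ) + 1) * (κ / (2 * (2 * N + 1)) * T + 2 * N * δ) ≤
        (2 * (N : ℝ) + 1) * (κ / (2 * (2 * N + 1)) * T + κ * T / (2 * (2 * N + 1))) := by
          apply mul_le_mul_of_nonneg_left _ (by positivity)
          linarith
      _ = κ * T := by field_simp; ring
  set B := toMeasurable volume Bad with hB
  have hBm : MeasurableSet B := measurableSet_toMeasurable _ _
  have hBv : volume B ≤ ENNReal.ofReal (κ * T) := by rw [hB, measure_toMeasurable]; exact hBadm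
  -- pointwise bound
  have hpt : ∀ u ∈ Icc T (2 * T), ∑ j ∈ A, |X (u + δ * j)| * w j ≤
      (c1 * J / 8 + (2 / (c1 * J)) * (∑ j ∈ A, X (u + δ * j) * w j) ^ 2) +
      2 * (∑ j ∈ F, |X (u + δ * j)| * w j) + (W / (2 * L)) * (∑ j ∈ A, X (u + δ * j) ^ 2 * w j) +
      (L / 2) * B.indicator (fun _ => (1 : ℝ)) u := by
    intro u hu
    set S := ∑ j ∈ A, |X (u + δ * j)| * w j with hS
    set I := ∑ j ∈ A, X (u + δ * j) * w j with hI
    set Q := ∑ j ∈ F, |X (u + δ * j)| * w j with hQ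
    set V := ∑ j ∈ A, X (u + δ * j) ^ 2 * w j with hV
    have hQ0 : 0 ≤ Q := Finset.sum_nonneg fun j _ => mul_nonneg (abs_nonneg _) (hw0 _)
    have hV0 : 0 ≤ V := Finset.sum_nonneg fun j _ => mul_nonneg (sq_nonneg _) (hw0 _)
    have hS0 : 0 ≤ S := Finset.sum_nonneg fun j _ => mul_nonneg (abs_nonneg _) (hw0 _)
    have hIabs : |I| ≤ c1 * J / 8 + (2 / (c1 * J)) * I ^ 2 := by
      have hck : 0 < c1 * J := by positivity
      have : c1 * J / 8 + (2 / (c1 * J)) * I ^ 2 - |I| =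
          (2 / (c1 * J)) * (|I| - c1 * J / 4) ^ 2 := by
        have : I ^ 2 = |I| ^ 2 := (sq_abs I).symm
        rw [this]; field_simp; ring
      have h2 : 0 ≤ (2 / (c1 * J)) * (|I| - c1 * J / 4) ^ 2 := by positivity
      linarith
    have e2 : 0 ≤ (L / 2) * B.indicator (fun _ => (1 : ℝ)) u :=
      mul_nonneg (by positivity) (Set.indicator_nonneg (fun _ _ => zero_le_one) _)
    have e3 : 0 ≤ (W / (2 * L)) * V := by positivity
    have e4 : 0 ≤ c1 * J / 8 + (2 / (c1 * J)) * I ^ 2 := by positivity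
    by_cases hbad : u ∈ Bad
    · have hCS : S ^ 2 ≤ W * V := by
        have h1 : S ^ 2 ≤ (∑ j ∈ A, w j) * V := by
          apply Finset.sum_sq_le_sum_mul_sum_of_sq_le_mul
          · intro i _; exact hw0 _
          · intro i _; exact mul_nonneg (sq_nonneg _) (hw0 _)
          · intro i _; rw [mul_pow, sq_abs]; apply le_of_eq; ring
        exact h1.trans (mul_le_mul_of_nonneg_right hwsum hV0)
      have hSL : S ≤ L / 2 + S ^ 2 / (2 * L) := by
        have : L / 2 + S ^ 2 / (2 * L) - S = (S - L) ^ 2 / (2 * L) := by field_simp; ring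
        have h2 : 0 ≤ (S - L) ^ 2 / (2 * L) := by positivity
        linarith
      have h5 : S ^ 2 / (2 * L) ≤ (W / (2 * L)) * V := by
        rw [div_mul_eq_mul_div]
        exact div_le_div_of_nonneg_right hCS (by positivity)
      have h6 : B.indicator (fun _ => (1 : ℝ)) u = 1 := by
        rw [Set.indicator_of_mem]
        exact subset_toMeasurable _ _ hbad
      rw [h6]
      linarith
    · have hgood : ∀ j : ℤ, |j| ≤ (N : ℤ) → u + δ * j ∉ O := by
        intro j hj hjO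
        apply hbad
        exact ⟨hu, j, Finset.mem_Icc.2 (abs_le.1 hj), hjO⟩
      have hsplit : ∀ f : ℤ → ℝ, ∑ j ∈ A, f j = ∑ j ∈ Nr, f j + ∑ j ∈ F, f j := by
        intro f; exact (Finset.sum_filter_add_sum_filter_not _ _ _).symm
      have hsign : ∀ i ∈ Nr, ∀ k ∈ Nr, 0 ≤ X (u + δ * i) * X (u + δ * k) := by
        have key : ∀ i ∈ Nr, ∀ k ∈ Nr, i ≤ k → 0 ≤ X (u + δ * i) * X (u + δ * k) := by
          intro i hi k hk hik
          rw [hNr, Finset.mem_filter] at hi hk
          apply H4 u i k hik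
          intro j hij hjk
          apply hgood
          have h3 := abs_le.1 hi.2
          have h4 := abs_le.1 hk.2
          exact abs_le.2 ⟨by linarith, by linarith⟩
        intro i hi k hk
        rcases le_total i k with hik | hik
        · exact key i hi k hk hik
        · rw [mul_comm]; exact key k hk i hi hik
      have hnear : ∑ j ∈ Nr, |X (u + δ * j)| * w j = |∑ j ∈ Nr, X (u + δ * j) * w j| := by
        have hsq : (∑ j ∈ Nr, |X (u + δ * j)| * w j) ^ 2 =
            (∑ j ∈ Nr, X (u + δ * j) * w j) ^ 2 := by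
          rw [sq, sq, Finset.sum_mul_sum, Finset.sum_mul_sum]
          apply Finset.sum_congr rfl; intro i hi
          apply Finset.sum_congr rfl; intro k hk
          have := abs_of_nonneg (hsign i hi k hk)
          rw [abs_mul] at this
          calc |X (u + δ * i)| * w i * (|X (u + δ * k)| * w k) =
              (|X (u + δ * i)| * |X (u + δ * k)|) * (w i * w k) := by ring
            _ = (X (u + δ * i) * X (u + δ * k)) * (w i * w k) := by rw [this]
            _ = _ := by ring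
        have h1 : 0 ≤ ∑ j ∈ Nr, |X (u + δ * j)| * w j :=
          Finset.sum_nonneg fun j _ => mul_nonneg (abs_nonneg _) (hw0 _)
        have h2 := (sq_eq_sq_iff_abs_eq_abs _ _).1 hsq
        rw [abs_of_nonneg h1] at h2
        exact h2
      have hfar2 : |∑ j ∈ F, X (u + δ * j) * w j| ≤ Q := by
        refine (Finset.abs_sum_le_sum_abs _ _).trans (le_of_eq ?_)
        apply Finset.sum_congr rfl; intro j _
        rw [abs_mul, abs_of_nonneg (hw0 _)]
      have hSe : S = ∑ j ∈ Nr, |X (u + δ * j)| * w j + Q := hsplit _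
      have hIe : I = ∑ j ∈ Nr, X (u + δ * j) * w j + ∑ j ∈ F, X (u + δ * j) * w j := hsplit _
      have h7 : |∑ j ∈ Nr, X (u + δ * j) * w j| ≤ |I| + |∑ j ∈ F, X (u + δ * j) * w j| := by
        have : ∑ j ∈ Nr, X (u + δ * j) * w j = I - ∑ j ∈ F, X (u + δ * j) * w j := by
          rw [hIe]; ring
        rw [this]
        exact abs_sub _ _
      have h8 : S ≤ |I| + 2 * Q := by
        rw [hSe, hnear]
        linarith
      linarith
  -- continuity
  have cX : ∀ j : ℤ, Continuous fun u : ℝ => X (u + δ * j) := fun j => hX.comp (by fun_prop)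
  have cS : Continuous fun u : ℝ => ∑ j ∈ A, |X (u + δ * j)| * w j :=
    continuous_finsetSum _ fun j _ => (cX j).abs.mul continuous_const
  have cI : Continuous fun u : ℝ => (∑ j ∈ A, X (u + δ * j) * w j) ^ 2 :=
    (continuous_finsetSum _ fun j _ => (cX j).mul continuous_const).pow 2
  have cF : Continuous fun u : ℝ => ∑ j ∈ F, |X (u + δ * j)| * w j :=
    continuous_finsetSum _ fun j _ => (cX j).abs.mul continuous_const
  have cV : Continuous fun u : ℝ => ∑ j ∈ A, X (u + δ * j) ^ 2 * w j :=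
    continuous_finsetSum _ fun j _ => ((cX j).pow 2).mul continuous_const
  have iB : IntervalIntegrable (B.indicator (fun _ => (1 : ℝ))) volume T (2 * T) := by
    rw [intervalIntegrable_iff_integrableOn_Ioc_of_le hTT]
    exact (integrableOn_const (by simp)).indicator hBm
  have vB : ∫ u in T..(2 * T), B.indicator (fun _ => (1 : ℝ)) u ≤ κ * T := by
    rw [intervalIntegral.integral_of_le hTT, integral_indicator hBm, integral_const, smul_eq_mul,
      mul_one, Measure.real, Measure.restrict_apply MeasurableSet.univ, Set.univ_inter,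
      Measure.restrict_apply hBm]
    apply ENNReal.toReal_le_of_le_ofReal (by positivity)
    exact (measure_mono inter_subset_left).trans hBv
  -- integrate
  have hint : ∫ u in T..(2 * T), ∑ j ∈ A, |X (u + δ * j)| * w j ≤
      (c1 * J / 8 * T + (2 / (c1 * J)) *
        ∫ u in T..(2 * T), (∑ j ∈ A, X (u + δ * j) * w j) ^ 2) +
      2 * (∫ u in T..(2 * T), ∑ j ∈ F, |X (u + δ * j)| * w j) +
      (W / (2 * L)) * (∫ u in T..(2 * T), ∑ j ∈ A, X (u + δ * j) ^ 2 * w j) +
      (L / 2) * (∫ u in T..(2 * T), B.indicator (fun _ => (1 : ℝ)) u) := by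
    have c1' : IntervalIntegrable (fun u : ℝ => c1 * J / 8 +
        (2 / (c1 * J)) * (∑ j ∈ A, X (u + δ * j) * w j) ^ 2) volume T (2 * T) :=
      (continuous_const.add (continuous_const.mul cI)).intervalIntegrable _ _
    have c0' : IntervalIntegrable (fun _ : ℝ => c1 * J / 8) volume T (2 * T) :=
      continuous_const.intervalIntegrable _ _
    have c11 : IntervalIntegrable (fun u : ℝ =>
        (2 / (c1 * J)) * (∑ j ∈ A, X (u + δ * j) * w j) ^ 2) volume T (2 * T) :=
      (continuous_const.mul cI).intervalIntegrable _ _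
    have c2' : IntervalIntegrable (fun u : ℝ => 2 * (∑ j ∈ F, |X (u + δ * j)| * w j))
        volume T (2 * T) := (continuous_const.mul cF).intervalIntegrable _ _
    have c3' : IntervalIntegrable (fun u : ℝ => (W / (2 * L)) *
        (∑ j ∈ A, X (u + δ * j) ^ 2 * w j)) volume T (2 * T) :=
      (continuous_const.mul cV).intervalIntegrable _ _
    have c4' : IntervalIntegrable (fun u : ℝ => (L / 2) * B.indicator (fun _ => (1 : ℝ)) u)
        volume T (2 * T) := iB.const_mul _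
    have h1 := intervalIntegral.integral_mono_on (μ := volume) hTT (cS.intervalIntegrable T (2 * T))
      (((c1'.add c2').add c3').add c4') hpt
    refine h1.trans (le_of_eq ?_)
    rw [intervalIntegral.integral_add ((c1'.add c2').add c3') c4',
      intervalIntegral.integral_add (c1'.add c2') c3', intervalIntegral.integral_add c1' c2',
      intervalIntegral.integral_add c0' c11,
      intervalIntegral.integral_const, intervalIntegral.integral_const_mul,
      intervalIntegral.integral_const_mul, intervalIntegral.integral_const_mul,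
      intervalIntegral.integral_const_mul, smul_eq_mul]
    ring
  -- bounds
  have bX : ∀ j ∈ A, ∫ u in T..(2 * T), |X (u + δ * j)| ≤ (1 + C3) * T / 2 := by
    intro j hj
    have c5 : Continuous fun u : ℝ => (1 / 2 : ℝ) * X (u + δ * j) ^ 2 :=
      continuous_const.mul ((cX j).pow 2)
    have c6 : Continuous fun u : ℝ => (1 / 2 : ℝ) + (1 / 2 : ℝ) * X (u + δ * j) ^ 2 :=
      continuous_const.add c5
    have c7 : Continuous fun _ : ℝ => (1 / 2 : ℝ) := continuous_const
    have h1 : ∫ u in T..(2 * T), |X (u + δ * j)| ≤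
        ∫ u in T..(2 * T), ((1 / 2 : ℝ) + (1 / 2 : ℝ) * X (u + δ * j) ^ 2) := by
      apply intervalIntegral.integral_mono_on (μ := volume) hTT ((cX j).abs.intervalIntegrable _ _)
        (c6.intervalIntegrable _ _)
      intro u _
      have : X (u + δ * j) ^ 2 = |X (u + δ * j)| ^ 2 := (sq_abs _).symm
      rw [this]
      nlinarith [sq_nonneg (|X (u + δ * j)| - 1)]
    refine h1.trans ?_
    rw [intervalIntegral.integral_add (c7.intervalIntegrable _ _) (c5.intervalIntegrable _ _),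
      intervalIntegral.integral_const, intervalIntegral.integral_const_mul, smul_eq_mul]
    have := H3 j hj
    linarith
  have bF : ∫ u in T..(2 * T), ∑ j ∈ F, |X (u + δ * j)| * w j ≤
      (1 + C3) * T / 2 * (C / (1 + R ^ 2) * (5 * K)) := by
    have cj : ∀ j : ℤ, Continuous fun u : ℝ => |X (u + δ * j)| * w j :=
      fun j => (cX j).abs.mul continuous_const
    rw [intervalIntegral.integral_finsetSum fun j _ => (cj j).intervalIntegrable _ _]
    calc ∑ j ∈ F, ∫ u in T..(2 * T), |X (u + δ * j)| * w j ≤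
        ∑ j ∈ F, (1 + C3) * T / 2 * w j := by
          apply Finset.sum_le_sum; intro j hj
          rw [intervalIntegral.integral_mul_const]
          exact mul_le_mul_of_nonneg_right (bX j (Finset.mem_of_mem_filter j hj)) (hw0 _)
      _ = (1 + C3) * T / 2 * ∑ j ∈ F, w j := by rw [Finset.mul_sum]
      _ ≤ _ := mul_le_mul_of_nonneg_left hfw (by positivity)
  have bV : ∫ u in T..(2 * T), ∑ j ∈ A, X (u + δ * j) ^ 2 * w j ≤ C3 * T * W := by
    have cj : ∀ j : ℤ, Continuous fun u : ℝ => X (u + δ * j) ^ 2 * w j :=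
      fun j => ((cX j).pow 2).mul continuous_const
    rw [intervalIntegral.integral_finsetSum fun j _ => (cj j).intervalIntegrable _ _]
    calc ∑ j ∈ A, ∫ u in T..(2 * T), X (u + δ * j) ^ 2 * w j ≤
        ∑ j ∈ A, C3 * T * w j := by
          apply Finset.sum_le_sum; intro j hj
          rw [intervalIntegral.integral_mul_const]
          exact mul_le_mul_of_nonneg_right (H3 j hj) (hw0 _)
      _ = C3 * T * ∑ j ∈ A, w j := by rw [Finset.mul_sum]
      _ ≤ _ := mul_le_mul_of_nonneg_left hwsum (by positivity)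
  -- final numerics
  have f1 : (2 / (c1 * J)) * ∫ u in T..(2 * T), (∑ j ∈ A, X (u + δ * j) * w j) ^ 2 ≤
      c1 * J * T / 8 := by
    have hJ32 : (J : ℝ) ^ (3 / 2 : ℝ) = J * (J : ℝ) ^ (1 / 2 : ℝ) := by
      have : (3 / 2 : ℝ) = 1 + 1 / 2 := by norm_num
      rw [this, Real.rpow_add hJp, Real.rpow_one]
    have hJ2 : (J : ℝ) = (J : ℝ) ^ (1 / 2 : ℝ) * (J : ℝ) ^ (1 / 2 : ℝ) := by
      rw [← Real.rpow_add hJp]
      norm_num
    set r := (J : ℝ) ^ (1 / 2 : ℝ) with hr
    have hr0 : 0 < r := Real.rpow_pos_of_pos hJp _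
    calc (2 / (c1 * J)) * ∫ u in T..(2 * T), (∑ j ∈ A, X (u + δ * j) * w j) ^ 2 ≤
        (2 / (c1 * J)) * (C2 * (J : ℝ) ^ (3 / 2 : ℝ) * T) :=
          mul_le_mul_of_nonneg_left H2 (by positivity)
      _ = (2 * C2 * r * T) / c1 := by rw [hJ32]; field_simp
      _ ≤ c1 * J * T / 8 := by
          rw [div_le_iff₀ hc1]
          have h1 := mul_le_mul_of_nonneg_right hJ (by positivity : 0 ≤ r * T)
          have h2 : c1 ^ 2 * r * (r * T) = c1 ^ 2 * J * T := by
            rw [hJ2]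
            ring
          rw [h2] at h1
          nlinarith
  have f2 : 2 * (∫ u in T..(2 * T), ∑ j ∈ F, |X (u + δ * j)| * w j) ≤ c1 * J * T / 8 := by
    have hR3 : 0 < 1 + R ^ 2 := by positivity
    calc _ ≤ 2 * ((1 + C3) * T / 2 * (C / (1 + R ^ 2) * (5 * K))) :=
          mul_le_mul_of_nonneg_left bF (by positivity)
      _ = (640 * C * (1 + C3)) * (J * T) / (8 * (1 + R ^ 2)) := by rw [hK]; field_simp; ring
      _ ≤ (c1 * (1 + R ^ 2)) * (J * T) / (8 * (1 + R ^ 2)) := by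
          apply div_le_div_of_nonneg_right _ (by positivity)
          exact mul_le_mul_of_nonneg_right hR2 (by positivity)
      _ = c1 * J * T / 8 := by field_simp
  have f3 : (L / 2) * (∫ u in T..(2 * T), B.indicator (fun _ => (1 : ℝ)) u) ≤
      c1 * J * T / 8 := by
    calc _ ≤ (L / 2) * (κ * T) := mul_le_mul_of_nonneg_left vB (by positivity)
      _ = c1 * J * T / 8 := by rw [hκ]; field_simp; ring
  have f4 : (W / (2 * L)) * (∫ u in T..(2 * T), ∑ j ∈ A, X (u + δ * j) ^ 2 * w j) ≤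
      c1 * J * T / 8 := by
    calc _ ≤ (W / (2 * L)) * (C3 * T * W) := mul_le_mul_of_nonneg_left bV (by positivity)
      _ = (4 * (W ^ 2 * C3)) * T / (8 * L) := by field_simp; ring
      _ ≤ (c1 * J * L) * T / (8 * L) := by
          apply div_le_div_of_nonneg_right _ (by positivity)
          exact mul_le_mul_of_nonneg_right hL2 (by positivity)
      _ = c1 * J * T / 8 := by field_simp
  have hpos : 0 < c1 * J * T := by positivity
  have := H1.trans hint
  linarith

end Pool.Agent.Helper647.SG.JFI
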