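import Mathlib

set_option autoImplicit false

namespace Pool.Agent.Helper647.SG.JHP

open Complex Filter Topology MeasureTheory Set

/- TASK (helper647, project SG2): prove this theorem (axioms propext, Classical.choice, Quot.sound only; helper lemmas welcome;
keep the statement and the namespace). It is the Poisson-Jensen inequality in a half plane, with a truncated logarithm.
PROOF. Write u(w) = log (max ‖w‖ (exp (-M))), continuous on ℂ. Let φ(z) = x0 + I t0 + a (1+z)/(1-z); it maps the closed unit disc minus {1} into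
{Re s ≥ x0} (the open disc into Re s > x0), φ(0) = x0 + a + I t0. For 0 < r < 1, F = f ∘ φ is analytic near the closed disc of radius r and
F(0) ≠ 0, so by Jensen's formula (Mathlib: MeromorphicOn.circleAverage_log_norm / AnalyticOnNhd..., the divisor terms are ≥ 0; or search the starting
files for a ready Jensen inequality log ‖F 0‖ ≤ circleAverage (log ‖F ·‖) 0 r, e.g. Pool/Agent/H159R3/NV/Jensen.lean)
log ‖F 0‖ ≤ circleAverage (log ‖F ·‖) 0 r ≤ circleAverage (u ∘ F) 0 r. Let r → 1 by dominated convergence: |1 - r e^{iθ}| ≥ |1 - e^{iθ}|/2, so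
-M ≤ u(F(r e^{iθ})) ≤ log (1 + C (1 + |x0| + |t0| + 4a/|1 - e^{iθ}|)^A), integrable in θ (logarithmic singularity; |1-e^{iθ}| = 2|sin(θ/2)|, e.g. use
log x ≤ 2 √x, and 1/√|sin| integrable, or bound by a multiple of 1 + |log |sin (θ/2)||, Mathlib: intervalIntegrable_log_sin or integrability of rpow). So
log ‖F 0‖ ≤ (1/2π) ∫_0^{2π} u(f(x0 + I t0 + I a cot(θ/2))) dθ = (1/π) ∫_{-π/2}^{π/2} u(f(x0 + I (t0 + a tan y))) dy (θ = π - 2y)
= ∫_ℝ a / (π (a² + (t - t0)²)) u(f(x0 + I t)) dt (t = t0 + a tan y; change of variables on the open interval, e.g.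
integral_image_eq_integral_abs_deriv_smul with Real.tan or y = arctan ((t - t0)/a)). If you prefer, do the change of variables first and avoid circle
integrals: any correct proof is fine. -/
theorem hp_jen {F : ℂ → ℂ} {R : ℝ} (hR : 0 < R) (hF : AnalyticOnNhd ℂ F (Metric.closedBall 0 R))
    (h0 : F 0 ≠ 0) : Real.log ‖F 0‖ ≤ Real.circleAverage (fun z => Real.log ‖F z‖) 0 R := by
  have hR' : |R| = R := abs_of_pos hR
  have hm : MeromorphicOn F (Metric.closedBall 0 R) := hF.meromorphicOn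
  have h := MeromorphicOn.circleAverage_log_norm (c := 0) (R := R) (f := F) hR.ne'
    (by rw [hR']; exact hm)
  have ha : AnalyticAt ℂ F 0 := hF 0 (by simp [hR.le])
  rw [hR'] at h
  rw [h, ha.meromorphicTrailingCoeffAt_of_ne_zero h0]
  have h1 : MeromorphicOn.divisor F (Metric.closedBall 0 R) 0 = 0 := by
    rw [MeromorphicOn.divisor_apply hm (by simp [hR.le])]
    rw [ha.meromorphicOrderAt_eq, ha.analyticOrderAt_eq_zero.mpr h0]
    rfl
  rw [h1]
  have h2 : 0 ≤ ∑ᶠ u, (MeromorphicOn.divisor F (Metric.closedBall 0 R) u : ℝ) * Real.log (R * ‖0 - u‖⁻¹) := by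
    apply finsum_nonneg
    intro u
    by_cases hu : u ∈ Metric.closedBall (0 : ℂ) R
    · apply mul_nonneg
      · rw [MeromorphicOn.divisor_apply hm hu]
        have := (hF u hu).meromorphicOrderAt_nonneg
        have h3 : 0 ≤ (meromorphicOrderAt F u).untop₀ := by
          cases h4 : meromorphicOrderAt F u with
          | top => simp
          | coe n =>
            rw [h4] at this
            simpa using this
        exact_mod_cast h3
      · rw [Metric.mem_closedBall, dist_zero_right] at hu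
        rw [zero_sub, norm_neg]
        rcases eq_or_ne u 0 with rfl | hu0
        · simp
        · apply Real.log_nonneg
          have hpos : 0 < ‖u‖ := norm_pos_iff.mpr hu0
          rw [← div_eq_mul_inv, le_div_iff₀ hpos]
          simpa using hu
    · have : MeromorphicOn.divisor F (Metric.closedBall 0 R) u = 0 :=
        Function.locallyFinsuppWithin.apply_eq_zero_of_notMem _ hu
      rw [this]
      simp
  simp only [Int.cast_zero, zero_mul, add_zero]
  linarith

theorem hp_jenu {F : ℂ → ℂ} {R M : ℝ} (hR : 0 < R) (hF : AnalyticOnNhd ℂ F (Metric.closedBall 0 R))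
    (h0 : F 0 ≠ 0) : Real.log ‖F 0‖ ≤
      Real.circleAverage (fun z => Real.log (max ‖F z‖ (Real.exp (-M)))) 0 R := by
  have hR' : |R| = R := abs_of_pos hR
  refine (hp_jen hR hF h0).trans ?_
  have hcod : ∀ᶠ z in codiscreteWithin (Metric.sphere (0 : ℂ) |R|), F z ≠ 0 := by
    have h := AnalyticOnNhd.preimage_zero_mem_codiscreteWithin (x := 0) hF h0 (by simp [hR.le])
      ⟨⟨0, by simp [hR.le]⟩, Metric.isPreconnected_closedBall⟩
    exact (codiscreteWithin_mono (by rw [hR']; exact Metric.sphere_subset_closedBall)) h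
  have hcod2 : (fun z => Real.log ‖F z‖) =ᶠ[codiscreteWithin (Metric.sphere (0 : ℂ) |R|)]
      (fun z => min (Real.log ‖F z‖) (Real.log (max ‖F z‖ (Real.exp (-M))))) := by
    filter_upwards [hcod] with z hz
    rw [min_eq_left]
    exact Real.log_le_log (norm_pos_iff.mpr hz) (le_max_left _ _)
  rw [Real.circleAverage_congr_codiscreteWithin hcod2 hR.ne']
  have hi : CircleIntegrable (fun z => Real.log ‖F z‖) 0 R := 
    MeromorphicOn.circleIntegrable_log_norm (fun z hz => hF.meromorphicOn z (by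
      rw [hR'] at hz; exact Metric.sphere_subset_closedBall hz))
  apply Real.circleAverage_mono
  · exact hi.congr_codiscreteWithin hcod2
  · apply ContinuousOn.circleIntegrable'
    rw [hR']
    have hc : ContinuousOn F (Metric.sphere 0 R) := hF.continuousOn.mono Metric.sphere_subset_closedBall
    apply ContinuousOn.log
    · exact ContinuousOn.sup hc.norm continuousOn_const
    · intro z _
      exact (lt_of_lt_of_le (Real.exp_pos _) (le_max_right _ _)).ne'
  · intro z _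
    exact min_le_right _ _

/-- the conformal map -/
noncomputable def hpphi (x0 a t0 : ℝ) (z : ℂ) : ℂ := (x0 : ℂ) + I * t0 + a * ((1 + z) / (1 - z))

theorem hpphi_zero (x0 a t0 : ℝ) : hpphi x0 a t0 0 = (x0 : ℂ) + a + I * t0 := by
  simp [hpphi]; ring

theorem hpphi_re (x0 a t0 : ℝ) (z : ℂ) :
    (hpphi x0 a t0 z).re = x0 + a * ((1 - normSq z) / normSq (1 - z)) := by
  have h : ((1 + z) / (1 - z)).re = (1 - normSq z) / normSq (1 - z) := by
    rw [Complex.div_re, ← add_div]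
    congr 1
    simp [normSq_apply]; ring
  simp only [hpphi, add_re, re_ofReal_mul, h]
  simp

theorem hpphi_re_lt {x0 a t0 : ℝ} (ha : 0 < a) {z : ℂ} (hz : ‖z‖ < 1) : x0 < (hpphi x0 a t0 z).re := by
  rw [hpphi_re]
  have h1 : 0 < 1 - normSq z := by
    rw [normSq_eq_norm_sq]
    nlinarith [norm_nonneg z]
  have h2 : 0 < normSq (1 - z) := by
    rw [normSq_pos]
    intro h
    rw [sub_eq_zero] at h
    rw [← h] at hz
    simp at hz
  have := mul_pos ha (div_pos h1 h2)
  linarith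

theorem hpphi_re_le {x0 a t0 : ℝ} (ha : 0 < a) {z : ℂ} (hz : ‖z‖ ≤ 1) : x0 ≤ (hpphi x0 a t0 z).re := by
  rw [hpphi_re]
  have h1 : 0 ≤ 1 - normSq z := by
    rw [normSq_eq_norm_sq]
    nlinarith [norm_nonneg z]
  have h2 : 0 ≤ normSq (1 - z) := normSq_nonneg _
  have := mul_nonneg ha.le (div_nonneg h1 h2)
  linarith

theorem hpphi_cont {x0 a t0 : ℝ} {z : ℂ} (hz : z ≠ 1) : DifferentiableAt ℂ (hpphi x0 a t0) z := by
  unfold hpphi
  have : 1 - z ≠ 0 := sub_ne_zero.mpr hz.symm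
  fun_prop (disch := assumption)

theorem hpphi_norm {x0 a t0 : ℝ} (ha : 0 < a) {z : ℂ} {δ : ℝ} (hz : ‖z‖ ≤ 1) (hδ : 0 < δ) (hδ2 : δ ≤ 2)
    (h : δ ≤ 2 * ‖1 - z‖) : 1 + ‖hpphi x0 a t0 z‖ ≤ (2 * (1 + |x0| + |t0|) + 4 * a) / δ := by
  have h1 : ‖hpphi x0 a t0 z‖ ≤ |x0| + |t0| + a * (‖1 + z‖ / ‖1 - z‖) := by
    unfold hpphi
    refine (norm_add_le _ _).trans ?_
    refine add_le_add ((norm_add_le _ _).trans ?_) ?_
    · simp
    · simp [abs_of_pos ha]
  have h2 : ‖1 + z‖ ≤ 2 := by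
    refine (norm_add_le _ _).trans ?_
    simp; linarith
  have hp : 0 < ‖1 - z‖ := by linarith
  have h3 : ‖1 + z‖ / ‖1 - z‖ ≤ 4 / δ := by
    rw [div_le_div_iff₀ hp hδ]
    nlinarith [norm_nonneg (1 + z)]
  have h4 : a * (‖1 + z‖ / ‖1 - z‖) ≤ a * (4 / δ) := mul_le_mul_of_nonneg_left h3 ha.le
  have h5 : 1 + |x0| + |t0| ≤ 2 * (1 + |x0| + |t0|) / δ := by
    rw [le_div_iff₀ hδ]
    have : 0 ≤ 1 + |x0| + |t0| := by positivity
    nlinarith
  rw [add_div]
  have h6 : a * (4 / δ) = 4 * a / δ := by ring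
  rw [h6] at h4
  linarith

theorem hp_bound {f : ℂ → ℂ} {x0 a t0 M C A : ℝ} (ha : 0 < a) (hM : 0 ≤ M) (hA : 0 ≤ A) (hC : 0 ≤ C)
    (hg : ∀ s : ℂ, x0 ≤ s.re → ‖f s‖ ≤ C * (1 + ‖s‖) ^ A) {z : ℂ} {δ : ℝ} (hz : ‖z‖ ≤ 1) (hδ : 0 < δ) (hδ2 : δ ≤ 2)
    (h : δ ≤ 2 * ‖1 - z‖) :
    ‖Real.log (max ‖f (hpphi x0 a t0 z)‖ (Real.exp (-M)))‖ ≤
      M + Real.log (max C 1) + A * Real.log (2 * (1 + |x0| + |t0|) + 4 * a) + A * |Real.log δ| := by
  set B := 2 * (1 + |x0| + |t0|) + 4 * a with hB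
  have hB2 : 2 ≤ B := by
    have : 0 ≤ |x0| := abs_nonneg _
    have : 0 ≤ |t0| := abs_nonneg _
    linarith
  have hlo : -M ≤ Real.log (max ‖f (hpphi x0 a t0 z)‖ (Real.exp (-M))) := by
    rw [Real.le_log_iff_exp_le (lt_of_lt_of_le (Real.exp_pos _) (le_max_right _ _))]
    exact le_max_right _ _
  have hBd : 1 ≤ B / δ := by
    rw [le_div_iff₀ hδ]; linarith
  have hrp : 1 ≤ (B / δ) ^ A := Real.one_le_rpow hBd hA
  have hup : max ‖f (hpphi x0 a t0 z)‖ (Real.exp (-M)) ≤ max C 1 * (B / δ) ^ A := by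
    apply max_le
    · refine (hg _ (hpphi_re_le ha hz)).trans ?_
      apply mul_le_mul (le_max_left _ _) _ (by positivity) (by positivity)
      apply Real.rpow_le_rpow (by positivity) (hpphi_norm ha hz hδ hδ2 h) hA
    · have : Real.exp (-M) ≤ 1 := by
        rw [Real.exp_le_one_iff]; linarith
      refine this.trans ?_
      exact one_le_mul_of_one_le_of_one_le (le_max_right _ _) hrp
  have hup2 : Real.log (max ‖f (hpphi x0 a t0 z)‖ (Real.exp (-M))) ≤
      Real.log (max C 1) + A * (Real.log B - Real.log δ) := by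
    refine (Real.log_le_log (lt_of_lt_of_le (Real.exp_pos _) (le_max_right _ _)) hup).trans ?_
    rw [Real.log_mul (by positivity) (by positivity), Real.log_rpow (by positivity),
      Real.log_div (by positivity) hδ.ne']
  have hC1 : 0 ≤ Real.log (max C 1) := Real.log_nonneg (le_max_right _ _)
  have hB1 : 0 ≤ Real.log B := Real.log_nonneg (by linarith)
  have h7 : -Real.log δ ≤ |Real.log δ| := neg_le_abs _
  have h8 : A * (-Real.log δ) ≤ A * |Real.log δ| := mul_le_mul_of_nonneg_left h7 hA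
  have h9 : 0 ≤ A * |Real.log δ| := by positivity
  have h10 : 0 ≤ A * Real.log B := by positivity
  rw [Real.norm_eq_abs, abs_le]
  constructor
  · linarith
  · nlinarith

theorem hp_circ (r θ : ℝ) (hr0 : 0 ≤ r) (hr : r ≤ 1) : ‖circleMap 0 1 θ - 1‖ ≤ 2 * ‖1 - circleMap 0 r θ‖ := by
  have h1 : circleMap 0 r θ = r * circleMap 0 1 θ := by simp [circleMap]
  have h2 : ‖circleMap 0 r θ‖ = r := by simp [circleMap, abs_of_nonneg hr0]
  have h2' : ‖circleMap 0 1 θ‖ = 1 := by simp [circleMap]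
  have h3 : 1 - r ≤ ‖1 - circleMap 0 r θ‖ := by
    have := norm_sub_norm_le (1 : ℂ) (circleMap 0 r θ)
    rw [h2] at this
    simpa using this
  have h4 : circleMap 0 1 θ - 1 = (1 - r : ℝ) * circleMap 0 1 θ - (1 - circleMap 0 r θ) := by
    rw [h1]; push_cast; ring
  rw [h4]
  refine (norm_sub_le _ _).trans ?_
  rw [norm_mul, h2', Complex.norm_real, Real.norm_eq_abs, abs_of_nonneg (by linarith)]
  linarith

theorem hp_circ_ne {θ : ℝ} (h0 : 0 < θ) (h1 : θ < 2 * Real.pi) : circleMap 0 1 θ ≠ 1 := by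
  intro h
  have h2 : (circleMap 0 1 θ).re = Real.cos θ := by simp [circleMap, Complex.exp_ofReal_mul_I_re]
  rw [h] at h2
  have h3 : Real.cos θ = 1 := by simpa using h2.symm
  rw [Real.cos_eq_one_iff_of_lt_of_lt (by linarith [Real.pi_pos]) h1] at h3
  linarith

theorem hp_limit {f : ℂ → ℂ} {x0 a t0 M C A : ℝ} (ha : 0 < a) (hM : 0 ≤ M) (hA : 0 ≤ A) (hC : 0 ≤ C)
    (hd : ∀ s : ℂ, x0 < s.re → DifferentiableAt ℂ f s) (hc : ContinuousOn f {s : ℂ | x0 ≤ s.re})
    (hg : ∀ s : ℂ, x0 ≤ s.re → ‖f s‖ ≤ C * (1 + ‖s‖) ^ A)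
    (hne : f ((x0 : ℂ) + a + I * t0) ≠ 0) :
    Real.log ‖f ((x0 : ℂ) + a + I * t0)‖ ≤
      (2 * Real.pi)⁻¹ * ∫ θ in (0:ℝ)..(2 * Real.pi),
        Real.log (max ‖f (hpphi x0 a t0 (circleMap 0 1 θ))‖ (Real.exp (-M))) := by
  set G : ℝ → ℝ → ℝ := fun r θ => Real.log (max ‖f (hpphi x0 a t0 (circleMap 0 r θ))‖ (Real.exp (-M))) with hG
  have hcu : ∀ w : ℂ, ContinuousAt (fun w : ℂ => Real.log (max ‖w‖ (Real.exp (-M)))) w := by
    intro w
    apply ContinuousAt.log
    · exact (continuous_norm.max continuous_const).continuousAt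
    · exact (lt_of_lt_of_le (Real.exp_pos _) (le_max_right _ _)).ne'
  have hpi : 0 < 2 * Real.pi := by positivity
  -- pointwise limit
  have hlim : ∀ θ : ℝ, 0 < θ → θ < 2 * Real.pi → Tendsto (fun r => G r θ) (𝓝[<] 1) (𝓝 (G 1 θ)) := by
    intro θ h1 h2
    have h3 : Tendsto (fun r : ℝ => circleMap 0 r θ) (𝓝[<] 1) (𝓝 (circleMap 0 1 θ)) := by
      have : Continuous (fun r : ℝ => circleMap 0 r θ) := by
        unfold circleMap; fun_prop
      exact (this.tendsto 1).mono_left nhdsWithin_le_nhds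
    have h4 : Tendsto (fun r : ℝ => hpphi x0 a t0 (circleMap 0 r θ)) (𝓝[<] 1)
        (𝓝 (hpphi x0 a t0 (circleMap 0 1 θ))) :=
      ((hpphi_cont (hp_circ_ne h1 h2)).continuousAt.tendsto).comp h3
    have h5 : Tendsto (fun r : ℝ => hpphi x0 a t0 (circleMap 0 r θ)) (𝓝[<] 1)
        (𝓝[{s : ℂ | x0 ≤ s.re}] (hpphi x0 a t0 (circleMap 0 1 θ))) := by
      rw [tendsto_nhdsWithin_iff]
      refine ⟨h4, ?_⟩
      have : Ioo (0:ℝ) 1 ∈ 𝓝[<] (1:ℝ) := Ioo_mem_nhdsLT (by norm_num)
      filter_upwards [this] with r hr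
      apply hpphi_re_le ha
      simp [circleMap, abs_of_pos hr.1, hr.2.le]
    have h6 := (hc (hpphi x0 a t0 (circleMap 0 1 θ)) (hpphi_re_le ha (by simp [circleMap]))).tendsto.comp h5
    exact ((hcu _).tendsto).comp h6
  -- continuity for fixed r
  have hGc : ∀ r : ℝ, 0 < r → r < 1 → Continuous (G r) := by
    intro r hr hr1
    rw [continuous_iff_continuousAt]
    intro θ
    have hn : ‖circleMap 0 r θ‖ < 1 := by simp [circleMap, abs_of_pos hr, hr1]
    have h3 : ContinuousAt (fun θ : ℝ => circleMap 0 r θ) θ := (continuous_circleMap 0 r).continuousAt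
    have h4 : ContinuousAt (hpphi x0 a t0) (circleMap 0 r θ) := by
      apply (hpphi_cont _).continuousAt
      intro h
      rw [h] at hn
      simp at hn
    have h5 : ContinuousAt f (hpphi x0 a t0 (circleMap 0 r θ)) := (hd _ (hpphi_re_lt ha hn)).continuousAt
    exact ContinuousAt.comp (f := fun θ : ℝ => f (hpphi x0 a t0 (circleMap 0 r θ))) (hcu _)
      (ContinuousAt.comp (f := fun θ : ℝ => hpphi x0 a t0 (circleMap 0 r θ)) h5
        (ContinuousAt.comp (f := fun θ : ℝ => circleMap 0 r θ) h4 h3))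
  have hT : Tendsto (fun r => ∫ θ in (0:ℝ)..(2 * Real.pi), G r θ) (𝓝[<] 1)
      (𝓝 (∫ θ in (0:ℝ)..(2 * Real.pi), G 1 θ)) := by
    have hI : Ioo (0:ℝ) 1 ∈ 𝓝[<] (1:ℝ) := Ioo_mem_nhdsLT (by norm_num)
    have hae : ∀ᵐ θ : ℝ, θ ≠ 2 * Real.pi := by
      rw [ae_iff]; simp
    apply intervalIntegral.tendsto_integral_filter_of_dominated_convergence
      (fun θ => M + Real.log (max C 1) + A * Real.log (2 * (1 + |x0| + |t0|) + 4 * a) +
        A * |Real.log ‖circleMap 0 1 θ - 1‖|)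
    · filter_upwards [hI] with r hr
      exact (hGc r hr.1 hr.2).aestronglyMeasurable
    · filter_upwards [hI] with r hr
      filter_upwards [hae] with θ hθ hθ2
      rw [uIoc_of_le hpi.le] at hθ2
      have h1 : 0 < θ := hθ2.1
      have h2 : θ < 2 * Real.pi := lt_of_le_of_ne hθ2.2 hθ
      apply hp_bound ha hM hA hC hg
      · simp [circleMap, abs_of_pos hr.1, hr.2.le]
      · rw [norm_pos_iff, sub_ne_zero]
        exact hp_circ_ne h1 h2
      · refine (norm_sub_le _ _).trans ?_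
        simp [circleMap]; norm_num
      · exact hp_circ r θ hr.1.le hr.2.le
    · apply IntervalIntegrable.add
      · exact intervalIntegrable_const
      · have h := circleIntegrable_log_norm_sub_const (c := 0) (a := 1) (1 : ℝ)
        exact (IntervalIntegrable.abs h).const_mul A
    · filter_upwards [hae] with θ hθ hθ2
      rw [uIoc_of_le hpi.le] at hθ2
      exact hlim θ hθ2.1 (lt_of_le_of_ne hθ2.2 hθ)
  have hT2 : Tendsto (fun r => (2 * Real.pi)⁻¹ * ∫ θ in (0:ℝ)..(2 * Real.pi), G r θ) (𝓝[<] 1)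
      (𝓝 ((2 * Real.pi)⁻¹ * ∫ θ in (0:ℝ)..(2 * Real.pi), G 1 θ)) := hT.const_mul _
  refine ge_of_tendsto hT2 ?_
  have hI : Ioo (0:ℝ) 1 ∈ 𝓝[<] (1:ℝ) := Ioo_mem_nhdsLT (by norm_num)
  filter_upwards [hI] with r hr
  have hdF : DifferentiableOn ℂ (fun z => f (hpphi x0 a t0 z)) (Metric.ball 0 1) := by
    intro z hz
    have hz1 : ‖z‖ < 1 := by simpa using hz
    apply DifferentiableAt.differentiableWithinAt
    apply DifferentiableAt.comp (g := f) (f := hpphi x0 a t0) z
    · exact hd _ (hpphi_re_lt ha hz1)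
    · apply hpphi_cont
      intro h
      rw [h] at hz1
      simp at hz1
  have hAn := (hdF.analyticOnNhd Metric.isOpen_ball).mono (Metric.closedBall_subset_ball hr.2)
  have hJ := hp_jenu (M := M) hr.1 hAn (by
    show f (hpphi x0 a t0 0) ≠ 0
    rw [hpphi_zero]; exact hne)
  simp only [hpphi_zero] at hJ
  refine hJ.trans (le_of_eq ?_)
  rw [Real.circleAverage_def, smul_eq_mul]

theorem hp_exp (s : ℝ) : circleMap 0 1 (Real.pi - 2 * Real.arctan s) = (I * s - 1) / (I * s + 1) := by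
  have hpos : 0 < 1 + s ^ 2 := by positivity
  have hsq : (Real.sqrt (1 + s ^ 2)) ^ 2 = 1 + s ^ 2 := Real.sq_sqrt hpos.le
  have hsqp : 0 < Real.sqrt (1 + s ^ 2) := Real.sqrt_pos.mpr hpos
  have h1 : Real.cos (Real.pi - 2 * Real.arctan s) = (s ^ 2 - 1) / (1 + s ^ 2) := by
    rw [Real.cos_pi_sub, Real.cos_two_mul, Real.cos_arctan, div_pow, hsq]
    field_simp
    ring
  have h2 : Real.sin (Real.pi - 2 * Real.arctan s) = (2 * s) / (1 + s ^ 2) := by
    rw [Real.sin_pi_sub, Real.sin_two_mul, Real.cos_arctan, Real.sin_arctan]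
    rw [show 2 * (s / Real.sqrt (1 + s ^ 2)) * (1 / Real.sqrt (1 + s ^ 2)) = 2 * s / (Real.sqrt (1 + s ^ 2)) ^ 2 by
      field_simp]
    rw [hsq]
  have h3 : circleMap 0 1 (Real.pi - 2 * Real.arctan s) =
      (Real.cos (Real.pi - 2 * Real.arctan s) : ℂ) + (Real.sin (Real.pi - 2 * Real.arctan s) : ℂ) * I := by
    rw [circleMap]
    rw [Complex.exp_mul_I]
    push_cast
    ring
  rw [h3, h1, h2]
  have h4 : (I * s + 1 : ℂ) ≠ 0 := by
    intro h
    have := congrArg Complex.re h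
    simp at this
  have h5 : (1 + (s:ℂ) ^ 2) ≠ 0 := by
    exact_mod_cast hpos.ne'
  push_cast
  rw [eq_div_iff h4]
  field_simp
  have hI2 : I ^ 2 = -1 := Complex.I_sq
  ring_nf
  rw [hI2]
  ring

theorem hp_phi_t (x0 a t0 t : ℝ) (ha : 0 < a) :
    hpphi x0 a t0 (circleMap 0 1 (Real.pi - 2 * Real.arctan ((t - t0) / a))) = (x0 : ℂ) + I * t := by
  rw [hp_exp, hpphi]
  set s : ℝ := (t - t0) / a with hs
  have h4 : (I * s + 1 : ℂ) ≠ 0 := by
    intro h
    have := congrArg Complex.re h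
    simp at this
  have h6 : (1 + (I * s - 1) / (I * s + 1) : ℂ) / (1 - (I * s - 1) / (I * s + 1)) = I * s := by
    have h7 : (1 - (I * s - 1) / (I * s + 1) : ℂ) = 2 / (I * s + 1) := by
      field_simp; ring
    have h8 : (1 + (I * s - 1) / (I * s + 1) : ℂ) = 2 * (I * s) / (I * s + 1) := by
      field_simp; ring
    rw [h7, h8]
    field_simp
  rw [h6]
  have h9 : t = t0 + a * s := by rw [hs]; field_simp; ring
  rw [h9]; push_cast; ring

theorem hp_cov (g : ℝ → ℝ) (a t0 : ℝ) (ha : 0 < a) :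
    ∫ θ in (0:ℝ)..(2 * Real.pi), g θ =
      ∫ t : ℝ, (2 * a / (a ^ 2 + (t - t0) ^ 2)) * g (Real.pi - 2 * Real.arctan ((t - t0) / a)) := by
  have hpi := Real.pi_pos
  set θ : ℝ → ℝ := fun t => Real.pi - 2 * Real.arctan ((t - t0) / a) with hθ
  have hder : ∀ t ∈ (univ : Set ℝ), HasDerivWithinAt θ (-(2 * a / (a ^ 2 + (t - t0) ^ 2))) univ t := by
    intro t _
    rw [hasDerivWithinAt_univ]
    have h1 : HasDerivAt (fun t : ℝ => (t - t0) / a) (1 / a) t :=
      ((hasDerivAt_id t).sub_const t0).div_const a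
    have h2 := (h1.arctan.const_mul 2).const_sub Real.pi
    refine h2.congr_deriv ?_
    have : a ^ 2 + (t - t0) ^ 2 ≠ 0 := by positivity
    field_simp
  have hinj : InjOn θ univ := by
    intro x _ y _ h
    simp only [hθ] at h
    have h1 : Real.arctan ((x - t0) / a) = Real.arctan ((y - t0) / a) := by linarith
    have h2 := Real.arctan_injective h1
    field_simp at h2
    linarith
  have himg : θ '' univ = Ioo 0 (2 * Real.pi) := by
    ext y
    constructor
    · rintro ⟨t, _, rfl⟩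
      have h1 := Real.arctan_lt_pi_div_two ((t - t0) / a)
      have h2 := Real.neg_pi_div_two_lt_arctan ((t - t0) / a)
      constructor
      · simp only [hθ]; linarith
      · simp only [hθ]; linarith
    · rintro ⟨h1, h2⟩
      refine ⟨t0 + a * Real.tan ((Real.pi - y) / 2), trivial, ?_⟩
      simp only [hθ]
      have : (t0 + a * Real.tan ((Real.pi - y) / 2) - t0) / a = Real.tan ((Real.pi - y) / 2) := by
        field_simp; ring
      rw [this, Real.arctan_tan (by linarith) (by linarith)]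
      ring
  have h := integral_image_eq_integral_abs_deriv_smul MeasurableSet.univ hder hinj g
  rw [himg] at h
  rw [intervalIntegral.integral_of_le (by positivity), integral_Ioc_eq_integral_Ioo, h]
  rw [Measure.restrict_univ]
  apply integral_congr_ae
  filter_upwards with t
  rw [abs_neg, abs_of_nonneg (by positivity), smul_eq_mul]

theorem hp (f : ℂ → ℂ) (x0 a t0 M C A : ℝ) (ha : 0 < a) (hM : 0 ≤ M) (hA : 0 ≤ A) (hC : 0 ≤ C)
    (hd : ∀ s : ℂ, x0 < s.re → DifferentiableAt ℂ f s) (hc : ContinuousOn f {s : ℂ | x0 ≤ s.re})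
    (hg : ∀ s : ℂ, x0 ≤ s.re → ‖f s‖ ≤ C * (1 + ‖s‖) ^ A)
    (hne : f ((x0 : ℂ) + a + I * t0) ≠ 0) :
    Real.log ‖f ((x0 : ℂ) + a + I * t0)‖ ≤
      ∫ t : ℝ, a / (Real.pi * (a ^ 2 + (t - t0) ^ 2)) * Real.log (max ‖f ((x0 : ℂ) + I * t)‖ (Real.exp (-M))) := by
  refine (hp_limit ha hM hA hC hd hc hg hne).trans (le_of_eq ?_)
  rw [hp_cov _ a t0 ha, ← integral_const_mul]
  apply integral_congr_ae
  filter_upwards with t
  rw [hp_phi_t x0 a t0 t ha]
  have hpi := Real.pi_pos
  have : a ^ 2 + (t - t0) ^ 2 ≠ 0 := by positivity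
  field_simp

end Pool.Agent.Helper647.SG.JHP
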