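import Mathlib

set_option autoImplicit false

namespace Pool.Agent.Helper647.SG.JHZ

open Complex Filter Topology MeasureTheory Set

/-- the mollifier -/
noncomputable def Bz (Y : ℕ) (β : ℕ → ℝ) (t : ℝ) : ℂ :=
  ∑ h ∈ Finset.Icc 1 Y, ((β h : ℝ) : ℂ) * (h : ℂ) ^ (-(1 / 2 + I * t))

theorem g_diff (s : ℂ) : DifferentiableAt ℂ (Function.update (fun s : ℂ => (s - 1) * riemannZeta s) 1 1) s := by
  by_cases h : s = 1
  · subst h
    refine (Complex.analyticAt_of_differentiable_on_punctured_nhds_of_continuousAt ?_ ?_).differentiableAt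
    · filter_upwards [self_mem_nhdsWithin] with z hz
      have hz' : z ≠ 1 := hz
      have : (Function.update (fun s : ℂ => (s - 1) * riemannZeta s) 1 1) =ᶠ[𝓝 z] fun s : ℂ => (s - 1) * riemannZeta s := by
        filter_upwards [isOpen_ne.mem_nhds hz'] with w hw
        exact Function.update_of_ne hw _ _
      refine DifferentiableAt.congr_of_eventuallyEq ?_ this
      exact (differentiableAt_id.sub_const 1).mul (differentiableAt_riemannZeta hz')
    · rw [continuousAt_update_same]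
      exact riemannZeta_residue_one
  · have : (Function.update (fun s : ℂ => (s - 1) * riemannZeta s) 1 1) =ᶠ[𝓝 s] fun s : ℂ => (s - 1) * riemannZeta s := by
      filter_upwards [isOpen_ne.mem_nhds h] with w hw
      exact Function.update_of_ne hw _ _
    refine DifferentiableAt.congr_of_eventuallyEq ?_ this
    exact (differentiableAt_id.sub_const 1).mul (differentiableAt_riemannZeta h)

theorem B_diff (Y : ℕ) (β : ℕ → ℝ) (s : ℂ) :
    DifferentiableAt ℂ (fun s : ℂ => ∑ h ∈ Finset.Icc 1 Y, ((β h : ℝ) : ℂ) * (h : ℂ) ^ (-s)) s := by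
  refine DifferentiableAt.fun_sum fun h hh => ?_
  have h0 : (h : ℂ) ≠ 0 := by
    have := (Finset.mem_Icc.1 hh).1
    exact_mod_cast (show h ≠ 0 by omega)
  refine DifferentiableAt.const_mul ?_ _
  exact (differentiableAt_id.neg).const_cpow (Or.inl h0)

theorem term_norm (h : ℕ) (hh : 1 ≤ h) (s : ℂ) : ‖(h : ℂ) ^ (-s)‖ = (h : ℝ) ^ (-s.re) := by
  rw [Complex.norm_natCast_cpow_of_pos hh, Complex.neg_re]

theorem B_norm (Y : ℕ) (β : ℕ → ℝ) (hβ : ∀ h, |β h| ≤ 1) (s : ℂ) (hs : 0 ≤ s.re) :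
    ‖∑ h ∈ Finset.Icc 1 Y, ((β h : ℝ) : ℂ) * (h : ℂ) ^ (-s)‖ ≤ Y := by
  refine (norm_sum_le _ _).trans ?_
  have : ∀ h ∈ Finset.Icc 1 Y, ‖((β h : ℝ) : ℂ) * (h : ℂ) ^ (-s)‖ ≤ 1 := by
    intro h hh
    have h1 := (Finset.mem_Icc.1 hh).1
    rw [norm_mul, term_norm h h1, Complex.norm_real, Real.norm_eq_abs]
    have h2 : (h : ℝ) ^ (-s.re) ≤ 1 := Real.rpow_le_one_of_one_le_of_nonpos (by exact_mod_cast h1) (by linarith)
    calc _ ≤ 1 * 1 := mul_le_mul (hβ h) h2 (by positivity) (by norm_num)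
      _ = 1 := by norm_num
  refine (Finset.sum_le_sum this).trans ?_
  simp

theorem cube_sum (Y : ℕ) (hY : 1 ≤ Y) : ∑ h ∈ Finset.Icc 2 Y, ((h : ℝ) ^ 3)⁻¹ ≤ 1 / 2 - 1 / (2 * Y) := by
  induction Y, hY using Nat.le_induction with
  | base => simp
  | succ n hn ih =>
    rw [Finset.sum_Icc_succ_top (by omega)]
    have hn' : (1 : ℝ) ≤ n := by exact_mod_cast hn
    have h1 : (((n + 1 : ℕ) : ℝ) ^ 3)⁻¹ ≤ 1 / (2 * n) - 1 / (2 * ((n + 1 : ℕ) : ℝ)) := by
      push_cast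
      have h2 : 1 / (2 * (n : ℝ)) - 1 / (2 * ((n : ℝ) + 1)) = 1 / (2 * n * (n + 1)) := by
        field_simp; ring
      rw [h2, inv_eq_one_div]
      refine one_div_le_one_div_of_le (by positivity) ?_
      nlinarith [sq_nonneg ((n : ℝ) + 1), mul_pos (show (0 : ℝ) < n by linarith) (show (0 : ℝ) < n + 1 by linarith)]
    linarith

/-- a sum of terms with coefficients bounded by one at real part three -/
theorem near_one (Y : ℕ) (hY : 1 ≤ Y) (c : ℕ → ℂ) (hc : ∀ h, ‖c h‖ ≤ 1) (hc1 : c 1 = 1) (s : ℂ) (hs : s.re = 3) :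
    ‖(∑ h ∈ Finset.Icc 1 Y, c h * (h : ℂ) ^ (-s)) - 1‖ ≤ 1 / 2 := by
  have e : ∑ h ∈ Finset.Icc 1 Y, c h * (h : ℂ) ^ (-s) = 1 + ∑ h ∈ Finset.Icc 2 Y, c h * (h : ℂ) ^ (-s) := by
    rw [← Finset.insert_Icc_add_one_left_eq_Icc hY, Finset.sum_insert (by simp)]
    simp [hc1]
  rw [e, add_sub_cancel_left]
  refine (norm_sum_le _ _).trans ?_
  have : ∀ h ∈ Finset.Icc 2 Y, ‖c h * (h : ℂ) ^ (-s)‖ ≤ ((h : ℝ) ^ 3)⁻¹ := by
    intro h hh
    have h1 := (Finset.mem_Icc.1 hh).1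
    rw [norm_mul, term_norm h (by omega), hs]
    have h2 : (h : ℝ) ^ (-(3 : ℝ)) = ((h : ℝ) ^ 3)⁻¹ := by
      rw [Real.rpow_neg (by positivity)]
      norm_cast
    rw [h2]
    calc _ ≤ 1 * ((h : ℝ) ^ 3)⁻¹ := mul_le_mul_of_nonneg_right (hc h) (by positivity)
      _ = _ := one_mul _
  refine (Finset.sum_le_sum this).trans ((cube_sum Y hY).trans ?_)
  have : (0 : ℝ) ≤ 1 / (2 * Y) := by positivity
  linarith

theorem zeta_near (s : ℂ) (hs : s.re = 3) : ‖riemannZeta s - 1‖ ≤ 1 / 2 := by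
  have h1 : 1 < s.re := by rw [hs]; norm_num
  have hsum : HasSum (fun n : ℕ => 1 / (n : ℂ) ^ s) (riemannZeta s) := by
    rw [zeta_eq_tsum_one_div_nat_cpow h1]
    exact (Complex.summable_one_div_nat_cpow.2 h1).hasSum
  have ht := (hsum.tendsto_sum_nat.sub_const (1 : ℂ)).norm
  refine le_of_tendsto ht ?_
  filter_upwards [eventually_ge_atTop 2] with N hN
  have e : ∑ i ∈ Finset.range N, 1 / (i : ℂ) ^ s = ∑ h ∈ Finset.Icc 1 (N - 1), (1 : ℂ) * (h : ℂ) ^ (-s) := by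
    obtain ⟨m, rfl⟩ : ∃ m, N = m + 1 := ⟨N - 1, by omega⟩
    rw [Nat.add_sub_cancel, Finset.range_eq_Ico, Finset.sum_eq_sum_Ico_succ_bot (by omega)]
    have hs0 : s ≠ 0 := by
      rintro rfl; simp at hs
    rw [Nat.cast_zero, Complex.zero_cpow hs0, div_zero, zero_add]
    refine Finset.sum_congr ?_ fun h hh => ?_
    · ext x; simp only [Finset.mem_Ico, Finset.mem_Icc]; omega
    · rw [Complex.cpow_neg, one_div, one_mul]
  rw [e]
  exact near_one (N - 1) (by omega) (fun _ => 1) (by simp) rfl s hs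

theorem ker_int (t0 K : ℝ) (F : ℝ → ℝ) (hF : Continuous F)
    (hb : ∀ t : ℝ, |F t| ≤ K * (1 + |t|) ^ (1 / 2 : ℝ)) :
    Integrable fun t : ℝ => (5 / 2) / (Real.pi * ((5 / 2) ^ 2 + (t - t0) ^ 2)) * F t := by
  have hi : Integrable fun t : ℝ => (1 + ‖t‖) ^ (-(3 / 2) : ℝ) :=
    integrable_one_add_norm (by simp; norm_num)
  refine ((hi.const_mul (K * (2 * (1 + |t0|) ^ 2))).mono' ?_ ?_)
  · refine Continuous.aestronglyMeasurable ?_
    refine Continuous.mul ?_ hF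
    refine continuous_const.div (by fun_prop) fun t => ?_
    have : 0 < Real.pi * ((5 / 2) ^ 2 + (t - t0) ^ 2) := by positivity
    exact this.ne'
  · refine Eventually.of_forall fun t => ?_
    rw [Real.norm_eq_abs, abs_mul, Real.norm_eq_abs]
    have hden : 0 < Real.pi * ((5 / 2) ^ 2 + (t - t0) ^ 2) := by positivity
    rw [abs_of_nonneg (show 0 ≤ (5 / 2) / (Real.pi * ((5 / 2) ^ 2 + (t - t0) ^ 2)) by positivity)]
    have h1 : (1 + |t|) ^ 2 ≤ 2 * (1 + |t0|) ^ 2 * ((5 / 2) ^ 2 + (t - t0) ^ 2) := by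
      have a1 : |t| ≤ |t0| + |t - t0| := by
        have := abs_add_le t0 (t - t0)
        rwa [add_sub_cancel] at this
      have a2 : (1 + |t|) ^ 2 ≤ ((1 + |t0|) + |t - t0|) ^ 2 :=
        pow_le_pow_left₀ (by positivity) (by linarith) 2
      have a3 : ((1 + |t0|) + |t - t0|) ^ 2 ≤ 2 * (1 + |t0|) ^ 2 + 2 * (t - t0) ^ 2 := by
        have := sq_abs (t - t0)
        nlinarith [sq_nonneg ((1 + |t0|) - |t - t0|)]
      have a4 : 1 ≤ (1 + |t0|) ^ 2 := by nlinarith [abs_nonneg t0]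
      have a5 : 2 * (t - t0) ^ 2 ≤ 2 * (1 + |t0|) ^ 2 * (t - t0) ^ 2 := by
        nlinarith [sq_nonneg (t - t0)]
      nlinarith [sq_nonneg (1 + |t0|)]
    have h2 : (5 / 2) / (Real.pi * ((5 / 2) ^ 2 + (t - t0) ^ 2)) ≤ 2 * (1 + |t0|) ^ 2 * (1 + |t|) ^ (-2 : ℝ) := by
      have hpi := Real.pi_gt_three
      have b1 : (1 + |t|) ^ (-2 : ℝ) = ((1 + |t|) ^ 2)⁻¹ := by
        rw [Real.rpow_neg (by positivity)]
        norm_cast
      rw [b1, div_le_iff₀ hden, ← div_eq_mul_inv, div_mul_eq_mul_div, le_div_iff₀ (by positivity)]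
      calc 5 / 2 * (1 + |t|) ^ 2 ≤ Real.pi * (1 + |t|) ^ 2 := by
            refine mul_le_mul_of_nonneg_right (by linarith) (by positivity)
        _ ≤ Real.pi * (2 * (1 + |t0|) ^ 2 * ((5 / 2) ^ 2 + (t - t0) ^ 2)) := by
            refine mul_le_mul_of_nonneg_left h1 Real.pi_pos.le
        _ = _ := by ring
    have h3 : (1 + |t|) ^ (-2 : ℝ) * (1 + |t|) ^ (1 / 2 : ℝ) = (1 + |t|) ^ (-(3 / 2) : ℝ) := by
      rw [← Real.rpow_add (by positivity)]
      norm_num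
    calc _ ≤ (2 * (1 + |t0|) ^ 2 * (1 + |t|) ^ (-2 : ℝ)) * (K * (1 + |t|) ^ (1 / 2 : ℝ)) :=
          mul_le_mul h2 (hb t) (abs_nonneg _) (by positivity)
      _ = K * (2 * (1 + |t0|) ^ 2) * ((1 + |t|) ^ (-2 : ℝ) * (1 + |t|) ^ (1 / 2 : ℝ)) := by ring
      _ = _ := by rw [h3]

theorem log_le_sqrt (x : ℝ) (hx : 1 ≤ x) : Real.log x ≤ 2 * x ^ (1 / 2 : ℝ) := by
  have h := Real.log_le_sub_one_of_pos (show 0 < x ^ (1 / 2 : ℝ) by positivity)
  rw [Real.log_rpow (by positivity)] at h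
  linarith

/-- the truncated logarithm of a function of polynomial growth -/
theorem logmax_bd (M D A t x : ℝ) (hM : 0 ≤ M) (hD : 1 ≤ D) (hA : 0 ≤ A) (_ : 0 ≤ x)
    (hxb : x ≤ D * (2 + |t|) ^ A) :
    |Real.log (max x (Real.exp (-M)))| ≤ (M + Real.log D + 4 * A) * (1 + |t|) ^ (1 / 2 : ℝ) := by
  have h1 : (1 : ℝ) ≤ (1 + |t|) ^ (1 / 2 : ℝ) := Real.one_le_rpow (by linarith [abs_nonneg t]) (by norm_num)
  have hlD : 0 ≤ Real.log D := Real.log_nonneg hD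
  have hpos : 0 < max x (Real.exp (-M)) := lt_max_of_lt_right (Real.exp_pos _)
  have hlow : -M ≤ Real.log (max x (Real.exp (-M))) := by
    rw [← Real.log_exp (-M)]
    exact Real.log_le_log (Real.exp_pos _) (by rw [Real.log_exp]; exact le_max_right _ _)
  have hone : (1 : ℝ) ≤ D * (2 + |t|) ^ A := by
    have : (1 : ℝ) ≤ (2 + |t|) ^ A := Real.one_le_rpow (by linarith [abs_nonneg t]) hA
    nlinarith
  have hup : Real.log (max x (Real.exp (-M))) ≤ Real.log D + 4 * A * (1 + |t|) ^ (1 / 2 : ℝ) := by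
    have h2 : max x (Real.exp (-M)) ≤ D * (2 + |t|) ^ A := by
      refine max_le hxb (le_trans ?_ hone)
      rw [Real.exp_le_one_iff]; linarith
    refine (Real.log_le_log hpos h2).trans ?_
    rw [Real.log_mul (by positivity) (by positivity), Real.log_rpow (by positivity)]
    have h3 : Real.log (2 + |t|) ≤ 4 * (1 + |t|) ^ (1 / 2 : ℝ) := by
      have h4 : (2 + |t|) ≤ 4 * (1 + |t|) := by linarith [abs_nonneg t]
      have h5 : (2 + |t|) ^ (1 / 2 : ℝ) ≤ (4 * (1 + |t|)) ^ (1 / 2 : ℝ) :=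
        Real.rpow_le_rpow (by positivity) h4 (by norm_num)
      rw [Real.mul_rpow (by norm_num) (by positivity)] at h5
      have h6 : (4 : ℝ) ^ (1 / 2 : ℝ) = 2 := by
        rw [show (4 : ℝ) = 2 ^ (2 : ℝ) by norm_num, ← Real.rpow_mul (by norm_num)]
        norm_num
      rw [h6] at h5
      have := log_le_sqrt (2 + |t|) (by linarith [abs_nonneg t])
      linarith
    nlinarith
  rw [abs_le]
  constructor
  · nlinarith [mul_nonneg hA (show 0 ≤ (1 + |t|) ^ (1 / 2 : ℝ) by linarith), mul_nonneg hlD (show 0 ≤ (1 + |t|) ^ (1 / 2 : ℝ) by linarith)]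
  · nlinarith [mul_nonneg hA (show 0 ≤ (1 + |t|) ^ (1 / 2 : ℝ) by linarith), mul_nonneg hlD (show 0 ≤ (1 + |t|) ^ (1 / 2 : ℝ) - 1 by linarith), mul_nonneg hM (show 0 ≤ (1 + |t|) ^ (1 / 2 : ℝ) by linarith)]

theorem hpz
    (hz : ∃ C A : ℝ, 0 ≤ C ∧ 0 ≤ A ∧ ∀ s : ℂ, 1 / 2 ≤ s.re → s ≠ 1 → ‖(s - 1) * riemannZeta s‖ ≤ C * (1 + ‖s‖) ^ A)
    (hp : ∀ (f : ℂ → ℂ) (x0 a t0 M C A : ℝ), 0 < a → 0 ≤ M → 0 ≤ A → 0 ≤ C →
      (∀ s : ℂ, x0 < s.re → DifferentiableAt ℂ f s) → ContinuousOn f {s : ℂ | x0 ≤ s.re} →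
      (∀ s : ℂ, x0 ≤ s.re → ‖f s‖ ≤ C * (1 + ‖s‖) ^ A) → f ((x0 : ℂ) + a + I * t0) ≠ 0 →
      Real.log ‖f ((x0 : ℂ) + a + I * t0)‖ ≤
        ∫ t : ℝ, a / (Real.pi * (a ^ 2 + (t - t0) ^ 2)) * Real.log (max ‖f ((x0 : ℂ) + I * t)‖ (Real.exp (-M)))) :
    ∃ c : ℝ, 0 < c ∧ ∀ (Y : ℕ) (β : ℕ → ℝ) (t0 M : ℝ), 1 ≤ Y → (∀ h, |β h| ≤ 1) → β 1 = 1 → 8 ≤ t0 → 0 ≤ M →
      -c ≤ ∫ t : ℝ, (5 / 2) / (Real.pi * ((5 / 2) ^ 2 + (t - t0) ^ 2)) *
        Real.log (max ‖riemannZeta (1 / 2 + I * t) * Bz Y β t ^ 2‖ (Real.exp (-M))) := by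
  obtain ⟨C, A, hC, hA, hz⟩ := hz
  refine ⟨Real.log 16, Real.log_pos (by norm_num), ?_⟩
  intro Y β t0 M hY hβ hβ1 ht0 hM
  set B : ℂ → ℂ := fun s => ∑ h ∈ Finset.Icc 1 Y, ((β h : ℝ) : ℂ) * (h : ℂ) ^ (-s) with hB
  set g : ℂ → ℂ := Function.update (fun s : ℂ => (s - 1) * riemannZeta s) 1 1 with hg
  set f : ℂ → ℂ := fun s => g s / (s + 1) * B s ^ 2 with hf
  have hgs : ∀ s, s ≠ 1 → g s = (s - 1) * riemannZeta s := fun s hs => Function.update_of_ne hs _ _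
  have hfd : ∀ s : ℂ, 1 / 2 ≤ s.re → DifferentiableAt ℂ f s := by
    intro s hs
    have h1 : s + 1 ≠ 0 := by
      intro h
      have := congrArg Complex.re h
      simp at this
      linarith
    exact ((g_diff s).div (differentiableAt_id.add_const 1) h1).mul ((B_diff Y β s).pow 2)
  have hCg : ∀ s : ℂ, 1 / 2 ≤ s.re → ‖g s‖ ≤ (C + 1) * (1 + ‖s‖) ^ A := by
    intro s hs
    have h1 : (1 : ℝ) ≤ (1 + ‖s‖) ^ A := Real.one_le_rpow (by linarith [norm_nonneg s]) hA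
    by_cases h : s = 1
    · have : g s = 1 := by rw [h, hg]; exact Function.update_self _ _ _
      rw [this, norm_one]
      nlinarith
    · rw [hgs s h]
      refine (hz s hs h).trans ?_
      nlinarith
  have hs1 : ∀ s : ℂ, 1 / 2 ≤ s.re → 1 ≤ ‖s + 1‖ := by
    intro s hs
    have h1 := Complex.re_le_norm (s + 1)
    simp at h1
    linarith
  have hY' : (1 : ℝ) ≤ Y := by exact_mod_cast hY
  have hfn : ∀ s : ℂ, 1 / 2 ≤ s.re → ‖f s‖ ≤ ((C + 1) * (Y : ℝ) ^ 2) * (1 + ‖s‖) ^ A := by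
    intro s hs
    rw [hf]
    simp only [norm_mul, norm_div, norm_pow]
    have h1 := hCg s hs
    have h2 := hs1 s hs
    have h3 : ‖B s‖ ≤ Y := B_norm Y β hβ s (by linarith)
    have h4 : ‖g s‖ / ‖s + 1‖ ≤ (C + 1) * (1 + ‖s‖) ^ A := (div_le_self (norm_nonneg _) h2).trans h1
    calc ‖g s‖ / ‖s + 1‖ * ‖B s‖ ^ 2 ≤ ((C + 1) * (1 + ‖s‖) ^ A) * (Y : ℝ) ^ 2 :=
          mul_le_mul h4 (pow_le_pow_left₀ (norm_nonneg _) h3 2) (by positivity) (by positivity)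
      _ = _ := by ring
  -- the point s0
  have hre : ((1 / 2 : ℝ) + (5 / 2 : ℝ) + I * t0 : ℂ).re = 3 := by
    simp; norm_num
  have him : ((1 / 2 : ℝ) + (5 / 2 : ℝ) + I * t0 : ℂ).im = t0 := by
    simp
  set s0 : ℂ := ((1 / 2 : ℝ) : ℂ) + ((5 / 2 : ℝ) : ℂ) + I * t0 with hs0
  have hs0ne : s0 ≠ 1 := by
    intro h
    rw [h] at hre
    norm_num at hre
  have hlow : 1 / 16 ≤ ‖f s0‖ := by
    have hze : 1 / 2 ≤ ‖riemannZeta s0‖ := by
      have h1 := zeta_near s0 hre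
      have h2 := norm_sub_norm_le (1 : ℂ) (1 - riemannZeta s0)
      rw [sub_sub_cancel, norm_one, norm_sub_rev] at h2
      linarith
    have hBe : 1 / 2 ≤ ‖B s0‖ := by
      have h1 := near_one Y hY (fun h => ((β h : ℝ) : ℂ)) (fun h => by simpa using hβ h) (by simp [hβ1]) s0 hre
      have h2 := norm_sub_norm_le (1 : ℂ) (1 - B s0)
      rw [sub_sub_cancel, norm_one, norm_sub_rev] at h2
      linarith
    have hq : 1 / 2 ≤ ‖s0 - 1‖ / ‖s0 + 1‖ := by
      have hpos : 0 < ‖s0 + 1‖ := by linarith [hs1 s0 (by rw [hre]; norm_num)]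
      rw [le_div_iff₀ hpos]
      have h1 : ‖s0 + 1‖ ^ 2 = 16 + t0 ^ 2 := by
        rw [← Complex.normSq_eq_norm_sq, Complex.normSq_apply]
        simp only [Complex.add_re, Complex.add_im, Complex.one_re, Complex.one_im, hre, him]
        ring
      have h2 : ‖s0 - 1‖ ^ 2 = 4 + t0 ^ 2 := by
        rw [← Complex.normSq_eq_norm_sq, Complex.normSq_apply]
        simp only [Complex.sub_re, Complex.sub_im, Complex.one_re, Complex.one_im, hre, him]
        ring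
      refine abs_le_of_sq_le_sq' ?_ (norm_nonneg _) |>.2
      rw [mul_pow, h1, h2]
      nlinarith [sq_nonneg t0]
    rw [hf]
    simp only [hgs s0 hs0ne, norm_mul, norm_div, norm_pow]
    have e : ‖s0 - 1‖ * ‖riemannZeta s0‖ / ‖s0 + 1‖ * ‖B s0‖ ^ 2
        = (‖s0 - 1‖ / ‖s0 + 1‖) * ‖riemannZeta s0‖ * ‖B s0‖ ^ 2 := by ring
    rw [e]
    calc (1 / 16 : ℝ) = (1 / 2) * (1 / 2) * (1 / 2) ^ 2 := by norm_num
      _ ≤ _ := by gcongr
  have hfs0 : f s0 ≠ 0 := by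
    intro h
    rw [h, norm_zero] at hlow
    norm_num at hlow
  have key := hp f (1 / 2) (5 / 2) t0 M ((C + 1) * (Y : ℝ) ^ 2) A (by norm_num) hM hA (by positivity)
    (fun s hs => hfd s hs.le) (fun s hs => (hfd s hs).continuousAt.continuousWithinAt) hfn hfs0
  have hlog : -Real.log 16 ≤ Real.log ‖f s0‖ := by
    rw [← Real.log_inv]
    refine Real.log_le_log (by norm_num) ?_
    rw [inv_eq_one_div]; exact hlow
  refine hlog.trans (key.trans ?_)
  -- comparison of the integrands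
  have hline : ∀ t : ℝ, (((1 / 2 : ℝ) : ℂ) + I * t).re = 1 / 2 ∧ (((1 / 2 : ℝ) : ℂ) + I * t).im = t := by
    intro t; simp
  have hlne : ∀ t : ℝ, ((1 / 2 : ℝ) : ℂ) + I * t ≠ 1 := by
    intro t h
    have := (hline t).1
    rw [h] at this
    norm_num at this
  have hhalf : (1 / 2 : ℂ) = ((1 / 2 : ℝ) : ℂ) := by push_cast; rfl
  have hcont : Continuous fun t : ℝ => (((1 / 2 : ℝ) : ℂ) + I * t) := by fun_prop
  have hFc : Continuous fun t : ℝ => f (((1 / 2 : ℝ) : ℂ) + I * t) := by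
    rw [continuous_iff_continuousAt]
    intro t
    exact ContinuousAt.comp (f := fun t : ℝ => (((1 / 2 : ℝ) : ℂ) + I * t)) (g := f)
      (hfd _ (by rw [(hline t).1])).continuousAt hcont.continuousAt
  have hZc : Continuous fun t : ℝ => riemannZeta (1 / 2 + I * t) * Bz Y β t ^ 2 := by
    rw [hhalf]
    rw [continuous_iff_continuousAt]
    intro t
    refine ContinuousAt.mul ?_ (ContinuousAt.pow ?_ 2)
    · exact ContinuousAt.comp (f := fun t : ℝ => (((1 / 2 : ℝ) : ℂ) + I * t)) (g := riemannZeta)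
        (differentiableAt_riemannZeta (hlne t)).continuousAt hcont.continuousAt
    · have : (fun t : ℝ => Bz Y β t) = fun t : ℝ => B (((1 / 2 : ℝ) : ℂ) + I * t) := by
        funext t
        rw [hB, Bz, hhalf]
      show ContinuousAt (fun t : ℝ => Bz Y β t) t
      rw [this]
      exact ContinuousAt.comp (f := fun t : ℝ => (((1 / 2 : ℝ) : ℂ) + I * t)) (g := B)
        (B_diff Y β _).continuousAt hcont.continuousAt
  have hBt : ∀ t : ℝ, Bz Y β t = B (((1 / 2 : ℝ) : ℂ) + I * t) := by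
    intro t
    rw [hB, Bz, hhalf]
  have hcmp : ∀ t : ℝ, ‖f (((1 / 2 : ℝ) : ℂ) + I * t)‖ ≤ ‖riemannZeta (1 / 2 + I * t) * Bz Y β t ^ 2‖ := by
    intro t
    rw [hf]
    simp only [hgs _ (hlne t), hBt t, norm_mul, norm_div, norm_pow, hhalf]
    set s := ((1 / 2 : ℝ) : ℂ) + I * t with hs
    have hpos : 0 < ‖s + 1‖ := by linarith [hs1 s (by rw [(hline t).1])]
    have h1 : ‖s - 1‖ ≤ ‖s + 1‖ := by
      refine abs_le_of_sq_le_sq' ?_ (norm_nonneg _) |>.2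
      rw [← Complex.normSq_eq_norm_sq, Complex.normSq_apply, ← Complex.normSq_eq_norm_sq, Complex.normSq_apply]
      have hsre : s.re = 1 / 2 := (hline t).1
      simp only [Complex.add_re, Complex.add_im, Complex.one_re, Complex.one_im, Complex.sub_re, Complex.sub_im, hsre]
      nlinarith
    have h2 : ‖s - 1‖ * ‖riemannZeta s‖ / ‖s + 1‖ ≤ ‖riemannZeta s‖ := by
      rw [div_le_iff₀ hpos, mul_comm]
      exact mul_le_mul_of_nonneg_left h1 (norm_nonneg _)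
    exact mul_le_mul_of_nonneg_right h2 (by positivity)
  have hnl : ∀ t : ℝ, ‖((1 / 2 : ℝ) : ℂ) + I * t‖ ≤ 1 + |t| := by
    intro t
    refine (norm_add_le _ _).trans ?_
    rw [norm_mul, Complex.norm_I, one_mul, Complex.norm_real, Complex.norm_real, Real.norm_eq_abs, Real.norm_eq_abs]
    rw [abs_of_nonneg (by norm_num : (0:ℝ) ≤ 1 / 2)]
    linarith
  have hFb : ∀ t : ℝ, ‖f (((1 / 2 : ℝ) : ℂ) + I * t)‖ ≤ ((C + 1) * (Y : ℝ) ^ 2) * (2 + |t|) ^ A := by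
    intro t
    refine (hfn _ (by rw [(hline t).1])).trans ?_
    refine mul_le_mul_of_nonneg_left ?_ (by positivity)
    refine Real.rpow_le_rpow (by positivity) ?_ hA
    linarith [hnl t]
  have hZb : ∀ t : ℝ, ‖riemannZeta (1 / 2 + I * t) * Bz Y β t ^ 2‖ ≤ (2 * (C + 1) * (Y : ℝ) ^ 2) * (2 + |t|) ^ A := by
    intro t
    simp only [hBt t, norm_mul, norm_pow, hhalf]
    set s := ((1 / 2 : ℝ) : ℂ) + I * t with hs
    have h1 : ‖s - 1‖ * ‖riemannZeta s‖ ≤ (C + 1) * (1 + ‖s‖) ^ A := by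
      have := hCg s (by rw [(hline t).1])
      rwa [hgs s (hlne t), norm_mul] at this
    have h2 : 1 / 2 ≤ ‖s - 1‖ := by
      have h3 := Complex.abs_re_le_norm (s - 1)
      rw [Complex.sub_re, (hline t).1, Complex.one_re] at h3
      norm_num [abs_of_nonpos] at h3
      linarith
    have h3 : ‖riemannZeta s‖ ≤ 2 * ((C + 1) * (1 + ‖s‖) ^ A) := by
      nlinarith [norm_nonneg (riemannZeta s)]
    have h4 : (1 + ‖s‖) ^ A ≤ (2 + |t|) ^ A := Real.rpow_le_rpow (by positivity) (by linarith [hnl t]) hA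
    have h5 : ‖B s‖ ≤ Y := B_norm Y β hβ s (by rw [(hline t).1]; norm_num)
    calc ‖riemannZeta s‖ * ‖B s‖ ^ 2 ≤ (2 * ((C + 1) * (2 + |t|) ^ A)) * (Y : ℝ) ^ 2 := by
          refine mul_le_mul (h3.trans ?_) (pow_le_pow_left₀ (norm_nonneg _) h5 2) (by positivity) (by positivity)
          refine mul_le_mul_of_nonneg_left (mul_le_mul_of_nonneg_left h4 (by positivity)) (by norm_num)
      _ = _ := by ring
  have hD1 : 1 ≤ (C + 1) * (Y : ℝ) ^ 2 := by nlinarith [mul_nonneg hC (sq_nonneg (Y : ℝ))]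
  have hD2 : 1 ≤ 2 * (C + 1) * (Y : ℝ) ^ 2 := by nlinarith
  have hlc : ∀ G : ℝ → ℂ, Continuous G → Continuous fun t : ℝ => Real.log (max ‖G t‖ (Real.exp (-M))) := by
    intro G hG
    refine Continuous.log (hG.norm.max continuous_const) fun t => ?_
    exact (lt_max_of_lt_right (Real.exp_pos _)).ne'
  refine integral_mono
    (ker_int t0 _ _ (hlc _ hFc) fun t => logmax_bd M _ A t _ hM hD1 hA (norm_nonneg _) (hFb t))
    (ker_int t0 _ _ (hlc _ hZc) fun t => logmax_bd M _ A t _ hM hD2 hA (norm_nonneg _) (hZb t)) ?_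
  intro t
  have hden : 0 < Real.pi * ((5 / 2) ^ 2 + (t - t0) ^ 2) := by positivity
  refine mul_le_mul_of_nonneg_left ?_ (by positivity)
  refine Real.log_le_log (lt_max_of_lt_right (Real.exp_pos _)) (max_le_max (hcmp t) le_rfl)

end Pool.Agent.Helper647.SG.JHZ
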