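import Mathlib

set_option autoImplicit false

namespace Pool.Agent.Helper647.SG.JPP

open Complex Filter Topology MeasureTheory Set

theorem pp_sign {a b z : ℝ} (h1 : 0 < a * z) (h2 : 0 < b * z) : 0 < a * b := by
  have h3 : 0 < (a * z) * (b * z) := mul_pos h1 h2
  have hz : z ≠ 0 := by
    rintro rfl
    simp at h1
  have hz2 : 0 < z * z := mul_self_pos.2 hz
  have h4 : 0 < (a * b) * (z * z) := by nlinarith
  exact (pos_iff_pos_of_mul_pos h4).2 hz2

/-- Combinatorial part: a common point of two translates makes the pattern periodic. -/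
theorem pp_periodic (Z : ℝ → ℝ) (η : ℕ → ℝ) (δ : ℝ) (J r : ℕ) (hJ : 0 < J) (hr : 0 < r)
    (t₁ t₂ : ℝ) (h1 : ∀ j : ℕ, j < J → 0 < η j * Z (t₁ + δ * j))
    (h2 : ∀ j : ℕ, j < J → 0 < η j * Z (t₂ + δ * j)) (h12 : t₁ = t₂ + δ * r)
    (t : ℝ) (ht : ∀ j : ℕ, j < J → 0 < η j * Z (t + δ * j)) (i j : ℕ)
    (hi : i < (J - 1) / r + 1) (hj : j < (J - 1) / r + 1) :
    0 < Z (t + (r * δ) * i) * Z (t + (r * δ) * j) := by
  have key : ∀ m : ℕ, r * m < J → 0 < η 0 * η (r * m) := by
    intro m
    induction m with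
    | zero =>
      intro _
      have h := h1 0 hJ
      have hne : η 0 ≠ 0 := by
        intro h0
        rw [h0] at h
        simp at h
      simpa using mul_self_pos.2 hne
    | succ m ih =>
      intro hm
      have hm1 : r * m + r < J := by rw [Nat.mul_succ] at hm; exact hm
      have h3 := ih (by omega)
      have h4 := h1 (r * m) (by omega)
      have h5 := h2 (r * m + r) hm1
      have e : t₂ + δ * ((r * m + r : ℕ) : ℝ) = t₁ + δ * ((r * m : ℕ) : ℝ) := by
        rw [h12]; push_cast; ring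
      rw [e] at h5
      have h6 : 0 < η (r * m) * η (r * m + r) := pp_sign h4 h5
      rw [Nat.mul_succ]
      have h7 : 0 < η (r * m + r) * η (r * m) := by rw [mul_comm]; exact h6
      exact pp_sign h3 h7
  have hle : ∀ m : ℕ, m < (J - 1) / r + 1 → r * m < J := by
    intro m hm
    have h3 : m ≤ (J - 1) / r := by omega
    have h4 : r * m ≤ r * ((J - 1) / r) := Nat.mul_le_mul_left r h3
    have h5 : r * ((J - 1) / r) ≤ J - 1 := Nat.mul_div_le _ _
    omega
  have hsgn : ∀ m : ℕ, m < (J - 1) / r + 1 → 0 < η 0 * Z (t + (r * δ) * m) := by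
    intro m hm
    have h3 := key m (hle m hm)
    have h4 := ht (r * m) (hle m hm)
    have e : t + δ * ((r * m : ℕ) : ℝ) = t + (r * δ) * m := by push_cast; ring
    rw [e] at h4
    have h5 : 0 < Z (t + (r * δ) * m) * η (r * m) := by rw [mul_comm]; exact h4
    exact pp_sign h3 h5
  have h3 := hsgn i hi
  have h4 := hsgn j hj
  rw [mul_comm] at h3 h4
  exact pp_sign h3 h4

theorem pp (Z : ℝ → ℝ) (hZ : Continuous Z)
    (hcp : ∃ C : ℝ, 0 < C ∧ ∀ (A : ℝ) (J : ℕ), 1 ≤ A → 2 ≤ J → ∃ T0 : ℝ, ∀ T δ : ℝ, T0 ≤ T → 1 / Real.log T ≤ δ → δ ≤ A →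
      volume {t : ℝ | t ∈ Icc T (2 * T) ∧ ∀ i j : ℕ, i < J → j < J → 0 < Z (t + δ * i) * Z (t + δ * j)} ≤
        ENNReal.ofReal (C / Real.log J * T)) :
    ∃ C : ℝ, 0 < C ∧ ∀ (A : ℝ) (J : ℕ), 1 ≤ A → 2 ≤ J → ∃ T0 : ℝ, ∀ T δ : ℝ, T0 ≤ T → 1 / Real.log T ≤ δ → δ ≤ A →
      ∀ η : ℕ → ℝ, volume {t : ℝ | t ∈ Icc T (2 * T) ∧ ∀ j : ℕ, j < J → 0 < η j * Z (t + δ * j)} ≤
        ENNReal.ofReal (C / Real.log J * T) := by
  obtain ⟨C0, hC0, hcp⟩ := hcp
  choose! T0f hT0f using hcp
  set C : ℝ := max (4 * C0) 4 with hC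
  have hC4 : 4 ≤ C := le_max_right _ _
  have hCC0 : 4 * C0 ≤ C := le_max_left _ _
  have hCpos : 0 < C := by linarith
  refine ⟨C, hCpos, ?_⟩
  intro A J hA hJ
  set R : ℕ := ⌈2 * Real.log J / C⌉₊ with hR
  set B : ℝ := R * A with hB
  refine ⟨(∑ j ∈ Finset.range (J + 1), |T0f B j|) + |B| + 1, ?_⟩
  intro T δ hT hδ1 hδ2 η
  have hsum0 : 0 ≤ ∑ j ∈ Finset.range (J + 1), |T0f B j| :=
    Finset.sum_nonneg fun _ _ => abs_nonneg _
  have hT1 : 1 ≤ T := by have := abs_nonneg B; linarith
  have hTB : B ≤ T := by have := le_abs_self B; linarith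
  have hJR : (2 : ℝ) ≤ J := by exact_mod_cast hJ
  have hlogJ : 0 < Real.log J := Real.log_pos (by linarith)
  have hδ0 : 0 ≤ δ := by
    have : 0 ≤ 1 / Real.log T := div_nonneg zero_le_one (Real.log_nonneg hT1)
    linarith
  set U : Set ℝ := {t : ℝ | t ∈ Icc T (2 * T) ∧ ∀ j : ℕ, j < J → 0 < η j * Z (t + δ * j)} with hU
  have hUI : U ⊆ Icc T (2 * T) := fun t ht => ht.1
  by_cases hsmall : Real.log J ≤ C
  · calc volume U ≤ volume (Icc T (2 * T)) := measure_mono hUI
      _ = ENNReal.ofReal T := by rw [Real.volume_Icc]; congr 1; ring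
      _ ≤ ENNReal.ofReal (C / Real.log J * T) := by
        apply ENNReal.ofReal_le_ofReal
        have : 1 ≤ C / Real.log J := (one_le_div hlogJ).2 hsmall
        nlinarith
  push Not at hsmall
  have hRpos : 0 < R := Nat.ceil_pos.2 (by positivity)
  have hR1 : (1 : ℝ) ≤ R := by exact_mod_cast hRpos
  have hRge : 2 * Real.log J / C ≤ R := Nat.le_ceil _
  have hRlt : (R : ℝ) < 2 * Real.log J / C + 1 := Nat.ceil_lt_add_one (by positivity)
  have hB1 : 1 ≤ B := by
    rw [hB]; nlinarith
  have hsq : (R : ℝ) ≤ Real.sqrt J := by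
    have h1 : 2 * Real.log J / C ≤ Real.log J / 2 := by
      rw [div_le_div_iff₀ hCpos two_pos]
      nlinarith
    have h2 : Real.log (Real.sqrt J) ≤ Real.sqrt J - 1 :=
      Real.log_le_sub_one_of_pos (Real.sqrt_pos.2 (by linarith))
    rw [Real.log_sqrt (by linarith)] at h2
    linarith
  have hUm : MeasurableSet U := by
    have : U = Icc T (2 * T) ∩ ⋂ j ∈ Finset.range J, {t : ℝ | 0 < η j * Z (t + δ * j)} := by
      ext t
      simp [hU]
    rw [this]
    refine measurableSet_Icc.inter (Finset.measurableSet_biInter _ fun j _ => ?_)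
    exact (isOpen_lt continuous_const (by fun_prop)).measurableSet
  by_contra hcon
  push Not at hcon
  -- two of the translates meet
  have hmeet : ∃ i ∈ Finset.range (R + 1), ∃ j ∈ Finset.range (R + 1), ∃ _h : i ≠ j,
      (((fun s : ℝ => s + -(δ * i)) ⁻¹' U) ∩ ((fun s : ℝ => s + -(δ * j)) ⁻¹' U)).Nonempty := by
    refine exists_nonempty_inter_of_measure_univ_lt_sum_measure
      (volume.restrict (Icc T (2 * T + B))) (fun i _ => ?_) ?_
    · have hm : Measurable fun s : ℝ => s + -(δ * i) := measurable_id.add_const _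
      exact (hm hUm).nullMeasurableSet
    · have hvol : ∀ i ∈ Finset.range (R + 1),
          (volume.restrict (Icc T (2 * T + B))) ((fun s : ℝ => s + -(δ * i)) ⁻¹' U) = volume U := by
        intro i hi
        rw [Measure.restrict_eq_self, measure_preimage_add_right]
        intro s hs
        have h1 := hUI hs
        have hi' : (i : ℝ) ≤ R := by
          have := Finset.mem_range.1 hi
          exact_mod_cast (by omega : i ≤ R)
        have h2 : 0 ≤ δ * i := by positivity
        have h3 : δ * i ≤ B := by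
          rw [hB, mul_comm (R : ℝ)]
          exact mul_le_mul hδ2 hi' (by positivity) (by linarith)
        simp only [mem_Icc] at h1 ⊢
        constructor <;> linarith [h1.1, h1.2]
      rw [Finset.sum_congr rfl hvol, Measure.restrict_apply_univ, Real.volume_Icc,
        Finset.sum_const, Finset.card_range, nsmul_eq_mul]
      have h1 : ENNReal.ofReal (2 * T + B - T) ≤
          ((R + 1 : ℕ) : ENNReal) * ENNReal.ofReal (C / Real.log J * T) := by
        rw [← ENNReal.ofReal_natCast, ← ENNReal.ofReal_mul (by positivity)]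
        apply ENNReal.ofReal_le_ofReal
        have h2 : 2 ≤ ((R + 1 : ℕ) : ℝ) * (C / Real.log J) := by
          have h3 : 2 * Real.log J / C * (C / Real.log J) = 2 := by
            field_simp
          have h4 : 2 * Real.log J / C * (C / Real.log J) ≤
              ((R + 1 : ℕ) : ℝ) * (C / Real.log J) := by
            apply mul_le_mul_of_nonneg_right _ (by positivity)
            push_cast
            linarith
          linarith
        nlinarith
      refine h1.trans_lt ?_
      rw [ENNReal.mul_lt_mul_iff_right (by simp) (by simp)]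
      exact hcon
  obtain ⟨i, hi, j, hj, hij, s, hs1, hs2⟩ := hmeet
  wlog hlt : i < j generalizing i j with H
  · exact H j hj i hi hij.symm hs2 hs1 (by omega)
  have hi' := Finset.mem_range.1 hi
  have hj' := Finset.mem_range.1 hj
  set r : ℕ := j - i with hr
  have hr0 : 0 < r := by omega
  have hrR : r ≤ R := by omega
  have hrR' : (r : ℝ) ≤ R := by exact_mod_cast hrR
  have hr1 : (1 : ℝ) ≤ r := by exact_mod_cast hr0
  have hrj : (j : ℝ) = i + r := by
    have : j = i + r := by omega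
    exact_mod_cast this
  set J2 : ℕ := (J - 1) / r + 1 with hJ2
  have hsub : U ⊆ {t : ℝ | t ∈ Icc T (2 * T) ∧ ∀ i j : ℕ, i < J2 → j < J2 →
      0 < Z (t + (r * δ) * i) * Z (t + (r * δ) * j)} := by
    intro t ht
    refine ⟨ht.1, fun a b ha hb => ?_⟩
    refine pp_periodic Z η δ J r (by omega) hr0 (s + -(δ * i)) (s + -(δ * j)) hs1.2 hs2.2 ?_
      t ht.2 a b ha hb
    rw [hrj]; ring
  have hJ2J : J ≤ r * J2 := by
    have h1 := Nat.div_add_mod (J - 1) r
    have h2 := Nat.mod_lt (J - 1) hr0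
    rw [hJ2, Nat.mul_succ]
    omega
  have hJ2J' : (J : ℝ) ≤ r * J2 := by exact_mod_cast hJ2J
  have hsqpos : 0 < Real.sqrt J := Real.sqrt_pos.2 (by linarith)
  have hJ2sq : Real.sqrt J ≤ J2 := by
    have h1 : Real.sqrt J * Real.sqrt J = J := Real.mul_self_sqrt (by linarith)
    have h2 : (r : ℝ) * J2 ≤ Real.sqrt J * J2 :=
      mul_le_mul_of_nonneg_right (hrR'.trans hsq) (by positivity)
    have h3 : Real.sqrt J * Real.sqrt J ≤ Real.sqrt J * J2 := by rw [h1]; linarith
    exact le_of_mul_le_mul_left h3 hsqpos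
  have hlogJ2 : Real.log J / 2 ≤ Real.log J2 := by
    rw [← Real.log_sqrt (by linarith)]
    exact Real.log_le_log hsqpos hJ2sq
  have hsq1 : 1 < Real.sqrt J := by
    rw [Real.lt_sqrt (by norm_num)]
    linarith
  have hJ22 : 2 ≤ J2 := by
    have : (1 : ℝ) < J2 := by linarith
    have : 1 < J2 := by exact_mod_cast this
    omega
  have hJ2le : J2 ≤ J := by
    have : (J - 1) / r ≤ J - 1 := Nat.div_le_self _ _
    omega
  have hTT : T0f B J2 ≤ T := by
    have h1 : |T0f B J2| ≤ ∑ j ∈ Finset.range (J + 1), |T0f B j| :=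
      Finset.single_le_sum (f := fun j => |T0f B j|) (fun _ _ => abs_nonneg _)
        (Finset.mem_range.2 (by omega))
    have h2 := le_abs_self (T0f B J2)
    have h3 := abs_nonneg B
    linarith
  have hrδ1 : 1 / Real.log T ≤ r * δ := by nlinarith
  have hrδ2 : r * δ ≤ B := by
    rw [hB]
    exact mul_le_mul hrR' hδ2 hδ0 (by positivity)
  have hfin := hT0f B J2 hB1 hJ22 T (r * δ) hTT hrδ1 hrδ2
  have h1 : volume U ≤ ENNReal.ofReal (C / Real.log J * T) := by
    refine (measure_mono hsub).trans (hfin.trans (ENNReal.ofReal_le_ofReal ?_))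
    apply mul_le_mul_of_nonneg_right _ (by linarith)
    have h2 : C0 / Real.log J2 ≤ C0 / (Real.log J / 2) :=
      div_le_div_of_nonneg_left hC0.le (by positivity) hlogJ2
    have h3 : C0 / (Real.log J / 2) ≤ C / Real.log J := by
      rw [div_le_div_iff₀ (by positivity) hlogJ]
      nlinarith
    exact h2.trans h3
  exact absurd h1 (not_le.2 hcon)

end Pool.Agent.Helper647.SG.JPP
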