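import Mathlib

set_option autoImplicit false

namespace Pool.Agent.Helper647.SG.JRP

open Filter Topology MeasureTheory Set

theorem rp_sq {x y : ℝ} (h : 0 < x ^ 2 * y) : 0 < y := by
  by_contra hcon
  have := mul_nonpos_of_nonneg_of_nonpos (sq_nonneg x) (not_lt.1 hcon)
  linarith

theorem rp_pos {a b c : ℝ} (h1 : 0 < a * b) (h2 : 0 < b * c) : 0 < a * c := by
  refine rp_sq (x := b) ?_
  calc (0 : ℝ) < a * b * (b * c) := mul_pos h1 h2
    _ = b ^ 2 * (a * c) := by ring

theorem rp_same (w : ℕ → ℝ) (N : ℕ) (hN : 0 < N) (h : ∀ k < N, 0 < w k * w (k + 1)) :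
    ∀ k l, k ≤ N → l ≤ N → 0 < w k * w l := by
  have h0 : ∀ k ≤ N, 0 < w 0 * w k := by
    intro k
    induction k with
    | zero =>
      intro _
      have h1 := h 0 hN
      exact rp_pos h1 (by rw [mul_comm]; exact h1)
    | succ k ih =>
      intro hk
      exact rp_pos (ih (by omega)) (h k (by omega))
  intro k l hk hl
  exact rp_pos (by rw [mul_comm]; exact h0 k hk) (h0 l hl)

theorem rp_window (z : ℕ → ℝ) (J r K : ℕ) (Bad : Finset ℕ) (hr : 1 ≤ r)
    (h : ∀ j, j + r < J → j ∉ Bad → 0 < z j * z (j + 1) * (z (j + r) * z (j + r + 1)))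
    (i : ℕ) (hi : i + 2 * r * K + r ≤ J) (hw : ∀ j, i ≤ j → j < i + 2 * r * K → j ∉ Bad)
    (k l : ℕ) (hk : k < K) (hl : l < K) : 0 < z (i + 2 * r * k) * z (i + 2 * r * l) := by
  have hK : 0 < K := by omega
  have hrK : 0 < 2 * r * K := by positivity
  have h1 : ∀ a b, a ≤ 2 * r * K → b ≤ 2 * r * K →
      0 < (z (i + a) * z (i + a + r)) * (z (i + b) * z (i + b + r)) := by
    refine rp_same (fun s => z (i + s) * z (i + s + r)) (2 * r * K) hrK ?_
    intro s hs
    have h2 := h (i + s) (by omega) (hw _ (by omega) (by omega))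
    have e1 : i + (s + 1) = i + s + 1 := by omega
    have e2 : i + s + 1 + r = i + s + r + 1 := by omega
    show 0 < z (i + s) * z (i + s + r) * (z (i + (s + 1)) * z (i + (s + 1) + r))
    rw [e1, e2]
    calc (0 : ℝ) < z (i + s) * z (i + s + 1) * (z (i + s + r) * z (i + s + r + 1)) := h2
      _ = z (i + s) * z (i + s + r) * (z (i + s + 1) * z (i + s + r + 1)) := by ring
  have h2 : ∀ k < K, 0 < z (i + 2 * r * k) * z (i + 2 * r * (k + 1)) := by
    intro k hk
    have hk1 : 2 * r * (k + 1) ≤ 2 * r * K := Nat.mul_le_mul_left _ hk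
    have e0 : 2 * r * (k + 1) = 2 * r * k + 2 * r := by ring
    have h3 := h1 (2 * r * k) (2 * r * k + r) (by omega) (by omega)
    have e1 : i + (2 * r * k + r) = i + 2 * r * k + r := by omega
    have e2 : i + 2 * r * k + r + r = i + 2 * r * (k + 1) := by omega
    rw [e1, e2] at h3
    refine rp_sq (x := z (i + 2 * r * k + r)) ?_
    calc (0 : ℝ) < _ := h3
      _ = _ := by ring
  exact rp_same (fun s => z (i + 2 * r * s)) K hK h2 k l hk.le hl.le

theorem rp_count (J r K : ℕ) (Bad : Finset ℕ) (P : ℕ → Prop) [DecidablePred P]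
    (hP : ∀ i, i + 2 * r * K + r ≤ J → (∀ j, i ≤ j → j < i + 2 * r * K → j ∉ Bad) → P i) :
    J ≤ ((Finset.range J).filter P).card + (r + 2 * r * K) + 2 * r * K * Bad.card := by
  have hsub : Finset.range J ⊆ (Finset.range J).filter P ∪ Finset.Ico (J - (r + 2 * r * K)) J ∪
      Bad.biUnion (fun j => Finset.Ico (j + 1 - 2 * r * K) (j + 1)) := by
    intro i hi
    rw [Finset.mem_range] at hi
    simp only [Finset.mem_union, Finset.mem_filter, Finset.mem_range, Finset.mem_Ico,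
      Finset.mem_biUnion]
    by_cases h1 : P i
    · exact Or.inl (Or.inl ⟨hi, h1⟩)
    by_cases h2 : i + 2 * r * K + r ≤ J
    · right
      by_contra h3
      push Not at h3
      refine h1 (hP i h2 fun j hj1 hj2 hj3 => ?_)
      have := h3 j hj3 (by omega)
      omega
    · left; right
      omega
  have h1 := Finset.card_le_card hsub
  have h2 := Finset.card_union_le ((Finset.range J).filter P ∪ Finset.Ico (J - (r + 2 * r * K)) J)
    (Bad.biUnion (fun j => Finset.Ico (j + 1 - 2 * r * K) (j + 1)))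
  have h3 := Finset.card_union_le ((Finset.range J).filter P) (Finset.Ico (J - (r + 2 * r * K)) J)
  have h4 : (Bad.biUnion (fun j => Finset.Ico (j + 1 - 2 * r * K) (j + 1))).card ≤
      Bad.card * (2 * r * K) := by
    refine Finset.card_biUnion_le_card_mul _ _ _ fun j _ => ?_
    rw [Nat.card_Ico]
    omega
  rw [Nat.card_Ico] at h3
  rw [Finset.card_range] at h1
  have h5 : Bad.card * (2 * r * K) = 2 * r * K * Bad.card := mul_comm _ _
  omega

/-- two translates meet -/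
theorem rp_pigeon (U : Set ℝ) (hU : MeasurableSet U) (a b δ u : ℝ) (R : ℕ) (hδ : 0 ≤ δ)
    (hab : a ≤ b) (hsub : U ⊆ Icc a b) (hu : volume U = ENNReal.ofReal u)
    (hbig : b - a + R * δ < (R + 1) * u) :
    ∃ r : ℕ, 1 ≤ r ∧ r ≤ R ∧ ∃ t ∈ U, t + δ * r ∈ U := by
  have hpre : ∀ i : ℕ, MeasurableSet ((fun x : ℝ => x + -(δ * i)) ⁻¹' U) := fun i =>
    (measurable_add_const _) hU
  have hvol : ∀ i ∈ Finset.range (R + 1),
      (volume.restrict (Icc a (b + R * δ))) ((fun x : ℝ => x + -(δ * i)) ⁻¹' U) = volume U := by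
    intro i hi
    rw [Finset.mem_range] at hi
    rw [Measure.restrict_apply (hpre i), inter_eq_left.2, measure_preimage_add_right]
    intro x hx
    have h1 := hsub hx
    rw [mem_Icc] at h1 ⊢
    have h2 : (i : ℝ) ≤ R := by exact_mod_cast (by omega : i ≤ R)
    have h3 : δ * i ≤ R * δ := by nlinarith
    have h4 : 0 ≤ δ * (i : ℝ) := by positivity
    constructor <;> linarith [h1.1, h1.2]
  obtain ⟨i, hi, j, hj, hij, x, hx⟩ := exists_nonempty_inter_of_measure_univ_lt_sum_measure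
    (volume.restrict (Icc a (b + R * δ))) (s := Finset.range (R + 1))
    (t := fun i : ℕ => (fun x : ℝ => x + -(δ * i)) ⁻¹' U)
    (fun i _ => (hpre i).nullMeasurableSet) (by
      rw [Finset.sum_congr rfl hvol, Finset.sum_const, Finset.card_range, Measure.restrict_apply_univ,
        Real.volume_Icc, hu, nsmul_eq_mul]
      have : ((R + 1 : ℕ) : ENNReal) = ENNReal.ofReal ((R : ℝ) + 1) := by
        rw [← ENNReal.ofReal_natCast]
        push_cast
        rfl
      rw [this, ← ENNReal.ofReal_mul (by positivity)]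
      refine (ENNReal.ofReal_lt_ofReal_iff_of_nonneg ?_).2 (by linarith)
      have : 0 ≤ (R : ℝ) * δ := by positivity
      linarith)
  rw [Finset.mem_range] at hi hj
  have h1 : x + -(δ * i) ∈ U := hx.1
  have h2 : x + -(δ * j) ∈ U := hx.2
  rcases lt_or_gt_of_ne hij with h | h
  · refine ⟨j - i, by omega, by omega, x + -(δ * j), h2, ?_⟩
    rw [Nat.cast_sub h.le]
    convert h1 using 1
    ring
  · refine ⟨i - j, by omega, by omega, x + -(δ * i), h1, ?_⟩
    rw [Nat.cast_sub h.le]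
    convert h2 using 1
    ring

/-- averaging -/
theorem rp_average (U V W : Set ℝ) (hU : MeasurableSet U) (hV : MeasurableSet V)
    (hW : MeasurableSet W) (δ c : ℝ) (J : ℕ)
    (hUW : ∀ t ∈ U, ∀ i < J, t + δ * i ∈ W)
    (h : ∀ t ∈ U, ∃ G : Finset ℕ, (∀ i ∈ G, i < J ∧ t + δ * i ∈ V) ∧ c ≤ G.card) :
    ENNReal.ofReal c * volume U ≤ J * volume (V ∩ W) := by
  have h1 : ∀ i : ℕ, ∫⁻ t : ℝ, (V ∩ W).indicator (1 : ℝ → ENNReal) (t + δ * i) =
      volume (V ∩ W) := by
    intro i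
    rw [lintegral_add_right_eq_self (fun t => (V ∩ W).indicator (1 : ℝ → ENNReal) t) (δ * i),
      lintegral_indicator_one (hV.inter hW)]
  have h2 : ∫⁻ t in U, ENNReal.ofReal c ≤
      ∫⁻ t : ℝ, ∑ i ∈ Finset.range J, (V ∩ W).indicator (1 : ℝ → ENNReal) (t + δ * i) := by
    rw [← lintegral_indicator hU]
    refine lintegral_mono fun t => ?_
    by_cases ht : t ∈ U
    · rw [indicator_of_mem ht]
      obtain ⟨G, hG1, hG2⟩ := h t ht
      have hG3 : G ⊆ Finset.range J := fun i hi => Finset.mem_range.2 (hG1 i hi).1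
      calc ENNReal.ofReal c ≤ ENNReal.ofReal (G.card : ℝ) := ENNReal.ofReal_le_ofReal hG2
        _ = ∑ i ∈ G, (1 : ENNReal) := by
          rw [ENNReal.ofReal_natCast, Finset.sum_const, nsmul_eq_mul, mul_one]
        _ = ∑ i ∈ G, (V ∩ W).indicator (1 : ℝ → ENNReal) (t + δ * i) := by
          refine Finset.sum_congr rfl fun i hi => ?_
          have hm : t + δ * i ∈ V ∩ W := ⟨(hG1 i hi).2, hUW t ht i (hG1 i hi).1⟩
          rw [indicator_of_mem hm]
          rfl
        _ ≤ _ := Finset.sum_le_sum_of_subset hG3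
    · rw [indicator_of_notMem ht]
      simp
  rw [lintegral_const, Measure.restrict_apply_univ] at h2
  refine h2.trans ?_
  rw [lintegral_finsetSum]
  · rw [Finset.sum_congr rfl (fun i _ => h1 i), Finset.sum_const, Finset.card_range, nsmul_eq_mul]
  · intro i _
    exact (measurable_one.indicator (hV.inter hW)).comp (measurable_add_const _)

theorem rp_num {G B J r K R ρ : ℝ} (hc : J ≤ G + (r + 2 * r * K) + 2 * r * K * B) (hr0 : 0 ≤ r)
    (hrR : r ≤ R) (hK : 2 ≤ K) (hB0 : 0 ≤ B) (hB : B ≤ 4 * (ρ * J)) (hJ : 0 ≤ J)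
    (hJRK : 32 * R * K ≤ J) (hρ : 32 * R * K * ρ ≤ 1) : J / 2 ≤ G := by
  have hrK : r * K ≤ R * K := mul_le_mul_of_nonneg_right hrR (by linarith)
  have hrr : r * 2 ≤ r * K := mul_le_mul_of_nonneg_left hK hr0
  have hrK0 : 0 ≤ r * K := by positivity
  have g1 : r + 2 * r * K ≤ 3 * (R * K) := by linarith
  have g2 : 2 * r * K * B ≤ 2 * (R * K) * (4 * (ρ * J)) := by
    have h1 : 2 * r * K ≤ 2 * (R * K) := by linarith
    exact mul_le_mul h1 hB hB0 (by linarith)
  have g3 : 2 * (R * K) * (4 * (ρ * J)) ≤ J / 4 := by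
    have h1 : 32 * R * K * ρ * J ≤ 1 * J := mul_le_mul_of_nonneg_right hρ hJ
    have e : 2 * (R * K) * (4 * (ρ * J)) = (32 * R * K * ρ * J) / 4 := by ring
    linarith
  have g4 : 32 * (R * K) ≤ J := by linarith
  linarith

set_option maxHeartbeats 4000000 in
theorem rp (Z : ℝ → ℝ) (hZ : Continuous Z)
    (hcp : ∃ C : ℝ, 0 < C ∧ ∀ (A : ℝ) (J : ℕ), 1 ≤ A → 2 ≤ J → ∃ T0 : ℝ, ∀ T δ : ℝ, T0 ≤ T → 1 / Real.log T ≤ δ → δ ≤ A →
      volume {t : ℝ | t ∈ Icc T (2 * T) ∧ ∀ i j : ℕ, i < J → j < J → 0 < Z (t + δ * i) * Z (t + δ * j)} ≤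
        ENNReal.ofReal (C / Real.log J * T)) :
    ∃ C : ℝ, 0 < C ∧ ∀ (A p : ℝ) (J : ℕ), 1 ≤ A → 0 < p → p ≤ 1 → Real.exp (C / p) ≤ J →
      ∃ T0 : ℝ, ∀ T δ : ℝ, T0 ≤ T → 1 / Real.log T ≤ δ → δ ≤ A → ∀ ε : ℕ → ℝ,
        volume {t : ℝ | t ∈ Icc T (2 * T) ∧
          ({j : ℕ | j < J ∧ ε j * (Z (t + δ * j) * Z (t + δ * ((j : ℝ) + 1))) ≤ 0}.ncard : ℝ) ≤ Real.exp (-(C / p)) * J} ≤
          ENNReal.ofReal (p * T) := by
  classical
  obtain ⟨C0, hC0, h0⟩ := hcp
  refine ⟨7 * C0 + 7, by positivity, ?_⟩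
  intro A p J hA hp hp1 hJ
  have hp' : 1 ≤ 1 / p := by rw [le_div_iff₀ hp]; linarith
  obtain ⟨K, hKdef⟩ : ∃ K : ℕ, K = ⌈Real.exp (7 * C0 / p)⌉₊ := ⟨_, rfl⟩
  obtain ⟨R, hRdef⟩ : ∃ R : ℕ, R = ⌈2 / p⌉₊ := ⟨_, rfl⟩
  have hE1 : 1 < Real.exp (7 * C0 / p) := Real.one_lt_exp_iff.2 (by positivity)
  have hKle : Real.exp (7 * C0 / p) ≤ K := by rw [hKdef]; exact Nat.le_ceil _
  have hK2 : 2 ≤ K := by
    have : (1 : ℝ) < K := hE1.trans_le hKle
    exact_mod_cast this
  have hKlt : (K : ℝ) < 2 * Real.exp (7 * C0 / p) := by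
    have : (K : ℝ) < Real.exp (7 * C0 / p) + 1 := by
      rw [hKdef]; exact Nat.ceil_lt_add_one (by positivity)
    linarith
  have hlogK : 7 * C0 / p ≤ Real.log K := (Real.le_log_iff_exp_le (by positivity)).2 hKle
  have hRle : 2 / p ≤ R := by rw [hRdef]; exact Nat.le_ceil _
  have hRlt : (R : ℝ) < 3 / p := by
    have : (R : ℝ) < 2 / p + 1 := by rw [hRdef]; exact Nat.ceil_lt_add_one (by positivity)
    have e : 3 / p = 2 / p + 1 / p := by ring
    linarith
  have hR1 : 1 ≤ R := by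
    have : (0 : ℝ) < R := lt_of_lt_of_le (by positivity) hRle
    exact_mod_cast this
  have hRK : 32 * (R : ℝ) * K ≤ Real.exp ((7 * C0 + 7) / p) := by
    have h1 : 1 / p ≤ Real.exp (1 / p) := by linarith [Real.add_one_le_exp (1 / p)]
    have h2 : (R : ℝ) ≤ 3 * Real.exp (1 / p) := by
      have e : 3 / p = 3 * (1 / p) := by ring
      linarith
    have h3 : (192 : ℝ) ≤ Real.exp (6 / p) := by
      have h4 : Real.exp 6 ≤ Real.exp (6 / p) := Real.exp_le_exp.2 (by rw [le_div_iff₀ hp]; linarith)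
      have h5 : (2.7182818283 : ℝ) < Real.exp 1 := Real.exp_one_gt_d9
      have h6 : Real.exp 6 = Real.exp 1 ^ 6 := by rw [← Real.exp_nat_mul]; norm_num
      have h7 : (2.7182818283 : ℝ) ^ 6 ≤ Real.exp 1 ^ 6 := pow_le_pow_left₀ (by norm_num) h5.le 6
      have h8 : (192 : ℝ) ≤ 2.7182818283 ^ 6 := by norm_num
      linarith
    have e : Real.exp ((7 * C0 + 7) / p) =
        Real.exp (6 / p) * (Real.exp (1 / p) * Real.exp (7 * C0 / p)) := by
      rw [← Real.exp_add, ← Real.exp_add]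
      congr 1
      ring
    rw [e]
    have h9 : (R : ℝ) * K ≤ (3 * Real.exp (1 / p)) * (2 * Real.exp (7 * C0 / p)) :=
      mul_le_mul h2 hKlt.le (by positivity) (by positivity)
    have h10 : 192 * (Real.exp (1 / p) * Real.exp (7 * C0 / p)) ≤
        Real.exp (6 / p) * (Real.exp (1 / p) * Real.exp (7 * C0 / p)) :=
      mul_le_mul_of_nonneg_right h3 (by positivity)
    nlinarith
  have hJ0 : (0 : ℝ) < J := lt_of_lt_of_le (Real.exp_pos _) hJ
  have hJRK : 32 * (R : ℝ) * K ≤ J := hRK.trans hJ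
  obtain ⟨ρ, hρdef⟩ : ∃ ρ : ℝ, ρ = Real.exp (-((7 * C0 + 7) / p)) := ⟨_, rfl⟩
  have hρ0 : 0 < ρ := by rw [hρdef]; exact Real.exp_pos _
  have hρRK : 32 * (R : ℝ) * K * ρ ≤ 1 := by
    rw [hρdef, Real.exp_neg]
    have := Real.exp_pos ((7 * C0 + 7) / p)
    rw [← div_eq_mul_inv, div_le_one this]
    exact hRK
  have hR1' : (1 : ℝ) ≤ R := by exact_mod_cast hR1
  have hK2' : (2 : ℝ) ≤ K := by exact_mod_cast hK2
  obtain ⟨T1, hT1⟩ := h0 (2 * R * A) K (by nlinarith) hK2
  refine ⟨max (max T1 (R * A)) (max (J * A) 3), ?_⟩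
  intro T δ hT hδ hδA ε
  have hTT1 : T1 ≤ T := (le_max_left _ _).trans ((le_max_left _ _).trans hT)
  have hTRA : R * A ≤ T := (le_max_right _ _).trans ((le_max_left _ _).trans hT)
  have hTJA : J * A ≤ T := (le_max_left _ _).trans ((le_max_right _ _).trans hT)
  have hT3 : 3 ≤ T := (le_max_right _ _).trans ((le_max_right _ _).trans hT)
  have hlogT : 0 < Real.log T := Real.log_pos (by linarith)
  have hδ0 : 0 < δ := lt_of_lt_of_le (by positivity) hδ
  rw [← hρdef]
  -- the finite set of the errors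
  obtain ⟨Err, hErr⟩ : ∃ Err : ℝ → Finset ℕ, ∀ t j, j ∈ Err t ↔
      j < J ∧ ε j * (Z (t + δ * j) * Z (t + δ * ((j : ℝ) + 1))) ≤ 0 :=
    ⟨fun t => (Finset.range J).filter fun j => ε j * (Z (t + δ * j) * Z (t + δ * ((j : ℝ) + 1))) ≤ 0,
      fun t j => by rw [Finset.mem_filter, Finset.mem_range]⟩
  have hncard : ∀ t, ({j : ℕ | j < J ∧ ε j * (Z (t + δ * j) * Z (t + δ * ((j : ℝ) + 1))) ≤ 0}.ncard) =
      (Err t).card := by
    intro t
    rw [← Set.ncard_coe_finset]
    congr 1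
    ext j
    exact (hErr t j).symm
  simp only [hncard]
  obtain ⟨U, hUdef⟩ : ∃ U : Set ℝ, U = {t : ℝ | t ∈ Icc T (2 * T) ∧ ((Err t).card : ℝ) ≤ ρ * J} :=
    ⟨_, rfl⟩
  rw [← hUdef]
  have hUsub : U ⊆ Icc T (2 * T) := by
    rw [hUdef]
    exact fun t ht => ht.1
  have hUmeas : MeasurableSet U := by
    have h1 : ∀ t, ((Err t).card : ℝ) = ∑ j ∈ Finset.range J,
        if ε j * (Z (t + δ * j) * Z (t + δ * ((j : ℝ) + 1))) ≤ 0 then (1 : ℝ) else 0 := by
      intro t
      rw [Finset.sum_boole]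
      congr 2
      ext j
      rw [hErr, Finset.mem_filter, Finset.mem_range]
    rw [hUdef]
    refine measurableSet_Icc.inter ?_
    simp only [h1]
    have hm : Measurable fun t : ℝ => ∑ j ∈ Finset.range J,
        if ε j * (Z (t + δ * j) * Z (t + δ * ((j : ℝ) + 1))) ≤ 0 then (1 : ℝ) else 0 := by
      refine Finset.measurable_fun_sum _ fun j _ => ?_
      refine Measurable.ite ?_ measurable_const measurable_const
      refine measurableSet_le (Continuous.measurable ?_) measurable_const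
      fun_prop
    exact measurableSet_le hm measurable_const
  by_contra hcon
  push Not at hcon
  have hUfin : volume U ≠ ⊤ := by
    refine ne_top_of_le_ne_top ?_ (measure_mono hUsub)
    rw [Real.volume_Icc]
    exact ENNReal.ofReal_ne_top
  obtain ⟨u, hudef⟩ : ∃ u : ℝ, u = (volume U).toReal := ⟨_, rfl⟩
  have hu0 : 0 ≤ u := by rw [hudef]; exact ENNReal.toReal_nonneg
  have hu : volume U = ENNReal.ofReal u := by rw [hudef, ENNReal.ofReal_toReal hUfin]
  have hpu : p * T < u := by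
    rw [hu] at hcon
    exact (ENNReal.ofReal_lt_ofReal_iff_of_nonneg (by positivity)).1 hcon
  -- two translates meet
  obtain ⟨r, hr1, hrR, t2, ht2, ht1⟩ := rp_pigeon U hUmeas T (2 * T) δ u R hδ0.le (by linarith)
    hUsub hu (by
      have h1 : (R : ℝ) * δ ≤ T := by nlinarith
      have h2 : 2 ≤ (R : ℝ) * p := by
        rw [div_le_iff₀ hp] at hRle
        exact hRle
      have h3 : ((R : ℝ) + 1) * (p * T) < (R + 1) * u := by
        have : (0 : ℝ) < R + 1 := by positivity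
        exact mul_lt_mul_of_pos_left hpu this
      nlinarith)
  have hcardErr : ∀ t ∈ U, ((Err t).card : ℝ) ≤ ρ * J := by
    intro t ht
    rw [hUdef] at ht
    exact ht.2
  obtain ⟨Sh, hSh⟩ : ∃ Sh : Finset ℕ → Finset ℕ, ∀ E j, j ∈ Sh E ↔ j < J ∧ j + r ∈ E :=
    ⟨fun E => (Finset.range J).filter fun j => j + r ∈ E,
      fun E j => by rw [Finset.mem_filter, Finset.mem_range]⟩
  have hShcard : ∀ E, (Sh E).card ≤ E.card := by
    intro E
    refine Finset.card_le_card_of_injOn (fun j => j + r) ?_ ?_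
    · intro j hj
      exact ((hSh E j).1 hj).2
    · intro a _ b _ hab
      simpa using hab
  obtain ⟨B0, hB0⟩ : ∃ B0 : Finset ℕ, ∀ j, j ∈ B0 ↔ j < J ∧ j + r < J ∧ ¬ 0 < ε j * ε (j + r) :=
    ⟨(Finset.range J).filter fun j => j + r < J ∧ ¬ 0 < ε j * ε (j + r),
      fun j => by rw [Finset.mem_filter, Finset.mem_range]⟩
  have hB0sub : B0 ⊆ Err (t2 + δ * r) ∪ Sh (Err t2) := by
    intro j hj
    rw [hB0] at hj
    by_contra hcon2
    rw [Finset.mem_union, not_or, hErr, hSh, hErr] at hcon2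
    obtain ⟨c1, c2⟩ := hcon2
    have d1 : 0 < ε j * (Z (t2 + δ * r + δ * j) * Z (t2 + δ * r + δ * ((j : ℝ) + 1))) := by
      by_contra h; exact c1 ⟨hj.1, not_lt.1 h⟩
    have d2 : 0 < ε (j + r) * (Z (t2 + δ * ((j + r : ℕ) : ℝ)) * Z (t2 + δ * (((j + r : ℕ) : ℝ) + 1))) := by
      by_contra h; exact c2 ⟨hj.1, hj.2.1, not_lt.1 h⟩
    have e1 : t2 + δ * ((j + r : ℕ) : ℝ) = t2 + δ * r + δ * j := by push_cast; ring
    have e2 : t2 + δ * (((j + r : ℕ) : ℝ) + 1) = t2 + δ * r + δ * ((j : ℝ) + 1) := by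
      push_cast; ring
    rw [e1, e2] at d2
    exact hj.2.2 (rp_pos d1 (by rw [mul_comm]; exact d2))
  have hB0card : (B0.card : ℝ) ≤ 2 * (ρ * J) := by
    have h1 : B0.card ≤ (Err (t2 + δ * r)).card + (Sh (Err t2)).card :=
      (Finset.card_le_card hB0sub).trans (Finset.card_union_le _ _)
    have h2 := hShcard (Err t2)
    have h3 : (B0.card : ℝ) ≤ (Err (t2 + δ * r)).card + (Err t2).card := by
      exact_mod_cast h1.trans (by omega)
    linarith [hcardErr _ ht1, hcardErr _ ht2]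
  -- the set of the starting points of long sequences of the same sign
  obtain ⟨V, hVdef⟩ : ∃ V : Set ℝ, V = {v : ℝ | ∀ k l : ℕ, k < K → l < K →
      0 < Z (v + 2 * r * δ * k) * Z (v + 2 * r * δ * l)} := ⟨_, rfl⟩
  have hVmeas : MeasurableSet V := by
    rw [hVdef]
    simp only [Set.ofPred_forall]
    refine MeasurableSet.iInter fun k => MeasurableSet.iInter fun l =>
      MeasurableSet.iInter fun _ => MeasurableSet.iInter fun _ => ?_
    refine measurableSet_lt measurable_const (Continuous.measurable ?_)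
    fun_prop
  have hVvol : ∀ S : ℝ, T ≤ S → volume (V ∩ Icc S (2 * S)) ≤
      ENNReal.ofReal (C0 / Real.log K * S) := by
    intro S hS
    have hr1' : (1 : ℝ) ≤ r := by exact_mod_cast hr1
    have hrR' : (r : ℝ) ≤ R := by exact_mod_cast hrR
    have h1 := hT1 S (2 * r * δ) (hTT1.trans hS) (by
      have h2 : 1 / Real.log S ≤ 1 / Real.log T :=
        one_div_le_one_div_of_le hlogT (Real.log_le_log (by linarith) hS)
      nlinarith) (by
      have h2 : (r : ℝ) * δ ≤ R * A := mul_le_mul hrR' hδA hδ0.le (by positivity)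
      nlinarith)
    refine (measure_mono ?_).trans h1
    intro t ht
    refine ⟨ht.2, fun i j hi hj => ?_⟩
    have h3 := ht.1
    rw [hVdef] at h3
    exact h3 i j hi hj
  have hV4 : volume (V ∩ Icc T (4 * T)) ≤ ENNReal.ofReal (3 * (C0 / Real.log K) * T) := by
    have h1 : V ∩ Icc T (4 * T) ⊆ (V ∩ Icc T (2 * T)) ∪ (V ∩ Icc (2 * T) (2 * (2 * T))) := by
      intro t ht
      rcases le_total t (2 * T) with h | h
      · exact Or.inl ⟨ht.1, ht.2.1, h⟩
      · exact Or.inr ⟨ht.1, h, by linarith [ht.2.2]⟩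
    have hlK : 0 < Real.log K := lt_of_lt_of_le (by positivity) hlogK
    calc volume (V ∩ Icc T (4 * T)) ≤ volume (V ∩ Icc T (2 * T)) +
          volume (V ∩ Icc (2 * T) (2 * (2 * T))) := (measure_mono h1).trans (measure_union_le _ _)
      _ ≤ ENNReal.ofReal (C0 / Real.log K * T) + ENNReal.ofReal (C0 / Real.log K * (2 * T)) :=
        add_le_add (hVvol T le_rfl) (hVvol (2 * T) (by linarith))
      _ = ENNReal.ofReal (3 * (C0 / Real.log K) * T) := by
        rw [← ENNReal.ofReal_add (by positivity) (by positivity)]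
        congr 1
        ring
  -- the number of the good starting points
  have hmain : ∀ t ∈ U, ∃ G : Finset ℕ, (∀ i ∈ G, i < J ∧ t + δ * i ∈ V) ∧ (J : ℝ) / 2 ≤ G.card := by
    intro t ht
    obtain ⟨G, hG⟩ : ∃ G : Finset ℕ, G = (Finset.range J).filter fun i : ℕ => t + δ * i ∈ V :=
      ⟨_, rfl⟩
    refine ⟨G, ?_, ?_⟩
    · intro i hi
      rw [hG, Finset.mem_filter, Finset.mem_range] at hi
      exact hi
    obtain ⟨Bad, hBad⟩ : ∃ Bad : Finset ℕ, Bad = B0 ∪ Err t ∪ Sh (Err t) := ⟨_, rfl⟩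
    have hBadcard : (Bad.card : ℝ) ≤ 4 * (ρ * J) := by
      have h1 : Bad.card ≤ B0.card + (Err t).card + (Sh (Err t)).card := by
        rw [hBad]
        have h2 := Finset.card_union_le (B0 ∪ Err t) (Sh (Err t))
        have h3 := Finset.card_union_le B0 (Err t)
        omega
      have h2 := hShcard (Err t)
      have h3 : (Bad.card : ℝ) ≤ B0.card + (Err t).card + (Err t).card := by
        exact_mod_cast h1.trans (by omega)
      linarith [hcardErr _ ht]
    have hcount := rp_count J r K Bad (fun i : ℕ => t + δ * i ∈ V) (by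
      intro i hi hw
      rw [hVdef]
      intro k l hk hl
      have h1 := rp_window (fun j => Z (t + δ * j)) J r K Bad hr1 (by
        intro j hj hjB
        rw [hBad, Finset.mem_union, Finset.mem_union, not_or, not_or, hB0, hErr, hSh, hErr] at hjB
        obtain ⟨⟨c1, c2⟩, c3⟩ := hjB
        have d1 : 0 < ε j * ε (j + r) := by
          by_contra h; exact c1 ⟨by omega, hj, h⟩
        have d2 : 0 < ε j * (Z (t + δ * j) * Z (t + δ * ((j : ℝ) + 1))) := by
          by_contra h; exact c2 ⟨by omega, not_lt.1 h⟩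
        have d3 : 0 < ε (j + r) * (Z (t + δ * ((j + r : ℕ) : ℝ)) *
            Z (t + δ * (((j + r : ℕ) : ℝ) + 1))) := by
          by_contra h; exact c3 ⟨by omega, hj, not_lt.1 h⟩
        show 0 < Z (t + δ * j) * Z (t + δ * ((j + 1 : ℕ) : ℝ)) *
          (Z (t + δ * ((j + r : ℕ) : ℝ)) * Z (t + δ * ((j + r + 1 : ℕ) : ℝ)))
        have e1 : ((j + 1 : ℕ) : ℝ) = (j : ℝ) + 1 := by push_cast; ring
        have e2 : ((j + r + 1 : ℕ) : ℝ) = ((j + r : ℕ) : ℝ) + 1 := by push_cast; ring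
        rw [e1, e2]
        refine rp_pos (b := ε j) (by rw [mul_comm]; exact d2) (rp_pos d1 d3)) i hi hw k l hk hl
      have e1 : ∀ k : ℕ, t + δ * i + 2 * r * δ * k = t + δ * ((i + 2 * r * k : ℕ) : ℝ) := by
        intro k; push_cast; ring
      rw [e1, e1]
      exact h1)
    rw [← hG] at hcount
    have hcount' : (J : ℝ) ≤ G.card + (r + 2 * r * K) + 2 * r * K * Bad.card := by
      exact_mod_cast hcount
    exact rp_num hcount' (Nat.cast_nonneg _) (Nat.cast_le.2 hrR) hK2' (Nat.cast_nonneg _)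
      hBadcard hJ0.le hJRK hρRK
  have hav := rp_average U V (Icc T (4 * T)) hUmeas hVmeas measurableSet_Icc δ (J / 2) J (by
    intro t ht i hi
    have h1 := hUsub ht
    have h2 : (i : ℝ) ≤ J := by exact_mod_cast hi.le
    have h3 : δ * i ≤ A * J := mul_le_mul hδA h2 (by positivity) (by positivity)
    have h4 : 0 ≤ δ * (i : ℝ) := by positivity
    exact ⟨by linarith [h1.1], by linarith [h1.2]⟩) hmain
  have hfin : ENNReal.ofReal (J / 2 * u) ≤ ENNReal.ofReal (J * (3 * (C0 / Real.log K) * T)) := by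
    rw [ENNReal.ofReal_mul (by positivity), ← hu, ENNReal.ofReal_mul hJ0.le, ENNReal.ofReal_natCast]
    exact hav.trans (mul_le_mul_right hV4 _)
  have hlK : 0 < Real.log K := lt_of_lt_of_le (by positivity) hlogK
  have hfin' : J / 2 * u ≤ J * (3 * (C0 / Real.log K) * T) :=
    (ENNReal.ofReal_le_ofReal_iff (by positivity)).1 hfin
  have hq : C0 / Real.log K ≤ p / 7 := by
    rw [div_le_div_iff₀ hlK (by norm_num)]
    rw [div_le_iff₀ hp] at hlogK
    linarith
  have hT0 : 0 < T := by linarith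
  have h1 : u ≤ 6 * (C0 / Real.log K) * T := by
    have : (J : ℝ) * u ≤ J * (6 * (C0 / Real.log K) * T) := by nlinarith
    exact le_of_mul_le_mul_left this hJ0
  have h2 : (C0 / Real.log K) * T ≤ p / 7 * T := mul_le_mul_of_nonneg_right hq hT0.le
  have h3 : 0 < p * T := by positivity
  nlinarith

end Pool.Agent.Helper647.SG.JRP
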