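import Mathlib

set_option autoImplicit false

namespace Pool.Agent.Helper647.SG.JRQ

open Filter Topology MeasureTheory Set

theorem rq_block (z : ℕ → ℝ) (ε : ℕ → ℝ) (a : ℕ) (ha : z a ≠ 0) :
    ∀ l : ℕ, (∀ j, a ≤ j → j < a + l → 0 < ε j * (z j * z (j + 1))) →
      0 < (∏ j ∈ Finset.Ico a (a + l), ε j) * (z a * z (a + l)) := by
  intro l
  induction l with
  | zero =>
    intro _
    simp only [add_zero, Finset.Ico_self, Finset.prod_empty, one_mul]
    exact mul_self_pos.2 ha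
  | succ l ih =>
    intro hj
    have h1 := ih (fun j h1 h2 => hj j h1 (by omega))
    have h2 := hj (a + l) (by omega) (by omega)
    have hz : z (a + l) ≠ 0 := by
      intro h0
      rw [h0] at h2
      simp at h2
    rw [← add_assoc, Finset.prod_Ico_succ_top (by omega)]
    have h3 := mul_pos h1 h2
    have h4 : 0 < z (a + l) * z (a + l) := mul_self_pos.2 hz
    have h5 : (∏ j ∈ Finset.Ico a (a + l), ε j) * (z a * z (a + l)) *
        (ε (a + l) * (z (a + l) * z (a + l + 1))) =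
        (z (a + l) * z (a + l)) * ((∏ j ∈ Finset.Ico a (a + l), ε j) * ε (a + l) *
          (z a * z (a + l + 1))) := by ring
    rw [h5] at h3
    exact (mul_pos_iff_of_pos_left h4).1 h3

theorem rq_count (z : ℕ → ℝ) (ε : ℕ → ℝ) (k J J' : ℕ) (hk : 0 < k) (hJ : J' * k ≤ J) :
    {i : ℕ | i < J' ∧ (∏ j ∈ Finset.Ico (i * k) (i * k + k), ε j) *
      (z (i * k) * z ((i + 1) * k)) ≤ 0}.ncard ≤
    {j : ℕ | j < J ∧ ε j * (z j * z (j + 1)) ≤ 0}.ncard := by
  have hfin : {j : ℕ | j < J ∧ ε j * (z j * z (j + 1)) ≤ 0}.Finite :=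
    (Set.finite_lt_nat J).subset fun j hj => hj.1
  refine le_trans (Set.ncard_le_ncard ?_ (hfin.image fun j => j / k))
    (Set.ncard_image_le hfin)
  intro i hi
  obtain ⟨hi1, hi2⟩ := hi
  by_contra hne
  have hall : ∀ j, i * k ≤ j → j < i * k + k → 0 < ε j * (z j * z (j + 1)) := by
    intro j h1 h2
    by_contra h3
    push Not at h3
    apply hne
    refine ⟨j, ⟨?_, h3⟩, ?_⟩
    · have : (i + 1) * k ≤ J' * k := Nat.mul_le_mul_right k hi1
      have : (i + 1) * k = i * k + k := by ring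
      omega
    · exact Nat.div_eq_of_lt_le h1 (by
        have : (i + 1) * k = i * k + k := by ring
        omega)
  have h0 : z (i * k) ≠ 0 := by
    intro h0
    have := hall (i * k) le_rfl (by omega)
    rw [h0] at this
    simp at this
  have h1 := rq_block z ε (i * k) h0 k hall
  have h2 : (i + 1) * k = i * k + k := by ring
  rw [h2] at hi2
  exact absurd hi2 (not_le.2 h1)

theorem rq (Z : ℝ → ℝ)
    (h : ∃ C : ℝ, 0 < C ∧ ∀ (A p : ℝ) (J : ℕ), 1 ≤ A → 0 < p → p ≤ 1 → Real.exp (C / p) ≤ J →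
      ∃ T0 : ℝ, ∀ T δ : ℝ, T0 ≤ T → 1 / Real.log T ≤ δ → δ ≤ A → ∀ ε : ℕ → ℝ,
        volume {t : ℝ | t ∈ Icc T (2 * T) ∧
          ({j : ℕ | j < J ∧ ε j * (Z (t + δ * j) * Z (t + δ * ((j : ℝ) + 1))) ≤ 0}.ncard : ℝ) ≤ Real.exp (-(C / p)) * J} ≤
          ENNReal.ofReal (p * T)) :
    ∃ C : ℝ, 0 < C ∧ ∀ (A p : ℝ) (J : ℕ), 1 ≤ A → 0 < p → p ≤ 1 →
      ∃ T0 : ℝ, ∀ T δ : ℝ, T0 ≤ T → 0 < δ → δ ≤ A → Real.exp (C / p) ≤ J * min 1 (δ * Real.log T) → ∀ ε : ℕ → ℝ,
        volume {t : ℝ | t ∈ Icc T (2 * T) ∧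
          ({j : ℕ | j < J ∧ ε j * (Z (t + δ * j) * Z (t + δ * ((j : ℝ) + 1))) ≤ 0}.ncard : ℝ) ≤
            Real.exp (-(C / p)) * (J * min 1 (δ * Real.log T))} ≤
          ENNReal.ofReal (p * T) := by
  obtain ⟨C0, hC0, h⟩ := h
  refine ⟨C0 + 4, by linarith, ?_⟩
  intro A p J hA hp hp1
  have h' : ∀ j : ℕ, ∃ T0 : ℝ, Real.exp (C0 / p) ≤ j → ∀ T δ : ℝ, T0 ≤ T →
      1 / Real.log T ≤ δ → δ ≤ A → ∀ ε : ℕ → ℝ,
        volume {t : ℝ | t ∈ Icc T (2 * T) ∧
          ({i : ℕ | i < j ∧ ε i * (Z (t + δ * i) * Z (t + δ * ((i : ℝ) + 1))) ≤ 0}.ncard : ℝ) ≤ Real.exp (-(C0 / p)) * j} ≤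
          ENNReal.ofReal (p * T) := by
    intro j
    by_cases hj : Real.exp (C0 / p) ≤ j
    · obtain ⟨T0, hT0⟩ := h A p j hA hp hp1 hj
      exact ⟨T0, fun _ => hT0⟩
    · exact ⟨0, fun h1 => absurd h1 hj⟩
  choose f hf using h'
  refine ⟨Real.exp 2 + ∑ j ∈ Finset.range (J + 1), |f j|, ?_⟩
  intro T δ hT hδ hδA hJ ε
  have hS : 0 ≤ ∑ j ∈ Finset.range (J + 1), |f j| := Finset.sum_nonneg fun _ _ => abs_nonneg _
  have hT2 : Real.exp 2 ≤ T := by linarith
  have hTpos : 0 < T := lt_of_lt_of_le (Real.exp_pos 2) hT2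
  have hlog : 2 ≤ Real.log T := by
    rw [Real.le_log_iff_exp_le hTpos]; exact hT2
  have hTf : ∀ j, j ≤ J → f j ≤ T := by
    intro j hj
    have h1 : |f j| ≤ ∑ j ∈ Finset.range (J + 1), |f j| :=
      Finset.single_le_sum (f := fun j => |f j|) (fun _ _ => abs_nonneg _)
        (Finset.mem_range.2 (by omega))
    have h2 := le_abs_self (f j)
    have h3 := Real.exp_pos 2
    linarith
  have hexp4 : (16 : ℝ) ≤ Real.exp 4 := by
    have h1 : (2 : ℝ) ≤ Real.exp 1 := by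
      have := Real.add_one_le_exp (1 : ℝ); linarith
    have h2 : Real.exp 4 = Real.exp 1 ^ 4 := by
      rw [← Real.exp_nat_mul]; norm_num
    rw [h2]
    calc (16 : ℝ) = 2 ^ 4 := by norm_num
      _ ≤ Real.exp 1 ^ 4 := by gcongr
  have h4p : (16 : ℝ) ≤ Real.exp (4 / p) := by
    refine le_trans hexp4 (Real.exp_le_exp.2 ?_)
    rw [le_div_iff₀ hp]; linarith
  have hCp : Real.exp ((C0 + 4) / p) = Real.exp (C0 / p) * Real.exp (4 / p) := by
    rw [← Real.exp_add, add_div]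
  have hCp' : Real.exp (-((C0 + 4) / p)) * 16 ≤ Real.exp (-(C0 / p)) := by
    have h1 : Real.exp (-(C0 / p)) = Real.exp (-((C0 + 4) / p)) * Real.exp (4 / p) := by
      rw [← Real.exp_add]; congr 1; rw [add_div]; ring
    rw [h1]
    exact mul_le_mul_of_nonneg_left h4p (Real.exp_pos _).le
  have hC0pos : 1 ≤ Real.exp (C0 / p) := Real.one_le_exp (by positivity)
  by_cases hm : 1 ≤ δ * Real.log T
  · rw [min_eq_left hm, mul_one] at hJ
    have hJ' : Real.exp (C0 / p) ≤ J := by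
      refine le_trans ?_ hJ
      rw [hCp]; nlinarith
    have h1 := hf J hJ' T δ (hTf J le_rfl) (by
      rw [div_le_iff₀ (by linarith)]; exact hm) hδA ε
    refine le_trans (measure_mono ?_) h1
    rintro t ⟨ht1, ht2⟩
    refine ⟨ht1, le_trans ht2 ?_⟩
    rw [min_eq_left hm, mul_one]
    apply mul_le_mul_of_nonneg_right _ (Nat.cast_nonneg J)
    have := Real.exp_pos (-((C0 + 4) / p))
    linarith
  · push Not at hm
    set m : ℝ := δ * Real.log T with hmdef
    have hm0 : 0 < m := by positivity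
    rw [min_eq_right hm.le] at hJ
    set k : ℕ := ⌈1 / m⌉₊ with hk
    have h1m : 1 < 1 / m := by rw [lt_div_iff₀ hm0]; linarith
    have hk1 : 1 / m ≤ k := Nat.le_ceil _
    have hk2 : (k : ℝ) < 1 / m + 1 := Nat.ceil_lt_add_one (by positivity)
    have hk3 : (k : ℝ) ≤ 2 / m := by
      have : 2 / m = 1 / m + 1 / m := by ring
      linarith
    have hkpos : 0 < k := by
      have : (0 : ℝ) < k := by linarith
      exact_mod_cast this
    have hkposR : (0 : ℝ) < k := by exact_mod_cast hkpos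
    have hkm : 1 ≤ k * m := by
      have := mul_le_mul_of_nonneg_right hk1 hm0.le
      rwa [div_mul_cancel₀ _ hm0.ne'] at this
    have hkm2 : k * m ≤ 2 := by
      have := mul_le_mul_of_nonneg_right hk3 hm0.le
      rwa [div_mul_cancel₀ _ hm0.ne'] at this
    have hlogpos : 0 < Real.log T := by linarith
    have hkδ1 : 1 / Real.log T ≤ k * δ := by
      rw [div_le_iff₀ hlogpos]
      calc (1 : ℝ) ≤ k * m := hkm
        _ = k * δ * Real.log T := by rw [hmdef]; ring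
    have hkδ2 : k * δ ≤ A := by
      have h1 : k * δ * Real.log T ≤ 2 := by
        calc k * δ * Real.log T = k * m := by rw [hmdef]; ring
          _ ≤ 2 := hkm2
      have h2 : 0 < k * δ := by positivity
      nlinarith
    set J' : ℕ := J / k with hJ'
    have hJk : J' * k ≤ J := Nat.div_mul_le_self J k
    have hJle : J' ≤ J := Nat.div_le_self J k
    have hJlt : (J : ℝ) < (J' + 1) * k := by
      have : J < (J' + 1) * k := by
        have := Nat.lt_mul_div_succ J hkpos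
        rw [← hJ'] at this
        linarith [mul_comm k (J' + 1)]
      exact_mod_cast this
    have hN : (16 : ℝ) ≤ J * m := by
      refine le_trans ?_ hJ
      rw [hCp]; nlinarith
    have hJN : J * m / 4 ≤ J' := by
      have h1 : (J : ℝ) * m < (J' + 1) * 2 := by
        calc (J : ℝ) * m < (J' + 1) * k * m := mul_lt_mul_of_pos_right hJlt hm0
          _ = (J' + 1) * (k * m) := by ring
          _ ≤ (J' + 1) * 2 := by gcongr
      linarith
    have hJ'exp : Real.exp (C0 / p) ≤ J' := by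
      have : Real.exp (C0 / p) * 16 ≤ J * m := by
        refine le_trans ?_ hJ
        rw [hCp]
        exact mul_le_mul_of_nonneg_left h4p (Real.exp_pos _).le
      linarith
    have h1 := hf J' hJ'exp T (k * δ) (hTf J' hJle) hkδ1 hkδ2
      (fun i => ∏ j ∈ Finset.Ico (i * k) (i * k + k), ε j)
    refine le_trans (measure_mono ?_) h1
    rintro t ⟨ht1, ht2⟩
    refine ⟨ht1, ?_⟩
    rw [min_eq_right hm.le] at ht2
    have hc := rq_count (fun j => Z (t + δ * j)) ε k J J' hkpos hJk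
    have e1 : {i : ℕ | i < J' ∧ (∏ j ∈ Finset.Ico (i * k) (i * k + k), ε j) *
        (Z (t + k * δ * i) * Z (t + k * δ * ((i : ℝ) + 1))) ≤ 0} =
        {i : ℕ | i < J' ∧ (∏ j ∈ Finset.Ico (i * k) (i * k + k), ε j) *
      ((fun j : ℕ => Z (t + δ * j)) (i * k) * (fun j : ℕ => Z (t + δ * j)) ((i + 1) * k)) ≤ 0} := by
      ext i
      have e2 : t + k * δ * (i : ℝ) = t + δ * ((i * k : ℕ) : ℝ) := by push_cast; ring
      have e3 : t + k * δ * ((i : ℝ) + 1) = t + δ * (((i + 1) * k : ℕ) : ℝ) := by push_cast; ring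
      simp only [mem_setOf_eq, e2, e3]
    have e4 : {j : ℕ | j < J ∧ ε j * (Z (t + δ * j) * Z (t + δ * ((j : ℝ) + 1))) ≤ 0} =
        {j : ℕ | j < J ∧ ε j * ((fun j : ℕ => Z (t + δ * j)) j *
          (fun j : ℕ => Z (t + δ * j)) (j + 1)) ≤ 0} := by
      ext j
      simp only [mem_setOf_eq, Nat.cast_add, Nat.cast_one]
    rw [e1]
    rw [e4] at ht2
    have hcR : (({i : ℕ | i < J' ∧ (∏ j ∈ Finset.Ico (i * k) (i * k + k), ε j) *
      ((fun j : ℕ => Z (t + δ * j)) (i * k) * (fun j : ℕ => Z (t + δ * j)) ((i + 1) * k)) ≤ 0}.ncard : ℕ) : ℝ) ≤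
        (({j : ℕ | j < J ∧ ε j * ((fun j : ℕ => Z (t + δ * j)) j *
          (fun j : ℕ => Z (t + δ * j)) (j + 1)) ≤ 0}.ncard : ℕ) : ℝ) := by exact_mod_cast hc
    refine le_trans hcR (le_trans ht2 ?_)
    have h5 : (J : ℝ) * m ≤ 4 * J' := by linarith
    have h6 := Real.exp_pos (-((C0 + 4) / p))
    have h7 : (0 : ℝ) ≤ J' := Nat.cast_nonneg _
    calc Real.exp (-((C0 + 4) / p)) * (J * m) ≤ Real.exp (-((C0 + 4) / p)) * (4 * J') := by gcongr
      _ ≤ Real.exp (-(C0 / p)) * J' := by nlinarith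

end Pool.Agent.Helper647.SG.JRQ
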