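import Mathlib

set_option autoImplicit false

namespace Pool.Agent.Helper647.SG.JSV

open Complex Filter Topology MeasureTheory Set

/-- A bounded increasing comparison function. -/
noncomputable def svF (u : ℝ) : ℝ := u / (1 + |u|)

theorem svF_le (u : ℝ) : svF u ≤ 1 := by
  unfold svF
  rw [div_le_one (by positivity)]
  have := le_abs_self u
  linarith

theorem svF_ge (u : ℝ) : -1 ≤ svF u := by
  unfold svF
  rw [le_div_iff₀ (by positivity)]
  have := neg_abs_le u
  linarith

theorem svF_step (u : ℝ) : 1 / ((5 / 2) ^ 2 + u ^ 2) ≤ 2 * (svF (u + 1) - svF u) := by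
  unfold svF
  rcases le_total 0 u with h | h
  · rw [abs_of_nonneg h, abs_of_nonneg (by linarith : (0 : ℝ) ≤ u + 1)]
    have e : (u + 1) / (1 + (u + 1)) - u / (1 + u) = 1 / ((1 + u) * (2 + u)) := by
      have h1 : (1 + (u + 1)) ≠ 0 := by positivity
      have h2 : (1 + u) ≠ 0 := by positivity
      have h3 : (2 + u) ≠ 0 := by positivity
      field_simp
      ring
    rw [e, mul_one_div, div_le_div_iff₀ (by positivity) (by positivity)]
    nlinarith [sq_nonneg (u - 3 / 2)]
  · rcases le_total u (-1) with h' | h'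
    · rw [abs_of_nonpos h, abs_of_nonpos (by linarith : u + 1 ≤ 0)]
      have e : (u + 1) / (1 + -(u + 1)) - u / (1 + -u) = 1 / ((-u) * (1 - u)) := by
        have h1 : (1 + -(u + 1)) ≠ 0 := by linarith
        have h2 : (1 + -u) ≠ 0 := by linarith
        have h3 : (-u) ≠ 0 := by linarith
        have h4 : (1 - u) ≠ 0 := by linarith
        rw [div_sub_div _ _ h1 h2, div_eq_div_iff (mul_ne_zero h1 h2) (mul_ne_zero h3 h4)]
        ring
      rw [e, mul_one_div, div_le_div_iff₀ (by positivity) (by nlinarith)]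
      nlinarith [sq_nonneg u]
    · rw [abs_of_nonpos h, abs_of_nonneg (by linarith : (0 : ℝ) ≤ u + 1)]
      have h1 : (1 + (u + 1)) ≠ 0 := by linarith
      have h2 : (1 + -u) ≠ 0 := by linarith
      have h3 : (0 : ℝ) < (1 + (u + 1)) * (1 + -u) := by
        apply mul_pos <;> linarith
      have key : 1 / 2 ≤ (u + 1) / (1 + (u + 1)) - u / (1 + -u) := by
        rw [div_sub_div _ _ h1 h2, div_le_div_iff₀ (by norm_num) h3]
        nlinarith
      have h4 : 1 / ((5 / 2) ^ 2 + u ^ 2) ≤ 1 := by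
        rw [div_le_one (by positivity)]
        nlinarith [sq_nonneg u]
      linarith

/-- The kernel. -/
noncomputable def svP (t0 t : ℝ) : ℝ := (5 / 2) / (Real.pi * ((5 / 2) ^ 2 + (t - t0) ^ 2))

theorem svP_pos (t0 t : ℝ) : 0 < svP t0 t := by
  unfold svP
  have := Real.pi_pos
  positivity

theorem svP_cont (t0 : ℝ) : Continuous (svP t0) := by
  unfold svP
  have := Real.pi_pos
  refine continuous_const.div (by fun_prop) ?_
  intro t
  positivity

/-- The sum of the kernel over the grid. -/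
noncomputable def svW (n : ℕ) (s t : ℝ) : ℝ := ∑ k ∈ Finset.range n, svP (s + k) t

theorem svW_nonneg (n : ℕ) (s t : ℝ) : 0 ≤ svW n s t :=
  Finset.sum_nonneg fun _ _ => (svP_pos _ _).le

theorem svW_le (n : ℕ) (s t : ℝ) : svW n s t ≤ 4 := by
  unfold svW
  have h : ∀ k ∈ Finset.range n, svP (s + k) t ≤
      (5 / Real.pi) * (svF (s - t + ((k + 1 : ℕ) : ℝ)) - svF (s - t + (k : ℝ))) := by
    intro k _
    have h1 := svF_step (s - t + k)
    have h2 : svP (s + k) t = (5 / 2 / Real.pi) * (1 / ((5 / 2) ^ 2 + (s - t + k) ^ 2)) := by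
      unfold svP
      have := Real.pi_pos
      rw [show (t - (s + k)) ^ 2 = (s - t + k) ^ 2 by ring]
      field_simp
    rw [h2]
    have h3 : (s - t + ((k + 1 : ℕ) : ℝ)) = s - t + k + 1 := by push_cast; ring
    rw [h3]
    have hpi := Real.pi_pos
    calc (5 / 2 / Real.pi) * (1 / ((5 / 2) ^ 2 + (s - t + k) ^ 2))
        ≤ (5 / 2 / Real.pi) * (2 * (svF (s - t + k + 1) - svF (s - t + k))) := by gcongr
      _ = (5 / Real.pi) * (svF (s - t + k + 1) - svF (s - t + k)) := by ring
  refine (Finset.sum_le_sum h).trans ?_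
  rw [← Finset.mul_sum, Finset.sum_range_sub (fun k : ℕ => svF (s - t + (k : ℝ)))]
  have h1 := svF_le (s - t + (n : ℝ))
  have h2 := svF_ge (s - t + ((0 : ℕ) : ℝ))
  have hpi := Real.pi_gt_three
  have h3 : 5 / Real.pi ≤ 2 := by
    rw [div_le_iff₀ Real.pi_pos]; linarith
  have h4 : 0 ≤ 5 / Real.pi := by positivity
  calc (5 / Real.pi) * (svF (s - t + (n : ℝ)) - svF (s - t + ((0 : ℕ) : ℝ)))
      ≤ (5 / Real.pi) * 2 := by
        apply mul_le_mul_of_nonneg_left _ h4
        linarith
    _ ≤ 4 := by linarith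

theorem svW_ge (n : ℕ) (s t : ℝ) (h1 : s ≤ t) (h2 : t < s + n) : 1 / 10 ≤ svW n s t := by
  unfold svW
  set k := ⌊t - s⌋₊ with hk
  have hk1 : (k : ℝ) ≤ t - s := Nat.floor_le (by linarith)
  have hk2 : t - s < k + 1 := Nat.lt_floor_add_one _
  have hkn : k < n := by
    have : (k : ℝ) < n := by linarith
    exact_mod_cast this
  have h3 : svP (s + k) t ≤ ∑ k ∈ Finset.range n, svP (s + k) t :=
    Finset.single_le_sum (f := fun k : ℕ => svP (s + k) t) (fun _ _ => (svP_pos _ _).le)
      (Finset.mem_range.2 hkn)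
  refine le_trans ?_ h3
  unfold svP
  have hpi := Real.pi_pos
  have hpi2 := Real.pi_lt_d2
  rw [div_le_div_iff₀ (by norm_num) (by positivity)]
  have h4 : (t - (s + k)) ^ 2 ≤ 1 := by
    have : 0 ≤ t - (s + k) := by linarith
    have : t - (s + k) ≤ 1 := by linarith
    nlinarith
  nlinarith

theorem svW_far (n : ℕ) (T t : ℝ) (hT : 8 ≤ T) (hn : (n : ℝ) ≤ 2 * T + 1)
    (ht : t < T / 4 ∨ 4 * T < t) : svW n (T / 2) t ≤ 100 * T / (T + |t|) ^ 2 := by
  unfold svW
  have hpi := Real.pi_gt_three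
  have hpos : 0 < T + |t| := by positivity
  have h : ∀ k ∈ Finset.range n, svP (T / 2 + k) t ≤ 25 / (T + |t|) ^ 2 := by
    intro k hk
    have hkn : (k : ℝ) + 1 ≤ n := by
      have := Finset.mem_range.1 hk
      exact_mod_cast this
    have hk0 : (0 : ℝ) ≤ k := Nat.cast_nonneg k
    have hd : (T + |t|) / 5 ≤ |t - (T / 2 + k)| := by
      rcases ht with ht | ht
      · rw [abs_of_nonpos (by linarith : t - (T / 2 + k) ≤ 0)]
        rcases abs_cases t with ⟨h1, h2⟩ | ⟨h1, h2⟩ <;> rw [h1] <;> linarith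
      · rw [abs_of_nonneg (by linarith : 0 ≤ t - (T / 2 + k)), abs_of_nonneg (by linarith : 0 ≤ t)]
        linarith
    have hd2 : ((T + |t|) / 5) ^ 2 ≤ (t - (T / 2 + k)) ^ 2 := by
      rw [← sq_abs (t - (T / 2 + k))]
      gcongr
    unfold svP
    rw [div_le_div_iff₀ (by positivity) (by positivity)]
    have h5 : (T + |t|) ^ 2 / 25 ≤ (5 / 2) ^ 2 + (t - (T / 2 + k)) ^ 2 := by nlinarith
    have h6 : 0 < (T + |t|) ^ 2 := by positivity
    nlinarith
  refine (Finset.sum_le_sum h).trans ?_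
  rw [Finset.sum_const, Finset.card_range, nsmul_eq_mul, ← mul_div_assoc]
  apply div_le_div_of_nonneg_right _ (by positivity)
  linarith

theorem sv_log (x : ℝ) (hx : 1 ≤ x) : Real.log x ≤ 2 * x ^ (1 / 2 : ℝ) := by
  have := Real.log_le_rpow_div (by linarith : (0 : ℝ) ≤ x) (by norm_num : (0 : ℝ) < 1 / 2)
  linarith

theorem sv_decay (T t : ℝ) (hT : 1 ≤ T) :
    Real.log (T + |t|) / (T + |t|) ^ 2 ≤ 2 * (1 + ‖t‖) ^ (-(3 / 2) : ℝ) := by
  have hx : 1 ≤ T + |t| := by have := abs_nonneg t; linarith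
  have hx0 : 0 < T + |t| := by linarith
  have h1 := sv_log _ hx
  have h2 : Real.log (T + |t|) / (T + |t|) ^ 2 ≤ 2 * (T + |t|) ^ (1 / 2 : ℝ) / (T + |t|) ^ 2 := by
    gcongr
  refine h2.trans ?_
  have h3 : (T + |t|) ^ (1 / 2 : ℝ) / (T + |t|) ^ 2 = (T + |t|) ^ (-(3 / 2) : ℝ) := by
    rw [← Real.rpow_natCast, ← Real.rpow_sub hx0]
    norm_num
  rw [mul_div_assoc, h3, Real.norm_eq_abs]
  have h4 : (T + |t|) ^ (-(3 / 2) : ℝ) ≤ (1 + |t|) ^ (-(3 / 2) : ℝ) :=
    Real.rpow_le_rpow_of_nonpos (by positivity) (by linarith) (by norm_num)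
  linarith

theorem sv_int : Integrable (fun t : ℝ => (1 + ‖t‖) ^ (-(3 / 2) : ℝ)) := by
  apply integrable_one_add_norm
  simp
  norm_num

/-- Integrability of the product of the kernel with the truncated logarithm. -/
theorem sv_integrable (G : ℝ → ℝ) (hG : Continuous G) (T C M t0 : ℝ) (hT : 1 ≤ T) (hC : 0 < C)
    (hM : 0 ≤ M) (h3 : ∀ t, G t ≤ (T + |t|) ^ C) :
    Integrable (fun t => svP t0 t * Real.log (max (G t) (Real.exp (-M)))) := by
  have hint := (sv_int).const_mul (2 * (1 + |t0|) ^ 2 * (M + 2 * C * T))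
  refine hint.mono' ?_ ?_
  · refine Continuous.aestronglyMeasurable ?_
    refine (svP_cont t0).mul ?_
    refine Continuous.log (hG.max continuous_const) ?_
    intro t
    have : 0 < max (G t) (Real.exp (-M)) := lt_max_of_lt_right (Real.exp_pos _)
    exact this.ne'
  · refine ae_of_all _ fun t => ?_
    have hpi := Real.pi_gt_three
    have ht0 : 0 ≤ |t0| := abs_nonneg _
    have htt : 0 ≤ |t| := abs_nonneg _
    have hP : svP t0 t ≤ 2 * (1 + |t0|) ^ 2 / (1 + |t|) ^ 2 := by
      unfold svP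
      rw [div_le_div_iff₀ (by positivity) (by positivity)]
      have h5 : 1 + |t| ≤ (1 + |t0|) * (1 + |t - t0|) := by
        have : |t| ≤ |t0| + |t - t0| := by
          have := abs_add_le t0 (t - t0)
          simpa using this
        nlinarith [abs_nonneg (t - t0)]
      have h6 : (1 + |t|) ^ 2 ≤ ((1 + |t0|) * (1 + |t - t0|)) ^ 2 := by gcongr
      have h7 : (1 + |t - t0|) ^ 2 ≤ 2 * ((5 / 2) ^ 2 + (t - t0) ^ 2) := by
        have := sq_abs (t - t0)
        nlinarith [sq_nonneg (|t - t0| - 1)]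
      have h8 : (1 + |t|) ^ 2 ≤ (1 + |t0|) ^ 2 * (2 * ((5 / 2) ^ 2 + (t - t0) ^ 2)) := by
        refine h6.trans ?_
        rw [mul_pow]
        gcongr
      have h9 : 0 ≤ (1 + |t0|) ^ 2 * (2 * ((5 / 2) ^ 2 + (t - t0) ^ 2)) := by positivity
      nlinarith
    have hx : 1 ≤ T + |t| := by linarith
    have hL : |Real.log (max (G t) (Real.exp (-M)))| ≤ M + C * Real.log (T + |t|) := by
      have hlog0 : 0 ≤ Real.log (T + |t|) := Real.log_nonneg hx
      have hmx : 0 < max (G t) (Real.exp (-M)) := lt_max_of_lt_right (Real.exp_pos _)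
      rw [abs_le]
      constructor
      · have : -M ≤ Real.log (max (G t) (Real.exp (-M))) := by
          rw [Real.le_log_iff_exp_le hmx]
          exact le_max_right _ _
        have : 0 ≤ C * Real.log (T + |t|) := by positivity
        linarith
      · have h1 : max (G t) (Real.exp (-M)) ≤ (T + |t|) ^ C := by
          apply max_le (h3 t)
          have : Real.exp (-M) ≤ 1 := by
            rw [Real.exp_le_one_iff]; linarith
          exact this.trans (Real.one_le_rpow hx hC.le)
        have h2 := Real.log_le_log hmx h1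
        rw [Real.log_rpow (by linarith)] at h2
        linarith
    rw [norm_mul, Real.norm_eq_abs, Real.norm_eq_abs, abs_of_pos (svP_pos _ _), Real.norm_eq_abs]
    have hlogb : M + C * Real.log (T + |t|) ≤ (M + 2 * C * T) * (1 + |t|) ^ (1 / 2 : ℝ) := by
      have h1 := sv_log _ hx
      have h2 : (T + |t|) ^ (1 / 2 : ℝ) ≤ (T * (1 + |t|)) ^ (1 / 2 : ℝ) := by
        apply Real.rpow_le_rpow (by positivity) _ (by norm_num)
        nlinarith
      rw [Real.mul_rpow (by positivity) (by positivity)] at h2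
      have h4 : T ^ (1 / 2 : ℝ) ≤ T := by
        have := Real.rpow_le_rpow_of_exponent_le hT (by norm_num : (1 / 2 : ℝ) ≤ 1)
        rwa [Real.rpow_one] at this
      have h5 : 1 ≤ (1 + |t|) ^ (1 / 2 : ℝ) := Real.one_le_rpow (by linarith) (by norm_num)
      have h6 : Real.log (T + |t|) ≤ 2 * (T * (1 + |t|) ^ (1 / 2 : ℝ)) := by
        refine h1.trans ?_
        refine mul_le_mul_of_nonneg_left (h2.trans ?_) (by norm_num)
        gcongr
      calc M + C * Real.log (T + |t|) ≤ M * (1 + |t|) ^ (1 / 2 : ℝ) +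
            C * (2 * (T * (1 + |t|) ^ (1 / 2 : ℝ))) := by
            refine add_le_add ?_ ?_
            · exact le_mul_of_one_le_right hM h5
            · gcongr
        _ = (M + 2 * C * T) * (1 + |t|) ^ (1 / 2 : ℝ) := by ring
    calc svP t0 t * |Real.log (max (G t) (Real.exp (-M)))|
        ≤ (2 * (1 + |t0|) ^ 2 / (1 + |t|) ^ 2) * ((M + 2 * C * T) * (1 + |t|) ^ (1 / 2 : ℝ)) := by
          gcongr
          exact hL.trans hlogb
      _ = 2 * (1 + |t0|) ^ 2 * (M + 2 * C * T) * (1 + |t|) ^ (-(3 / 2) : ℝ) := by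
          have h3 : (1 + |t|) ^ (-(3 / 2) : ℝ) = (1 + |t|) ^ (1 / 2 : ℝ) / (1 + |t|) ^ 2 := by
            rw [← Real.rpow_natCast, ← Real.rpow_sub (by positivity)]
            norm_num
          rw [h3]
          ring

theorem sv (g : ℝ → ℝ → ℝ) (hg0 : ∀ T t, 0 ≤ g T t) (hgc : ∀ T, Continuous (g T))
    (h1 : ∃ c T1 : ℝ, 0 < c ∧ 8 ≤ T1 ∧ ∀ T t0 M : ℝ, T1 ≤ T → T / 2 ≤ t0 → t0 ≤ 5 / 2 * T → 0 ≤ M →
      -c ≤ ∫ t : ℝ, (5 / 2) / (Real.pi * ((5 / 2) ^ 2 + (t - t0) ^ 2)) * Real.log (max (g T t) (Real.exp (-M))))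
    (h2 : ∃ C T1 : ℝ, 0 < C ∧ 8 ≤ T1 ∧ ∀ T : ℝ, T1 ≤ T → ∫ t in (T / 4)..(4 * T), g T t ^ 2 ≤ C * T)
    (h3 : ∃ C T1 : ℝ, 0 < C ∧ 8 ≤ T1 ∧ ∀ T t : ℝ, T1 ≤ T → g T t ≤ (T + |t|) ^ C) :
    ∃ C T0 : ℝ, 0 < C ∧ 8 ≤ T0 ∧ ∀ T κ : ℝ, T0 ≤ T → 0 < κ → κ ≤ 1 / 2 →
      volume ({t : ℝ | g T t < κ} ∩ Icc (T / 2) (5 / 2 * T)) ≤ ENNReal.ofReal (C * T / Real.log (1 / κ)) := by
  obtain ⟨c, T1, hc, hT1, h1⟩ := h1
  obtain ⟨C2, T2, hC2, hT2, h2⟩ := h2
  obtain ⟨C3, T3, hC3, hT3, h3⟩ := h3
  set K0 : ℝ := ∫ t : ℝ, (1 + ‖t‖) ^ (-(3 / 2) : ℝ) with hK0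
  have hK0' : 0 ≤ K0 := integral_nonneg fun t => by positivity
  refine ⟨10 * (3 * c + 4 * C2 + 200 * C3 * K0), max T1 (max T2 T3), by positivity,
    hT1.trans (le_max_left _ _), fun T κ hT hκ hκ2 => ?_⟩
  have hTT1 : T1 ≤ T := (le_max_left _ _).trans hT
  have hTT2 : T2 ≤ T := (le_max_left _ _).trans ((le_max_right _ _).trans hT)
  have hTT3 : T3 ≤ T := (le_max_right _ _).trans ((le_max_right _ _).trans hT)
  have hT8 : 8 ≤ T := hT1.trans hTT1
  set M := Real.log (1 / κ) with hM
  have hM0 : 0 < M := Real.log_pos (by rw [lt_div_iff₀ hκ]; linarith)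
  have hexp : Real.exp (-M) = κ := by
    rw [hM, ← Real.log_inv, one_div, inv_inv, Real.exp_log hκ]
  set n := ⌊2 * T⌋₊ + 1 with hn
  have hn1 : (n : ℝ) ≤ 2 * T + 1 := by
    rw [hn]; push_cast
    have := Nat.floor_le (by linarith : 0 ≤ 2 * T)
    linarith
  have hn2 : 2 * T < n := by
    rw [hn]; push_cast
    exact Nat.lt_floor_add_one _
  set L : ℝ → ℝ := fun t => Real.log (max (g T t) (Real.exp (-M))) with hL
  have hint : ∀ t0, Integrable (fun t => svP t0 t * L t) := fun t0 =>
    sv_integrable (g T) (hgc T) T C3 M t0 (by linarith) hC3 hM0.le (fun t => h3 T t hTT3)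
  have hlow : -(3 * c * T) ≤ ∫ t, svW n (T / 2) t * L t := by
    have e : (fun t => svW n (T / 2) t * L t) =
        fun t => ∑ k ∈ Finset.range n, svP (T / 2 + k) t * L t := by
      funext t
      unfold svW
      rw [Finset.sum_mul]
    rw [e, integral_finsetSum _ (fun k _ => hint _)]
    have hk : ∀ k ∈ Finset.range n, -c ≤ ∫ t, svP (T / 2 + k) t * L t := by
      intro k hk
      have hk' : (k : ℝ) ≤ 2 * T := by
        have h5 : k ≤ ⌊2 * T⌋₊ := by
          have := Finset.mem_range.1 hk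
          omega
        have h6 : (k : ℝ) ≤ (⌊2 * T⌋₊ : ℝ) := by exact_mod_cast h5
        exact h6.trans (Nat.floor_le (by linarith))
      exact h1 T (T / 2 + k) M hTT1 (by have := Nat.cast_nonneg (α := ℝ) k; linarith)
        (by linarith) hM0.le
    have h5 := Finset.sum_le_sum hk
    rw [Finset.sum_const, Finset.card_range, nsmul_eq_mul] at h5
    refine le_trans ?_ h5
    nlinarith
  set S : Set ℝ := {t : ℝ | g T t < κ} ∩ Icc (T / 2) (5 / 2 * T) with hS
  have hSm : MeasurableSet S :=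
    (isOpen_lt (hgc T) continuous_const).measurableSet.inter measurableSet_Icc
  have hSfin : volume S < ⊤ := lt_of_le_of_lt (measure_mono inter_subset_right) measure_Icc_lt_top
  set A : ℝ → ℝ := (Ioc (T / 4) (4 * T)).indicator (fun t => 4 * g T t ^ 2) with hA
  set J : ℝ → ℝ := fun t => (200 * C3 * T) * (1 + ‖t‖) ^ (-(3 / 2) : ℝ) with hJ
  set B : ℝ → ℝ := S.indicator (fun _ => M / 10) with hB
  have hAint : Integrable A := by
    rw [hA, integrable_indicator_iff measurableSet_Ioc]
    refine Continuous.integrableOn_Ioc ?_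
    exact continuous_const.mul ((hgc T).pow 2)
  have hJint : Integrable J := sv_int.const_mul _
  have hBint : Integrable B := by
    rw [hB, integrable_indicator_iff hSm]
    exact integrableOn_const hSfin.ne
  have hpt : ∀ᵐ t, svW n (T / 2) t * L t ≤ A t + J t - B t := by
    have hne : ∀ᵐ t : ℝ, t ≠ T / 4 := by
      simp [ae_iff, measure_singleton]
    filter_upwards [hne] with t ht
    have hW0 := svW_nonneg n (T / 2) t
    have hW4 := svW_le n (T / 2) t
    have hx : 1 ≤ T + |t| := by have := abs_nonneg t; linarith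
    have hJ0 : 0 ≤ J t := by
      rw [hJ]; positivity
    have hA0 : 0 ≤ A t := by
      rw [hA]; exact indicator_nonneg (fun _ _ => by positivity) _
    by_cases hg : g T t < κ
    · have hLt : L t = -M := by
        rw [hL]
        simp only
        rw [hexp, max_eq_right hg.le, hM, one_div, Real.log_inv, neg_neg]
      rw [hLt]
      by_cases hI : t ∈ Icc (T / 2) (5 / 2 * T)
      · have hBt : B t = M / 10 := by
          rw [hB]; exact indicator_of_mem (show t ∈ S from ⟨hg, hI⟩) _
        have hW := svW_ge n (T / 2) t hI.1 (by linarith [hI.2])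
        rw [hBt]
        nlinarith
      · have hBt : B t = 0 := by
          rw [hB]; exact indicator_of_notMem (fun h => hI h.2) _
        rw [hBt]
        nlinarith
    · have hBt : B t = 0 := by
        rw [hB]; exact indicator_of_notMem (fun h => hg h.1) _
      rw [hBt, sub_zero]
      have hgpos : 0 < g T t := lt_of_lt_of_le hκ (not_lt.1 hg)
      have hLt : L t = Real.log (g T t) := by
        rw [hL]
        simp only
        rw [hexp, max_eq_left (not_lt.1 hg)]
      rw [hLt]
      have hlg1 : Real.log (g T t) ≤ g T t ^ 2 := by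
        have := Real.log_le_sub_one_of_pos hgpos
        nlinarith [sq_nonneg (g T t - 1)]
      have hlg2 : Real.log (g T t) ≤ C3 * Real.log (T + |t|) := by
        have := Real.log_le_log hgpos (h3 T t hTT3)
        rwa [Real.log_rpow (by linarith)] at this
      by_cases hI : t ∈ Ioc (T / 4) (4 * T)
      · have hAt : A t = 4 * g T t ^ 2 := by
          rw [hA]; exact indicator_of_mem hI _
        rw [hAt]
        have : svW n (T / 2) t * Real.log (g T t) ≤ svW n (T / 2) t * g T t ^ 2 := by gcongr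
        have : svW n (T / 2) t * g T t ^ 2 ≤ 4 * g T t ^ 2 := by gcongr
        linarith
      · have hout : t < T / 4 ∨ 4 * T < t := by
          rw [mem_Ioc, not_and_or, not_lt, not_le] at hI
          rcases hI with h | h
          · exact Or.inl (lt_of_le_of_ne h ht)
          · exact Or.inr h
        have hWf := svW_far n T t hT8 hn1 hout
        have hlog0 : 0 ≤ Real.log (T + |t|) := Real.log_nonneg hx
        have hdec := sv_decay T t (by linarith)
        have : svW n (T / 2) t * Real.log (g T t) ≤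
            (100 * T / (T + |t|) ^ 2) * (C3 * Real.log (T + |t|)) := by
          calc svW n (T / 2) t * Real.log (g T t) ≤ svW n (T / 2) t * (C3 * Real.log (T + |t|)) := by
                gcongr
            _ ≤ (100 * T / (T + |t|) ^ 2) * (C3 * Real.log (T + |t|)) := by gcongr
        have h7 : (100 * T / (T + |t|) ^ 2) * (C3 * Real.log (T + |t|)) =
            100 * T * C3 * (Real.log (T + |t|) / (T + |t|) ^ 2) := by ring
        have h8 : 100 * T * C3 * (Real.log (T + |t|) / (T + |t|) ^ 2) ≤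
            100 * T * C3 * (2 * (1 + ‖t‖) ^ (-(3 / 2) : ℝ)) := by gcongr
        have h9 : 100 * T * C3 * (2 * (1 + ‖t‖) ^ (-(3 / 2) : ℝ)) = J t := by
          rw [hJ]; ring
        linarith
  have hWLint : Integrable (fun t => svW n (T / 2) t * L t) := by
    have e : (fun t => svW n (T / 2) t * L t) =
        fun t => ∑ k ∈ Finset.range n, svP (T / 2 + k) t * L t := by
      funext t
      unfold svW
      rw [Finset.sum_mul]
    rw [e]
    exact integrable_finsetSum _ (fun k _ => hint _)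
  have hup := integral_mono_ae hWLint ((hAint.add hJint).sub hBint) hpt
  have hsplit : ∫ t, ((A + J) - B) t = (∫ t, A t) + (∫ t, J t) - ∫ t, B t := by
    have h5 := integral_sub (hAint.add hJint) hBint
    have h6 := integral_add hAint hJint
    simp only [Pi.sub_apply, Pi.add_apply] at h5 h6 ⊢
    rw [h5, h6]
  rw [hsplit] at hup
  have hAval : ∫ t, A t ≤ 4 * (C2 * T) := by
    rw [hA, integral_indicator measurableSet_Ioc, integral_const_mul]
    have := h2 T hTT2
    rw [intervalIntegral.integral_of_le (by linarith)] at this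
    linarith
  have hJval : ∫ t, J t = (200 * C3 * T) * K0 := by
    rw [hJ, integral_const_mul]
  have hBval : ∫ t, B t = (M / 10) * (volume S).toReal := by
    rw [hB, integral_indicator_const _ hSm]
    simp [Measure.real, mul_comm]
  have hfin : (volume S).toReal ≤ 10 * (3 * c + 4 * C2 + 200 * C3 * K0) * T / M := by
    rw [le_div_iff₀ hM0]
    rw [hJval, hBval] at hup
    nlinarith
  calc volume S = ENNReal.ofReal ((volume S).toReal) := (ENNReal.ofReal_toReal hSfin.ne).symm
    _ ≤ _ := ENNReal.ofReal_le_ofReal hfin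

end Pool.Agent.Helper647.SG.JSV
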