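import Mathlib

set_option autoImplicit false

namespace Pool.Agent.Helper647.SG.JTA

open Filter Topology MeasureTheory Set

namespace TA

theorem cs {f : ℝ → ℝ} (hf : Continuous f) {a b : ℝ} (hab : a ≤ b) :
    (∫ u in a..b, |f u|) ^ 2 ≤ (b - a) * ∫ u in a..b, f u ^ 2 := by
  rcases eq_or_lt_of_le hab with h | h
  · subst h
    simp
  · have h0 : 0 < b - a := by linarith
    set I := ∫ u in a..b, |f u| with hI
    set Q := ∫ u in a..b, f u ^ 2 with hQ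
    have h1 : 0 ≤ ∫ u in a..b, (|f u| - I / (b - a)) ^ 2 :=
      intervalIntegral.integral_nonneg hab fun u _ => sq_nonneg _
    have h2 : ∫ u in a..b, (|f u| - I / (b - a)) ^ 2 =
        Q - 2 * (I / (b - a)) * I + (b - a) * (I / (b - a)) ^ 2 := by
      have h3 : ∀ u, (|f u| - I / (b - a)) ^ 2 =
          f u ^ 2 - 2 * (I / (b - a)) * |f u| + (I / (b - a)) ^ 2 := by
        intro u
        rw [sub_sq, sq_abs]
        ring
      simp only [h3]
      have i1 : IntervalIntegrable (fun u => f u ^ 2) volume a b :=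
        (hf.pow 2).intervalIntegrable _ _
      have i2 : IntervalIntegrable (fun u => 2 * (I / (b - a)) * |f u|) volume a b :=
        (continuous_const.mul hf.abs).intervalIntegrable _ _
      rw [intervalIntegral.integral_add (i1.sub i2) (continuous_const.intervalIntegrable _ _),
        intervalIntegral.integral_sub i1 i2, intervalIntegral.integral_const_mul,
        intervalIntegral.integral_const, smul_eq_mul]
    rw [h2] at h1
    have h4 : Q - 2 * (I / (b - a)) * I + (b - a) * (I / (b - a)) ^ 2 = Q - I ^ 2 / (b - a) := by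
      field_simp
      ring
    rw [h4] at h1
    have h5 : I ^ 2 / (b - a) ≤ Q := by linarith
    rw [div_le_iff₀ h0] at h5
    linarith

theorem cs' {f : ℝ → ℝ} (hf : Continuous f) {a b V : ℝ} (hab : a ≤ b) (hV : 0 ≤ V)
    (h : (b - a) * ∫ u in a..b, f u ^ 2 ≤ V ^ 2) : ∫ u in a..b, |f u| ≤ V :=
  le_of_abs_le (abs_le_of_sq_le_sq ((cs hf hab).trans h) hV)

theorem walk (G : ℤ → ℝ → ℝ) (hG : ∀ l, Continuous (G l)) (a b : ℝ) (hab : a ≤ b) (B : ℝ) (N : ℕ)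
    (h : ∀ l : ℤ, |l| ≤ N → ∫ u in a..b, |G (l + 1) u - G l u| ≤ B) :
    ∀ m : ℕ, m ≤ N → (∫ u in a..b, |G m u - G 0 u| ≤ m * B) ∧
      (∫ u in a..b, |G (-m) u - G 0 u| ≤ m * B) := by
  have hc : ∀ k l : ℤ, Continuous fun u => |G k u - G l u| := fun k l => ((hG k).sub (hG l)).abs
  intro m
  induction m with
  | zero =>
    intro _
    simp
  | succ m ih =>
    intro hm
    obtain ⟨h1, h2⟩ := ih (by omega)
    have h3 := h m (by rw [Nat.abs_cast]; exact_mod_cast (by omega : m ≤ N))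
    have h4 := h (-(m + 1 : ℕ)) (by rw [abs_neg, Nat.abs_cast]; exact_mod_cast hm)
    constructor
    · have h5 : ∫ u in a..b, |G ((m + 1 : ℕ) : ℤ) u - G 0 u| ≤
          ∫ u in a..b, (|G ((m : ℤ) + 1) u - G m u| + |G m u - G 0 u|) := by
        refine intervalIntegral.integral_mono_on hab ((hc _ _).intervalIntegrable _ _)
          (((hc _ _).add (hc _ _)).intervalIntegrable _ _) fun u _ => ?_
        push_cast
        have := abs_add_le (G ((m : ℤ) + 1) u - G m u) (G m u - G 0 u)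
        rwa [sub_add_sub_cancel] at this
      rw [intervalIntegral.integral_add ((hc _ _).intervalIntegrable _ _)
        ((hc _ _).intervalIntegrable _ _)] at h5
      push_cast at h5 ⊢
      linarith
    · have h5 : ∫ u in a..b, |G (-((m + 1 : ℕ) : ℤ)) u - G 0 u| ≤
          ∫ u in a..b, (|G (-((m + 1 : ℕ) : ℤ) + 1) u - G (-((m + 1 : ℕ) : ℤ)) u| +
            |G (-m) u - G 0 u|) := by
        refine intervalIntegral.integral_mono_on hab ((hc _ _).intervalIntegrable _ _)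
          (((hc _ _).add (hc _ _)).intervalIntegrable _ _) fun u _ => ?_
        have e : (-((m + 1 : ℕ) : ℤ) + 1) = -(m : ℤ) := by
          push_cast
          ring
        rw [e]
        have := abs_add_le (G (-((m + 1 : ℕ) : ℤ)) u - G (-(m : ℤ)) u) (G (-(m : ℤ)) u - G 0 u)
        rw [sub_add_sub_cancel] at this
        rw [abs_sub_comm (G (-(m : ℤ)) u) (G (-((m + 1 : ℕ) : ℤ)) u)]
        exact this
      rw [intervalIntegral.integral_add ((hc _ _).intervalIntegrable _ _)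
        ((hc _ _).intervalIntegrable _ _)] at h5
      have e2 : (((m + 1 : ℕ) : ℝ)) * B = B + m * B := by
        push_cast
        ring
      rw [e2]
      linarith

theorem walk' (G : ℤ → ℝ → ℝ) (hG : ∀ l, Continuous (G l)) (a b : ℝ) (hab : a ≤ b) (B : ℝ) (N : ℕ)
    (h : ∀ l : ℤ, |l| ≤ N → ∫ u in a..b, |G (l + 1) u - G l u| ≤ B) (l : ℤ) (hl : |l| ≤ N) :
    ∫ u in a..b, |G l u - G 0 u| ≤ |(l : ℝ)| * B := by
  have h1 := walk G hG a b hab B N h l.natAbs (by have := abs_le.1 hl; omega)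
  rcases Int.natAbs_eq l with e | e
  · rw [← e] at h1
    have e2 : |(l : ℝ)| = (l.natAbs : ℝ) := by
      rw [Nat.cast_natAbs, Int.cast_abs]
    rw [e2]
    exact h1.1
  · rw [← e] at h1
    have e2 : |(l : ℝ)| = (l.natAbs : ℝ) := by
      rw [Nat.cast_natAbs, Int.cast_abs]
    rw [e2]
    exact h1.2

theorem inner (x : ℝ → ℝ) (hx : Continuous x) (φ : ℤ → ℝ) (hφ : ∀ l, 0 ≤ φ l) (N J : ℕ)
    (T δ M R S : ℝ) (hT : 0 ≤ T) (hδ : 0 ≤ δ)
    (hM : ∀ n : ℤ, |n| ≤ N + J → ∫ u in T..(2 * T), |x (u + δ * n)| ≤ M)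
    (hR : ∀ n : ℤ, |n| ≤ N → ∀ h, 0 ≤ h → h ≤ δ * J →
      ∫ u in (2 * T)..(2 * T + h), |x (u + δ * n)| ≤ R)
    (hS : ∫ u in T..(2 * T), |∑ l ∈ Finset.Icc (-(N : ℤ)) N, x (u + δ * l) * φ l| ≤ S) :
    (∑ l ∈ Finset.Icc (-(N : ℤ)) N, φ l) *
        ∫ u in T..(2 * T), |∑ j ∈ Finset.range J, x (u + δ * j)| ≤
      J * (S + (∑ l ∈ Finset.Icc (-(N : ℤ)) N, φ l) * R) +
        ∑ l ∈ Finset.Icc (-(N : ℤ)) N, φ l * (|(l : ℝ)| * (2 * M)) := by
  obtain ⟨SS, hSS⟩ : ∃ SS : ℝ → ℝ, SS = fun u =>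
    ∑ l ∈ Finset.Icc (-(N : ℤ)) N, x (u + δ * l) * φ l := ⟨_, rfl⟩
  obtain ⟨F, hF⟩ : ∃ F : ℤ → ℝ → ℝ, F = fun (l : ℤ) (u : ℝ) =>
    ∑ i ∈ Finset.range J, x (u + δ * ((l : ℝ) + i)) := ⟨_, rfl⟩
  have hSSc : Continuous SS := by
    rw [hSS]
    fun_prop
  have hFc : ∀ l, Continuous (F l) := by
    intro l
    rw [hF]
    fun_prop
  have hTT : T ≤ 2 * T := by linarith
  -- pointwise
  have hpt : ∀ u, (∑ l ∈ Finset.Icc (-(N : ℤ)) N, φ l) * |F 0 u| ≤
      (∑ i ∈ Finset.range J, |SS (u + δ * i)|) +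
        ∑ l ∈ Finset.Icc (-(N : ℤ)) N, φ l * |F l u - F 0 u| := by
    intro u
    have h1 : ∑ i ∈ Finset.range J, SS (u + δ * i) =
        ∑ l ∈ Finset.Icc (-(N : ℤ)) N, φ l * F l u := by
      rw [hSS, hF]
      simp only [Finset.mul_sum]
      rw [Finset.sum_comm]
      refine Finset.sum_congr rfl fun l _ => Finset.sum_congr rfl fun i _ => ?_
      rw [mul_comm]
      congr 2
      ring
    have h2 : (∑ l ∈ Finset.Icc (-(N : ℤ)) N, φ l) * F 0 u =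
        ∑ i ∈ Finset.range J, SS (u + δ * i) -
          ∑ l ∈ Finset.Icc (-(N : ℤ)) N, φ l * (F l u - F 0 u) := by
      rw [h1, ← Finset.sum_sub_distrib, Finset.sum_mul]
      refine Finset.sum_congr rfl fun l _ => ?_
      ring
    have h3 : 0 ≤ ∑ l ∈ Finset.Icc (-(N : ℤ)) N, φ l := Finset.sum_nonneg fun l _ => hφ l
    calc (∑ l ∈ Finset.Icc (-(N : ℤ)) N, φ l) * |F 0 u|
        = |(∑ l ∈ Finset.Icc (-(N : ℤ)) N, φ l) * F 0 u| := by
          rw [abs_mul, abs_of_nonneg h3]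
      _ ≤ |∑ i ∈ Finset.range J, SS (u + δ * i)| +
          |∑ l ∈ Finset.Icc (-(N : ℤ)) N, φ l * (F l u - F 0 u)| := by
          rw [h2]
          exact abs_sub _ _
      _ ≤ _ := by
          refine add_le_add (Finset.abs_sum_le_sum_abs _ _) ((Finset.abs_sum_le_sum_abs _ _).trans
            (le_of_eq (Finset.sum_congr rfl fun l _ => ?_)))
          rw [abs_mul, abs_of_nonneg (hφ l)]
  have hc1 : ∀ i : ℕ, Continuous fun u => |SS (u + δ * i)| := fun i => by fun_prop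
  have hc2 : ∀ l : ℤ, Continuous fun u => φ l * |F l u - F 0 u| := fun l =>
    continuous_const.mul ((hFc l).sub (hFc 0)).abs
  have hint : (∑ l ∈ Finset.Icc (-(N : ℤ)) N, φ l) * ∫ u in T..(2 * T), |F 0 u| ≤
      (∑ i ∈ Finset.range J, ∫ u in T..(2 * T), |SS (u + δ * i)|) +
        ∑ l ∈ Finset.Icc (-(N : ℤ)) N, φ l * ∫ u in T..(2 * T), |F l u - F 0 u| := by
    rw [← intervalIntegral.integral_const_mul]
    refine (intervalIntegral.integral_mono_on hTT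
      ((continuous_const.mul (hFc 0).abs).intervalIntegrable _ _)
      (((continuous_finsetSum _ fun i _ => hc1 i).add
        (continuous_finsetSum _ fun l _ => hc2 l)).intervalIntegrable _ _)
      fun u _ => hpt u).trans (le_of_eq ?_)
    refine (intervalIntegral.integral_add
      ((continuous_finsetSum _ fun i _ => hc1 i).intervalIntegrable _ _)
      ((continuous_finsetSum _ fun l _ => hc2 l).intervalIntegrable _ _)).trans ?_
    rw [intervalIntegral.integral_finsetSum fun i _ => (hc1 i).intervalIntegrable _ _,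
      intervalIntegral.integral_finsetSum fun l _ => (hc2 l).intervalIntegrable _ _]
    congr 1
    refine Finset.sum_congr rfl fun l _ => ?_
    rw [intervalIntegral.integral_const_mul]
  -- the first term
  have hfirst : ∀ i ∈ Finset.range J, ∫ u in T..(2 * T), |SS (u + δ * i)| ≤
      S + (∑ l ∈ Finset.Icc (-(N : ℤ)) N, φ l) * R := by
    intro i hi
    have hi' : (i : ℝ) ≤ J := by exact_mod_cast (Finset.mem_range.1 hi).le
    have hd : 0 ≤ δ * i := mul_nonneg hδ (Nat.cast_nonneg i)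
    have hd2 : δ * i ≤ δ * J := mul_le_mul_of_nonneg_left hi' hδ
    have e1 : ∫ u in T..(2 * T), |SS (u + δ * i)| =
        ∫ u in (T + δ * i)..(2 * T + δ * i), |SS u| :=
      intervalIntegral.integral_comp_add_right (fun u => |SS u|) (δ * i)
    rw [e1]
    have hA : Continuous fun u => |SS u| := hSSc.abs
    have e2 : ∫ u in (T + δ * i)..(2 * T + δ * i), |SS u| ≤ ∫ u in T..(2 * T + δ * i), |SS u| :=
      intervalIntegral.integral_mono_interval (by linarith) (by linarith) le_rfl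
        (Eventually.of_forall fun u => abs_nonneg _) (hA.intervalIntegrable _ _)
    have e3 : ∫ u in T..(2 * T + δ * i), |SS u| =
        (∫ u in T..(2 * T), |SS u|) + ∫ u in (2 * T)..(2 * T + δ * i), |SS u| :=
      (intervalIntegral.integral_add_adjacent_intervals (hA.intervalIntegrable _ _)
        (hA.intervalIntegrable _ _)).symm
    have e4 : ∫ u in (2 * T)..(2 * T + δ * i), |SS u| ≤
        (∑ l ∈ Finset.Icc (-(N : ℤ)) N, φ l) * R := by
      have hc3 : ∀ l : ℤ, Continuous fun u => φ l * |x (u + δ * l)| := fun l => by fun_prop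
      calc ∫ u in (2 * T)..(2 * T + δ * i), |SS u|
          ≤ ∫ u in (2 * T)..(2 * T + δ * i),
              ∑ l ∈ Finset.Icc (-(N : ℤ)) N, φ l * |x (u + δ * l)| := by
            refine intervalIntegral.integral_mono_on (by linarith) (hA.intervalIntegrable _ _)
              ((continuous_finsetSum _ fun l _ => hc3 l).intervalIntegrable _ _) fun u _ => ?_
            rw [hSS]
            refine (Finset.abs_sum_le_sum_abs _ _).trans (le_of_eq
              (Finset.sum_congr rfl fun l _ => ?_))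
            rw [abs_mul, abs_of_nonneg (hφ l), mul_comm]
        _ = ∑ l ∈ Finset.Icc (-(N : ℤ)) N,
              φ l * ∫ u in (2 * T)..(2 * T + δ * i), |x (u + δ * l)| := by
            rw [intervalIntegral.integral_finsetSum fun l _ => (hc3 l).intervalIntegrable _ _]
            refine Finset.sum_congr rfl fun l _ => ?_
            rw [intervalIntegral.integral_const_mul]
        _ ≤ ∑ l ∈ Finset.Icc (-(N : ℤ)) N, φ l * R := by
            refine Finset.sum_le_sum fun l hl => mul_le_mul_of_nonneg_left ?_ (hφ l)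
            rw [Finset.mem_Icc] at hl
            exact hR l (abs_le.2 hl) _ hd hd2
        _ = _ := (Finset.sum_mul _ _ _).symm
    have hS' : ∫ u in T..(2 * T), |SS u| ≤ S := by
      rw [hSS]
      exact hS
    linarith
  -- the second term
  have hsecond : ∀ l ∈ Finset.Icc (-(N : ℤ)) N, φ l * ∫ u in T..(2 * T), |F l u - F 0 u| ≤
      φ l * (|(l : ℝ)| * (2 * M)) := by
    intro l hl
    rw [Finset.mem_Icc] at hl
    refine mul_le_mul_of_nonneg_left ?_ (hφ l)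
    refine walk' F hFc T (2 * T) hTT (2 * M) N ?_ l (abs_le.2 hl)
    intro k hk
    have hk' := abs_le.1 hk
    have e1 : ∀ u, F (k + 1) u - F k u = x (u + δ * ((k + J : ℤ) : ℝ)) - x (u + δ * (k : ℝ)) := by
      intro u
      rw [hF]
      simp only
      rw [← Finset.sum_sub_distrib]
      have := Finset.sum_range_sub (fun i : ℕ => x (u + δ * ((k : ℝ) + i))) J
      simp only [Nat.cast_add, Nat.cast_one, Nat.cast_zero, add_zero] at this
      push_cast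
      rw [← this]
      refine Finset.sum_congr rfl fun i _ => ?_
      congr 3
      ring
    have h1 := hM (k + J) (by rw [abs_le]; constructor <;> omega)
    have h2 := hM k (by omega)
    have hc4 : ∀ n : ℤ, Continuous fun u => |x (u + δ * n)| := fun n => by fun_prop
    calc ∫ u in T..(2 * T), |F (k + 1) u - F k u|
        ≤ ∫ u in T..(2 * T), (|x (u + δ * ((k + J : ℤ) : ℝ))| + |x (u + δ * (k : ℝ))|) := by
          refine intervalIntegral.integral_mono_on hTT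
            (((hFc _).sub (hFc _)).abs.intervalIntegrable _ _)
            (((hc4 _).add (hc4 _)).intervalIntegrable _ _) fun u _ => ?_
          rw [e1]
          exact abs_sub _ _
      _ = (∫ u in T..(2 * T), |x (u + δ * ((k + J : ℤ) : ℝ))|) +
            ∫ u in T..(2 * T), |x (u + δ * (k : ℝ))| :=
          intervalIntegral.integral_add ((hc4 _).intervalIntegrable _ _)
            ((hc4 _).intervalIntegrable _ _)
      _ ≤ 2 * M := by linarith
  have e0 : ∀ u, |∑ j ∈ Finset.range J, x (u + δ * j)| = |F 0 u| := by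
    intro u
    rw [hF]
    simp
  simp only [e0]
  refine hint.trans (add_le_add ?_ (Finset.sum_le_sum hsecond))
  refine (Finset.sum_le_sum hfirst).trans (le_of_eq ?_)
  rw [Finset.sum_const, Finset.card_range, nsmul_eq_mul]

theorem icc_succ (N : ℕ) : Finset.Icc (-((N + 1 : ℕ) : ℤ)) ((N + 1 : ℕ) : ℤ) =
    insert (-((N + 1 : ℕ) : ℤ)) (insert ((N + 1 : ℕ) : ℤ) (Finset.Icc (-(N : ℤ)) N)) := by
  ext l
  simp only [Finset.mem_Icc, Finset.mem_insert]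
  push_cast
  omega

theorem num_aux (K : ℝ) (hK : 2 ≤ K) (N : ℕ) :
    ∑ l ∈ Finset.Icc (-(N : ℤ)) N, 1 / (1 + ((l : ℝ) / K) ^ 2) ≤
      4 * K ^ 2 * (1 / (K - 1) - 1 / (K + N)) := by
  have hK0 : 0 < K := by linarith
  induction N with
  | zero =>
    simp only [Nat.cast_zero, neg_zero, Finset.Icc_self, Finset.sum_singleton, Int.cast_zero,
      zero_div, add_zero]
    have h1 : 1 / (K - 1) - 1 / K = 1 / ((K - 1) * K) := by
      have : K - 1 ≠ 0 := by linarith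
      field_simp
      ring
    rw [h1]
    have h2 : 0 < (K - 1) * K := mul_pos (by linarith) hK0
    rw [mul_one_div, le_div_iff₀ h2]
    nlinarith
  | succ N ih =>
    rw [icc_succ, Finset.sum_insert, Finset.sum_insert]
    · have h1 : (1 : ℝ) / (1 + (((N + 1 : ℕ) : ℝ) / K) ^ 2) ≤
          2 * K ^ 2 * (1 / (K + N) - 1 / (K + (N + 1 : ℕ))) := by
        have hN : (0 : ℝ) ≤ N := Nat.cast_nonneg N
        have e1 : (1 : ℝ) / (K + N) - 1 / (K + (N + 1 : ℕ)) = 1 / ((K + N) * (K + N + 1)) := by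
          push_cast
          have : K + N ≠ 0 := by linarith
          have : K + (N + 1) ≠ 0 := by linarith
          have : K + N + 1 ≠ 0 := by linarith
          field_simp
          ring
        have e2 : (1 : ℝ) / (1 + (((N + 1 : ℕ) : ℝ) / K) ^ 2) =
            K ^ 2 / (K ^ 2 + ((N : ℝ) + 1) ^ 2) := by
          push_cast
          field_simp
        rw [e1, e2, mul_one_div, div_le_div_iff₀ (by positivity) (by positivity)]
        have : (K + N) * (K + N + 1) ≤ 2 * (K ^ 2 + ((N : ℝ) + 1) ^ 2) := by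
          nlinarith [sq_nonneg (K - (N + 1))]
        nlinarith [sq_nonneg K]
      have e3 : (1 : ℝ) / (1 + (((-((N + 1 : ℕ) : ℤ) : ℤ) : ℝ) / K) ^ 2) =
          1 / (1 + (((N + 1 : ℕ) : ℝ) / K) ^ 2) := by
        push_cast
        congr 2
        ring
      have e4 : (1 : ℝ) / (1 + ((((N + 1 : ℕ) : ℤ) : ℝ) / K) ^ 2) =
          1 / (1 + (((N + 1 : ℕ) : ℝ) / K) ^ 2) := by
        push_cast
        rfl
      rw [e3, e4]
      have e5 : 4 * K ^ 2 * (1 / (K - 1) - 1 / (K + (N + 1 : ℕ))) =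
          4 * K ^ 2 * (1 / (K - 1) - 1 / (K + N)) +
            2 * (2 * K ^ 2 * (1 / (K + N) - 1 / (K + (N + 1 : ℕ)))) := by ring
      rw [e5]
      linarith
    · simp only [Finset.mem_Icc]
      push_cast
      omega
    · simp only [Finset.mem_Icc, Finset.mem_insert]
      push_cast
      omega

theorem num (K : ℝ) (hK : 2 ≤ K) (N : ℕ) :
    ∑ l ∈ Finset.Icc (-(N : ℤ)) N, 1 / (1 + ((l : ℝ) / K) ^ 2) ≤ 8 * K := by
  refine (num_aux K hK N).trans ?_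
  have hN : (0 : ℝ) ≤ N := Nat.cast_nonneg N
  have h1 : 0 ≤ 1 / (K + N) := by positivity
  have h2 : 1 / (K - 1) ≤ 2 / K := by
    rw [div_le_div_iff₀ (by linarith) (by linarith)]
    linarith
  have h3 : 4 * K ^ 2 * (1 / (K - 1) - 1 / (K + N)) ≤ 4 * K ^ 2 * (2 / K) :=
    mul_le_mul_of_nonneg_left (by linarith) (by positivity)
  refine h3.trans (le_of_eq ?_)
  field_simp
  ring

theorem floor_facts {A T T0 C3 : ℝ} {J K : ℕ} (hA : 1 ≤ A) (hC3 : 0 < C3)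
    (hT0 : 8 ≤ T0) (hT : T0 + (K : ℝ) ^ 30 + 64 * A ^ 2 + 8 * A * J + (J : ℝ) ^ 3 * A * C3 ≤ T) :
    0 < T ∧ K ≤ ⌊T ^ (1 / 30 : ℝ)⌋₊ ∧ A * (⌊T ^ (1 / 30 : ℝ)⌋₊ + J) ≤ T / 4 ∧
      (J : ℝ) ^ 3 * A * C3 ≤ T := by
  have p1 : (0 : ℝ) ≤ (K : ℝ) ^ 30 := by positivity
  have p2 : (0 : ℝ) ≤ 64 * A ^ 2 := by positivity
  have p3 : (0 : ℝ) ≤ 8 * A * J := by positivity
  have p4 : (0 : ℝ) ≤ (J : ℝ) ^ 3 * A * C3 := by positivity
  have hT0' : 8 ≤ T := by linarith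
  have hTp : 0 < T := by linarith
  refine ⟨hTp, ?_, ?_, by linarith⟩
  · apply Nat.le_floor
    have h1 : ((K : ℝ) ^ 30) ^ ((30 : ℕ) : ℝ)⁻¹ = K :=
      Real.pow_rpow_inv_natCast (Nat.cast_nonneg K) (by norm_num)
    rw [← h1]
    have e : (1 / 30 : ℝ) = ((30 : ℕ) : ℝ)⁻¹ := by norm_num
    rw [e]
    exact Real.rpow_le_rpow (by positivity) (by linarith) (by positivity)
  · have h1 : (⌊T ^ (1 / 30 : ℝ)⌋₊ : ℝ) ≤ √T := by
      refine (Nat.floor_le (by positivity)).trans ?_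
      rw [Real.sqrt_eq_rpow]
      exact Real.rpow_le_rpow_of_exponent_le (by linarith) (by norm_num)
    have h2 : 8 * A ≤ √T := by
      apply Real.le_sqrt_of_sq_le
      nlinarith
    have h3 : √T * √T = T := Real.mul_self_sqrt hTp.le
    have h4 : 8 * A * √T ≤ √T * √T := mul_le_mul_of_nonneg_right h2 (Real.sqrt_nonneg _)
    have h5 : A * (⌊T ^ (1 / 30 : ℝ)⌋₊ : ℝ) ≤ A * √T :=
      mul_le_mul_of_nonneg_left h1 (by linarith)
    have h6 : A * (⌊T ^ (1 / 30 : ℝ)⌋₊ + (J : ℝ)) = A * (⌊T ^ (1 / 30 : ℝ)⌋₊ : ℝ) + A * J := by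
      ring
    rw [h6]
    linarith

theorem shift_sq {X : ℝ → ℝ} (hX : Continuous X) {T a b d B : ℝ} (hab : a ≤ b)
    (h1 : T / 4 ≤ a + d) (h2 : b + d ≤ 4 * T) (hB : ∫ t in (T / 4)..(4 * T), X t ^ 2 ≤ B) :
    ∫ u in a..b, X (u + d) ^ 2 ≤ B := by
  rw [intervalIntegral.integral_comp_add_right (fun u => X u ^ 2) d]
  refine le_trans ?_ hB
  exact intervalIntegral.integral_mono_interval h1 (by linarith) h2
    (Eventually.of_forall fun u => sq_nonneg _) ((hX.pow 2).intervalIntegrable _ _)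

theorem pow_facts {J : ℕ} (hJ : 1 ≤ J) :
    (J : ℝ) * ((Nat.sqrt J + 8 : ℕ) : ℝ) ^ (3 / 4 : ℝ) ≤
        ((Nat.sqrt J + 8 : ℕ) : ℝ) * (J : ℝ) ^ (7 / 8 : ℝ) ∧
      ((Nat.sqrt J + 8 : ℕ) : ℝ) ≤ 9 * (J : ℝ) ^ (7 / 8 : ℝ) ∧ 1 ≤ (J : ℝ) ^ (7 / 8 : ℝ) := by
  have hJ1 : (1 : ℝ) ≤ J := by exact_mod_cast hJ
  have hJ0 : (0 : ℝ) < J := by linarith
  have h1 : 1 ≤ (J : ℝ) ^ (7 / 8 : ℝ) := Real.one_le_rpow hJ1 (by norm_num)
  have hs0 : (0 : ℝ) < ((Nat.sqrt J + 8 : ℕ) : ℝ) := by positivity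
  have h2 : (J : ℝ) ^ (1 / 2 : ℝ) ≤ ((Nat.sqrt J + 8 : ℕ) : ℝ) := by
    rw [← Real.sqrt_eq_rpow]
    apply Real.sqrt_le_iff.2
    refine ⟨hs0.le, ?_⟩
    have := Nat.lt_succ_sqrt J
    have h3 : J ≤ (Nat.sqrt J + 8) ^ 2 := by
      have : J < (Nat.sqrt J + 1) * (Nat.sqrt J + 1) := this
      nlinarith
    exact_mod_cast h3
  refine ⟨?_, ?_, h1⟩
  · have h3 : (J : ℝ) ^ (1 / 8 : ℝ) ≤ ((Nat.sqrt J + 8 : ℕ) : ℝ) ^ (1 / 4 : ℝ) := by
      have := Real.rpow_le_rpow (by positivity) h2 (by norm_num : (0 : ℝ) ≤ 1 / 4)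
      rw [← Real.rpow_mul hJ0.le] at this
      norm_num at this ⊢
      exact this
    have h4 : (J : ℝ) = (J : ℝ) ^ (7 / 8 : ℝ) * (J : ℝ) ^ (1 / 8 : ℝ) := by
      rw [← Real.rpow_add hJ0]
      norm_num
    have h5 : ((Nat.sqrt J + 8 : ℕ) : ℝ) =
        ((Nat.sqrt J + 8 : ℕ) : ℝ) ^ (1 / 4 : ℝ) * ((Nat.sqrt J + 8 : ℕ) : ℝ) ^ (3 / 4 : ℝ) := by
      rw [← Real.rpow_add hs0]
      norm_num
    calc (J : ℝ) * ((Nat.sqrt J + 8 : ℕ) : ℝ) ^ (3 / 4 : ℝ)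
        = (J : ℝ) ^ (7 / 8 : ℝ) * (J : ℝ) ^ (1 / 8 : ℝ) *
            ((Nat.sqrt J + 8 : ℕ) : ℝ) ^ (3 / 4 : ℝ) := by rw [← h4]
      _ ≤ (J : ℝ) ^ (7 / 8 : ℝ) * ((Nat.sqrt J + 8 : ℕ) : ℝ) ^ (1 / 4 : ℝ) *
            ((Nat.sqrt J + 8 : ℕ) : ℝ) ^ (3 / 4 : ℝ) := by
          gcongr
      _ = (((Nat.sqrt J + 8 : ℕ) : ℝ) ^ (1 / 4 : ℝ) *
            ((Nat.sqrt J + 8 : ℕ) : ℝ) ^ (3 / 4 : ℝ)) * (J : ℝ) ^ (7 / 8 : ℝ) := by ring
      _ = _ := by rw [← h5]
  · have h3 : (Nat.sqrt J : ℝ) ≤ (J : ℝ) ^ (7 / 8 : ℝ) := by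
      have h4 : (Nat.sqrt J : ℝ) ≤ √J := by
        apply Real.le_sqrt_of_sq_le
        have := Nat.sqrt_le' J
        exact_mod_cast this
      refine h4.trans ?_
      rw [Real.sqrt_eq_rpow]
      exact Real.rpow_le_rpow_of_exponent_le hJ1 (by norm_num)
    push_cast
    linarith

theorem phi_facts {E : ℝ → ℝ} {c0 CE : ℝ} (hCE : 0 < CE)
    (hdec : ∀ v : ℝ, |E v| ≤ CE / (1 + v ^ 2) ^ 40) (hlow : ∀ v : ℝ, |v| ≤ 1 → c0 ≤ E v ^ 2)
    {K N : ℕ} (hK : 2 ≤ K) (hKN : K ≤ N) :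
    c0 * K ≤ ∑ l ∈ Finset.Icc (-(N : ℤ)) N, E ((l : ℝ) / K) ^ 2 ∧
      ∑ l ∈ Finset.Icc (-(N : ℤ)) N, E ((l : ℝ) / K) ^ 2 * |(l : ℝ)| ≤ 8 * CE ^ 2 * (K : ℝ) ^ 2 := by
  have hK0 : (0 : ℝ) < K := by
    have : 0 < K := by omega
    exact_mod_cast this
  constructor
  · have h1 : ∑ l ∈ Finset.Icc (1 : ℤ) K, E ((l : ℝ) / K) ^ 2 ≤
        ∑ l ∈ Finset.Icc (-(N : ℤ)) N, E ((l : ℝ) / K) ^ 2 := by
      refine Finset.sum_le_sum_of_subset_of_nonneg ?_ fun l _ _ => sq_nonneg _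
      intro l hl
      rw [Finset.mem_Icc] at hl ⊢
      omega
    refine le_trans ?_ h1
    have h2 := Finset.card_nsmul_le_sum (Finset.Icc (1 : ℤ) K) (fun l => E ((l : ℝ) / K) ^ 2) c0
      (by
        intro l hl
        rw [Finset.mem_Icc] at hl
        apply hlow
        have h3 : (0 : ℝ) ≤ (l : ℝ) := by exact_mod_cast (by omega : (0 : ℤ) ≤ l)
        have h4 : (l : ℝ) ≤ K := by exact_mod_cast hl.2
        rw [abs_of_nonneg (div_nonneg h3 hK0.le), div_le_one hK0]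
        exact h4)
    rw [nsmul_eq_mul] at h2
    have h5 : ((Finset.Icc (1 : ℤ) K).card : ℝ) = K := by
      rw [Int.card_Icc]
      have : ((K : ℤ) + 1 - 1).toNat = K := by omega
      rw [this]
    rw [h5] at h2
    linarith
  · have h1 : ∀ l ∈ Finset.Icc (-(N : ℤ)) N, E ((l : ℝ) / K) ^ 2 * |(l : ℝ)| ≤
        CE ^ 2 * K * (1 / (1 + ((l : ℝ) / K) ^ 2)) := by
      intro l _
      obtain ⟨v, hv⟩ : ∃ v : ℝ, v = (l : ℝ) / K := ⟨_, rfl⟩
      have hl : (l : ℝ) = v * K := by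
        rw [hv]
        field_simp
      rw [← hv, hl, abs_mul, abs_of_pos hK0]
      have hp : 1 ≤ 1 + v ^ 2 := by nlinarith [sq_nonneg v]
      have hp0 : 0 < 1 + v ^ 2 := by linarith
      have hd : |E v| ≤ CE / (1 + v ^ 2) := by
        refine (hdec v).trans ?_
        apply div_le_div_of_nonneg_left hCE.le hp0
        calc 1 + v ^ 2 = (1 + v ^ 2) ^ 1 := (pow_one _).symm
          _ ≤ (1 + v ^ 2) ^ 40 := pow_le_pow_right₀ hp (by norm_num)
      have hd2 : E v ^ 2 ≤ (CE / (1 + v ^ 2)) ^ 2 := by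
        rw [← sq_abs (E v)]
        exact pow_le_pow_left₀ (abs_nonneg _) hd 2
      have hv2 : |v| ≤ 1 + v ^ 2 := by
        rw [abs_le]
        constructor <;> nlinarith [sq_nonneg (v - 1), sq_nonneg (v + 1)]
      calc E v ^ 2 * (|v| * K) ≤ (CE / (1 + v ^ 2)) ^ 2 * ((1 + v ^ 2) * K) := by
            apply mul_le_mul hd2 _ (by positivity) (by positivity)
            exact mul_le_mul_of_nonneg_right hv2 hK0.le
        _ = CE ^ 2 * K * (1 / (1 + v ^ 2)) := by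
            field_simp
    refine (Finset.sum_le_sum h1).trans ?_
    rw [← Finset.mul_sum]
    have h2 := num K (by exact_mod_cast hK) N
    have h3 : CE ^ 2 * K * ∑ l ∈ Finset.Icc (-(N : ℤ)) N, 1 / (1 + ((l : ℝ) / K) ^ 2) ≤
        CE ^ 2 * K * (8 * K) := mul_le_mul_of_nonneg_left h2 (by positivity)
    refine h3.trans (le_of_eq ?_)
    ring

theorem final {Φ I T c0 K B : ℝ} (hc0 : 0 < c0) (hK : 0 < K) (hΦ : c0 * K ≤ Φ) (hB : 0 ≤ B)
    (h : Φ * I ≤ Φ * T + B) : I ≤ T + B / (c0 * K) := by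
  have h0 : 0 < c0 * K := mul_pos hc0 hK
  by_cases hI : I ≤ T
  · have : 0 ≤ B / (c0 * K) := by positivity
    linarith
  · push Not at hI
    have h1 : c0 * K * (I - T) ≤ Φ * (I - T) := mul_le_mul_of_nonneg_right hΦ (by linarith)
    have h2 : c0 * K * (I - T) ≤ B := by nlinarith
    have h3 : I - T ≤ B / (c0 * K) := by
      rw [le_div_iff₀ h0]
      linarith
    linarith

end TA

theorem ta (X : ℝ → ℝ → ℝ) (E : ℝ → ℝ) (c0 CE : ℝ) (hX : ∀ T, Continuous (X T)) (hE : Continuous E) (hc0 : 0 < c0)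
    (hCE : 0 < CE) (hdec : ∀ v : ℝ, |E v| ≤ CE / (1 + v ^ 2) ^ 40) (hlow : ∀ v : ℝ, |v| ≤ 1 → c0 ≤ E v ^ 2)
    (hsm : ∃ C1 : ℝ, 0 < C1 ∧ ∀ (A : ℝ) (J : ℕ), 1 ≤ A → 8 ≤ J →
      ∃ T0 : ℝ, 8 ≤ T0 ∧ ∀ T δ : ℝ, T0 ≤ T → 1 / Real.log T ≤ δ → δ ≤ A →
        ∫ u in T..(2 * T), (∑ j ∈ Finset.Icc (-(⌊T ^ (1 / 30 : ℝ)⌋₊ : ℤ)) ⌊T ^ (1 / 30 : ℝ)⌋₊,
          X T (u + δ * j) * E (δ * j / (16 * J * δ)) ^ 2) ^ 2 ≤ C1 * (J : ℝ) ^ (3 / 2 : ℝ) * T)
    (hSM : ∃ C3 T1 : ℝ, 0 < C3 ∧ 8 ≤ T1 ∧ ∀ T : ℝ, T1 ≤ T → ∫ t in (T / 4)..(4 * T), X T t ^ 2 ≤ C3 * T) :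
    ∃ C : ℝ, 0 < C ∧ ∀ (A : ℝ) (J : ℕ), 1 ≤ A → 1 ≤ J → ∃ T0 : ℝ, 8 ≤ T0 ∧ ∀ T δ : ℝ, T0 ≤ T → 1 / Real.log T ≤ δ → δ ≤ A →
      ∫ u in T..(2 * T), |∑ j ∈ Finset.range J, X T (u + δ * j)| ≤ C * (J : ℝ) ^ (7 / 8 : ℝ) * T := by
  obtain ⟨C1, hC1, hsm⟩ := hsm
  obtain ⟨C3, T1, hC3, hT1, hSM⟩ := hSM
  refine ⟨1 + √C1 / (16 * c0) + 2304 * CE ^ 2 * √C3 / c0, by positivity, fun A J hA hJ => ?_⟩
  obtain ⟨J', hJ'⟩ : ∃ J' : ℕ, J' = Nat.sqrt J + 8 := ⟨_, rfl⟩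
  obtain ⟨T2, hT2, hsm'⟩ := hsm A J' hA (by omega)
  obtain ⟨f1, f2, f3⟩ := TA.pow_facts hJ
  rw [← hJ'] at f1 f2
  obtain ⟨K, hK⟩ : ∃ K : ℕ, K = 16 * J' := ⟨_, rfl⟩
  refine ⟨max T1 T2 + (K : ℝ) ^ 30 + 64 * A ^ 2 + 8 * A * J + (J : ℝ) ^ 3 * A * C3, ?_,
    fun T δ hT hδ1 hδ2 => ?_⟩
  · have p1 : (0 : ℝ) ≤ (K : ℝ) ^ 30 := by positivity
    have p2 : (0 : ℝ) ≤ 64 * A ^ 2 := by positivity
    have p3 : (0 : ℝ) ≤ 8 * A * J := by positivity
    have p4 : (0 : ℝ) ≤ (J : ℝ) ^ 3 * A * C3 := by positivity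
    have := le_max_left T1 T2
    linarith
  obtain ⟨g1, g2, g3, g4⟩ := TA.floor_facts hA hC3 (hT1.trans (le_max_left T1 T2)) hT
  have hTmax : max T1 T2 ≤ T := by
    have p1 : (0 : ℝ) ≤ (K : ℝ) ^ 30 := by positivity
    have p2 : (0 : ℝ) ≤ 64 * A ^ 2 := by positivity
    have p3 : (0 : ℝ) ≤ 8 * A * J := by positivity
    have p4 : (0 : ℝ) ≤ (J : ℝ) ^ 3 * A * C3 := by positivity
    linarith
  have hT1' : T1 ≤ T := (le_max_left _ _).trans hTmax
  have hT2' : T2 ≤ T := (le_max_right _ _).trans hTmax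
  have hδ0 : 0 < δ := by
    refine lt_of_lt_of_le ?_ hδ1
    have : 0 < Real.log T := Real.log_pos (by linarith)
    positivity
  have hJ1 : (1 : ℝ) ≤ J := by exact_mod_cast hJ
  have hJ'0 : (0 : ℝ) < J' := by
    have : 0 < J' := by omega
    exact_mod_cast this
  have hK0 : (0 : ℝ) < K := by
    have : 0 < K := by omega
    exact_mod_cast this
  have hKr : (K : ℝ) = 16 * J' := by rw [hK]; push_cast; ring
  obtain ⟨N, hN⟩ : ∃ N : ℕ, N = ⌊T ^ (1 / 30 : ℝ)⌋₊ := ⟨_, rfl⟩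
  have hsm2 := hsm' T δ hT2' hδ1 hδ2
  rw [← hN] at g2 g3 hsm2
  have hSM' := hSM T hT1'
  -- the shifts
  have hshift : ∀ n : ℤ, |n| ≤ N + J → |δ * (n : ℝ)| ≤ T / 4 := by
    intro n hn
    have h1 : |(n : ℝ)| ≤ N + J := by exact_mod_cast hn
    rw [abs_mul, abs_of_pos hδ0]
    exact (mul_le_mul hδ2 h1 (abs_nonneg _) (by linarith)).trans g3
  have hM : ∀ n : ℤ, |n| ≤ N + J → ∫ u in T..(2 * T), |X T (u + δ * n)| ≤ √C3 * T := by
    intro n hn
    have h1 := abs_le.1 (hshift n hn)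
    have hc : Continuous fun u => X T (u + δ * n) := by
      have := hX T
      fun_prop
    refine TA.cs' hc (by linarith) (by positivity) ?_
    have h2 : ∫ u in T..(2 * T), X T (u + δ * n) ^ 2 ≤ C3 * T :=
      TA.shift_sq (hX T) (by linarith) (by linarith) (by linarith) hSM'
    calc (2 * T - T) * ∫ u in T..(2 * T), X T (u + δ * n) ^ 2
        ≤ (2 * T - T) * (C3 * T) := mul_le_mul_of_nonneg_left h2 (by linarith)
      _ = (√C3 * T) ^ 2 := by
          rw [mul_pow, Real.sq_sqrt hC3.le]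
          ring
  have hR : ∀ n : ℤ, |n| ≤ N → ∀ h, 0 ≤ h → h ≤ δ * J →
      ∫ u in (2 * T)..(2 * T + h), |X T (u + δ * n)| ≤ T / J := by
    intro n hn h hh0 hh1
    have h1 := abs_le.1 (hshift n (by omega))
    have h3 : h ≤ A * J := hh1.trans (mul_le_mul_of_nonneg_right hδ2 (by linarith))
    have h4 : A * J ≤ T / 4 := by
      refine le_trans ?_ g3
      have : (0 : ℝ) ≤ N := Nat.cast_nonneg N
      nlinarith
    have hc : Continuous fun u => X T (u + δ * n) := by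
      have := hX T
      fun_prop
    refine TA.cs' hc (by linarith) (by positivity) ?_
    have h2 : ∫ u in (2 * T)..(2 * T + h), X T (u + δ * n) ^ 2 ≤ C3 * T :=
      TA.shift_sq (hX T) (by linarith) (by linarith) (by linarith) hSM'
    calc (2 * T + h - 2 * T) * ∫ u in (2 * T)..(2 * T + h), X T (u + δ * n) ^ 2
        ≤ (2 * T + h - 2 * T) * (C3 * T) := mul_le_mul_of_nonneg_left h2 (by linarith)
      _ = h * (C3 * T) := by ring
      _ ≤ A * J * (C3 * T) := mul_le_mul_of_nonneg_right h3 (by positivity)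
      _ ≤ (T / J) ^ 2 := by
          rw [div_pow, le_div_iff₀ (by positivity)]
          have h5 : (J : ℝ) ^ 3 * A * C3 * T ≤ T * T := mul_le_mul_of_nonneg_right g4 g1.le
          nlinarith
  have hS : ∫ u in T..(2 * T), |∑ l ∈ Finset.Icc (-(N : ℤ)) N,
      X T (u + δ * l) * (fun l : ℤ => E ((l : ℝ) / K) ^ 2) l| ≤
        √C1 * (J' : ℝ) ^ (3 / 4 : ℝ) * T := by
    have hc : Continuous fun u => ∑ l ∈ Finset.Icc (-(N : ℤ)) N,
        X T (u + δ * l) * (fun l : ℤ => E ((l : ℝ) / K) ^ 2) l := by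
      have := hX T
      fun_prop
    refine TA.cs' hc (by linarith) (by positivity) ?_
    have h2 : ∫ u in T..(2 * T), (∑ l ∈ Finset.Icc (-(N : ℤ)) N,
        X T (u + δ * l) * (fun l : ℤ => E ((l : ℝ) / K) ^ 2) l) ^ 2 ≤
          C1 * (J' : ℝ) ^ (3 / 2 : ℝ) * T := by
      refine le_trans (le_of_eq ?_) hsm2
      congr 1
      funext u
      congr 1
      refine Finset.sum_congr rfl fun l _ => ?_
      have e : δ * (l : ℝ) / (16 * J' * δ) = (l : ℝ) / K := by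
        rw [hKr]
        field_simp
      rw [e]
    calc _ ≤ (2 * T - T) * (C1 * (J' : ℝ) ^ (3 / 2 : ℝ) * T) :=
          mul_le_mul_of_nonneg_left h2 (by linarith)
      _ = (√C1 * (J' : ℝ) ^ (3 / 4 : ℝ) * T) ^ 2 := by
          rw [mul_pow, mul_pow, Real.sq_sqrt hC1.le]
          have : ((J' : ℝ) ^ (3 / 4 : ℝ)) ^ 2 = (J' : ℝ) ^ (3 / 2 : ℝ) := by
            rw [← Real.rpow_natCast, ← Real.rpow_mul hJ'0.le]
            norm_num
          rw [this]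
          ring
  obtain ⟨k1, k2⟩ := TA.phi_facts hCE hdec hlow (K := K) (N := N) (by omega) g2
  have hmain := TA.inner (X T) (hX T) (fun l : ℤ => E ((l : ℝ) / K) ^ 2) (fun l => sq_nonneg _) N J T
    δ (√C3 * T) (T / J) (√C1 * (J' : ℝ) ^ (3 / 4 : ℝ) * T) g1.le hδ0.le hM hR hS
  obtain ⟨Φ, hΦ⟩ : ∃ Φ : ℝ, Φ = ∑ l ∈ Finset.Icc (-(N : ℤ)) N, E ((l : ℝ) / K) ^ 2 := ⟨_, rfl⟩
  obtain ⟨I, hI⟩ : ∃ I : ℝ, I = ∫ u in T..(2 * T), |∑ j ∈ Finset.range J, X T (u + δ * j)| :=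
    ⟨_, rfl⟩
  rw [← hΦ] at k1 hmain
  rw [← hI] at hmain ⊢
  have e1 : ∑ l ∈ Finset.Icc (-(N : ℤ)) N, E ((l : ℝ) / K) ^ 2 * (|(l : ℝ)| * (2 * (√C3 * T))) =
      2 * (√C3 * T) * ∑ l ∈ Finset.Icc (-(N : ℤ)) N, E ((l : ℝ) / K) ^ 2 * |(l : ℝ)| := by
    rw [Finset.mul_sum]
    refine Finset.sum_congr rfl fun l _ => ?_
    ring
  have e2 : 2 * (√C3 * T) * ∑ l ∈ Finset.Icc (-(N : ℤ)) N, E ((l : ℝ) / K) ^ 2 * |(l : ℝ)| ≤
      2 * (√C3 * T) * (8 * CE ^ 2 * (K : ℝ) ^ 2) := mul_le_mul_of_nonneg_left k2 (by positivity)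
  have e3 : (J : ℝ) * (√C1 * (J' : ℝ) ^ (3 / 4 : ℝ) * T + Φ * (T / J)) =
      J * (√C1 * (J' : ℝ) ^ (3 / 4 : ℝ) * T) + Φ * T := by
    field_simp
  have hmain2 : Φ * I ≤ Φ * T + (J * (√C1 * (J' : ℝ) ^ (3 / 4 : ℝ) * T) +
      2 * (√C3 * T) * (8 * CE ^ 2 * (K : ℝ) ^ 2)) := by
    rw [e1, e3] at hmain
    linarith
  have hfin := TA.final hc0 hK0 k1 (by positivity) hmain2
  refine hfin.trans ?_
  have e4 : (J * (√C1 * (J' : ℝ) ^ (3 / 4 : ℝ) * T) +
      2 * (√C3 * T) * (8 * CE ^ 2 * (K : ℝ) ^ 2)) / (c0 * K) =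
      √C1 / (16 * c0) * T * ((J * (J' : ℝ) ^ (3 / 4 : ℝ)) / J') +
        256 * CE ^ 2 * √C3 / c0 * T * J' := by
    rw [hKr]
    field_simp
    ring
  have e5 : (J * (J' : ℝ) ^ (3 / 4 : ℝ)) / J' ≤ (J : ℝ) ^ (7 / 8 : ℝ) := by
    rw [div_le_iff₀ hJ'0]
    linarith
  rw [e4]
  have e6 : √C1 / (16 * c0) * T * ((J * (J' : ℝ) ^ (3 / 4 : ℝ)) / J') ≤
      √C1 / (16 * c0) * T * (J : ℝ) ^ (7 / 8 : ℝ) := mul_le_mul_of_nonneg_left e5 (by positivity)
  have e7 : 256 * CE ^ 2 * √C3 / c0 * T * J' ≤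
      256 * CE ^ 2 * √C3 / c0 * T * (9 * (J : ℝ) ^ (7 / 8 : ℝ)) :=
    mul_le_mul_of_nonneg_left f2 (by positivity)
  have e8 : T ≤ T * (J : ℝ) ^ (7 / 8 : ℝ) := le_mul_of_one_le_right g1.le f3
  calc T + (√C1 / (16 * c0) * T * ((J * (J' : ℝ) ^ (3 / 4 : ℝ)) / J') +
        256 * CE ^ 2 * √C3 / c0 * T * J')
      ≤ T * (J : ℝ) ^ (7 / 8 : ℝ) + (√C1 / (16 * c0) * T * (J : ℝ) ^ (7 / 8 : ℝ) +
        256 * CE ^ 2 * √C3 / c0 * T * (9 * (J : ℝ) ^ (7 / 8 : ℝ))) := by linarith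
    _ = _ := by ring

end Pool.Agent.Helper647.SG.JTA
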