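import Mathlib

set_option autoImplicit false

namespace Pool.Agent.Helper647.SG.JTB

open Complex Filter Topology MeasureTheory Set

lemma tb_l1 (f : ℝ → ℝ) (hf : Continuous f) {a b c d : ℝ} (h1 : c ≤ a) (h2 : a ≤ b) (h3 : b ≤ d)
    {M : ℝ} (hM : ∫ t in c..d, f t ^ 2 ≤ M) {lam : ℝ} (hl : 0 < lam) :
    ∫ t in a..b, |f t| ≤ (lam * M + (b - a) / lam) / 2 := by
  have hpt : ∀ t, |f t| ≤ (lam * f t ^ 2 + 1 / lam) / 2 := by
    intro t
    have h4 : 0 ≤ (lam * |f t| - 1) ^ 2 := sq_nonneg _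
    have h5 : |f t| ^ 2 = f t ^ 2 := sq_abs _
    have h6 : 2 * lam * |f t| ≤ lam ^ 2 * f t ^ 2 + 1 := by nlinarith
    have h7 : (lam * f t ^ 2 + 1 / lam) / 2 = (lam ^ 2 * f t ^ 2 + 1) / (2 * lam) := by
      field_simp
    rw [h7, le_div_iff₀ (by positivity)]
    linarith
  have hc2 : Continuous fun t => f t ^ 2 := hf.pow 2
  calc ∫ t in a..b, |f t| ≤ ∫ t in a..b, (lam * f t ^ 2 + 1 / lam) / 2 := by
        refine intervalIntegral.integral_mono_on h2 (hf.abs.intervalIntegrable _ _)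
          (Continuous.intervalIntegrable (by fun_prop) _ _) fun t _ => hpt t
    _ = (lam * (∫ t in a..b, f t ^ 2) + (b - a) / lam) / 2 := by
        rw [intervalIntegral.integral_div, intervalIntegral.integral_add
          (Continuous.intervalIntegrable (by fun_prop) _ _)
          (Continuous.intervalIntegrable (by fun_prop) _ _),
          intervalIntegral.integral_const_mul, intervalIntegral.integral_const, smul_eq_mul]
        ring
    _ ≤ (lam * M + (b - a) / lam) / 2 := by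
        have h8 : ∫ t in a..b, f t ^ 2 ≤ ∫ t in c..d, f t ^ 2 :=
          intervalIntegral.integral_mono_interval h1 h2 h3
            (Filter.Eventually.of_forall fun t => sq_nonneg _) (hc2.intervalIntegrable _ _)
        have h9 : lam * (∫ t in a..b, f t ^ 2) ≤ lam * M :=
          mul_le_mul_of_nonneg_left (h8.trans hM) hl.le
        linarith

lemma tb_shift (y : ℕ → ℂ) (J h : ℕ) :
    ∑ j ∈ Finset.range J, y j = ∑ j ∈ Finset.range J, y (h + j) +
      (∑ j ∈ Finset.range h, y j - ∑ j ∈ Finset.range h, y (J + j)) := by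
  have h1 := Finset.sum_range_add y h J
  have h2 := Finset.sum_range_add y J h
  rw [add_comm h J, h2] at h1
  rw [eq_comm, ← sub_eq_zero]
  linear_combination (-1 : ℂ) * h1

lemma tb_pt (x : ℕ → ℝ) (J B q : ℕ) (θ η : ℝ)
    (hη : ∀ i < B, ‖cexp (2 * Real.pi * I * (θ * ((q * i : ℕ) : ℂ))) - 1‖ ≤ η) :
    (B : ℝ) * ‖∑ j ∈ Finset.range J, (x j : ℂ) * cexp (2 * Real.pi * I * (θ * j))‖ ≤
      ∑ j ∈ Finset.range J, (|∑ i ∈ Finset.range B, x (q * i + j)| +
        η * ∑ i ∈ Finset.range B, |x (q * i + j)|) +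
      B * ∑ j ∈ Finset.range (q * B), (|x j| + |x (J + j)|) := by
  set y : ℕ → ℂ := fun j => (x j : ℂ) * cexp (2 * Real.pi * I * (θ * j)) with hy
  have hny1 : ∀ j : ℕ, ‖cexp (2 * Real.pi * I * (θ * j))‖ = 1 := by
    intro j
    have : (2 * Real.pi * I * (θ * j) : ℂ) = ((2 * Real.pi * (θ * j) : ℝ) : ℂ) * I := by
      push_cast; ring
    rw [this, Complex.norm_exp_ofReal_mul_I]
  have hny : ∀ j, ‖y j‖ = |x j| := by
    intro j
    rw [hy]
    simp only [norm_mul, hny1, mul_one, Complex.norm_real, Real.norm_eq_abs]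
  have h1 : (B : ℂ) * ∑ j ∈ Finset.range J, y j =
      ∑ j ∈ Finset.range J, ∑ i ∈ Finset.range B, y (q * i + j) +
      ∑ i ∈ Finset.range B, (∑ j ∈ Finset.range (q * i), y j -
        ∑ j ∈ Finset.range (q * i), y (J + j)) := by
    rw [Finset.sum_comm, ← Finset.sum_add_distrib]
    rw [Finset.sum_congr rfl fun i _ => (tb_shift y J (q * i)).symm]
    rw [Finset.sum_const, Finset.card_range, nsmul_eq_mul]
  have h2 : ∀ j, ‖∑ i ∈ Finset.range B, y (q * i + j)‖ ≤ |∑ i ∈ Finset.range B, x (q * i + j)| +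
      η * ∑ i ∈ Finset.range B, |x (q * i + j)| := by
    intro j
    have h3 : ∑ i ∈ Finset.range B, y (q * i + j) = cexp (2 * Real.pi * I * (θ * j)) *
        (((∑ i ∈ Finset.range B, x (q * i + j) : ℝ) : ℂ) + ∑ i ∈ Finset.range B,
          (x (q * i + j) : ℂ) * (cexp (2 * Real.pi * I * (θ * ((q * i : ℕ) : ℂ))) - 1)) := by
      rw [Complex.ofReal_sum, ← Finset.sum_add_distrib, Finset.mul_sum]
      refine Finset.sum_congr rfl fun i _ => ?_
      have h4 : cexp (2 * Real.pi * I * (θ * ((q * i + j : ℕ) : ℂ))) =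
          cexp (2 * Real.pi * I * (θ * j)) * cexp (2 * Real.pi * I * (θ * ((q * i : ℕ) : ℂ))) := by
        rw [← Complex.exp_add]
        congr 1
        push_cast
        ring
      rw [hy]
      simp only
      rw [h4]
      ring
    rw [h3, norm_mul, hny1, one_mul]
    refine (norm_add_le _ _).trans ?_
    rw [Complex.norm_real, Real.norm_eq_abs]
    refine add_le_add le_rfl ?_
    refine (norm_sum_le _ _).trans ?_
    rw [Finset.mul_sum]
    refine Finset.sum_le_sum fun i hi => ?_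
    rw [norm_mul, Complex.norm_real, Real.norm_eq_abs, mul_comm]
    exact mul_le_mul_of_nonneg_right (hη i (Finset.mem_range.1 hi)) (abs_nonneg _)
  have h5 : ∀ i ∈ Finset.range B, ‖∑ j ∈ Finset.range (q * i), y j -
        ∑ j ∈ Finset.range (q * i), y (J + j)‖ ≤
        ∑ j ∈ Finset.range (q * B), (|x j| + |x (J + j)|) := by
    intro i hi
    rw [← Finset.sum_sub_distrib]
    refine (norm_sum_le _ _).trans ?_
    have hsub : Finset.range (q * i) ⊆ Finset.range (q * B) :=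
      Finset.range_subset_range.2 (Nat.mul_le_mul_left q (Finset.mem_range.1 hi).le)
    refine le_trans (Finset.sum_le_sum fun j _ => ?_)
      (Finset.sum_le_sum_of_subset_of_nonneg hsub fun j _ _ => ?_)
    · refine (norm_sub_le _ _).trans ?_
      rw [hny, hny]
    · positivity
  calc (B : ℝ) * ‖∑ j ∈ Finset.range J, y j‖ = ‖(B : ℂ) * ∑ j ∈ Finset.range J, y j‖ := by
        rw [norm_mul, Complex.norm_natCast]
    _ ≤ ‖∑ j ∈ Finset.range J, ∑ i ∈ Finset.range B, y (q * i + j)‖ +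
        ‖∑ i ∈ Finset.range B, (∑ j ∈ Finset.range (q * i), y j -
        ∑ j ∈ Finset.range (q * i), y (J + j))‖ := by
        rw [h1]; exact norm_add_le _ _
    _ ≤ _ := by
        refine add_le_add ((norm_sum_le _ _).trans (Finset.sum_le_sum fun j _ => h2 j)) ?_
        refine (norm_sum_le _ _).trans ((Finset.sum_le_sum h5).trans (le_of_eq ?_))
        rw [Finset.sum_const, Finset.card_range, nsmul_eq_mul]

/-- exponential of a small multiple -/
lemma tb_exp (θ : ℝ) (Q : ℕ) (hQ : 1 ≤ Q) : ∃ q : ℕ, 1 ≤ q ∧ q ≤ Q ∧ ∀ i : ℕ,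
    ‖cexp (2 * Real.pi * I * (θ * ((q * i : ℕ) : ℂ))) - 1‖ ≤ 2 * Real.pi * i / Q := by
  obtain ⟨a, k, hk0, hkQ, hak⟩ := Real.exists_int_int_abs_mul_sub_le θ (n := Q) (by omega)
  obtain ⟨q, rfl⟩ : ∃ q : ℕ, k = q := ⟨k.toNat, (Int.toNat_of_nonneg hk0.le).symm⟩
  have hq1 : 1 ≤ q := by exact_mod_cast hk0
  have hqQ : q ≤ Q := by exact_mod_cast hkQ
  refine ⟨q, hq1, hqQ, fun i => ?_⟩
  have hQ0 : (0 : ℝ) < Q := by exact_mod_cast hQ
  push_cast at hak
  set β : ℝ := (q : ℝ) * θ - a with hβ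
  have h1 : cexp (2 * Real.pi * I * (θ * ((q * i : ℕ) : ℂ))) =
      cexp (I * ((2 * Real.pi * β * i : ℝ) : ℂ)) := by
    have h2 : (2 * Real.pi * I * (θ * ((q * i : ℕ) : ℂ)) : ℂ) =
        I * ((2 * Real.pi * β * i : ℝ) : ℂ) + ((a * i : ℤ) : ℂ) * (2 * Real.pi * I) := by
      rw [hβ]; push_cast; ring
    rw [h2, Complex.exp_add, Complex.exp_int_mul_two_pi_mul_I, mul_one]
  rw [h1]
  refine (Real.norm_exp_I_mul_ofReal_sub_one_le).trans ?_
  rw [Real.norm_eq_abs, abs_mul, abs_mul, abs_of_nonneg (by positivity : (0:ℝ) ≤ 2 * Real.pi),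
    abs_of_nonneg (by positivity : (0:ℝ) ≤ (i : ℝ))]
  have h3 : |β| ≤ 1 / Q := by
    refine hak.trans ?_
    rw [div_le_div_iff₀ (by positivity) hQ0]
    linarith
  calc 2 * Real.pi * |β| * i ≤ 2 * Real.pi * (1 / Q) * i := by
        gcongr
    _ = 2 * Real.pi * i / Q := by ring

lemma tb_iadd {f g : ℝ → ℝ} (hf : Continuous f) (hg : Continuous g) (a b : ℝ) :
    ∫ u in a..b, (f u + g u) = (∫ u in a..b, f u) + ∫ u in a..b, g u :=
  intervalIntegral.integral_add (hf.intervalIntegrable _ _) (hg.intervalIntegrable _ _)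

lemma tb_isum {f : ℕ → ℝ → ℝ} (s : Finset ℕ) (hf : ∀ i, Continuous (f i)) (a b : ℝ) :
    ∫ u in a..b, ∑ i ∈ s, f i u = ∑ i ∈ s, ∫ u in a..b, f i u :=
  intervalIntegral.integral_finsetSum fun i _ => (hf i).intervalIntegrable _ _

lemma tb_floor {x : ℝ} (hx : 1 ≤ x) : 1 ≤ ⌊x⌋₊ ∧ ((⌊x⌋₊ : ℕ) : ℝ) ≤ x ∧ x ≤ 2 * ((⌊x⌋₊ : ℕ) : ℝ) := by
  have h1 : 1 ≤ ⌊x⌋₊ := (Nat.one_le_floor_iff x).2 hx
  have h2 : ((⌊x⌋₊ : ℕ) : ℝ) ≤ x := Nat.floor_le (by linarith)
  have h3 : x < ((⌊x⌋₊ : ℕ) : ℝ) + 1 := Nat.lt_floor_add_one x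
  have h4 : (1 : ℝ) ≤ ((⌊x⌋₊ : ℕ) : ℝ) := by exact_mod_cast h1
  exact ⟨h1, h2, by linarith⟩

/-- the final inequality -/
lemma tb_fin {r b Q q C0 K T : ℝ} (hr : 1 ≤ r) (hb1 : 1 ≤ b) (hb2 : b ≤ r ^ (1 / 4 : ℝ))
    (hb3 : r ^ (1 / 4 : ℝ) ≤ 2 * b) (hQ1 : 1 ≤ Q) (hQ2 : Q ≤ r ^ (1 / 2 : ℝ))
    (hQ3 : r ^ (1 / 2 : ℝ) ≤ 2 * Q) (hq : q ≤ Q) (hC0 : 0 < C0) (hK : 0 < K) (hT : 0 < T)
    {W : ℝ} (hW : b * W ≤ r * ((C0 * b ^ (7 / 8 : ℝ) * T + T) + 2 * Real.pi * b / Q * (b * (K * T))) +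
      b * (q * b * (K * T + K * T))) :
    W ≤ (2 * C0 + 2 + 4 * Real.pi * K + 2 * K) * r ^ (31 / 32 : ℝ) * T := by
  have hr0 : 0 < r := by linarith
  have hb0 : 0 < b := by linarith
  have hQ0 : 0 < Q := by linarith
  have hpi := Real.pi_pos
  set s := r ^ (31 / 32 : ℝ) with hs
  have hs0 : 0 < s := Real.rpow_pos_of_pos hr0 _
  have e34 : r ^ (3 / 4 : ℝ) ≤ s := Real.rpow_le_rpow_of_exponent_le hr (by norm_num)
  have h34 : 0 < r ^ (3 / 4 : ℝ) := Real.rpow_pos_of_pos hr0 _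
  have h12 : 0 < r ^ (1 / 2 : ℝ) := Real.rpow_pos_of_pos hr0 _
  have h14 : 0 < r ^ (1 / 4 : ℝ) := Real.rpow_pos_of_pos hr0 _
  -- (i)
  have f1 : r * b ^ (7 / 8 : ℝ) ≤ 2 * s * b := by
    have g1 : b ^ (7 / 8 : ℝ) * b ^ (1 / 8 : ℝ) = b := by
      rw [← Real.rpow_add hb0]; norm_num
    have g2 : s * r ^ (1 / 32 : ℝ) = r := by
      rw [hs, ← Real.rpow_add hr0]; norm_num
    have g3 : r ^ (1 / 32 : ℝ) = (r ^ (1 / 4 : ℝ)) ^ (1 / 8 : ℝ) := by
      rw [← Real.rpow_mul hr0.le]; norm_num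
    have g4 : (r ^ (1 / 4 : ℝ)) ^ (1 / 8 : ℝ) ≤ (2 * b) ^ (1 / 8 : ℝ) :=
      Real.rpow_le_rpow h14.le hb3 (by norm_num)
    have g5 : (2 * b) ^ (1 / 8 : ℝ) = 2 ^ (1 / 8 : ℝ) * b ^ (1 / 8 : ℝ) :=
      Real.mul_rpow (by norm_num) hb0.le
    have g6 : (2 : ℝ) ^ (1 / 8 : ℝ) ≤ 2 := by
      calc (2 : ℝ) ^ (1 / 8 : ℝ) ≤ (2 : ℝ) ^ (1 : ℝ) :=
            Real.rpow_le_rpow_of_exponent_le (by norm_num) (by norm_num)
        _ = 2 := Real.rpow_one 2
    have hb8 : 0 < b ^ (1 / 8 : ℝ) := Real.rpow_pos_of_pos hb0 _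
    have hb78 : 0 < b ^ (7 / 8 : ℝ) := Real.rpow_pos_of_pos hb0 _
    have g7 : r ^ (1 / 32 : ℝ) ≤ 2 * b ^ (1 / 8 : ℝ) := by
      rw [g3]
      refine g4.trans ?_
      rw [g5]
      exact mul_le_mul_of_nonneg_right g6 hb8.le
    calc r * b ^ (7 / 8 : ℝ) = s * r ^ (1 / 32 : ℝ) * b ^ (7 / 8 : ℝ) := by rw [g2]
      _ ≤ s * (2 * b ^ (1 / 8 : ℝ)) * b ^ (7 / 8 : ℝ) := by gcongr
      _ = 2 * s * (b ^ (7 / 8 : ℝ) * b ^ (1 / 8 : ℝ)) := by ring
      _ = 2 * s * b := by rw [g1]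
  -- (ii)
  have f2 : r ≤ 2 * s * b := by
    have g1 : r ^ (3 / 4 : ℝ) * r ^ (1 / 4 : ℝ) = r := by
      rw [← Real.rpow_add hr0]; norm_num
    calc r = r ^ (3 / 4 : ℝ) * r ^ (1 / 4 : ℝ) := g1.symm
      _ ≤ s * (2 * b) := by gcongr
      _ = 2 * s * b := by ring
  -- (iii)
  have f3 : r * b ≤ 2 * s * Q := by
    have g1 : r ^ (3 / 4 : ℝ) * r ^ (1 / 2 : ℝ) = r * r ^ (1 / 4 : ℝ) := by
      nth_rewrite 3 [← Real.rpow_one r]
      rw [← Real.rpow_add hr0, ← Real.rpow_add hr0]; norm_num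
    calc r * b ≤ r * r ^ (1 / 4 : ℝ) := by gcongr
      _ = r ^ (3 / 4 : ℝ) * r ^ (1 / 2 : ℝ) := g1.symm
      _ ≤ s * (2 * Q) := by gcongr
      _ = 2 * s * Q := by ring
  -- (iv)
  have f4 : q * b ≤ s := by
    have g1 : r ^ (1 / 2 : ℝ) * r ^ (1 / 4 : ℝ) = r ^ (3 / 4 : ℝ) := by
      rw [← Real.rpow_add hr0]; norm_num
    calc q * b ≤ r ^ (1 / 2 : ℝ) * r ^ (1 / 4 : ℝ) := by
          refine mul_le_mul (hq.trans hQ2) hb2 hb0.le h12.le
      _ = r ^ (3 / 4 : ℝ) := g1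
      _ ≤ s := e34
  have f5 : r * (2 * Real.pi * b / Q * (b * (K * T))) ≤ b * (4 * Real.pi * K * s * T) := by
    have : r * (2 * Real.pi * b / Q * (b * (K * T))) = (r * b) / Q * (2 * Real.pi * K * T * b) := by
      field_simp
    rw [this]
    have g2 : (r * b) / Q ≤ 2 * s := by
      rw [div_le_iff₀ hQ0]; exact f3
    calc (r * b) / Q * (2 * Real.pi * K * T * b) ≤ 2 * s * (2 * Real.pi * K * T * b) := by gcongr
      _ = b * (4 * Real.pi * K * s * T) := by ring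
  have f6 : r * (C0 * b ^ (7 / 8 : ℝ) * T + T) ≤ b * ((2 * C0 + 2) * s * T) := by
    have g1 : C0 * T * (r * b ^ (7 / 8 : ℝ)) ≤ C0 * T * (2 * s * b) := by gcongr
    have g2 : T * r ≤ T * (2 * s * b) := by gcongr
    nlinarith
  have f7 : b * (q * b * (K * T + K * T)) ≤ b * (2 * K * s * T) := by
    have g1 : q * b * (K * T + K * T) ≤ s * (K * T + K * T) := by gcongr
    have g2 : b * (q * b * (K * T + K * T)) ≤ b * (s * (K * T + K * T)) := by gcongr
    linarith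
  have f8 : b * W ≤ b * ((2 * C0 + 2 + 4 * Real.pi * K + 2 * K) * s * T) := by
    refine hW.trans ?_
    rw [mul_add r]
    calc _ ≤ b * ((2 * C0 + 2) * s * T) + b * (4 * Real.pi * K * s * T) + b * (2 * K * s * T) := by
          gcongr
      _ = _ := by ring
  exact le_of_mul_le_mul_left f8 hb0

theorem tb (X : ℝ → ℝ → ℝ) (hX : ∀ T, Continuous (X T))
    (hta : ∃ C : ℝ, 0 < C ∧ ∀ (A : ℝ) (J : ℕ), 1 ≤ A → 1 ≤ J → ∃ T0 : ℝ, 8 ≤ T0 ∧ ∀ T δ : ℝ, T0 ≤ T → 1 / Real.log T ≤ δ → δ ≤ A →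
      ∫ u in T..(2 * T), |∑ j ∈ Finset.range J, X T (u + δ * j)| ≤ C * (J : ℝ) ^ (7 / 8 : ℝ) * T)
    (hSM : ∃ C3 T1 : ℝ, 0 < C3 ∧ 8 ≤ T1 ∧ ∀ T : ℝ, T1 ≤ T → ∫ t in (T / 4)..(4 * T), X T t ^ 2 ≤ C3 * T) :
    ∃ C : ℝ, 0 < C ∧ ∀ (A : ℝ) (J : ℕ), 1 ≤ A → 1 ≤ J → ∃ T0 : ℝ, 8 ≤ T0 ∧ ∀ T δ : ℝ, T0 ≤ T → 1 / Real.log T ≤ δ → δ ≤ A →
      ∀ θ : ℝ, ∫ u in T..(2 * T), ‖∑ j ∈ Finset.range J, (X T (u + δ * j) : ℂ) * cexp (2 * Real.pi * I * (θ * j))‖ ≤
        C * (J : ℝ) ^ (31 / 32 : ℝ) * T := by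
  obtain ⟨C0, hC0, hta⟩ := hta
  obtain ⟨C3, T1, hC3, hT1, hSM⟩ := hSM
  have hKpos : 0 < (C3 + 1) / 2 := by linarith
  have hpi := Real.pi_pos
  refine ⟨2 * C0 + 2 + 4 * Real.pi * ((C3 + 1) / 2) + 2 * ((C3 + 1) / 2), by positivity,
    fun A J hA hJ => ?_⟩
  have hr1 : (1 : ℝ) ≤ (J : ℝ) := by exact_mod_cast hJ
  obtain ⟨hB1, hB2, hB3⟩ := tb_floor (Real.one_le_rpow hr1 (by norm_num : (0 : ℝ) ≤ 1 / 4))
  obtain ⟨hQ1, hQ2, hQ3⟩ := tb_floor (Real.one_le_rpow hr1 (by norm_num : (0 : ℝ) ≤ 1 / 2))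
  set B : ℕ := ⌊(J : ℝ) ^ (1 / 4 : ℝ)⌋₊ with hBdef
  set Q : ℕ := ⌊(J : ℝ) ^ (1 / 2 : ℝ)⌋₊ with hQdef
  have hBJ' : (B : ℝ) ≤ J := hB2.trans (by
    nth_rewrite 2 [← Real.rpow_one (J : ℝ)]
    exact Real.rpow_le_rpow_of_exponent_le hr1 (by norm_num))
  have hQJ' : (Q : ℝ) ≤ J := hQ2.trans (by
    nth_rewrite 2 [← Real.rpow_one (J : ℝ)]
    exact Real.rpow_le_rpow_of_exponent_le hr1 (by norm_num))
  have hA0 : 0 < A := by linarith
  have hJ0 : (0 : ℝ) < J := by linarith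
  have hAJ : 1 ≤ A * J := by nlinarith
  obtain ⟨T0, hT0, h0⟩ := hta (A * J) B hAJ hB1
  refine ⟨max T0 (max T1 (A * (J : ℝ) ^ 2 + A * C3 * (J : ℝ) ^ 3)), le_max_of_le_left hT0,
    fun T δ hT hδ1 hδ2 θ => ?_⟩
  have hTT0 : T0 ≤ T := (le_max_left _ _).trans hT
  have hTT1 : T1 ≤ T := (le_max_left _ _).trans ((le_max_right _ _).trans hT)
  have hTbig : A * (J : ℝ) ^ 2 + A * C3 * (J : ℝ) ^ 3 ≤ T :=
    (le_max_right _ _).trans ((le_max_right _ _).trans hT)
  have hT8 : 8 ≤ T := hT0.trans hTT0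
  have hTpos : 0 < T := by linarith
  have hlog : 0 < Real.log T := Real.log_pos (by linarith)
  have hδ0 : 0 < δ := lt_of_lt_of_le (by positivity) hδ1
  have hb1 : A * (J : ℝ) ^ 2 ≤ T := by
    have : 0 ≤ A * C3 * (J : ℝ) ^ 3 := by positivity
    linarith
  have hb2 : A * C3 * (J : ℝ) ^ 3 ≤ T := by
    have : 0 ≤ A * (J : ℝ) ^ 2 := by positivity
    linarith
  obtain ⟨q, hq1, hqQ, hexp⟩ := tb_exp θ Q hQ1
  have hq1' : (1 : ℝ) ≤ q := by exact_mod_cast hq1
  have hqQ' : (q : ℝ) ≤ Q := by exact_mod_cast hqQ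
  have hqJ' : (q : ℝ) ≤ J := hqQ'.trans hQJ'
  have hXc := hX T
  -- the mean of one term
  have hL : ∀ y : ℝ, 0 ≤ y → y ≤ 2 * T → ∫ u in T..(2 * T), |X T (u + y)| ≤ (C3 + 1) / 2 * T := by
    intro y hy1 hy2
    rw [intervalIntegral.integral_comp_add_right (fun t => |X T t|)]
    refine (tb_l1 (X T) hXc (c := T / 4) (d := 4 * T) (by linarith) (by linarith) (by linarith)
      (hSM T hTT1) one_pos).trans (le_of_eq ?_)
    ring
  -- the mean of a group
  have hG : ∀ j ∈ Finset.range J, ∫ u in T..(2 * T),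
      |∑ i ∈ Finset.range B, X T (u + δ * ((q * i + j : ℕ) : ℝ))| ≤
        C0 * (B : ℝ) ^ (7 / 8 : ℝ) * T + T := by
    intro j hj
    have hjJ : (j : ℝ) ≤ J := by exact_mod_cast (Finset.mem_range.1 hj).le
    have hj0 : (0 : ℝ) ≤ j := Nat.cast_nonneg j
    set g : ℝ → ℝ := fun v => |∑ i ∈ Finset.range B, X T (v + (q * δ) * i)| with hg
    have hgc : Continuous g := by
      rw [hg]
      refine Continuous.abs (continuous_finsetSum _ fun i _ => ?_)
      exact hXc.comp (by fun_prop)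
    have hg0 : ∀ v, 0 ≤ g v := fun v => abs_nonneg _
    have e1 : ∀ u : ℝ, |∑ i ∈ Finset.range B, X T (u + δ * ((q * i + j : ℕ) : ℝ))| =
        g (u + δ * j) := by
      intro u
      rw [hg]
      simp only
      congr 1
      refine Finset.sum_congr rfl fun i _ => ?_
      congr 1
      push_cast
      ring
    simp_rw [e1]
    rw [intervalIntegral.integral_comp_add_right g]
    have hδj0 : 0 ≤ δ * j := by positivity
    have hδj : δ * j ≤ A * J := mul_le_mul hδ2 hjJ hj0 hA0.le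
    have hAJ0 : 0 ≤ A * J := by positivity
    have e2 : ∫ v in (T + δ * j)..(2 * T + δ * j), g v ≤ ∫ v in T..(2 * T + A * J), g v :=
      intervalIntegral.integral_mono_interval (by linarith) (by linarith) (by linarith)
        (Filter.Eventually.of_forall hg0) (hgc.intervalIntegrable _ _)
    have e3 : ∫ v in T..(2 * T + A * J), g v =
        (∫ v in T..(2 * T), g v) + ∫ v in (2 * T)..(2 * T + A * J), g v :=
      (intervalIntegral.integral_add_adjacent_intervals (hgc.intervalIntegrable _ _)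
        (hgc.intervalIntegrable _ _)).symm
    have e4 : ∫ v in T..(2 * T), g v ≤ C0 * (B : ℝ) ^ (7 / 8 : ℝ) * T := by
      refine h0 T (q * δ) hTT0 ?_ ?_
      · refine hδ1.trans ?_
        nlinarith
      · calc (q : ℝ) * δ ≤ J * A := mul_le_mul hqJ' hδ2 hδ0.le hJ0.le
          _ = A * J := mul_comm _ _
    have e5 : ∫ v in (2 * T)..(2 * T + A * J), g v ≤ T := by
      have e6 : ∫ v in (2 * T)..(2 * T + A * J), g v ≤
          ∫ v in (2 * T)..(2 * T + A * J), ∑ i ∈ Finset.range B, |X T (v + (q * δ) * i)| := by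
        refine intervalIntegral.integral_mono_on (by linarith) (hgc.intervalIntegrable _ _) ?_
          fun v _ => Finset.abs_sum_le_sum_abs _ _
        refine Continuous.intervalIntegrable (continuous_finsetSum _ fun i _ => ?_) _ _
        exact (hXc.comp (by fun_prop)).abs
      refine e6.trans ?_
      have hci : ∀ i : ℕ, Continuous fun v : ℝ => |X T (v + (q * δ) * i)| := fun i =>
        (hXc.comp (by fun_prop)).abs
      rw [tb_isum (f := fun i v => |X T (v + (q * δ) * i)|) (Finset.range B) hci]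
      have e7 : ∀ i ∈ Finset.range B, ∫ v in (2 * T)..(2 * T + A * J), |X T (v + (q * δ) * i)| ≤
          T / J := by
        intro i hi
        have hiJ : (i : ℝ) ≤ J := by
          have : (i : ℝ) ≤ B := by exact_mod_cast (Finset.mem_range.1 hi).le
          exact this.trans hBJ'
        have hi0 : (0 : ℝ) ≤ i := Nat.cast_nonneg i
        have hqδi0 : 0 ≤ (q * δ) * i := by positivity
        have hqδi : (q * δ) * i ≤ A * (J : ℝ) ^ 2 := by
          calc (q * δ) * i ≤ (J * A) * J := by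
                refine mul_le_mul (mul_le_mul hqJ' hδ2 hδ0.le hJ0.le) hiJ hi0 (by positivity)
            _ = A * (J : ℝ) ^ 2 := by ring
        have hAJJ : A * J ≤ A * (J : ℝ) ^ 2 := by
          have : (J : ℝ) ≤ (J : ℝ) ^ 2 := by nlinarith
          exact mul_le_mul_of_nonneg_left this hA0.le
        rw [intervalIntegral.integral_comp_add_right (fun t => |X T t|)]
        have hlam : 0 < 1 / (C3 * J) := by positivity
        refine (tb_l1 (X T) hXc (c := T / 4) (d := 4 * T) (by linarith) (by linarith) (by linarith)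
          (hSM T hTT1) hlam).trans ?_
        have e8 : (1 / (C3 * J) * (C3 * T) + (2 * T + A * J + (q * δ) * i - (2 * T + (q * δ) * i)) /
            (1 / (C3 * J))) / 2 = (T / J + A * C3 * (J : ℝ) ^ 2) / 2 := by
          field_simp
          ring
        rw [e8]
        have e9 : A * C3 * (J : ℝ) ^ 2 ≤ T / J := by
          rw [le_div_iff₀ hJ0]
          calc A * C3 * (J : ℝ) ^ 2 * J = A * C3 * (J : ℝ) ^ 3 := by ring
            _ ≤ T := hb2
        linarith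
      refine (Finset.sum_le_sum e7).trans ?_
      rw [Finset.sum_const, Finset.card_range, nsmul_eq_mul]
      calc (B : ℝ) * (T / J) ≤ J * (T / J) := by gcongr
        _ = T := by field_simp
    linarith
  -- integration of the pointwise inequality
  have hη : ∀ i < B, ‖cexp (2 * Real.pi * I * (θ * ((q * i : ℕ) : ℂ))) - 1‖ ≤
      2 * Real.pi * B / Q := by
    intro i hi
    refine (hexp i).trans ?_
    have hi' : (i : ℝ) ≤ B := by exact_mod_cast hi.le
    gcongr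
  have hηpos : 0 ≤ 2 * Real.pi * B / Q := by positivity
  have hcx : ∀ m : ℕ, Continuous fun u : ℝ => X T (u + δ * m) := fun m =>
    hXc.comp (by fun_prop)
  have hcS : Continuous fun u : ℝ =>
      ‖∑ j ∈ Finset.range J, (X T (u + δ * j) : ℂ) * cexp (2 * Real.pi * I * (θ * j))‖ := by
    refine Continuous.norm (continuous_finsetSum _ fun j _ => ?_)
    exact (Complex.continuous_ofReal.comp (hcx j)).mul continuous_const
  have hc1 : ∀ j : ℕ, Continuous fun u : ℝ =>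
      |∑ i ∈ Finset.range B, X T (u + δ * ((q * i + j : ℕ) : ℝ))| := fun j =>
    (continuous_finsetSum _ fun i _ => hcx _).abs
  have hc2 : ∀ j : ℕ, Continuous fun u : ℝ =>
      ∑ i ∈ Finset.range B, |X T (u + δ * ((q * i + j : ℕ) : ℝ))| := fun j =>
    continuous_finsetSum _ fun i _ => (hcx _).abs
  have hc3 : ∀ j : ℕ, Continuous fun u : ℝ =>
      |X T (u + δ * ((j : ℕ) : ℝ))| + |X T (u + δ * ((J + j : ℕ) : ℝ))| := fun j =>
    (hcx _).abs.add (hcx _).abs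
  have hm1 : (B : ℝ) * ∫ u in T..(2 * T),
      ‖∑ j ∈ Finset.range J, (X T (u + δ * j) : ℂ) * cexp (2 * Real.pi * I * (θ * j))‖ ≤
      ∑ j ∈ Finset.range J, ((∫ u in T..(2 * T),
        |∑ i ∈ Finset.range B, X T (u + δ * ((q * i + j : ℕ) : ℝ))|) +
        2 * Real.pi * B / Q * ∑ i ∈ Finset.range B, ∫ u in T..(2 * T),
          |X T (u + δ * ((q * i + j : ℕ) : ℝ))|) +
      B * ∑ j ∈ Finset.range (q * B), ((∫ u in T..(2 * T), |X T (u + δ * ((j : ℕ) : ℝ))|) +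
        ∫ u in T..(2 * T), |X T (u + δ * ((J + j : ℕ) : ℝ))|) := by
    rw [← intervalIntegral.integral_const_mul]
    have k1 : ∫ u in T..(2 * T), (B : ℝ) *
        ‖∑ j ∈ Finset.range J, (X T (u + δ * j) : ℂ) * cexp (2 * Real.pi * I * (θ * j))‖ ≤
        ∫ u in T..(2 * T), (∑ j ∈ Finset.range J,
          (|∑ i ∈ Finset.range B, X T (u + δ * ((q * i + j : ℕ) : ℝ))| +
          2 * Real.pi * B / Q * ∑ i ∈ Finset.range B, |X T (u + δ * ((q * i + j : ℕ) : ℝ))|) +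
          B * ∑ j ∈ Finset.range (q * B),
            (|X T (u + δ * ((j : ℕ) : ℝ))| + |X T (u + δ * ((J + j : ℕ) : ℝ))|)) := by
      refine intervalIntegral.integral_mono_on (by linarith)
        ((continuous_const.mul hcS).intervalIntegrable _ _) ?_ fun u _ =>
          tb_pt (fun j => X T (u + δ * j)) J B q θ _ hη
      refine Continuous.intervalIntegrable ?_ _ _
      refine Continuous.add (continuous_finsetSum _ fun j _ => ?_)
        (continuous_const.mul (continuous_finsetSum _ fun j _ => hc3 j))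
      exact (hc1 j).add (continuous_const.mul (hc2 j))
    refine k1.trans (le_of_eq ?_)
    have hc4 : ∀ j : ℕ, Continuous fun u : ℝ => 2 * Real.pi * B / Q *
        ∑ i ∈ Finset.range B, |X T (u + δ * ((q * i + j : ℕ) : ℝ))| := fun j =>
      continuous_const.mul (hc2 j)
    have hc5 : ∀ j : ℕ, Continuous fun u : ℝ =>
        (|∑ i ∈ Finset.range B, X T (u + δ * ((q * i + j : ℕ) : ℝ))| + 2 * Real.pi * B / Q *
        ∑ i ∈ Finset.range B, |X T (u + δ * ((q * i + j : ℕ) : ℝ))|) := fun j =>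
      (hc1 j).add (hc4 j)
    have hc6 : Continuous fun u : ℝ => ∑ j ∈ Finset.range J,
        (|∑ i ∈ Finset.range B, X T (u + δ * ((q * i + j : ℕ) : ℝ))| + 2 * Real.pi * B / Q *
        ∑ i ∈ Finset.range B, |X T (u + δ * ((q * i + j : ℕ) : ℝ))|) :=
      continuous_finsetSum _ fun j _ => hc5 j
    have hc7 : Continuous fun u : ℝ => (B : ℝ) * ∑ j ∈ Finset.range (q * B),
            (|X T (u + δ * ((j : ℕ) : ℝ))| + |X T (u + δ * ((J + j : ℕ) : ℝ))|) :=
      continuous_const.mul (continuous_finsetSum _ fun j _ => hc3 j)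
    rw [tb_iadd hc6 hc7, tb_isum (f := fun (j : ℕ) (u : ℝ) =>
        (|∑ i ∈ Finset.range B, X T (u + δ * ((q * i + j : ℕ) : ℝ))| + 2 * Real.pi * B / Q *
        ∑ i ∈ Finset.range B, |X T (u + δ * ((q * i + j : ℕ) : ℝ))|)) (Finset.range J) hc5,
      intervalIntegral.integral_const_mul, tb_isum (f := fun (j : ℕ) (u : ℝ) =>
        |X T (u + δ * ((j : ℕ) : ℝ))| + |X T (u + δ * ((J + j : ℕ) : ℝ))|)
        (Finset.range (q * B)) hc3]
    congr 1
    · refine Finset.sum_congr rfl fun j _ => ?_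
      rw [tb_iadd (hc1 j) (hc4 j), intervalIntegral.integral_const_mul,
        tb_isum (f := fun (i : ℕ) (u : ℝ) => |X T (u + δ * ((q * i + j : ℕ) : ℝ))|)
        (Finset.range B) fun i => (hcx _).abs]
    · congr 1
      refine Finset.sum_congr rfl fun j _ => ?_
      rw [tb_iadd (hcx j).abs (hcx (J + j)).abs]
  -- the shifts are at most 2 T
  have hsh : ∀ m : ℕ, (m : ℝ) ≤ J + (J : ℝ) * J → δ * (m : ℝ) ≤ 2 * T := by
    intro m hm
    have hm0 : (0 : ℝ) ≤ m := Nat.cast_nonneg m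
    have : (J : ℝ) ≤ (J : ℝ) * J := by nlinarith
    calc δ * (m : ℝ) ≤ A * (J + (J : ℝ) * J) := mul_le_mul hδ2 hm hm0 hA0.le
      _ ≤ A * ((J : ℝ) * J + (J : ℝ) * J) := by gcongr
      _ = 2 * (A * (J : ℝ) ^ 2) := by ring
      _ ≤ 2 * T := by linarith
  have hqB : ∀ i : ℕ, i ≤ B → ((q * i : ℕ) : ℝ) ≤ (J : ℝ) * J := by
    intro i hi
    have hi' : (i : ℝ) ≤ B := by exact_mod_cast hi
    push_cast
    exact mul_le_mul hqJ' (hi'.trans hBJ') (Nat.cast_nonneg i) hJ0.le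
  have hm2 : (B : ℝ) * ∫ u in T..(2 * T),
      ‖∑ j ∈ Finset.range J, (X T (u + δ * j) : ℂ) * cexp (2 * Real.pi * I * (θ * j))‖ ≤
      (J : ℝ) * ((C0 * (B : ℝ) ^ (7 / 8 : ℝ) * T + T) +
        2 * Real.pi * B / Q * (B * ((C3 + 1) / 2 * T))) +
      B * ((q : ℝ) * B * ((C3 + 1) / 2 * T + (C3 + 1) / 2 * T)) := by
    refine hm1.trans (add_le_add ?_ ?_)
    · have k2 : ∀ j ∈ Finset.range J, ((∫ u in T..(2 * T),
          |∑ i ∈ Finset.range B, X T (u + δ * ((q * i + j : ℕ) : ℝ))|) +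
          2 * Real.pi * B / Q * ∑ i ∈ Finset.range B, ∫ u in T..(2 * T),
            |X T (u + δ * ((q * i + j : ℕ) : ℝ))|) ≤
          (C0 * (B : ℝ) ^ (7 / 8 : ℝ) * T + T) +
            2 * Real.pi * B / Q * (B * ((C3 + 1) / 2 * T)) := by
        intro j hj
        refine add_le_add (hG j hj) (mul_le_mul_of_nonneg_left ?_ hηpos)
        have k3 : ∀ i ∈ Finset.range B, ∫ u in T..(2 * T),
            |X T (u + δ * ((q * i + j : ℕ) : ℝ))| ≤ (C3 + 1) / 2 * T := by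
          intro i hi
          refine hL _ (by positivity) (hsh _ ?_)
          have h1 := hqB i (Finset.mem_range.1 hi).le
          have h2 : (j : ℝ) ≤ J := by exact_mod_cast (Finset.mem_range.1 hj).le
          push_cast at h1 ⊢
          linarith
        refine (Finset.sum_le_sum k3).trans (le_of_eq ?_)
        rw [Finset.sum_const, Finset.card_range, nsmul_eq_mul]
      refine (Finset.sum_le_sum k2).trans (le_of_eq ?_)
      rw [Finset.sum_const, Finset.card_range, nsmul_eq_mul]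
    · refine mul_le_mul_of_nonneg_left ?_ (Nat.cast_nonneg B)
      have k4 : ∀ j ∈ Finset.range (q * B), ((∫ u in T..(2 * T), |X T (u + δ * ((j : ℕ) : ℝ))|) +
          ∫ u in T..(2 * T), |X T (u + δ * ((J + j : ℕ) : ℝ))|) ≤
          (C3 + 1) / 2 * T + (C3 + 1) / 2 * T := by
        intro j hj
        have h1 := hqB B le_rfl
        have h2 : (j : ℝ) ≤ ((q * B : ℕ) : ℝ) := by exact_mod_cast (Finset.mem_range.1 hj).le
        refine add_le_add (hL _ (by positivity) (hsh _ (by linarith)))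
          (hL _ (by positivity) (hsh _ ?_))
        push_cast at h1 h2 ⊢
        linarith
      refine (Finset.sum_le_sum k4).trans (le_of_eq ?_)
      rw [Finset.sum_const, Finset.card_range, nsmul_eq_mul]
      push_cast
      ring
  exact tb_fin hr1 (by exact_mod_cast hB1) hB2 hB3 (by exact_mod_cast hQ1) hQ2 hQ3 hqQ' hC0 hKpos
    hTpos hm2

end Pool.Agent.Helper647.SG.JTB
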