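import Mathlib

set_option autoImplicit false

namespace Pool.Agent.Helper647.SG.JWP

open Complex Filter Topology MeasureTheory Set

private theorem markov (f : ℝ → ℝ) (hf : Continuous f) (h0 : ∀ t, 0 ≤ f t) (a b c B : ℝ)
    (hab : a ≤ b) (hc : 0 < c) (hB : ∫ t in a..b, f t ≤ B) :
    volume {t : ℝ | t ∈ Icc a b ∧ c < f t} ≤ ENNReal.ofReal (B / c) := by
  have hint : IntegrableOn f (Icc a b) := hf.integrableOn_Icc
  have h1 := mul_meas_ge_le_integral_of_nonneg (μ := volume.restrict (Icc a b)) (f := f)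
    (Filter.Eventually.of_forall h0) hint c
  have h2 : ∫ x in Icc a b, f x = ∫ t in a..b, f t := by
    rw [intervalIntegral.integral_of_le hab, integral_Icc_eq_integral_Ioc]
  rw [h2] at h1
  have h3 : (volume.restrict (Icc a b)).real {x | c ≤ f x} ≤ B / c := by
    rw [le_div_iff₀ hc, mul_comm]; exact h1.trans hB
  have h4 : volume {t : ℝ | t ∈ Icc a b ∧ c < f t} ≤ (volume.restrict (Icc a b)) {x | c ≤ f x} := by
    rw [Measure.restrict_apply' measurableSet_Icc]
    exact measure_mono fun t ht => ⟨ht.2.le, ht.1⟩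
  refine h4.trans ?_
  rw [← ENNReal.ofReal_toReal (measure_ne_top (volume.restrict (Icc a b)) {x | c ≤ f x})]
  exact ENNReal.ofReal_le_ofReal h3

private theorem markov_count (N : ℕ → Set ℝ) (hN : ∀ j, MeasurableSet (N j)) (a b B : ℝ) (J : ℕ)
    (hJ : 1 ≤ J) (hB0 : 0 ≤ B)
    (hB : ∀ j < J, volume (N j ∩ Icc a b) ≤ ENNReal.ofReal B) [∀ t, DecidablePred fun j => t ∈ N j] :
    volume {t : ℝ | t ∈ Icc a b ∧ (J : ℝ) / 2 < (((Finset.range J).filter fun j => t ∈ N j).card : ℝ)}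
      ≤ ENNReal.ofReal (2 * B) := by
  classical
  set F : ℝ → ENNReal := fun t => ∑ j ∈ Finset.range J, (N j).indicator 1 t with hF
  have hJ' : (0 : ℝ) < J := by exact_mod_cast hJ
  have hFm : Measurable F := by
    apply Finset.measurable_sum
    intro j _
    exact measurable_one.indicator (hN j)
  have h1 : ∫⁻ t in Icc a b, F t ≤ ENNReal.ofReal (J * B) := by
    rw [hF]
    rw [lintegral_finsetSum _ fun j _ => measurable_one.indicator (hN j)]
    calc ∑ j ∈ Finset.range J, ∫⁻ t in Icc a b, (N j).indicator 1 t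
        ≤ ∑ j ∈ Finset.range J, ENNReal.ofReal B := by
          refine Finset.sum_le_sum fun j hj => ?_
          rw [lintegral_indicator_one (hN j), Measure.restrict_apply (hN j)]
          exact hB j (Finset.mem_range.1 hj)
      _ = ENNReal.ofReal (J * B) := by
          rw [Finset.sum_const, Finset.card_range, nsmul_eq_mul, ENNReal.ofReal_mul hJ'.le,
            ENNReal.ofReal_natCast]
  have h2 := meas_ge_le_lintegral_div (μ := volume.restrict (Icc a b)) (f := F) hFm.aemeasurable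
    (ε := ENNReal.ofReal ((J : ℝ) / 2)) (by
      rw [Ne, ENNReal.ofReal_eq_zero, not_le]; positivity) ENNReal.ofReal_ne_top
  have h3 : volume {t : ℝ | t ∈ Icc a b ∧
      (J : ℝ) / 2 < (((Finset.range J).filter fun j => t ∈ N j).card : ℝ)}
      ≤ (volume.restrict (Icc a b)) {x | ENNReal.ofReal ((J : ℝ) / 2) ≤ F x} := by
    rw [Measure.restrict_apply' measurableSet_Icc]
    refine measure_mono fun t ht => ⟨?_, ht.1⟩
    have e1 : F t = (((Finset.range J).filter fun j => t ∈ N j).card : ENNReal) := by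
      rw [hF]
      simp only [Set.indicator_apply, Pi.one_apply]
      rw [Finset.sum_ite, Finset.sum_const_zero, add_zero, Finset.sum_const, nsmul_eq_mul, mul_one]
    rw [Set.mem_ofPred_eq, e1, ← ENNReal.ofReal_natCast]
    exact ENNReal.ofReal_le_ofReal ht.2.le
  refine h3.trans (h2.trans ?_)
  calc (∫⁻ t in Icc a b, F t) / ENNReal.ofReal ((J : ℝ) / 2)
      ≤ ENNReal.ofReal (J * B) / ENNReal.ofReal ((J : ℝ) / 2) := ENNReal.div_le_div_right h1 _
    _ = ENNReal.ofReal (2 * B) := by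
        rw [← ENNReal.ofReal_div_of_pos (by positivity)]
        congr 1
        field_simp

/-- the pointwise inequality -/
private theorem pointwise (J K : ℕ) (x : ℕ → ℝ) (s : ℕ → ℝ) (hs : ∀ j, s j * x j = |x j|)
    (M : ℝ) (c : Fin K → ℂ) (hc : ∀ k, ‖c k‖ ≤ M) (e : Fin K → ℕ → ℂ) :
    ∑ j ∈ Finset.range J, |x j| ≤ M * ∑ k, ‖∑ j ∈ Finset.range J, (x j : ℂ) * e k j‖ +
      √(∑ j ∈ Finset.range J, x j ^ 2) *
        √(∑ j ∈ Finset.range J, ‖(s j : ℂ) - ∑ k, c k * e k j‖ ^ 2) := by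
  have h1 : ((∑ j ∈ Finset.range J, |x j| : ℝ) : ℂ) =
      ∑ k, c k * ∑ j ∈ Finset.range J, (x j : ℂ) * e k j +
      ∑ j ∈ Finset.range J, (x j : ℂ) * ((s j : ℂ) - ∑ k, c k * e k j) := by
    have e1 : ∑ k, c k * ∑ j ∈ Finset.range J, (x j : ℂ) * e k j
        = ∑ j ∈ Finset.range J, (x j : ℂ) * ∑ k, c k * e k j := by
      simp only [Finset.mul_sum]
      rw [Finset.sum_comm]
      refine Finset.sum_congr rfl fun j _ => Finset.sum_congr rfl fun k _ => ?_
      ring
    rw [e1, ← Finset.sum_add_distrib, ofReal_sum]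
    refine Finset.sum_congr rfl fun j _ => ?_
    rw [← hs j, ofReal_mul]
    ring
  have h2 : ∑ j ∈ Finset.range J, |x j| = ‖((∑ j ∈ Finset.range J, |x j| : ℝ) : ℂ)‖ := by
    rw [Complex.norm_real, Real.norm_eq_abs, abs_of_nonneg]
    exact Finset.sum_nonneg fun j _ => abs_nonneg _
  rw [h2, h1]
  refine (norm_add_le _ _).trans (add_le_add ?_ ?_)
  · refine (norm_sum_le _ _).trans ?_
    rw [Finset.mul_sum]
    refine Finset.sum_le_sum fun k _ => ?_
    rw [norm_mul]
    exact mul_le_mul_of_nonneg_right (hc k) (norm_nonneg _)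
  · refine (norm_sum_le _ _).trans ?_
    have h3 := Real.sum_mul_le_sqrt_mul_sqrt (Finset.range J) (fun j => |x j|)
      (fun j => ‖(s j : ℂ) - ∑ k, c k * e k j‖)
    simp only [sq_abs] at h3
    refine le_trans (le_of_eq ?_) h3
    refine Finset.sum_congr rfl fun j _ => ?_
    rw [norm_mul, Complex.norm_real, Real.norm_eq_abs]

private theorem const_ineq (C2 C3 p : ℝ) (hC2 : 1 ≤ C2) (hC3 : 0 < C3) (hp : 0 < p) (hp1 : p ≤ 1) :
    √(4 * C3 / p) * √(Real.exp (-((1 + 32 * C2 + 64 * C3) / p)))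
      < 3 / 8 * Real.exp (-(16 * C2 / p)) := by
  rw [← Real.sqrt_mul (by positivity)]
  rw [Real.sqrt_lt' (by positivity)]
  have h1 : (3 / 8 * Real.exp (-(16 * C2 / p))) ^ 2 = 9 / 64 * Real.exp (-(32 * C2 / p)) := by
    rw [mul_pow, ← Real.exp_nat_mul]
    congr 1
    · norm_num
    · congr 1
      push_cast
      ring
  rw [h1]
  have h2 : Real.exp (-((1 + 32 * C2 + 64 * C3) / p))
      = Real.exp (-(32 * C2 / p)) * (Real.exp (-(1 / p)) * Real.exp (-(64 * C3 / p))) := by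
    rw [← Real.exp_add, ← Real.exp_add]
    congr 1
    field_simp
    ring
  rw [h2]
  have h3 : 1 / p * Real.exp (-(1 / p)) ≤ 1 := by
    have h4 : 1 / p ≤ Real.exp (1 / p) := by
      have := Real.add_one_le_exp (1 / p)
      linarith
    calc 1 / p * Real.exp (-(1 / p)) ≤ Real.exp (1 / p) * Real.exp (-(1 / p)) :=
          mul_le_mul_of_nonneg_right h4 (Real.exp_pos _).le
      _ = 1 := by rw [← Real.exp_add]; simp
  have h5 : 4 * C3 * Real.exp (-(64 * C3 / p)) < 9 / 64 := by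
    have h6 : Real.exp (-(64 * C3 / p)) ≤ Real.exp (-(64 * C3)) := by
      apply Real.exp_le_exp.2
      have : 64 * C3 ≤ 64 * C3 / p := by
        rw [le_div_iff₀ hp]
        nlinarith
      linarith
    have h7 : 1 + 64 * C3 ≤ Real.exp (64 * C3) := by
      have := Real.add_one_le_exp (64 * C3)
      linarith
    have h8 : 4 * C3 * Real.exp (-(64 * C3)) < 9 / 64 := by
      rw [Real.exp_neg, ← div_eq_mul_inv, div_lt_iff₀ (Real.exp_pos _)]
      nlinarith
    have h9 := mul_le_mul_of_nonneg_left h6 (show 0 ≤ 4 * C3 by positivity)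
    linarith
  have hE := Real.exp_pos (-(32 * C2 / p))
  have hE2 := Real.exp_pos (-(64 * C3 / p))
  calc 4 * C3 / p * (Real.exp (-(32 * C2 / p)) * (Real.exp (-(1 / p)) * Real.exp (-(64 * C3 / p))))
      = Real.exp (-(32 * C2 / p)) * ((4 * C3 * Real.exp (-(64 * C3 / p))) *
          (1 / p * Real.exp (-(1 / p)))) := by ring
    _ ≤ Real.exp (-(32 * C2 / p)) * ((4 * C3 * Real.exp (-(64 * C3 / p))) * 1) := by
        apply mul_le_mul_of_nonneg_left _ hE.le
        exact mul_le_mul_of_nonneg_left h3 (by positivity)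
    _ < Real.exp (-(32 * C2 / p)) * (9 / 64) := by
        apply mul_lt_mul_of_pos_left _ hE
        rw [mul_one]; exact h5
    _ = 9 / 64 * Real.exp (-(32 * C2 / p)) := by ring

/- TASK (helper647, project SG2): prove this theorem (axioms propext, Classical.choice, Quot.sound only; helper lemmas welcome;
keep the statement and the namespace). htb, hSM, hsv are other jobs. -/
theorem wp (X : ℝ → ℝ → ℝ) (σ : ℝ → ℝ) (hX : ∀ T, Continuous (X T)) (hσ : ∀ T t, σ t * X T t = |X T t|)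
    (htb : ∃ C : ℝ, 0 < C ∧ ∀ (A : ℝ) (J : ℕ), 1 ≤ A → 1 ≤ J → ∃ T0 : ℝ, 8 ≤ T0 ∧ ∀ T δ : ℝ, T0 ≤ T → 1 / Real.log T ≤ δ → δ ≤ A →
      ∀ θ : ℝ, ∫ u in T..(2 * T), ‖∑ j ∈ Finset.range J, (X T (u + δ * j) : ℂ) * cexp (2 * Real.pi * I * (θ * j))‖ ≤
        C * (J : ℝ) ^ (31 / 32 : ℝ) * T)
    (hSM : ∃ C3 T1 : ℝ, 0 < C3 ∧ 8 ≤ T1 ∧ ∀ T : ℝ, T1 ≤ T → ∫ t in (T / 4)..(4 * T), X T t ^ 2 ≤ C3 * T)
    (hsv : ∃ C T1 : ℝ, 0 < C ∧ 8 ≤ T1 ∧ ∀ T κ : ℝ, T1 ≤ T → 0 < κ → κ ≤ 1 / 2 →
      volume ({t : ℝ | |X T t| < κ} ∩ Icc (T / 2) (5 / 2 * T)) ≤ ENNReal.ofReal (C * T / Real.log (1 / κ))) :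
    ∃ C : ℝ, 0 < C ∧ ∀ (A p M : ℝ) (K : ℕ), 1 ≤ A → 0 < p → p ≤ 1 → 0 ≤ M → ∃ J0 : ℕ, 1 ≤ J0 ∧ ∀ J : ℕ, J0 ≤ J →
      ∃ T0 : ℝ, ∀ T δ : ℝ, T0 ≤ T → 1 / Real.log T ≤ δ → δ ≤ A → ∀ θ : Fin K → ℝ,
        volume {t : ℝ | t ∈ Icc T (2 * T) ∧ ∃ c : Fin K → ℂ, (∀ k, ‖c k‖ ≤ M) ∧
          ∑ j ∈ Finset.range J, ‖(σ (t + δ * j) : ℂ) - ∑ k, c k * cexp (2 * Real.pi * I * (θ k * j))‖ ^ 2 ≤
            Real.exp (-(C / p)) * J} ≤ ENNReal.ofReal (p * T) := by
  classical
  obtain ⟨C1, hC1, htb⟩ := htb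
  obtain ⟨C3, T3, hC3, hT3, hSM⟩ := hSM
  obtain ⟨C2o, T2, hC2o, hT2, hsv⟩ := hsv
  set C2 : ℝ := max C2o 1 with hC2def
  have hC2 : 1 ≤ C2 := le_max_right _ _
  have hC2' : C2o ≤ C2 := le_max_left _ _
  have hC2pos : 0 < C2 := by linarith
  refine ⟨1 + 32 * C2 + 64 * C3, by positivity, ?_⟩
  intro A p M K hA hp hp1 hM
  set κ : ℝ := Real.exp (-(16 * C2 / p)) with hκ
  have hκ0 : 0 < κ := Real.exp_pos _
  have hlog : Real.log (1 / κ) = 16 * C2 / p := by
    rw [one_div, Real.log_inv, hκ, Real.log_exp, neg_neg]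
  have hκ2 : κ ≤ 1 / 2 := by
    have h1 : (16 : ℝ) ≤ 16 * C2 / p := by
      rw [le_div_iff₀ hp]; nlinarith
    have h2 : 16 * C2 / p + 1 ≤ Real.exp (16 * C2 / p) := Real.add_one_le_exp _
    rw [hκ, Real.exp_neg, one_div]
    apply inv_anti₀ (by norm_num)
    linarith
  -- the threshold for `J`
  have hJ0 : ∃ J0 : ℕ, 1 ≤ J0 ∧ ∀ J : ℕ, J0 ≤ J →
      M * K * C1 * (J : ℝ) ^ (31 / 32 : ℝ) ≤ (p / 4) * (κ * J / 8) := by
    have ht : Tendsto (fun J : ℕ => (J : ℝ) ^ (1 / 32 : ℝ)) atTop atTop :=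
      (tendsto_rpow_atTop (by norm_num)).comp tendsto_natCast_atTop_atTop
    obtain ⟨J1, hJ1⟩ := (ht.eventually_ge_atTop (32 * M * K * C1 / (p * κ))).exists_forall_of_atTop
    refine ⟨max J1 1, le_max_right _ _, fun J hJ => ?_⟩
    have h1 := hJ1 J ((le_max_left _ _).trans hJ)
    have hJ2 : (1 : ℝ) ≤ J := by exact_mod_cast (le_max_right _ _).trans hJ
    have hJ3 : (0 : ℝ) < J := by linarith
    have h2 : (J : ℝ) = (J : ℝ) ^ (31 / 32 : ℝ) * (J : ℝ) ^ (1 / 32 : ℝ) := by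
      rw [← Real.rpow_add hJ3]
      norm_num
    rw [div_le_iff₀ (by positivity)] at h1
    have h3 : (0 : ℝ) ≤ (J : ℝ) ^ (31 / 32 : ℝ) := by positivity
    calc M * K * C1 * (J : ℝ) ^ (31 / 32 : ℝ)
        = (32 * M * K * C1) * (J : ℝ) ^ (31 / 32 : ℝ) / 32 := by ring
      _ ≤ ((J : ℝ) ^ (1 / 32 : ℝ) * (p * κ)) * (J : ℝ) ^ (31 / 32 : ℝ) / 32 := by
          have := mul_le_mul_of_nonneg_right h1 h3
          linarith
      _ = (p / 4) * (κ * ((J : ℝ) ^ (31 / 32 : ℝ) * (J : ℝ) ^ (1 / 32 : ℝ)) / 8) := by ring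
      _ = (p / 4) * (κ * J / 8) := by rw [← h2]
  obtain ⟨J0, hJ01, hJ0⟩ := hJ0
  refine ⟨J0, hJ01, fun J hJ => ?_⟩
  have hJ1 : 1 ≤ J := hJ01.trans hJ
  have hJ1' : (1 : ℝ) ≤ J := by exact_mod_cast hJ1
  have hJpos : (0 : ℝ) < J := by linarith
  obtain ⟨T0, hT0, htb⟩ := htb A J hA hJ1
  refine ⟨max (max T0 T3) (max T2 (2 * A * J)), fun T δ hT hδ1 hδ2 θ => ?_⟩
  have hTT0 : T0 ≤ T := ((le_max_left _ _).trans (le_max_left _ _)).trans hT
  have hTT3 : T3 ≤ T := ((le_max_right _ _).trans (le_max_left _ _)).trans hT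
  have hTT2 : T2 ≤ T := ((le_max_left _ _).trans (le_max_right _ _)).trans hT
  have hTA : 2 * A * J ≤ T := ((le_max_right _ _).trans (le_max_right _ _)).trans hT
  have hT8 : 8 ≤ T := hT0.trans hTT0
  have hTpos : 0 < T := by linarith
  have hδ0 : 0 ≤ δ := by
    have : 0 < Real.log T := Real.log_pos (by linarith)
    exact le_trans (by positivity) hδ1
  have hshift : ∀ j < J, 0 ≤ δ * j ∧ δ * j ≤ T / 2 := by
    intro j hj
    have h1 : (j : ℝ) ≤ J := by exact_mod_cast hj.le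
    have h2 : δ * j ≤ A * J := mul_le_mul hδ2 h1 (by positivity) (by linarith)
    exact ⟨by positivity, by linarith⟩
  -- first exceptional set
  set f1 : ℝ → ℝ := fun t => M * ∑ k, ‖∑ j ∈ Finset.range J, (X T (t + δ * j) : ℂ) *
    cexp (2 * Real.pi * I * (θ k * j))‖ with hf1
  have hterm : ∀ k, Continuous fun t => ‖∑ j ∈ Finset.range J, (X T (t + δ * j) : ℂ) *
      cexp (2 * Real.pi * I * (θ k * j))‖ := by
    intro k
    refine (continuous_finsetSum _ fun j _ => ?_).norm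
    exact (Complex.continuous_ofReal.comp ((hX T).comp (by fun_prop))).mul continuous_const
  have hf1c : Continuous f1 := continuous_const.mul (continuous_finsetSum _ fun k _ => hterm k)
  have hf1i : ∫ t in T..(2 * T), f1 t ≤ M * K * C1 * (J : ℝ) ^ (31 / 32 : ℝ) * T := by
    rw [hf1, intervalIntegral.integral_const_mul, intervalIntegral.integral_finsetSum]
    · have : ∑ k : Fin K, ∫ t in T..(2 * T), ‖∑ j ∈ Finset.range J, (X T (t + δ * j) : ℂ) *
          cexp (2 * Real.pi * I * (θ k * j))‖ ≤ ∑ k : Fin K, C1 * (J : ℝ) ^ (31 / 32 : ℝ) * T :=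
        Finset.sum_le_sum fun k _ => htb T δ hTT0 hδ1 hδ2 (θ k)
      rw [Finset.sum_const, Finset.card_univ, Fintype.card_fin, nsmul_eq_mul] at this
      have := mul_le_mul_of_nonneg_left this hM
      linarith
    · intro k _
      exact (hterm k).intervalIntegrable _ _
  have hS1 := markov f1 hf1c (fun t => by positivity) T (2 * T) (κ * J / 8) _ (by linarith)
    (by positivity) hf1i
  have hS1' : volume {t : ℝ | t ∈ Icc T (2 * T) ∧ κ * J / 8 < f1 t} ≤ ENNReal.ofReal (p / 4 * T) := by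
    refine hS1.trans (ENNReal.ofReal_le_ofReal ?_)
    rw [div_le_iff₀ (by positivity)]
    have := mul_le_mul_of_nonneg_right (hJ0 J hJ) hTpos.le
    linarith
  -- second exceptional set
  set f2 : ℝ → ℝ := fun t => ∑ j ∈ Finset.range J, X T (t + δ * j) ^ 2 with hf2
  have hterm2 : ∀ j : ℕ, Continuous fun t => X T (t + δ * j) ^ 2 := fun j =>
    ((hX T).comp (by fun_prop)).pow 2
  have hf2c : Continuous f2 := continuous_finsetSum _ fun j _ => hterm2 j
  have hf2i : ∫ t in T..(2 * T), f2 t ≤ J * (C3 * T) := by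
    rw [hf2, intervalIntegral.integral_finsetSum]
    · calc ∑ j ∈ Finset.range J, ∫ t in T..(2 * T), X T (t + δ * j) ^ 2
          ≤ ∑ j ∈ Finset.range J, C3 * T := by
            refine Finset.sum_le_sum fun j hj => ?_
            obtain ⟨h1, h2⟩ := hshift j (Finset.mem_range.1 hj)
            rw [intervalIntegral.integral_comp_add_right (fun t => X T t ^ 2) (δ * j)]
            refine le_trans ?_ (hSM T hTT3)
            refine intervalIntegral.integral_mono_interval (by linarith) (by linarith)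
              (by linarith) (Filter.Eventually.of_forall fun t => sq_nonneg _) ?_
            exact ((hX T).pow 2).intervalIntegrable _ _
        _ = J * (C3 * T) := by rw [Finset.sum_const, Finset.card_range, nsmul_eq_mul]
    · intro j _
      exact (hterm2 j).intervalIntegrable _ _
  have hS2 := markov f2 hf2c (fun t => by positivity) T (2 * T) (4 * C3 / p * J) _ (by linarith)
    (by positivity) hf2i
  have hS2' : volume {t : ℝ | t ∈ Icc T (2 * T) ∧ 4 * C3 / p * J < f2 t}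
      ≤ ENNReal.ofReal (p / 4 * T) := by
    refine hS2.trans (ENNReal.ofReal_le_ofReal (le_of_eq ?_))
    field_simp
  -- third exceptional set
  set N : ℕ → Set ℝ := fun j => {t | |X T (t + δ * j)| < κ} with hN
  have hNm : ∀ j, MeasurableSet (N j) := by
    intro j
    have hc : Continuous fun t => |X T (t + δ * j)| := ((hX T).comp (by fun_prop)).abs
    exact (isOpen_lt hc continuous_const).measurableSet
  have hNv : ∀ j < J, volume (N j ∩ Icc T (2 * T)) ≤ ENNReal.ofReal (p * T / 16) := by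
    intro j hj
    obtain ⟨h1, h2⟩ := hshift j hj
    have hsub : N j ∩ Icc T (2 * T) ⊆ (fun t => t + δ * j) ⁻¹'
        ({t : ℝ | |X T t| < κ} ∩ Icc (T / 2) (5 / 2 * T)) := by
      rintro t ⟨ht, ht2⟩
      refine ⟨ht, ?_⟩
      simp only [Set.mem_Icc] at ht2 ⊢
      constructor <;> linarith [ht2.1, ht2.2]
    refine (measure_mono hsub).trans ?_
    rw [measure_preimage_add_right]
    refine (hsv T κ hTT2 hκ0 hκ2).trans (ENNReal.ofReal_le_ofReal ?_)
    rw [hlog, div_div_eq_mul_div, div_le_div_iff₀ (by positivity) (by norm_num)]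
    have := mul_le_mul_of_nonneg_right hC2' (show 0 ≤ T * p * 16 by positivity)
    nlinarith
  have hS3 := markov_count N hNm T (2 * T) (p * T / 16) J hJ1 (by positivity) hNv
  -- the union
  have hcover : {t : ℝ | t ∈ Icc T (2 * T) ∧ ∃ c : Fin K → ℂ, (∀ k, ‖c k‖ ≤ M) ∧
          ∑ j ∈ Finset.range J, ‖(σ (t + δ * j) : ℂ) - ∑ k, c k * cexp (2 * Real.pi * I * (θ k * j))‖ ^ 2 ≤
            Real.exp (-((1 + 32 * C2 + 64 * C3) / p)) * J} ⊆
      ({t : ℝ | t ∈ Icc T (2 * T) ∧ κ * J / 8 < f1 t} ∪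
        {t : ℝ | t ∈ Icc T (2 * T) ∧ 4 * C3 / p * J < f2 t}) ∪
        {t : ℝ | t ∈ Icc T (2 * T) ∧
          (J : ℝ) / 2 < (((Finset.range J).filter fun j => t ∈ N j).card : ℝ)} := by
    rintro t ⟨ht, c, hc, hsum⟩
    by_contra hcon
    simp only [Set.mem_union, Set.mem_ofPred_eq, not_or, not_and, not_lt] at hcon
    obtain ⟨⟨hn1, hn2⟩, hn3⟩ := hcon
    have hn1 := hn1 ht
    have hn2 := hn2 ht
    have hn3 := hn3 ht
    have hp1' := pointwise J K (fun j => X T (t + δ * j)) (fun j => σ (t + δ * j))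
      (fun j => hσ T _) M c hc (fun k j => cexp (2 * Real.pi * I * (θ k * j)))
    have hlow : κ * (J / 2) ≤ ∑ j ∈ Finset.range J, |X T (t + δ * j)| := by
      have e1 : ((Finset.range J).filter fun j => t ∈ N j).card +
          ((Finset.range J).filter fun j => ¬ t ∈ N j).card = J := by
        rw [Finset.card_filter_add_card_filter_not, Finset.card_range]
      have e2 : (((Finset.range J).filter fun j => t ∈ N j).card : ℝ) +
          (((Finset.range J).filter fun j => ¬ t ∈ N j).card : ℝ) = J := by exact_mod_cast e1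
      calc κ * (J / 2) ≤ κ * (((Finset.range J).filter fun j => ¬ t ∈ N j).card : ℝ) := by
            apply mul_le_mul_of_nonneg_left _ hκ0.le
            linarith
        _ = ∑ j ∈ (Finset.range J).filter (fun j => ¬ t ∈ N j), κ := by
            rw [Finset.sum_const, nsmul_eq_mul, mul_comm]
        _ ≤ ∑ j ∈ (Finset.range J).filter (fun j => ¬ t ∈ N j), |X T (t + δ * j)| := by
            refine Finset.sum_le_sum fun j hj => ?_
            have := (Finset.mem_filter.1 hj).2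
            rw [hN] at this
            simp only [Set.mem_ofPred_eq, not_lt] at this
            exact this
        _ ≤ ∑ j ∈ Finset.range J, |X T (t + δ * j)| :=
            Finset.sum_le_sum_of_subset_of_nonneg (Finset.filter_subset _ _)
              fun j _ _ => abs_nonneg _
    have hsq1 : √(∑ j ∈ Finset.range J, X T (t + δ * j) ^ 2) ≤ √(4 * C3 / p) * √J := by
      rw [← Real.sqrt_mul (by positivity)]
      exact Real.sqrt_le_sqrt hn2
    have hsq2 := Real.sqrt_le_sqrt hsum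
    rw [Real.sqrt_mul (Real.exp_pos _).le] at hsq2
    have hprod := mul_le_mul hsq1 hsq2 (Real.sqrt_nonneg _) (by positivity)
    have hJJ : √(J : ℝ) * √(J : ℝ) = J := Real.mul_self_sqrt hJpos.le
    have hrew : √(4 * C3 / p) * √J * (√(Real.exp (-((1 + 32 * C2 + 64 * C3) / p))) * √J)
        = (√(4 * C3 / p) * √(Real.exp (-((1 + 32 * C2 + 64 * C3) / p)))) * J := by
      calc _ = (√(4 * C3 / p) * √(Real.exp (-((1 + 32 * C2 + 64 * C3) / p)))) * (√J * √J) := by
            ring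
        _ = _ := by rw [hJJ]
    rw [hrew] at hprod
    have hconst := mul_lt_mul_of_pos_right (const_ineq C2 C3 p hC2 hC3 hp hp1) hJpos
    rw [← hκ] at hconst
    have hn1' : M * ∑ k, ‖∑ j ∈ Finset.range J, (X T (t + δ * j) : ℂ) *
        cexp (2 * Real.pi * I * (θ k * j))‖ ≤ κ * J / 8 := hn1
    linarith
  refine (measure_mono hcover).trans ?_
  refine (measure_union_le _ _).trans ?_
  refine (add_le_add (measure_union_le _ _) le_rfl).trans ?_
  refine (add_le_add (add_le_add hS1' hS2') hS3).trans ?_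
  rw [← ENNReal.ofReal_add (by positivity) (by positivity),
    ← ENNReal.ofReal_add (by positivity) (by positivity)]
  apply ENNReal.ofReal_le_ofReal
  nlinarith

end Pool.Agent.Helper647.SG.JWP
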