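import Mathlib

set_option autoImplicit false

namespace Pool.Agent.Helper647.SG.JWQ

open Complex Filter Topology MeasureTheory Set

/-- Averaging over translates. -/
theorem wq_translates (V U : Set ℝ) (δ : ℝ) (k : ℕ) (hk : 0 < k)
    (hU : ∀ t ∈ U, ∃ G : Finset ℕ, G ⊆ Finset.range k ∧ (∀ r ∈ G, t + δ * (r : ℝ) ∈ V) ∧
      (k : ℝ) / 2 ≤ (G.card : ℝ)) :
    volume U ≤ 2 * volume V := by
  set V' := toMeasurable volume V with hV'
  have hVm : MeasurableSet V' := measurableSet_toMeasurable _ _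
  set f : ℝ → ENNReal := fun t => ∑ r ∈ Finset.range k, V'.indicator (fun _ => (1 : ENNReal)) (t + δ * r)
    with hf
  have hterm : ∀ r : ℕ, Measurable (fun t : ℝ => V'.indicator (fun _ => (1 : ENNReal)) (t + δ * r)) := by
    intro r
    exact (measurable_const.indicator hVm).comp (measurable_id.add_const _)
  have hfm : Measurable f := Finset.measurable_sum _ (fun r _ => hterm r)
  have hint : ∫⁻ t, f t = (k : ENNReal) * volume V := by
    simp only [hf]
    rw [lintegral_finsetSum _ (fun r _ => hterm r)]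
    have : ∀ r ∈ Finset.range k, ∫⁻ t : ℝ, V'.indicator (fun _ => (1 : ENNReal)) (t + δ * r) = volume V := by
      intro r _
      rw [lintegral_add_right_eq_self (μ := (volume : Measure ℝ))
        (fun t => V'.indicator (fun _ => (1 : ENNReal)) t) (δ * r)]
      rw [lintegral_indicator hVm]
      simp [hV']
    rw [Finset.sum_congr rfl this]
    simp
  have hsub : U ⊆ {t | ((k : ENNReal) / 2) ≤ f t} := by
    intro t ht
    obtain ⟨G, hG1, hG2, h1⟩ := hU t ht
    have h2 : (G.card : ENNReal) ≤ f t := by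
      simp only [hf]
      calc (G.card : ENNReal)
          = ∑ r ∈ G, (1 : ENNReal) := by simp
        _ = ∑ r ∈ G, V'.indicator (fun _ => (1 : ENNReal)) (t + δ * r) := by
            refine Finset.sum_congr rfl ?_
            intro r hr
            have : t + δ * r ∈ V' := subset_toMeasurable _ _ (hG2 r hr)
            rw [Set.indicator_of_mem this]
        _ ≤ _ := Finset.sum_le_sum_of_subset hG1
    refine le_trans ?_ h2
    have h3 : ((k : ENNReal) / 2) = ENNReal.ofReal ((k : ℝ) / 2) := by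
      rw [ENNReal.ofReal_div_of_pos (by norm_num)]
      simp
    rw [h3]
    refine le_trans (ENNReal.ofReal_le_ofReal h1) ?_
    simp
  have hmar := mul_meas_ge_le_lintegral (μ := (volume : Measure ℝ)) hfm ((k : ENNReal) / 2)
  rw [hint] at hmar
  have hk0 : (k : ENNReal) ≠ 0 := by exact_mod_cast hk.ne'
  have hkt : (k : ENNReal) ≠ ⊤ := ENNReal.natCast_ne_top k
  have h5 : (k : ENNReal) * volume {t | ((k : ENNReal) / 2) ≤ f t} ≤ (k : ENNReal) * (2 * volume V) := by
    have h6 : (k : ENNReal) = 2 * ((k : ENNReal) / 2) := by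
      rw [ENNReal.mul_div_cancel (by norm_num) (by norm_num)]
    calc (k : ENNReal) * volume {t | ((k : ENNReal) / 2) ≤ f t}
        = 2 * ((k : ENNReal) / 2 * volume {t | ((k : ENNReal) / 2) ≤ f t}) := by
          conv_lhs => rw [h6]
          rw [mul_assoc]
          rw [← h6]
      _ ≤ 2 * ((k : ENNReal) * volume V) := by gcongr
      _ = _ := by ring
  have h7 : volume {t | ((k : ENNReal) / 2) ≤ f t} ≤ 2 * volume V :=
    (ENNReal.mul_le_mul_iff_right hk0 hkt).1 h5
  exact (measure_mono hsub).trans h7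

theorem wq_sum_mul (F : ℕ → ℝ) (k n : ℕ) :
    ∑ i ∈ Finset.range n, ∑ r ∈ Finset.range k, F (r + k * i) = ∑ j ∈ Finset.range (n * k), F j := by
  induction n with
  | zero => simp
  | succ n ih =>
    rw [Finset.sum_range_succ, ih, add_mul, one_mul, Finset.sum_range_add]
    congr 1
    refine Finset.sum_congr rfl ?_
    intro r _
    congr 1
    ring

theorem wq (σ : ℝ → ℝ)
    (h : ∃ C : ℝ, 0 < C ∧ ∀ (A p M : ℝ) (K : ℕ), 1 ≤ A → 0 < p → p ≤ 1 → 0 ≤ M → ∃ J0 : ℕ, 1 ≤ J0 ∧ ∀ J : ℕ, J0 ≤ J →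
      ∃ T0 : ℝ, ∀ T δ : ℝ, T0 ≤ T → 1 / Real.log T ≤ δ → δ ≤ A → ∀ θ : Fin K → ℝ,
        volume {t : ℝ | t ∈ Icc T (2 * T) ∧ ∃ c : Fin K → ℂ, (∀ k, ‖c k‖ ≤ M) ∧
          ∑ j ∈ Finset.range J, ‖(σ (t + δ * j) : ℂ) - ∑ k, c k * cexp (2 * Real.pi * I * (θ k * j))‖ ^ 2 ≤
            Real.exp (-(C / p)) * J} ≤ ENNReal.ofReal (p * T)) :
    ∃ C : ℝ, 0 < C ∧ ∀ (A p M : ℝ) (K : ℕ), 1 ≤ A → 0 < p → p ≤ 1 → 0 ≤ M → ∃ J0 : ℝ, 1 ≤ J0 ∧ ∀ J : ℕ,
      ∃ T0 : ℝ, ∀ T δ : ℝ, T0 ≤ T → 0 < δ → δ ≤ A → J0 ≤ J * min 1 (δ * Real.log T) → ∀ θ : Fin K → ℝ,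
        volume {t : ℝ | t ∈ Icc T (2 * T) ∧ ∃ c : Fin K → ℂ, (∀ k, ‖c k‖ ≤ M) ∧
          ∑ j ∈ Finset.range J, ‖(σ (t + δ * j) : ℂ) - ∑ k, c k * cexp (2 * Real.pi * I * (θ k * j))‖ ^ 2 ≤
            Real.exp (-(C / p)) * J} ≤ ENNReal.ofReal (p * T) := by
  classical
  obtain ⟨C0, hC0, h⟩ := h
  refine ⟨8 * C0 + 8, by positivity, ?_⟩
  intro A p M K hA hp hp1 hM
  obtain ⟨J1, hJ1, hJ⟩ := h A (p / 8) M K hA (by positivity) (by linarith) hM
  have hex : ∀ j : ℕ, ∃ T0 : ℝ, J1 ≤ j → ∀ T δ : ℝ, T0 ≤ T → 1 / Real.log T ≤ δ → δ ≤ A → ∀ θ : Fin K → ℝ,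
        volume {t : ℝ | t ∈ Icc T (2 * T) ∧ ∃ c : Fin K → ℂ, (∀ k, ‖c k‖ ≤ M) ∧
          ∑ j ∈ Finset.range j, ‖(σ (t + δ * j) : ℂ) - ∑ k, c k * cexp (2 * Real.pi * I * (θ k * j))‖ ^ 2 ≤
            Real.exp (-(C0 / (p / 8))) * j} ≤ ENNReal.ofReal (p / 8 * T) := by
    intro j
    by_cases hj : J1 ≤ j
    · obtain ⟨T0, hT0⟩ := hJ j hj
      exact ⟨T0, fun _ => hT0⟩
    · exact ⟨0, fun h' => absurd h' hj⟩
  choose T1 hT1 using hex
  refine ⟨8 * (J1 : ℝ) + 8, by
    have : (0 : ℝ) ≤ J1 := Nat.cast_nonneg _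
    linarith, ?_⟩
  intro J
  refine ⟨∑ j ∈ Finset.range (J + 1), |T1 j| + 8 * A / p + Real.exp 2, ?_⟩
  intro T δ hT hδ hδA hJm θ
  have hsum0 : 0 ≤ ∑ j ∈ Finset.range (J + 1), |T1 j| := Finset.sum_nonneg (fun _ _ => abs_nonneg _)
  have hAp : 0 < 8 * A / p := by positivity
  have hTexp : Real.exp 2 ≤ T := by linarith
  have hTA : 8 * A / p ≤ T := by linarith [Real.exp_pos 2]
  have hT1' : ∀ j, j ≤ J → T1 j ≤ T := by
    intro j hj
    have : |T1 j| ≤ ∑ j ∈ Finset.range (J + 1), |T1 j| :=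
      Finset.single_le_sum (f := fun j => |T1 j|) (fun _ _ => abs_nonneg _) (Finset.mem_range.2 (by omega))
    linarith [le_abs_self (T1 j), Real.exp_pos 2]
  have hTpos : 0 < T := lt_of_lt_of_le (Real.exp_pos 2) hTexp
  have hlog : 2 ≤ Real.log T := by
    rw [Real.le_log_iff_exp_le hTpos]; exact hTexp
  have hexp : Real.exp (-((8 * C0 + 8) / p)) * 4 ≤ Real.exp (-(C0 / (p / 8))) := by
    have e1 : -((8 * C0 + 8) / p) = -(C0 / (p/8)) + -(8 / p) := by field_simp; ring
    rw [e1, Real.exp_add]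
    have : Real.exp (-(8/p)) * 4 ≤ 1 := by
      have h1: Real.exp (-(8/p)) ≤ Real.exp (-8) := Real.exp_le_exp.2 (by
        have : 8 ≤ 8 / p := by rw [le_div_iff₀ hp]; linarith
        linarith)
      have h2: Real.exp (-8) * 4 ≤ 1 := by
        rw [Real.exp_neg]
        have : (4:ℝ) ≤ Real.exp 8 := by linarith [Real.add_one_le_exp (8:ℝ)]
        rw [inv_mul_le_iff₀ (Real.exp_pos 8)]; linarith
      linarith
    nlinarith [Real.exp_pos (-(C0 / (p/8)))]
  have hexp0 := Real.exp_pos (-((8 * C0 + 8) / p))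
  have hpT : p / 8 * T ≤ p * T := by nlinarith
  have hJ1r : (1 : ℝ) ≤ J1 := by exact_mod_cast hJ1
  rcases le_or_gt 1 (δ * Real.log T) with hm | hm
  · rw [min_eq_left hm, mul_one] at hJm
    have hJJ : J1 ≤ J := by
      have : (J1 : ℝ) ≤ J := by linarith
      exact_mod_cast this
    have h1 := hT1 J hJJ T δ (hT1' J le_rfl) (by rw [div_le_iff₀ (by linarith)]; exact hm) hδA θ
    refine le_trans (measure_mono ?_) (le_trans h1 (ENNReal.ofReal_le_ofReal hpT))
    rintro t ⟨ht, c, hc, hs⟩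
    refine ⟨ht, c, hc, hs.trans ?_⟩
    have : Real.exp (-((8 * C0 + 8) / p)) ≤ Real.exp (-(C0 / (p / 8))) := by linarith
    exact mul_le_mul_of_nonneg_right this (Nat.cast_nonneg _)
  · rw [min_eq_right hm.le] at hJm
    set L := Real.log T with hL
    have hL0 : 0 < L := by linarith
    have hm0 : 0 < δ * L := mul_pos hδ hL0
    obtain ⟨k, hk⟩ : ∃ k : ℕ, k = ⌈1 / (δ * L)⌉₊ := ⟨_, rfl⟩
    have hk1 : 1 / (δ * L) ≤ k := by rw [hk]; exact Nat.le_ceil _
    have hk2 : (k : ℝ) < 1 / (δ * L) + 1 := by rw [hk]; exact Nat.ceil_lt_add_one (by positivity)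
    have hinv : 1 < 1 / (δ * L) := by rw [lt_div_iff₀ hm0]; linarith
    have hk3 : (k : ℝ) * (δ * L) ≤ 2 := by
      have : (k : ℝ) * (δ * L) ≤ (1 / (δ * L) + 1) * (δ * L) := by gcongr
      have h2 : (1 / (δ * L) + 1) * (δ * L) = 1 + δ * L := by field_simp
      linarith
    have hk4 : 1 ≤ (k : ℝ) * (δ * L) := by
      rw [div_le_iff₀ hm0] at hk1; exact hk1
    have hkr : (1 : ℝ) < k := lt_of_lt_of_le hinv hk1
    have hkpos : 0 < k := by
      have : (0 : ℝ) < k := by linarith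
      exact_mod_cast this
    have hkδ1 : (k : ℝ) * δ ≤ 1 := by
      have : (k : ℝ) * δ * 2 ≤ (k : ℝ) * δ * L := by gcongr
      nlinarith
    have hkδ2 : 1 / L ≤ (k : ℝ) * δ := by
      rw [div_le_iff₀ hL0]; nlinarith
    set J' := J / k with hJ'
    have hJ'k : J' * k ≤ J := Nat.div_mul_le_self J k
    have hJ'k2 : J < (J' + 1) * k := by
      have := Nat.lt_div_mul_add (a := J) hkpos
      rw [add_mul, one_mul]; exact this
    have hJ'r : (J : ℝ) < ((J' : ℝ) + 1) * k := by exact_mod_cast hJ'k2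
    have hJJ1 : J1 ≤ J' := by
      have h1 : (8 : ℝ) * J1 + 8 ≤ ((J' : ℝ) + 1) * 2 := by
        calc (8 : ℝ) * J1 + 8 ≤ J * (δ * L) := hJm
          _ ≤ ((J' : ℝ) + 1) * k * (δ * L) := by gcongr
          _ = ((J' : ℝ) + 1) * (k * (δ * L)) := by ring
          _ ≤ ((J' : ℝ) + 1) * 2 := by gcongr
      have : (J1 : ℝ) ≤ J' := by linarith
      exact_mod_cast this
    have hJ'1 : (1 : ℝ) ≤ J' := by
      have : (J1 : ℝ) ≤ J' := by exact_mod_cast hJJ1
      linarith
    have hJ2 : (J : ℝ) ≤ 2 * J' * k := by nlinarith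
    have hJ'J : J' ≤ J := Nat.div_le_self J k
    have hV := hT1 J' hJJ1 T (k * δ) (hT1' J' hJ'J) hkδ2 (by linarith) (fun l => k * θ l)
    set V : Set ℝ := {t : ℝ | t ∈ Icc T (2 * T) ∧ ∃ c : Fin K → ℂ, (∀ k, ‖c k‖ ≤ M) ∧
          ∑ j ∈ Finset.range J', ‖(σ (t + k * δ * j) : ℂ) -
            ∑ l, c l * cexp (2 * Real.pi * I * (((fun l => k * θ l) l : ℝ) * j))‖ ^ 2 ≤
            Real.exp (-(C0 / (p / 8))) * J'} with hVdef
    set U : Set ℝ := {t : ℝ | t ∈ Icc T (2 * T) ∧ ∃ c : Fin K → ℂ, (∀ k, ‖c k‖ ≤ M) ∧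
          ∑ j ∈ Finset.range J, ‖(σ (t + δ * j) : ℂ) - ∑ k, c k * cexp (2 * Real.pi * I * (θ k * j))‖ ^ 2 ≤
            Real.exp (-((8 * C0 + 8) / p)) * J} with hUdef
    have hkey : ∀ t ∈ U ∩ Iic (2 * T - A), ∃ G : Finset ℕ, G ⊆ Finset.range k ∧
        (∀ r ∈ G, t + δ * (r : ℝ) ∈ V) ∧ (k : ℝ) / 2 ≤ (G.card : ℝ) := by
      rintro t ⟨⟨ht, c, hc, hs⟩, ht2⟩
      have ht2' : t ≤ 2 * T - A := ht2
      set F : ℕ → ℝ := fun j => ‖(σ (t + δ * j) : ℂ) -
        ∑ k, c k * cexp (2 * Real.pi * I * (θ k * j))‖ ^ 2 with hF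
      have hF0 : ∀ j, 0 ≤ F j := fun j => by positivity
      set S : ℕ → ℝ := fun r => ∑ i ∈ Finset.range J', F (r + k * i) with hS
      have hS0 : ∀ r, 0 ≤ S r := fun r => Finset.sum_nonneg (fun i _ => hF0 _)
      have hsumS : ∑ r ∈ Finset.range k, S r = ∑ j ∈ Finset.range (J' * k), F j := by
        simp only [hS]
        rw [Finset.sum_comm, wq_sum_mul]
      have htot : ∑ r ∈ Finset.range k, S r ≤ Real.exp (-((8 * C0 + 8) / p)) * (2 * J' * k) := by
        rw [hsumS]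
        refine (Finset.sum_le_sum_of_subset_of_nonneg (Finset.range_mono hJ'k)
          (fun i _ _ => hF0 i)).trans (hs.trans ?_)
        exact mul_le_mul_of_nonneg_left hJ2 hexp0.le
      set E0 := Real.exp (-(C0 / (p / 8))) with hE0
      set E := Real.exp (-((8 * C0 + 8) / p)) with hE
      refine ⟨(Finset.range k).filter (fun r => S r ≤ E0 * J'), Finset.filter_subset _ _, ?_, ?_⟩
      · intro r hr
        obtain ⟨hr1, hr2⟩ := Finset.mem_filter.1 hr
        have hrk : (r : ℝ) ≤ k := by exact_mod_cast (Finset.mem_range.1 hr1).le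
        have hδr : δ * (r : ℝ) ≤ 1 := by nlinarith
        have hδr0 : 0 ≤ δ * (r : ℝ) := by positivity
        refine ⟨⟨by linarith [ht.1], by linarith⟩, fun l => c l * cexp (2 * Real.pi * I * (θ l * r)), ?_, ?_⟩
        · intro l
          have : ‖cexp (2 * Real.pi * I * (θ l * r))‖ = 1 := by
            have e : (2 * Real.pi * I * (θ l * r) : ℂ) = ((2 * Real.pi * (θ l * r) : ℝ) : ℂ) * I := by
              push_cast; ring
            rw [e, Complex.norm_exp_ofReal_mul_I]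
          rw [norm_mul, this, mul_one]
          exact hc l
        · refine le_trans (le_of_eq ?_) hr2
          simp only [hS, hF]
          refine Finset.sum_congr rfl ?_
          intro i _
          have e1 : t + δ * (r : ℝ) + k * δ * i = t + δ * ((r + k * i : ℕ) : ℝ) := by
            push_cast; ring
          rw [e1]
          congr 3
          refine Finset.sum_congr rfl ?_
          intro l _
          rw [mul_assoc, ← Complex.exp_add]
          congr 2
          push_cast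
          ring
      · have hcard := Finset.card_filter_add_card_filter_not (s := Finset.range k) (fun r => S r ≤ E0 * J')
        rw [Finset.card_range] at hcard
        set B := (Finset.range k).filter (fun r => ¬ S r ≤ E0 * J') with hB
        have h1 : (B.card : ℝ) * (E0 * J') ≤ E * (2 * J' * k) := by
          refine le_trans ?_ htot
          calc (B.card : ℝ) * (E0 * J') = ∑ r ∈ B, E0 * J' := by
                rw [Finset.sum_const, nsmul_eq_mul]
            _ ≤ ∑ r ∈ B, S r := Finset.sum_le_sum (fun r hr => (not_le.1 (Finset.mem_filter.1 hr).2).le)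
            _ ≤ ∑ r ∈ Finset.range k, S r :=
                Finset.sum_le_sum_of_subset_of_nonneg (Finset.filter_subset _ _) (fun i _ _ => hS0 i)
        have h2 : (B.card : ℝ) * (E * 4 * J') ≤ E * (2 * J' * k) := by
          refine le_trans ?_ h1
          gcongr
        have h3 : (B.card : ℝ) * 4 ≤ 2 * k := by
          have hEJ : 0 < E * J' := mul_pos hexp0 (by linarith)
          have : (E * J') * ((B.card : ℝ) * 4) ≤ (E * J') * (2 * k) := by linarith
          exact le_of_mul_le_mul_left this hEJ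
        have h4 : (((Finset.range k).filter (fun r => S r ≤ E0 * J')).card : ℝ) + (B.card : ℝ) = k := by
          exact_mod_cast hcard
        linarith
    have h1 := wq_translates V (U ∩ Iic (2 * T - A)) δ k hkpos hkey
    have hsplit : U ⊆ (U ∩ Iic (2 * T - A)) ∪ Icc (2 * T - A) (2 * T) := by
      intro t ht
      rcases le_or_gt t (2 * T - A) with h' | h'
      · exact Or.inl ⟨ht, h'⟩
      · exact Or.inr ⟨h'.le, ht.1.2⟩
    calc volume U ≤ volume ((U ∩ Iic (2 * T - A)) ∪ Icc (2 * T - A) (2 * T)) := measure_mono hsplit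
      _ ≤ volume (U ∩ Iic (2 * T - A)) + volume (Icc (2 * T - A) (2 * T)) := measure_union_le _ _
      _ ≤ 2 * ENNReal.ofReal (p / 8 * T) + ENNReal.ofReal (2 * T - (2 * T - A)) := by
          gcongr
          · exact h1.trans (by gcongr)
          · rw [Real.volume_Icc]
      _ = ENNReal.ofReal (2 * (p / 8 * T)) + ENNReal.ofReal (2 * T - (2 * T - A)) := by
          rw [ENNReal.ofReal_mul (p := 2) (q := p / 8 * T) (by norm_num)]; simp
      _ = ENNReal.ofReal (2 * (p / 8 * T) + (2 * T - (2 * T - A))) := by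
          rw [← ENNReal.ofReal_add (by positivity) (by linarith)]
      _ ≤ ENNReal.ofReal (p * T) := by
          apply ENNReal.ofReal_le_ofReal
          have : 8 * A ≤ T * p := by rwa [div_le_iff₀ hp] at hTA
          nlinarith

end Pool.Agent.Helper647.SG.JWQ
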