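import Pool.Agent.Helper647_SG.Lat0

set_option autoImplicit false

/-! The theorem for lattices of mesh between `1 / log T` and `A / log T`. -/

namespace Pool.Agent.Helper647.SG

open Complex Filter Topology MeasureTheory Set
open Pool.Agent.Helper647.PT (al bR Bz Pz Yn Nn F1 KE cr cr_add fz Yn_le Yn_pos Nn_ge Nn_le bR_abs bR_one zp sizes)
open Pool.Agent.R304.GR (vt psi exp_vt)

theorem lat0 (A : ℝ) (hA : 1 ≤ A) : ∃ η T0 : ℝ, 0 < η ∧ 8 ≤ T0 ∧ ∀ (T δ u0 : ℝ) (m1 m2 : ℤ) (O : Set ℤ),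
    T0 ≤ T → 1 / Real.log T ≤ δ → δ ≤ A / Real.log T →
    T + T ^ (1 / 20 : ℝ) ≤ u0 + δ * m1 → u0 + δ * m2 ≤ 2 * T - T ^ (1 / 20 : ℝ) →
    T / (2 * δ) ≤ (m2 : ℝ) - m1 →
    (∀ i k : ℤ, i ≤ k → (∀ j : ℤ, i ≤ j → j < k → j ∉ O) → 0 ≤ XS T (u0 + δ * i) * XS T (u0 + δ * k)) →
    η * (T * Real.log T) ≤ ({j : ℤ | m1 ≤ j ∧ j < m2 ∧ j ∈ O}.ncard : ℝ) := by
  obtain ⟨E, C, c0, hC, hc0, hEc, hEl, hEd, hElow, hEft⟩ := Pool.Agent.Helper647.PT.ker
  have hE : KE E C c0 := ⟨hC, hc0, hEc, hEl, hEd, hElow, hEft⟩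
  obtain ⟨C2, hC2, hsm⟩ := sj E C c0 hE
  obtain ⟨C3, T3, hC3, hT3, hSM⟩ := SM2
  obtain ⟨C1, hC1, hsp⟩ := JSP.sp JKR.kr
  obtain ⟨T1, hT1, hFM⟩ := fdm A hA
  obtain ⟨T5, hT5, hloc⟩ := loc'
  obtain ⟨T6, hT6, hsz⟩ := szs
  have hA0 : 0 < A := by linarith
  obtain ⟨J, η, D, hJ, hη, hD, hfin⟩ := JDF.df (fun v => E v ^ 2) (C ^ 2) (16 * c0) (6 * A * C1 * C2 + C1)
    (6 * A * C1 * C3 + C1) (hEc.pow 2)
    (fun v => sq_nonneg _) (fun v => hE.sq_pow (by norm_num) v) (by positivity) (by positivity) (by positivity)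
  obtain ⟨T2, hT2, hsm'⟩ := hsm 1 J le_rfl hJ
  have hJ1 : (8 : ℝ) ≤ J := by exact_mod_cast hJ
  have hev : ∀ᶠ T : ℝ in atTop, 32 * (J : ℝ) * A + D * (2 * A) ≤ T ∧
      16 * (J : ℝ) + 3 * C ^ 2 + 2 ^ 71 + 2 * A ≤ T ^ (1 / 60 : ℝ) ∧ A ≤ Real.log T := by
    filter_upwards [eventually_ge_atTop (32 * (J : ℝ) * A + D * (2 * A)),
      (tendsto_rpow_atTop (show (0 : ℝ) < 1 / 60 by norm_num)).eventually_ge_atTop
        (16 * (J : ℝ) + 3 * C ^ 2 + 2 ^ 71 + 2 * A),
      Real.tendsto_log_atTop.eventually_ge_atTop A] with T b1 b2 b3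
    exact ⟨b1, b2, b3⟩
  obtain ⟨T4, hT4⟩ := hev.exists_forall_of_atTop
  refine ⟨η / (2 * A), max (max (max T1 T2) (max T3 T4)) (max T5 T6), by positivity,
    hT1.trans ((le_max_left _ _).trans ((le_max_left _ _).trans (le_max_left _ _))), ?_⟩
  intro T δ u0 m1 m2 O hT hδ1 hδ2 ha hb hP hO
  have hTT1 : T1 ≤ T := ((le_max_left _ _).trans ((le_max_left _ _).trans (le_max_left _ _))).trans hT
  have hTT2 : T2 ≤ T := ((le_max_right _ _).trans ((le_max_left _ _).trans (le_max_left _ _))).trans hT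
  have hTT3 : T3 ≤ T := ((le_max_left _ _).trans ((le_max_right _ _).trans (le_max_left _ _))).trans hT
  have hTT4 : T4 ≤ T := ((le_max_right _ _).trans ((le_max_right _ _).trans (le_max_left _ _))).trans hT
  have hTT5 : T5 ≤ T := ((le_max_left _ _).trans (le_max_right _ _)).trans hT
  have hTT6 : T6 ≤ T := ((le_max_right _ _).trans (le_max_right _ _)).trans hT
  have hT8 : 8 ≤ T := hT1.trans hTT1
  have hT0 : 0 < T := by linarith
  obtain ⟨g1, g2, g3⟩ := hT4 T hTT4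
  obtain ⟨z1, z2, z3, z4⟩ := hsz T hTT6
  have hlT0 : 0 < Real.log T := by linarith
  have hδ0 : 0 < δ := lt_of_lt_of_le (one_div_pos.2 hlT0) hδ1
  have hδle1 : δ ≤ 1 := hδ2.trans ((div_le_one hlT0).2 g3)
  have hδA : δ ≤ A := hδ2.trans (div_le_self hA0.le z1)
  -- the powers of T
  obtain ⟨z, hz⟩ : ∃ z : ℝ, z = T ^ (1 / 60 : ℝ) := ⟨_, rfl⟩
  rw [← hz] at g2
  have hC2' : 0 ≤ C ^ 2 := sq_nonneg C
  have hz1 : 2 ^ 71 ≤ z := by
    have : 0 ≤ 16 * (J : ℝ) := by positivity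
    have : 0 ≤ 3 * C ^ 2 := by positivity
    linarith
  have hz2 : 16 * (J : ℝ) ≤ z := by
    have : 0 ≤ 3 * C ^ 2 := by positivity
    have : (0 : ℝ) ≤ 2 ^ 71 := by positivity
    linarith
  have hz3 : 3 * C ^ 2 ≤ z := by
    have : 0 ≤ 16 * (J : ℝ) := by positivity
    have : (0 : ℝ) ≤ 2 ^ 71 := by positivity
    linarith
  have hz4 : 2 * A ≤ z := by
    have : 0 ≤ 16 * (J : ℝ) := by positivity
    have : 0 ≤ 3 * C ^ 2 := by positivity
    have : (0 : ℝ) ≤ 2 ^ 71 := by positivity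
    linarith
  have hz5 : (16 : ℝ) ≤ z := le_trans (by norm_num) hz1
  have hz0 : 0 < z := by linarith
  have e20 : T ^ (1 / 20 : ℝ) = z ^ 3 := by
    rw [hz, ← Real.rpow_natCast, ← Real.rpow_mul hT0.le]; norm_num
  have e30 : T ^ (1 / 30 : ℝ) = z ^ 2 := by
    rw [hz, ← Real.rpow_natCast, ← Real.rpow_mul hT0.le]; norm_num
  have e10 : T ^ (-(1 / 10) : ℝ) = (z ^ 6)⁻¹ := by
    rw [hz, ← Real.rpow_natCast, ← Real.rpow_mul hT0.le, ← Real.rpow_neg hT0.le]; norm_num
  have e51 : T ^ (51 / 100 : ℝ) ≤ z ^ 31 := by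
    rw [hz, ← Real.rpow_natCast, ← Real.rpow_mul hT0.le]
    exact Real.rpow_le_rpow_of_exponent_le (by linarith) (by norm_num)
  set M : ℕ := ⌊T ^ (1 / 30 : ℝ)⌋₊ with hM
  have hMle : (M : ℝ) ≤ z ^ 2 := by rw [← e30]; exact Nat.floor_le (Real.rpow_nonneg hT0.le _)
  have hMJ : 16 * J ≤ M := by
    rw [hM]
    apply Nat.le_floor
    push_cast
    rw [e30]
    nlinarith
  -- the range
  set P : ℝ := (m2 : ℝ) - m1 with hPd
  have hP0 : 0 < P := lt_of_lt_of_le (by positivity) hP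
  have hm : m1 ≤ m2 := by
    have : (m1 : ℝ) ≤ m2 := by linarith
    exact_mod_cast this
  have hTP : T * Real.log T ≤ 2 * A * P := by
    have h1 : T / (2 * (A / Real.log T)) ≤ T / (2 * δ) :=
      div_le_div_of_nonneg_left hT0.le (by positivity) (by linarith)
    have h2 : T / (2 * (A / Real.log T)) = T * Real.log T / (2 * A) := by
      field_simp
    rw [h2] at h1
    have h3 := h1.trans hP
    rw [div_le_iff₀ (by positivity)] at h3
    linarith
  have hcard : ((Finset.Ico m1 m2).card : ℝ) = P := by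
    rw [Int.card_Ico]
    have h9 : (((m2 - m1).toNat : ℕ) : ℤ) = m2 - m1 := Int.toNat_of_nonneg (by omega)
    have h10 : ((((m2 - m1).toNat : ℕ) : ℤ) : ℝ) = ((m2 - m1 : ℤ) : ℝ) := by rw [h9]
    push_cast at h10
    rw [hPd]
    exact h10
  have hrange : ∀ k ∈ Finset.Ico m1 m2, T + z ^ 3 ≤ u0 + δ * k ∧ u0 + δ * k ≤ 2 * T - z ^ 3 := by
    intro k hk
    rw [Finset.mem_Ico] at hk
    have k1 : (m1 : ℝ) ≤ k := by exact_mod_cast hk.1
    have k2 : (k : ℝ) ≤ m2 := by exact_mod_cast hk.2.le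
    have k3 : δ * m1 ≤ δ * k := mul_le_mul_of_nonneg_left k1 hδ0.le
    have k4 : δ * k ≤ δ * m2 := mul_le_mul_of_nonneg_left k2 hδ0.le
    rw [e20] at ha hb
    constructor <;> linarith
  have hshift : ∀ j ∈ Finset.Icc (-(M : ℤ)) M, |δ * (j : ℝ)| ≤ z ^ 3 / 2 := by
    intro j hj
    rw [Finset.mem_Icc] at hj
    have hj1 : -(M : ℝ) ≤ j := by exact_mod_cast hj.1
    have hj2 : (j : ℝ) ≤ M := by exact_mod_cast hj.2
    rw [abs_mul, abs_of_pos hδ0]
    have h3 : |(j : ℝ)| ≤ z ^ 2 := (abs_le.2 ⟨hj1, hj2⟩).trans hMle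
    calc δ * |(j : ℝ)| ≤ A * z ^ 2 := mul_le_mul hδA h3 (abs_nonneg _) hA0.le
      _ ≤ (z / 2) * z ^ 2 := mul_le_mul_of_nonneg_right (by linarith) (by positivity)
      _ = z ^ 3 / 2 := by ring
  have hz3' : 2 * z ≤ z ^ 3 := by nlinarith [mul_pos hz0 hz0]
  -- the parameters of the sampling inequality
  have hρ1 : 1 ≤ z ^ 3 / 2 := by linarith
  have hρ70 : z ^ 210 / 2 ^ 70 = (z ^ 3 / 2) ^ 70 := by
    rw [div_pow, ← pow_mul]
  have hfreq : ∀ v : ℝ, T ≤ v → v ≤ 2 * T → ∀ q ∈ tri (Nn T) (Yn T), |psi v - lm q| ≤ 3 * Real.log T := by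
    intro v h1 h2 q hq
    have h3 := z4 v h1 h2
    have h4 := z2 q hq
    have h5 := abs_sub (psi v) (lm q)
    linarith
  have hexp : ∀ v : ℝ, T ≤ v → v ≤ 2 * T → ∀ y x : ℝ, |y + x| ≤ z ^ 3 →
      ‖((XS T (v + (y + x)) : ℝ) : ℂ) - ∑ q ∈ tri (Nn T) (Yn T), lac T v y q *
        cexp (I * ((psi v - lm q : ℝ) : ℂ) * x)‖ ≤ (z ^ 6)⁻¹ := by
    intro v h1 h2 y x h3
    have h4 := hloc T v (y + x) hTT5 h1 h2 (by rw [e20]; exact h3)
    rw [lac_exp, e10] at h4
    exact h4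
  have hz6 : (z ^ 6)⁻¹ ≤ 1 / 2 := by
    rw [one_div]
    apply inv_anti₀ (by norm_num)
    have : (1 : ℝ) ≤ z ^ 5 := one_le_pow₀ (by linarith)
    nlinarith [pow_succ z 5]
  have key : ∀ (g : ℝ → ℝ) (K v0 : ℝ), Continuous g →
      (∫ t in T..(2 * T), g t ^ 2 ≤ K * T) → 0 ≤ K →
      (∀ k ∈ Finset.Ico m1 m2, T + z ^ 3 / 2 ≤ v0 + δ * k ∧ v0 + δ * k ≤ 2 * T - z ^ 3 / 2) →
      (∀ k ∈ Finset.Ico m1 m2, ∃ (s : Finset (ℕ × ℕ × ℕ)) (c : ℕ × ℕ × ℕ → ℂ) (w : ℕ × ℕ × ℕ → ℝ),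
        (∀ i ∈ s, |w i| ≤ 3 * Real.log T) ∧ ∑ i ∈ s, ‖c i‖ ≤ z ^ 35 / 2 ^ 71 ∧
        ∀ x : ℝ, |x| ≤ z ^ 3 / 2 → ‖((g (v0 + δ * k + x) : ℝ) : ℂ) - ∑ i ∈ s, c i * cexp (I * w i * x)‖ ≤ 1 / 2) →
      ∑ k ∈ Finset.Ico m1 m2, g (v0 + δ * k) ^ 2 ≤ (6 * A * C1 * K + C1) * P := by
    intro g K v0 hg hI hK hr hloc'
    have h1 := hsp v0 δ (3 * Real.log T) (z ^ 3 / 2) (1 / 2) (z ^ 35 / 2 ^ 71) T (2 * T) m1 m2 g hg (by linarith) hδ0
      (by
        have h2 : 1 ≤ Real.log T * δ := by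
          rw [div_le_iff₀ hlT0] at hδ1
          linarith
        linarith) hρ1 (by norm_num) (by positivity) (by linarith) hr
      (fun k hk => by
        obtain ⟨s, c, w, k1, k2, k3⟩ := hloc' k hk
        exact ⟨ℕ × ℕ × ℕ, s, c, w, k1, k2, k3⟩)
    refine h1.trans ?_
    rw [hcard, ← hρ70]
    have h3 : z ^ 35 / 2 ^ 71 / (z ^ 210 / 2 ^ 70) ≤ 1 / 2 := by
      have h4 : z ^ 35 / 2 ^ 71 / (z ^ 210 / 2 ^ 70) = 1 / 2 * (z ^ 35 / z ^ 210) := by
        field_simp
      rw [h4]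
      have h5 : z ^ 35 / z ^ 210 ≤ 1 := by
        rw [div_le_one (by positivity)]
        exact pow_le_pow_right₀ (by linarith) (by norm_num)
      linarith
    have h6 : 0 ≤ z ^ 35 / 2 ^ 71 / (z ^ 210 / 2 ^ 70) := by positivity
    have h7 : (1 / 2 + z ^ 35 / 2 ^ 71 / (z ^ 210 / 2 ^ 70)) ^ 2 ≤ 1 := by
      apply pow_le_one₀ (by linarith) (by linarith)
    have h8 : C1 * (3 * Real.log T) * ∫ t in T..(2 * T), g t ^ 2 ≤ 6 * A * C1 * K * P := by
      calc C1 * (3 * Real.log T) * ∫ t in T..(2 * T), g t ^ 2 ≤ C1 * (3 * Real.log T) * (K * T) :=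
            mul_le_mul_of_nonneg_left hI (by positivity)
        _ = 3 * C1 * K * (T * Real.log T) := by ring
        _ ≤ 3 * C1 * K * (2 * A * P) := mul_le_mul_of_nonneg_left hTP (by positivity)
        _ = _ := by ring
    have h9 : C1 * P * (1 / 2 + z ^ 35 / 2 ^ 71 / (z ^ 210 / 2 ^ 70)) ^ 2 ≤ C1 * P * 1 :=
      mul_le_mul_of_nonneg_left h7 (by positivity)
    linarith
  have hres := hfin M m1 m2 (fun k => XS T (u0 + δ * k)) O ?_ ?_ ?_ ?_ ?_
  · calc η / (2 * A) * (T * Real.log T) ≤ η / (2 * A) * (2 * A * P) :=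
          mul_le_mul_of_nonneg_left hTP (by positivity)
      _ = η * P := by field_simp
      _ ≤ _ := hres
  · -- D ≤ P
    have h1 : D * (2 * A) ≤ T := by
      have : 0 ≤ 32 * (J : ℝ) * A := by positivity
      linarith
    have h2 : T * 1 ≤ T * Real.log T := mul_le_mul_of_nonneg_left z1 hT0.le
    have h3 : D * (2 * A) ≤ P * (2 * A) := by linarith
    exact le_of_mul_le_mul_right h3 (by positivity)
  · -- the first moment
    have hsub : Finset.Icc (-(16 * J : ℕ) : ℤ) (16 * J : ℕ) ⊆ Finset.Icc (-(M : ℤ)) M := by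
      apply Finset.Icc_subset_Icc
      · have : ((16 * J : ℕ) : ℤ) ≤ M := by exact_mod_cast hMJ
        omega
      · exact_mod_cast hMJ
    rw [Finset.sum_comm]
    have hnn : ∀ j ∈ Finset.Icc (-(M : ℤ)) M, j ∉ Finset.Icc (-(16 * J : ℕ) : ℤ) (16 * J : ℕ) →
        0 ≤ ∑ k ∈ Finset.Ico m1 m2, |XS T (u0 + δ * ((k + j : ℤ) : ℝ))| * (E (j / (16 * J)) ^ 2) := by
      intro j _ _
      exact Finset.sum_nonneg fun k _ => by positivity
    refine le_trans ?_ (Finset.sum_le_sum_of_subset_of_nonneg hsub hnn)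
    have hterm : ∀ j ∈ Finset.Icc (-(16 * J : ℕ) : ℤ) (16 * J : ℕ), c0 * (P / 2) ≤
        ∑ k ∈ Finset.Ico m1 m2, |XS T (u0 + δ * ((k + j : ℤ) : ℝ))| * (E (j / (16 * J)) ^ 2) := by
      intro j hj
      rw [Finset.mem_Icc] at hj
      have hj1 : -(16 * (J : ℝ)) ≤ j := by exact_mod_cast hj.1
      have hj2 : (j : ℝ) ≤ 16 * (J : ℝ) := by exact_mod_cast hj.2
      have h1 : c0 ≤ E (j / (16 * J)) ^ 2 := by
        apply hElow
        rw [abs_div, abs_of_pos (show (0 : ℝ) < 16 * J by positivity), div_le_one (by positivity), abs_le]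
        exact ⟨hj1, hj2⟩
      rw [← Finset.sum_mul]
      have h2 : |δ * j| ≤ T / 2 := by
        rw [abs_mul, abs_of_pos hδ0]
        have h3 : |(j : ℝ)| ≤ 16 * J := abs_le.2 ⟨hj1, hj2⟩
        calc δ * |(j : ℝ)| ≤ A * (16 * J) := mul_le_mul hδA h3 (abs_nonneg _) (by linarith)
          _ ≤ _ := by
            have : 0 ≤ D * (2 * A) := by positivity
            linarith
      rw [abs_le] at h2
      have hz30 : 0 < z ^ 3 := by positivity
      rw [e20] at ha hb
      have h4 := hFM T δ (u0 + δ * j) m1 m2 hTT1 hδ1 hδ2 hm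
        (le_trans (div_le_div_of_nonneg_left hT0.le (by positivity) (by linarith)) hP) (by linarith) (by linarith)
      have e2 : ∑ k ∈ Finset.Ico m1 m2, |XS T (u0 + δ * ((k + j : ℤ) : ℝ))| =
          ∑ k ∈ Finset.Ico m1 m2, |XS T (u0 + δ * j + δ * k)| := by
        refine Finset.sum_congr rfl fun k _ => ?_
        congr 2
        push_cast
        ring
      rw [e2]
      have h5 : 0 ≤ ∑ k ∈ Finset.Ico m1 m2, |XS T (u0 + δ * j + δ * k)| :=
        Finset.sum_nonneg fun k _ => abs_nonneg _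
      calc c0 * (P / 2) = (1 / 2 * P) * c0 := by ring
        _ ≤ (∑ k ∈ Finset.Ico m1 m2, |XS T (u0 + δ * j + δ * k)|) * E (j / (16 * J)) ^ 2 :=
          mul_le_mul h4 h1 hc0.le h5
    refine le_trans ?_ (Finset.sum_le_sum hterm)
    rw [Finset.sum_const, Int.card_Icc, nsmul_eq_mul]
    have e3 : ((((16 * J : ℕ) : ℤ) + 1 - (-(16 * J : ℕ) : ℤ)).toNat : ℝ) = 32 * J + 1 := by
      have : ((((16 * J : ℕ) : ℤ) + 1 - (-(16 * J : ℕ) : ℤ)).toNat) = 32 * J + 1 := by omega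
      rw [this]; push_cast; ring
    rw [e3]
    have : 0 ≤ c0 * P := by positivity
    nlinarith
  · -- the second moment of the sums
    have hgoal : ∑ k ∈ Finset.Ico m1 m2, SS E T δ (16 * J * δ) M (u0 + δ * k) ^ 2 ≤
        (6 * A * C1 * (C2 * (J : ℝ) ^ (3 / 2 : ℝ)) + C1) * P := by
      refine key (SS E T δ (16 * J * δ) M) (C2 * (J : ℝ) ^ (3 / 2 : ℝ)) u0 ?_ ?_ (by positivity) ?_ ?_
      · unfold SS
        refine continuous_finsetSum _ fun j _ => ?_
        exact ((cont T).comp (continuous_id.add continuous_const)).mul continuous_const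
      · exact hsm' T δ hTT2 hδ1 hδle1
      · intro k hk
        obtain ⟨k1, k2⟩ := hrange k hk
        constructor <;> linarith
      · intro k hk
        obtain ⟨k1, k2⟩ := hrange k hk
        set v := u0 + δ * k with hv
        have hv1 : T ≤ v := by linarith
        have hv2 : v ≤ 2 * T := by linarith
        refine ⟨tri (Nn T) (Yn T), fun q => ∑ j ∈ Finset.Icc (-(M : ℤ)) M,
          lac T v (δ * j) q * ((E (δ * j / (16 * J * δ)) ^ 2 : ℝ) : ℂ), fun q => psi v - lm q,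
          fun q hq => hfreq v hv1 hv2 q hq, ?_, ?_⟩
        · have hE2 : ∀ x : ℝ, E x ^ 2 ≤ C ^ 2 := by
            intro x
            have h1 : E x ^ 2 ≤ C ^ 2 / (1 + x ^ 2) ^ 2 := hE.sq_pow (by norm_num) x
            refine h1.trans (div_le_self (sq_nonneg _) ?_)
            have : 0 ≤ x ^ 2 := sq_nonneg x
            nlinarith
          calc ∑ q ∈ tri (Nn T) (Yn T), ‖∑ j ∈ Finset.Icc (-(M : ℤ)) M,
                lac T v (δ * j) q * ((E (δ * j / (16 * J * δ)) ^ 2 : ℝ) : ℂ)‖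
              ≤ ∑ q ∈ tri (Nn T) (Yn T), (2 * M + 1) * C ^ 2 * |cf (bR (Real.log T)) q| := by
                refine Finset.sum_le_sum fun q _ => (norm_sum_le _ _).trans ?_
                calc _ ≤ ∑ j ∈ Finset.Icc (-(M : ℤ)) M, |cf (bR (Real.log T)) q| * C ^ 2 := by
                      refine Finset.sum_le_sum fun j _ => ?_
                      rw [norm_mul, lac_norm, Complex.norm_real, Real.norm_eq_abs,
                        abs_of_nonneg (sq_nonneg (E (δ * j / (16 * J * δ))))]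
                      exact mul_le_mul_of_nonneg_left (hE2 _) (abs_nonneg _)
                  _ = _ := by
                      rw [Finset.sum_const, Int.card_Icc, nsmul_eq_mul]
                      have : ((((M : ℕ) : ℤ) + 1 - (-(M : ℕ) : ℤ)).toNat : ℝ) = 2 * M + 1 := by
                        have : ((((M : ℕ) : ℤ) + 1 - (-(M : ℕ) : ℤ)).toNat) = 2 * M + 1 := by omega
                        rw [this]; push_cast; ring
                      rw [this]
                      ring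
            _ = (2 * M + 1) * C ^ 2 * ∑ q ∈ tri (Nn T) (Yn T), |cf (bR (Real.log T)) q| := by
                rw [← Finset.mul_sum]
            _ ≤ (3 * z ^ 2) * C ^ 2 * z ^ 31 := by
                have h1 : 2 * (M : ℝ) + 1 ≤ 3 * z ^ 2 := by nlinarith
                refine mul_le_mul (mul_le_mul_of_nonneg_right h1 (sq_nonneg _)) (z3.trans e51)
                  (Finset.sum_nonneg fun q _ => abs_nonneg _) (by positivity)
            _ = (3 * C ^ 2) * z ^ 33 := by ring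
            _ ≤ z * z ^ 33 := mul_le_mul_of_nonneg_right hz3 (by positivity)
            _ = z ^ 34 := by ring
            _ ≤ z ^ 35 / 2 ^ 71 := by
                rw [le_div_iff₀ (by positivity), pow_succ z 34]
                exact mul_le_mul_of_nonneg_left hz1 (by positivity)
        · intro x hx
          have hE2 : ∀ x : ℝ, E x ^ 2 ≤ C ^ 2 := by
            intro x
            have h1 : E x ^ 2 ≤ C ^ 2 / (1 + x ^ 2) ^ 2 := hE.sq_pow (by norm_num) x
            refine h1.trans (div_le_self (sq_nonneg _) ?_)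
            have : 0 ≤ x ^ 2 := sq_nonneg x
            nlinarith
          have e1 : ∑ q ∈ tri (Nn T) (Yn T), (∑ j ∈ Finset.Icc (-(M : ℤ)) M,
              lac T v (δ * j) q * ((E (δ * j / (16 * J * δ)) ^ 2 : ℝ) : ℂ)) *
                cexp (I * ((psi v - lm q : ℝ) : ℂ) * x) =
              ∑ j ∈ Finset.Icc (-(M : ℤ)) M, (∑ q ∈ tri (Nn T) (Yn T), lac T v (δ * j) q *
                cexp (I * ((psi v - lm q : ℝ) : ℂ) * x)) * ((E (δ * j / (16 * J * δ)) ^ 2 : ℝ) : ℂ) := by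
            simp only [Finset.sum_mul]
            rw [Finset.sum_comm]
            refine Finset.sum_congr rfl fun j _ => Finset.sum_congr rfl fun q _ => ?_
            ring
          have e2 : ((SS E T δ (16 * J * δ) M (v + x) : ℝ) : ℂ) = ∑ j ∈ Finset.Icc (-(M : ℤ)) M,
              ((XS T (v + (δ * j + x)) : ℝ) : ℂ) * ((E (δ * j / (16 * J * δ)) ^ 2 : ℝ) : ℂ) := by
            unfold SS
            rw [Complex.ofReal_sum]
            refine Finset.sum_congr rfl fun j _ => ?_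
            rw [Complex.ofReal_mul]
            congr 3
            ring
          rw [e1, e2, ← Finset.sum_sub_distrib]
          calc _ ≤ ∑ j ∈ Finset.Icc (-(M : ℤ)) M, (z ^ 6)⁻¹ * C ^ 2 := by
                refine (norm_sum_le _ _).trans (Finset.sum_le_sum fun j hj => ?_)
                rw [← sub_mul, norm_mul, Complex.norm_real, Real.norm_eq_abs, abs_of_nonneg (sq_nonneg _)]
                refine mul_le_mul (hexp v hv1 hv2 (δ * j) x ?_) (hE2 _) (sq_nonneg _) (by positivity)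
                have h1 := hshift j hj
                have h2 := abs_add_le (δ * (j : ℝ)) x
                linarith
            _ = (2 * M + 1) * ((z ^ 6)⁻¹ * C ^ 2) := by
                rw [Finset.sum_const, Int.card_Icc, nsmul_eq_mul]
                have : ((((M : ℕ) : ℤ) + 1 - (-(M : ℕ) : ℤ)).toNat : ℝ) = 2 * M + 1 := by
                  have : ((((M : ℕ) : ℤ) + 1 - (-(M : ℕ) : ℤ)).toNat) = 2 * M + 1 := by omega
                  rw [this]; push_cast; ring
                rw [this]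
            _ ≤ (3 * z ^ 2) * ((z ^ 6)⁻¹ * C ^ 2) := by
                have h1 : 2 * (M : ℝ) + 1 ≤ 3 * z ^ 2 := by nlinarith
                exact mul_le_mul_of_nonneg_right h1 (by positivity)
            _ = (3 * C ^ 2) * (z ^ 4)⁻¹ := by
                field_simp
            _ ≤ z * (z ^ 4)⁻¹ := mul_le_mul_of_nonneg_right hz3 (by positivity)
            _ = (z ^ 3)⁻¹ := by
                field_simp
            _ ≤ 1 / 2 := by
                rw [one_div]
                exact inv_anti₀ (by norm_num) (by linarith)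
    have e4 : ∀ k : ℤ, ∑ j ∈ Finset.Icc (-(M : ℤ)) M, XS T (u0 + δ * ((k + j : ℤ) : ℝ)) * E (j / (16 * J)) ^ 2 =
        SS E T δ (16 * J * δ) M (u0 + δ * k) := by
      intro k
      unfold SS
      refine Finset.sum_congr rfl fun j _ => ?_
      have e5 : u0 + δ * ((k + j : ℤ) : ℝ) = u0 + δ * k + δ * j := by push_cast; ring
      have e6 : δ * (j : ℝ) / (16 * J * δ) = j / (16 * J) := by field_simp
      rw [e5, e6]
    rw [Finset.sum_congr rfl fun k _ => by rw [e4 k]]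
    refine hgoal.trans ?_
    have h1 : (1 : ℝ) ≤ (J : ℝ) ^ (3 / 2 : ℝ) := Real.one_le_rpow (by linarith) (by norm_num)
    have h2 : C1 * 1 ≤ C1 * (J : ℝ) ^ (3 / 2 : ℝ) := mul_le_mul_of_nonneg_left h1 hC1.le
    refine mul_le_mul_of_nonneg_right ?_ hP0.le
    nlinarith
  · -- the second moment of the values
    intro j hj
    have hsh := hshift j hj
    rw [abs_le] at hsh
    have hgoal := key (XS T) C3 (u0 + δ * j) (cont T) ?_ hC3.le ?_ ?_
    · refine le_trans (le_of_eq ?_) hgoal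
      refine Finset.sum_congr rfl fun k _ => ?_
      have e5 : u0 + δ * ((k + j : ℤ) : ℝ) = u0 + δ * j + δ * k := by push_cast; ring
      rw [e5]
    · refine le_trans ?_ (hSM T hTT3)
      exact intervalIntegral.integral_mono_interval (by linarith) (by linarith) (by linarith)
        (ae_of_all _ fun t => sq_nonneg _) (((cont T).pow 2).intervalIntegrable _ _)
    · intro k hk
      obtain ⟨k1, k2⟩ := hrange k hk
      constructor <;> linarith
    · intro k hk
      obtain ⟨k1, k2⟩ := hrange k hk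
      have hv1 : T ≤ u0 + δ * j + δ * k := by linarith
      have hv2 : u0 + δ * j + δ * k ≤ 2 * T := by linarith
      refine ⟨tri (Nn T) (Yn T), fun q => lac T (u0 + δ * j + δ * k) 0 q,
        fun q => psi (u0 + δ * j + δ * k) - lm q, fun q hq => hfreq _ hv1 hv2 q hq, ?_, ?_⟩
      · calc ∑ q ∈ tri (Nn T) (Yn T), ‖lac T (u0 + δ * j + δ * k) 0 q‖
            = ∑ q ∈ tri (Nn T) (Yn T), |cf (bR (Real.log T)) q| :=
              Finset.sum_congr rfl fun q _ => lac_norm _ _ _ _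
          _ ≤ z ^ 31 := z3.trans e51
          _ ≤ z ^ 34 := pow_le_pow_right₀ (by linarith) (by norm_num)
          _ ≤ z ^ 35 / 2 ^ 71 := by
                rw [le_div_iff₀ (by positivity), pow_succ z 34]
                exact mul_le_mul_of_nonneg_left hz1 (by positivity)
      · intro x hx
        have h1 := hexp _ hv1 hv2 0 x (by rw [zero_add]; linarith)
        rw [zero_add] at h1
        exact h1.trans hz6
  · exact hO

end Pool.Agent.Helper647.SG
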