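import Pool.Agent.Helper647_SG.All
import Pool.Agent.Helper647_SG.JKR
import Pool.Agent.Helper647_SG.JSP
import Pool.Agent.Helper647_SG.JFD
import Pool.Agent.Helper647_SG.JDF
import Pool.Agent.H373R2.T4.DivB

set_option autoImplicit false

/-! Points of an arbitrary lattice. -/

namespace Pool.Agent.Helper647.SG

open Complex Filter Topology MeasureTheory Set
open Pool.Agent.Helper647.PT (al bR Bz Pz Yn Nn F1 KE cr cr_add fz Yn_le Yn_pos Nn_ge Nn_le bR_abs bR_one zp sizes)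
open Pool.Agent.R304.GR (vt psi exp_vt)

/-- coefficient of the local expansion -/
noncomputable def lac (T u y : ℝ) (q : ℕ × ℕ × ℕ) : ℂ :=
  cexp (I * ((vt u + psi u * y : ℝ) : ℂ)) *
    (((cf (bR (Real.log T)) q : ℝ) : ℂ) * cexp (-(I * lm q * ((u + y : ℝ) : ℂ))))

lemma lac_norm (T u y : ℝ) (q : ℕ × ℕ × ℕ) : ‖lac T u y q‖ = |cf (bR (Real.log T)) q| := by
  unfold lac
  have e : cexp (-(I * lm q * ((u + y : ℝ) : ℂ))) = cexp (I * ((-(lm q * (u + y)) : ℝ) : ℂ)) := by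
    congr 1; push_cast; ring
  rw [norm_mul, norm_mul, e, Pool.Agent.Helper647.PT.norm_cexp_I, Pool.Agent.Helper647.PT.norm_cexp_I,
    mul_one, one_mul, Complex.norm_real, Real.norm_eq_abs]

lemma lac_exp (T u y x : ℝ) (s : Finset (ℕ × ℕ × ℕ)) :
    cexp (I * ((vt u + psi u * (y + x) : ℝ) : ℂ)) *
      ∑ q ∈ s, ((cf (bR (Real.log T)) q : ℝ) : ℂ) * cexp (-(I * lm q * ((u + (y + x) : ℝ) : ℂ))) =
    ∑ q ∈ s, lac T u y q * cexp (I * ((psi u - lm q : ℝ) : ℂ) * x) := by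
  rw [Finset.mul_sum]
  refine Finset.sum_congr rfl fun q _ => ?_
  unfold lac
  have e : cexp (I * ((vt u + psi u * (y + x) : ℝ) : ℂ)) * cexp (-(I * lm q * ((u + (y + x) : ℝ) : ℂ))) =
      cexp (I * ((vt u + psi u * y : ℝ) : ℂ)) * cexp (-(I * lm q * ((u + y : ℝ) : ℂ))) *
        cexp (I * ((psi u - lm q : ℝ) : ℂ) * x) := by
    rw [← Complex.exp_add, ← Complex.exp_add, ← Complex.exp_add]
    congr 1
    push_cast
    ring
  linear_combination ((cf (bR (Real.log T)) q : ℝ) : ℂ) * e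

/-- the first moment over a lattice -/
lemma fdm (A : ℝ) (hA : 1 ≤ A) : ∃ T0 : ℝ, 8 ≤ T0 ∧ ∀ (T δ u0 : ℝ) (m1 m2 : ℤ), T0 ≤ T → 1 / Real.log T ≤ δ →
    δ ≤ A / Real.log T → m1 ≤ m2 → T / (4 * δ) ≤ (m2 : ℝ) - m1 → T / 2 ≤ u0 + δ * m1 → u0 + δ * m2 ≤ 4 * T →
      1 / 2 * ((m2 : ℝ) - m1) ≤ ∑ k ∈ Finset.Ico m1 m2, |XS T (u0 + δ * k)| := by
  obtain ⟨T1, hT1, hfd⟩ := JFD.fd (Pool.Agent.H373R2.T4.DivB.div_bound (δ := 1 / 8) (by norm_num)) A hA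
  obtain ⟨T2, hT2, h2⟩ := sizes
  have hev : ∀ᶠ T : ℝ in atTop, 200 ≤ T ^ (49 / 100 : ℝ) :=
    (tendsto_rpow_atTop (by norm_num)).eventually_ge_atTop _
  obtain ⟨T3, hT3⟩ := hev.exists_forall_of_atTop
  refine ⟨max (max T1 T2) T3, hT1.trans ((le_max_left _ _).trans (le_max_left _ _)), ?_⟩
  intro T δ u0 m1 m2 hT hδ1 hδ2 hm hP ha hb
  have hTT1 : T1 ≤ T := ((le_max_left _ _).trans (le_max_left _ _)).trans hT
  have hTT2 : T2 ≤ T := ((le_max_right _ _).trans (le_max_left _ _)).trans hT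
  have hTT3 : T3 ≤ T := (le_max_right _ _).trans hT
  have hT8 : 8 ≤ T := hT1.trans hTT1
  have hT0 : 0 < T := by linarith
  obtain ⟨s1, s2, s3, s4, s5, s6⟩ := h2 T hTT2
  have g1 := hT3 T hTT3
  have hδ0 : 0 < δ := lt_of_lt_of_le (one_div_pos.2 (by linarith)) hδ1
  have hN1 : 1 ≤ Nn T := by
    have h := Nn_ge T
    have : (1 : ℝ) ≤ Nn T := by linarith
    exact_mod_cast this
  have h3 : 3 / 4 * ((m2 : ℝ) - m1) ≤
      ‖∑ k ∈ Finset.Ico m1 m2, Pz (Nn T) (u0 + δ * k) * Bz (Yn T) (bR (Real.log T)) (u0 + δ * k) ^ 2‖ :=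
    hfd T δ u0 (Yn T) (Nn T) (bR (Real.log T)) m1 m2 hTT1 hδ1 hδ2 (Yn_pos hT0) s6 hN1 (Nn_le (by linarith))
      (fun n => bR_abs _ _) (bR_one _) hm hP ha hb
  have hsmall : 50 * T ^ (-(49 / 100) : ℝ) ≤ 1 / 4 := by
    have p1 : 0 < T ^ (49 / 100 : ℝ) := Real.rpow_pos_of_pos hT0 _
    rw [Real.rpow_neg hT0.le, ← div_eq_mul_inv, div_le_iff₀ p1]
    linarith
  have hpw : ∀ k ∈ Finset.Ico m1 m2,
      ‖Pz (Nn T) (u0 + δ * k) * Bz (Yn T) (bR (Real.log T)) (u0 + δ * k) ^ 2‖ ≤ |XS T (u0 + δ * k)| + 1 / 4 := by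
    intro k hk
    rw [Finset.mem_Ico] at hk
    have k1 : (m1 : ℝ) ≤ k := by exact_mod_cast hk.1
    have k2 : (k : ℝ) ≤ m2 := by exact_mod_cast hk.2.le
    have k3 : δ * m1 ≤ δ * k := mul_le_mul_of_nonneg_left k1 hδ0.le
    have k4 : δ * k ≤ δ * m2 := mul_le_mul_of_nonneg_left k2 hδ0.le
    rw [XS_abs]
    set t := u0 + δ * k with ht
    have h4 := zp (T := T) (t := t) hT8 (by linarith) (by linarith)
    have h5 := s3 t
    have e : riemannZeta (1 / 2 + I * t) * Bz (Yn T) (bR (Real.log T)) t ^ 2 =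
        Pz (Nn T) t * Bz (Yn T) (bR (Real.log T)) t ^ 2 +
        (riemannZeta (1 / 2 + I * t) - Pz (Nn T) t) * Bz (Yn T) (bR (Real.log T)) t ^ 2 := by ring
    have h6 : ‖(riemannZeta (1 / 2 + I * t) - Pz (Nn T) t) * Bz (Yn T) (bR (Real.log T)) t ^ 2‖ ≤
        50 * T ^ (-(49 / 100) : ℝ) := by
      rw [norm_mul, norm_pow]
      calc _ ≤ 50 / Real.sqrt T * T ^ (1 / 100 : ℝ) :=
            mul_le_mul h4 h5 (by positivity) (by positivity)
        _ = 50 * T ^ (-(49 / 100) : ℝ) := by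
            rw [Real.sqrt_eq_rpow, div_mul_eq_mul_div, mul_div_assoc, ← Real.rpow_sub hT0]
            norm_num
    have h7 := norm_sub_norm_le (Pz (Nn T) t * Bz (Yn T) (bR (Real.log T)) t ^ 2)
      (-((riemannZeta (1 / 2 + I * t) - Pz (Nn T) t) * Bz (Yn T) (bR (Real.log T)) t ^ 2))
    rw [sub_neg_eq_add, ← e, norm_neg] at h7
    linarith
  have h8 := (norm_sum_le _ _).trans (Finset.sum_le_sum hpw)
  rw [Finset.sum_add_distrib, Finset.sum_const, Int.card_Ico, nsmul_eq_mul] at h8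
  have hm' : (m1 : ℝ) ≤ m2 := by exact_mod_cast hm
  have e4 : (((m2 - m1).toNat : ℕ) : ℝ) = (m2 : ℝ) - m1 := by
    have h9 : (((m2 - m1).toNat : ℕ) : ℤ) = m2 - m1 := Int.toNat_of_nonneg (by omega)
    have h10 : ((((m2 - m1).toNat : ℕ) : ℤ) : ℝ) = ((m2 - m1 : ℤ) : ℝ) := by rw [h9]
    push_cast at h10
    exact h10
  rw [e4] at h8
  linarith

end Pool.Agent.Helper647.SG
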