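import Pool.Agent.Helper647_SG.Lat

set_option autoImplicit false

/-! Sign changes along a lattice, cells with an odd number and with an even number of zeros. -/

namespace Pool.Agent.Helper647.SG

open Complex Filter Topology MeasureTheory Set
open Pool.Agent.Helper647.PT (cr cr_add fz par_cr)
open Pool.Agent.Helper647.GL (CF mo mem_CF CF_mem mo_pos sum_CF NN_upper half_eta)
open H370 (good_zeta NN mult Zf mem_Zf NN_eq)

/-! ### Combinatorics -/

lemma sc_exists (X : ℤ → ℝ) {i k : ℤ} (hik : i ≤ k) (h : X i * X k < 0) :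
    ∃ j l : ℤ, i ≤ j ∧ j < l ∧ l ≤ k ∧ X j * X l < 0 ∧ ∀ m : ℤ, j < m → m < l → X m = 0 := by
  classical
  have hk0 : X k ≠ 0 := by rintro h0; rw [h0, mul_zero] at h; exact lt_irrefl _ h
  set S := (Finset.Icc i k).filter (fun j => X j * X k < 0) with hS
  have hSn : S.Nonempty := ⟨i, by rw [hS, Finset.mem_filter, Finset.mem_Icc]; exact ⟨⟨le_rfl, hik⟩, h⟩⟩
  have hj := S.max'_mem hSn
  set j := S.max' hSn with hjd
  rw [hS, Finset.mem_filter, Finset.mem_Icc] at hj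
  have hjk : j < k := by
    refine lt_of_le_of_ne hj.1.2 ?_
    intro h0
    have h1 := hj.2
    rw [h0] at h1
    nlinarith [mul_self_nonneg (X k)]
  set S2 := (Finset.Ioc j k).filter (fun l => X l ≠ 0) with hS2
  have hS2n : S2.Nonempty := ⟨k, by rw [hS2, Finset.mem_filter, Finset.mem_Ioc]; exact ⟨⟨hjk, le_rfl⟩, hk0⟩⟩
  have hl := S2.min'_mem hS2n
  set l := S2.min' hS2n with hld
  rw [hS2, Finset.mem_filter, Finset.mem_Ioc] at hl
  refine ⟨j, l, hj.1.1, hl.1.1, hl.1.2, ?_, ?_⟩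
  · have h1 : ¬ (X l * X k < 0) := by
      intro h2
      have h3 : l ∈ S := by
        rw [hS, Finset.mem_filter, Finset.mem_Icc]
        exact ⟨⟨by linarith [hj.1.1, hl.1.1], hl.1.2⟩, h2⟩
      have h4 := S.le_max' l h3
      rw [← hjd] at h4
      omega
    have h2 : 0 < X l * X k := lt_of_le_of_ne (not_lt.1 h1) (Ne.symm (mul_ne_zero hl.2 hk0))
    have h3 : (X j * X k) * (X l * X k) < 0 := mul_neg_of_neg_of_pos hj.2 h2
    have h4 : (X j * X l) * (X k) ^ 2 < 0 := by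
      have e : (X j * X l) * (X k) ^ 2 = (X j * X k) * (X l * X k) := by ring
      rw [e]; exact h3
    by_contra h5
    push Not at h5
    have := mul_nonneg h5 (sq_nonneg (X k))
    linarith
  · intro m h1 h2
    by_contra h3
    have h4 : m ∈ S2 := by
      rw [hS2, Finset.mem_filter, Finset.mem_Ioc]
      exact ⟨⟨h1, by linarith [hl.1.2]⟩, h3⟩
    have h5 := S2.min'_le m h4
    rw [← hld] at h5
    omega

lemma count_inj {S V : Set ℤ} (hV : V.Finite) (a b : ℤ → ℤ) (h1 : ∀ k ∈ S, ∃ j ∈ V, a k ≤ j ∧ j < b k)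
    (h2 : ∀ k ∈ S, ∀ k' ∈ S, k < k' → b k ≤ a k') : S.ncard ≤ V.ncard := by
  choose! f hf using h1
  refine Set.ncard_le_ncard_of_injOn f (fun k hk => (hf k hk).1) ?_ hV
  intro k hk k' hk' he
  have e1 := (hf k hk).2
  have e2 := (hf k' hk').2
  rcases lt_trichotomy k k' with h | h | h
  · have := h2 k hk k' hk' h
    omega
  · exact h
  · have := h2 k' hk' k hk h
    omega

lemma lat_fin {δ : ℝ} (hδ : 0 < δ) (a b u : ℝ) : {k : ℤ | a ≤ u + δ * k ∧ u + δ * k ≤ b}.Finite := by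
  refine (Set.finite_Icc ⌈(a - u) / δ⌉ ⌊(b - u) / δ⌋).subset ?_
  rintro k ⟨h1, h2⟩
  constructor
  · rw [Int.ceil_le, div_le_iff₀ hδ]; linarith
  · rw [Int.le_floor, le_div_iff₀ hδ]; linarith

/-! ### The sets -/

/-- the changes of sign along the lattice -/
def sgs (T δ u : ℝ) : Set ℤ := {k : ℤ | T ≤ u + δ * k ∧ ∃ l : ℤ, k < l ∧ u + δ * l ≤ 2 * T ∧
  Zr (u + δ * k) * Zr (u + δ * l) < 0 ∧ ∀ j : ℤ, k < j → j < l → Zr (u + δ * j) = 0}

/-- the odd cells -/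
def ods (T δ u : ℝ) : Set ℤ := {k : ℤ | T ≤ u + δ * k ∧ u + δ * (k + 1) ≤ 2 * T ∧
  Odd (ct (u + δ * k) (u + δ * (k + 1)))}

/-- the even cells -/
def evs (T δ u : ℝ) : Set ℤ := {k : ℤ | T ≤ u + δ * k ∧ u + δ * (k + 1) ≤ 2 * T ∧
  Even (ct (u + δ * k) (u + δ * (k + 1)))}

lemma lat_mono {δ : ℝ} (hδ : 0 < δ) (u : ℝ) {i k : ℤ} (h : i ≤ k) : u + δ * i ≤ u + δ * k := by
  have : (i : ℝ) ≤ k := by exact_mod_cast h
  nlinarith

lemma sgs_fin {δ : ℝ} (hδ : 0 < δ) (T u : ℝ) : (sgs T δ u).Finite := by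
  refine (lat_fin hδ T (2 * T) u).subset ?_
  rintro k ⟨h1, l, h2, h3, _⟩
  exact ⟨h1, (lat_mono hδ u h2.le).trans h3⟩

lemma cell_fin {δ : ℝ} (hδ : 0 < δ) (T u : ℝ) :
    {k : ℤ | T ≤ u + δ * k ∧ u + δ * (k + 1) ≤ 2 * T}.Finite := by
  refine (lat_fin hδ T (2 * T) u).subset ?_
  rintro k ⟨h1, h2⟩
  exact ⟨h1, by linarith⟩

lemma ods_fin {δ : ℝ} (hδ : 0 < δ) (T u : ℝ) : (ods T δ u).Finite :=
  (cell_fin hδ T u).subset fun _ hk => ⟨hk.1, hk.2.1⟩

lemma evs_fin {δ : ℝ} (hδ : 0 < δ) (T u : ℝ) : (evs T δ u).Finite :=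
  (cell_fin hδ T u).subset fun _ hk => ⟨hk.1, hk.2.1⟩

/-- some cell between two points of opposite signs is odd -/
lemma odd_cell {u δ : ℝ} {i k : ℤ} (hδ : 0 < δ) (hik : i < k) (h : Zr (u + δ * i) * Zr (u + δ * k) < 0) :
    ∃ j : ℤ, i ≤ j ∧ j < k ∧ Odd (cr (u + δ * j) (u + δ * (j + 1))) := by
  by_contra hc
  push Not at hc
  have hev : ∀ n : ℕ, i + n ≤ k → Even (cr (u + δ * i) (u + δ * ((i + n : ℤ) : ℝ))) := by
    intro n
    induction n with
    | zero =>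
      intro _
      have : cr (u + δ * i) (u + δ * ((i + (0 : ℕ) : ℤ) : ℝ)) = 0 := by
        unfold cr
        have e : {t : ℝ | u + δ * i ≤ t ∧ t < u + δ * ((i + (0 : ℕ) : ℤ) : ℝ) ∧ riemannZeta (1 / 2 + I * t) = 0} = ∅ := by
          ext t
          simp only [Set.mem_ofPred_eq, Set.mem_empty_iff_false, iff_false]
          rintro ⟨x1, x2, x3⟩
          push_cast at x2
          linarith
        rw [e, finsum_mem_empty]
      rw [this]
      exact Even.zero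
    | succ n ih =>
      intro hn
      have h1 := ih (by push_cast at hn ⊢; omega)
      have h2 : u + δ * i ≤ u + δ * ((i + n : ℤ) : ℝ) := lat_mono hδ u (by omega)
      have h3 : u + δ * ((i + n : ℤ) : ℝ) ≤ u + δ * ((i + (n + 1 : ℕ) : ℤ) : ℝ) :=
        lat_mono hδ u (by push_cast; omega)
      rw [cr_add h2 h3]
      refine h1.add ?_
      have h4 := hc (i + n) (by omega) (by push_cast at hn; omega)
      rw [Nat.not_odd_iff_even] at h4
      have e : u + δ * ((i + (n + 1 : ℕ) : ℤ) : ℝ) = u + δ * (((i + n : ℤ) : ℝ) + 1) := by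
        push_cast; ring
      rw [e]
      exact h4
  obtain ⟨n, hn⟩ := Int.le.dest hik.le
  have h5 := hev n (by omega)
  rw [hn] at h5
  have ha : Zr (u + δ * i) ≠ 0 := by rintro h0; rw [h0, zero_mul] at h; exact lt_irrefl _ h
  have hb : Zr (u + δ * k) ≠ 0 := by rintro h0; rw [h0, mul_zero] at h; exact lt_irrefl _ h
  have h6 := par_cr (lat_mono hδ u hik.le) ha hb h5
  unfold Zr at h
  linarith

lemma sgs_next {T δ u : ℝ} {k k' l : ℤ} (hk' : k' ∈ sgs T δ u) (hkk : k < k')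
    (hl : ∀ j : ℤ, k < j → j < l → Zr (u + δ * j) = 0) : l ≤ k' := by
  by_contra h
  push Not at h
  obtain ⟨_, l', _, _, h3, _⟩ := hk'
  rw [hl k' hkk h, zero_mul] at h3
  exact lt_irrefl _ h3

/-- a sublattice -/
lemma sgs_sub {T δ u : ℝ} (hδ : 0 < δ) {q : ℕ} (hq : 1 ≤ q) :
    (sgs T (q * δ) u).ncard ≤ (sgs T δ u).ncard := by
  classical
  have hch : ∀ k ∈ sgs T (q * δ) u, ∃ l : ℤ, k < l ∧ u + q * δ * l ≤ 2 * T ∧
      Zr (u + q * δ * k) * Zr (u + q * δ * l) < 0 ∧ ∀ j : ℤ, k < j → j < l → Zr (u + q * δ * j) = 0 :=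
    fun k hk => hk.2
  choose! l hl using hch
  have hq0 : (1 : ℤ) ≤ q := by exact_mod_cast hq
  refine count_inj (sgs_fin hδ T u) (fun k => q * k) (fun k => q * l k) ?_ ?_
  · intro k hk
    obtain ⟨h1, h2, h3, h4⟩ := hl k hk
    have e : ∀ m : ℤ, u + q * δ * m = u + δ * ((q * m : ℤ) : ℝ) := by
      intro m; push_cast; ring
    rw [e, e] at h3
    obtain ⟨j, l', g1, g2, g3, g4, g5⟩ := sc_exists (fun m : ℤ => Zr (u + δ * m)) (i := q * k) (k := q * l k)
      (by nlinarith) h3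
    refine ⟨j, ⟨?_, l', g2, ?_, g4, g5⟩, g1, by omega⟩
    · have h5 := hk.1
      rw [e] at h5
      exact h5.trans (lat_mono hδ u g1)
    · rw [e] at h2
      exact (lat_mono hδ u g3).trans h2
  · intro k hk k' hk' hkk
    have h1 := sgs_next hk' hkk (hl k hk).2.2.2
    nlinarith

/-- changes of sign and odd cells -/
lemma sgs_ods {T δ u : ℝ} (hδ : 0 < δ) (hT : 2 ≤ T) : (sgs T δ u).ncard ≤ (ods T δ u).ncard := by
  classical
  have hch : ∀ k ∈ sgs T δ u, ∃ l : ℤ, k < l ∧ u + δ * l ≤ 2 * T ∧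
      Zr (u + δ * k) * Zr (u + δ * l) < 0 ∧ ∀ j : ℤ, k < j → j < l → Zr (u + δ * j) = 0 :=
    fun k hk => hk.2
  choose! l hl using hch
  refine count_inj (ods_fin hδ T u) (fun k => k) l ?_ ?_
  · intro k hk
    obtain ⟨h1, h2, h3, h4⟩ := hl k hk
    obtain ⟨j, g1, g2, g3⟩ := odd_cell hδ h1 h3
    have g4 : T ≤ u + δ * j := hk.1.trans (lat_mono hδ u g1)
    refine ⟨j, ⟨g4, ?_, (ct_odd (by linarith) _).2 g3⟩, g1, g2⟩
    have h5 := lat_mono hδ u (show j + 1 ≤ l k by omega)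
    push_cast at h5
    exact h5.trans h2
  · intro k hk k' hk' hkk
    exact sgs_next hk' hkk (hl k hk).2.2.2

/-- odd cells of the double width and even cells -/
lemma ods_evs {T δ u : ℝ} (hδ : 0 < δ) (hT : 2 ≤ T) : (ods T (2 * δ) u).ncard ≤ (evs T δ u).ncard := by
  refine count_inj (evs_fin hδ T u) (fun k => 2 * k) (fun k => 2 * k + 2) ?_ ?_
  · intro k hk
    obtain ⟨h1, h2, h3⟩ := hk
    rw [ct_odd (by linarith)] at h3
    have e1 : u + 2 * δ * k = u + δ * ((2 * k : ℤ) : ℝ) := by push_cast; ring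
    have e2 : u + 2 * δ * (k + 1) = u + δ * (((2 * k + 1 : ℤ) : ℝ) + 1) := by push_cast; ring
    have e3 : u + δ * ((2 * k + 1 : ℤ) : ℝ) = u + δ * (((2 * k : ℤ) : ℝ) + 1) := by push_cast; ring
    have i1 : u + δ * ((2 * k : ℤ) : ℝ) ≤ u + δ * ((2 * k + 1 : ℤ) : ℝ) := lat_mono hδ u (by omega)
    have i2 : u + δ * ((2 * k + 1 : ℤ) : ℝ) ≤ u + δ * (((2 * k + 1 : ℤ) : ℝ) + 1) := by nlinarith
    rw [e1] at h1
    rw [e2] at h2
    rw [e1, e2, cr_add i1 i2] at h3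
    by_cases hev : Even (cr (u + δ * ((2 * k : ℤ) : ℝ)) (u + δ * ((2 * k + 1 : ℤ) : ℝ)))
    · refine ⟨2 * k, ⟨h1, ?_, ?_⟩, le_rfl, by omega⟩
      · rw [← e3]; linarith
      · rw [ct_even (by linarith), ← e3]; exact hev
    · have hodd := Nat.not_even_iff_odd.1 hev
      refine ⟨2 * k + 1, ⟨by linarith, h2, ?_⟩, by omega, by omega⟩
      rw [ct_even (by linarith)]
      by_contra hc
      rw [Nat.not_even_iff_odd] at hc
      exact (Nat.not_odd_iff_even.2 (hodd.add_odd hc)) h3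
  · intro k hk k' hk' hkk
    show 2 * k + 2 ≤ 2 * k'
    omega

/-! ### The number of changes of sign -/

theorem sg_lat (A : ℝ) (hA : 1 ≤ A) : ∃ c T0 : ℝ, 0 < c ∧ 8 ≤ T0 ∧ ∀ T δ u : ℝ, T0 ≤ T → 1 / Real.log T ≤ δ →
    δ ≤ A / Real.log T → c * (T * Real.log T) ≤ ((sgs T δ u).ncard : ℝ) := by
  obtain ⟨η, T1, hη, hT1, h⟩ := lat0 A hA
  have hev : ∀ᶠ T : ℝ in atTop, 8 * T ^ (1 / 20 : ℝ) ≤ T ∧ A ≤ Real.log T ∧ 2 / η ≤ T * Real.log T := by
    have a1 : ∀ᶠ T : ℝ in atTop, (8 : ℝ) ≤ T ^ (19 / 20 : ℝ) :=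
      (tendsto_rpow_atTop (by norm_num)).eventually_ge_atTop _
    have a2 : ∀ᶠ T : ℝ in atTop, A ≤ Real.log T := Real.tendsto_log_atTop.eventually_ge_atTop _
    filter_upwards [a1, a2, eventually_ge_atTop (2 / η), eventually_gt_atTop (0 : ℝ)] with T b1 b2 b3 hT0
    have e1 : T ^ (1 / 20 : ℝ) * T ^ (19 / 20 : ℝ) = T := by
      rw [← Real.rpow_add hT0]; norm_num
    have p1 : 0 < T ^ (1 / 20 : ℝ) := Real.rpow_pos_of_pos hT0 _
    refine ⟨by nlinarith, b2, b3.trans ?_⟩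
    nlinarith
  obtain ⟨T2, hT2⟩ := hev.exists_forall_of_atTop
  refine ⟨η / 2, max (max T1 T2) 8, by positivity, le_max_right _ _, fun T δ u hT hδ1 hδ2 => ?_⟩
  have hTT1 : T1 ≤ T := ((le_max_left _ _).trans (le_max_left _ _)).trans hT
  have hTT2 : T2 ≤ T := ((le_max_right _ _).trans (le_max_left _ _)).trans hT
  have hT8 : 8 ≤ T := (le_max_right _ _).trans hT
  obtain ⟨g1, g2, g3⟩ := hT2 T hTT2
  have hT0 : 0 < T := by linarith
  have hlT : 0 < Real.log T := by linarith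
  have hδ0 : 0 < δ := lt_of_lt_of_le (one_div_pos.2 hlT) hδ1
  have hδle1 : δ ≤ 1 := hδ2.trans ((div_le_one hlT).2 g2)
  set w := T ^ (1 / 20 : ℝ) with hw
  have hw0 : 0 < w := Real.rpow_pos_of_pos hT0 _
  set m1 : ℤ := ⌈(T + w - u) / δ⌉ with hm1
  set m2 : ℤ := ⌊(2 * T - w - u) / δ⌋ with hm2
  have q1 : T + w ≤ u + δ * m1 := by
    have h1 : (T + w - u) / δ ≤ m1 := Int.le_ceil _
    rw [div_le_iff₀ hδ0] at h1
    linarith
  have q2 : u + δ * m2 ≤ 2 * T - w := by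
    have h1 : (m2 : ℝ) ≤ (2 * T - w - u) / δ := Int.floor_le _
    rw [le_div_iff₀ hδ0] at h1
    linarith
  have q3 : T / (2 * δ) ≤ (m2 : ℝ) - m1 := by
    have h1 : (m1 : ℝ) < (T + w - u) / δ + 1 := Int.ceil_lt_add_one _
    have h2 : (2 * T - w - u) / δ < m2 + 1 := Int.lt_floor_add_one _
    have h3 : (2 * T - w - u) / δ - (T + w - u) / δ - 2 < (m2 : ℝ) - m1 := by linarith
    refine le_trans ?_ h3.le
    rw [← sub_div, le_sub_iff_add_le, div_add' _ _ _ (by positivity), div_le_div_iff₀ (by positivity) hδ0]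
    have h4 : T + 2 * (2 * δ) ≤ 2 * (2 * T - w - u - (T + w - u)) := by linarith
    nlinarith
  set O : Set ℤ := {k : ℤ | ∃ l : ℤ, k < l ∧ Zr (u + δ * k) * Zr (u + δ * l) < 0 ∧
    ∀ j : ℤ, k < j → j < l → Zr (u + δ * j) = 0} with hO
  have hmain := h T δ u m1 m2 O hTT1 hδ1 hδ2 q1 q2 q3 ?_
  · set S : Set ℤ := {j : ℤ | m1 ≤ j ∧ j < m2 ∧ j ∈ O} with hS
    set B : Set ℤ := {j : ℤ | j ∈ S ∧ j ∉ sgs T δ u} with hB
    have hSfin : S.Finite := (Set.finite_Icc m1 m2).subset fun j hj => ⟨hj.1, hj.2.1.le⟩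
    have hBs : B.Subsingleton := by
      have key : ∀ j ∈ B, ∀ j' ∈ B, ¬ (j < j') := by
        rintro j ⟨⟨x1, x2, l, x3, x4, x5⟩, x6⟩ j' ⟨⟨y1, y2, l', y3, y4, y5⟩, y6⟩ hjj
        have h1 : m2 < l := by
          by_contra hc
          push Not at hc
          apply x6
          refine ⟨?_, l, x3, ?_, x4, x5⟩
          · have := lat_mono hδ0 u x1
            linarith
          · have := lat_mono hδ0 u hc
            linarith
        rw [x5 j' hjj (by omega), zero_mul] at y4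
        exact lt_irrefl _ y4
      intro j hj j' hj'
      rcases lt_trichotomy j j' with hh | hh | hh
      · exact absurd hh (key j hj j' hj')
      · exact hh
      · exact absurd hh (key j' hj' j hj)
    have hsub : S ⊆ sgs T δ u ∪ B := by
      intro j hj
      by_cases hc : j ∈ sgs T δ u
      · exact Or.inl hc
      · exact Or.inr ⟨hj, hc⟩
    have h1 : S.ncard ≤ (sgs T δ u ∪ B).ncard :=
      Set.ncard_le_ncard hsub ((sgs_fin hδ0 T u).union (hBs.finite))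
    have h2 : (sgs T δ u ∪ B).ncard ≤ (sgs T δ u).ncard + B.ncard := Set.ncard_union_le _ _
    have h3 : B.ncard ≤ 1 := (Set.ncard_le_one hBs.finite).2 fun a ha b hb => hBs ha hb
    have h4 : (S.ncard : ℝ) ≤ (sgs T δ u).ncard + 1 := by
      have : S.ncard ≤ (sgs T δ u).ncard + 1 := by omega
      exact_mod_cast this
    rw [div_le_iff₀ hη] at g3
    linarith
  · intro i k hik hno
    have h1 : 0 ≤ Zr (u + δ * i) * Zr (u + δ * k) := by
      by_contra hc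
      push Not at hc
      obtain ⟨j, l, k1, k2, k3, k4, k5⟩ := sc_exists (fun m : ℤ => Zr (u + δ * m)) hik hc
      exact hno j k1 (by omega) ⟨l, k2, k4, k5⟩
    unfold XS
    unfold Zr at h1
    have e : (Pool.Agent.R304.SG.Z (u + δ * i : ℝ)).re *
        ‖Pool.Agent.Helper647.PT.Bz (Pool.Agent.Helper647.PT.Yn T) (Pool.Agent.Helper647.PT.bR (Real.log T)) (u + δ * i)‖ ^ 2 *
        ((Pool.Agent.R304.SG.Z (u + δ * k : ℝ)).re *
        ‖Pool.Agent.Helper647.PT.Bz (Pool.Agent.Helper647.PT.Yn T) (Pool.Agent.Helper647.PT.bR (Real.log T)) (u + δ * k)‖ ^ 2) =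
        ((Pool.Agent.R304.SG.Z (u + δ * i : ℝ)).re * (Pool.Agent.R304.SG.Z (u + δ * k : ℝ)).re) *
        (‖Pool.Agent.Helper647.PT.Bz (Pool.Agent.Helper647.PT.Yn T) (Pool.Agent.Helper647.PT.bR (Real.log T)) (u + δ * i)‖ ^ 2 *
        ‖Pool.Agent.Helper647.PT.Bz (Pool.Agent.Helper647.PT.Yn T) (Pool.Agent.Helper647.PT.bR (Real.log T)) (u + δ * k)‖ ^ 2) := by
      ring
    rw [e]
    exact mul_nonneg h1 (by positivity)

/-- all small steps -/
theorem sg_all (A : ℝ) (hA : 1 ≤ A) : ∃ c T0 : ℝ, 0 < c ∧ 8 ≤ T0 ∧ ∀ T δ u : ℝ, T0 ≤ T → 0 < δ →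
    δ ≤ A / Real.log T → c * (T * Real.log T) ≤ ((sgs T δ u).ncard : ℝ) := by
  obtain ⟨c, T0, hc, hT0, h⟩ := sg_lat (2 * A) (by linarith)
  refine ⟨c, T0, hc, hT0, fun T δ u hT hδ hδA => ?_⟩
  have hT8 : 8 ≤ T := hT0.trans hT
  have hlT : 0 < Real.log T := Real.log_pos (by linarith)
  have hA2 : A / Real.log T ≤ 2 * A / Real.log T := div_le_div_of_nonneg_right (by linarith) hlT.le
  by_cases hcase : 1 / Real.log T ≤ δ
  · exact h T δ u hT hcase (hδA.trans hA2)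
  push Not at hcase
  set q : ℕ := ⌈1 / (δ * Real.log T)⌉₊ with hq
  have hx : 0 < 1 / (δ * Real.log T) := by positivity
  have hq1 : 1 ≤ q := Nat.one_le_iff_ne_zero.2 (Nat.ceil_pos.2 hx).ne'
  have h1 : 1 / (δ * Real.log T) ≤ q := Nat.le_ceil _
  have h2 : (q : ℝ) < 1 / (δ * Real.log T) + 1 := Nat.ceil_lt_add_one hx.le
  have h3 : 1 / Real.log T ≤ q * δ := by
    rw [div_le_iff₀ (by positivity)] at h1
    rw [div_le_iff₀ hlT]
    linarith
  have h4 : q * δ ≤ 2 * A / Real.log T := by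
    have h5 : q * δ ≤ (1 / (δ * Real.log T) + 1) * δ := mul_le_mul_of_nonneg_right h2.le hδ.le
    have h6 : (1 / (δ * Real.log T) + 1) * δ = 1 / Real.log T + δ := by field_simp
    have h7 : 1 / Real.log T + δ ≤ 2 / Real.log T := by
      have : (2 : ℝ) / Real.log T = 1 / Real.log T + 1 / Real.log T := by ring
      linarith
    have h8 : 2 / Real.log T ≤ 2 * A / Real.log T := div_le_div_of_nonneg_right (by linarith) hlT.le
    linarith
  have h9 := h T (q * δ) u hT h3 h4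
  have h10 : ((sgs T (q * δ) u).ncard : ℝ) ≤ (sgs T δ u).ncard := by exact_mod_cast sgs_sub hδ hq1
  exact h9.trans h10

end Pool.Agent.Helper647.SG
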