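import Pool.Agent.Helper647_SG.Lat2

set_option autoImplicit false

/-! The number of critical zeros; the final form of the theorem for lattices. -/

namespace Pool.Agent.Helper647.SG

open Complex Filter Topology MeasureTheory Set
open Pool.Agent.Helper647.PT (cr cr_add fz par_cr)
open Pool.Agent.Helper647.GL (CF mo mem_CF CF_mem mo_pos sum_CF NN_upper half_eta)
open H370 (good_zeta NN mult Zf mem_Zf NN_eq)

/-- the number of critical zeros -/
lemma cnt_card : ∃ C T0 : ℝ, 0 < C ∧ 2 ≤ T0 ∧ ∀ T : ℝ, T0 ≤ T →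
    ({γ : ℝ | T ≤ γ ∧ γ < 2 * T ∧ riemannZeta (1 / 2 + I * γ) = 0}.ncard : ℝ) ≤ C * (T * Real.log T) := by
  classical
  obtain ⟨b, X0, hb, hX0, hN⟩ := NN_upper good_zeta
  refine ⟨1 + 3 * b, X0 + 3, by positivity, by linarith, fun T hT => ?_⟩
  have hT3 : 3 ≤ T := by linarith
  have hTX : X0 ≤ T := by linarith
  have hL : 1 ≤ Real.log T := by
    have h1 := Real.exp_one_lt_d9
    rw [Real.le_log_iff_exp_le (by linarith)]
    linarith
  have hU : (1 : ℝ) ≤ X0 := by linarith
  set S := CF riemannZeta X0 (2 * T + 1) with hS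
  -- the number of points
  have hcard : (S.card : ℝ) ≤ (1 + 3 * b) * (T * Real.log T) := by
    have h1 : (S.card : ℝ) ≤ NN riemannZeta X0 (2 * T + 1) := by
      have h2 : S.card ≤ ∑ x ∈ S, mo riemannZeta x := by
        rw [Finset.card_eq_sum_ones]
        exact Finset.sum_le_sum fun x hx => mo_pos good_zeta hU hx
      have h3 : ∑ x ∈ S, mo riemannZeta x ≤ NN riemannZeta X0 (2 * T + 1) := by
        rw [NN_eq good_zeta hU, hS, sum_CF]
        have e2 : ∑ s ∈ (Zf riemannZeta X0 (2 * T + 1)).filter (fun s => s.re = 1 / 2), mo riemannZeta s.im =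
            ∑ s ∈ (Zf riemannZeta X0 (2 * T + 1)).filter (fun s => s.re = 1 / 2), mult riemannZeta s := by
          refine Finset.sum_congr rfl fun s hs => ?_
          unfold mo
          rw [half_eta (Finset.mem_filter.mp hs).2]
        rw [e2]
        exact Finset.sum_le_sum_of_subset (Finset.filter_subset _ _)
      exact_mod_cast h2.trans h3
    have h4 := hN (2 * T + 1) (by linarith)
    have h5 : Real.log (2 * T + 1) ≤ 2 * Real.log T := by
      have h6 : Real.log (2 * T + 1) ≤ Real.log (T * T) := Real.log_le_log (by linarith) (by nlinarith)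
      rw [Real.log_mul (by linarith) (by linarith)] at h6
      linarith
    have hpi := Real.pi_gt_three
    have h7 : (2 * T + 1) * Real.log (2 * T + 1) / (2 * Real.pi) ≤ T * Real.log T := by
      rw [div_le_iff₀ (by positivity)]
      have h8 : (2 * T + 1) * Real.log (2 * T + 1) ≤ (3 * T) * (2 * Real.log T) := by
        refine mul_le_mul (by linarith) h5 (Real.log_nonneg (by linarith)) (by linarith)
      have h9 : 0 ≤ T * Real.log T := by positivity
      nlinarith
    have h10 : b * (2 * T + 1) ≤ 3 * b * T * Real.log T := by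
      have h11 : b * (2 * T + 1) ≤ b * (3 * T) := mul_le_mul_of_nonneg_left (by linarith) hb
      have h12 : b * (3 * T) * 1 ≤ b * (3 * T) * Real.log T := mul_le_mul_of_nonneg_left hL (by positivity)
      nlinarith
    nlinarith
  have hsub : {γ : ℝ | T ≤ γ ∧ γ < 2 * T ∧ riemannZeta (1 / 2 + I * γ) = 0} ⊆ (S : Set ℝ) := by
    rintro γ ⟨x1, x2, x3⟩
    have him : (1 / 2 + I * (γ : ℂ)).im = γ := by simp
    have hre : (1 / 2 + I * (γ : ℂ)).re = 1 / 2 := by simp
    show γ ∈ (S : Set ℝ)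
    rw [Finset.mem_coe, hS, mem_CF, mem_Zf good_zeta hU]
    refine ⟨by rw [hre]; norm_num, by rw [hre]; norm_num, by rw [him]; linarith,
      by rw [him]; linarith, x3⟩
  have h1 := Set.ncard_le_ncard hsub S.finite_toSet
  rw [Set.ncard_coe_finset] at h1
  have h2 : ({γ : ℝ | T ≤ γ ∧ γ < 2 * T ∧ riemannZeta (1 / 2 + I * γ) = 0}.ncard : ℝ) ≤ S.card := by
    exact_mod_cast h1
  exact h2.trans hcard

/-- the number of odd cells is at most the number of critical zeros -/
lemma ods_le {T δ u : ℝ} (hδ : 0 < δ) (hT : 2 ≤ T) :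
    (ods T δ u).ncard ≤ {γ : ℝ | T ≤ γ ∧ γ < 2 * T ∧ riemannZeta (1 / 2 + I * γ) = 0}.ncard := by
  have hex : ∀ k ∈ ods T δ u, ∃ γ : ℝ, (u + δ * k ≤ γ ∧ γ < u + δ * (k + 1)) ∧
      riemannZeta (1 / 2 + I * γ) = 0 := by
    rintro k ⟨h1, h2, h3⟩
    rw [ct_odd (by linarith)] at h3
    by_contra hc
    push Not at hc
    have e : {t : ℝ | u + δ * k ≤ t ∧ t < u + δ * (k + 1) ∧ riemannZeta (1 / 2 + I * t) = 0} = ∅ := by
      ext t
      simp only [Set.mem_ofPred_eq, Set.mem_empty_iff_false, iff_false]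
      rintro ⟨x1, x2, x3⟩
      exact hc t ⟨x1, x2⟩ x3
    unfold cr at h3
    rw [e, finsum_mem_empty] at h3
    simp at h3
  choose! f hf using hex
  refine Set.ncard_le_ncard_of_injOn f ?_ ?_ (fz T (2 * T))
  · intro k hk
    obtain ⟨⟨h1, h2⟩, h3⟩ := hf k hk
    exact ⟨hk.1.trans h1, lt_of_lt_of_le h2 hk.2.1, h3⟩
  · intro k hk k' hk' he
    obtain ⟨⟨a1, a2⟩, _⟩ := hf k hk
    obtain ⟨⟨b1, b2⟩, _⟩ := hf k' hk'
    rw [he] at a1 a2
    have c1 : (k' : ℝ) < k + 1 := by
      have : δ * k' < δ * (k + 1) := by linarith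
      exact lt_of_mul_lt_mul_left this hδ.le
    have c2 : (k : ℝ) < k' + 1 := by
      have : δ * k < δ * (k' + 1) := by linarith
      exact lt_of_mul_lt_mul_left this hδ.le
    have d1 : k' < k + 1 := by exact_mod_cast c1
    have d2 : k < k' + 1 := by exact_mod_cast c2
    omega

/-- the number of cells -/
lemma cells_ge {T δ u : ℝ} (hδ : 0 < δ) :
    T / δ - 2 ≤ (ods T δ u).ncard + (evs T δ u).ncard := by
  set m1 : ℤ := ⌈(T - u) / δ⌉ with hm1
  set m2 : ℤ := ⌊(2 * T - u) / δ⌋ with hm2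
  have hsub : ((Finset.Ico m1 m2 : Finset ℤ) : Set ℤ) ⊆ ods T δ u ∪ evs T δ u := by
    intro k hk
    rw [Finset.coe_Ico] at hk
    have h1 : T ≤ u + δ * k := by
      have h2 : (T - u) / δ ≤ m1 := Int.le_ceil _
      have h3 : (m1 : ℝ) ≤ k := by exact_mod_cast hk.1
      have h4 := h2.trans h3
      rw [div_le_iff₀ hδ] at h4
      linarith
    have h5 : u + δ * (k + 1) ≤ 2 * T := by
      have h2 : (m2 : ℝ) ≤ (2 * T - u) / δ := Int.floor_le _
      have h3 : (k : ℝ) + 1 ≤ m2 := by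
        have : k + 1 ≤ m2 := hk.2
        exact_mod_cast this
      have h4 := h3.trans h2
      rw [le_div_iff₀ hδ] at h4
      linarith
    rcases Nat.even_or_odd (ct (u + δ * k) (u + δ * (k + 1))) with h | h
    · exact Or.inr ⟨h1, h5, h⟩
    · exact Or.inl ⟨h1, h5, h⟩
  have h1 := Set.ncard_le_ncard hsub ((ods_fin hδ T u).union (evs_fin hδ T u))
  rw [Set.ncard_coe_finset, Int.card_Ico] at h1
  have h2 : (ods T δ u ∪ evs T δ u).ncard ≤ (ods T δ u).ncard + (evs T δ u).ncard := Set.ncard_union_le _ _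
  have h3 : (m1 : ℝ) < (T - u) / δ + 1 := Int.ceil_lt_add_one _
  have h4 : (2 * T - u) / δ < m2 + 1 := Int.lt_floor_add_one _
  have h5 : (m2 : ℝ) - m1 ≤ ((m2 - m1).toNat : ℝ) := by
    have : m2 - m1 ≤ ((m2 - m1).toNat : ℤ) := Int.self_le_toNat _
    have h6 : ((m2 - m1 : ℤ) : ℝ) ≤ (((m2 - m1).toNat : ℤ) : ℝ) := by exact_mod_cast this
    push_cast at h6
    exact h6
  have h7 : (((m2 - m1).toNat : ℕ) : ℝ) ≤ (ods T δ u).ncard + (evs T δ u).ncard := by
    exact_mod_cast h1.trans h2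
  have h8 : (2 * T - u) / δ - (T - u) / δ = T / δ := by
    rw [← sub_div]; congr 1; ring
  linarith

/-- **lattices** -/
theorem lattice (A : ℝ) (hA : 0 < A) : ∃ c T0 : ℝ, 0 < c ∧ ∀ T δ u : ℝ, T0 ≤ T → 0 < δ → δ * Real.log T ≤ A →
    c * (T * Real.log T) ≤ ((sgs T δ u).ncard : ℝ) ∧
    c * (T * Real.log T) ≤ ((ods T δ u).ncard : ℝ) ∧
    c * (T / δ) ≤ ((evs T δ u).ncard : ℝ) := by
  obtain ⟨c, T1, hc, hT1, h⟩ := sg_all (2 * max A 1) (by linarith [le_max_right A 1])
  obtain ⟨C, T2, hC, hT2, hcnt⟩ := cnt_card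
  set c' : ℝ := min c (min (c / (4 * C)) (1 / 4)) with hc'
  have hc'0 : 0 < c' := by
    refine lt_min hc (lt_min (by positivity) (by norm_num))
  refine ⟨c', max (max T1 T2) (8 / C + 8), hc'0, fun T δ u hT hδ hδA => ?_⟩
  have hTT1 : T1 ≤ T := ((le_max_left _ _).trans (le_max_left _ _)).trans hT
  have hTT2 : T2 ≤ T := ((le_max_right _ _).trans (le_max_left _ _)).trans hT
  have hTT3 : 8 / C + 8 ≤ T := (le_max_right _ _).trans hT
  have h8C : 0 < 8 / C := by positivity
  have hT8 : 8 ≤ T := by linarith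
  have hL : 1 ≤ Real.log T := by
    have h1 := Real.exp_one_lt_d9
    rw [Real.le_log_iff_exp_le (by linarith)]
    linarith
  have hA1 : A ≤ max A 1 := le_max_left _ _
  have hlat1 : δ ≤ 2 * max A 1 / Real.log T := by
    rw [le_div_iff₀ (by linarith)]
    linarith
  have hlat2 : 2 * δ ≤ 2 * max A 1 / Real.log T := by
    rw [le_div_iff₀ (by linarith)]
    linarith
  have hTL : 0 ≤ T * Real.log T := by positivity
  have h1 := h T δ u hTT1 hδ hlat1
  have h2 := h T (2 * δ) u hTT1 (by positivity) hlat2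
  have hcc : c' ≤ c := min_le_left _ _
  have h3 : c' * (T * Real.log T) ≤ c * (T * Real.log T) := mul_le_mul_of_nonneg_right hcc hTL
  have h4 : ((sgs T δ u).ncard : ℝ) ≤ (ods T δ u).ncard := by
    exact_mod_cast sgs_ods hδ (by linarith)
  refine ⟨h3.trans h1, (h3.trans h1).trans h4, ?_⟩
  have h5 : ((sgs T (2 * δ) u).ncard : ℝ) ≤ (ods T (2 * δ) u).ncard := by
    exact_mod_cast sgs_ods (by positivity : 0 < 2 * δ) (by linarith)
  have h6 : ((ods T (2 * δ) u).ncard : ℝ) ≤ (evs T δ u).ncard := by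
    exact_mod_cast ods_evs hδ (by linarith)
  by_cases hs : 1 ≤ 4 * C * (δ * Real.log T)
  · -- many odd cells of the double width
    have h7 : c' * (T / δ) ≤ c * (T * Real.log T) := by
      have h8 : T / δ ≤ 4 * C * (T * Real.log T) := by
        rw [div_le_iff₀ hδ]
        calc T = T * 1 := by ring
          _ ≤ T * (4 * C * (δ * Real.log T)) := mul_le_mul_of_nonneg_left hs (by linarith)
          _ = _ := by ring
      have h9 : c' ≤ c / (4 * C) := (min_le_right _ _).trans (min_le_left _ _)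
      calc c' * (T / δ) ≤ c / (4 * C) * (4 * C * (T * Real.log T)) :=
            mul_le_mul h9 h8 (by positivity) (by positivity)
        _ = _ := by field_simp
    linarith
  · -- few odd cells
    push Not at hs
    have h7 := cells_ge (T := T) (δ := δ) (u := u) hδ
    have h8 : ((ods T δ u).ncard : ℝ) ≤ C * (T * Real.log T) := by
      have h9 : ((ods T δ u).ncard : ℝ) ≤
          ({γ : ℝ | T ≤ γ ∧ γ < 2 * T ∧ riemannZeta (1 / 2 + I * γ) = 0}.ncard : ℝ) := by
        exact_mod_cast ods_le hδ (by linarith)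
      exact h9.trans (hcnt T hTT2)
    have h9 : C * (T * Real.log T) ≤ 1 / 4 * (T / δ) := by
      rw [← mul_div_assoc, le_div_iff₀ hδ]
      calc C * (T * Real.log T) * δ = T * (1 / 4) * (4 * C * (δ * Real.log T)) := by ring
        _ ≤ T * (1 / 4) * 1 := mul_le_mul_of_nonneg_left hs.le (by positivity)
        _ = _ := by ring
    have h10 : 2 ≤ 1 / 4 * (T / δ) := by
      -- T / δ > 4 C T log T ≥ 4 C T ≥ 32
      have h11 : C * T ≤ C * (T * Real.log T) := by
        have : T * 1 ≤ T * Real.log T := mul_le_mul_of_nonneg_left hL (by linarith)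
        exact mul_le_mul_of_nonneg_left (by linarith) hC.le
      have h12 : 8 ≤ C * T := by
        have h13 : 8 / C ≤ T := by linarith
        rw [div_le_iff₀ hC] at h13
        linarith
      linarith
    have h11 : c' ≤ 1 / 4 := (min_le_right _ _).trans (min_le_right _ _)
    have h12 : c' * (T / δ) ≤ 1 / 4 * (T / δ) := mul_le_mul_of_nonneg_right h11 (by positivity)
    linarith

end Pool.Agent.Helper647.SG
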