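import Mathlib

set_option autoImplicit false

/-! The pattern bound for all step widths. -/

namespace Pool.Agent.Helper647.SG

open Filter Topology MeasureTheory Set

theorem pu (Z : ℝ → ℝ)
    (hpp : ∃ C : ℝ, 0 < C ∧ ∀ (A : ℝ) (J : ℕ), 1 ≤ A → 2 ≤ J → ∃ T0 : ℝ, ∀ T δ : ℝ, T0 ≤ T → 1 / Real.log T ≤ δ → δ ≤ A →
      ∀ η : ℕ → ℝ, volume {t : ℝ | t ∈ Icc T (2 * T) ∧ ∀ j : ℕ, j < J → 0 < η j * Z (t + δ * j)} ≤
        ENNReal.ofReal (C / Real.log J * T)) :
    ∃ C : ℝ, 0 < C ∧ ∀ (A : ℝ) (J : ℕ), 1 ≤ A → ∃ T0 : ℝ, ∀ T δ : ℝ, T0 ≤ T → 0 < δ → δ ≤ A →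
      2 ≤ J * min 1 (δ * Real.log T) →
      ∀ η : ℕ → ℝ, volume {t : ℝ | t ∈ Icc T (2 * T) ∧ ∀ j : ℕ, j < J → 0 < η j * Z (t + δ * j)} ≤
        ENNReal.ofReal (C / Real.log (J * min 1 (δ * Real.log T)) * T) := by
  obtain ⟨C, hC, hp⟩ := hpp
  refine ⟨2 * C + 2, by positivity, fun A J hA => ?_⟩
  have hp' := fun J' (h : 2 ≤ J') => hp A J' hA h
  choose T0 hT0 using hp'
  set F : ℕ → ℝ := fun j => if h : 2 ≤ j then |T0 j h| else 0 with hF
  have hF0 : ∀ j, 0 ≤ F j := fun j => by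
    simp only [hF]; split_ifs <;> positivity
  obtain ⟨T2, hT2⟩ := (Real.tendsto_log_atTop.eventually_ge_atTop 2).exists_forall_of_atTop
  refine ⟨max (max T2 8) (∑ j ∈ Finset.range (J + 1), F j), fun T δ hT hδ hδA hJ η => ?_⟩
  have hTT2 : T2 ≤ T := ((le_max_left _ _).trans (le_max_left _ _)).trans hT
  have hT8 : 8 ≤ T := ((le_max_right _ _).trans (le_max_left _ _)).trans hT
  have hTS : ∑ j ∈ Finset.range (J + 1), F j ≤ T := (le_max_right _ _).trans hT
  have hL := hT2 T hTT2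
  have hL0 : 0 < Real.log T := by linarith
  have hT0' : 0 < T := by linarith
  have hge : ∀ j (h : 2 ≤ j), j ≤ J → T0 j h ≤ T := by
    intro j h hj
    have h1 : F j ≤ ∑ i ∈ Finset.range (J + 1), F i :=
      Finset.single_le_sum (f := F) (fun i _ => hF0 i) (Finset.mem_range.2 (by omega))
    have h2 : F j = |T0 j h| := by simp only [hF, h, dif_pos]
    have := le_abs_self (T0 j h)
    linarith
  set m := min 1 (δ * Real.log T) with hm
  have hm0 : 0 < m := lt_min one_pos (by positivity)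
  have hm1 : m ≤ 1 := min_le_left _ _
  have hlog : 0 < Real.log (J * m) := Real.log_pos (by linarith)
  have hJ2 : (2 : ℝ) ≤ J := by nlinarith [show (0 : ℝ) ≤ J from Nat.cast_nonneg J]
  have hJ2' : 2 ≤ J := by exact_mod_cast hJ2
  by_cases hs : (J : ℝ) * m ≤ 4
  · -- the trivial bound
    have h1 : volume {t : ℝ | t ∈ Icc T (2 * T) ∧ ∀ j : ℕ, j < J → 0 < η j * Z (t + δ * j)} ≤
        ENNReal.ofReal T := by
      refine (measure_mono (fun t ht => ht.1)).trans ?_
      rw [Real.volume_Icc]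
      exact ENNReal.ofReal_le_ofReal (by linarith)
    refine h1.trans (ENNReal.ofReal_le_ofReal ?_)
    have h2 : Real.log (J * m) ≤ 2 := by
      have h3 : Real.log (J * m) ≤ Real.log 4 := Real.log_le_log (by linarith) hs
      have h4 : Real.log 4 = 2 * Real.log 2 := by
        rw [show (4 : ℝ) = 2 ^ 2 by norm_num, Real.log_pow]; norm_num
      have := Real.log_two_lt_d9
      linarith
    have h3 : 1 ≤ (2 * C + 2) / Real.log (J * m) := by
      rw [le_div_iff₀ hlog]; linarith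
    nlinarith
  rw [not_le] at hs
  by_cases hd : 1 ≤ δ * Real.log T
  · have hm' : m = 1 := min_eq_left hd
    refine (hT0 J hJ2' T δ (hge J hJ2' le_rfl) (by rw [div_le_iff₀ hL0]; exact hd) hδA η).trans
      (ENNReal.ofReal_le_ofReal ?_)
    rw [hm', mul_one] at hlog ⊢
    refine mul_le_mul_of_nonneg_right (div_le_div_of_nonneg_right (by linarith) hlog.le) hT0'.le
  rw [not_le] at hd
  have hm' : m = δ * Real.log T := min_eq_right hd.le
  have hmlt : m < 1 := by rw [hm']; exact hd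
  obtain ⟨k, hk⟩ : ∃ k : ℕ, k = ⌈1 / m⌉₊ := ⟨_, rfl⟩
  have hk1 : 1 / m ≤ k := by rw [hk]; exact Nat.le_ceil _
  have h1m : 1 < 1 / m := by rw [lt_div_iff₀ hm0]; linarith
  have hk2 : (k : ℝ) ≤ 2 / m := by
    have h1 : (k : ℝ) < 1 / m + 1 := by rw [hk]; exact Nat.ceil_lt_add_one (by positivity)
    have h2 : 2 / m = 1 / m + 1 / m := by ring
    linarith
  have hk0 : 0 < k := by
    have : (0 : ℝ) < k := by linarith
    exact_mod_cast this
  have hkm : 1 ≤ k * m := by rwa [div_le_iff₀ hm0] at hk1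
  have hkm2 : k * m ≤ 2 := by rwa [le_div_iff₀ hm0] at hk2
  obtain ⟨J', hJ'⟩ : ∃ J' : ℕ, J' = (J - 1) / k + 1 := ⟨_, rfl⟩
  have hJk : J ≤ J' * k := by
    have := Nat.lt_div_mul_add (a := J - 1) hk0
    rw [hJ', add_mul, one_mul]
    omega
  have hJkr : (J : ℝ) ≤ J' * k := by exact_mod_cast hJk
  have hJm : (J : ℝ) * m ≤ 2 * J' := by
    calc (J : ℝ) * m ≤ J' * k * m := mul_le_mul_of_nonneg_right hJkr hm0.le
      _ = J' * (k * m) := by ring
      _ ≤ J' * 2 := mul_le_mul_of_nonneg_left hkm2 (Nat.cast_nonneg _)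
      _ = _ := by ring
  have hJ'2 : 2 ≤ J' := by
    have : (2 : ℝ) ≤ J' := by linarith
    exact_mod_cast this
  have hJ'J : J' ≤ J := by
    rw [hJ']
    have := Nat.div_le_self (J - 1) k
    omega
  have hstep1 : 1 / Real.log T ≤ k * δ := by
    rw [div_le_iff₀ hL0, mul_assoc, ← hm']
    exact hkm
  have hstep2 : k * δ ≤ A := by
    have h1 : k * δ * Real.log T ≤ 2 := by rw [mul_assoc, ← hm']; exact hkm2
    have h2 : 0 ≤ k * δ := by positivity
    nlinarith
  have key := hT0 J' hJ'2 T (k * δ) (hge J' hJ'2 hJ'J) hstep1 hstep2 (fun i => η (i * k))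
  refine (measure_mono ?_).trans (key.trans (ENNReal.ofReal_le_ofReal ?_))
  · rintro t ⟨h1, h2⟩
    refine ⟨h1, fun i hi => ?_⟩
    have h3 : i * k < J := by
      have h4 : i ≤ (J - 1) / k := by omega
      have h5 : i * k ≤ (J - 1) / k * k := Nat.mul_le_mul_right _ h4
      have h6 := Nat.div_mul_le_self (J - 1) k
      omega
    have h7 := h2 (i * k) h3
    have e : t + k * δ * i = t + δ * ((i * k : ℕ) : ℝ) := by push_cast; ring
    rw [e]
    exact h7
  · refine mul_le_mul_of_nonneg_right ?_ hT0'.le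
    have hJ'0 : (0 : ℝ) < J' := by
      have : (2 : ℝ) ≤ J' := by exact_mod_cast hJ'2
      linarith
    have h1 : Real.log (J * m) ≤ 2 * Real.log J' := by
      have h2 : (J : ℝ) * m ≤ (J' : ℝ) ^ 2 := by
        have h3 : (4 : ℝ) < 2 * J' := by linarith
        nlinarith
      have h3 := Real.log_le_log (by linarith) h2
      rwa [Real.log_pow] at h3
    have h4 : 0 < Real.log J' := by linarith
    rw [div_le_div_iff₀ h4 hlog]
    nlinarith

end Pool.Agent.Helper647.SG
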