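import Pool.Agent.Helper647_SG.Fin
import Pool.Agent.Helper647_SG.JHP
import Pool.Agent.Helper647_SG.JHZ
import Pool.Agent.Helper647_SG.JSV
import Pool.Agent.Helper647_SG.JCP
import Pool.Agent.Helper647_SG.JPP
import Pool.Agent.Helper647_SG.Pu
import Pool.Agent.H306R2.ZetaGrowth

set_option autoImplicit false

/-! Patterns of signs and of parities. -/

namespace Pool.Agent.Helper647.SG

open Complex Filter Topology MeasureTheory Set
open Pool.Agent.Helper647.PT (al bR Bz Pz Yn Nn F1 KE cr Bz_cont sizes Yn_pos bR_abs bR_one par_cr)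

/-- growth of zeta -/
theorem hz : ∃ C A : ℝ, 0 ≤ C ∧ 0 ≤ A ∧ ∀ s : ℂ, 1 / 2 ≤ s.re → s ≠ 1 →
    ‖(s - 1) * riemannZeta s‖ ≤ C * (1 + ‖s‖) ^ A := by
  refine ⟨3, 2, by norm_num, by norm_num, fun s hs h1 => ?_⟩
  rw [Pool.Agent.H306R2.zeta_eq_pos (by linarith) h1]
  have h2 := Pool.Agent.H306R2.Zt_norm_le hs
  have h3 : ((1 + ‖s‖) ^ (2 : ℝ) : ℝ) = (‖s‖ + 1) ^ 2 := by
    rw [add_comm 1 ‖s‖]
    exact_mod_cast Real.rpow_natCast (‖s‖ + 1) 2
  rw [h3]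
  exact h2

/-- the size of zeta on the critical line -/
lemma zeta_half_le (t : ℝ) : ‖riemannZeta (1 / 2 + I * t)‖ ≤ 6 * (|t| + 2) ^ 2 := by
  have hre : (1 / 2 + I * (t : ℂ)).re = 1 / 2 := by simp
  have h1 : (1 / 2 + I * (t : ℂ)) ≠ 1 := by
    intro h
    have := congrArg Complex.re h
    rw [hre] at this
    norm_num at this
  have h2 := Pool.Agent.H306R2.Zt_norm_le (s := 1 / 2 + I * (t : ℂ)) (by rw [hre])
  rw [← Pool.Agent.H306R2.zeta_eq_pos (by rw [hre]; norm_num) h1, norm_mul] at h2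
  have h3 : 1 / 2 ≤ ‖(1 / 2 + I * (t : ℂ)) - 1‖ := by
    have := Complex.abs_re_le_norm ((1 / 2 + I * (t : ℂ)) - 1)
    rw [Complex.sub_re, hre, Complex.one_re] at this
    norm_num at this
    linarith
  have h4 : ‖(1 / 2 + I * (t : ℂ))‖ ≤ |t| + 1 := by
    refine (norm_add_le _ _).trans ?_
    rw [norm_mul, Complex.norm_I, one_mul, Complex.norm_real, Real.norm_eq_abs]
    norm_num
    linarith
  have h5 : (‖(1 / 2 + I * (t : ℂ))‖ + 1) ^ 2 ≤ (|t| + 2) ^ 2 :=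
    pow_le_pow_left₀ (by positivity) (by linarith) 2
  have h6 := norm_nonneg (riemannZeta (1 / 2 + I * t))
  nlinarith

theorem sv1 : ∃ c T1 : ℝ, 0 < c ∧ 8 ≤ T1 ∧ ∀ T t0 M : ℝ, T1 ≤ T → T / 2 ≤ t0 → t0 ≤ 5 / 2 * T → 0 ≤ M →
      -c ≤ ∫ t : ℝ, (5 / 2) / (Real.pi * ((5 / 2) ^ 2 + (t - t0) ^ 2)) * Real.log (max (|XS T t|) (Real.exp (-M))) := by
  obtain ⟨c, hc, h⟩ := JHZ.hpz hz JHP.hp
  refine ⟨c, 16, hc, by norm_num, fun T t0 M hT h1 h2 hM => ?_⟩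
  have h3 := h (Yn T) (bR (Real.log T)) t0 M (Yn_pos (by linarith)) (fun n => bR_abs _ n) (bR_one _)
    (by linarith) hM
  refine h3.trans (le_of_eq ?_)
  refine integral_congr_ae (Filter.Eventually.of_forall fun t => ?_)
  beta_reduce
  rw [XS_abs]
  rfl

theorem sv2 : ∃ C T1 : ℝ, 0 < C ∧ 8 ≤ T1 ∧ ∀ T : ℝ, T1 ≤ T → ∫ t in (T / 4)..(4 * T), |XS T t| ^ 2 ≤ C * T := by
  obtain ⟨C, T0, hC, hT0, h⟩ := SM2
  refine ⟨C, T0, hC, hT0, fun T hT => ?_⟩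
  refine le_trans (le_of_eq ?_) (h T hT)
  refine intervalIntegral.integral_congr fun t _ => ?_
  rw [sq_abs]

theorem sv3 : ∃ C T1 : ℝ, 0 < C ∧ 8 ≤ T1 ∧ ∀ T t : ℝ, T1 ≤ T → |XS T t| ≤ (T + |t|) ^ C := by
  obtain ⟨T0, hT0, h⟩ := sizes
  refine ⟨4, T0, by norm_num, hT0, fun T t hT => ?_⟩
  obtain ⟨-, -, h3, -, -, -⟩ := h T hT
  have hT8 : 8 ≤ T := hT0.trans hT
  rw [XS_abs, norm_mul, norm_pow]
  have h4 := h3 t
  have h5 := zeta_half_le t
  have h6 : T ^ (1 / 100 : ℝ) ≤ T := by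
    calc T ^ (1 / 100 : ℝ) ≤ T ^ (1 : ℝ) := Real.rpow_le_rpow_of_exponent_le (by linarith) (by norm_num)
      _ = T := Real.rpow_one T
  have h7 : ((T + |t|) ^ (4 : ℝ) : ℝ) = (T + |t|) ^ 4 := by exact_mod_cast Real.rpow_natCast (T + |t|) 4
  rw [h7]
  have ht := abs_nonneg t
  set a := |t| with ha
  have h8 : (a + 2) ^ 2 ≤ (T + a) ^ 2 := pow_le_pow_left₀ (by positivity) (by linarith) 2
  calc ‖riemannZeta (1 / 2 + I * t)‖ * ‖Bz (Yn T) (bR (Real.log T)) t‖ ^ 2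
      ≤ (6 * (a + 2) ^ 2) * T := mul_le_mul h5 (h4.trans h6) (sq_nonneg _) (by positivity)
    _ ≤ (6 * (T + a) ^ 2) * T := by gcongr
    _ = (T + a) ^ 2 * (6 * T) := by ring
    _ ≤ (T + a) ^ 2 * (T + a) ^ 2 := by
        refine mul_le_mul_of_nonneg_left ?_ (sq_nonneg _)
        nlinarith
    _ = _ := by ring

theorem sv' : ∃ C T0 : ℝ, 0 < C ∧ 8 ≤ T0 ∧ ∀ T κ : ℝ, T0 ≤ T → 0 < κ → κ ≤ 1 / 2 →
      volume ({t : ℝ | |XS T t| < κ} ∩ Icc (T / 2) (5 / 2 * T)) ≤ ENNReal.ofReal (C * T / Real.log (1 / κ)) :=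
  JSV.sv (fun T t => |XS T t|) (fun _ _ => abs_nonneg _) (fun T => (cont T).abs) sv1 sv2 sv3

theorem hcp : ∃ C : ℝ, 0 < C ∧ ∀ (A : ℝ) (J : ℕ), 1 ≤ A → 2 ≤ J → ∃ T0 : ℝ, ∀ T δ : ℝ, T0 ≤ T → 1 / Real.log T ≤ δ → δ ≤ A →
      volume {t : ℝ | t ∈ Icc T (2 * T) ∧ ∀ i j : ℕ, i < J → j < J → 0 < Zr (t + δ * i) * Zr (t + δ * j)} ≤
        ENNReal.ofReal (C / Real.log J * T) := by
  obtain ⟨E, CE, c0, hC, hc0, hEc, hEl, hEd, hElow, hEft⟩ := Pool.Agent.Helper647.PT.ker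
  have hE : KE E CE c0 := ⟨hC, hc0, hEc, hEl, hEd, hElow, hEft⟩
  obtain ⟨C1, hC1, hsm⟩ := sj E CE c0 hE
  obtain ⟨C, hC', h⟩ := JCP.cp XS E c0 CE cont hEc hc0 hC hEd hElow ⟨C1, hC1, hsm⟩ SM2 sv'
  refine ⟨C, hC', fun A J hA hJ => ?_⟩
  obtain ⟨T0, hT0⟩ := h A J hA hJ
  refine ⟨T0, fun T δ h1 h2 h3 => ?_⟩
  refine hT0 T δ h1 h2 h3 _ (fun t ht => ht.1) ?_
  rintro t ⟨-, ht⟩ i j hi hj
  have h4 := ht i j hi hj
  unfold XS
  have e : (Pool.Agent.R304.SG.Z (t + δ * i : ℝ)).re * ‖Bz (Yn T) (bR (Real.log T)) (t + δ * i)‖ ^ 2 *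
      ((Pool.Agent.R304.SG.Z (t + δ * j : ℝ)).re * ‖Bz (Yn T) (bR (Real.log T)) (t + δ * j)‖ ^ 2) =
      (Zr (t + δ * i) * Zr (t + δ * j)) *
      (‖Bz (Yn T) (bR (Real.log T)) (t + δ * i)‖ ^ 2 * ‖Bz (Yn T) (bR (Real.log T)) (t + δ * j)‖ ^ 2) := by
    unfold Zr; ring
  rw [e]
  positivity

/-- **patterns of signs** -/
theorem pat : ∃ C : ℝ, 0 < C ∧ ∀ (A : ℝ) (J : ℕ), 1 ≤ A → ∃ T0 : ℝ, ∀ T δ : ℝ, T0 ≤ T → 0 < δ → δ ≤ A →
      2 ≤ J * min 1 (δ * Real.log T) →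
      ∀ η : ℕ → ℝ, volume {t : ℝ | t ∈ Icc T (2 * T) ∧ ∀ j : ℕ, j < J → 0 < η j * Zr (t + δ * j)} ≤
        ENNReal.ofReal (C / Real.log (J * min 1 (δ * Real.log T)) * T) :=
  pu Zr (JPP.pp Zr Zr_cont hcp)

lemma null_set' (δ : ℝ) : volume {t : ℝ | ∃ j : ℕ, Zr (t + δ * j) = 0} = 0 := by
  have e : {t : ℝ | ∃ j : ℕ, Zr (t + δ * j) = 0} = ⋃ j : ℕ, (fun t : ℝ => t + δ * j) ⁻¹' {t : ℝ | Zr t = 0} := by
    ext t; simp
  rw [e]
  exact (Set.countable_iUnion fun j => zero_countable.preimage (add_left_injective _)).measure_zero _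

/-- **patterns of parities** -/
theorem pat_parity : ∃ C : ℝ, 0 < C ∧ ∀ (A : ℝ) (J : ℕ), 1 ≤ A → ∃ T0 : ℝ, ∀ T δ : ℝ, T0 ≤ T → 0 < δ → δ ≤ A →
      2 ≤ J * min 1 (δ * Real.log T) →
      (∀ η : ℕ → ℝ, volume.real {t : ℝ | t ∈ Icc T (2 * T) ∧ ∀ j : ℕ, j < J → 0 < η j * Zr (t + j * δ)} ≤
        C / Real.log (J * min 1 (δ * Real.log T)) * T) ∧
      (∀ e : ℕ → ℕ, volume.real {t : ℝ | t ∈ Icc T (2 * T) ∧
          ∀ j : ℕ, j < J → ct (t + j * δ) (t + (j + 1) * δ) ≡ e j [MOD 2]} ≤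
        C / Real.log (J * min 1 (δ * Real.log T)) * T) := by
  obtain ⟨C, hC, hp⟩ := pat
  refine ⟨2 * C, by positivity, fun A J hA => ?_⟩
  obtain ⟨T0, hT0⟩ := hp A J hA
  refine ⟨max T0 2, fun T δ hT hδ hδA hJ => ?_⟩
  have hTT0 : T0 ≤ T := (le_max_left _ _).trans hT
  have hT2 : 2 ≤ T := (le_max_right _ _).trans hT
  have key := hT0 T δ hTT0 hδ hδA hJ
  have hlog : 0 < Real.log (J * min 1 (δ * Real.log T)) := Real.log_pos (by linarith)
  set D := C / Real.log (J * min 1 (δ * Real.log T)) with hD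
  have hD2 : 2 * C / Real.log (J * min 1 (δ * Real.log T)) = 2 * D := by rw [hD]; ring
  have hD0 : 0 ≤ D := by positivity
  rw [hD2]
  have hreal : ∀ η : ℕ → ℝ, volume.real {t : ℝ | t ∈ Icc T (2 * T) ∧ ∀ j : ℕ, j < J → 0 < η j * Zr (t + j * δ)} ≤
      D * T := by
    intro η
    rw [Measure.real]
    refine ENNReal.toReal_le_of_le_ofReal (by positivity) ?_
    have e : {t : ℝ | t ∈ Icc T (2 * T) ∧ ∀ j : ℕ, j < J → 0 < η j * Zr (t + j * δ)} =
        {t : ℝ | t ∈ Icc T (2 * T) ∧ ∀ j : ℕ, j < J → 0 < η j * Zr (t + δ * j)} := by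
      ext t
      simp only [mul_comm]
    rw [e]
    exact key η
  refine ⟨fun η => (hreal η).trans (by nlinarith [mul_nonneg hD0 (by linarith : (0 : ℝ) ≤ T)]), fun e => ?_⟩
  -- the sign pattern of a parity pattern
  obtain ⟨η, hη0, hη⟩ : ∃ η : ℕ → ℝ, η 0 = 1 ∧ ∀ j, η (j + 1) = η j * (-1) ^ e j :=
    ⟨fun n => ∏ i ∈ Finset.range n, (-1 : ℝ) ^ e i, by simp, fun j => by
      beta_reduce; rw [Finset.prod_range_succ]⟩
  have hηsq : ∀ j, η j = 1 ∨ η j = -1 := by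
    intro j
    induction j with
    | zero => exact Or.inl hη0
    | succ n ih =>
      rw [hη]
      rcases ih with h | h <;> rcases Nat.even_or_odd (e n) with h' | h' <;> rw [h, h'.neg_one_pow] <;> norm_num
  set P := {t : ℝ | t ∈ Icc T (2 * T) ∧ ∀ j : ℕ, j < J → 0 < η j * Zr (t + j * δ)} with hP
  set M := {t : ℝ | t ∈ Icc T (2 * T) ∧ ∀ j : ℕ, j < J → 0 < (-η j) * Zr (t + j * δ)} with hM
  set N := {t : ℝ | ∃ j : ℕ, Zr (t + δ * j) = 0} with hN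
  have hsub : {t : ℝ | t ∈ Icc T (2 * T) ∧ ∀ j : ℕ, j < J → ct (t + j * δ) (t + (j + 1) * δ) ≡ e j [MOD 2]} ⊆
      (P ∪ M) ∪ N := by
    rintro t ⟨ht, hpar⟩
    by_cases hn : t ∈ N
    · exact Or.inr hn
    left
    have hz' : ∀ j : ℕ, Zr (t + j * δ) ≠ 0 := fun j h => hn ⟨j, by rw [mul_comm δ]; exact h⟩
    have hz2 : ∀ j : ℕ, Zr (t + (j + 1) * δ) ≠ 0 := fun j => by
      have := hz' (j + 1)
      push_cast at this
      exact this
    -- the sign at j is the sign at 0 times η j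
    have hs : ∀ j : ℕ, j < J → 0 < Zr t * (η j * Zr (t + j * δ)) := by
      intro j
      induction j with
      | zero =>
        intro _
        have := hz' 0
        rw [hη0, one_mul]
        simp only [Nat.cast_zero, zero_mul, add_zero] at this ⊢
        exact mul_self_pos.2 this
      | succ n ih =>
        intro hn1
        have h1 := ih (by omega)
        have h2 := hpar n (by omega)
        have ha : 2 ≤ t + n * δ := by
          have : 0 ≤ (n : ℝ) * δ := by positivity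
          linarith [ht.1]
        have he : t + (n + 1) * δ = t + n * δ + δ := by ring
        have h3 : 0 < (-1 : ℝ) ^ e n * (Zr (t + n * δ) * Zr (t + (n + 1) * δ)) := by
          rcases Nat.even_or_odd (e n) with h' | h'
          · rw [h'.neg_one_pow, one_mul]
            have h4 : Even (ct (t + n * δ) (t + (n + 1) * δ)) := by
              rw [Nat.even_iff] at h' ⊢
              rw [← h']; exact h2
            rw [he] at h4 ⊢
            exact par_cr (by linarith) (hz' n) (by rw [← he]; exact hz2 n) ((ct_even ha _).1 h4)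
          · rw [h'.neg_one_pow]
            have h4 : Odd (ct (t + n * δ) (t + (n + 1) * δ)) := by
              rw [Nat.odd_iff] at h' ⊢
              rw [← h']; exact h2
            rw [he] at h4 ⊢
            have h5 := (Z_odd hδ.le (hz' n) (by rw [← he]; exact hz2 n)).1 ((ct_odd ha _).1 h4)
            linarith
        have h6 : 0 < Zr (t + n * δ) * Zr (t + n * δ) := mul_self_pos.2 (hz' n)
        have h7 := mul_pos h1 h3
        rw [hη]
        push_cast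
        have e7 : Zr t * (η n * Zr (t + n * δ)) * ((-1 : ℝ) ^ e n * (Zr (t + n * δ) * Zr (t + (n + 1) * δ))) =
            (Zr (t + n * δ) * Zr (t + n * δ)) * (Zr t * (η n * (-1) ^ e n * Zr (t + (n + 1) * δ))) := by ring
        rw [e7] at h7
        exact (pos_iff_pos_of_mul_pos h7).1 h6
    have hz0 : Zr t ≠ 0 := by
      have := hz' 0
      simpa using this
    rcases lt_or_gt_of_ne hz0 with h0 | h0
    · refine Or.inr ⟨ht, fun j hj => ?_⟩
      have := hs j hj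
      nlinarith [neg_of_mul_pos_right this h0.le]
    · refine Or.inl ⟨ht, fun j hj => ?_⟩
      exact (pos_iff_pos_of_mul_pos (hs j hj)).1 h0
  have fP : volume P ≠ ⊤ := fin_of (fun t ht => ht.1 : P ⊆ Icc T (2 * T))
  have fM : volume M ≠ ⊤ := fin_of (fun t ht => ht.1 : M ⊆ Icc T (2 * T))
  have hN0 : volume.real N = 0 := by rw [Measure.real, null_set']; rfl
  have fN : volume N ≠ ⊤ := by rw [hN, null_set']; exact ENNReal.zero_ne_top
  have fPM : volume (P ∪ M) ≠ ⊤ :=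
    ne_top_of_le_ne_top (ENNReal.add_ne_top.2 ⟨fP, fM⟩) (measure_union_le _ _)
  have h1 := measureReal_mono hsub
    (ne_top_of_le_ne_top (ENNReal.add_ne_top.2 ⟨fPM, fN⟩) (measure_union_le _ _))
  have h2 := measureReal_union_le (μ := volume) (P ∪ M) N
  have h3 := measureReal_union_le (μ := volume) P M
  have h4 := hreal η
  have h5 := hreal (fun j => -η j)
  linarith

end Pool.Agent.Helper647.SG
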