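import Pool.Agent.Helper647_SG.Pat
import Pool.Agent.Helper647_SG.JRP
import Pool.Agent.Helper647_SG.JRQ
import Pool.Agent.Helper647_SG.JTA
import Pool.Agent.Helper647_SG.JTB
import Pool.Agent.Helper647_SG.JWP
import Pool.Agent.Helper647_SG.JWQ

set_option autoImplicit false

/-! Words close to a fixed word or to a trigonometric polynomial. -/

namespace Pool.Agent.Helper647.SG

open Complex Filter Topology MeasureTheory Set
open Pool.Agent.Helper647.PT (al bR Bz Pz Yn Nn F1 KE cr Bz_cont sizes Yn_pos bR_abs bR_one par_cr)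

/-- words of sign changes close to a fixed word -/
theorem rob : ∃ C : ℝ, 0 < C ∧ ∀ (A p : ℝ) (J : ℕ), 1 ≤ A → 0 < p → p ≤ 1 →
      ∃ T0 : ℝ, ∀ T δ : ℝ, T0 ≤ T → 0 < δ → δ ≤ A → Real.exp (C / p) ≤ J * min 1 (δ * Real.log T) → ∀ ε : ℕ → ℝ,
        volume {t : ℝ | t ∈ Icc T (2 * T) ∧
          ({j : ℕ | j < J ∧ ε j * (Zr (t + δ * j) * Zr (t + δ * ((j : ℝ) + 1))) ≤ 0}.ncard : ℝ) ≤
            Real.exp (-(C / p)) * (J * min 1 (δ * Real.log T))} ≤
          ENNReal.ofReal (p * T) :=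
  JRQ.rq Zr (JRP.rp Zr Zr_cont hcp)

lemma fin_lt (J : ℕ) (P : ℕ → Prop) : {j : ℕ | j < J ∧ P j}.Finite :=
  (Set.finite_lt_nat J).subset fun _ h => h.1

/-- the parity of the number of zeros in a step and the signs at its ends -/
lemma step_iff {t δ : ℝ} (hδ : 0 < δ) (ht : 2 ≤ t) (h1 : Zr t ≠ 0) (h2 : Zr (t + δ) ≠ 0) (e : ℕ) :
    ct t (t + δ) ≡ e [MOD 2] ↔ 0 < (-1 : ℝ) ^ e * (Zr t * Zr (t + δ)) := by
  have hne : Zr t * Zr (t + δ) ≠ 0 := mul_ne_zero h1 h2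
  have hodd : Odd (ct t (t + δ)) ↔ Zr t * Zr (t + δ) < 0 := by
    rw [ct_odd ht, Z_odd hδ.le h1 h2]
  rcases Nat.even_or_odd e with h' | h'
  · rw [h'.neg_one_pow, one_mul]
    constructor
    · intro h
      have h3 : ¬ Odd (ct t (t + δ)) := by
        rw [Nat.not_odd_iff_even, Nat.even_iff]
        rw [Nat.even_iff] at h'
        rw [← h']; exact h
      rw [hodd] at h3
      exact lt_of_le_of_ne (not_lt.1 h3) (Ne.symm hne)
    · intro h
      have h3 : ¬ Odd (ct t (t + δ)) := by rw [hodd]; exact not_lt.2 h.le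
      rw [Nat.not_odd_iff_even, Nat.even_iff] at h3
      rw [Nat.even_iff] at h'
      exact h3.trans h'.symm
  · rw [h'.neg_one_pow]
    constructor
    · intro h
      have h3 : Odd (ct t (t + δ)) := by
        rw [Nat.odd_iff]
        rw [Nat.odd_iff] at h'
        rw [← h']; exact h
      rw [hodd] at h3
      linarith
    · intro h
      have h3 : Odd (ct t (t + δ)) := by rw [hodd]; linarith
      rw [Nat.odd_iff] at h3 h'
      exact h3.trans h'.symm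

/-- **words close to a fixed word** -/
theorem rob2 : ∃ C : ℝ, 0 < C ∧ ∀ (A p : ℝ) (J : ℕ), 1 ≤ A → 0 < p → p ≤ 1 →
      ∃ T0 : ℝ, ∀ T δ : ℝ, T0 ≤ T → 0 < δ → δ ≤ A → Real.exp (C / p) ≤ J * min 1 (δ * Real.log T) →
      (∀ η : ℕ → ℝ, volume.real {t : ℝ | t ∈ Icc T (2 * T) ∧
          ({j : ℕ | j < J ∧ η j * Zr (t + j * δ) ≤ 0}.ncard : ℝ) ≤
            Real.exp (-(C / p)) * (J * min 1 (δ * Real.log T))} ≤ p * T) ∧
      (∀ e : ℕ → ℕ, volume.real {t : ℝ | t ∈ Icc T (2 * T) ∧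
          ({j : ℕ | j < J ∧ ¬ ct (t + j * δ) (t + (j + 1) * δ) ≡ e j [MOD 2]}.ncard : ℝ) ≤
            Real.exp (-(C / p)) * (J * min 1 (δ * Real.log T))} ≤ p * T) := by
  obtain ⟨C, hC, h⟩ := rob
  refine ⟨C + 2, by positivity, fun A p J hA hp hp1 => ?_⟩
  obtain ⟨T1, hT1⟩ := h A p J hA hp hp1
  obtain ⟨T2, hT2⟩ := h A p (J - 1) hA hp hp1
  refine ⟨max (max T1 T2) 2, fun T δ hT hδ hδA hJ => ?_⟩
  have hTT1 : T1 ≤ T := ((le_max_left _ _).trans (le_max_left _ _)).trans hT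
  have hTT2 : T2 ≤ T := ((le_max_right _ _).trans (le_max_left _ _)).trans hT
  have hT22 : 2 ≤ T := (le_max_right _ _).trans hT
  have hT0 : 0 < T := by linarith
  set m := min 1 (δ * Real.log T) with hm
  have hlogT : 0 < Real.log T := Real.log_pos (by linarith)
  have hm0 : 0 < m := lt_min one_pos (by positivity)
  have hm1 : m ≤ 1 := min_le_left _ _
  have hsplit : Real.exp ((C + 2) / p) = Real.exp (C / p) * Real.exp (2 / p) := by
    rw [← Real.exp_add]; congr 1; ring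
  have hsplit' : Real.exp (-((C + 2) / p)) * Real.exp (2 / p) = Real.exp (-(C / p)) := by
    rw [← Real.exp_add]; congr 1; ring
  have h2p : 4 ≤ Real.exp (2 / p) := by
    have h1 : (2 : ℝ) ≤ 2 / p := by rw [le_div_iff₀ hp]; linarith
    have h2 : Real.exp 2 ≤ Real.exp (2 / p) := Real.exp_le_exp.2 h1
    have h3 : (4 : ℝ) ≤ Real.exp 2 := by
      have := Real.exp_one_gt_d9
      have e : Real.exp 2 = Real.exp 1 * Real.exp 1 := by rw [← Real.exp_add]; norm_num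
      rw [e]; nlinarith
    linarith
  have hE : 1 ≤ Real.exp (C / p) := Real.one_le_exp (by positivity)
  have hJm : 4 ≤ J * m := by nlinarith
  have hJ4 : (4 : ℝ) ≤ J := by nlinarith [show (0 : ℝ) ≤ J from Nat.cast_nonneg J]
  have hJ4' : 4 ≤ J := by exact_mod_cast hJ4
  have hJ1 : (((J - 1 : ℕ) : ℝ)) = J - 1 := by rw [Nat.cast_sub (by omega)]; norm_num
  have hE' : 0 < Real.exp (-((C + 2) / p)) := Real.exp_pos _
  have hEle : 4 * Real.exp (-((C + 2) / p)) ≤ Real.exp (-(C / p)) := by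
    rw [← hsplit']; nlinarith
  have hJa : Real.exp (C / p) ≤ J * m := by nlinarith
  have hJb : Real.exp (C / p) ≤ ((J - 1 : ℕ) : ℝ) * m := by
    rw [hJ1]
    nlinarith
  constructor
  · intro η
    rw [Measure.real]
    refine ENNReal.toReal_le_of_le_ofReal (by positivity) ?_
    refine (measure_mono ?_).trans (hT2 T δ hTT2 hδ hδA hJb (fun j => η j * η (j + 1)))
    rintro t ⟨ht, hc⟩
    refine ⟨ht, ?_⟩
    have hsub : {j : ℕ | j < J - 1 ∧ η j * η (j + 1) * (Zr (t + δ * j) * Zr (t + δ * ((j : ℝ) + 1))) ≤ 0} ⊆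
        {j : ℕ | j < J ∧ η j * Zr (t + j * δ) ≤ 0} ∪
          (fun j => j + 1) ⁻¹' {j : ℕ | j < J ∧ η j * Zr (t + j * δ) ≤ 0} := by
      rintro j ⟨hj, hle⟩
      by_contra hcon
      rw [Set.mem_union, not_or] at hcon
      have h1 : 0 < η j * Zr (t + j * δ) := by
        by_contra h'; exact hcon.1 ⟨by omega, not_lt.1 h'⟩
      have h2 : 0 < η (j + 1) * Zr (t + ((j + 1 : ℕ) : ℝ) * δ) := by
        by_contra h'; exact hcon.2 ⟨show j + 1 < J by omega, not_lt.1 h'⟩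
      have h3 := mul_pos h1 h2
      have e : η j * Zr (t + j * δ) * (η (j + 1) * Zr (t + ((j + 1 : ℕ) : ℝ) * δ)) =
          η j * η (j + 1) * (Zr (t + δ * j) * Zr (t + δ * ((j : ℝ) + 1))) := by
        push_cast
        rw [mul_comm δ (j : ℝ), mul_comm δ ((j : ℝ) + 1)]
        ring
      rw [e] at h3
      linarith
    have hfin := fin_lt J (fun j => η j * Zr (t + j * δ) ≤ 0)
    have hinj : Function.Injective (fun j : ℕ => j + 1) := add_left_injective 1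
    have h1 := Set.ncard_le_ncard hsub (hfin.union (hfin.preimage hinj.injOn))
    have h2 := Set.ncard_union_le {j : ℕ | j < J ∧ η j * Zr (t + j * δ) ≤ 0}
      ((fun j => j + 1) ⁻¹' {j : ℕ | j < J ∧ η j * Zr (t + j * δ) ≤ 0})
    have h3 : ((fun j => j + 1) ⁻¹' {j : ℕ | j < J ∧ η j * Zr (t + j * δ) ≤ 0}).ncard ≤
        {j : ℕ | j < J ∧ η j * Zr (t + j * δ) ≤ 0}.ncard := by
      rw [← Set.ncard_image_of_injective _ hinj]
      exact Set.ncard_le_ncard (Set.image_preimage_subset _ _) hfin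
    have h4 : ({j : ℕ | j < J - 1 ∧ η j * η (j + 1) * (Zr (t + δ * j) * Zr (t + δ * ((j : ℝ) + 1))) ≤ 0}.ncard : ℝ) ≤
        2 * ({j : ℕ | j < J ∧ η j * Zr (t + j * δ) ≤ 0}.ncard : ℝ) := by
      have : {j : ℕ | j < J - 1 ∧ η j * η (j + 1) * (Zr (t + δ * j) * Zr (t + δ * ((j : ℝ) + 1))) ≤ 0}.ncard ≤
          2 * {j : ℕ | j < J ∧ η j * Zr (t + j * δ) ≤ 0}.ncard := by omega
      exact_mod_cast this
    refine h4.trans ?_
    rw [hJ1]
    have hE0 : 0 ≤ Real.exp (-(C / p)) := (Real.exp_pos _).le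
    have h5 : 2 * (Real.exp (-((C + 2) / p)) * (J * m)) ≤ Real.exp (-(C / p)) * ((J - 1) * m) := by
      have h6 : J * m ≤ 2 * ((J - 1) * m) := by nlinarith
      have h7 : 0 ≤ (J - 1) * m := by nlinarith
      nlinarith
    linarith
  · intro e
    set N := {t : ℝ | ∃ j : ℕ, Zr (t + δ * j) = 0} with hN
    set P := {t : ℝ | t ∈ Icc T (2 * T) ∧
      ({j : ℕ | j < J ∧ (-1 : ℝ) ^ e j * (Zr (t + δ * j) * Zr (t + δ * ((j : ℝ) + 1))) ≤ 0}.ncard : ℝ) ≤
            Real.exp (-(C / p)) * (J * m)} with hP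
    have hPle : volume.real P ≤ p * T := by
      rw [Measure.real]
      exact ENNReal.toReal_le_of_le_ofReal (by positivity) (hT1 T δ hTT1 hδ hδA hJa (fun j => (-1 : ℝ) ^ e j))
    have fP : volume P ≠ ⊤ := fin_of (fun t ht => ht.1 : P ⊆ Icc T (2 * T))
    have hN0 : volume.real N = 0 := by rw [Measure.real, null_set']; rfl
    have fN : volume N ≠ ⊤ := by rw [hN, null_set']; exact ENNReal.zero_ne_top
    have hsub : {t : ℝ | t ∈ Icc T (2 * T) ∧
          ({j : ℕ | j < J ∧ ¬ ct (t + j * δ) (t + (j + 1) * δ) ≡ e j [MOD 2]}.ncard : ℝ) ≤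
            Real.exp (-((C + 2) / p)) * (J * m)} ⊆ P ∪ N := by
      rintro t ⟨ht, hc⟩
      by_cases hn : t ∈ N
      · exact Or.inr hn
      refine Or.inl ⟨ht, ?_⟩
      have hz' : ∀ j : ℕ, Zr (t + δ * j) ≠ 0 := fun j h => hn ⟨j, h⟩
      have heq : {j : ℕ | j < J ∧ (-1 : ℝ) ^ e j * (Zr (t + δ * j) * Zr (t + δ * ((j : ℝ) + 1))) ≤ 0} =
          {j : ℕ | j < J ∧ ¬ ct (t + j * δ) (t + (j + 1) * δ) ≡ e j [MOD 2]} := by
        ext j
        simp only [Set.mem_ofPred_eq]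
        have ha : 2 ≤ t + δ * j := by
          have : 0 ≤ δ * (j : ℝ) := by positivity
          linarith [ht.1]
        have h2 : Zr (t + δ * j + δ) ≠ 0 := by
          have := hz' (j + 1)
          push_cast at this
          rwa [show t + δ * ((j : ℝ) + 1) = t + δ * j + δ by ring] at this
        have h3 := step_iff hδ ha (hz' j) h2 (e j)
        rw [show t + (j : ℝ) * δ = t + δ * j by ring, show t + ((j : ℝ) + 1) * δ = t + δ * j + δ by ring,
          show t + δ * ((j : ℝ) + 1) = t + δ * j + δ by ring, h3, not_lt]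
      rw [heq]
      refine hc.trans ?_
      have : 0 ≤ (J : ℝ) * m := by positivity
      nlinarith
    have h1 := measureReal_mono hsub
      (ne_top_of_le_ne_top (ENNReal.add_ne_top.2 ⟨fP, fN⟩) (measure_union_le _ _))
    have h2 := measureReal_union_le (μ := volume) P N
    linarith

lemma sgn_XS (T t : ℝ) : Real.sign (Zr t) * XS T t = |XS T t| := by
  unfold XS
  have h0 : 0 ≤ ‖Bz (Yn T) (bR (Real.log T)) t‖ ^ 2 := sq_nonneg _
  have e : (Pool.Agent.R304.SG.Z t).re = Zr t := rfl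
  rw [e, abs_mul, abs_of_nonneg h0, ← mul_assoc]
  congr 1
  rcases lt_trichotomy (Zr t) 0 with h | h | h
  · rw [Real.sign_of_neg h, abs_of_neg h]; ring
  · rw [h]; simp
  · rw [Real.sign_of_pos h, abs_of_pos h]; ring

theorem tw : ∃ C : ℝ, 0 < C ∧ ∀ (A : ℝ) (J : ℕ), 1 ≤ A → 1 ≤ J → ∃ T0 : ℝ, 8 ≤ T0 ∧ ∀ T δ : ℝ, T0 ≤ T → 1 / Real.log T ≤ δ → δ ≤ A →
      ∀ θ : ℝ, ∫ u in T..(2 * T), ‖∑ j ∈ Finset.range J, (XS T (u + δ * j) : ℂ) * cexp (2 * Real.pi * I * (θ * j))‖ ≤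
        C * (J : ℝ) ^ (31 / 32 : ℝ) * T := by
  obtain ⟨E, CE, c0, hC, hc0, hEc, hEl, hEd, hElow, hEft⟩ := Pool.Agent.Helper647.PT.ker
  have hE : KE E CE c0 := ⟨hC, hc0, hEc, hEl, hEd, hElow, hEft⟩
  obtain ⟨C1, hC1, hsm⟩ := sj E CE c0 hE
  exact JTB.tb XS cont (JTA.ta XS E c0 CE cont hEc hc0 hC hEd hElow ⟨C1, hC1, hsm⟩ SM2) SM2

/-- **words close to a trigonometric polynomial** -/
theorem nap : ∃ C : ℝ, 0 < C ∧ ∀ (A p M : ℝ) (K : ℕ), 1 ≤ A → 0 < p → p ≤ 1 → 0 ≤ M → ∃ J0 : ℝ, 1 ≤ J0 ∧ ∀ J : ℕ,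
      ∃ T0 : ℝ, ∀ T δ : ℝ, T0 ≤ T → 0 < δ → δ ≤ A → J0 ≤ J * min 1 (δ * Real.log T) → ∀ θ : Fin K → ℝ,
        volume.real {t : ℝ | t ∈ Icc T (2 * T) ∧ ∃ c : Fin K → ℂ, (∀ k, ‖c k‖ ≤ M) ∧
          ∑ j ∈ Finset.range J, ‖(Real.sign (Zr (t + j * δ)) : ℂ) -
            ∑ k, c k * cexp (2 * Real.pi * I * (θ k * j))‖ ^ 2 ≤ Real.exp (-(C / p)) * J} ≤ p * T := by
  obtain ⟨C, hC, h⟩ := JWQ.wq (fun t => Real.sign (Zr t))
    (JWP.wp XS (fun t => Real.sign (Zr t)) cont sgn_XS tw SM2 sv')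
  refine ⟨C, hC, fun A p M K hA hp hp1 hM => ?_⟩
  obtain ⟨J0, hJ0, h2⟩ := h A p M K hA hp hp1 hM
  refine ⟨J0, hJ0, fun J => ?_⟩
  obtain ⟨T0, hT0⟩ := h2 J
  refine ⟨max T0 0, fun T δ hT hδ hδA hJ θ => ?_⟩
  have hTT : T0 ≤ T := (le_max_left _ _).trans hT
  have hT0' : 0 ≤ T := (le_max_right _ _).trans hT
  rw [Measure.real]
  refine ENNReal.toReal_le_of_le_ofReal (by positivity) ?_
  have key := hT0 T δ hTT hδ hδA hJ θ
  simp only [mul_comm δ] at key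
  exact key

end Pool.Agent.Helper647.SG
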