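import Pool.Agent.Helper647_SG.Defs
import Pool.Agent.Helper647_PT.Ar6
import Pool.Agent.Helper647_PT.Win
import Pool.Agent.Helper647_PT.Mom

set_option autoImplicit false

/-! Simple steps: continuity, second moment, sign chain, large sieve. -/

namespace Pool.Agent.Helper647.SG

open Complex Filter Topology MeasureTheory Set
open Pool.Agent.Helper647.PT (al bR Bz Pz Yn Nn F1 KE cr Bz_cont)
open Pool.Agent.R304.GR (vt psi exp_vt)

theorem cont : S_cont := fun T =>
  (Complex.continuous_re.comp Pool.Agent.R304.SG.Z_cont).mul ((Bz_cont _ _).norm.pow 2)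

lemma Z_norm (t : ℝ) : |(Pool.Agent.R304.SG.Z t).re| = ‖riemannZeta (1 / 2 + I * t)‖ := by
  have h1 := Pool.Agent.R304.SG.Z_re t
  rw [← Real.norm_eq_abs, ← Complex.norm_real, h1]
  unfold Pool.Agent.R304.SG.Z
  rw [norm_mul, ← exp_vt, Pool.Agent.Helper647.PT.norm_cexp_I, one_mul]

lemma XS_abs (T t : ℝ) : |XS T t| = ‖riemannZeta (1 / 2 + I * t) * Bz (Yn T) (bR (Real.log T)) t ^ 2‖ := by
  unfold XS
  rw [abs_mul, Z_norm, abs_of_nonneg (sq_nonneg _), norm_mul, norm_pow]

theorem SM2 : S_SM := by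
  obtain ⟨C, T0, hC, hT0, h⟩ := Pool.Agent.Helper647.PT.mean_sq
  refine ⟨C, max T0 8, hC, le_max_right _ _, fun T hT => ?_⟩
  have h1 := h T ((le_max_left _ _).trans hT)
  refine le_trans (le_of_eq ?_) h1
  refine intervalIntegral.integral_congr fun t _ => ?_
  beta_reduce
  rw [← XS_abs, sq_abs]

theorem chain : S_chain := by
  intro T u δ i k hδ hik hO
  -- all counts in between are even
  have hev : ∀ n : ℕ, i + n ≤ k → Even (cr (u + δ * i) (u + δ * ((i + n : ℤ) : ℝ))) := by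
    intro n
    induction n with
    | zero =>
      intro _
      have : cr (u + δ * i) (u + δ * ((i + (0 : ℕ) : ℤ) : ℝ)) = 0 := by
        unfold cr
        have e : {t : ℝ | u + δ * i ≤ t ∧ t < u + δ * ((i + (0 : ℕ) : ℤ) : ℝ) ∧ riemannZeta (1 / 2 + I * t) = 0} = ∅ := by
          ext t
          simp only [Set.mem_ofPred_eq, Set.mem_empty_iff_false, iff_false]
          rintro ⟨x1, x2, x3⟩
          push_cast at x2
          linarith
        rw [e, finsum_mem_empty]
      rw [this]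
      exact Even.zero
    | succ n ih =>
      intro hn
      have h1 := ih (by push_cast at hn ⊢; omega)
      have h2 : u + δ * i ≤ u + δ * ((i + n : ℤ) : ℝ) := by
        push_cast
        have : 0 ≤ δ * (n : ℝ) := by positivity
        nlinarith
      have h3 : u + δ * ((i + n : ℤ) : ℝ) ≤ u + δ * ((i + (n + 1 : ℕ) : ℤ) : ℝ) := by
        push_cast
        nlinarith
      rw [Pool.Agent.Helper647.PT.cr_add h2 h3]
      refine h1.add ?_
      have h4 := hO (i + n) (by omega) (by push_cast at hn; omega)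
      unfold OS at h4
      rw [Set.mem_ofPred_eq, Nat.not_odd_iff_even] at h4
      have e : u + δ * ((i + (n + 1 : ℕ) : ℤ) : ℝ) = u + δ * ((i + n : ℤ) : ℝ) + δ := by
        push_cast; ring
      rw [e]
      exact h4
  obtain ⟨n, hn⟩ := Int.le.dest hik
  have h5 := hev n (by omega)
  rw [hn] at h5
  have hle : u + δ * i ≤ u + δ * k := by
    have : (i : ℝ) ≤ k := by exact_mod_cast hik
    nlinarith
  by_cases ha : (Pool.Agent.R304.SG.Z (u + δ * i : ℝ)).re = 0
  · unfold XS; rw [ha]; simp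
  by_cases hb : (Pool.Agent.R304.SG.Z (u + δ * k : ℝ)).re = 0
  · unfold XS; rw [hb]; simp
  have h6 := Pool.Agent.Helper647.PT.par_cr hle ha hb h5
  unfold XS
  have : (Pool.Agent.R304.SG.Z (u + δ * i)).re * ‖Bz (Yn T) (bR (Real.log T)) (u + δ * i)‖ ^ 2 *
      ((Pool.Agent.R304.SG.Z (u + δ * k)).re * ‖Bz (Yn T) (bR (Real.log T)) (u + δ * k)‖ ^ 2) =
      ((Pool.Agent.R304.SG.Z (u + δ * i)).re * (Pool.Agent.R304.SG.Z (u + δ * k)).re) *
      (‖Bz (Yn T) (bR (Real.log T)) (u + δ * i)‖ ^ 2 * ‖Bz (Yn T) (bR (Real.log T)) (u + δ * k)‖ ^ 2) := by ring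
  rw [this]
  positivity

theorem ls : S_ls := by
  classical
  intro E C c0 hE
  have hΦ : 0 ≤ ∫ v, E v ^ 2 := integral_nonneg fun v => sq_nonneg _
  refine ⟨(1 / c0) * (1 / 2) * (∫ v, E v ^ 2) + 1, ?_, ?_⟩
  · have := hE.hc0
    positivity
  intro T a B N Y β W hT hY hW hTY
  have hc0 := hE.hc0
  have hY1 : (1 : ℝ) ≤ Y := by exact_mod_cast hY
  have key := Pool.Agent.Helper647.PT.win_ls (tri N Y) (fun p => if lm p ∈ W then cf β p else 0) lm (fun v => E v ^ 2)
    (C ^ 2) c0 hc0 (hE.cont.pow 2) (fun v => sq_nonneg _) hE.sq_abs2 hE.low hE.ft T a hT ?_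
  · have hm : 0 ≤ mass N Y β W := by
      have h0 : 0 ≤ ∫ t in a..(a + T), ‖∑ i ∈ tri N Y, (((if lm i ∈ W then cf β i else 0 : ℝ)) : ℂ) *
          cexp (-(I * lm i * t))‖ ^ 2 := intervalIntegral.integral_nonneg (by linarith) fun t _ => by positivity
      have h1 := h0.trans key
      have h2 := hE.int_sq_pos
      have h3 : 0 < 1 / c0 * (T / 2) * ∫ v, E v ^ 2 := by
        have : 0 < ∫ v, E v ^ 2 := by linarith
        positivity
      unfold mass
      exact nonneg_of_mul_nonneg_right h1 h3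
    unfold DS
    refine key.trans ?_
    unfold mass at hm ⊢
    have h2 : 1 / c0 * (T / 2) * (∫ v, E v ^ 2) ≤ (1 / c0 * (1 / 2) * (∫ v, E v ^ 2) + 1) * T := by
      have : 1 / c0 * (T / 2) * (∫ v, E v ^ 2) = (1 / c0 * (1 / 2) * (∫ v, E v ^ 2)) * T := by ring
      rw [this]
      nlinarith
    exact mul_le_mul_of_nonneg_right h2 hm
  · intro p hp p' hp' h1 h2 hne
    have hpW : lm p ∈ W := by
      by_contra hc
      exact h1 (by simp only [if_neg hc])
    have hpW' : lm p' ∈ W := by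
      by_contra hc
      exact h2 (by simp only [if_neg hc])
    unfold tri at hp hp'
    simp only [Finset.mem_product, Finset.mem_Icc] at hp hp'
    obtain ⟨⟨a1, a2⟩, ⟨a3, a4⟩, a5, a6⟩ := hp
    obtain ⟨⟨b1, b2⟩, ⟨b3, b4⟩, b5, b6⟩ := hp'
    have c1 : (0 : ℝ) < p.1 := by exact_mod_cast a1
    have c2 : (0 : ℝ) < p.2.1 := by exact_mod_cast a3
    have c3 : (0 : ℝ) < p.2.2 := by exact_mod_cast a5
    have d1 : (0 : ℝ) < p'.1 := by exact_mod_cast b1
    have d2 : (0 : ℝ) < p'.2.1 := by exact_mod_cast b3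
    have d3 : (0 : ℝ) < p'.2.2 := by exact_mod_cast b5
    have e3 : (p.2.2 : ℝ) ≤ Y := by exact_mod_cast a6
    have e3' : (p'.2.2 : ℝ) ≤ Y := by exact_mod_cast b6
    obtain ⟨q, hq⟩ : ∃ q : ℝ, q = p.1 * p.2.1 / p.2.2 := ⟨_, rfl⟩
    obtain ⟨q', hq'⟩ : ∃ q' : ℝ, q' = p'.1 * p'.2.1 / p'.2.2 := ⟨_, rfl⟩
    have q0 : 0 < q := by rw [hq]; positivity
    have q0' : 0 < q' := by rw [hq']; positivity
    have l1 : lm p = Real.log q := by unfold lm; rw [hq]
    have l2 : lm p' = Real.log q' := by unfold lm; rw [hq']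
    have r1 : q ≤ Real.exp B := by
      rw [← Real.log_le_iff_le_exp q0, ← l1]; exact hW _ hpW
    have r2 : q' ≤ Real.exp B := by
      rw [← Real.log_le_iff_le_exp q0', ← l2]; exact hW _ hpW'
    have s1 := Pool.Agent.Helper647.PT.win_sep q q' (Real.exp B) q0 q0' r1 r2
    have hqq : q ≠ q' := by
      intro h
      apply hne
      rw [l1, l2, h]
    -- the distance of the fractions
    have s2 : 1 / (Y : ℝ) ^ 2 ≤ |q - q'| := by
      have e : q - q' = ((((p.1 * p.2.1 * p'.2.2 : ℕ) : ℤ) - ((p'.1 * p'.2.1 * p.2.2 : ℕ) : ℤ) : ℤ) : ℝ) /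
          (p.2.2 * p'.2.2) := by
        rw [hq, hq']
        push_cast
        field_simp
      have hne' : (((p.1 * p.2.1 * p'.2.2 : ℕ) : ℤ) - ((p'.1 * p'.2.1 * p.2.2 : ℕ) : ℤ) : ℤ) ≠ 0 := by
        intro h
        apply hqq
        rw [h] at e
        simp only [Int.cast_zero, zero_div] at e
        linarith
      have h3 : (1 : ℝ) ≤ |(((((p.1 * p.2.1 * p'.2.2 : ℕ) : ℤ) - ((p'.1 * p'.2.1 * p.2.2 : ℕ) : ℤ) : ℤ)) : ℝ)| := by
        exact_mod_cast Int.one_le_abs hne'
      rw [e, abs_div, abs_of_pos (show (0 : ℝ) < p.2.2 * p'.2.2 by positivity)]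
      refine div_le_div₀ (by positivity) h3 (by positivity) ?_
      nlinarith
    rw [l1, l2, abs_mul, abs_of_pos (show 0 < T / 2 by positivity), abs_sub_comm]
    have s3 : 1 / (Y : ℝ) ^ 2 / Real.exp B ≤ |Real.log q - Real.log q'| :=
      (div_le_div_of_nonneg_right s2 (Real.exp_pos _).le).trans s1
    have s4 : 1 ≤ T / 2 * (1 / (Y : ℝ) ^ 2 / Real.exp B) := by
      have hB := Real.exp_pos B
      rw [div_div, mul_one_div, le_div_iff₀ (by positivity)]
      linarith
    exact s4.trans (mul_le_mul_of_nonneg_left s3 (by positivity))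

end Pool.Agent.Helper647.SG
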